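import Pool.Agent.Lib.MP_a0e17f.Lower

/-!
# MP_a0e17f, block T: `N(k,d) ≤ 2d` for `3 ≤ k ≤ d - 2`, and the `K_{3,3}` lower bound

Definitions. `U` is a linear subspace of `ℝ^ι` (in the application the space of affine dependences of
a point set); `K U S` = elements of `U` vanishing on `S`, `kap U S = dim K U S`, `act U` = coordinates
not vanishing identically on `U`, `Pos y`, `Neg y` = sets of positive / negative coordinates
(`Core.lean`).
-/

set_option autoImplicit false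

namespace MPa0e17f

open Finset Module

variable {ι : Type} [Fintype ι] [DecidableEq ι]

/-- `y` is an element of `U` without zeros on the active coordinates (a tope) -/
def NZ (U : Submodule ℝ (ι → ℝ)) (y : ι → ℝ) : Prop := y ∈ U ∧ ∀ i ∈ act U, y i ≠ 0

/-- H1: every nonzero element of `U` has at least `k + 2` nonzero coordinates -/
def HS (k : ℕ) (U : Submodule ℝ (ι → ℝ)) : Prop :=
  ∀ μ ∈ U, μ ≠ 0 → k + 2 ≤ (univ.filter (fun i => μ i ≠ 0)).card

/-- H2: every nonzero element of `U` has a negative (hence also a positive) coordinate -/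
def HC (U : Submodule ℝ (ι → ℝ)) : Prop := ∀ μ ∈ U, μ ≠ 0 → ∃ i, μ i < 0

/-- `i` is proportional to `j` on `U` -/
def Prl (U : Submodule ℝ (ι → ℝ)) (i j : ι) : Prop := ∃ α : ℝ, ∀ μ ∈ U, μ i = α * μ j

/-- `i` is a positive multiple of `j` on `U` -/
def PrlP (U : Submodule ℝ (ι → ℝ)) (i j : ι) : Prop := ∃ α : ℝ, 0 < α ∧ ∀ μ ∈ U, μ i = α * μ j

/-- `i` is in the closure of `S` -/
def InCl (U : Submodule ℝ (ι → ℝ)) (S : Finset ι) (i : ι) : Prop := ∀ μ ∈ K U S, μ i = 0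

/-- `i` is a coloop of `P` -/
def Colp (U : Submodule ℝ (ι → ℝ)) (P : Finset ι) (i : ι) : Prop :=
  i ∈ P ∧ ∃ μ ∈ K U (P.erase i), μ i ≠ 0

/-- `kt` is at most the total kernel of every tope -/
def MinK (U : Submodule ℝ (ι → ℝ)) (kt : ℕ) : Prop :=
  ∀ l ∈ U, (∀ i ∈ act U, l i ≠ 0) → kt ≤ kap U (Pos l) + kap U (Neg l)

/-- a wall of total kernel `kt + 1` (output of the lemma `wall` in `Core.lean`) -/
structure Wall (U : Submodule ℝ (ι → ℝ)) (kt : ℕ) (y : ι → ℝ) (b : ι) : Prop where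
  mem : y ∈ U
  bact : b ∈ act U
  yb : y b = 0
  y0 : ∀ i ∈ act U, i ≠ b → y i ≠ 0
  pb : ∃ ν ∈ K U (Pos y), ν b ≠ 0
  qb : ∃ ν ∈ K U (Neg y), ν b ≠ 0
  sum : kt + 1 = kap U (Pos y) + kap U (Neg y)

/-- the equality case of the simple case (`n = 2m+2`), for a wall `y`, `b`; `m = dim U` -/
structure Eqc (k : ℕ) (U : Submodule ℝ (ι → ℝ)) (kt : ℕ) (y : ι → ℝ) (b : ι) : Prop where
  wall : Wall U kt y b
  kt_eq : kt + k = finrank ℝ U
  /-- coloops of one side are not in the closure of the other side -/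
  cp : ∀ i, Colp U (Pos y) i → ¬ InCl U (Neg y) i
  cq : ∀ i, Colp U (Neg y) i → ¬ InCl U (Pos y) i
  /-- `B ∪ C` is a basis -/
  basis : ∀ g : ι → ℝ, ∃ μ ∈ U, ∀ i ∈ act U, (i = b ∨ Colp U (Pos y) i ∨ Colp U (Neg y) i ∨
    (InCl U (Pos y) i ∧ InCl U (Neg y) i)) → μ i = g i
  zero : ∀ μ ∈ U, (∀ i ∈ act U, (i = b ∨ Colp U (Pos y) i ∨ Colp U (Neg y) i ∨
    (InCl U (Pos y) i ∧ InCl U (Neg y) i)) → μ i = 0) → μ = 0
  /-- `C` is not empty -/
  cne : ∃ c ∈ act U, InCl U (Pos y) c ∧ InCl U (Neg y) c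
  /-- equality in Lemma S -/
  actP : (act (K U (Pos y))).card = kap U (Pos y) + k + 1
  actQ : (act (K U (Neg y))).card = kap U (Neg y) + k + 1
  /-- nothing vanishes on both `K U (P \ coloops)` and `K U (Q \ coloops)` -/
  both : ∀ i ∈ act U, ¬ ((∀ μ ∈ U, (∀ j ∈ Pos y, ¬ Colp U (Pos y) j → μ j = 0) → μ i = 0) ∧
    (∀ μ ∈ U, (∀ j ∈ Neg y, ¬ Colp U (Neg y) j → μ j = 0) → μ i = 0))

/-- the base case `m = k + 1`, `n = 2m + 2` -/
structure Bas (k : ℕ) (U : Submodule ℝ (ι → ℝ)) : Prop where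
  k3 : 3 ≤ k
  dim : finrank ℝ U = k + 1
  card : (act U).card = 2 * k + 4
  hs : HS k U
  hc : HC U

/-- one heavy class: `c1`, `c2` are the only proportional coordinates, with the same direction -/
structure OneP (k : ℕ) (U : Submodule ℝ (ι → ℝ)) (c1 c2 : ι) : Prop where
  bas : Bas k U
  h1 : c1 ∈ act U
  h2 : c2 ∈ act U
  ne : c1 ≠ c2
  par : PrlP U c2 c1
  oth : ∀ i ∈ act U, ∀ j ∈ act U, i ≠ j → i ≠ c1 → i ≠ c2 → ¬ Prl U i j

/-- two heavy classes `{c1, c2}` and `{e1, e2}`, each with the same direction -/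
structure TwoP (k : ℕ) (U : Submodule ℝ (ι → ℝ)) (c1 c2 e1 e2 : ι) : Prop where
  bas : Bas k U
  hc1 : c1 ∈ act U
  hc2 : c2 ∈ act U
  he1 : e1 ∈ act U
  he2 : e2 ∈ act U
  nec : c1 ≠ c2
  nee : e1 ≠ e2
  parc : PrlP U c2 c1
  pare : PrlP U e2 e1
  npar : ¬ Prl U e1 c1

/-- the contraction of both classes: `U'' = {μ ∈ U : μ(c1) = μ(e1) = 0}` -/
noncomputable def UU (U : Submodule ℝ (ι → ℝ)) (c1 e1 : ι) : Submodule ℝ (ι → ℝ) := K U {c1, e1}

/-- the light elements: the active coordinates of `U''` -/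
noncomputable def LL (U : Submodule ℝ (ι → ℝ)) (c1 e1 : ι) : Finset ι := act (UU U c1 e1)

/-- a `D`-set: a set of `k` light elements of rank `k - 1` (`dim K U D = 2`) -/
def Dset (k : ℕ) (U : Submodule ℝ (ι → ℝ)) (c1 e1 : ι) (D : Finset ι) : Prop :=
  D ⊆ LL U c1 e1 ∧ D.card = k ∧ kap U D = 2

end MPa0e17f
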