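import Pool.Agent.Lib.MP_a0e17f.T.SpecB

/-!
# Specifications, part C: the base case with two heavy classes

`TwoP k U c1 c2 e1 e2` (`Defs.lean`). The four are `c1, c2, e1, e2`; `c1, c2` have the same signs, and so do
`e1, e2` (TLK (10)). `UU = K U {c1, e1}` (dimension `k - 1`), `LL = act UU` (the `2k` light elements,
`act U = LL ∪ {the four}`). `Dset D`: `D ⊆ LL`, `|D| = k`, `kap U D = 2`. Below `D`-sets, `UU`, `LL`, `Dset` always refer to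
`U, c1, e1`. `¬ Good k U` means: for every tope `y` of `U` one of `kap U (Pos y)`, `kap U (Neg y)` is positive. Here
`|act U| = 2k + 4`, so `kap U S = 0` if `S ⊆ act U`, `|S| ≥ k + 3` (TLK (1)).

Files `T/XXX.lean`, `import Pool.Agent.Lib.MP_a0e17f.T.SpecC`, namespace `MPa0e17f`,
`theorem specXXX (hYYY : SpecYYY) .. : SpecXXX`; own lemmas in the namespace `MPa0e17f.XXXM`.
-/

set_option autoImplicit false

namespace MPa0e17f

open Finset Module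

/-- **TPF** [250 lines]. Basic facts. (hyps: UNI, TLK)
PROOF. (1) `kap_singleton_of_ne` twice (`e1 ∈ act (K U {c1})` by TLK (2)). (2), (3): the four are distinct (signs of
proportionality: `e2 = c1` would give `Prl U e1 c1`, etc.) and not in `act UU`, so `|act UU| ≤ 2k`; Lemma S for `UU`
(`k - 1 ≥ 1`): `≥ 2k`. So `UU` is uniform (UNI applies to `UU`). (4) if `j` is one of the four then `j`, hence
`i`, vanishes on `UU`; if `j ∈ LL` this is UNI (4) for `UU` (`k - 1 ≥ 2`). (5) UNI (2) for `UU` and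
`kap U S ≤ kap UU S + 2` (`K U (insert c1 (insert e1 S)) = K UU S`, `kap_le_insert` twice),
`finrank_le_kap_add_card`. (6) UNI (1). (7) if `kap U S ≥ 2` then `kap U (insert c1 S) ≥ 1`, but
`K U (insert c1 S) = K U (insert c2 (insert c1 S))` and `|S ∪ {c1, c2}| ≥ k + 3`. (8) `|insert i S| = k + 3`. (9) UNI (5)
for `UU` and the set `Z` (values `1` on `T`, `-1` on `Z \ T`), TLK (8) in `UU`. (10) TLK (7) (`s c1 = s e1 = 1`), TLK (8).
(11) `K U S` has dimension `2` by (5) and `K UU S = 0` by (6), so `φ ↦ (φ c1, φ e1)` is injective on `K U S`, hence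
surjective onto `ℝ × ℝ`. (12) `Neg y` does not contain the four; `Pos y ∩ LL` is disjoint to it, the union is `LL`. -/
def SpecTPF : Prop := ∀ (ι : Type) [Fintype ι] [DecidableEq ι] (k : ℕ) (U : Submodule ℝ (ι → ℝ))
  (c1 c2 e1 e2 : ι), TwoP k U c1 c2 e1 e2 →
  finrank ℝ (UU U c1 e1) + 1 = k ∧
  (LL U c1 e1).card = 2 * k ∧
  (∀ i, i ∈ LL U c1 e1 ↔ i ∈ act U ∧ i ≠ c1 ∧ i ≠ c2 ∧ i ≠ e1 ∧ i ≠ e2) ∧
  (∀ i ∈ LL U c1 e1, ∀ j ∈ act U, i ≠ j → ¬ Prl U i j ∧ ¬ Prl U j i) ∧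
  (∀ S ⊆ LL U c1 e1, S.card + 1 ≤ k → kap U S + S.card = k + 1 ∧
    kap (UU U c1 e1) S + S.card + 1 = k) ∧
  (∀ S ⊆ LL U c1 e1, k ≤ S.card + 1 → kap (UU U c1 e1) S = 0 ∧ kap U S ≤ 2) ∧
  (∀ S ⊆ LL U c1 e1, k + 1 ≤ S.card → kap U S ≤ 1) ∧
  (∀ S ⊆ LL U c1 e1, S.card = k + 2 → ∀ μ ∈ K U S, μ ≠ 0 → ∀ i ∈ act U, i ∉ S → μ i ≠ 0) ∧
  (∀ v ∈ UU U c1 e1, ∀ Z : Finset ι, (∀ i, i ∈ Z ↔ i ∈ LL U c1 e1 ∧ v i = 0) → Z.card + 1 ≤ k →
    ∀ T ⊆ Z, ∃ y, NZ (UU U c1 e1) y ∧ Pos y = Pos v ∪ T ∧ Neg y = Neg v ∪ (Z \ T)) ∧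
  (∀ y, NZ (UU U c1 e1) y → ∃ y', NZ U y' ∧ Neg y' = Neg y ∧ Pos y' = Pos y ∪ {c1, c2, e1, e2}) ∧
  (∀ S ⊆ LL U c1 e1, S.card + 1 = k → ∀ a b : ℝ, ∃ φ ∈ K U S, φ c1 = a ∧ φ e1 = b) ∧
  (∀ y, NZ U y → c1 ∈ Pos y → e1 ∈ Pos y → c2 ∈ Pos y ∧ e2 ∈ Pos y ∧ Neg y ⊆ LL U c1 e1 ∧
    (Pos y ∩ LL U c1 e1).card + (Neg y).card = 2 * k ∧ (Pos y).card = (Pos y ∩ LL U c1 e1).card + 4 ∧
    Pos y ∩ LL U c1 e1 = LL U c1 e1 \ Neg y)

/-- **LST** [100 lines]. A light step. (hyps: STP, TLK, TPF)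
PROOF. STP from `y` in the direction `s`. An element `i ∈ Z` has `y i * s i < 0`; it is not in `Neg y` (there
`s i ≤ 0`), so `y i > 0 > s i`; `i` is not one of the four (`s ≥ 0` there by TLK (10)), so `i ∈ LL`; by TPF (4) `Z = {i}`. -/
def SpecLST : Prop := ∀ (ι : Type) [Fintype ι] [DecidableEq ι] (k : ℕ) (U : Submodule ℝ (ι → ℝ))
  (c1 c2 e1 e2 : ι), TwoP k U c1 c2 e1 e2 → ∀ y, NZ U y → c1 ∈ Pos y → e1 ∈ Pos y →
  ∀ s ∈ U, 0 ≤ s c1 → 0 ≤ s e1 → (∀ i ∈ Neg y, s i ≤ 0) → (∃ i, 0 < y i ∧ s i < 0) →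
  ∃ x ∈ Pos y ∩ LL U c1 e1, s x < 0 ∧ ∃ y1, NZ U y1 ∧ c1 ∈ Pos y1 ∧ e1 ∈ Pos y1 ∧
    Neg y1 = insert x (Neg y) ∧ Pos y1 = (Pos y).erase x

/-- **STK** [200 lines]. (hyps: STP, TLK, TPF, LST)
PROOF. `S = Neg y ⊆ LL`, `S' = Pos y ∩ LL`, both with `k` elements. Let `ψ ∈ K U S`, `ψ ≠ 0`; `(ψ c1, ψ e1) ≠ (0, 0)` by
TPF (6). Whenever a light `x ∈ S'` with `ψ x ≠ 0` is crossed, the new tope has the negative side `S ∪ x` with
`kap U = 0` (`kap_insert_of_ne`) and the positive side has `k + 3` elements, kernel `0`: `Good`, a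
contradiction. Case A: `ψ c1 * ψ e1 ≥ 0`: choose the sign such that both are `≥ 0`; by `HC` `ψ` is negative
somewhere (not on `S`); LST: contradiction. Case B: `ψ c1 > 0 > ψ e1` or the opposite; consider the
direction `ψ` with `ψ c1 > 0 > ψ e1`. STP: `Z` does not contain `c1, c2` (`ψ > 0` there) nor elements of `S`; if it
contains a light element it is `{x}`: contradiction. So `Z = {e1, e2}`; the new tope has the sides
`S' ∪ {c1, c2}` and `S ∪ {e1, e2}`; `kap U (insert e1 S) = 0`. So `kap U (insert c1 S') ≥ 1` (`¬ Good`, and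
`K U (S' ∪ {c1, c2}) = K U (insert c1 S')`). With `-ψ`: `kap U (insert e1 S') ≥ 1`. If `kap U S' = 1` then both equal
`K U S'`, so a nonzero `θ ∈ K U S'` has `θ c1 = θ e1 = 0`, `θ ∈ K UU S' = 0` (TPF (6)), a contradiction. As
`1 ≤ kap U S' ≤ 2` we get `kap U S' = 2`. -/
def SpecSTK : Prop := ∀ (ι : Type) [Fintype ι] [DecidableEq ι] (k : ℕ) (U : Submodule ℝ (ι → ℝ))
  (c1 c2 e1 e2 : ι), TwoP k U c1 c2 e1 e2 → ¬ Good k U → ∀ y, NZ U y → c1 ∈ Pos y → e1 ∈ Pos y →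
  (Neg y).card = k → kap U (Neg y) = 1 → Dset k U c1 e1 (Pos y ∩ LL U c1 e1)

/-- **DF1** [60 lines]. (hyps: TPF, STK)
PROOF. TPF (10): lift `y` to `y'`. `1 ≤ kap U (Neg y) ≤ 2` (`finrank_le_kap_add_card`, TPF (6)). If it is `2` then
`Dset (Neg y)`; if it is `1` STK gives `Dset (Pos y' ∩ LL) = Dset (Pos y)`. -/
def SpecDF1 : Prop := ∀ (ι : Type) [Fintype ι] [DecidableEq ι] (k : ℕ) (U : Submodule ℝ (ι → ℝ))
  (c1 c2 e1 e2 : ι), TwoP k U c1 c2 e1 e2 → ¬ Good k U → ∀ y, NZ (UU U c1 e1) y →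
  (Pos y).card = k → (Neg y).card = k → Dset k U c1 e1 (Pos y) ∨ Dset k U c1 e1 (Neg y)

/-- **DF2** [100 lines]. Two `D`-sets have at most `k - 2` common elements. (hyps: TPF)
PROOF. `kap U (D1 ∪ D2) + kap U (D1 ∩ D2) ≥ 4` (`kap_union_add`). If `|D1 ∩ D2| = k - 1` then
`kap U (D1 ∩ D2) = 2` (TPF (5)), so `kap U (D1 ∪ D2) ≥ 2`, `|D1 ∪ D2| = k + 1`: contradiction to TPF (7). If
`|D1 ∩ D2| = k - 2`: `kap U (D1 ∩ D2) = 3`, so `kap U (D1 ∪ D2) ≥ 1`, `|D1 ∪ D2| = k + 2`; TPF (7), (8). -/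
def SpecDF2 : Prop := ∀ (ι : Type) [Fintype ι] [DecidableEq ι] (k : ℕ) (U : Submodule ℝ (ι → ℝ))
  (c1 c2 e1 e2 : ι), TwoP k U c1 c2 e1 e2 → ∀ D1 D2 : Finset ι, Dset k U c1 e1 D1 →
  Dset k U c1 e1 D2 → D1 ≠ D2 → (D1 ∩ D2).card + 2 ≤ k ∧
  ((D1 ∩ D2).card + 2 = k → (D1 ∪ D2).card = k + 2 ∧ kap U (D1 ∪ D2) = 1 ∧
    (∀ μ ∈ K U (D1 ∪ D2), μ ≠ 0 → ∀ i ∈ act U, i ∉ D1 ∪ D2 → μ i ≠ 0))

/-- **DF3** [100 lines]. (hyps: TPF, LST, STK)
PROOF. Lift `y` to `y'` (TPF (10)), `N = Neg y`, `|N| = k - 1`, `kap U N = 2`. By TPF (11) let `φ ∈ K U N`, `φ c1 = 0`,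
`φ e1 = 1`. By `HC` `φ` is negative at some `i` (`i ∉ N`, so `y' i > 0`). LST in the direction `φ`: `x ∈ Pos y` with
`φ x < 0` and a tope with `Neg = insert x N`, `kap U (insert x N) = 1`. STK: `Dset ((Pos y).erase x)`. -/
def SpecDF3 : Prop := ∀ (ι : Type) [Fintype ι] [DecidableEq ι] (k : ℕ) (U : Submodule ℝ (ι → ℝ))
  (c1 c2 e1 e2 : ι), TwoP k U c1 c2 e1 e2 → ¬ Good k U → ∀ y, NZ (UU U c1 e1) y →
  (Neg y).card + 1 = k → ∃ x ∈ Pos y, Dset k U c1 e1 ((Pos y).erase x)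

/-! ## `k ≥ 4` -/

/-- **WAL** [200 lines]. A wall of `UU` for `k ≥ 4`. (hyps: STP, UNI, BLS, TLK, TPF)
PROOF. Let `Z0 ⊆ LL`, `|Z0| = k - 3`, `Y = K UU Z0`, `dim Y = 2` (UNI (2) for `UU`), `act Y = LL \ Z0` (UNI (3)),
`|act Y| = k + 3 = dim Y + k + 1`: `Y` is uniform, no two coordinates are proportional on `Y` (UNI (4)). If `k` is even:
BLS (2) with `q = (k + 2) / 2 ≥ 3` gives `v` with exactly one further zero, `|Pos v| = |Neg v| = q`. If `k` is odd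
(`k ≥ 5`): BLS (1) with `q = (k + 3) / 2 ≥ 4`; its second alternative is impossible, so there is a tope `y` of `Y`
with `|Pos y| = |Neg y| = q`; STP in the direction `-y`: `Z = {x}`, and the point on the wall has the sides
`q - 1`, `q` or `q`, `q - 1`, both at least `3`. -/
def SpecWAL : Prop := ∀ (ι : Type) [Fintype ι] [DecidableEq ι] (k : ℕ) (U : Submodule ℝ (ι → ℝ))
  (c1 c2 e1 e2 : ι), TwoP k U c1 c2 e1 e2 → 4 ≤ k → ∃ v ∈ UU U c1 e1, ∃ Z : Finset ι,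
  (∀ i, i ∈ Z ↔ i ∈ LL U c1 e1 ∧ v i = 0) ∧ Z.card + 2 = k ∧ 3 ≤ (Pos v).card ∧
  3 ≤ (Neg v).card ∧ (Pos v).card + (Neg v).card = k + 2

/-- **BIG** [200 lines]. The case `k ≥ 5`. (hyps: TPF, DF1, DF2, WAL)
PROOF. `v`, `Z` from WAL, `A = Pos v`, `B = Neg v`, `a = |A|`, `b = |B|`, `a + b = k + 2`, `3 ≤ a, b ≤ k - 1`,
`|Z| = k - 2 ≥ 3`. Put `t = k - a`, `1 ≤ t ≤ k - 3 = |Z| - 1`. For `T ⊆ Z`, `|T| = t`, TPF (9) gives a tope
`(A ∪ T | B ∪ (Z \ T))` of `UU` with `k` elements on both sides. There are three sets `T1, T2, T3 ⊆ Z` with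
`t` elements such that `|Ti ∩ Tj| = t - 1` for `i ≠ j`: if `t = |Z| - 1` take `Z \ x1, Z \ x2, Z \ x3`, otherwise
`T0 ∪ x1, T0 ∪ x2, T0 ∪ x3` with `|T0| = t - 1`, `|Z \ T0| ≥ 3`. By DF1 for each `i` `A ∪ Ti` or `B ∪ (Z \ Ti)` is a
`D`-set; two of the three have the same side, and these two `D`-sets have `k - 1` common elements: contradiction
to DF2. -/
def SpecBIG : Prop := ∀ (ι : Type) [Fintype ι] [DecidableEq ι] (k : ℕ) (U : Submodule ℝ (ι → ℝ))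
  (c1 c2 e1 e2 : ι), TwoP k U c1 c2 e1 e2 → 5 ≤ k → Good k U

/-- the configuration for `k = 4`: `v` has exactly the zeros `z, w` in `LL`, three positive and three negative
light elements; both sides together with `z` are `D`-sets -/
structure V4 {ι : Type} [Fintype ι] [DecidableEq ι] (U : Submodule ℝ (ι → ℝ)) (c1 e1 : ι)
    (v : ι → ℝ) (z w : ι) : Prop where
  mem : v ∈ UU U c1 e1
  zL : z ∈ LL U c1 e1
  wL : w ∈ LL U c1 e1
  zw : z ≠ w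
  vz : v z = 0
  vw : v w = 0
  nz : ∀ i ∈ LL U c1 e1, i ≠ z → i ≠ w → v i ≠ 0
  pc : (Pos v).card = 3
  nc : (Neg v).card = 3
  dp : Dset 4 U c1 e1 (insert z (Pos v))
  dn : Dset 4 U c1 e1 (insert z (Neg v))

/-- **FVA** [120 lines]. (hyps: TPF, DF1, DF2, WAL)
PROOF. WAL: `v`, `Z = {z, w}`, `A = Pos v`, `B = Neg v` with three elements. TPF (9) with `T = {z}` and `T = {w}`, DF1:
(`A ∪ z` or `B ∪ w`) and (`A ∪ w` or `B ∪ z`) are `D`-sets. `A ∪ z` and `A ∪ w` are not both `D`-sets, `B ∪ z` and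
`B ∪ w` neither (DF2: three common elements). So `A ∪ z` and `B ∪ z` are `D`-sets, or `A ∪ w` and `B ∪ w`
(exchange `z` and `w`). -/
def SpecFVA : Prop := ∀ (ι : Type) [Fintype ι] [DecidableEq ι] (U : Submodule ℝ (ι → ℝ))
  (c1 c2 e1 e2 : ι), TwoP 4 U c1 c2 e1 e2 → ¬ Good 4 U → ∃ v z w, V4 U c1 e1 v z w

/-- **FVB** [250 lines]. (hyps: STP, UNI, TLK, TPF, DF1, DF2, DF3)
PROOF. `A = Pos v`, `B = Neg v`, `D1 = A ∪ z`, `D2 = B ∪ z`. `Y = K UU {z}`: `dim Y = 2`, `act Y = LL \ z`, `7` elements,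
uniform. Let `s ∈ Y`, `s w > 0`, nudge: a tope `y` of `Y` with the sides `A ∪ w`, `B` (TLK (8) in `Y`). STP in `Y` from
`y` in the direction `-v`: `Z = {x}` (UNI (4)), `x ≠ w` (`v w = 0`), so `x ∈ A ∪ B`; let `v1 ∈ Y` be the point on the
wall, its zeros in `LL` are exactly `z, x`. Suppose `x ∈ A`: `Pos v1 = (A \ x) ∪ w`, `Neg v1 = B`. TPF (9) (`T = {z}`) and
DF1: `(A \ x) ∪ {w, z}` or `B ∪ x` is a `D`-set; the first has three common elements with `D1`, the second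
with `D2`: contradiction to DF2 (they are different: `w ∉ D1`, `x ∉ D2`). So `x = g ∈ B`: `Pos v1 = A ∪ w`,
`Neg v1 = B \ g`. TPF (9) with `T = {g}`: a tope with the sides `A ∪ {w, g}`, `(B \ g) ∪ z`. DF3: for some `h` in
`A ∪ {w, g}` the set `(A ∪ {w, g}) \ h` is a `D`-set. `h ≠ w` and `h ≠ g` (`A ∪ g`, `A ∪ w` have three common elements
with `D1`). So `h = f ∈ A`. -/
def SpecFVB : Prop := ∀ (ι : Type) [Fintype ι] [DecidableEq ι] (U : Submodule ℝ (ι → ℝ))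
  (c1 c2 e1 e2 : ι), TwoP 4 U c1 c2 e1 e2 → ¬ Good 4 U → ∀ v z w, V4 U c1 e1 v z w →
  ∃ g ∈ Neg v, ∃ f ∈ Pos v, ∃ v1 ∈ UU U c1 e1, v1 z = 0 ∧ v1 g = 0 ∧ Pos v1 = insert w (Pos v) ∧
    Neg v1 = (Neg v).erase g ∧ Dset 4 U c1 e1 (insert w (insert g ((Pos v).erase f)))

/-- **FVC** [200 lines]. (hyps: TPF, DF2, FVB)
PROOF. `A = Pos v`, `B = Neg v`, `D1 = A ∪ z`, `D2 = B ∪ z`. FVB for `v`: `g ∈ B`, `f ∈ A`, `v1`, `D3 = (A \ f) ∪ {w, g}`. FVB for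
`-v` (`V4` holds for `-v`, the sides are exchanged): `f' ∈ A`, `g' ∈ B`, `v2` with `v2 z = v2 f' = 0`,
`Pos v2 = B ∪ w`, `Neg v2 = A \ f'`, `D4 = (B \ g') ∪ {w, f'}`. `|D1 ∩ D3| = 2`: by DF2 let `μ1 ≠ 0` be in
`K U (D1 ∪ D3)`, its zeros in `act U` are exactly `D1 ∪ D3 = A ∪ {z, w, g}`. In the same way `μ2 ∈ K U (D2 ∪ D4)`
with the zeros `B ∪ {z, w, f'}`. Both are in `K U D5`, `D5 = {z, w, g, f'}`, and they are linearly
independent (let `a ∈ A`, `a ≠ f'`: `μ1 a = 0 ≠ μ2 a`, and `μ1 ≠ 0`), so `kap U D5 ≥ 2`, and `= 2` by TPF (6). So `D5` is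
a `D`-set. If `f' ≠ f` then `D3 ∩ D5 ⊇ {w, g, f'}`, `D3 ≠ D5` (`z`), contradiction to DF2; if `g' ≠ g` then
`D4 ∩ D5 ⊇ {w, f', g}`, contradiction. So `f' = f`, `g' = g`. -/
def SpecFVC : Prop := ∀ (ι : Type) [Fintype ι] [DecidableEq ι] (U : Submodule ℝ (ι → ℝ))
  (c1 c2 e1 e2 : ι), TwoP 4 U c1 c2 e1 e2 → ¬ Good 4 U → ∀ v z w, V4 U c1 e1 v z w →
  ∃ g ∈ Neg v, ∃ f ∈ Pos v, ∃ v1 ∈ UU U c1 e1, ∃ v2 ∈ UU U c1 e1,
    v1 z = 0 ∧ v1 g = 0 ∧ Pos v1 = insert w (Pos v) ∧ Neg v1 = (Neg v).erase g ∧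
    v2 z = 0 ∧ v2 f = 0 ∧ Pos v2 = insert w (Neg v) ∧ Neg v2 = (Pos v).erase f ∧
    Dset 4 U c1 e1 (insert w (insert g ((Pos v).erase f))) ∧
    Dset 4 U c1 e1 (insert w (insert f ((Neg v).erase g))) ∧ Dset 4 U c1 e1 {z, w, g, f}

/-- **FVD** [350 lines]. The case `k = 4`. (hyps: STP, UNI, TLK, TPF, DF1, DF2, DF3, FVA, FVC)
PROOF. Suppose `¬ Good 4 U`; FVA, FVC. `A = Pos v = {f, a1, a2}`, `B = Neg v = {g, b1, b2}`, `LL = A ∪ B ∪ {z, w}`;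
`D`-sets `D1 = {f, a1, a2, z}`, `D2 = {g, b1, b2, z}`, `D3 = {a1, a2, w, g}`, `D4 = {b1, b2, w, f}`,
`D5 = {z, w, g, f}`. `Y = K UU {z}` is uniform (`dim 2`, `7` elements). `v1, v2 ∈ Y`. Nudge `v1` by `v2` (`v2 g > 0`): a
tope `y` of `Y` with the sides `{f, a1, a2, w, g}`, `{b1, b2}`. STP in `Y` in the direction `v2` (`v2 > 0` on
`g, b1, b2, w`, `< 0` on `a1, a2`, `v2 f = 0`): `Z = {x}`, `x ∈ {a1, a2, b1, b2}`.
(1) `x = a ∈ {a1, a2}`, `a'` the other one: the wall point has the sides `{f, a', w, g}`, `{b1, b2}`, zeros `z, a`;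
TPF (9) with `T = ∅`: a tope with the sides `{f, a', w, g}`, `{b1, b2, z, a}`. DF1: the first has three common
elements with `D5`, the second with `D2`: contradiction to DF2.
(2) `x = b ∈ {b1, b2}`, `b'` the other one: the new tope of `Y` has the sides `{f, a1, a2, w, g, b}`, `{b'}`. STP again
in the direction `v2`: `Z = {x2}`, `x2 ∈ {a1, a2, b'}`. If `x2 = b'` the wall point is `≥ 0` and not `0`:
contradiction to `HC`. So `x2 = a ∈ {a1, a2}`: the wall point has the sides `{f, a', w, g, b}`, `{b'}`, zeros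
`z, a`. TPF (9), `T = ∅`: a tope with the sides `{f, a', w, g, b}`, `{b', z, a}`. DF3: `{f, a', w, g, b} \ h` is a
`D`-set. By DF2: `h ≠ f` (`D3`), `h ≠ a'` (`D5`), `h ≠ g` (`D4`), `h ≠ b` (`D5`). So `h = w`,
`D6 = {f, a', g, b}`. `|D1 ∩ D6| = 2`, `|D1 ∩ D3| = 2`: by DF2 there are `μ6 ≠ 0` in `K U (D1 ∪ D6)` with `μ6 w ≠ 0`, and
`μ3 ≠ 0` in `K U (D1 ∪ D3)`, so `μ3 w = 0`. Both are in `K U (insert g D1)` and they are linearly independent, so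
`kap U (insert g D1) ≥ 2`: contradiction to TPF (7) (`5` elements). -/
def SpecFVD : Prop := ∀ (ι : Type) [Fintype ι] [DecidableEq ι] (U : Submodule ℝ (ι → ℝ))
  (c1 c2 e1 e2 : ι), TwoP 4 U c1 c2 e1 e2 → Good 4 U

/-! ## `k = 3` -/

/-- **FOA** [120 lines]. For `k = 3` there are at most two `D`-sets. (hyps: TPF, DF2)
PROOF. `|LL| = 6`, `|Di| = 3`, `|Di ∩ Dj| ≤ 1`. If `D1 ∩ D2 = ∅` then `D1 ∪ D2 = LL`, `3 = |D3| ≤ 1 + 1`. So
`|D1 ∩ D2| = 1`, `|D1 ∪ D2| = 5`, `|D3 ∩ (D1 ∪ D2)| ≤ 2`, so there is `t ∈ D3`, `t ∉ D1 ∪ D2`, and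
`E = D3.erase t ⊆ D1 ∪ D2` (`LL` has only one element outside `D1 ∪ D2`). `kap U E = 2 = kap U D3` (TPF (5)), so
`K U E = K U D3`. By DF2 let `μ ≠ 0` be in `K U (D1 ∪ D2)`; `μ ∈ K U E = K U D3`, so `μ t = 0`, but the zeros of `μ`
are exactly `D1 ∪ D2`. -/
def SpecFOA : Prop := ∀ (ι : Type) [Fintype ι] [DecidableEq ι] (U : Submodule ℝ (ι → ℝ))
  (c1 c2 e1 e2 : ι), TwoP 3 U c1 c2 e1 e2 → ∀ D1 D2 D3 : Finset ι, Dset 3 U c1 e1 D1 →
  Dset 3 U c1 e1 D2 → Dset 3 U c1 e1 D3 → D1 ≠ D2 → D1 ≠ D3 → D2 ≠ D3 → False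

/-- **VCE** [200 lines]. Topes of `U` with `k - 1` negative elements (and the four positive) come from
topes of `UU`. (hyps: TLK, TPF, LST, STK, DF2)
PROOF. `N = Neg y`, `S = Pos y ∩ LL`, `|S| = k + 1`. By TPF (11) let `γ, ε ∈ K U N`, `γ c1 = 1`, `γ e1 = 0`, `ε c1 = 0`,
`ε e1 = 1`. For `μ ∈ U` let `T μ = μ - (μ c1) γ - (μ e1) ε ∈ UU` (linear, the identity on `UU`). `perturb U` `y` to `y'`
(same signs) with `T y' i ≠ 0` for all `i ∈ LL` (`proj i ∘ T` is not `0` on `UU ≤ U`). On `N` `T y' = y' < 0`. Claim: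
`T y' i > 0` for `i ∈ S`; then `T y'` is the tope. Suppose `T y' i < 0` for some `i ∈ S`. Let
`φ = (y' c1) γ + (y' e1) ε ∈ K U N`, `φ c1 = y' c1 > 0`, `φ e1 = y' e1 > 0`, `T y' = y' - φ`. Let `s = y' - (1 - δ) φ`,
`0 < δ < 1` so small that `s i < 0`; `s c1 = δ y' c1 > 0`, `s e1 > 0`, `s = y' < 0` on `N`. LST for `y'`, `s`: `x ∈ S` with
`s x < 0`, so `φ x > 0`, and a tope with `Neg = insert x N`, `kap U (insert x N) = 1` (`φ x ≠ 0`,
`kap U N = 2`). STK: `Dset (S.erase x)`. LST for `y'`, `φ` (`φ` is negative somewhere by `HC`): `x' ∈ S`, `φ x' < 0`,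
`Dset (S.erase x')` in the same way. `x ≠ x'`, so these `D`-sets have `k - 1` common elements: contradiction to
DF2. -/
def SpecVCE : Prop := ∀ (ι : Type) [Fintype ι] [DecidableEq ι] (k : ℕ) (U : Submodule ℝ (ι → ℝ))
  (c1 c2 e1 e2 : ι), TwoP k U c1 c2 e1 e2 → ¬ Good k U → ∀ y, NZ U y → c1 ∈ Pos y → e1 ∈ Pos y →
  (Neg y).card + 1 = k → ∃ y', NZ (UU U c1 e1) y' ∧ Neg y' = Neg y

/-- **TRI** [100 lines]. In a plane a tope has at most two neighbours.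
PROOF. `dim W = 2`, so there is a nontrivial relation `α y1 + β y2 + γ y3 = 0`. At `r` all three are negative, so
the coefficients are not all `≥ 0` and not all `≤ 0`. So (up to a permutation and a sign) `γ < 0`, `α, β ≥ 0`,
`(α, β) ≠ (0, 0)`: `α y1 + β y2 = |γ| y3`. At `x3` the left side is positive (`y1 x3, y2 x3 > 0`) and the right side is
negative. -/
def SpecTRI : Prop := ∀ (ι : Type) [Fintype ι] [DecidableEq ι] (W : Submodule ℝ (ι → ℝ))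
  (r x1 x2 x3 : ι), finrank ℝ W = 2 → r ∈ act W → x1 ∈ act W → x2 ∈ act W → x3 ∈ act W →
  r ≠ x1 → r ≠ x2 → r ≠ x3 → x1 ≠ x2 → x1 ≠ x3 → x2 ≠ x3 →
  ∀ y1 y2 y3, NZ W y1 → NZ W y2 → NZ W y3 → Neg y1 = {r, x1} → Neg y2 = {r, x2} →
  Neg y3 = {r, x3} → False

/-- **FOB** [350 lines]. (hyps: TLK, TPF, LST, STK, DF2, DF3, VCE, TRI)
PROOF. `|LL| = 6`, `dim UU = 2`, `kap U {r, x} = 2` (TPF (5)). Lift `y0`, `yx` to `Y0`, `Yx ∈ U` (TPF (10)): `Neg Y0 = {r}`,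
`Neg Yx = {r, x}`. By TPF (11) let `φ ∈ K U {r, x}`, `φ c1 = 0`, `φ e1 = 1`. (a) `φ x' < 0`: LST for `Y0`, `φ`: `z` with
`φ z < 0` and a tope of `U` with `Neg = {r, z}`; VCE and TRI give `z ∈ {x, x'}`, and `φ x = 0`, so `z = x'`.
(b) LST for `Yx`, `φ`: `q ∈ LL`, `q ∉ {r, x}`, `φ q < 0`, a tope with `Neg = {r, x, q}`, `kap U {r, x, q} = 1`;
STK: `D1 = LL \ {r, x, q}` is a `D`-set. If `q = x'` we are done. Suppose `q ≠ x'`.
(c) CLAIM: `μ x' * φ q = μ q * φ x'` for all `μ ∈ K U {x}`. Suppose not. `w = (-Yx x) Y0 + (Y0 x) Yx` has `w x = 0`,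
`w r < 0`, and it is positive on the rest of `act U`. `perturb (K U {x})` `w` to `w'` (same signs on
`act U \ x`, `w' x = 0`) with `w' x' * φ q ≠ w' q * φ x'`. So the times `t' = w' x' / |φ x'|`, `t'' = w' q / |φ q|` are
different and positive; let `t` be strictly between, `s = w' + t φ`: `s x = 0`, `s r < 0`, `s c1 > 0`, `s e1 > 0`.
If `t' < t''`: `s x' < 0 < s q`. LST for `Yx`, `s`: `z` with `s z < 0`, so `z ≠ q`, `φ z < 0`; a tope with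
`Neg = {r, x, z}`, `kap U {r, x, z} = 1`; STK: `LL \ {r, x, z}` is a `D`-set, it has two common elements with `D1`:
contradiction to DF2. If `t'' < t'`: `s q < 0 < s x'`. LST for `Y0`, `s`: `z` with `s z < 0`, so `z ≠ x'`, `z ≠ x`, and
a tope of `U` with `Neg = {r, z}`. VCE and TRI: contradiction.
(d) By (c) `K U {x, x', q} = K U {x, x'}`, so `D' = {x, x', q}` is a `D`-set. DF3 for `yx'`: some
`D2 = LL \ {r, x', q'}`, `q' ∉ {r, x'}`, is a `D`-set. `x' ∈ D'`, `x' ∉ D2`, so by DF2 `D' ∩ D2 = {x, q} \ {q'}` has at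
most one element: `q' ∈ {x, q}`. Then `D1 ∩ D2 = LL \ {r, x, x', q, q'}` has two elements, `x' ∈ D1`, `x' ∉ D2`:
contradiction to DF2. -/
def SpecFOB : Prop := ∀ (ι : Type) [Fintype ι] [DecidableEq ι] (U : Submodule ℝ (ι → ℝ))
  (c1 c2 e1 e2 : ι), TwoP 3 U c1 c2 e1 e2 → ¬ Good 3 U → ∀ (r x x' : ι), x ≠ x' → r ≠ x → r ≠ x' →
  ∀ y0 yx yx', NZ (UU U c1 e1) y0 → NZ (UU U c1 e1) yx → NZ (UU U c1 e1) yx' →
  Neg y0 = {r} → Neg yx = {r, x} → Neg yx' = {r, x'} → Dset 3 U c1 e1 (LL U c1 e1 \ {r, x, x'})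

/-- **FOC** [250 lines]. (hyps: STP, UNI, TLK, TPF, DF1, DF2, FOA, FOB)
PROOF. `UU` is a plane with `6` pairwise not proportional coordinates. Suppose `Neg y = {r}`. Let `u ≠ 0` be in
`K UU {r}`. STP in `UU` in the directions `u` and `-u` (`HC` gives the negative coordinates): topes `yx`, `yx'`
with `Neg = {r, x}`, `u x < 0`, and `Neg = {r, x'}`, `u x' > 0`, so `x ≠ x'`. FOB: `D = LL \ {r, x, x'}` is a `D`-set. STP from
`yx` in the direction `-yx'`: the elements `i` with `yx i * yx' i > 0` are `r` and those of `D`. So `Z = {z}`,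
`z = r` or `z ∈ D`. If `z = r`: a tope `T` with `Neg T = {x}`. STP from `T` in the direction `-yx'`: `Z = {q}`,
`T q * yx' q > 0`, so `q ∈ D` and there is a tope with `Neg = {x, q}`. FOB for `T` (with `r, x, x'` replaced by
`x, r, q`; `yx` has `Neg = {x, r}`): `LL \ {x, r, q}` is a `D`-set, different from `D`, with two common elements:
contradiction to DF2. So `z = d ∈ D`: a tope with the sides `LL \ {r, x, d}`, `{r, x, d}`. DF1; the first one has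
two common elements with `D` and is different from `D` (`x'`), so `{r, x, d}` is a `D`-set. By symmetry `{r, x', d'}` is
a `D`-set for some `d' ∈ D`. The three `D`-sets are different: contradiction to FOA. -/
def SpecFOC : Prop := ∀ (ι : Type) [Fintype ι] [DecidableEq ι] (U : Submodule ℝ (ι → ℝ))
  (c1 c2 e1 e2 : ι), TwoP 3 U c1 c2 e1 e2 → ¬ Good 3 U → ∀ y, NZ (UU U c1 e1) y →
  (Neg y).card ≠ 1 ∧ (Pos y).card ≠ 1

/-- **FOD** [250 lines]. The case `k = 3`. (hyps: STP, UNI, BLS, TLK, TPF, DF1, DF2, FOA, FOC)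
PROOF. Suppose `¬ Good 3 U`. BLS (1) in `UU` with `q = 3` (no proportional coordinates): a tope `T0` with
`|Pos T0| = |Neg T0| = 3`. Four times STP in the direction `-T0`: topes `T1, T2, T3, T4`, each time one element, not
crossed before (`Ti i * T0 i > 0`), is crossed: `x1, x2, x3, x4`. `T1` has the sides `2, 4` or `4, 2`; by FOC the sides
of `T2` are not `1, 5`, so `T2` has `3, 3`, and `x1, x2` lie on different sides of `T0`. In the same way `T4` has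
`3, 3`. So `|Pos T0 ∩ Pos T2| = 2`, `|Pos T2 ∩ Pos T4| = 2`, `|Pos T0 ∩ Pos T4| = 1`, and the same for `Neg`;
`Pos T0 ∩ Neg T2`, `Pos T2 ∩ Neg T4`, `Neg T0 ∩ Pos T2`, `Neg T2 ∩ Pos T4` have one element. DF1 for `T0, T2, T4`; by DF2
`Pos T0`, `Pos T2` are not both `D`-sets, etc. So either `Pos T0, Neg T2, Pos T4` or `Neg T0, Pos T2, Neg T4` are
`D`-sets; they are different: contradiction to FOA. -/
def SpecFOD : Prop := ∀ (ι : Type) [Fintype ι] [DecidableEq ι] (U : Submodule ℝ (ι → ℝ))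
  (c1 c2 e1 e2 : ι), TwoP 3 U c1 c2 e1 e2 → Good 3 U

/-! ## Assembly -/

/-- **TWO** [20 lines]. (hyps: BIG, FVD, FOD) -/
def SpecTWO : Prop := ∀ (ι : Type) [Fintype ι] [DecidableEq ι] (k : ℕ) (U : Submodule ℝ (ι → ℝ))
  (c1 c2 e1 e2 : ι), TwoP k U c1 c2 e1 e2 → Good k U

/-- **BAS** [120 lines]. The base case. (hyps: TLK, SMP, ANT, WT3, ONE, TWO)
PROOF. If `U` is `Simple` use SMP. Otherwise there are `c1 ≠ c2` in `act U` with `μ c1 = α μ c2` on `U`, `α ≠ 0`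
(TLK (9)). If a negative factor occurs for some pair use ANT. So all factors are positive. If three coordinates
are proportional use WT3. So the class of `c1` is `{c1, c2}`. If there is another pair `e1 ≠ e2` of proportional
coordinates, `e1 ∉ {c1, c2}`, then `TwoP`; otherwise `OneP`. -/
def SpecBAS : Prop := ∀ (ι : Type) [Fintype ι] [DecidableEq ι] (k : ℕ) (U : Submodule ℝ (ι → ℝ)),
  Bas k U → Good k U

end MPa0e17f
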