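import Pool.Agent.Lib.MP_a0e17f.T.SpecB
import Pool.Agent.Lib.MP_a0e17f.T.SpecC

section
/-! # ANT: two coordinates that are negative multiples of each other -/
set_option autoImplicit false

namespace MPa0e17f

open Finset Module

namespace ANTM

variable {ι : Type} [Fintype ι] [DecidableEq ι]

lemma hs_K {k : ℕ} {U : Submodule ℝ (ι → ℝ)} (h : HS k U) (S : Finset ι) : HS k (K U S) :=
  fun μ hμ => h μ (K_le U S hμ)

lemma hc_K {U : Submodule ℝ (ι → ℝ)} (h : HC U) (S : Finset ι) : HC (K U S) :=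
  fun μ hμ => h μ (K_le U S hμ)

/-- CLAIM G -/
lemma claimG {k : ℕ} {U : Submodule ℝ (ι → ℝ)} (hdim : finrank ℝ U = k + 1) {i j : ι}
    (hj : j ∈ act U) {α : ℝ} (hα : α < 0) (hij : ∀ μ ∈ U, μ i = α * μ j)
    {y : ι → ℝ} (hy : NZ (K U {j}) y) (hP : kap (K U {j}) (Pos y) = 0)
    (hN : kap (K U {j}) (Neg y) = 0) : Good k U := by
  classical
  obtain ⟨s0, hs0, hs00⟩ := exists_nowhere_zero U
  obtain ⟨s, hs, hsn, hsj⟩ : ∃ s ∈ U, (∀ w ∈ act U, s w ≠ 0) ∧ 0 < s j := by
    rcases lt_or_gt_of_ne (hs00 j hj) with h | h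
    · exact ⟨-s0, U.neg_mem hs0, fun w hw => by simpa using hs00 w hw, by simpa using h⟩
    · exact ⟨s0, hs0, hs00, h⟩
  have hsi : s i < 0 := by
    rw [hij s hs]
    exact mul_neg_of_neg_of_pos hα hsj
  have hyj : y j = 0 := hy.1.2 j (Finset.mem_singleton_self j)
  have hyi : y i = 0 := by rw [hij y hy.1.1, hyj, mul_zero]
  have hA : kap U (insert j (Pos y)) = 0 := by
    rw [kap, K_K] at hP
    rw [kap, Finset.insert_eq]
    exact hP
  have hB : kap U (insert i (Neg y)) = 0 := by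
    have h1 : kap U (insert i (Neg y)) ≤ kap (K U {j}) (Neg y) := by
      apply kap_le_of_le
      intro μ hμ
      have h2 : μ i = 0 := hμ.2 i (Finset.mem_insert_self _ _)
      rw [hij μ hμ.1] at h2
      have h3 : μ j = 0 := by
        rcases mul_eq_zero.1 h2 with h | h
        · exact absurd h hα.ne
        · exact h
      refine ⟨⟨hμ.1, fun x hx => ?_⟩, fun x hx => hμ.2 x (Finset.mem_insert_of_mem hx)⟩
      rw [Finset.mem_singleton.1 hx]
      exact h3
    omega
  refine finish hy.1.1 hs (fun w hw _ => hsn w hw) (A := insert j (Pos y))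
    (B := insert i (Neg y)) ?_ ?_ (by rw [hA, hB, hdim]; omega)
  · intro w hw
    rcases Finset.mem_insert.1 hw with rfl | hw
    · exact Or.inr ⟨hyj, hsj⟩
    · exact Or.inl (mem_Pos.1 hw)
  · intro w hw
    rcases Finset.mem_insert.1 hw with rfl | hw
    · exact Or.inr ⟨hyi, hsi⟩
    · exact Or.inl (mem_Neg.1 hw)

/-- a coordinate vanishing on `U` is not active -/
lemma notMem_act {U : Submodule ℝ (ι → ℝ)} {i : ι} (h : ∀ μ ∈ U, μ i = 0) : i ∉ act U := by
  intro hi
  obtain ⟨μ, hμ, h0⟩ := mem_act.1 hi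
  exact h0 (h μ hμ)

end ANTM

open ANTM in
theorem specANT (hSTP : SpecSTP) (hUNI : SpecUNI) (hGRW : SpecGRW) (hBLS : SpecBLS)
    (hTLK : SpecTLK) : SpecANT := by
  classical
  intro ι _ _ k U hB i hi j hj hne hex
  obtain ⟨α, hα, hij⟩ := hex
  have hk3 := hB.k3
  have hdim : finrank ℝ (K U {j}) = k := by
    have := finrank_K_singleton hj
    rw [hB.dim] at this
    omega
  have hHS : HS k (K U {j}) := hs_K hB.hs _
  have hHC : HC (K U {j}) := hc_K hB.hc _
  have hG : ∀ y, NZ (K U {j}) y → kap (K U {j}) (Pos y) = 0 → kap (K U {j}) (Neg y) = 0 →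
      Good k U := fun y hy h1 h2 => claimG hB.dim hj hα hij hy h1 h2
  have hjn : j ∉ act (K U {j}) := notMem_act fun μ hμ => hμ.2 j (Finset.mem_singleton_self j)
  have hin : i ∉ act (K U {j}) := notMem_act fun μ hμ => by
    rw [hij μ hμ.1, hμ.2 j (Finset.mem_singleton_self j), mul_zero]
  have hsub : act (K U {j}) ⊆ ((act U).erase i).erase j := by
    intro w hw
    refine Finset.mem_erase.2 ⟨?_, Finset.mem_erase.2 ⟨?_, act_mono (K_le U {j}) hw⟩⟩
    · rintro rfl; exact hjn hw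
    · rintro rfl; exact hin hw
  have hc1 : (act (K U {j})).card ≤ 2 * k + 2 := by
    have h1 := Finset.card_le_card hsub
    rw [Finset.card_erase_of_mem (Finset.mem_erase.2 ⟨hne.symm, hj⟩),
      Finset.card_erase_of_mem hi, hB.card] at h1
    omega
  have hc2 : 2 * k + 1 ≤ (act (K U {j})).card := by
    have := card_act_ge hB.hs (K U {j}) (K_le U {j}) (by omega)
    omega
  generalize hW : K U {j} = W at *
  obtain ⟨T1, -, -, -, T5, -, -, T8, -, -⟩ := hTLK ι W
  rcases Nat.lt_or_ge (act W).card (2 * k + 2) with hlt | hge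
  · -- `2k + 1` active coordinates
    have hcard : (act W).card = 2 * k + 1 := by omega
    obtain ⟨y, hyW, z, hz, hyz, hyn, hP, hN⟩ := balanced_wall (by omega) hdim hcard hHS
    obtain ⟨s, hs, hs0⟩ := exists_nowhere_zero W
    obtain ⟨y', hy', hP', hN'⟩ := T8 y hyW s hs (fun w hw _ => hs0 w hw)
    refine hG y' hy' ?_ ?_
    · rw [kap, Submodule.finrank_eq_zero, eq_bot_iff]
      intro μ hμ
      exact unif0 hdim hcard hHS (Pos_subset_act hyW) (by omega) hμ.1
        (fun x hx => hμ.2 x ((hP' x).2 (Or.inl (mem_Pos.1 hx))))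
    · rw [kap, Submodule.finrank_eq_zero, eq_bot_iff]
      intro μ hμ
      exact unif0 hdim hcard hHS (Neg_subset_act hyW) (by omega) hμ.1
        (fun x hx => hμ.2 x ((hN' x).2 (Or.inl (mem_Neg.1 hx))))
  · have hcard : (act W).card = 2 * k + 2 := by omega
    -- few zeros
    have hfew : ∀ S ⊆ act W, k + 1 ≤ S.card → kap W S = 0 := by
      intro S hS hSk
      exact T1 k S hHS hS (by omega)
    -- classes have at most two elements
    have hcls : ∀ a ∈ act W, ∀ b ∈ act W, ∀ l ∈ act W, a ≠ b → a ≠ l → b ≠ l →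
        Prl W b a → ¬ Prl W l a := by
      intro a ha b hb l hl hab hal hbl hba hla
      have h1 := finrank_K_singleton ha
      have h2 := card_act_ge hHS (K W {a}) (K_le W {a}) (by omega)
      have h3 : act (K W {a}) ⊆ (((act W).erase a).erase b).erase l := by
        intro w hw
        obtain ⟨μ, hμ, h0⟩ := mem_act.1 hw
        have hμa : μ a = 0 := hμ.2 a (Finset.mem_singleton_self a)
        refine Finset.mem_erase.2 ⟨?_, Finset.mem_erase.2 ⟨?_, Finset.mem_erase.2 ⟨?_,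
          act_mono (K_le W {a}) hw⟩⟩⟩
        · rintro rfl
          obtain ⟨β, hβ⟩ := hla
          exact h0 (by rw [hβ μ hμ.1, hμa, mul_zero])
        · rintro rfl
          obtain ⟨β, hβ⟩ := hba
          exact h0 (by rw [hβ μ hμ.1, hμa, mul_zero])
        · rintro rfl
          exact h0 hμa
      have h4 := Finset.card_le_card h3
      rw [Finset.card_erase_of_mem (Finset.mem_erase.2 ⟨hbl.symm,
        Finset.mem_erase.2 ⟨hal.symm, hl⟩⟩), Finset.card_erase_of_mem
        (Finset.mem_erase.2 ⟨hab.symm, hb⟩), Finset.card_erase_of_mem ha] at h4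
      omega
    rcases hBLS.1 ι W (k + 1) (by omega) hcls with ⟨y, hy, hP, hN⟩ |
      ⟨y0, hy0, e1, he1, e2, he2, hee, hpar, hz1, hz2, hyn, hP, hN⟩
    · exact hG y hy (hfew _ (Pos_subset_act hy.1) (by omega))
        (hfew _ (Neg_subset_act hy.1) (by omega))
    · obtain ⟨γ, hγ, hγe⟩ := hpar
      have hdim2 : finrank ℝ (K W {e1}) + 1 = k := by rw [finrank_K_singleton he1, hdim]
      have hact2 : act (K W {e1}) = ((act W).erase e1).erase e2 := by
        apply Finset.eq_of_subset_of_card_le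
        · intro w hw
          obtain ⟨μ, hμ, h0⟩ := mem_act.1 hw
          have hμa : μ e1 = 0 := hμ.2 e1 (Finset.mem_singleton_self e1)
          refine Finset.mem_erase.2 ⟨?_, Finset.mem_erase.2 ⟨?_, act_mono (K_le W {e1}) hw⟩⟩
          · rintro rfl
            exact h0 (by rw [hγe μ hμ.1, hμa, mul_zero])
          · rintro rfl
            exact h0 hμa
        · rw [Finset.card_erase_of_mem (Finset.mem_erase.2 ⟨hee.symm, he2⟩),
            Finset.card_erase_of_mem he1]
          have := card_act_ge hHS (K W {e1}) (K_le W {e1}) (by omega)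
          omega
      have hcard2 : (act (K W {e1})).card = finrank ℝ (K W {e1}) + k + 1 := by
        rw [hact2, Finset.card_erase_of_mem (Finset.mem_erase.2 ⟨hee.symm, he2⟩),
            Finset.card_erase_of_mem he1]
        omega
      have hmem2 : ∀ w, w ∈ act (K W {e1}) ↔ w ∈ act W ∧ w ≠ e1 ∧ w ≠ e2 := by
        intro w
        rw [hact2, Finset.mem_erase, Finset.mem_erase]
        tauto
      obtain ⟨U1, U2, U3, U4, U5⟩ := hUNI ι k (K W {e1}) (hs_K hHS _) (by omega) hcard2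
      have U4' := U4 (by omega)
      have hNZ0 : NZ (K W {e1}) y0 := by
        refine ⟨⟨hy0, fun x hx => ?_⟩, fun w hw => ?_⟩
        · rw [Finset.mem_singleton.1 hx]; exact hz1
        · obtain ⟨h1, h2, h3⟩ := (hmem2 w).1 hw
          exact hyn w h1 h2 h3
      -- one step in `K W {e1}`
      obtain ⟨t, ht, htN⟩ : ∃ t, NZ (K W {e1}) t ∧ (Neg t).card + 1 = k := by
        have hPne : (Pos y0).Nonempty := by
          rw [← Finset.card_pos]; omega
        obtain ⟨p, hp⟩ := hPne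
        obtain ⟨Z, hZne, hZa, hZs, hZp, -, -, y1, hy1, hP1, hN1⟩ :=
          hSTP ι (K W {e1}) y0 (-y0) hNZ0 (Submodule.neg_mem _ hNZ0.1)
            ⟨p, by
              have := mem_Pos.1 hp
              simp only [Pi.neg_apply]
              nlinarith⟩
        obtain ⟨z, hz⟩ := hZne
        have hZ : Z = {z} := by
          ext w
          rw [Finset.mem_singleton]
          constructor
          · intro hw
            by_contra hwz
            exact U4' w (hZa hw) z (hZa hz) hwz (hZp w hw z hz)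
          · rintro rfl
            exact hz
        subst hZ
        rcases mem_Pos_or_Neg (hNZ0.2 z (hZa hz)) with hzP | hzN
        · refine ⟨-y1, ⟨Submodule.neg_mem _ hy1.1, fun w hw => by simpa using hy1.2 w hw⟩, ?_⟩
          have h1 : z ∉ Neg y0 := by
            rw [mem_Neg]
            have := mem_Pos.1 hzP
            linarith
          have h2 : Neg (-y1) = (Pos y0).erase z := by
            rw [Neg_neg, hP1, Finset.inter_singleton_of_notMem h1, Finset.union_empty,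
              Finset.erase_eq]
          rw [h2, Finset.card_erase_of_mem hzP]
          omega
        · refine ⟨y1, hy1, ?_⟩
          have h1 : z ∉ Pos y0 := by
            rw [mem_Pos]
            have := mem_Neg.1 hzN
            linarith
          have h2 : Neg y1 = (Neg y0).erase z := by
            rw [hN1, Finset.inter_singleton_of_notMem h1, Finset.union_empty,
              Finset.erase_eq]
          rw [h2, Finset.card_erase_of_mem hzN]
          omega
      -- `Neg t` is independent in `W`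
      have hkt0 : kap (K W {e1}) (Neg t) = 0 := U1 _ (Neg_subset_act ht.1) (by omega)
      have hkt : kap W (Neg t) + (Neg t).card = finrank ℝ W := by
        have h1 := kap_le_insert W (Neg t) e1
        have h2 : kap W (insert e1 (Neg t)) = 0 := by
          rw [kap, K_K, ← Finset.insert_eq] at hkt0
          exact hkt0
        have h3 := finrank_le_kap_add_card W (Neg t)
        omega
      obtain ⟨s, hs, hs1⟩ : ∃ s ∈ W, 0 < s e1 := by
        obtain ⟨s0, hs0, h0⟩ := mem_act.1 he1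
        rcases lt_or_gt_of_ne h0 with h | h
        · exact ⟨-s0, W.neg_mem hs0, by simpa using h⟩
        · exact ⟨s0, hs0, h⟩
      have hs2 : 0 < s e2 := by
        rw [hγe s hs]
        exact mul_pos hγ hs1
      have hzero : ∀ w, w ∈ act W → t w = 0 → w = e1 ∨ w = e2 := by
        intro w hw htw
        by_contra hc
        push Not at hc
        exact ht.2 w ((hmem2 w).2 ⟨hw, hc.1, hc.2⟩) htw
      obtain ⟨y2, hy2, hP2, hN2⟩ := T8 t ht.1.1 s hs (fun w hw htw => by
        rcases hzero w hw htw with rfl | rfl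
        · exact hs1.ne'
        · exact hs2.ne')
      have hN2' : Neg y2 = Neg t := by
        ext w
        rw [hN2, mem_Neg]
        constructor
        · rintro (h | ⟨h1, h2⟩)
          · exact h
          · exfalso
            have hw : w ∈ act W := mem_act.2 ⟨s, hs, h2.ne⟩
            rcases hzero w hw h1 with rfl | rfl
            · exact absurd hs1 (by linarith)
            · exact absurd hs2 (by linarith)
        · exact fun h => Or.inl h
      have ht1 : t e1 = 0 := ht.1.2 e1 (Finset.mem_singleton_self e1)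
      have ht2 : t e2 = 0 := by rw [hγe t ht.1.1, ht1, mul_zero]
      have hcP : ({e1, e2} : Finset ι) ⊆ Pos y2 := by
        intro w hw
        rw [hP2]
        rcases Finset.mem_insert.1 hw with rfl | hw
        · exact Or.inr ⟨ht1, hs1⟩
        · rw [Finset.mem_singleton.1 hw]
          exact Or.inr ⟨ht2, hs2⟩
      obtain ⟨y3, hy3, -, -, hy3c, hy3k⟩ := hGRW ι W {e1, e2} hHC (by
          intro a ha b hb
          rcases Finset.mem_insert.1 ha with rfl | ha
          · rcases Finset.mem_insert.1 hb with rfl | hb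
            · exact ⟨1, one_pos, fun μ _ => by rw [one_mul]⟩
            · rw [Finset.mem_singleton.1 hb]
              refine ⟨γ⁻¹, inv_pos.2 hγ, fun μ hμ => ?_⟩
              rw [hγe μ hμ, inv_mul_cancel_left₀ hγ.ne']
          · rw [Finset.mem_singleton.1 ha]
            rcases Finset.mem_insert.1 hb with rfl | hb
            · exact ⟨γ, hγ, hγe⟩
            · rw [Finset.mem_singleton.1 hb]
              exact ⟨1, one_pos, fun μ _ => by rw [one_mul]⟩) (by
          intro a ha hac b hb hab hprl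
          have ha2 : a ∈ act (K W {e1}) := by
            refine (hmem2 a).2 ⟨ha, ?_, ?_⟩
            · rintro rfl; exact hac (Finset.mem_insert_self _ _)
            · rintro rfl; exact hac (Finset.mem_insert_of_mem (Finset.mem_singleton_self _))
          obtain ⟨β, hβ⟩ := hprl
          by_cases hbb : b ∈ act (K W {e1})
          · exact U4' a ha2 b hbb hab ⟨β, fun μ hμ => hβ μ hμ.1⟩
          · obtain ⟨μ, hμ, h0⟩ := mem_act.1 ha2
            exact h0 (by rw [hβ μ hμ.1, not_act hbb hμ, mul_zero])) y2 hy2 hcP (by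
          rw [hN2']; exact hkt)
      refine hG y3 hy3 (hfew _ (Pos_subset_act hy3.1) ?_) hy3k
      have := (T5 y3 hy3).1
      omega

end MPa0e17f
end

section
/-!
# BAS: the base case (assembly)
-/
set_option autoImplicit false

namespace MPa0e17f

open Finset Module

theorem specBAS (hTLK : SpecTLK) (hSMP : SpecSMP) (hANT : SpecANT) (hWT3 : SpecWT3)
    (hONE : SpecONE) (hTWO : SpecTWO) : SpecBAS := by
  intro ι _ _ k U hB
  have hdim := hB.dim
  have hcard := hB.card
  by_cases hs : Simple U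
  · exact hSMP ι k U (by omega) (by omega) hB.hs hB.hc hs
  by_cases hneg : ∃ i ∈ act U, ∃ j ∈ act U, i ≠ j ∧ ∃ α : ℝ, α < 0 ∧ ∀ μ ∈ U, μ i = α * μ j
  · obtain ⟨i, hi, j, hj, hij, hα⟩ := hneg
    exact hANT ι k U hB i hi j hj hij hα
  have hpos : ∀ i ∈ act U, ∀ j ∈ act U, i ≠ j → Prl U i j → PrlP U i j := by
    rintro i hi j hj hij ⟨α, hα⟩
    refine ⟨α, ?_, hα⟩
    rcases lt_trichotomy α 0 with h | h | h
    · exact absurd ⟨i, hi, j, hj, hij, α, h, hα⟩ hneg
    · exfalso
      obtain ⟨μ, hμ, h0⟩ := mem_act.1 hi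
      apply h0
      rw [hα μ hμ, h, zero_mul]
    · exact h
  obtain ⟨_, _, _, _, _, _, _, _, _, t10⟩ := hTLK ι U
  have hs' : ∃ c1 ∈ act U, ∃ c2 ∈ act U, c1 ≠ c2 ∧ Prl U c1 c2 := by
    by_contra h
    exact hs fun i hi j hj hij hp => h ⟨i, hi, j, hj, hij, hp⟩
  obtain ⟨c1, h1, c2, h2, hne, hp12⟩ := hs'
  have hpar : PrlP U c2 c1 := (t10 c1 c2 (hpos c1 h1 c2 h2 hne hp12)).1
  by_cases h3 : ∃ c3 ∈ act U, c3 ≠ c1 ∧ c3 ≠ c2 ∧ Prl U c3 c1
  · obtain ⟨c3, h3, h31, h32, hp⟩ := h3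
    exact hWT3 ι k U hB c1 h1 c2 h2 c3 h3 hne h31.symm h32.symm hpar (hpos c3 h3 c1 h1 h31 hp)
  by_cases h4 : ∃ e1 ∈ act U, ∃ e2 ∈ act U, e1 ≠ e2 ∧ e1 ≠ c1 ∧ e1 ≠ c2 ∧ Prl U e1 e2
  · obtain ⟨e1, he1, e2, he2, hee, hec1, hec2, hp⟩ := h4
    have hn : ¬ Prl U e1 c1 := fun h => h3 ⟨e1, he1, hec1, hec2, h⟩
    exact hTWO ι k U c1 c2 e1 e2
      { bas := hB, hc1 := h1, hc2 := h2, he1 := he1, he2 := he2, nec := hne, nee := hee,
        parc := hpar, pare := (t10 e1 e2 (hpos e1 he1 e2 he2 hee hp)).1, npar := hn }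
  · exact hONE ι k U c1 c2
      { bas := hB, h1 := h1, h2 := h2, ne := hne, par := hpar,
        oth := fun i hi j hj hij hi1 hi2 hp => h4 ⟨i, hi, j, hj, hij, hi1, hi2, hp⟩ }

end MPa0e17f
end

section
/-!
# BIG: two heavy classes, `k ≥ 5`
-/
set_option autoImplicit false

namespace MPa0e17f

open Finset Module

namespace BIGM

/-- three `t`-subsets of `Z` with pairwise `t - 1` common elements -/
theorem three {ι : Type} [DecidableEq ι] (Z : Finset ι) (t : ℕ) (ht : 1 ≤ t) (hZ : 3 ≤ Z.card)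
    (htZ : t + 1 ≤ Z.card) : ∃ T1 T2 T3 : Finset ι, T1 ⊆ Z ∧ T2 ⊆ Z ∧ T3 ⊆ Z ∧
      T1.card = t ∧ T2.card = t ∧ T3.card = t ∧ (T1 ∩ T2).card + 1 = t ∧
      (T1 ∩ T3).card + 1 = t ∧ (T2 ∩ T3).card + 1 = t := by
  obtain ⟨x, hx, y, hy, z, hz, hxy, hxz, hyz⟩ := Finset.two_lt_card.1 (by omega : 2 < Z.card)
  set R := Z \ {x, y, z} with hR
  have hsub : ({x, y, z} : Finset ι) ⊆ Z := by
    intro i hi
    simp only [Finset.mem_insert, Finset.mem_singleton] at hi
    rcases hi with rfl | rfl | rfl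
    · exact hx
    · exact hy
    · exact hz
  have h3 : ({x, y, z} : Finset ι).card = 3 := by
    rw [Finset.card_insert_of_notMem, Finset.card_insert_of_notMem, Finset.card_singleton]
    · simpa using hyz
    · simp [hxy, hxz]
  have hRc : R.card + 3 = Z.card := by
    rw [hR, Finset.card_sdiff_of_subset hsub, h3]
    omega
  have hRZ : R ⊆ Z := Finset.sdiff_subset
  have hRx : x ∉ R := by simp [hR]
  have hRy : y ∉ R := by simp [hR]
  have hRz : z ∉ R := by simp [hR]
  by_cases h : t + 2 ≤ Z.card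
  · obtain ⟨T, hT, hTc⟩ := Finset.exists_subset_card_eq (show t - 1 ≤ R.card by omega)
    have hTx : x ∉ T := fun h => hRx (hT h)
    have hTy : y ∉ T := fun h => hRy (hT h)
    have hTz : z ∉ T := fun h => hRz (hT h)
    have hTZ : T ⊆ Z := hT.trans hRZ
    have e : ∀ a b : ι, a ∉ T → b ∉ T → a ≠ b → insert a T ∩ insert b T = T := by
      intro a b ha hb hab
      ext i
      simp only [Finset.mem_inter, Finset.mem_insert]
      constructor
      · rintro ⟨h1 | h1, h2 | h2⟩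
        · exact absurd (h1.symm.trans h2) hab
        · exact h2
        · exact h1
        · exact h1
      · exact fun h => ⟨Or.inr h, Or.inr h⟩
    refine ⟨insert x T, insert y T, insert z T, Finset.insert_subset hx hTZ,
      Finset.insert_subset hy hTZ, Finset.insert_subset hz hTZ, ?_, ?_, ?_, ?_, ?_, ?_⟩
    · rw [Finset.card_insert_of_notMem hTx]; omega
    · rw [Finset.card_insert_of_notMem hTy]; omega
    · rw [Finset.card_insert_of_notMem hTz]; omega
    · rw [e x y hTx hTy hxy]; omega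
    · rw [e x z hTx hTz hxz]; omega
    · rw [e y z hTy hTz hyz]; omega
  · have ht2 : R.card + 2 = t := by omega
    have c2 : ∀ a b : ι, a ∉ R → b ∉ R → a ≠ b → (insert a (insert b R)).card = t := by
      intro a b ha hb hab
      rw [Finset.card_insert_of_notMem, Finset.card_insert_of_notMem hb]
      · omega
      · simp [hab, ha]
    have e : ∀ a b c : ι, a ∉ R → b ∉ R → c ∉ R → a ≠ b → a ≠ c → b ≠ c →
        (insert a (insert b R) ∩ insert a (insert c R)).card + 1 = t := by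
      intro a b c ha hb hc hab hac hbc
      have e1 : insert a (insert b R) ∩ insert a (insert c R) = insert a R := by
        ext i
        simp only [Finset.mem_inter, Finset.mem_insert]
        constructor
        · rintro ⟨h1 | h1 | h1, h2 | h2 | h2⟩
          · exact Or.inl h1
          · exact Or.inl h1
          · exact Or.inl h1
          · exact Or.inl h2
          · exact absurd (h1.symm.trans h2) hbc
          · exact Or.inr h2
          · exact Or.inr h1
          · exact Or.inr h1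
          · exact Or.inr h1
        · rintro (h | h)
          · exact ⟨Or.inl h, Or.inl h⟩
          · exact ⟨Or.inr (Or.inr h), Or.inr (Or.inr h)⟩
      rw [e1, Finset.card_insert_of_notMem ha]
      omega
    refine ⟨insert x (insert y R), insert x (insert z R), insert y (insert z R),
      Finset.insert_subset hx (Finset.insert_subset hy hRZ),
      Finset.insert_subset hx (Finset.insert_subset hz hRZ),
      Finset.insert_subset hy (Finset.insert_subset hz hRZ), c2 x y hRx hRy hxy,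
      c2 x z hRx hRz hxz, c2 y z hRy hRz hyz, e x y z hRx hRy hRz hxy hxz hyz, ?_, ?_⟩
    · have h1 := e y x z hRy hRx hRz hxy.symm hyz hxz
      rwa [Finset.insert_comm y x R] at h1
    · have h1 := e z x y hRz hRx hRy hxz.symm hyz.symm hxy
      rwa [Finset.insert_comm z x R, Finset.insert_comm z y R] at h1

end BIGM

theorem specBIG (hTPF : SpecTPF) (hDF1 : SpecDF1) (hDF2 : SpecDF2) (hWAL : SpecWAL) : SpecBIG := by
  intro ι _ _ k U c1 c2 e1 e2 h hk
  by_contra hbad
  obtain ⟨-, -, -, -, -, -, -, -, f9, -⟩ := hTPF ι k U c1 c2 e1 e2 h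
  obtain ⟨v, hv, Z, hZ, hZc, hA, hB, hAB⟩ := hWAL ι k U c1 c2 e1 e2 h (by omega)
  have dA : Disjoint (Pos v) Z := by
    rw [Finset.disjoint_left]
    intro i hi hi2
    have h1 := mem_Pos.1 hi
    rw [((hZ i).1 hi2).2] at h1
    exact lt_irrefl _ h1
  have dB : Disjoint (Neg v) Z := by
    rw [Finset.disjoint_left]
    intro i hi hi2
    have h1 := mem_Neg.1 hi
    rw [((hZ i).1 hi2).2] at h1
    exact lt_irrefl _ h1
  obtain ⟨t, ht⟩ : ∃ t, (Pos v).card + t = k := ⟨k - (Pos v).card, by omega⟩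
  have key : ∀ T ⊆ Z, T.card = t → Dset k U c1 e1 (Pos v ∪ T) ∨ Dset k U c1 e1 (Neg v ∪ (Z \ T)) := by
    intro T hT hTc
    obtain ⟨y, hy, hP, hN⟩ := f9 v hv Z hZ (by omega) T hT
    have h1 : (Pos y).card = k := by
      rw [hP, Finset.card_union_of_disjoint (dA.mono_right hT)]
      omega
    have h2 : (Neg y).card = k := by
      rw [hN, Finset.card_union_of_disjoint (dB.mono_right Finset.sdiff_subset),
        Finset.card_sdiff_of_subset hT]
      omega
    have h3 := hDF1 ι k U c1 c2 e1 e2 h hbad y hy h1 h2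
    rwa [hP, hN] at h3
  have noA : ∀ T ⊆ Z, ∀ T' ⊆ Z, T.card = t → T'.card = t → (T ∩ T').card + 1 = t →
      Dset k U c1 e1 (Pos v ∪ T) → Dset k U c1 e1 (Pos v ∪ T') → False := by
    intro T hT T' hT' hc hc' hi hD hD'
    have hee : (Pos v ∪ T) ∩ (Pos v ∪ T') = Pos v ∪ (T ∩ T') := (Finset.union_inter_distrib_left _ _ _).symm
    have hc1 : ((Pos v ∪ T) ∩ (Pos v ∪ T')).card + 1 = k := by
      rw [hee, Finset.card_union_of_disjoint (dA.mono_right (Finset.inter_subset_left.trans hT))]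
      omega
    have hne : Pos v ∪ T ≠ Pos v ∪ T' := by
      intro he
      rw [he, Finset.inter_self, Finset.card_union_of_disjoint (dA.mono_right hT')] at hc1
      omega
    have := (hDF2 ι k U c1 c2 e1 e2 h _ _ hD hD' hne).1
    omega
  have noB : ∀ T ⊆ Z, ∀ T' ⊆ Z, T.card = t → T'.card = t → (T ∩ T').card + 1 = t →
      Dset k U c1 e1 (Neg v ∪ (Z \ T)) → Dset k U c1 e1 (Neg v ∪ (Z \ T')) → False := by
    intro T hT T' hT' hc hc' hi hD hD'
    have hee : (Neg v ∪ (Z \ T)) ∩ (Neg v ∪ (Z \ T')) = Neg v ∪ (Z \ (T ∪ T')) := by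
      rw [← Finset.union_inter_distrib_left, Finset.sdiff_union_distrib]
    have hU : (T ∪ T').card = t + 1 := by
      have := Finset.card_union_add_card_inter T T'
      omega
    have hc1 : ((Neg v ∪ (Z \ T)) ∩ (Neg v ∪ (Z \ T'))).card + 1 = k := by
      rw [hee, Finset.card_union_of_disjoint (dB.mono_right Finset.sdiff_subset),
        Finset.card_sdiff_of_subset (Finset.union_subset hT hT'), hU]
      omega
    have hne : Neg v ∪ (Z \ T) ≠ Neg v ∪ (Z \ T') := by
      intro he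
      rw [he, Finset.inter_self, Finset.card_union_of_disjoint (dB.mono_right Finset.sdiff_subset),
        Finset.card_sdiff_of_subset hT'] at hc1
      omega
    have := (hDF2 ι k U c1 c2 e1 e2 h _ _ hD hD' hne).1
    omega
  obtain ⟨T1, T2, T3, s1, s2, s3, n1, n2, n3, i12, i13, i23⟩ :=
    BIGM.three Z t (by omega) (by omega) (by omega)
  rcases key T1 s1 n1 with k1 | k1 <;> rcases key T2 s2 n2 with k2 | k2 <;>
    rcases key T3 s3 n3 with k3 | k3
  · exact noA T1 s1 T2 s2 n1 n2 i12 k1 k2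
  · exact noA T1 s1 T2 s2 n1 n2 i12 k1 k2
  · exact noA T1 s1 T3 s3 n1 n3 i13 k1 k3
  · exact noB T2 s2 T3 s3 n2 n3 i23 k2 k3
  · exact noA T2 s2 T3 s3 n2 n3 i23 k2 k3
  · exact noB T1 s1 T3 s3 n1 n3 i13 k1 k3
  · exact noB T1 s1 T2 s2 n1 n2 i12 k1 k2
  · exact noB T1 s1 T2 s2 n1 n2 i12 k1 k2

end MPa0e17f
end

section
/-!
# DF1: one of the sides is a `D`-set
-/
set_option autoImplicit false

namespace MPa0e17f

open Finset Module

namespace DF1M

variable {ι : Type} [Fintype ι] [DecidableEq ι]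

theorem Pos_sub {W : Submodule ℝ (ι → ℝ)} {y : ι → ℝ} (hy : y ∈ W) : Pos y ⊆ act W := by
  intro i hi
  exact mem_act.2 ⟨y, hy, (mem_Pos.1 hi).ne'⟩

theorem Neg_sub {W : Submodule ℝ (ι → ℝ)} {y : ι → ℝ} (hy : y ∈ W) : Neg y ⊆ act W := by
  intro i hi
  exact mem_act.2 ⟨y, hy, (mem_Neg.1 hi).ne⟩

/-- the light part of the positive side of the lift -/
theorem lift_inter {U : Submodule ℝ (ι → ℝ)} {c1 c2 e1 e2 : ι}
    (h3 : ∀ i, i ∈ LL U c1 e1 ↔ i ∈ act U ∧ i ≠ c1 ∧ i ≠ c2 ∧ i ≠ e1 ∧ i ≠ e2)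
    {P : Finset ι} (hP : P ⊆ LL U c1 e1) : (P ∪ {c1, c2, e1, e2}) ∩ LL U c1 e1 = P := by
  ext i
  simp only [mem_inter, mem_union, mem_insert, mem_singleton]
  constructor
  · rintro ⟨h | h, hL⟩
    · exact h
    · obtain ⟨_, n1, n2, n3, n4⟩ := (h3 i).1 hL
      rcases h with h | h | h | h
      · exact absurd h n1
      · exact absurd h n2
      · exact absurd h n3
      · exact absurd h n4
  · intro h
    exact ⟨Or.inl h, hP h⟩

end DF1M

open DF1M in
theorem specDF1 (hTPF : SpecTPF) (hSTK : SpecSTK) : SpecDF1 := by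
  intro ι _ _ k U c1 c2 e1 e2 hT hG y hy hp hn
  obtain ⟨h1, h2, h3, h4, h5, h6, h7, h8, h9, h10, h11, h12⟩ := hTPF ι k U c1 c2 e1 e2 hT
  have hPL : Pos y ⊆ LL U c1 e1 := Pos_sub hy.1
  have hNL : Neg y ⊆ LL U c1 e1 := Neg_sub hy.1
  obtain ⟨y', hy', hN', hP'⟩ := h10 y hy
  have hk1 : 1 ≤ kap U (Neg y) := by
    have := finrank_le_kap_add_card U (Neg y)
    rw [hT.bas.dim, hn] at this
    omega
  have hk2 : kap U (Neg y) ≤ 2 := (h6 (Neg y) hNL (by omega)).2
  by_cases hk : kap U (Neg y) = 2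
  · exact Or.inr ⟨hNL, hn, hk⟩
  · left
    have hk' : kap U (Neg y') = 1 := by
      rw [hN']
      omega
    have hs := hSTK ι k U c1 c2 e1 e2 hT hG y' hy' (by rw [hP']; simp) (by rw [hP']; simp)
      (by rw [hN']; exact hn) hk'
    rw [hP', lift_inter h3 hPL] at hs
    exact hs

end MPa0e17f
end

section
/-!
# DF2: two `D`-sets have at most `k - 2` common elements
-/
set_option autoImplicit false

namespace MPa0e17f

open Finset Module

namespace DF2M

variable {ι : Type} [Fintype ι] [DecidableEq ι]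

/-- submodularity -/
theorem kap_submod (U : Submodule ℝ (ι → ℝ)) (S T : Finset ι) :
    kap U S + kap U T ≤ kap U (S ∪ T) + kap U (S ∩ T) := by
  have h := kap_union_add (K U (S ∩ T)) S T
  have e1 : kap (K U (S ∩ T)) S = kap U S := by
    have h0 : (S ∩ T) ∪ S = S := Finset.union_eq_right.2 Finset.inter_subset_left
    rw [kap, K_K, h0]
    rfl
  have e2 : kap (K U (S ∩ T)) T = kap U T := by
    have h0 : (S ∩ T) ∪ T = T := Finset.union_eq_right.2 Finset.inter_subset_right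
    rw [kap, K_K, h0]
    rfl
  have e3 : kap (K U (S ∩ T)) (S ∪ T) = kap U (S ∪ T) := by
    have h0 : (S ∩ T) ∪ (S ∪ T) = S ∪ T :=
      Finset.union_eq_right.2 (Finset.inter_subset_left.trans Finset.subset_union_left)
    rw [kap, K_K, h0]
    rfl
  rw [e1, e2, e3] at h
  exact h

end DF2M

open DF2M in
theorem specDF2 (hTPF : SpecTPF) : SpecDF2 := by
  intro ι _ _ k U c1 c2 e1 e2 hT D1 D2 hD1 hD2 hne
  obtain ⟨h1, h2, h3, h4, h5, h6, h7, h8, h9, h10, h11, h12⟩ := hTPF ι k U c1 c2 e1 e2 hT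
  obtain ⟨s1, a1, b1⟩ := hD1
  obtain ⟨s2, a2, b2⟩ := hD2
  have hsub := kap_submod U D1 D2
  have hcard := Finset.card_union_add_card_inter D1 D2
  have hlt : (D1 ∩ D2).card < k := by
    rw [← a1]
    refine Finset.card_lt_card (Finset.ssubset_iff_subset_ne.2 ⟨Finset.inter_subset_left, ?_⟩)
    intro h
    have h13 : D1 ⊆ D2 := Finset.inter_eq_left.1 h
    exact hne (Finset.eq_of_subset_of_card_le h13 (by rw [a1, a2]))
  have hiL : D1 ∩ D2 ⊆ LL U c1 e1 := Finset.inter_subset_left.trans s1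
  have huL : D1 ∪ D2 ⊆ LL U c1 e1 := Finset.union_subset s1 s2
  have hi := (h5 (D1 ∩ D2) hiL (by omega)).1
  have hu : k + 1 ≤ (D1 ∪ D2).card → kap U (D1 ∪ D2) ≤ 1 := h7 (D1 ∪ D2) huL
  have hge : (D1 ∩ D2).card + 2 ≤ k := by
    by_contra hcon
    have := hu (by omega)
    omega
  refine ⟨hge, fun heq => ?_⟩
  have hc : (D1 ∪ D2).card = k + 2 := by omega
  have hle := hu (by omega)
  refine ⟨hc, by omega, h8 (D1 ∪ D2) huL hc⟩

end MPa0e17f
end

section
/-!
# DF3: from a tope of `UU` with `k - 1` negative elements to a `D`-set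
-/
set_option autoImplicit false

namespace MPa0e17f

open Finset Module

open DF1M in
theorem specDF3 (hTPF : SpecTPF) (hLST : SpecLST) (hSTK : SpecSTK) : SpecDF3 := by
  intro ι _ _ k U c1 c2 e1 e2 hT hG y hy hn
  obtain ⟨h1, h2, h3, h4, h5, h6, h7, h8, h9, h10, h11, h12⟩ := hTPF ι k U c1 c2 e1 e2 hT
  have hPL : Pos y ⊆ LL U c1 e1 := Pos_sub hy.1
  have hNL : Neg y ⊆ LL U c1 e1 := Neg_sub hy.1
  obtain ⟨y', hy', hN', hP'⟩ := h10 y hy
  have hk : kap U (Neg y) = 2 := by
    have := (h5 (Neg y) hNL (by omega)).1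
    omega
  obtain ⟨φ, hφ, hφc, hφe⟩ := h11 (Neg y) hNL hn 0 1
  have hφ0 : φ ≠ 0 := by
    rintro rfl
    exact zero_ne_one hφe
  obtain ⟨i, hi⟩ := hT.bas.hc φ hφ.1 hφ0
  have hia : i ∈ act U := mem_act.2 ⟨φ, hφ.1, hi.ne⟩
  have hiN : i ∉ Neg y' := by
    rw [hN']
    intro h
    exact hi.ne (hφ.2 i h)
  have hipos : 0 < y' i := by
    rcases mem_Pos_or_Neg (hy'.2 i hia) with h | h
    · exact mem_Pos.1 h
    · exact absurd h hiN
  obtain ⟨x, hx, hxφ, y1, hy1, hc1, he1, hN1, hP1⟩ := hLST ι k U c1 c2 e1 e2 hT y' hy'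
    (by rw [hP']; simp) (by rw [hP']; simp) φ hφ.1 hφc.ge (by rw [hφe]; exact zero_le_one)
    (fun j hj => by rw [hN'] at hj; exact (hφ.2 j hj).le) ⟨i, hipos, hi⟩
  rw [hP', lift_inter h3 hPL] at hx
  have hxN : x ∉ Neg y := by
    intro h
    exact hxφ.ne (hφ.2 x h)
  refine ⟨x, hx, ?_⟩
  have hs := hSTK ι k U c1 c2 e1 e2 hT hG y1 hy1 hc1 he1
    (by rw [hN1, hN', Finset.card_insert_of_notMem hxN, hn]) (by
      rw [hN1, hN']
      have := kap_insert_of_ne U (Neg y) x ⟨φ, hφ, hxφ.ne⟩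
      omega)
  have he : Pos y1 ∩ LL U c1 e1 = (Pos y).erase x := by
    rw [hP1, hP', Finset.erase_inter, lift_inter h3 hPL]
  rw [he] at hs
  exact hs

end MPa0e17f
end

section
/-!
# Module FOA: for `k = 3` there are at most two `D`-sets
-/
set_option autoImplicit false

namespace MPa0e17f

open Finset Module

theorem specFOA (hTPF : SpecTPF) (hDF2 : SpecDF2) : SpecFOA := by
  intro ι _ _ U c1 c2 e1 e2 h D1 D2 D3 hD1 hD2 hD3 h12 h13 h23
  obtain ⟨-, t2, t3, -, t5, -, -, -, -, -, -, -⟩ := hTPF ι 3 U c1 c2 e1 e2 h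
  obtain ⟨a1, a2⟩ := hDF2 ι 3 U c1 c2 e1 e2 h D1 D2 hD1 hD2 h12
  obtain ⟨b1, -⟩ := hDF2 ι 3 U c1 c2 e1 e2 h D1 D3 hD1 hD3 h13
  obtain ⟨d1, -⟩ := hDF2 ι 3 U c1 c2 e1 e2 h D2 D3 hD2 hD3 h23
  obtain ⟨s1, k1, -⟩ := hD1
  obtain ⟨s2, k2, -⟩ := hD2
  obtain ⟨s3, k3, q3⟩ := hD3
  have hU : (D1 ∪ D2).card + (D1 ∩ D2).card = D1.card + D2.card := Finset.card_union_add_card_inter D1 D2
  have hsub : D1 ∪ D2 ⊆ LL U c1 e1 := Finset.union_subset s1 s2
  -- `D3` meets the union in at most two elements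
  have hm : (D3 ∩ (D1 ∪ D2)).card ≤ 2 := by
    rw [Finset.inter_union_distrib_left]
    have h1 := Finset.card_union_le (D3 ∩ D1) (D3 ∩ D2)
    rw [Finset.inter_comm D3 D1, Finset.inter_comm D3 D2] at h1 ⊢
    omega
  obtain ⟨t, ht3, htU⟩ : ∃ t ∈ D3, t ∉ D1 ∪ D2 := by
    by_contra hc
    push Not at hc
    have h1 : D3 ∩ (D1 ∪ D2) = D3 := Finset.inter_eq_left.2 hc
    rw [h1] at hm
    omega
  have htL : t ∈ LL U c1 e1 := s3 ht3
  -- the intersection has one element
  have hlt : (D1 ∪ D2).card < (LL U c1 e1).card := by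
    apply Finset.card_lt_card
    refine ⟨hsub, fun hc => htU (hc htL)⟩
  have hone : (D1 ∩ D2).card + 2 = 3 := by omega
  obtain ⟨u1, u2, u3⟩ := a2 hone
  -- the complement of the union has one element
  have hcomp : (LL U c1 e1 \ (D1 ∪ D2)).card = 1 := by
    have h1 := Finset.card_sdiff_add_card_eq_card hsub
    omega
  have hE : D3.erase t ⊆ D1 ∪ D2 := by
    intro s hs
    obtain ⟨hst, hs3⟩ := Finset.mem_erase.1 hs
    by_contra hc
    rw [Finset.card_eq_one] at hcomp
    obtain ⟨w, hw⟩ := hcomp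
    have e1' : t ∈ LL U c1 e1 \ (D1 ∪ D2) := Finset.mem_sdiff.2 ⟨htL, htU⟩
    have e2' : s ∈ LL U c1 e1 \ (D1 ∪ D2) := Finset.mem_sdiff.2 ⟨s3 hs3, hc⟩
    rw [hw, Finset.mem_singleton] at e1' e2'
    exact hst (e2'.trans e1'.symm)
  have hEc : (D3.erase t).card = 2 := by
    rw [Finset.card_erase_of_mem ht3, k3]
  obtain ⟨v1, -⟩ := t5 (D3.erase t) ((Finset.erase_subset _ _).trans s3) (by omega)
  have hkE : kap U (D3.erase t) = 2 := by omega
  have hKK : K U D3 = K U (D3.erase t) := by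
    apply Submodule.eq_of_le_of_finrank_eq (K_anti U (Finset.erase_subset _ _))
    show kap U D3 = kap U (D3.erase t)
    omega
  -- an element of the kernel of the union
  obtain ⟨μ, hμ, hμ0⟩ : ∃ μ ∈ K U (D1 ∪ D2), μ ≠ 0 := by
    by_contra hc
    push Not at hc
    have h1 : K U (D1 ∪ D2) = ⊥ := (Submodule.eq_bot_iff _).2 hc
    have h2 : kap U (D1 ∪ D2) = 0 := by
      rw [kap, h1, finrank_bot]
    omega
  have hμE : μ ∈ K U D3 := by
    rw [hKK]
    exact K_anti U hE hμ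
  exact u3 μ hμ hμ0 t ((t3 t).1 htL).1 htU (hμE.2 t ht3)

end MPa0e17f
end

section
/-!
# FOB: `k = 3`, a tope with one negative element and its two neighbours
-/
set_option autoImplicit false

namespace MPa0e17f

open Finset Module

namespace FOBM

/-- two different `D`-sets have at most one common element (`k = 3`) -/
lemma nocommon (hDF2 : SpecDF2) {ι : Type} [Fintype ι] [DecidableEq ι]
    {U : Submodule ℝ (ι → ℝ)} {c1 c2 e1 e2 : ι} (h : TwoP 3 U c1 c2 e1 e2) {D D' : Finset ι}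
    (hD : Dset 3 U c1 e1 D) (hD' : Dset 3 U c1 e1 D') {p : ι} (hp : p ∈ D) (hp' : p ∉ D')
    (hc : 2 ≤ (D ∩ D').card) : False := by
  have h1 := (hDF2 ι 3 U c1 c2 e1 e2 h D D' hD hD' (by
    intro h0
    rw [h0] at hp
    exact hp' hp)).1
  omega

end FOBM

open FOBM

theorem specFOB (hTLK : SpecTLK) (hTPF : SpecTPF) (hLST : SpecLST) (hSTK : SpecSTK)
    (hDF2 : SpecDF2) (hDF3 : SpecDF3) (hVCE : SpecVCE) (hTRI : SpecTRI) : SpecFOB := by
  intro ι _ _ U c1 c2 e1 e2 h hG r x x' hxx hrx hrx' y0 yx yx' hy0 hyx hyx' hN0 hNx hNx'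
  obtain ⟨t1, t2, t3, -, t5, -, -, -, -, t10, t11, t12⟩ := hTPF ι 3 U c1 c2 e1 e2 h
  obtain ⟨-, -, -, -, k5, -⟩ := hTLK ι (UU U c1 e1)
  have hsub : ∀ y, NZ (UU U c1 e1) y → Neg y ⊆ LL U c1 e1 := by
    intro y hy
    have h1 := (k5 y hy).2.1
    rw [LL, ← h1]
    exact subset_union_right
  have hrL : r ∈ LL U c1 e1 := hsub y0 hy0 (by rw [hN0]; exact mem_singleton_self _)
  have hxL : x ∈ LL U c1 e1 := hsub yx hyx (by
    rw [hNx]; exact mem_insert_of_mem (mem_singleton_self _))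
  have hx'L : x' ∈ LL U c1 e1 := hsub yx' hyx' (by
    rw [hNx']; exact mem_insert_of_mem (mem_singleton_self _))
  have hLact : ∀ i ∈ LL U c1 e1, i ∈ act U := fun i hi => ((t3 i).1 hi).1
  have hdUU : finrank ℝ (UU U c1 e1) = 2 := by omega
  -- pairs
  have kpair : ∀ a b, a ∈ LL U c1 e1 → b ∈ LL U c1 e1 → a ≠ b → kap U {a, b} = 2 := by
    intro a b ha hb hab
    have h1 := (t5 {a, b} (by
      intro i hi
      rw [mem_insert, mem_singleton] at hi
      rcases hi with rfl | rfl <;> assumption) (by rw [card_pair hab])).1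
    rw [card_pair hab] at h1
    omega
  -- lifts
  obtain ⟨Y0, hY0, hN0', hP0'⟩ := t10 y0 hy0
  obtain ⟨Yx, hYx, hNx'', hPx'⟩ := t10 yx hyx
  rw [hN0] at hN0'
  rw [hNx] at hNx''
  have hc1L : c1 ∉ LL U c1 e1 := fun h1 => ((t3 c1).1 h1).2.1 rfl
  have he1L : e1 ∉ LL U c1 e1 := fun h1 => ((t3 e1).1 h1).2.2.2.1 rfl
  have hY0c : c1 ∈ Pos Y0 := by
    rw [hP0']
    exact mem_union_right _ (mem_insert_self _ _)
  have hY0e : e1 ∈ Pos Y0 := by
    rw [hP0']
    exact mem_union_right _ (mem_insert_of_mem (mem_insert_of_mem (mem_insert_self _ _)))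
  have hYxc : c1 ∈ Pos Yx := by
    rw [hPx']
    exact mem_union_right _ (mem_insert_self _ _)
  have hYxe : e1 ∈ Pos Yx := by
    rw [hPx']
    exact mem_union_right _ (mem_insert_of_mem (mem_insert_of_mem (mem_insert_self _ _)))
  have Y0neg : ∀ i, Y0 i < 0 ↔ i = r := by
    intro i
    rw [← mem_Neg, hN0', mem_singleton]
  have Yxneg : ∀ i, Yx i < 0 ↔ i = r ∨ i = x := by
    intro i
    rw [← mem_Neg, hNx'', mem_insert, mem_singleton]
  have Y0pos : ∀ i ∈ act U, i ≠ r → 0 < Y0 i := by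
    intro i hi hir
    rcases lt_or_gt_of_ne (hY0.2 i hi) with h1 | h1
    · exact absurd ((Y0neg i).1 h1) hir
    · exact h1
  have Yxpos : ∀ i ∈ act U, i ≠ r → i ≠ x → 0 < Yx i := by
    intro i hi hir hix
    rcases lt_or_gt_of_ne (hYx.2 i hi) with h1 | h1
    · rcases (Yxneg i).1 h1 with h2 | h2
      · exact absurd h2 hir
      · exact absurd h2 hix
    · exact h1
  -- claim TR
  have TR : ∀ z ∈ LL U c1 e1, z ≠ r → ∀ T, NZ U T → c1 ∈ Pos T → e1 ∈ Pos T →
      Neg T = {z, r} → z ≠ x → z ≠ x' → False := by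
    intro z hz hzr T hT hTc hTe hTN hzx hzx'
    obtain ⟨y', hy', hyN⟩ := hVCE ι 3 U c1 c2 e1 e2 h hG T hT hTc hTe (by
      rw [hTN, card_pair hzr])
    refine hTRI ι (UU U c1 e1) r x x' z hdUU hrL hxL hx'L hz hrx hrx' hzr.symm hxx hzx.symm
      hzx'.symm yx yx' y' hyx hyx' hy' hNx hNx' ?_
    rw [hyN, hTN, pair_comm]
  -- claim LS
  have LS : ∀ z ∈ LL U c1 e1, z ≠ r → z ≠ x → ∀ φ ∈ K U {r, x}, φ z ≠ 0 → ∀ T, NZ U T →
      c1 ∈ Pos T → e1 ∈ Pos T → Neg T = insert z {r, x} →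
      Dset 3 U c1 e1 (LL U c1 e1 \ {z, r, x}) := by
    intro z hz hzr hzx φ hφ hφz T hT hTc hTe hTN
    have hk1 := kap_insert_of_ne U {r, x} z ⟨φ, hφ, hφz⟩
    rw [kpair r x hrL hxL hrx] at hk1
    have h1 := hSTK ι 3 U c1 c2 e1 e2 h hG T hT hTc hTe (by
      rw [hTN, card_insert_of_notMem, card_pair hrx]
      rw [mem_insert, mem_singleton, not_or]
      exact ⟨hzr, hzx⟩) (by rw [hTN]; omega)
    rw [(t12 T hT hTc hTe).2.2.2.2.2, hTN] at h1
    exact h1
  -- the direction `φ`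
  obtain ⟨φ, hφ, φc, φe⟩ := t11 {r, x} (by
    intro i hi
    rw [mem_insert, mem_singleton] at hi
    rcases hi with rfl | rfl <;> assumption) (by rw [card_pair hrx]) 0 1
  have φr : φ r = 0 := hφ.2 r (mem_insert_self _ _)
  have φx : φ x = 0 := hφ.2 x (mem_insert_of_mem (mem_singleton_self _))
  have φ0 : φ ≠ 0 := by
    intro h0
    rw [h0] at φe
    norm_num at φe
  obtain ⟨i0, hi0⟩ := h.bas.hc φ hφ.1 φ0
  have hi0a : i0 ∈ act U := mem_act.2 ⟨φ, hφ.1, hi0.ne⟩
  have hi0r : i0 ≠ r := by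
    rintro rfl
    rw [φr] at hi0
    exact lt_irrefl _ hi0
  have hi0x : i0 ≠ x := by
    rintro rfl
    rw [φx] at hi0
    exact lt_irrefl _ hi0
  -- (a)
  have φx' : φ x' < 0 := by
    obtain ⟨z, hz, hφz, T, hT, hTc, hTe, hTN, -⟩ := hLST ι 3 U c1 c2 e1 e2 h Y0 hY0 hY0c hY0e φ
      hφ.1 (by rw [φc]) (by rw [φe]; norm_num) (by
        intro i hi
        rw [hN0', mem_singleton] at hi
        rw [hi, φr]) ⟨i0, Y0pos i0 hi0a hi0r, hi0⟩
    rw [mem_inter] at hz
    rw [hN0'] at hTN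
    have hzr : z ≠ r := by
      rintro rfl
      rw [φr] at hφz
      exact lt_irrefl _ hφz
    have hzx : z ≠ x := by
      rintro rfl
      rw [φx] at hφz
      exact lt_irrefl _ hφz
    by_cases hzx' : z = x'
    · rw [← hzx']
      exact hφz
    · exact (TR z hz.2 hzr T hT hTc hTe hTN hzx hzx').elim
  -- (b)
  obtain ⟨q, hq, hφq, T, hT, hTc, hTe, hTN, -⟩ := hLST ι 3 U c1 c2 e1 e2 h Yx hYx hYxc hYxe φ
    hφ.1 (by rw [φc]) (by rw [φe]; norm_num) (by
      intro i hi
      rw [hNx'', mem_insert, mem_singleton] at hi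
      rcases hi with rfl | rfl
      · rw [φr]
      · rw [φx]) ⟨i0, Yxpos i0 hi0a hi0r hi0x, hi0⟩
  rw [mem_inter] at hq
  rw [hNx''] at hTN
  have hqL := hq.2
  have hqr : q ≠ r := by
    rintro rfl
    rw [φr] at hφq
    exact lt_irrefl _ hφq
  have hqx : q ≠ x := by
    rintro rfl
    rw [φx] at hφq
    exact lt_irrefl _ hφq
  have hD1 := LS q hqL hqr hqx φ hφ hφq.ne T hT hTc hTe hTN
  by_cases hqx' : q = x'
  · have e1' : ({q, r, x} : Finset ι) = {r, x, x'} := by
      rw [hqx']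
      ext i
      simp only [mem_insert, mem_singleton]
      constructor
      · rintro (h1 | h1 | h1)
        · exact Or.inr (Or.inr h1)
        · exact Or.inl h1
        · exact Or.inr (Or.inl h1)
      · rintro (h1 | h1 | h1)
        · exact Or.inr (Or.inl h1)
        · exact Or.inr (Or.inr h1)
        · exact Or.inl h1
    rw [e1'] at hD1
    exact hD1
  exfalso
  -- cardinality of complements
  have ccomp : ∀ S : Finset ι, S.card ≤ 4 → 2 ≤ (LL U c1 e1 \ S).card := by
    intro S hS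
    have h1 := le_card_sdiff S (LL U c1 e1)
    omega
  -- (c)
  have claim : ∀ μ ∈ K U {x}, μ x' * φ q = μ q * φ x' := by
    by_contra hcon
    push Not at hcon
    obtain ⟨μ, hμ, hμ0⟩ := hcon
    have hYxx : Yx x < 0 := (Yxneg x).2 (Or.inr rfl)
    have hYxr : Yx r < 0 := (Yxneg r).2 (Or.inl rfl)
    have hY0r : Y0 r < 0 := (Y0neg r).2 rfl
    have hY0x : 0 < Y0 x := Y0pos x (hLact x hxL) hrx.symm
    have hwK : (-Yx x) • Y0 + (Y0 x) • Yx ∈ K U {x} := by
      rw [mem_K]
      refine ⟨U.add_mem (U.smul_mem _ hY0.1) (U.smul_mem _ hYx.1), ?_⟩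
      intro i hi
      rw [mem_singleton] at hi
      rw [hi, Pi.add_apply, Pi.smul_apply, Pi.smul_apply, smul_eq_mul, smul_eq_mul]
      ring
    have hwr : ((-Yx x) • Y0 + (Y0 x) • Yx) r < 0 := by
      rw [Pi.add_apply, Pi.smul_apply, Pi.smul_apply, smul_eq_mul, smul_eq_mul]
      nlinarith [mul_pos_of_neg_of_neg hYxx hY0r, mul_neg_of_pos_of_neg hY0x hYxr]
    have hwi : ∀ i ∈ act U, i ≠ r → i ≠ x → 0 < ((-Yx x) • Y0 + (Y0 x) • Yx) i := by
      intro i hi hir hix
      rw [Pi.add_apply, Pi.smul_apply, Pi.smul_apply, smul_eq_mul, smul_eq_mul]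
      have h1 := Y0pos i hi hir
      have h2 := Yxpos i hi hir hix
      have h3 : 0 < -Yx x := by linarith
      have := mul_pos h3 h1
      have := mul_pos hY0x h2
      linarith
    obtain ⟨w', hw', wP, wN, wf⟩ := perturb (K U {x}) hwK ({()} : Finset Unit)
      (fun _ => φ q • (LinearMap.proj x' : (ι → ℝ) →ₗ[ℝ] ℝ) - φ x' • LinearMap.proj q) (by
      intro j _
      refine ⟨μ, hμ, ?_⟩
      simp only [LinearMap.sub_apply, LinearMap.smul_apply, LinearMap.proj_apply, smul_eq_mul]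
      intro h0
      apply hμ0
      linarith)
    have hw'ne : φ q * w' x' - φ x' * w' q ≠ 0 := by
      have := wf () (mem_singleton_self _)
      simpa only [LinearMap.sub_apply, LinearMap.smul_apply, LinearMap.proj_apply,
        smul_eq_mul] using this
    have w'r : w' r < 0 := wN r hwr
    have w'i : ∀ i ∈ act U, i ≠ r → i ≠ x → 0 < w' i := fun i hi hir hix =>
      wP i (hwi i hi hir hix)
    have w'x : w' x = 0 := hw'.2 x (mem_singleton_self x)
    have hx'a := hLact x' hx'L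
    have hqa := hLact q hqL
    have wx' : 0 < w' x' := w'i x' hx'a hrx'.symm hxx.symm
    have wq : 0 < w' q := w'i q hqa hqr hqx
    have hc1a : c1 ∈ act U := h.hc1
    have he1a : e1 ∈ act U := h.he1
    have hc1r : c1 ≠ r := fun h1 => hc1L (h1 ▸ hrL)
    have hc1x : c1 ≠ x := fun h1 => hc1L (h1 ▸ hxL)
    have he1r : e1 ≠ r := fun h1 => he1L (h1 ▸ hrL)
    have he1x : e1 ≠ x := fun h1 => he1L (h1 ▸ hxL)
    have wc : 0 < w' c1 := w'i c1 hc1a hc1r hc1x
    have we : 0 < w' e1 := w'i e1 he1a he1r he1x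
    have sU : ∀ t : ℝ, w' + t • φ ∈ U := fun t => U.add_mem hw'.1 (U.smul_mem _ hφ.1)
    have sval : ∀ (t : ℝ) (i : ι), (w' + t • φ) i = w' i + t * φ i := by
      intro t i
      rw [Pi.add_apply, Pi.smul_apply, smul_eq_mul]
    have hA : 0 < -φ x' := by linarith
    have hB : 0 < -φ q := by linarith
    rcases lt_or_gt_of_ne (show w' x' / (-φ x') ≠ w' q / (-φ q) from by
      intro h0
      rw [div_eq_div_iff hA.ne' hB.ne'] at h0
      apply hw'ne
      linarith) with hlt | hlt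
    · -- `s x' < 0 < s q`
      obtain ⟨t, ht1, ht2⟩ := exists_between hlt
      have ht0 : 0 < t := lt_trans (div_pos wx' hA) ht1
      rw [div_lt_iff₀ hA] at ht1
      rw [lt_div_iff₀ hB] at ht2
      obtain ⟨z, hz, hsz, T', hT', hTc', hTe', hTN', -⟩ := hLST ι 3 U c1 c2 e1 e2 h Yx hYx hYxc
        hYxe (w' + t • φ) (sU t) (by rw [sval, φc]; linarith) (by rw [sval, φe]; linarith) (by
          intro i hi
          rw [hNx'', mem_insert, mem_singleton] at hi
          rw [sval]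
          rcases hi with rfl | rfl
          · rw [φr]; linarith
          · rw [φx, w'x]; linarith) ⟨x', Yxpos x' hx'a hrx'.symm hxx.symm, by
            rw [sval]; linarith⟩
      rw [mem_inter] at hz
      rw [hNx''] at hTN'
      rw [sval] at hsz
      have hzr : z ≠ r := by
        rintro rfl
        have := mem_Pos.1 hz.1
        linarith
      have hzx : z ≠ x := by
        rintro rfl
        have := mem_Pos.1 hz.1
        linarith
      have hzq : z ≠ q := by
        rintro rfl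
        linarith
      have hwz := w'i z (hLact z hz.2) hzr hzx
      have hφz : φ z < 0 := by
        by_contra hcon
        push Not at hcon
        have := mul_nonneg ht0.le hcon
        linarith
      have hD := LS z hz.2 hzr hzx φ hφ hφz.ne T' hT' hTc' hTe' hTN'
      refine nocommon hDF2 h hD1 hD (p := z) ?_ ?_ ?_
      · rw [mem_sdiff]
        refine ⟨hz.2, ?_⟩
        simp only [mem_insert, mem_singleton, not_or]
        exact ⟨hzq, hzr, hzx⟩
      · rw [mem_sdiff]
        rintro ⟨-, h1⟩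
        exact h1 (mem_insert_self _ _)
      · have h1 := ccomp (insert z {q, r, x}) ((card_insert_le _ _).trans
          (Nat.succ_le_succ card_le_three))
        refine h1.trans (card_le_card ?_)
        intro i hi
        simp only [mem_sdiff, mem_inter, mem_insert, mem_singleton, not_or] at hi ⊢
        exact ⟨⟨hi.1, hi.2.2⟩, hi.1, hi.2.1, hi.2.2.2⟩
    · -- `s q < 0 < s x'`
      obtain ⟨t, ht1, ht2⟩ := exists_between hlt
      have ht0 : 0 < t := lt_trans (div_pos wq hB) ht1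
      rw [div_lt_iff₀ hB] at ht1
      rw [lt_div_iff₀ hA] at ht2
      obtain ⟨z, hz, hsz, T', hT', hTc', hTe', hTN', -⟩ := hLST ι 3 U c1 c2 e1 e2 h Y0 hY0 hY0c
        hY0e (w' + t • φ) (sU t) (by rw [sval, φc]; linarith) (by rw [sval, φe]; linarith) (by
          intro i hi
          rw [hN0', mem_singleton] at hi
          rw [sval, hi, φr]; linarith) ⟨q, Y0pos q hqa hqr, by
            rw [sval]; linarith⟩
      rw [mem_inter] at hz
      rw [hN0'] at hTN'
      rw [sval] at hsz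
      have hzr : z ≠ r := by
        rintro rfl
        have := mem_Pos.1 hz.1
        linarith
      have hzx : z ≠ x := by
        rintro rfl
        rw [w'x, φx] at hsz
        linarith
      have hzx' : z ≠ x' := by
        rintro rfl
        linarith
      exact TR z hz.2 hzr T' hT' hTc' hTe' hTN' hzx hzx'
  -- (d)
  have hx'q : x' ≠ q := fun h1 => hqx' h1.symm
  have hkD' : kap U {x, x', q} = 2 := by
    rw [← kpair x x' hxL hx'L hxx]
    apply le_antisymm
    · apply kap_anti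
      intro i hi
      simp only [mem_insert, mem_singleton] at hi ⊢
      rcases hi with h1 | h1
      · exact Or.inl h1
      · exact Or.inr (Or.inl h1)
    · refine kap_le_of_le ?_
      intro μ hμ
      have h1 : μ x = 0 := hμ.2 x (mem_insert_self _ _)
      have h2 : μ x' = 0 := hμ.2 x' (mem_insert_of_mem (mem_singleton_self _))
      have h3 := claim μ (by
        rw [mem_K]
        refine ⟨hμ.1, fun i hi => ?_⟩
        rw [mem_singleton] at hi
        rw [hi, h1])
      rw [h2, zero_mul] at h3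
      have h4 : μ q = 0 := by
        rcases mul_eq_zero.1 h3.symm with h4 | h4
        · exact h4
        · exact absurd h4 φx'.ne
      rw [mem_K]
      refine ⟨hμ.1, fun i hi => ?_⟩
      simp only [mem_insert, mem_singleton] at hi
      rcases hi with rfl | rfl | rfl <;> assumption
  have hD' : Dset 3 U c1 e1 {x, x', q} := by
    refine ⟨?_, ?_, hkD'⟩
    · intro i hi
      simp only [mem_insert, mem_singleton] at hi
      rcases hi with rfl | rfl | rfl <;> assumption
    · rw [card_insert_of_notMem, card_pair hx'q]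
      simp only [mem_insert, mem_singleton, not_or]
      exact ⟨hxx, hqx.symm⟩
  obtain ⟨q', hq', hD2⟩ := hDF3 ι 3 U c1 c2 e1 e2 h hG yx' hyx' (by
    rw [hNx', card_pair hrx'])
  have eP : ∀ i, i ∈ Pos yx' ↔ i ∈ LL U c1 e1 ∧ i ≠ r ∧ i ≠ x' := by
    intro i
    have h1 := (k5 yx' hyx').2.1
    have h2 := (k5 yx' hyx').2.2.1
    rw [disjoint_left] at h2
    have h3 : i ∈ LL U c1 e1 ↔ i ∈ Pos yx' ∨ i ∈ Neg yx' := by
      rw [LL, ← h1, mem_union]
    have h4 : i ∈ Neg yx' ↔ i = r ∨ i = x' := by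
      rw [hNx', mem_insert, mem_singleton]
    constructor
    · intro h5
      refine ⟨h3.2 (Or.inl h5), ?_, ?_⟩
      · intro h6
        exact h2 h5 (h4.2 (Or.inl h6))
      · intro h6
        exact h2 h5 (h4.2 (Or.inr h6))
    · rintro ⟨h5, h6, h7⟩
      rcases h3.1 h5 with h8 | h8
      · exact h8
      · rcases h4.1 h8 with h9 | h9
        · exact absurd h9 h6
        · exact absurd h9 h7
  have eD2 : ∀ i, i ∈ (Pos yx').erase q' ↔ i ≠ q' ∧ i ∈ LL U c1 e1 ∧ i ≠ r ∧ i ≠ x' := by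
    intro i
    rw [mem_erase, eP]
  have hx'D2 : x' ∉ (Pos yx').erase q' := by
    rw [eD2]
    exact fun h1 => h1.2.2.2 rfl
  have hq'c : q' = x ∨ q' = q := by
    by_contra hcon
    push Not at hcon
    refine nocommon hDF2 h hD' hD2 (p := x') ?_ hx'D2 ?_
    · exact mem_insert_of_mem (mem_insert_self _ _)
    · have h1 : ({x, q} : Finset ι) ⊆ {x, x', q} ∩ (Pos yx').erase q' := by
        intro i hi
        rw [mem_inter, eD2]
        simp only [mem_insert, mem_singleton] at hi ⊢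
        rcases hi with rfl | rfl
        · exact ⟨Or.inl rfl, hcon.1.symm, hxL, hrx.symm, hxx⟩
        · exact ⟨Or.inr (Or.inr rfl), hcon.2.symm, hqL, hqr, hqx'⟩
      have h2 := card_le_card h1
      rw [card_pair hqx.symm] at h2
      exact h2
  refine nocommon hDF2 h hD1 hD2 (p := x') ?_ hx'D2 ?_
  · rw [mem_sdiff]
    refine ⟨hx'L, ?_⟩
    simp only [mem_insert, mem_singleton, not_or]
    exact ⟨hx'q, hrx'.symm, hxx.symm⟩
  · have h1 := ccomp (insert x' {q, r, x}) ((card_insert_le _ _).trans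
      (Nat.succ_le_succ card_le_three))
    refine h1.trans (card_le_card ?_)
    intro i hi
    rw [mem_inter, eD2]
    simp only [mem_sdiff, mem_insert, mem_singleton, not_or] at hi ⊢
    refine ⟨⟨hi.1, hi.2.2⟩, ?_, hi.1, hi.2.2.2.1, hi.2.1⟩
    rcases hq'c with h2 | h2
    · rw [h2]
      exact hi.2.2.2.2
    · rw [h2]
      exact hi.2.2.1

end MPa0e17f
end

section
/-!
# Module FVB: the wall next to the first wall for `k = 4`
-/
set_option autoImplicit false

namespace MPa0e17f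

open Finset Module

namespace FVBM

/-- one step, if no two coordinates are proportional -/
theorem step1 (hSTP : SpecSTP) {ι : Type} [Fintype ι] [DecidableEq ι] {W : Submodule ℝ (ι → ℝ)}
    (hnp : ∀ i ∈ act W, ∀ j ∈ act W, i ≠ j → ¬ Prl W i j) {y u : ι → ℝ} (hy : NZ W y)
    (hu : u ∈ W) (hex : ∃ i, y i * u i < 0) :
    ∃ x ∈ act W, y x * u x < 0 ∧
      (∃ y0 ∈ W, Pos y0 = (Pos y).erase x ∧ Neg y0 = (Neg y).erase x) ∧
      ∃ y1, NZ W y1 ∧ (0 < y x → Pos y1 = (Pos y).erase x ∧ Neg y1 = insert x (Neg y)) ∧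
        (y x < 0 → Pos y1 = insert x (Pos y) ∧ Neg y1 = (Neg y).erase x) := by
  obtain ⟨Z, ⟨x, hx⟩, hZa, hZn, hZp, -, ⟨y0, hy0, hp0, hn0⟩, ⟨y1, hy1, hp1, hn1⟩⟩ :=
    hSTP ι W y u hy hu hex
  have hZ : Z = {x} := by
    refine Finset.eq_singleton_iff_unique_mem.2 ⟨hx, fun j hj => ?_⟩
    by_contra hne
    exact hnp j (hZa hj) x (hZa hx) hne (hZp j hj x hx)
  subst hZ
  refine ⟨x, hZa hx, hZn x hx, ⟨y0, hy0, ?_, ?_⟩, y1, hy1, ?_, ?_⟩
  · rw [hp0, Finset.sdiff_singleton_eq_erase]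
  · rw [hn0, Finset.sdiff_singleton_eq_erase]
  · intro h
    have hxP : x ∈ Pos y := mem_Pos.2 h
    have hxN : x ∉ Neg y := fun hc => by
      have := mem_Neg.1 hc
      linarith
    constructor
    · rw [hp1, Finset.sdiff_singleton_eq_erase, Finset.inter_singleton_of_notMem hxN,
        Finset.union_empty]
    · rw [hn1, Finset.sdiff_singleton_eq_erase, Finset.inter_singleton_of_mem hxP,
        Finset.erase_eq_of_notMem hxN, Finset.union_comm, ← Finset.insert_eq]
  · intro h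
    have hxN : x ∈ Neg y := mem_Neg.2 h
    have hxP : x ∉ Pos y := fun hc => by
      have := mem_Pos.1 hc
      linarith
    constructor
    · rw [hp1, Finset.sdiff_singleton_eq_erase, Finset.inter_singleton_of_mem hxN,
        Finset.erase_eq_of_notMem hxP, Finset.union_comm, ← Finset.insert_eq]
    · rw [hn1, Finset.sdiff_singleton_eq_erase, Finset.inter_singleton_of_notMem hxP,
        Finset.union_empty]

end FVBM

theorem specFVB (hSTP : SpecSTP) (hUNI : SpecUNI) (hTLK : SpecTLK) (hTPF : SpecTPF)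
    (hDF1 : SpecDF1) (hDF2 : SpecDF2) (hDF3 : SpecDF3) : SpecFVB := by
  intro ι _ _ U c1 c2 e1 e2 h hG v z w hv
  obtain ⟨t1, t2, t3, -, t5, -, -, -, t9, -, -, -⟩ := hTPF ι 4 U c1 c2 e1 e2 h
  have hle : UU U c1 e1 ≤ U := K_le _ _
  -- the plane `Y`
  set Y : Submodule ℝ (ι → ℝ) := K (UU U c1 e1) {z} with hYdef
  have hYle : Y ≤ UU U c1 e1 := K_le _ _
  have hdim : finrank ℝ Y = 2 := by
    have := kap_singleton_of_ne (UU U c1 e1) z (mem_act.1 hv.zL)
    unfold kap at this
    rw [← hYdef] at this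
    omega
  have hYhs : HS 4 Y := fun μ hμ h0 => h.bas.hs μ (hle (hYle hμ)) h0
  have hact : act Y = (LL U c1 e1).erase z := by
    refine Finset.eq_of_subset_of_card_le ?_ ?_
    · intro i hi
      obtain ⟨μ, hμ, h0⟩ := mem_act.1 hi
      rw [Finset.mem_erase]
      refine ⟨?_, mem_act.2 ⟨μ, hYle hμ, h0⟩⟩
      rintro rfl
      exact h0 (hμ.2 i (Finset.mem_singleton_self i))
    · rw [Finset.card_erase_of_mem hv.zL, t2]
      have := card_act_ge (k := 4) hYhs Y le_rfl (by omega)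
      omega
  have hYc : (act Y).card = finrank ℝ Y + 4 + 1 := by
    rw [hact, Finset.card_erase_of_mem hv.zL, t2, hdim]
  have hYnp : ∀ i ∈ act Y, ∀ j ∈ act Y, i ≠ j → ¬ Prl Y i j :=
    (hUNI ι 4 Y hYhs (by omega) hYc).2.2.2.1 (by omega)
  have hvY : v ∈ Y := ⟨hv.mem, fun i hi => by rw [Finset.mem_singleton.1 hi]; exact hv.vz⟩
  have hwY : w ∈ act Y := by
    rw [hact, Finset.mem_erase]
    exact ⟨hv.zw.symm, hv.wL⟩
  have hzero : ∀ i ∈ act Y, v i = 0 → i = w := by
    intro i hi h0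
    rw [hact, Finset.mem_erase] at hi
    by_contra hne
    exact hv.nz i hi.2 hi.1 hne h0
  -- the nudged tope
  obtain ⟨s, hs, hsw⟩ : ∃ s ∈ Y, 0 < s w := by
    obtain ⟨s, hs, h0⟩ := mem_act.1 hwY
    rcases lt_or_gt_of_ne h0 with h1 | h1
    · exact ⟨-s, Y.neg_mem hs, by simpa using h1⟩
    · exact ⟨s, hs, h1⟩
  obtain ⟨y, hy, hp, hn⟩ := (hTLK ι Y).2.2.2.2.2.2.2.1 v hvY s hs (fun i hi h0 => by
    rw [hzero i hi h0]
    exact hsw.ne')
  have hPy : Pos y = insert w (Pos v) := by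
    ext i
    rw [hp, Finset.mem_insert, mem_Pos]
    constructor
    · rintro (h1 | ⟨h1, h2⟩)
      · exact Or.inr h1
      · exact Or.inl (hzero i (mem_act.2 ⟨s, hs, h2.ne'⟩) h1)
    · rintro (h1 | h1)
      · subst h1
        exact Or.inr ⟨hv.vw, hsw⟩
      · exact Or.inl h1
  have hNy : Neg y = Neg v := by
    ext i
    rw [hn, mem_Neg]
    constructor
    · rintro (h1 | ⟨h1, h2⟩)
      · exact h1
      · exfalso
        have h3 := hzero i (mem_act.2 ⟨s, hs, h2.ne⟩) h1
        rw [h3] at h2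
        linarith
    · intro h1
      exact Or.inl h1
  -- elementary facts on the sets
  have hzP : z ∉ Pos v := fun hc => by
    have := mem_Pos.1 hc
    rw [hv.vz] at this
    exact lt_irrefl _ this
  have hzN : z ∉ Neg v := fun hc => by
    have := mem_Neg.1 hc
    rw [hv.vz] at this
    exact lt_irrefl _ this
  have hwP : w ∉ Pos v := fun hc => by
    have := mem_Pos.1 hc
    rw [hv.vw] at this
    exact lt_irrefl _ this
  have hwN : w ∉ Neg v := fun hc => by
    have := mem_Neg.1 hc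
    rw [hv.vw] at this
    exact lt_irrefl _ this
  have hPN : ∀ i, i ∈ Pos v → i ∉ Neg v := fun i h1 h2 => by
    have := mem_Pos.1 h1
    have := mem_Neg.1 h2
    linarith
  have hpc := hv.pc
  have hnc := hv.nc
  have hzw := hv.zw
  -- no three common elements
  have no3 : ∀ D D' : Finset ι, Dset 4 U c1 e1 D → Dset 4 U c1 e1 D' → D ≠ D' →
      ∀ S : Finset ι, S ⊆ D → S ⊆ D' → 3 ≤ S.card → False := by
    intro D D' hD hD' hne S h1 h2 h3
    have h4 := (hDF2 ι 4 U c1 c2 e1 e2 h D D' hD hD' hne).1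
    have h5 := Finset.card_le_card (Finset.subset_inter h1 h2)
    omega
  -- one step in the direction `-v`
  obtain ⟨x, hxY, hxn, ⟨v1, hv1, hP1, hN1⟩, -⟩ := FVBM.step1 hSTP hYnp hy (Y.neg_mem hvY) (by
    have h1 : (Pos v).Nonempty := Finset.card_pos.1 (by omega)
    obtain ⟨i, hi⟩ := h1
    refine ⟨i, ?_⟩
    have h2 : 0 < y i := mem_Pos.1 (by rw [hPy]; exact Finset.mem_insert_of_mem hi)
    have h3 := mem_Pos.1 hi
    have h4 := mul_pos h2 h3
    simp only [Pi.neg_apply]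
    linarith)
  have hxL : x ∈ LL U c1 e1 ∧ x ≠ z := by
    rw [hact, Finset.mem_erase] at hxY
    exact ⟨hxY.2, hxY.1⟩
  have hxw : x ≠ w := by
    rintro rfl
    simp only [Pi.neg_apply, hv.vw, neg_zero, mul_zero, lt_irrefl] at hxn
  have hvx : v x ≠ 0 := hv.nz x hxL.1 hxL.2 hxw
  have hv1U : v1 ∈ UU U c1 e1 := hYle hv1
  have hv1z : v1 z = 0 := hv1.2 z (Finset.mem_singleton_self z)
  have hv1x : v1 x = 0 := by
    by_contra hne
    rcases lt_or_gt_of_ne hne with h1 | h1
    · have h2 := mem_Neg.2 h1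
      rw [hN1] at h2
      exact Finset.notMem_erase x _ h2
    · have h2 := mem_Pos.2 h1
      rw [hP1] at h2
      exact Finset.notMem_erase x _ h2
  have hZ' : ∀ i, i ∈ ({z, x} : Finset ι) ↔ i ∈ LL U c1 e1 ∧ v1 i = 0 := by
    intro i
    rw [Finset.mem_insert, Finset.mem_singleton]
    constructor
    · rintro (rfl | rfl)
      · exact ⟨hv.zL, hv1z⟩
      · exact ⟨hxL.1, hv1x⟩
    · rintro ⟨h1, h2⟩
      by_contra hcon
      push Not at hcon
      have h3 : i ∈ act Y := by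
        rw [hact, Finset.mem_erase]
        exact ⟨hcon.1, h1⟩
      have h4 := hy.2 i h3
      rcases lt_or_gt_of_ne h4 with h5 | h5
      · have h6 : i ∈ Neg v1 := by
          rw [hN1, Finset.mem_erase]
          exact ⟨hcon.2, mem_Neg.2 h5⟩
        have := mem_Neg.1 h6
        linarith
      · have h6 : i ∈ Pos v1 := by
          rw [hP1, Finset.mem_erase]
          exact ⟨hcon.2, mem_Pos.2 h5⟩
        have := mem_Pos.1 h6
        linarith
  have hZc : ({z, x} : Finset ι).card + 1 ≤ 4 := by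
    have := Finset.card_le_two (a := z) (b := x)
    omega
  rw [hPy] at hP1
  rw [hNy] at hN1
  rcases lt_or_gt_of_ne hvx with hneg | hpos
  · -- `x ∈ Neg v`
    have hxN : x ∈ Neg v := mem_Neg.2 hneg
    have hxP : x ∉ Pos v := fun hc => hPN x hc hxN
    have hP1' : Pos v1 = insert w (Pos v) := by
      rw [hP1]
      refine Finset.erase_eq_of_notMem ?_
      rw [Finset.mem_insert]
      rintro (h1 | h1)
      · exact hxw h1
      · exact hxP h1
    obtain ⟨y2, hy2, hP2, hN2⟩ := t9 v1 hv1U {z, x} hZ' hZc {x} (by simp)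
    have hN2' : Neg y2 = insert z ((Neg v).erase x) := by
      rw [hN2, hN1]
      ext i
      simp only [Finset.mem_union, Finset.mem_erase, Finset.mem_sdiff, Finset.mem_insert,
        Finset.mem_singleton]
      constructor
      · rintro (h1 | ⟨h1 | h1, h2⟩)
        · exact Or.inr h1
        · exact Or.inl h1
        · exact absurd h1 h2
      · rintro (h1 | h1)
        · subst h1
          exact Or.inr ⟨Or.inl rfl, hxL.2.symm⟩
        · exact Or.inl h1
    have hP2' : Pos y2 = insert x (insert w (Pos v)) := by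
      rw [hP2, hP1', Finset.union_comm, ← Finset.insert_eq]
    have hNc : (Neg y2).card + 1 = 4 := by
      rw [hN2', Finset.card_insert_of_notMem (fun hc => hzN (Finset.mem_of_mem_erase hc)),
        Finset.card_erase_of_mem hxN]
      omega
    obtain ⟨f, hf, hD⟩ := hDF3 ι 4 U c1 c2 e1 e2 h hG y2 hy2 hNc
    rw [hP2'] at hf hD
    have hxz := hxL.2
    rw [Finset.mem_insert, Finset.mem_insert] at hf
    have hfP : f ∈ Pos v := by
      rcases hf with rfl | rfl | hf
      · -- `f = x`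
        exfalso
        have hS : (Pos v) ⊆ (insert f (insert w (Pos v))).erase f := by
          intro i hi
          rw [Finset.mem_erase]
          refine ⟨?_, by simp [hi]⟩
          rintro rfl
          exact hxP hi
        refine no3 _ _ hD hv.dp ?_ (Pos v) hS (Finset.subset_insert _ _) (by omega)
        intro heq
        have h1 : w ∈ (insert f (insert w (Pos v))).erase f := by
          rw [Finset.mem_erase]
          exact ⟨hxw.symm, by simp⟩
        rw [heq, Finset.mem_insert] at h1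
        rcases h1 with h1 | h1
        · exact hzw h1.symm
        · exact hwP h1
      · -- `f = w`
        exfalso
        have hS : (Pos v) ⊆ (insert x (insert f (Pos v))).erase f := by
          intro i hi
          rw [Finset.mem_erase]
          refine ⟨?_, by simp [hi]⟩
          rintro rfl
          exact hwP hi
        refine no3 _ _ hD hv.dp ?_ (Pos v) hS (Finset.subset_insert _ _) (by omega)
        intro heq
        have h1 : x ∈ (insert x (insert f (Pos v))).erase f := by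
          rw [Finset.mem_erase]
          exact ⟨hxw, by simp⟩
        rw [heq, Finset.mem_insert] at h1
        rcases h1 with h1 | h1
        · exact hxz h1
        · exact hxP h1
      · exact hf
    refine ⟨x, hxN, f, hfP, v1, hv1U, hv1z, hv1x, hP1', hN1, ?_⟩
    have hset : (insert x (insert w (Pos v))).erase f = insert w (insert x ((Pos v).erase f)) := by
      have hxf : x ≠ f := by
        rintro rfl
        exact hxP hfP
      have hwf : w ≠ f := by
        rintro rfl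
        exact hwP hfP
      rw [Finset.erase_insert_of_ne hxf, Finset.erase_insert_of_ne hwf, Finset.insert_comm]
    rw [hset] at hD
    exact hD
  · -- `x ∈ Pos v`
    exfalso
    have hxP : x ∈ Pos v := mem_Pos.2 hpos
    have hxN : x ∉ Neg v := hPN x hxP
    have hN1' : Neg v1 = Neg v := by
      rw [hN1, Finset.erase_eq_of_notMem hxN]
    have hP1' : Pos v1 = insert w ((Pos v).erase x) := by
      rw [hP1, Finset.erase_insert_of_ne hxw.symm]
    obtain ⟨y2, hy2, hP2, hN2⟩ := t9 v1 hv1U {z, x} hZ' hZc {z} (by simp)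
    have hxz := hxL.2
    have hN2' : Neg y2 = insert x (Neg v) := by
      rw [hN2, hN1']
      ext i
      simp only [Finset.mem_union, Finset.mem_sdiff, Finset.mem_insert, Finset.mem_singleton]
      constructor
      · rintro (h1 | ⟨h1 | h1, h2⟩)
        · exact Or.inr h1
        · exact absurd h1 h2
        · exact Or.inl h1
      · rintro (h1 | h1)
        · subst h1
          exact Or.inr ⟨Or.inr rfl, hxz⟩
        · exact Or.inl h1
    have hP2' : Pos y2 = insert z (insert w ((Pos v).erase x)) := by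
      rw [hP2, hP1', Finset.union_comm, ← Finset.insert_eq]
    have hPc : (Pos y2).card = 4 := by
      rw [hP2', Finset.card_insert_of_notMem, Finset.card_insert_of_notMem,
        Finset.card_erase_of_mem hxP]
      · omega
      · exact fun hc => hwP (Finset.mem_of_mem_erase hc)
      · rw [Finset.mem_insert]
        rintro (h1 | h1)
        · exact hzw h1
        · exact hzP (Finset.mem_of_mem_erase h1)
    have hNc : (Neg y2).card = 4 := by
      rw [hN2', Finset.card_insert_of_notMem hxN]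
      omega
    rcases hDF1 ι 4 U c1 c2 e1 e2 h hG y2 hy2 hPc hNc with hD | hD
    · rw [hP2'] at hD
      refine no3 _ _ hD hv.dp ?_ (insert z ((Pos v).erase x)) ?_ ?_ ?_
      · intro heq
        have h1 : w ∈ insert z (insert w ((Pos v).erase x)) := by simp
        rw [heq, Finset.mem_insert] at h1
        rcases h1 with h1 | h1
        · exact hzw h1.symm
        · exact hwP h1
      · exact Finset.insert_subset_insert _ (Finset.subset_insert _ _)
      · exact Finset.insert_subset_insert _ (Finset.erase_subset _ _)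
      · rw [Finset.card_insert_of_notMem (fun hc => hzP (Finset.mem_of_mem_erase hc)),
          Finset.card_erase_of_mem hxP]
        omega
    · rw [hN2'] at hD
      refine no3 _ _ hD hv.dn ?_ (Neg v) (Finset.subset_insert _ _) (Finset.subset_insert _ _)
        (by omega)
      intro heq
      have h1 : x ∈ insert x (Neg v) := by simp
      rw [heq, Finset.mem_insert] at h1
      rcases h1 with h1 | h1
      · exact hxz h1
      · exact hxN h1

end MPa0e17f
end

section
/-!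
# Module FOC: no tope of the plane `UU` with one negative element (`k = 3`)
-/
set_option autoImplicit false

namespace MPa0e17f

open Finset Module

namespace FOCM

variable {ι : Type} [Fintype ι] [DecidableEq ι] {U : Submodule ℝ (ι → ℝ)} {c1 c2 e1 e2 : ι}

/-- no two coordinates are proportional on `UU` -/
theorem np (hUNI : SpecUNI) (hTPF : SpecTPF) (h : TwoP 3 U c1 c2 e1 e2) :
    ∀ i ∈ act (UU U c1 e1), ∀ j ∈ act (UU U c1 e1), i ≠ j → ¬ Prl (UU U c1 e1) i j := by
  obtain ⟨t1, t2, -⟩ := hTPF ι 3 U c1 c2 e1 e2 h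
  have hs : HS 3 (UU U c1 e1) := fun μ hμ h0 => h.bas.hs μ (K_le _ _ hμ) h0
  have t2' : (act (UU U c1 e1)).card = 2 * 3 := t2
  exact (hUNI ι 3 (UU U c1 e1) hs (by omega) (by omega)).2.2.2.1 (by omega)

/-- signs of a tope in terms of the negative side -/
theorem pos_of {W : Submodule ℝ (ι → ℝ)} {y : ι → ℝ} (hy : NZ W y) {i : ι} (hi : i ∈ act W)
    (hn : i ∉ Neg y) : 0 < y i := by
  rcases lt_or_gt_of_ne (hy.2 i hi) with h1 | h1
  · exact absurd (mem_Neg.2 h1) hn
  · exact h1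

/-- two different `D`-sets have no two common elements -/
theorem no2 (hDF2 : SpecDF2) (h : TwoP 3 U c1 c2 e1 e2) {D D' : Finset ι}
    (hD : Dset 3 U c1 e1 D) (hD' : Dset 3 U c1 e1 D') (hne : D ≠ D') {S : Finset ι}
    (h1 : S ⊆ D) (h2 : S ⊆ D') (h3 : 2 ≤ S.card) : False := by
  have h4 := (hDF2 ι 3 U c1 c2 e1 e2 h D D' hD hD' hne).1
  have h5 := Finset.card_le_card (Finset.subset_inter h1 h2)
  omega

theorem sdiff4_card {L : Finset ι} (hL : L.card = 6) (a b c d : ι) :
    2 ≤ (L \ {a, b, c, d}).card := by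
  have h1 : ({a, b, c, d} : Finset ι).card ≤ 4 := Finset.card_le_four
  have h2 := Finset.le_card_sdiff ({a, b, c, d} : Finset ι) L
  omega

theorem sdiff3_nonempty {L : Finset ι} (hL : L.card = 6) (a b c : ι) :
    (L \ {a, b, c}).Nonempty := by
  have h1 : ({a, b, c} : Finset ι).card ≤ 3 := Finset.card_le_three
  have h2 := Finset.le_card_sdiff ({a, b, c} : Finset ι) L
  exact Finset.card_pos.1 (by omega)

/-- the step from `yx` in the direction `-yx'` -/
theorem main (hSTP : SpecSTP) (hUNI : SpecUNI) (hTPF : SpecTPF) (hDF1 : SpecDF1)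
    (hDF2 : SpecDF2) (hFOB : SpecFOB) (h : TwoP 3 U c1 c2 e1 e2) (hG : ¬ Good 3 U) (r x x' : ι)
    (hrL : r ∈ LL U c1 e1) (hxL : x ∈ LL U c1 e1) (hxL' : x' ∈ LL U c1 e1) (hxx : x ≠ x')
    (hrx : r ≠ x) (hrx' : r ≠ x') {yx yx' : ι → ℝ} (hyx : NZ (UU U c1 e1) yx)
    (hyx' : NZ (UU U c1 e1) yx') (hn : Neg yx = {r, x}) (hn' : Neg yx' = {r, x'})
    (hD : Dset 3 U c1 e1 (LL U c1 e1 \ {r, x, x'})) :
    ∃ d ∈ LL U c1 e1 \ {r, x, x'}, Dset 3 U c1 e1 {r, x, d} := by
  obtain ⟨t1, t2, -⟩ := hTPF ι 3 U c1 c2 e1 e2 h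
  have hL6 : (LL U c1 e1).card = 6 := t2
  have hnp := np hUNI hTPF h
  have sr : yx r < 0 := mem_Neg.1 (by rw [hn]; simp)
  have sx : yx x < 0 := mem_Neg.1 (by rw [hn]; simp)
  have sx' : 0 < yx x' := pos_of hyx hxL' (by rw [hn]; simp [hxx.symm, hrx'.symm])
  have sr' : yx' r < 0 := mem_Neg.1 (by rw [hn']; simp)
  have sxx' : yx' x' < 0 := mem_Neg.1 (by rw [hn']; simp)
  have sx'x : 0 < yx' x := pos_of hyx' hxL (by rw [hn']; simp [hxx, hrx.symm])
  obtain ⟨q, hq, hqn, -, T, hT, hTp, hTn⟩ := FVBM.step1 hSTP hnp hyx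
    ((UU U c1 e1).neg_mem hyx'.1) ⟨r, by
      have := mul_pos_of_neg_of_neg sr sr'
      simp only [Pi.neg_apply]
      linarith⟩
  simp only [Pi.neg_apply] at hqn
  have hqx : q ≠ x := by
    rintro rfl
    have := mul_neg_of_neg_of_pos sx sx'x
    linarith
  have hqx' : q ≠ x' := by
    rintro rfl
    have := mul_neg_of_pos_of_neg sx' sxx'
    linarith
  by_cases hqr : q = r
  · -- the element `r` is crossed
    exfalso
    subst hqr
    obtain ⟨hTP, hTN⟩ := hTn sr
    have hTN' : Neg T = {x} := by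
      rw [hTN, hn, Finset.erase_insert (by simp [hrx])]
    have tx : T x < 0 := mem_Neg.1 (by rw [hTN']; simp)
    have tr : 0 < T q := pos_of hT hrL (by rw [hTN']; simp [hrx])
    have tx' : 0 < T x' := pos_of hT hxL' (by rw [hTN']; simp [hxx.symm])
    obtain ⟨d, hd⟩ := sdiff3_nonempty hL6 q x x'
    rw [Finset.mem_sdiff, Finset.mem_insert, Finset.mem_insert, Finset.mem_singleton] at hd
    push Not at hd
    have td : 0 < T d := pos_of hT hd.1 (by rw [hTN']; simp [hd.2.2.1])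
    have td' : 0 < yx' d := pos_of hyx' hd.1 (by rw [hn']; simp [hd.2.1, hd.2.2.2])
    obtain ⟨p, hp, hpn, -, T2, hT2, hT2p, -⟩ := FVBM.step1 hSTP hnp hT
      ((UU U c1 e1).neg_mem hyx'.1) ⟨d, by
        have := mul_pos td td'
        simp only [Pi.neg_apply]
        linarith⟩
    simp only [Pi.neg_apply] at hpn
    have hpx : p ≠ x := by
      rintro rfl
      have := mul_neg_of_neg_of_pos tx sx'x
      linarith
    have hpq : p ≠ q := by
      rintro rfl
      have := mul_neg_of_pos_of_neg tr sr'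
      linarith
    have hpx' : p ≠ x' := by
      rintro rfl
      have := mul_neg_of_pos_of_neg tx' sxx'
      linarith
    have tp : 0 < T p := pos_of hT hp (by rw [hTN']; simp [hpx])
    obtain ⟨-, hT2N⟩ := hT2p tp
    have hT2N' : Neg T2 = {x, p} := by
      rw [hT2N, hTN']
      ext i
      simp only [Finset.mem_insert, Finset.mem_singleton]
      tauto
    have hyxn : Neg yx = {x, q} := by
      rw [hn, Finset.pair_comm]
    have hD2 := hFOB ι U c1 c2 e1 e2 h hG x q p hpq.symm hrx.symm hpx.symm T yx T2 hT hyx hT2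
      hTN' hyxn hT2N'
    refine no2 hDF2 h hD hD2 ?_ (S := LL U c1 e1 \ {q, x, x', p}) ?_ ?_ (sdiff4_card hL6 _ _ _ _)
    · intro heq
      have h1 : x' ∈ LL U c1 e1 \ {x, q, p} := by
        rw [Finset.mem_sdiff, Finset.mem_insert, Finset.mem_insert, Finset.mem_singleton]
        push Not
        exact ⟨hxL', hxx.symm, hrx'.symm, hpx'.symm⟩
      rw [← heq, Finset.mem_sdiff] at h1
      exact h1.2 (by simp)
    · refine Finset.sdiff_subset_sdiff (Finset.Subset.refl _) ?_
      intro i hi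
      simp only [Finset.mem_insert, Finset.mem_singleton] at hi ⊢
      tauto
    · refine Finset.sdiff_subset_sdiff (Finset.Subset.refl _) ?_
      intro i hi
      simp only [Finset.mem_insert, Finset.mem_singleton] at hi ⊢
      tauto
  · -- an element of `D` is crossed
    have hqD : q ∈ LL U c1 e1 \ {r, x, x'} := by
      rw [Finset.mem_sdiff, Finset.mem_insert, Finset.mem_insert, Finset.mem_singleton]
      push Not
      exact ⟨hq, hqr, hqx, hqx'⟩
    refine ⟨q, hqD, ?_⟩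
    have tq : 0 < yx q := pos_of hyx hq (by rw [hn]; simp [hqr, hqx])
    obtain ⟨-, hTN⟩ := hTp tq
    have hTN' : Neg T = {r, x, q} := by
      rw [hTN, hn]
      ext i
      simp only [Finset.mem_insert, Finset.mem_singleton]
      tauto
    have hTP' : Pos T = LL U c1 e1 \ {r, x, q} := by
      ext i
      rw [Finset.mem_sdiff, ← hTN']
      constructor
      · intro h1
        refine ⟨Pos_subset_act hT.1 h1, fun h2 => ?_⟩
        have := mem_Pos.1 h1
        have := mem_Neg.1 h2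
        linarith
      · rintro ⟨h1, h2⟩
        exact mem_Pos.2 (pos_of hT h1 h2)
    have hsub : ({r, x, q} : Finset ι) ⊆ LL U c1 e1 := by
      intro i hi
      simp only [Finset.mem_insert, Finset.mem_singleton] at hi
      rcases hi with rfl | rfl | rfl
      · exact hrL
      · exact hxL
      · exact hq
    have hc3 : ({r, x, q} : Finset ι).card = 3 := by
      rw [Finset.card_insert_of_notMem, Finset.card_insert_of_notMem, Finset.card_singleton]
      · simpa using hqx.symm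
      · simp [hrx, Ne.symm hqr]
    have hNc : (Neg T).card = 3 := by rw [hTN', hc3]
    have hPc : (Pos T).card = 3 := by
      rw [hTP', Finset.card_sdiff_of_subset hsub, hc3, hL6]
    rcases hDF1 ι 3 U c1 c2 e1 e2 h hG T hT hPc hNc with hD2 | hD2
    · exfalso
      rw [hTP'] at hD2
      refine no2 hDF2 h hD hD2 ?_ (S := LL U c1 e1 \ {r, x, x', q}) ?_ ?_
        (sdiff4_card hL6 _ _ _ _)
      · intro heq
        have h1 : x' ∈ LL U c1 e1 \ {r, x, q} := by
          rw [Finset.mem_sdiff, Finset.mem_insert, Finset.mem_insert, Finset.mem_singleton]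
          push Not
          exact ⟨hxL', hrx'.symm, hxx.symm, hqx'.symm⟩
        rw [← heq, Finset.mem_sdiff] at h1
        exact h1.2 (by simp)
      · refine Finset.sdiff_subset_sdiff (Finset.Subset.refl _) ?_
        intro i hi
        simp only [Finset.mem_insert, Finset.mem_singleton] at hi ⊢
        tauto
      · refine Finset.sdiff_subset_sdiff (Finset.Subset.refl _) ?_
        intro i hi
        simp only [Finset.mem_insert, Finset.mem_singleton] at hi ⊢
        tauto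
    · rw [hTN'] at hD2
      exact hD2

/-- there is no tope of `UU` with one negative element -/
theorem noneg (hSTP : SpecSTP) (hUNI : SpecUNI) (hTPF : SpecTPF) (hDF1 : SpecDF1)
    (hDF2 : SpecDF2) (hFOA : SpecFOA) (hFOB : SpecFOB) (h : TwoP 3 U c1 c2 e1 e2)
    (hG : ¬ Good 3 U) {y : ι → ℝ} (hy : NZ (UU U c1 e1) y) : (Neg y).card ≠ 1 := by
  intro hc
  obtain ⟨r, hr⟩ := Finset.card_eq_one.1 hc
  obtain ⟨t1, t2, -, -, t5, -⟩ := hTPF ι 3 U c1 c2 e1 e2 h
  have hnp := np hUNI hTPF h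
  have hle : UU U c1 e1 ≤ U := K_le _ _
  have hrN : r ∈ Neg y := by rw [hr]; simp
  have hrL : r ∈ LL U c1 e1 := Neg_subset_act hy.1 hrN
  have hkap : kap (UU U c1 e1) {r} = 1 := by
    have := (t5 {r} (by simpa using hrL) (by simp)).2
    simp at this
    omega
  obtain ⟨u, hu, hu0⟩ : ∃ u ∈ K (UU U c1 e1) {r}, u ≠ 0 := by
    have h1 : K (UU U c1 e1) {r} ≠ ⊥ := by
      intro hb
      unfold kap at hkap
      rw [hb] at hkap
      simp at hkap
    exact Submodule.exists_mem_ne_zero_of_ne_bot h1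
  -- a step in the direction `u`
  have step : ∀ w ∈ K (UU U c1 e1) {r}, w ≠ 0 → ∃ x ∈ LL U c1 e1, w x < 0 ∧ r ≠ x ∧
      ∃ y1, NZ (UU U c1 e1) y1 ∧ Neg y1 = {r, x} := by
    intro w hw hw0
    have hwr : w r = 0 := hw.2 r (Finset.mem_singleton_self r)
    obtain ⟨i, hi⟩ := h.bas.hc w (hle hw.1) hw0
    have hiL : i ∈ act (UU U c1 e1) := mem_act.2 ⟨w, hw.1, hi.ne⟩
    have hir : i ≠ r := by
      rintro rfl
      rw [hwr] at hi
      exact lt_irrefl _ hi
    have hyi : 0 < y i := pos_of hy hiL (by rw [hr]; simpa using hir)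
    obtain ⟨x, hx, hxn, -, y1, hy1, hp1, -⟩ := FVBM.step1 hSTP hnp hy hw.1
      ⟨i, mul_neg_of_pos_of_neg hyi hi⟩
    have hxr : x ≠ r := by
      rintro rfl
      rw [hwr, mul_zero] at hxn
      exact lt_irrefl _ hxn
    have hyx : 0 < y x := pos_of hy hx (by rw [hr]; simpa using hxr)
    have hwx : w x < 0 := by
      by_contra hc
      have := mul_nonneg hyx.le (not_lt.1 hc)
      linarith
    refine ⟨x, hx, hwx, hxr.symm, y1, hy1, ?_⟩
    rw [(hp1 hyx).2, hr]
    ext j
    simp only [Finset.mem_insert, Finset.mem_singleton]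
    tauto
  obtain ⟨x, hxL, hxn, hrx, yx, hyx, hnx⟩ := step u hu hu0
  obtain ⟨x', hxL', hxn', hrx', yx', hyx', hnx'⟩ := step (-u) (Submodule.neg_mem _ hu)
    (neg_ne_zero.2 hu0)
  have hxx : x ≠ x' := by
    rintro rfl
    simp only [Pi.neg_apply] at hxn'
    linarith
  have hD := hFOB ι U c1 c2 e1 e2 h hG r x x' hxx hrx hrx' y yx yx' hy hyx hyx' hr hnx hnx'
  have hset : LL U c1 e1 \ {r, x', x} = LL U c1 e1 \ {r, x, x'} := by
    rw [Finset.pair_comm]
  obtain ⟨d, hd, hD1⟩ := main hSTP hUNI hTPF hDF1 hDF2 hFOB h hG r x x' hrL hxL hxL' hxx hrx hrx'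
    hyx hyx' hnx hnx' hD
  obtain ⟨d', hd', hD2⟩ := main hSTP hUNI hTPF hDF1 hDF2 hFOB h hG r x' x hrL hxL' hxL hxx.symm
    hrx' hrx hyx' hyx hnx' hnx (by rw [hset]; exact hD)
  refine hFOA ι U c1 c2 e1 e2 h _ _ _ hD hD1 hD2 ?_ ?_ ?_
  · intro heq
    have h1 : r ∈ LL U c1 e1 \ {r, x, x'} := by rw [heq]; simp
    rw [Finset.mem_sdiff] at h1
    exact h1.2 (by simp)
  · intro heq
    have h1 : r ∈ LL U c1 e1 \ {r, x, x'} := by rw [heq]; simp
    rw [Finset.mem_sdiff] at h1
    exact h1.2 (by simp)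
  · intro heq
    have h1 : x ∈ ({r, x', d'} : Finset ι) := by rw [← heq]; simp
    simp only [Finset.mem_insert, Finset.mem_singleton] at h1
    rcases h1 with h1 | h1 | h1
    · exact hrx h1.symm
    · exact hxx h1
    · rw [Finset.mem_sdiff] at hd'
      exact hd'.2 (by rw [← h1]; simp)

end FOCM

theorem specFOC (hSTP : SpecSTP) (hUNI : SpecUNI) (hTLK : SpecTLK) (hTPF : SpecTPF)
    (hDF1 : SpecDF1) (hDF2 : SpecDF2) (hFOA : SpecFOA) (hFOB : SpecFOB) : SpecFOC := by
  intro ι _ _ U c1 c2 e1 e2 h hG y hy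
  refine ⟨FOCM.noneg hSTP hUNI hTPF hDF1 hDF2 hFOA hFOB h hG hy, ?_⟩
  have hy' := ((hTLK ι (UU U c1 e1)).2.2.2.2.1 y hy).2.2.2
  have h1 := FOCM.noneg hSTP hUNI hTPF hDF1 hDF2 hFOA hFOB h hG hy'
  have h2 : Neg (-y) = Pos y := by
    ext i
    rw [mem_Neg, mem_Pos, Pi.neg_apply]
    constructor <;> intro h3 <;> linarith
  rwa [h2] at h1

end MPa0e17f
end

section
/-!
# FOD: the case `k = 3` with two heavy classes
-/
set_option autoImplicit false

namespace MPa0e17f

open Finset Module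

namespace FODM

variable {ι : Type} [Fintype ι] [DecidableEq ι]

/-- two steps from a balanced tope `T` in the direction `-T0` -/
theorem two (hSTP : SpecSTP) {W : Submodule ℝ (ι → ℝ)}
    (hnp : ∀ i ∈ act W, ∀ j ∈ act W, i ≠ j → ¬ Prl W i j)
    (F : ∀ y, NZ W y → (Neg y).card ≠ 1 ∧ (Pos y).card ≠ 1) {T0 T : ι → ℝ} (h0 : NZ W T0)
    (hT : NZ W T) (hP : (Pos T).card = 3) (hN : (Neg T).card = 3)
    (hi : ∃ i, i ∈ Pos T ∧ i ∈ Pos T0) (hj : ∃ j, j ∈ Neg T ∧ j ∈ Neg T0) :
    ∃ x y T', NZ W T' ∧ x ∈ Pos T ∧ x ∈ Pos T0 ∧ y ∈ Neg T ∧ y ∈ Neg T0 ∧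
      Pos T' = insert y ((Pos T).erase x) ∧ Neg T' = insert x ((Neg T).erase y) := by
  obtain ⟨i, hi, hi0⟩ := hi
  obtain ⟨j, hj, hj0⟩ := hj
  have wit : ∀ (A : ι → ℝ) (l : ι), 0 < A l * T0 l → ∃ l, A l * (-T0) l < 0 := by
    intro A l h
    refine ⟨l, ?_⟩
    simp only [Pi.neg_apply]
    linarith
  have hu : -T0 ∈ W := W.neg_mem h0.1
  obtain ⟨x, hx, hxn, -, T1, hT1, hp1, hn1⟩ := FVBM.step1 hSTP hnp hT hu
    (wit T i (mul_pos (mem_Pos.1 hi) (mem_Pos.1 hi0)))
  simp only [Pi.neg_apply] at hxn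
  rcases lt_or_gt_of_ne (hT.2 x hx) with hx1 | hx1
  · -- `x` is negative
    obtain ⟨hPT, hNT⟩ := hn1 hx1
    have hx0 : T0 x < 0 := by
      by_contra hc
      have := mul_nonneg_of_nonpos_of_nonpos hx1.le (neg_nonpos.2 (not_lt.1 hc))
      linarith
    have hi1 : i ∈ Pos T1 := by rw [hPT]; exact Finset.mem_insert_of_mem hi
    obtain ⟨y, hy, hyn, -, T2, hT2, hp2, hn2⟩ := FVBM.step1 hSTP hnp hT1 hu
      (wit T1 i (mul_pos (mem_Pos.1 hi1) (mem_Pos.1 hi0)))
    simp only [Pi.neg_apply] at hyn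
    rcases lt_or_gt_of_ne (hT1.2 y hy) with hy1 | hy1
    · exfalso
      obtain ⟨-, hNT2⟩ := hn2 hy1
      apply (F T2 hT2).1
      have h1 : y ∈ Neg T1 := mem_Neg.2 hy1
      rw [hNT2, Finset.card_erase_of_mem h1, hNT, Finset.card_erase_of_mem (mem_Neg.2 hx1), hN]
    · obtain ⟨hPT2, hNT2⟩ := hp2 hy1
      have hy0 : 0 < T0 y := by
        by_contra hc
        have := mul_nonneg hy1.le (neg_nonneg.2 (not_lt.1 hc))
        linarith
      have hyx : x ≠ y := by
        rintro rfl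
        linarith
      have hyP : y ∈ Pos T := by
        have h1 : y ∈ Pos T1 := mem_Pos.2 hy1
        rw [hPT, Finset.mem_insert] at h1
        exact h1.resolve_left hyx.symm
      refine ⟨y, x, T2, hT2, hyP, mem_Pos.2 hy0, mem_Neg.2 hx1, mem_Neg.2 hx0, ?_, ?_⟩
      · rw [hPT2, hPT, Finset.erase_insert_of_ne hyx]
      · rw [hNT2, hNT]
  · -- `x` is positive
    obtain ⟨hPT, hNT⟩ := hp1 hx1
    have hx0 : 0 < T0 x := by
      by_contra hc
      have := mul_nonneg hx1.le (neg_nonneg.2 (not_lt.1 hc))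
      linarith
    have hj1 : j ∈ Neg T1 := by rw [hNT]; exact Finset.mem_insert_of_mem hj
    obtain ⟨y, hy, hyn, -, T2, hT2, hp2, hn2⟩ := FVBM.step1 hSTP hnp hT1 hu
      (wit T1 j (mul_pos_of_neg_of_neg (mem_Neg.1 hj1) (mem_Neg.1 hj0)))
    simp only [Pi.neg_apply] at hyn
    rcases lt_or_gt_of_ne (hT1.2 y hy) with hy1 | hy1
    · obtain ⟨hPT2, hNT2⟩ := hn2 hy1
      have hy0 : T0 y < 0 := by
        by_contra hc
        have := mul_nonneg_of_nonpos_of_nonpos hy1.le (neg_nonpos.2 (not_lt.1 hc))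
        linarith
      have hyx : x ≠ y := by
        rintro rfl
        linarith
      have hyN : y ∈ Neg T := by
        have h1 : y ∈ Neg T1 := mem_Neg.2 hy1
        rw [hNT, Finset.mem_insert] at h1
        exact h1.resolve_left hyx.symm
      refine ⟨x, y, T2, hT2, mem_Pos.2 hx1, mem_Pos.2 hx0, hyN, mem_Neg.2 hy0, ?_, ?_⟩
      · rw [hPT2, hPT]
      · rw [hNT2, hNT, Finset.erase_insert_of_ne hyx]
    · exfalso
      obtain ⟨hPT2, -⟩ := hp2 hy1
      apply (F T2 hT2).2
      have h1 : y ∈ Pos T1 := mem_Pos.2 hy1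
      rw [hPT2, Finset.card_erase_of_mem h1, hPT, Finset.card_erase_of_mem (mem_Pos.2 hx1), hP]

theorem disj {y : ι → ℝ} {i : ι} (h1 : i ∈ Pos y) (h2 : i ∈ Neg y) : False := by
  have := mem_Pos.1 h1
  have := mem_Neg.1 h2
  linarith

end FODM

open FODM in
theorem specFOD (hSTP : SpecSTP) (hUNI : SpecUNI) (hBLS : SpecBLS) (hTPF : SpecTPF)
    (hDF1 : SpecDF1) (hDF2 : SpecDF2) (hFOA : SpecFOA) (hFOC : SpecFOC) : SpecFOD := by
  intro ι _ _ U c1 c2 e1 e2 h
  by_contra hG
  have hL6 : (act (UU U c1 e1)).card = 2 * 3 := (hTPF ι 3 U c1 c2 e1 e2 h).2.1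
  have hnp := FOCM.np hUNI hTPF h
  have F := hFOC ι U c1 c2 e1 e2 h hG
  have D := hDF1 ι 3 U c1 c2 e1 e2 h hG
  obtain ⟨T0, hT0, hP0, hN0⟩ : ∃ y, NZ (UU U c1 e1) y ∧ (Pos y).card = 3 ∧ (Neg y).card = 3 := by
    rcases hBLS.1 ι (UU U c1 e1) 3 hL6
      (fun i hi b hb l hl hib _ _ hbi _ => hnp b hb i hi hib.symm hbi) with
      h1 | ⟨y0, hy0, a, ha, b, hb, hab, hpar, -⟩
    · exact h1
    · exfalso
      obtain ⟨γ, -, hγ⟩ := hpar
      exact hnp b hb a ha hab.symm ⟨γ, hγ⟩
  have ne0 : ∀ S : Finset ι, 0 < S.card → ∃ i, i ∈ S := fun S hS => Finset.card_pos.1 hS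
  obtain ⟨i0, hi0⟩ := ne0 (Pos T0) (by omega)
  obtain ⟨j0, hj0⟩ := ne0 (Neg T0) (by omega)
  obtain ⟨x1, x2, T2, hT2, a1, a2, a3, a4, hP2, hN2⟩ :=
    two hSTP hnp F hT0 hT0 hP0 hN0 ⟨i0, hi0, hi0⟩ ⟨j0, hj0, hj0⟩
  have n2P : x2 ∉ Pos T0 := fun hc => disj hc a3
  have n1N : x1 ∉ Neg T0 := fun hc => disj a1 hc
  have cP2 : (Pos T2).card = 3 := by
    rw [hP2, Finset.card_insert_of_notMem (fun hc => n2P (Finset.mem_of_mem_erase hc)),
      Finset.card_erase_of_mem a1, hP0]
  have cN2 : (Neg T2).card = 3 := by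
    rw [hN2, Finset.card_insert_of_notMem (fun hc => n1N (Finset.mem_of_mem_erase hc)),
      Finset.card_erase_of_mem a3, hN0]
  obtain ⟨i2, hi2⟩ := ne0 ((Pos T0).erase x1) (by rw [Finset.card_erase_of_mem a1]; omega)
  obtain ⟨j2, hj2⟩ := ne0 ((Neg T0).erase x2) (by rw [Finset.card_erase_of_mem a3]; omega)
  obtain ⟨x3, x4, T4, hT4, b1, b2, b3, b4, hP4, hN4⟩ :=
    two hSTP hnp F hT0 hT2 cP2 cN2
      ⟨i2, by rw [hP2]; exact Finset.mem_insert_of_mem hi2, Finset.mem_of_mem_erase hi2⟩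
      ⟨j2, by rw [hN2]; exact Finset.mem_insert_of_mem hj2, Finset.mem_of_mem_erase hj2⟩
  have n4P : x4 ∉ Pos T2 := fun hc => disj hc b3
  have n3N : x3 ∉ Neg T2 := fun hc => disj b1 hc
  have cP4 : (Pos T4).card = 3 := by
    rw [hP4, Finset.card_insert_of_notMem (fun hc => n4P (Finset.mem_of_mem_erase hc)),
      Finset.card_erase_of_mem b1, cP2]
  have cN4 : (Neg T4).card = 3 := by
    rw [hN4, Finset.card_insert_of_notMem (fun hc => n3N (Finset.mem_of_mem_erase hc)),
      Finset.card_erase_of_mem b3, cN2]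
  -- membership facts
  have m1N2 : x1 ∈ Neg T2 := by rw [hN2]; exact Finset.mem_insert_self _ _
  have m2P2 : x2 ∈ Pos T2 := by rw [hP2]; exact Finset.mem_insert_self _ _
  have n1P2 : x1 ∉ Pos T2 := fun hc => disj hc m1N2
  have n2N2 : x2 ∉ Neg T2 := fun hc => disj m2P2 hc
  have m3N4 : x3 ∈ Neg T4 := by rw [hN4]; exact Finset.mem_insert_self _ _
  have m4P4 : x4 ∈ Pos T4 := by rw [hP4]; exact Finset.mem_insert_self _ _
  have n3P4 : x3 ∉ Pos T4 := fun hc => disj hc m3N4
  have n4N4 : x4 ∉ Neg T4 := fun hc => disj m4P4 hc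
  have n1P4 : x1 ∉ Pos T4 := by
    rw [hP4, Finset.mem_insert]
    rintro (h1 | h1)
    · rw [h1] at a1
      exact disj a1 b4
    · exact n1P2 (Finset.mem_of_mem_erase h1)
  have n2N4 : x2 ∉ Neg T4 := by
    rw [hN4, Finset.mem_insert]
    rintro (h1 | h1)
    · rw [h1] at a3
      exact disj b2 a3
    · exact n2N2 (Finset.mem_of_mem_erase h1)
  -- at most one of two consecutive positive (negative) sides is a `D`-set
  have q1 : ¬ (Dset 3 U c1 e1 (Pos T0) ∧ Dset 3 U c1 e1 (Pos T2)) := by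
    rintro ⟨h1, h2⟩
    refine FOCM.no2 hDF2 h h1 h2 (fun he => n1P2 (he ▸ a1)) (S := (Pos T0).erase x1)
      (Finset.erase_subset _ _) ?_ ?_
    · rw [hP2]; exact Finset.subset_insert _ _
    · rw [Finset.card_erase_of_mem a1]; omega
  have q2 : ¬ (Dset 3 U c1 e1 (Neg T0) ∧ Dset 3 U c1 e1 (Neg T2)) := by
    rintro ⟨h1, h2⟩
    refine FOCM.no2 hDF2 h h1 h2 (fun he => n2N2 (he ▸ a3)) (S := (Neg T0).erase x2)
      (Finset.erase_subset _ _) ?_ ?_
    · rw [hN2]; exact Finset.subset_insert _ _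
    · rw [Finset.card_erase_of_mem a3]; omega
  have q3 : ¬ (Dset 3 U c1 e1 (Pos T2) ∧ Dset 3 U c1 e1 (Pos T4)) := by
    rintro ⟨h1, h2⟩
    refine FOCM.no2 hDF2 h h1 h2 (fun he => n3P4 (he ▸ b1)) (S := (Pos T2).erase x3)
      (Finset.erase_subset _ _) ?_ ?_
    · rw [hP4]; exact Finset.subset_insert _ _
    · rw [Finset.card_erase_of_mem b1]; omega
  have q4 : ¬ (Dset 3 U c1 e1 (Neg T2) ∧ Dset 3 U c1 e1 (Neg T4)) := by
    rintro ⟨h1, h2⟩
    refine FOCM.no2 hDF2 h h1 h2 (fun he => n4N4 (he ▸ b3)) (S := (Neg T2).erase x4)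
      (Finset.erase_subset _ _) ?_ ?_
    · rw [hN4]; exact Finset.subset_insert _ _
    · rw [Finset.card_erase_of_mem b3]; omega
  rcases D T0 hT0 hP0 hN0 with d0 | d0 <;> rcases D T2 hT2 cP2 cN2 with d2 | d2 <;>
    rcases D T4 hT4 cP4 cN4 with d4 | d4
  · exact q1 ⟨d0, d2⟩
  · exact q1 ⟨d0, d2⟩
  · exact hFOA ι U c1 c2 e1 e2 h _ _ _ d0 d2 d4 (fun he => n3N (he ▸ b2)) (fun he => n1P4 (he ▸ a1))
      (fun he => n1P4 (he ▸ m1N2))
  · exact q4 ⟨d2, d4⟩
  · exact q3 ⟨d2, d4⟩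
  · exact hFOA ι U c1 c2 e1 e2 h _ _ _ d0 d2 d4 (fun he => n4P (he ▸ b4)) (fun he => n2N4 (he ▸ a3))
      (fun he => n2N4 (he ▸ m2P2))
  · exact q2 ⟨d0, d2⟩
  · exact q2 ⟨d0, d2⟩

end MPa0e17f
end

section
set_option autoImplicit false

namespace MPa0e17f

open Finset Module

namespace FVAM

variable {ι : Type} [Fintype ι] [DecidableEq ι]

/-- two four element sets that share three elements are not both `D`-sets -/
lemma two {U : Submodule ℝ (ι → ℝ)} {c1 e1 : ι} (h2 : ∀ D1 D2 : Finset ι, Dset 4 U c1 e1 D1 →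
    Dset 4 U c1 e1 D2 → D1 ≠ D2 → (D1 ∩ D2).card + 2 ≤ 4) {A : Finset ι} {z w : ι}
    (hA : A.card = 3) (hz : z ∉ A) (hzw : z ≠ w)
    (hD1 : Dset 4 U c1 e1 (insert z A)) (hD2 : Dset 4 U c1 e1 (insert w A)) : False := by
  have hne : insert z A ≠ insert w A := by
    intro h
    have : z ∈ insert w A := by rw [← h]; exact Finset.mem_insert_self z A
    rcases Finset.mem_insert.1 this with h | h
    · exact hzw h
    · exact hz h
  have h := h2 _ _ hD1 hD2 hne
  have hsub : A ⊆ insert z A ∩ insert w A :=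
    Finset.subset_inter (Finset.subset_insert z A) (Finset.subset_insert w A)
  have := Finset.card_le_card hsub
  omega

end FVAM

open FVAM

theorem specFVA (hTPF : SpecTPF) (hDF1 : SpecDF1) (hDF2 : SpecDF2) (hWAL : SpecWAL) : SpecFVA := by
  intro ι _ _ U c1 c2 e1 e2 hT hG
  obtain ⟨v, hv, Z, hZ, hZc, hp, hn, hpn⟩ := hWAL ι 4 U c1 c2 e1 e2 hT le_rfl
  have hp3 : (Pos v).card = 3 := by omega
  have hn3 : (Neg v).card = 3 := by omega
  have hZ2 : Z.card = 2 := by omega
  obtain ⟨z, w, hzw, rfl⟩ := Finset.card_eq_two.1 hZ2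
  have h9 := (hTPF ι 4 U c1 c2 e1 e2 hT).2.2.2.2.2.2.2.2.1 v hv {z, w} hZ (by omega)
  have hz := (hZ z).1 (by simp)
  have hw := (hZ w).1 (by simp)
  have hzP : z ∉ Pos v := fun h => by rw [mem_Pos, hz.2] at h; exact lt_irrefl _ h
  have hzN : z ∉ Neg v := fun h => by rw [mem_Neg, hz.2] at h; exact lt_irrefl _ h
  have hwP : w ∉ Pos v := fun h => by rw [mem_Pos, hw.2] at h; exact lt_irrefl _ h
  have hwN : w ∉ Neg v := fun h => by rw [mem_Neg, hw.2] at h; exact lt_irrefl _ h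
  have h2 : ∀ D1 D2 : Finset ι, Dset 4 U c1 e1 D1 → Dset 4 U c1 e1 D2 → D1 ≠ D2 →
      (D1 ∩ D2).card + 2 ≤ 4 := fun D1 D2 a b c => (hDF2 ι 4 U c1 c2 e1 e2 hT D1 D2 a b c).1
  have hnz : ∀ i ∈ LL U c1 e1, i ≠ z → i ≠ w → v i ≠ 0 := by
    intro i hi h1 h2 h0
    have := (hZ i).2 ⟨hi, h0⟩
    rw [Finset.mem_insert, Finset.mem_singleton] at this
    rcases this with h | h
    · exact h1 h
    · exact h2 h
  -- the tope for `T = {z}`
  have hsd1 : ({z, w} : Finset ι) \ {z} = {w} := by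
    ext i
    simp only [Finset.mem_sdiff, Finset.mem_insert, Finset.mem_singleton]
    constructor
    · rintro ⟨h | h, h'⟩
      · exact absurd h h'
      · exact h
    · rintro rfl
      exact ⟨Or.inr rfl, hzw.symm⟩
  have hsd2 : ({z, w} : Finset ι) \ {w} = {z} := by
    ext i
    simp only [Finset.mem_sdiff, Finset.mem_insert, Finset.mem_singleton]
    constructor
    · rintro ⟨h | h, h'⟩
      · exact h
      · exact absurd h h'
    · rintro rfl
      exact ⟨Or.inl rfl, hzw⟩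
  have hD1 : Dset 4 U c1 e1 (insert z (Pos v)) ∨ Dset 4 U c1 e1 (insert w (Neg v)) := by
    obtain ⟨y, hy, hyP, hyN⟩ := h9 {z} (by simp)
    rw [hsd1] at hyN
    rw [Finset.union_comm, ← Finset.insert_eq] at hyP hyN
    have := hDF1 ι 4 U c1 c2 e1 e2 hT hG y hy
      (by rw [hyP, Finset.card_insert_of_notMem hzP]; omega)
      (by rw [hyN, Finset.card_insert_of_notMem hwN]; omega)
    rwa [hyP, hyN] at this
  have hD2 : Dset 4 U c1 e1 (insert w (Pos v)) ∨ Dset 4 U c1 e1 (insert z (Neg v)) := by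
    obtain ⟨y, hy, hyP, hyN⟩ := h9 {w} (by simp)
    rw [hsd2] at hyN
    rw [Finset.union_comm, ← Finset.insert_eq] at hyP hyN
    have := hDF1 ι 4 U c1 c2 e1 e2 hT hG y hy
      (by rw [hyP, Finset.card_insert_of_notMem hwP]; omega)
      (by rw [hyN, Finset.card_insert_of_notMem hzN]; omega)
    rwa [hyP, hyN] at this
  rcases hD1 with h1 | h1 <;> rcases hD2 with h3 | h3
  · exact (two h2 hp3 hzP hzw h1 h3).elim
  · exact ⟨v, z, w, ⟨hv, hz.1, hw.1, hzw, hz.2, hw.2, hnz, hp3, hn3, h1, h3⟩⟩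
  · exact ⟨v, w, z, ⟨hv, hw.1, hz.1, hzw.symm, hw.2, hz.2, fun i hi a b => hnz i hi b a,
      hp3, hn3, h3, h1⟩⟩
  · exact (two h2 hn3 hwN hzw.symm h1 h3).elim

end MPa0e17f
end

section
/-!
# Module FVC: both sides of the configuration for `k = 4`
-/
set_option autoImplicit false

namespace MPa0e17f

open Finset Module

namespace FVCM

variable {ι : Type} [Fintype ι] [DecidableEq ι]

theorem v4_neg {U : Submodule ℝ (ι → ℝ)} {c1 e1 : ι} {v : ι → ℝ} {z w : ι}
    (h : V4 U c1 e1 v z w) : V4 U c1 e1 (-v) z w where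
  mem := (UU U c1 e1).neg_mem h.mem
  zL := h.zL
  wL := h.wL
  zw := h.zw
  vz := by rw [Pi.neg_apply, h.vz, neg_zero]
  vw := by rw [Pi.neg_apply, h.vw, neg_zero]
  nz := fun i hi h1 h2 => by rw [Pi.neg_apply]; exact neg_ne_zero.2 (h.nz i hi h1 h2)
  pc := by rw [Pos_neg]; exact h.nc
  nc := by rw [Neg_neg]; exact h.pc
  dp := by rw [Pos_neg]; exact h.dn
  dn := by rw [Neg_neg]; exact h.dp

theorem exists_ne_zero {U : Submodule ℝ (ι → ℝ)} {S : Finset ι} (h : kap U S = 1) :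
    ∃ μ ∈ K U S, μ ≠ 0 := by
  by_contra hc
  push Not at hc
  have h1 : K U S = ⊥ := (Submodule.eq_bot_iff _).2 hc
  have h2 : kap U S = 0 := by rw [kap, h1, finrank_bot]
  omega

theorem one_le {U : Submodule ℝ (ι → ℝ)} {S : Finset ι} {μ : ι → ℝ} (h : μ ∈ K U S)
    (h0 : μ ≠ 0) : 1 ≤ kap U S := by
  rw [Nat.one_le_iff_ne_zero]
  intro hc
  have h1 : K U S = ⊥ := Submodule.finrank_eq_zero.1 hc
  rw [h1, Submodule.mem_bot] at h
  exact h0 h

/-- the two kernel elements of `D1 ∪ D3`, with `P`, `N` the two sides -/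
theorem inter {P : Finset ι} {z w g f : ι} (hzP : z ∉ P) (hwP : w ∉ P) (hgP : g ∉ P) (hzw : z ≠ w)
    (hzg : z ≠ g) (hf : f ∈ P) (hP : P.card = 3) :
    (insert z P ∩ insert w (insert g (P.erase f))).card + 2 = 4 := by
  have h1 : insert z P ∩ insert w (insert g (P.erase f)) = P.erase f := by
    ext i
    simp only [Finset.mem_inter, Finset.mem_insert, Finset.mem_erase]
    constructor
    · rintro ⟨h1 | h1, h2 | h2 | h2⟩
      · exact absurd (h1.symm.trans h2) hzw
      · exact absurd (h1.symm.trans h2) hzg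
      · exact absurd (h1 ▸ h2.2) hzP
      · exact absurd (h2 ▸ h1) hwP
      · exact absurd (h2 ▸ h1) hgP
      · exact h2
    · intro h
      exact ⟨Or.inr h.2, Or.inr (Or.inr h)⟩
  rw [h1, Finset.card_erase_of_mem hf, hP]

end FVCM

open FVCM in
theorem specFVC (hTPF : SpecTPF) (hDF2 : SpecDF2) (hFVB : SpecFVB) : SpecFVC := by
  intro ι _ _ U c1 c2 e1 e2 h hG v z w hv
  obtain ⟨-, t2, t3, -, -, t6, -, -, -, -, -, -⟩ := hTPF ι 4 U c1 c2 e1 e2 h
  obtain ⟨g, hg, f, hf, v1, hv1, a1, a2, a3, a4, a5⟩ := hFVB ι U c1 c2 e1 e2 h hG v z w hv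
  obtain ⟨f', hf', g', hg', v2, hv2, b1, b2, b3, b4, b5⟩ :=
    hFVB ι U c1 c2 e1 e2 h hG (-v) z w (v4_neg hv)
  rw [Neg_neg] at hf' b4
  rw [Pos_neg] at hg' b3 b5
  -- positions
  have inP : ∀ {i : ι}, i ∈ Pos v → i ∉ Neg v := fun hi hc =>
    absurd (mem_Pos.1 hi) (not_lt.2 (mem_Neg.1 hc).le)
  have inN : ∀ {i : ι}, i ∈ Neg v → i ∉ Pos v := fun hi hc => inP hc hi
  have hzP : z ∉ Pos v := fun hc => by have := mem_Pos.1 hc; rw [hv.vz] at this; exact lt_irrefl _ this
  have hzN : z ∉ Neg v := fun hc => by have := mem_Neg.1 hc; rw [hv.vz] at this; exact lt_irrefl _ this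
  have hwP : w ∉ Pos v := fun hc => by have := mem_Pos.1 hc; rw [hv.vw] at this; exact lt_irrefl _ this
  have hwN : w ∉ Neg v := fun hc => by have := mem_Neg.1 hc; rw [hv.vw] at this; exact lt_irrefl _ this
  have hzg : z ≠ g := fun hc => hzN (hc ▸ hg)
  have hzf' : z ≠ f' := fun hc => hzP (hc ▸ hf')
  have hwg : w ≠ g := fun hc => hwN (hc ▸ hg)
  have hwf' : w ≠ f' := fun hc => hwP (hc ▸ hf')
  have hgf' : g ≠ f' := fun hc => inN hg (hc ▸ hf')
  have hLP : ∀ {i : ι}, i ∈ Pos v → i ∈ LL U c1 e1 := fun hi =>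
    mem_act.2 ⟨v, hv.mem, (mem_Pos.1 hi).ne'⟩
  have hLN : ∀ {i : ι}, i ∈ Neg v → i ∈ LL U c1 e1 := fun hi =>
    mem_act.2 ⟨v, hv.mem, (mem_Neg.1 hi).ne⟩
  -- the first pair
  have hne1 : insert z (Pos v) ≠ insert w (insert g ((Pos v).erase f)) := by
    intro hc
    have : w ∈ insert z (Pos v) := by rw [hc]; exact Finset.mem_insert_self _ _
    rcases Finset.mem_insert.1 this with h1 | h1
    · exact hv.zw h1.symm
    · exact hwP h1
  obtain ⟨-, c2'⟩ := hDF2 ι 4 U c1 c2 e1 e2 h _ _ hv.dp a5 hne1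
  obtain ⟨-, k1, z1⟩ := c2' (inter hzP hwP (inN hg) hv.zw hzg hf hv.pc)
  have hne2 : insert z (Neg v) ≠ insert w (insert f' ((Neg v).erase g')) := by
    intro hc
    have : w ∈ insert z (Neg v) := by rw [hc]; exact Finset.mem_insert_self _ _
    rcases Finset.mem_insert.1 this with h1 | h1
    · exact hv.zw h1.symm
    · exact hwN h1
  obtain ⟨-, d2'⟩ := hDF2 ι 4 U c1 c2 e1 e2 h _ _ hv.dn b5 hne2
  obtain ⟨-, k2, z2⟩ := d2' (inter hzN hwN (inP hf') hv.zw hzf' hg' hv.nc)
  obtain ⟨μ1, hμ1, hμ10⟩ := exists_ne_zero k1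
  obtain ⟨μ2, hμ2, hμ20⟩ := exists_ne_zero k2
  -- the fifth `D`-set
  have hD5L : ({z, w, g, f'} : Finset ι) ⊆ LL U c1 e1 := by
    intro i hi
    simp only [Finset.mem_insert, Finset.mem_singleton] at hi
    rcases hi with rfl | rfl | rfl | rfl
    · exact hv.zL
    · exact hv.wL
    · exact hLN hg
    · exact hLP hf'
  have hD5c : ({z, w, g, f'} : Finset ι).card = 4 := by
    rw [Finset.card_insert_of_notMem, Finset.card_insert_of_notMem, Finset.card_insert_of_notMem,
      Finset.card_singleton]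
    · simp only [Finset.mem_singleton]; exact hgf'
    · simp only [Finset.mem_insert, Finset.mem_singleton]
      rintro (h1 | h1)
      · exact hwg h1
      · exact hwf' h1
    · simp only [Finset.mem_insert, Finset.mem_singleton]
      rintro (h1 | h1 | h1)
      · exact hv.zw h1
      · exact hzg h1
      · exact hzf' h1
  have hm1 : μ1 ∈ K U ({z, w, g, f'} : Finset ι) := by
    refine K_anti U ?_ hμ1
    intro i hi
    simp only [Finset.mem_insert, Finset.mem_singleton] at hi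
    rw [Finset.mem_union]
    rcases hi with rfl | rfl | rfl | rfl
    · exact Or.inl (Finset.mem_insert_self _ _)
    · exact Or.inr (Finset.mem_insert_self _ _)
    · exact Or.inr (Finset.mem_insert_of_mem (Finset.mem_insert_self _ _))
    · exact Or.inl (Finset.mem_insert_of_mem hf')
  have hm2 : μ2 ∈ K U ({z, w, g, f'} : Finset ι) := by
    refine K_anti U ?_ hμ2
    intro i hi
    simp only [Finset.mem_insert, Finset.mem_singleton] at hi
    rw [Finset.mem_union]
    rcases hi with rfl | rfl | rfl | rfl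
    · exact Or.inl (Finset.mem_insert_self _ _)
    · exact Or.inr (Finset.mem_insert_self _ _)
    · exact Or.inl (Finset.mem_insert_of_mem hg)
    · exact Or.inr (Finset.mem_insert_of_mem (Finset.mem_insert_self _ _))
  obtain ⟨a, haP, haf⟩ : ∃ a ∈ Pos v, a ≠ f' := by
    by_contra hc
    push Not at hc
    have h1 : Pos v ⊆ {f'} := fun i hi => Finset.mem_singleton.2 (hc i hi)
    have h2 := Finset.card_le_card h1
    rw [hv.pc, Finset.card_singleton] at h2
    omega
  have ha1 : μ1 a = 0 := hμ1.2 a (Finset.mem_union_left _ (Finset.mem_insert_of_mem haP))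
  have ha2 : μ2 a ≠ 0 := by
    refine z2 μ2 hμ2 hμ20 a ((t3 a).1 (hLP haP)).1 ?_
    simp only [Finset.mem_union, Finset.mem_insert, Finset.mem_erase]
    rintro ((h1 | h1) | (h1 | h1 | h1))
    · exact hzP (h1 ▸ haP)
    · exact inP haP h1
    · exact hwP (h1 ▸ haP)
    · exact haf h1
    · exact inP haP h1.2
  have hk5 : kap U ({z, w, g, f'} : Finset ι) = 2 := by
    have e1' := kap_insert_of_ne U ({z, w, g, f'} : Finset ι) a ⟨μ2, hm2, ha2⟩
    have e2' : 1 ≤ kap U (insert a ({z, w, g, f'} : Finset ι)) := by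
      refine one_le (μ := μ1) ?_ hμ10
      refine ⟨hm1.1, fun i hi => ?_⟩
      rcases Finset.mem_insert.1 hi with rfl | h1
      · exact ha1
      · exact hm1.2 i h1
    have e3' := (t6 ({z, w, g, f'} : Finset ι) hD5L (by omega)).2
    omega
  have hD5 : Dset 4 U c1 e1 ({z, w, g, f'} : Finset ι) := ⟨hD5L, hD5c, hk5⟩
  have hthree : ({w, g, f'} : Finset ι).card = 3 := by
    rw [Finset.card_insert_of_notMem, Finset.card_insert_of_notMem, Finset.card_singleton]
    · simp only [Finset.mem_singleton]; exact hgf'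
    · simp only [Finset.mem_insert, Finset.mem_singleton]
      rintro (h1 | h1)
      · exact hwg h1
      · exact hwf' h1
  have hsub5 : ({w, g, f'} : Finset ι) ⊆ {z, w, g, f'} := Finset.subset_insert _ _
  have hff : f' = f := by
    by_contra hne
    have hz3 : z ∉ insert w (insert g ((Pos v).erase f)) := by
      simp only [Finset.mem_insert, Finset.mem_erase]
      rintro (h1 | h1 | h1)
      · exact hv.zw h1
      · exact hzg h1
      · exact hzP h1.2
    have hne3 : insert w (insert g ((Pos v).erase f)) ≠ ({z, w, g, f'} : Finset ι) := by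
      intro hc
      apply hz3
      rw [hc]
      exact Finset.mem_insert_self _ _
    obtain ⟨e1', -⟩ := hDF2 ι 4 U c1 c2 e1 e2 h _ _ a5 hD5 hne3
    have e2' : ({w, g, f'} : Finset ι) ⊆
        insert w (insert g ((Pos v).erase f)) ∩ {z, w, g, f'} := by
      refine Finset.subset_inter ?_ hsub5
      intro i hi
      simp only [Finset.mem_insert, Finset.mem_singleton, Finset.mem_erase] at hi ⊢
      rcases hi with rfl | rfl | rfl
      · exact Or.inl rfl
      · exact Or.inr (Or.inl rfl)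
      · exact Or.inr (Or.inr ⟨hne, hf'⟩)
    have e3' := Finset.card_le_card e2'
    omega
  have hgg : g' = g := by
    by_contra hne
    have hz4 : z ∉ insert w (insert f' ((Neg v).erase g')) := by
      simp only [Finset.mem_insert, Finset.mem_erase]
      rintro (h1 | h1 | h1)
      · exact hv.zw h1
      · exact hzf' h1
      · exact hzN h1.2
    have hne4 : insert w (insert f' ((Neg v).erase g')) ≠ ({z, w, g, f'} : Finset ι) := by
      intro hc
      apply hz4
      rw [hc]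
      exact Finset.mem_insert_self _ _
    obtain ⟨e1', -⟩ := hDF2 ι 4 U c1 c2 e1 e2 h _ _ b5 hD5 hne4
    have e2' : ({w, g, f'} : Finset ι) ⊆
        insert w (insert f' ((Neg v).erase g')) ∩ {z, w, g, f'} := by
      refine Finset.subset_inter ?_ hsub5
      intro i hi
      simp only [Finset.mem_insert, Finset.mem_singleton, Finset.mem_erase] at hi ⊢
      rcases hi with rfl | rfl | rfl
      · exact Or.inl rfl
      · exact Or.inr (Or.inr ⟨fun hc => hne hc.symm, hg⟩)
      · exact Or.inr (Or.inl rfl)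
    have e3' := Finset.card_le_card e2'
    omega
  rw [hff] at b2 b4 b5 hD5
  rw [hgg] at b5
  exact ⟨g, hg, f, hf, v1, hv1, v2, hv2, a1, a2, a3, a4, b1, b2, b3, b4, a5, b5, hD5⟩

end MPa0e17f
end

section
/-!
# FVD: the case `k = 4` with two heavy classes
-/
set_option autoImplicit false

namespace MPa0e17f

open Finset Module

namespace FVDM

/-- two different `D`-sets have no `k - 1` common elements -/
lemma nocommon (hDF2 : SpecDF2) {ι : Type} [Fintype ι] [DecidableEq ι] {k : ℕ}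
    {U : Submodule ℝ (ι → ℝ)} {c1 c2 e1 e2 : ι} (h : TwoP k U c1 c2 e1 e2) {D D' s : Finset ι}
    (hD : Dset k U c1 e1 D) (hD' : Dset k U c1 e1 D') {p : ι} (hp : p ∈ D) (hp' : p ∉ D')
    (hs : s ⊆ D) (hs' : s ⊆ D') (hc : k ≤ s.card + 1) : False := by
  have h1 := (hDF2 ι k U c1 c2 e1 e2 h D D' hD hD' (by
    intro h0
    rw [h0] at hp
    exact hp' hp)).1
  have h2 := card_le_card (subset_inter hs hs')
  omega

/-- one step in a subspace without proportional coordinates -/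
lemma step (hSTP : SpecSTP) {ι : Type} [Fintype ι] [DecidableEq ι] {Y : Submodule ℝ (ι → ℝ)}
    (hY : ∀ i ∈ act Y, ∀ j ∈ act Y, i ≠ j → ¬ Prl Y i j) {y u : ι → ℝ} (hy : NZ Y y) (hu : u ∈ Y)
    (h : ∃ i, y i * u i < 0) :
    ∃ x, y x * u x < 0 ∧ (∃ y0 ∈ Y, Pos y0 = (Pos y).erase x ∧ Neg y0 = (Neg y).erase x) ∧
      (x ∈ Neg y → ∃ y1, NZ Y y1 ∧ Pos y1 = insert x (Pos y) ∧ Neg y1 = (Neg y).erase x) ∧
      (x ∈ Pos y → ∃ y1, NZ Y y1 ∧ Pos y1 = (Pos y).erase x ∧ Neg y1 = insert x (Neg y)) := by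
  obtain ⟨Z, hZ, hZa, hZ2, hZ3, -, ⟨y0, hy0, hP0, hN0⟩, y1, hy1, hP1, hN1⟩ :=
    hSTP ι Y y u hy hu h
  obtain ⟨x, hx⟩ := hZ
  have hZx : Z = {x} := by
    apply eq_singleton_iff_unique_mem.2
    refine ⟨hx, fun j hj => ?_⟩
    by_contra hne
    exact hY j (hZa hj) x (hZa hx) hne (hZ3 j hj x hx)
  rw [hZx] at hP0 hN0 hP1 hN1
  refine ⟨x, hZ2 x hx, ⟨y0, hy0, by rw [hP0, sdiff_singleton_eq_erase],
    by rw [hN0, sdiff_singleton_eq_erase]⟩, ?_, ?_⟩
  · intro hxN
    have hxP : x ∉ Pos y := fun h1 => by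
      have := mem_Pos.1 h1
      have := mem_Neg.1 hxN
      linarith
    refine ⟨y1, hy1, ?_, ?_⟩
    · rw [hP1, sdiff_singleton_eq_erase, erase_eq_of_notMem hxP,
        inter_singleton_of_mem hxN, union_comm, ← insert_eq]
    · rw [hN1, sdiff_singleton_eq_erase, inter_singleton_of_notMem hxP, union_empty]
  · intro hxP
    have hxN : x ∉ Neg y := fun h1 => by
      have := mem_Pos.1 hxP
      have := mem_Neg.1 h1
      linarith
    refine ⟨y1, hy1, ?_, ?_⟩
    · rw [hP1, sdiff_singleton_eq_erase, inter_singleton_of_notMem hxN, union_empty]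
    · rw [hN1, sdiff_singleton_eq_erase, erase_eq_of_notMem hxN,
        inter_singleton_of_mem hxP, union_comm, ← insert_eq]


/-- case 1 -/
lemma caseA (hDF1 : SpecDF1) (hDF2 : SpecDF2) {ι : Type} [Fintype ι] [DecidableEq ι]
    {U : Submodule ℝ (ι → ℝ)} {c1 c2 e1 e2 : ι} (h : TwoP 4 U c1 c2 e1 e2) (hG : ¬ Good 4 U)
    {A B : Finset ι} {z w f g x : ι} (hD2 : Dset 4 U c1 e1 (insert z B))
    (hD5 : Dset 4 U c1 e1 {z, w, g, f}) (hA : A.card = 3) (hB : B.card = 3)
    (hf : f ∈ A) (hg : g ∈ B) (hx : x ∈ A) (hxf : x ≠ f) (hzA : z ∉ A) (hwA : w ∉ A)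
    (hzB : z ∉ B) (hgA : g ∉ A) (hxB : x ∉ B) (hzw : z ≠ w) (hgw : g ≠ w) (hgz : g ≠ z)
    {y' : ι → ℝ} (hy' : NZ (UU U c1 e1) y')
    (mP : ∀ i, i ∈ Pos y' ↔ i ≠ x ∧ (i = w ∨ i = g ∨ i ∈ A))
    (mN : ∀ i, i ∈ Neg y' ↔ (i ≠ g ∧ i ∈ B) ∨ i = z ∨ i = x) : False := by
  have hxz : x ≠ z := fun h1 => hzA (h1 ▸ hx)
  have hxw : x ≠ w := fun h1 => hwA (h1 ▸ hx)
  have hxg : x ≠ g := fun h1 => hgA (h1 ▸ hx)
  have hfg : f ≠ g := fun h1 => hgA (h1 ▸ hf)
  have hfw : f ≠ w := fun h1 => hwA (h1 ▸ hf)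
  have ePos : Pos y' = insert w (insert g (A.erase x)) := by
    ext i
    rw [mP, mem_insert, mem_insert, mem_erase]
    constructor
    · rintro ⟨h1, h2 | h2 | h2⟩
      · exact Or.inl h2
      · exact Or.inr (Or.inl h2)
      · exact Or.inr (Or.inr ⟨h1, h2⟩)
    · rintro (h1 | h1 | h1)
      · exact ⟨h1 ▸ hxw.symm, Or.inl h1⟩
      · exact ⟨h1 ▸ hxg.symm, Or.inr (Or.inl h1)⟩
      · exact ⟨h1.1, Or.inr (Or.inr h1.2)⟩
  have eNeg : Neg y' = insert z (insert x (B.erase g)) := by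
    ext i
    rw [mN, mem_insert, mem_insert, mem_erase]
    constructor
    · rintro (h1 | h1 | h1)
      · exact Or.inr (Or.inr h1)
      · exact Or.inl h1
      · exact Or.inr (Or.inl h1)
    · rintro (h1 | h1 | h1)
      · exact Or.inr (Or.inl h1)
      · exact Or.inr (Or.inr h1)
      · exact Or.inl h1
  have cP : (Pos y').card = 4 := by
    rw [ePos, card_insert_of_notMem, card_insert_of_notMem, card_erase_of_mem hx, hA]
    · rw [mem_erase]
      exact fun h1 => hgA h1.2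
    · rw [mem_insert, mem_erase]
      rintro (h1 | h1)
      · exact hgw h1.symm
      · exact hwA h1.2
  have cN : (Neg y').card = 4 := by
    rw [eNeg, card_insert_of_notMem, card_insert_of_notMem, card_erase_of_mem hg, hB]
    · rw [mem_erase]
      exact fun h1 => hxB h1.2
    · rw [mem_insert, mem_erase]
      rintro (h1 | h1)
      · exact hxz h1.symm
      · exact hzB h1.2
  rcases hDF1 ι 4 U c1 c2 e1 e2 h hG y' hy' cP cN with hD | hD
  · refine nocommon hDF2 h hD5 hD (p := z) (s := {w, g, f}) ?_ ?_ ?_ ?_ ?_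
    · exact mem_insert_self _ _
    · rw [mP]
      rintro ⟨_, h1 | h1 | h1⟩
      · exact hzw h1
      · exact hgz h1.symm
      · exact hzA h1
    · exact subset_insert _ _
    · intro i hi
      simp only [mem_insert, mem_singleton] at hi
      rw [mP]
      rcases hi with rfl | rfl | rfl
      · exact ⟨hxw.symm, Or.inl rfl⟩
      · exact ⟨hxg.symm, Or.inr (Or.inl rfl)⟩
      · exact ⟨hxf.symm, Or.inr (Or.inr hf)⟩
    · rw [card_insert_of_notMem, card_pair hfg.symm]
      simp only [mem_insert, mem_singleton, not_or]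
      exact ⟨hgw.symm, hfw.symm⟩
  · refine nocommon hDF2 h hD hD2 (p := x) (s := insert z (B.erase g)) ?_ ?_ ?_ ?_ ?_
    · rw [mN]
      exact Or.inr (Or.inr rfl)
    · rw [mem_insert]
      rintro (h1 | h1)
      · exact hxz h1
      · exact hxB h1
    · intro i hi
      rw [mem_insert, mem_erase] at hi
      rw [mN]
      rcases hi with h1 | h1
      · exact Or.inr (Or.inl h1)
      · exact Or.inl h1
    · exact insert_subset_insert _ (erase_subset _ _)
    · rw [card_insert_of_notMem, card_erase_of_mem hg, hB]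
      rw [mem_erase]
      exact fun h1 => hzB h1.2

/-- case 2 -/
lemma caseB (hTPF : SpecTPF) (hDF2 : SpecDF2) {ι : Type} [Fintype ι] [DecidableEq ι]
    {U : Submodule ℝ (ι → ℝ)} {c1 c2 e1 e2 : ι} (h : TwoP 4 U c1 c2 e1 e2)
    {A B : Finset ι} {z w f g x a : ι} (hD1 : Dset 4 U c1 e1 (insert z A))
    (hD3 : Dset 4 U c1 e1 (insert w (insert g (A.erase f))))
    (hD4 : Dset 4 U c1 e1 (insert w (insert f (B.erase g))))
    (hD5 : Dset 4 U c1 e1 {z, w, g, f}) (hA : A.card = 3)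
    (hf : f ∈ A) (haA : a ∈ A) (haf : a ≠ f) (hxB : x ∈ B) (hxg : x ≠ g)
    (hzA : z ∉ A) (hwA : w ∉ A) (hzB : z ∉ B) (hwB : w ∉ B) (hgA : g ∉ A)
    (hAB : ∀ i ∈ A, i ∉ B) (hzw : z ≠ w) (hgw : g ≠ w) (hgz : g ≠ z)
    {P : Finset ι} (mP : ∀ i, i ∈ P ↔ i ≠ a ∧ (i = x ∨ i = w ∨ i = g ∨ i ∈ A))
    {p : ι} (hp : p ∈ P) (hDp : Dset 4 U c1 e1 (P.erase p)) : False := by
  have hxz : x ≠ z := fun h1 => hzB (h1 ▸ hxB)
  have hxw : x ≠ w := fun h1 => hwB (h1 ▸ hxB)
  have hxA : x ∉ A := fun h1 => hAB x h1 hxB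
  have hxf : x ≠ f := fun h1 => hxA (h1 ▸ hf)
  have haz : a ≠ z := fun h1 => hzA (h1 ▸ haA)
  have haw : a ≠ w := fun h1 => hwA (h1 ▸ haA)
  have hag : a ≠ g := fun h1 => hgA (h1 ▸ haA)
  have hax : a ≠ x := fun h1 => hxA (h1 ▸ haA)
  have hfg : f ≠ g := fun h1 => hgA (h1 ▸ hf)
  have hfw : f ≠ w := fun h1 => hwA (h1 ▸ hf)
  have hfz : f ≠ z := fun h1 => hzA (h1 ▸ hf)
  obtain ⟨t1, t2, t3, t4, t5, t6, t7, -, -, -, -, -⟩ := hTPF ι 4 U c1 c2 e1 e2 h
  -- the other element of `A`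
  obtain ⟨a', ha'⟩ : ((A.erase f).erase a).Nonempty := by
    rw [← card_pos, card_erase_of_mem (mem_erase.2 ⟨haf, haA⟩), card_erase_of_mem hf, hA]
    norm_num
  rw [mem_erase, mem_erase] at ha'
  obtain ⟨ha'a, ha'f, ha'A⟩ := ha'
  have ha'w : a' ≠ w := fun h1 => hwA (h1 ▸ ha'A)
  have ha'z : a' ≠ z := fun h1 => hzA (h1 ▸ ha'A)
  have ha'g : a' ≠ g := fun h1 => hgA (h1 ▸ ha'A)
  have ha'x : a' ≠ x := fun h1 => hxA (h1 ▸ ha'A)
  have eA : A = {f, a, a'} := by
    have h3 : ({f, a, a'} : Finset ι) ⊆ A := by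
      intro i hi
      simp only [mem_insert, mem_singleton] at hi
      rcases hi with rfl | rfl | rfl <;> assumption
    have h4 : ({f, a, a'} : Finset ι).card = 3 := by
      rw [card_insert_of_notMem, card_pair ha'a.symm]
      simp only [mem_insert, mem_singleton, not_or]
      exact ⟨haf.symm, ha'f.symm⟩
    exact (eq_of_subset_of_card_le h3 (by rw [h4, hA])).symm
  have hAe : ∀ i ∈ A, i = f ∨ i = a ∨ i = a' := by
    intro i hi
    rw [eA] at hi
    simpa only [mem_insert, mem_singleton] using hi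
  have mp : ∀ i, i ∈ P.erase p ↔ i ≠ p ∧ i ≠ a ∧ (i = x ∨ i = w ∨ i = g ∨ i ∈ A) := by
    intro i
    rw [mem_erase, mP]
  have oA : ∀ i ∈ A, i = x ∨ i = w ∨ i = g ∨ i ∈ A := fun i hi => Or.inr (Or.inr (Or.inr hi))
  have ox : x = x ∨ x = w ∨ x = g ∨ x ∈ A := Or.inl rfl
  have ow : w = x ∨ w = w ∨ w = g ∨ w ∈ A := Or.inr (Or.inl rfl)
  have og : g = x ∨ g = w ∨ g = g ∨ g ∈ A := Or.inr (Or.inr (Or.inl rfl))
  have c3 : 4 ≤ ({w, g, f} : Finset ι).card + 1 := by
    rw [card_insert_of_notMem, card_pair hfg.symm]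
    simp only [mem_insert, mem_singleton, not_or]
    exact ⟨hgw.symm, hfw.symm⟩
  have hpw : p = w := by
    rcases ((mP p).1 hp).2 with h1 | h1 | h1 | h1
    · -- `p = x`
      exfalso
      refine nocommon hDF2 h hD5 hDp (p := z) (s := {w, g, f}) ?_ ?_ ?_ ?_ c3
      · exact mem_insert_self _ _
      · rw [mp]
        rintro ⟨_, _, h2 | h2 | h2 | h2⟩
        · exact hxz h2.symm
        · exact hzw h2
        · exact hgz h2.symm
        · exact hzA h2
      · exact subset_insert _ _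
      · intro i hi
        simp only [mem_insert, mem_singleton] at hi
        rw [mp, h1]
        rcases hi with rfl | rfl | rfl
        · exact ⟨hxw.symm, haw.symm, ow⟩
        · exact ⟨hxg.symm, hag.symm, og⟩
        · exact ⟨hxf.symm, haf.symm, oA _ hf⟩
    · exact h1
    · -- `p = g`
      exfalso
      refine nocommon hDF2 h hDp hD4 (p := a') (s := {w, f, x}) ?_ ?_ ?_ ?_ ?_
      · rw [mp, h1]
        exact ⟨ha'g, ha'a, oA _ ha'A⟩
      · simp only [mem_insert, mem_erase, not_or]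
        exact ⟨ha'w, ha'f, fun h2 => hAB a' ha'A h2.2⟩
      · intro i hi
        simp only [mem_insert, mem_singleton] at hi
        rw [mp, h1]
        rcases hi with rfl | rfl | rfl
        · exact ⟨hgw.symm, haw.symm, ow⟩
        · exact ⟨hfg, haf.symm, oA _ hf⟩
        · exact ⟨hxg, hax.symm, ox⟩
      · intro i hi
        simp only [mem_insert, mem_singleton, mem_erase] at hi ⊢
        rcases hi with rfl | rfl | rfl
        · exact Or.inl rfl
        · exact Or.inr (Or.inl rfl)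
        · exact Or.inr (Or.inr ⟨hxg, hxB⟩)
      · rw [card_insert_of_notMem, card_pair hxf.symm]
        simp only [mem_insert, mem_singleton, not_or]
        exact ⟨hfw.symm, hxw.symm⟩
    · rcases hAe p h1 with h2 | h2 | h2
      · -- `p = f`
        exfalso
        refine nocommon hDF2 h hDp hD3 (p := x) (s := {w, g, a'}) ?_ ?_ ?_ ?_ ?_
        · rw [mp, h2]
          exact ⟨hxf, hax.symm, ox⟩
        · simp only [mem_insert, mem_erase, not_or]
          exact ⟨hxw, hxg, fun h3 => hxA h3.2⟩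
        · intro i hi
          simp only [mem_insert, mem_singleton] at hi
          rw [mp, h2]
          rcases hi with rfl | rfl | rfl
          · exact ⟨hfw.symm, haw.symm, ow⟩
          · exact ⟨hfg.symm, hag.symm, og⟩
          · exact ⟨ha'f, ha'a, oA _ ha'A⟩
        · intro i hi
          simp only [mem_insert, mem_singleton, mem_erase] at hi ⊢
          rcases hi with rfl | rfl | rfl
          · exact Or.inl rfl
          · exact Or.inr (Or.inl rfl)
          · exact Or.inr (Or.inr ⟨ha'f, ha'A⟩)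
        · rw [card_insert_of_notMem, card_pair ha'g.symm]
          simp only [mem_insert, mem_singleton, not_or]
          exact ⟨hgw.symm, ha'w.symm⟩
      · exact absurd h2 ((mP p).1 hp).1
      · -- `p = a'`
        exfalso
        refine nocommon hDF2 h hDp hD5 (p := x) (s := {w, g, f}) ?_ ?_ ?_ ?_ c3
        · rw [mp, h2]
          exact ⟨ha'x.symm, hax.symm, ox⟩
        · simp only [mem_insert, mem_singleton, not_or]
          exact ⟨hxz, hxw, hxg, hxf⟩
        · intro i hi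
          simp only [mem_insert, mem_singleton] at hi
          rw [mp, h2]
          rcases hi with rfl | rfl | rfl
          · exact ⟨ha'w.symm, haw.symm, ow⟩
          · exact ⟨ha'g.symm, hag.symm, og⟩
          · exact ⟨ha'f.symm, haf.symm, oA _ hf⟩
        · exact subset_insert _ _
  -- `D6 = {f, a', g, x}`
  have e6 : P.erase p = {f, a', g, x} := by
    ext i
    rw [mp, hpw]
    simp only [mem_insert, mem_singleton]
    constructor
    · rintro ⟨h1, h2, h3 | h3 | h3 | h3⟩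
      · exact Or.inr (Or.inr (Or.inr h3))
      · exact absurd h3 h1
      · exact Or.inr (Or.inr (Or.inl h3))
      · rcases hAe i h3 with h4 | h4 | h4
        · exact Or.inl h4
        · exact absurd h4 h2
        · exact Or.inr (Or.inl h4)
    · rintro (rfl | rfl | rfl | rfl)
      · exact ⟨hfw, haf.symm, oA _ hf⟩
      · exact ⟨ha'w, ha'a, oA _ ha'A⟩
      · exact ⟨hgw, hag.symm, og⟩
      · exact ⟨hxw, hax.symm, ox⟩
  rw [e6] at hDp
  have d16 := hDF2 ι 4 U c1 c2 e1 e2 h _ _ hD1 hDp (by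
    intro h0
    have h1 : z ∈ ({f, a', g, x} : Finset ι) := by
      rw [← h0]
      exact mem_insert_self _ _
    simp only [mem_insert, mem_singleton] at h1
    rcases h1 with h1 | h1 | h1 | h1
    · exact hfz h1.symm
    · exact ha'z h1.symm
    · exact hgz h1.symm
    · exact hxz h1.symm)
  have d13 := hDF2 ι 4 U c1 c2 e1 e2 h _ _ hD1 hD3 (by
    intro h0
    have h1 : z ∈ insert w (insert g (A.erase f)) := by
      rw [← h0]
      exact mem_insert_self _ _
    simp only [mem_insert, mem_erase] at h1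
    rcases h1 with h1 | h1 | h1
    · exact hzw h1
    · exact hgz h1.symm
    · exact hzA h1.2)
  have i16 : (insert z A ∩ {f, a', g, x}).card + 2 = 4 := by
    have h1 : ({f, a'} : Finset ι) ⊆ insert z A ∩ {f, a', g, x} := by
      intro i hi
      simp only [mem_insert, mem_singleton, mem_inter] at hi ⊢
      rcases hi with rfl | rfl
      · exact ⟨Or.inr hf, Or.inl rfl⟩
      · exact ⟨Or.inr ha'A, Or.inr (Or.inl rfl)⟩
    have h2 := card_le_card h1
    rw [card_pair ha'f.symm] at h2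
    have h3 := d16.1
    omega
  have i13 : (insert z A ∩ insert w (insert g (A.erase f))).card + 2 = 4 := by
    have h1 : ({a, a'} : Finset ι) ⊆ insert z A ∩ insert w (insert g (A.erase f)) := by
      intro i hi
      simp only [mem_insert, mem_singleton, mem_inter, mem_erase] at hi ⊢
      rcases hi with rfl | rfl
      · exact ⟨Or.inr haA, Or.inr (Or.inr ⟨haf, haA⟩)⟩
      · exact ⟨Or.inr ha'A, Or.inr (Or.inr ⟨ha'f, ha'A⟩)⟩
    have h2 := card_le_card h1
    rw [card_pair ha'a.symm] at h2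
    have h3 := d13.1
    omega
  obtain ⟨-, k16, nz16⟩ := d16.2 i16
  obtain ⟨-, k13, -⟩ := d13.2 i13
  obtain ⟨μ6, hμ6, hμ60⟩ : ∃ μ ∈ K U (insert z A ∪ {f, a', g, x}), μ ≠ 0 := by
    apply Submodule.exists_mem_ne_zero_of_ne_bot
    intro h0
    rw [kap, h0, finrank_bot] at k16
    omega
  have hwL := (t3 w).1 (hD5.1 (by
    simp only [mem_insert, mem_singleton]
    exact Or.inr (Or.inl trivial)))
  have h6w : μ6 w ≠ 0 := by
    refine nz16 μ6 hμ6 hμ60 w hwL.1 ?_
    simp only [mem_union, mem_insert, mem_singleton, not_or]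
    exact ⟨⟨hzw.symm, hwA⟩, hfw.symm, ha'w.symm, hgw.symm, hxw.symm⟩
  have hk := kap_insert_of_ne U (insert g (insert z A)) w ⟨μ6, by
    refine K_anti U ?_ hμ6
    intro i hi
    simp only [mem_union, mem_insert, mem_singleton] at hi ⊢
    rcases hi with h1 | h1 | h1
    · exact Or.inr (Or.inr (Or.inr (Or.inl h1)))
    · exact Or.inl (Or.inl h1)
    · exact Or.inl (Or.inr h1), h6w⟩
  have hk2 : kap U (insert z A ∪ insert w (insert g (A.erase f))) ≤
      kap U (insert w (insert g (insert z A))) := by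
    apply kap_anti
    intro i hi
    simp only [mem_union, mem_insert] at hi ⊢
    rcases hi with h1 | h1 | h1 | h1
    · exact Or.inr (Or.inl h1)
    · exact Or.inr (Or.inr (Or.inl h1))
    · exact Or.inl (Or.inl h1)
    · exact Or.inl (Or.inr h1)
  have hk3 := t7 (insert g (insert z A)) (by
    intro i hi
    rw [mem_insert] at hi
    rcases hi with h1 | h1
    · refine hD5.1 ?_
      simp only [mem_insert, mem_singleton]
      exact Or.inr (Or.inr (Or.inl h1))
    · exact hD1.1 h1) (by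
    rw [card_insert_of_notMem, card_insert_of_notMem hzA, hA]
    simp only [mem_insert, not_or]
    exact ⟨hgz, hgA⟩)
  omega

end FVDM

open FVDM

theorem specFVD (hSTP : SpecSTP) (hUNI : SpecUNI) (hTLK : SpecTLK) (hTPF : SpecTPF)
    (hDF1 : SpecDF1) (hDF2 : SpecDF2) (hDF3 : SpecDF3) (hFVA : SpecFVA) (hFVC : SpecFVC) :
    SpecFVD := by
  intro ι _ _ U c1 c2 e1 e2 h
  by_contra hG
  obtain ⟨v, z, w, hV⟩ := hFVA ι U c1 c2 e1 e2 h hG
  obtain ⟨g, hg, f, hf, v1, hv1, v2, hv2, v1z, v1g, P1, N1, v2z, v2f, P2, N2, hD3, hD4, hD5⟩ :=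
    hFVC ι U c1 c2 e1 e2 h hG v z w hV
  obtain ⟨t1, t2, -, -, -, -, -, -, t9, -, -, -⟩ := hTPF ι 4 U c1 c2 e1 e2 h
  have hD1 := hV.dp
  have hD2 := hV.dn
  -- basic membership
  have hAP : ∀ i ∈ Pos v, 0 < v i := fun i hi => mem_Pos.1 hi
  have hBN : ∀ i ∈ Neg v, v i < 0 := fun i hi => mem_Neg.1 hi
  have hAB : ∀ i ∈ Pos v, i ∉ Neg v := fun i hi hj => by
    have := hAP i hi
    have := hBN i hj
    linarith
  have hzA : z ∉ Pos v := fun h1 => by have := hAP z h1; rw [hV.vz] at this; exact lt_irrefl _ this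
  have hwA : w ∉ Pos v := fun h1 => by have := hAP w h1; rw [hV.vw] at this; exact lt_irrefl _ this
  have hzB : z ∉ Neg v := fun h1 => by have := hBN z h1; rw [hV.vz] at this; exact lt_irrefl _ this
  have hwB : w ∉ Neg v := fun h1 => by have := hBN w h1; rw [hV.vw] at this; exact lt_irrefl _ this
  have hgA : g ∉ Pos v := fun h1 => hAB g h1 hg
  have hfB : f ∉ Neg v := hAB f hf
  have hAL : Pos v ⊆ LL U c1 e1 := fun i hi => mem_act.2 ⟨v, hV.mem, (hAP i hi).ne'⟩
  have hcov : ∀ i ∈ LL U c1 e1, i ∈ Pos v ∨ i ∈ Neg v ∨ i = z ∨ i = w := by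
    intro i hi
    by_cases h1 : i = z
    · exact Or.inr (Or.inr (Or.inl h1))
    by_cases h2 : i = w
    · exact Or.inr (Or.inr (Or.inr h2))
    rcases lt_or_gt_of_ne (hV.nz i hi h1 h2) with h3 | h3
    · exact Or.inr (Or.inl (mem_Neg.2 h3))
    · exact Or.inl (mem_Pos.2 h3)
  have hgz : g ≠ z := fun h1 => hzB (h1 ▸ hg)
  have hgw : g ≠ w := fun h1 => hwB (h1 ▸ hg)
  have hzw := hV.zw
  -- the plane `Y`
  have hdU : finrank ℝ (UU U c1 e1) = 3 := by omega
  have hHSU : HS 4 (UU U c1 e1) := fun μ hμ h0 => h.bas.hs μ (K_le U _ hμ) h0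
  obtain ⟨-, -, -, un4, -⟩ := hUNI ι 4 (UU U c1 e1) hHSU (by omega) (by
    rw [hdU]
    exact t2)
  have hsimpU := un4 (by omega)
  obtain ⟨Y, hYdef⟩ : ∃ Y, Y = K (UU U c1 e1) {z} := ⟨_, rfl⟩
  have hdY : finrank ℝ Y = 2 := by
    have := kap_singleton_of_ne (UU U c1 e1) z (mem_act.1 hV.zL)
    rw [kap, hdU] at this
    rw [hYdef]
    omega
  have hactY : ∀ i, i ∈ act Y ↔ i ∈ LL U c1 e1 ∧ i ≠ z := by
    intro i
    have h1 := (hTLK ι (UU U c1 e1)).2.1 i z hV.zL
    rw [hYdef, h1]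
    constructor
    · rintro ⟨h2, h3⟩
      refine ⟨h2, ?_⟩
      rintro rfl
      exact h3 ⟨1, fun μ _ => by rw [one_mul]⟩
    · rintro ⟨h2, h3⟩
      exact ⟨h2, hsimpU i h2 z hV.zL h3⟩
  have hactYe : act Y = (LL U c1 e1).erase z := by
    ext i
    rw [hactY, mem_erase]
    exact and_comm
  have hHSY : HS 4 Y := by
    intro μ hμ h0
    rw [hYdef] at hμ
    exact hHSU μ (K_le _ _ hμ) h0
  obtain ⟨-, -, -, yn4, -⟩ := hUNI ι 4 Y hHSY (by omega) (by
    rw [hdY, hactYe, card_erase_of_mem hV.zL, t2])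
  have hsimpY := yn4 (by omega)
  have memY : ∀ μ ∈ UU U c1 e1, μ z = 0 → μ ∈ Y := by
    intro μ hμ hz
    rw [hYdef, mem_K]
    refine ⟨hμ, fun i hi => ?_⟩
    rw [mem_singleton] at hi
    rw [hi, hz]
  have Yz : ∀ μ ∈ Y, μ z = 0 := by
    intro μ hμ
    rw [hYdef] at hμ
    exact hμ.2 z (mem_singleton_self z)
  have YU : ∀ μ ∈ Y, μ ∈ UU U c1 e1 := by
    intro μ hμ
    rw [hYdef] at hμ
    exact hμ.1
  have hv1Y := memY v1 hv1 v1z
  have hv2Y := memY v2 hv2 v2z
  -- signs of `v1`, `v2`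
  have s1p : ∀ i, 0 < v1 i ↔ i = w ∨ i ∈ Pos v := by
    intro i
    rw [← mem_Pos, P1, mem_insert]
  have s1n : ∀ i, v1 i < 0 ↔ i ≠ g ∧ i ∈ Neg v := by
    intro i
    rw [← mem_Neg, N1, mem_erase]
  have s2p : ∀ i, 0 < v2 i ↔ i = w ∨ i ∈ Neg v := by
    intro i
    rw [← mem_Pos, P2, mem_insert]
  have s2n : ∀ i, v2 i < 0 ↔ i ≠ f ∧ i ∈ Pos v := by
    intro i
    rw [← mem_Neg, N2, mem_erase]
  -- the tope `y`
  obtain ⟨-, -, -, -, k5, -, -, k8, -, -⟩ := hTLK ι Y
  obtain ⟨y, hy, hyP, hyN⟩ := k8 v1 hv1Y v2 hv2Y (by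
    intro i hi h0
    have h1 := (hactY i).1 hi
    rcases hcov i h1.1 with h2 | h2 | h2 | h2
    · exact absurd h0 ((s1p i).2 (Or.inr h2)).ne'
    · exact ((s2p i).2 (Or.inr h2)).ne'
    · exact absurd h2 h1.2
    · exact absurd h0 ((s1p i).2 (Or.inl h2)).ne')
  have yP : ∀ i, i ∈ Pos y ↔ i = w ∨ i = g ∨ i ∈ Pos v := by
    intro i
    rw [hyP, s1p]
    constructor
    · rintro ((h1 | h1) | ⟨h1, h2⟩)
      · exact Or.inl h1
      · exact Or.inr (Or.inr h1)
      · rcases (s2p i).1 h2 with h3 | h3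
        · exact Or.inl h3
        · by_cases h4 : i = g
          · exact Or.inr (Or.inl h4)
          · exact absurd h1 ((s1n i).2 ⟨h4, h3⟩).ne
    · rintro (h1 | h1 | h1)
      · exact Or.inl (Or.inl h1)
      · right
        rw [h1]
        exact ⟨v1g, (s2p g).2 (Or.inr hg)⟩
      · exact Or.inl (Or.inr h1)
  have yN : ∀ i, i ∈ Neg y ↔ i ≠ g ∧ i ∈ Neg v := by
    intro i
    rw [hyN, s1n]
    constructor
    · rintro (h1 | ⟨h1, h2⟩)
      · exact h1
      · exact absurd h1 ((s1p i).2 (Or.inr ((s2n i).1 h2).2)).ne'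
    · intro h1
      exact Or.inl h1
  have hB2 : ((Neg v).erase g).card = 2 := by
    rw [card_erase_of_mem hg, hV.nc]
  obtain ⟨a0, ha0⟩ : ((Pos v).erase f).Nonempty := by
    rw [← card_pos, card_erase_of_mem hf, hV.pc]
    norm_num
  rw [mem_erase] at ha0
  -- zeros of a wall point
  have zeros : ∀ (y0 : ι → ℝ) (a : ι), Pos y0 ∪ Neg y0 = ((LL U c1 e1).erase z).erase a →
      ∀ i ∈ LL U c1 e1, i ≠ z → (y0 i = 0 ↔ i = a) := by
    intro y0 a hPN i hi hiz
    constructor
    · intro h0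
      by_contra hia
      have h1 : i ∈ Pos y0 ∪ Neg y0 := by
        rw [hPN, mem_erase, mem_erase]
        exact ⟨hia, hiz, hi⟩
      rw [mem_union, mem_Pos, mem_Neg, h0] at h1
      rcases h1 with h1 | h1 <;> exact lt_irrefl _ h1
    · intro hia
      by_contra h0
      have h1 : i ∈ Pos y0 ∪ Neg y0 := by
        rw [mem_union, mem_Pos, mem_Neg]
        rcases lt_or_gt_of_ne h0 with h1 | h1
        · exact Or.inr h1
        · exact Or.inl h1
      rw [hPN, mem_erase] at h1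
      exact h1.1 hia
  have cover : ∀ y', NZ Y y' → Pos y' ∪ Neg y' = (LL U c1 e1).erase z := by
    intro y' hy'
    rw [← hactYe]
    exact (k5 y' hy').2.1
  -- the wall point and TPF (9)
  have lift9 : ∀ y0 ∈ Y, ∀ a, a ∈ Pos v → Pos y0 ∪ Neg y0 = ((LL U c1 e1).erase z).erase a →
      ∃ y', NZ (UU U c1 e1) y' ∧ Pos y' = Pos y0 ∧ Neg y' = Neg y0 ∪ {z, a} := by
    intro y0 hy0 a ha hz0'
    have hz0 := zeros y0 a hz0'
    have hza : z ≠ a := fun h1 => hzA (h1 ▸ ha)
    obtain ⟨y', h1, h2, h3⟩ := t9 y0 (YU y0 hy0) {z, a} (by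
      intro i
      rw [mem_insert, mem_singleton]
      constructor
      · rintro (h1 | h1)
        · rw [h1]
          exact ⟨hV.zL, Yz y0 hy0⟩
        · rw [h1]
          exact ⟨hAL ha, (hz0 a (hAL ha) hza.symm).2 rfl⟩
      · rintro ⟨h1, h2⟩
        by_cases h3 : i = z
        · exact Or.inl h3
        · exact Or.inr ((hz0 i h1 h3).1 h2)) (by
      rw [card_pair hza]
      norm_num) ∅ (empty_subset _)
    refine ⟨y', h1, ?_, ?_⟩
    · rw [h2, union_empty]
    · rw [h3, sdiff_empty]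
  obtain ⟨x, hx, ⟨q0, hq0, hP0, hN0⟩, hxN, -⟩ := step hSTP hsimpY hy hv2Y ⟨a0,
    mul_neg_of_pos_of_neg (mem_Pos.1 ((yP a0).2 (Or.inr (Or.inr ha0.2))))
      ((s2n a0).2 ha0)⟩
  have hxc : (x ≠ f ∧ x ∈ Pos v) ∨ (x ≠ g ∧ x ∈ Neg v) := by
    rcases mul_neg_iff.1 hx with ⟨_, h2⟩ | ⟨h2, _⟩
    · exact Or.inl ((s2n x).1 h2)
    · exact Or.inr ((yN x).1 (mem_Neg.2 h2))
  rcases hxc with ⟨hxf, hxA⟩ | ⟨hxg, hxB⟩
  · -- case 1
    obtain ⟨y', hy', hP', hN'⟩ := lift9 q0 hq0 x hxA (by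
      rw [hP0, hN0, ← erase_union_distrib, cover y hy])
    refine caseA hDF1 hDF2 h hG hD2 hD5 hV.pc hV.nc hf hg hxA hxf hzA hwA hzB hgA (hAB x hxA)
      hzw hgw hgz hy' ?_ ?_
    · intro i
      rw [hP', hP0, mem_erase, yP]
    · intro i
      rw [hN', hN0, mem_union, mem_erase, yN, mem_insert, mem_singleton]
      constructor
      · rintro (⟨_, h2⟩ | h2)
        · exact Or.inl h2
        · exact Or.inr h2
      · rintro (h2 | h2)
        · refine Or.inl ⟨?_, h2⟩
          rintro rfl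
          exact hAB _ hxA h2.2
        · exact Or.inr h2
  · -- case 2
    obtain ⟨y1, hy1, hP1', hN1'⟩ := hxN ((yN x).2 ⟨hxg, hxB⟩)
    have y1P : ∀ i, i ∈ Pos y1 ↔ i = x ∨ i = w ∨ i = g ∨ i ∈ Pos v := by
      intro i
      rw [hP1', mem_insert, yP]
    have y1N : ∀ i, i ∈ Neg y1 ↔ i ≠ x ∧ i ≠ g ∧ i ∈ Neg v := by
      intro i
      rw [hN1', mem_erase, yN]
    obtain ⟨a, ha, ⟨q1, hq1, hP2, hN2⟩, -, -⟩ := step hSTP hsimpY hy1 hv2Y ⟨a0,
      mul_neg_of_pos_of_neg (mem_Pos.1 ((y1P a0).2 (Or.inr (Or.inr (Or.inr ha0.2)))))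
        ((s2n a0).2 ha0)⟩
    have hac : (a ≠ f ∧ a ∈ Pos v) ∨ (a ≠ x ∧ a ≠ g ∧ a ∈ Neg v) := by
      rcases mul_neg_iff.1 ha with ⟨_, h2⟩ | ⟨h2, _⟩
      · exact Or.inl ((s2n a).1 h2)
      · exact Or.inr ((y1N a).1 (mem_Neg.2 h2))
    have cN1 : (Neg y1).card = 1 := by
      rw [hN1', card_erase_of_mem ((yN x).2 ⟨hxg, hxB⟩)]
      have : Neg y = (Neg v).erase g := by
        ext i
        rw [yN, mem_erase]
      rw [this, hB2]
    rcases hac with ⟨haf, haA⟩ | hac
    · -- `a ∈ A`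
      have haz : a ≠ z := fun h1 => hzA (h1 ▸ haA)
      obtain ⟨y', hy', hP', hN'⟩ := lift9 q1 hq1 a haA (by
        rw [hP2, hN2, ← erase_union_distrib, cover y1 hy1])
      have eN : Neg y' = Neg y1 ∪ {z, a} := by
        rw [hN', hN2, erase_eq_of_notMem]
        rw [y1N]
        exact fun h1 => hAB a haA h1.2.2
      have cN : (Neg y').card + 1 = 4 := by
        rw [eN, card_union_of_disjoint, cN1, card_pair haz.symm]
        rw [disjoint_right]
        intro i hi
        rw [mem_insert, mem_singleton] at hi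
        rw [y1N]
        rcases hi with rfl | rfl
        · exact fun h1 => hzB h1.2.2
        · exact fun h1 => hAB _ haA h1.2.2
      obtain ⟨p, hp, hDp⟩ := hDF3 ι 4 U c1 c2 e1 e2 h hG y' hy' cN
      refine caseB hTPF hDF2 h hD1 hD3 hD4 hD5 hV.pc hf haA haf hxB hxg hzA hwA hzB hwB hgA hAB
        hzw hgw hgz (P := Pos y') ?_ hp hDp
      intro i
      rw [hP', hP2, mem_erase, y1P]
    · -- `a = b'`: contradiction to `HC`
      have hN0 : Neg q1 = ∅ := by
        rw [hN2]
        have h1 : a ∈ Neg y1 := (y1N a).2 hac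
        rw [← card_eq_zero, card_erase_of_mem h1, cN1]
      have hq1U : q1 ∈ U := K_le U _ (YU q1 hq1)
      have hq10 : q1 ≠ 0 := by
        intro h0
        have h1 : f ∈ Pos q1 := by
          rw [hP2, mem_erase, y1P]
          refine ⟨?_, Or.inr (Or.inr (Or.inr hf))⟩
          intro h1
          exact hfB (h1 ▸ hac.2.2)
        rw [mem_Pos, h0] at h1
        exact lt_irrefl _ h1
      obtain ⟨i, hi⟩ := h.bas.hc q1 hq1U hq10
      have : i ∈ Neg q1 := mem_Neg.2 hi
      rw [hN0] at this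
      exact absurd this (notMem_empty i)

end MPa0e17f
end

section
/-!
# LST: a light step
-/
set_option autoImplicit false

namespace MPa0e17f

open Finset Module

theorem specLST (hSTP : SpecSTP) (hTLK : SpecTLK) (hTPF : SpecTPF) : SpecLST := by
  intro ι _ _ k U c1 c2 e1 e2 h y hy hc1 he1 s hs hsc hse hneg hex
  obtain ⟨i0, hi0, hi0'⟩ := hex
  obtain ⟨-, -, -, -, -, -, -, -, -, t10⟩ := hTLK ι U
  obtain ⟨-, -, f3, f4, -⟩ := hTPF ι k U c1 c2 e1 e2 h
  obtain ⟨Z, ⟨x, hxZ⟩, hZa, hZs, hZp, -, -, y1, hy1, hP1, hN1⟩ := hSTP ι U y s hy hs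
    ⟨i0, mul_neg_of_pos_of_neg hi0 hi0'⟩
  have hx := hZs x hxZ
  have hyx : 0 < y x := by
    rcases lt_or_gt_of_ne (hy.2 x (hZa hxZ)) with h1 | h1
    · exact absurd hx (not_lt.2 (mul_nonneg_of_nonpos_of_nonpos h1.le (hneg x (mem_Neg.2 h1))))
    · exact h1
  have hsx : s x < 0 := by
    by_contra h1
    exact absurd hx (not_lt.2 (mul_nonneg hyx.le (not_lt.1 h1)))
  have hxc1 : x ≠ c1 := by
    rintro rfl
    exact absurd hsx (not_lt.2 hsc)
  have hxe1 : x ≠ e1 := by
    rintro rfl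
    exact absurd hsx (not_lt.2 hse)
  have hxc2 : x ≠ c2 := by
    rintro rfl
    exact absurd (((t10 x c1 h.parc).2 s hs).2.1.1 hsx) (not_lt.2 hsc)
  have hxe2 : x ≠ e2 := by
    rintro rfl
    exact absurd (((t10 x e1 h.pare).2 s hs).2.1.1 hsx) (not_lt.2 hse)
  have hxL : x ∈ LL U c1 e1 := (f3 x).2 ⟨hZa hxZ, hxc1, hxc2, hxe1, hxe2⟩
  have hZ : Z = {x} := by
    refine eq_singleton_iff_unique_mem.2 ⟨hxZ, fun j hj => ?_⟩
    by_contra hne
    exact (f4 x hxL j (hZa hj) (Ne.symm hne)).1 (hZp x hxZ j hj)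
  have hxP : x ∈ Pos y := mem_Pos.2 hyx
  have hxN : x ∉ Neg y := fun h1 => absurd (mem_Neg.1 h1) (not_lt.2 hyx.le)
  have hP : Pos y1 = (Pos y).erase x := by
    rw [hP1, hZ]
    ext i
    simp only [mem_union, mem_sdiff, mem_inter, mem_singleton, mem_erase]
    constructor
    · rintro (⟨h1, h2⟩ | ⟨h1, rfl⟩)
      · exact ⟨h2, h1⟩
      · exact absurd h1 hxN
    · rintro ⟨h1, h2⟩
      exact Or.inl ⟨h2, h1⟩
  have hN : Neg y1 = insert x (Neg y) := by
    rw [hN1, hZ]
    ext i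
    simp only [mem_union, mem_sdiff, mem_inter, mem_singleton, mem_insert]
    constructor
    · rintro (⟨h1, h2⟩ | ⟨h1, h2⟩)
      · exact Or.inr h1
      · exact Or.inl h2
    · rintro (rfl | h1)
      · exact Or.inr ⟨hxP, rfl⟩
      · refine Or.inl ⟨h1, ?_⟩
        rintro rfl
        exact hxN h1
  refine ⟨x, mem_inter.2 ⟨hxP, hxL⟩, hsx, y1, hy1, ?_, ?_, hN, hP⟩
  · rw [hP, mem_erase]
    exact ⟨hxc1.symm, hc1⟩
  · rw [hP, mem_erase]
    exact ⟨hxe1.symm, he1⟩

end MPa0e17f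
end

section
/-!
# The linear core for `n ≤ 2m + 2`, and the bound `N k d ≤ 2 d` for `3 ≤ k ≤ d - 2`
-/
set_option autoImplicit false

namespace MPa0e17f

open Finset Module

set_option linter.unusedSectionVars false

/-- the linear core for `n ≤ 2m + 2` -/
theorem core2 (hSMP : SpecSMP) (hBAS : SpecBAS) {ι : Type} [Fintype ι] [DecidableEq ι] {k : ℕ}
    (hk : 3 ≤ k) (n : ℕ) : ∀ (U : Submodule ℝ (ι → ℝ)), finrank ℝ U = n →
    k + 1 ≤ finrank ℝ U → (act U).card ≤ 2 * finrank ℝ U + 2 → HS k U → HC U → Good k U := by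
  classical
  induction n with
  | zero => intro U h1 h2; omega
  | succ n ih =>
    intro U hUn hm hn H1 H2
    by_cases hc : (act U).card ≤ 2 * finrank ℝ U + 1
    · exact core (by omega) _ U rfl hm hc H1 H2
    by_cases hs : Simple U
    · exact hSMP ι k U hm hn H1 H2 hs
    · unfold Simple at hs
      push Not at hs
      obtain ⟨i, hi, j, hj, hij, α, hα⟩ := hs
      rcases Nat.lt_or_ge (k + 1) (finrank ℝ U) with h1 | h1
      · have hfr := finrank_K_singleton hi
        apply contract hi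
        refine ih (K U {i}) (by omega) (by omega) ?_ (fun μ hμ => H1 μ hμ.1)
          (fun μ hμ => H2 μ hμ.1)
        have hα0 : α ≠ 0 := by
          rintro rfl
          obtain ⟨μ, hμ, h0⟩ := mem_act.1 hi
          exact h0 (by rw [hα μ hμ, zero_mul])
        have hsub : act (K U {i}) ⊆ ((act U).erase i).erase j := by
          intro w hw
          obtain ⟨μ, hμ, h0⟩ := mem_act.1 hw
          have hμi : μ i = 0 := hμ.2 i (Finset.mem_singleton_self i)
          refine Finset.mem_erase.2 ⟨?_, Finset.mem_erase.2 ⟨?_, mem_act.2 ⟨μ, hμ.1, h0⟩⟩⟩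
          · rintro rfl
            rw [hα μ hμ.1] at hμi
            exact h0 ((mul_eq_zero.1 hμi).resolve_left hα0)
          · rintro rfl; exact h0 hμi
        have hc3 := Finset.card_le_card hsub
        rw [Finset.card_erase_of_mem (Finset.mem_erase.2 ⟨hij.symm, hj⟩),
          Finset.card_erase_of_mem hi] at hc3
        omega
      · exact hBAS ι k U ⟨hk, by omega, by omega, H1, H2⟩

variable {E : Type*} [AddCommGroup E] [Module ℝ E]

theorem divisible_of_card_eq2 (hSMP : SpecSMP) (hBAS : SpecBAS) {ι : Type} [Fintype ι]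
    [DecidableEq ι] {k d : ℕ} (hk : 3 ≤ k) (hkd : k + 2 ≤ d) [FiniteDimensional ℝ E]
    (hE : finrank ℝ E = d) (p : ι ↪ E) (hcard : Fintype.card ι = 2 * d)
    (hK : KIndep k (univ.map p)) : Divisible k (univ.map p) := by
  have h1 := finrank_dep_ge (p : ι → E)
  apply divisible_of_good p (by omega)
  apply core2 hSMP hBAS hk _ (dep p) rfl (by omega)
  · have h2 := Finset.card_le_univ (act (dep p))
    omega
  · exact (kindep_iff_dep p).1 hK
  · exact fun μ hμ h0 => exists_neg_of_dep hμ h0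

theorem divisible_of_card_ge2 (hSMP : SpecSMP) (hBAS : SpecBAS) {k d : ℕ} (hk : 3 ≤ k)
    (hkd : k + 2 ≤ d) (S : Finset (EuclideanSpace ℝ (Fin d)))
    (hS : 2 * d ≤ S.card) (hK : KIndep k S) : Divisible k S := by
  classical
  obtain ⟨T, hT, hTc⟩ := Finset.exists_subset_card_eq hS
  have hKT := hK.mono hT
  apply Divisible.mono _ hT
  let e : Fin (2 * d) ≃ T := (Finset.equivFinOfCardEq hTc).symm
  let p : Fin (2 * d) ↪ EuclideanSpace ℝ (Fin d) :=
    ⟨fun i => (e i : EuclideanSpace ℝ (Fin d)), fun i j hij => e.injective (Subtype.ext hij)⟩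
  have hp : (univ : Finset (Fin (2 * d))).map p = T := by
    ext x
    constructor
    · intro hx
      obtain ⟨i, -, rfl⟩ := Finset.mem_map.1 hx
      exact (e i).2
    · intro hx
      refine Finset.mem_map.2 ⟨e.symm ⟨x, hx⟩, Finset.mem_univ _, ?_⟩
      change ((e (e.symm ⟨x, hx⟩) : T) : EuclideanSpace ℝ (Fin d)) = x
      rw [Equiv.apply_symm_apply]
  rw [← hp]
  refine divisible_of_card_eq2 hSMP hBAS hk hkd (by simp) p (by simp) ?_
  rw [hp]
  exact hKT

/-- **Theorem A.** -/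
theorem thmA (hSMP : SpecSMP) (hBAS : SpecBAS) (k d : ℕ) (hk : 3 ≤ k) (hkd : k + 2 ≤ d) :
    (∀ S : Finset (EuclideanSpace ℝ (Fin d)), KIndep k S → 2 * d ≤ S.card → Divisible k S) ∧
    max (d + k + 2) (2 * d + 3 - k) ≤ N k d ∧ N k d ≤ 2 * d := by
  have h1 : ∀ S : Finset (EuclideanSpace ℝ (Fin d)), KIndep k S → 2 * d ≤ S.card →
      Divisible k S := fun S hS hc => divisible_of_card_ge2 hSMP hBAS hk hkd S hc hS
  exact ⟨h1, (N_bounds k d (by omega) (by omega)).2.1, Nat.sInf_le h1⟩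

end MPa0e17f
end

section
/-!
# STK: a tope with `k` negative light elements of kernel `1`
-/
set_option autoImplicit false

namespace MPa0e17f

open Finset Module

namespace STKM

variable {ι : Type} [Fintype ι] [DecidableEq ι]

/-- crossing a light element is good -/
lemma good_cross (hTLK : SpecTLK) {k : ℕ} {U : Submodule ℝ (ι → ℝ)} (hB : Bas k U)
    {y y1 : ι → ℝ} (hy1 : NZ U y1) (hPc : (Pos y).card = k + 4) {x : ι} (hx : x ∈ Pos y)
    (hN : Neg y1 = insert x (Neg y)) (hP : Pos y1 = (Pos y).erase x)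
    (hk : kap U (Neg y) = 1) {ψ : ι → ℝ} (hψ : ψ ∈ K U (Neg y)) (hψx : ψ x ≠ 0) : Good k U := by
  obtain ⟨t1, -, -, -, t5, -⟩ := hTLK ι U
  have h1 := kap_insert_of_ne U (Neg y) x ⟨ψ, hψ, hψx⟩
  have h2 : (Pos y1).card = k + 3 := by
    rw [hP, card_erase_of_mem hx]
    omega
  have hd := hB.dim
  have hc := hB.card
  have h3 : kap U (Pos y1) = 0 := by
    refine t1 k (Pos y1) hB.hs ?_ ?_
    · rw [← (t5 y1 hy1).2.1]
      exact subset_union_left
    · omega
  refine ⟨y1, hy1.1, hy1.2, ?_⟩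
  rw [h3, hN]
  omega

lemma half (hSTP : SpecSTP) (hTLK : SpecTLK) (hTPF : SpecTPF) {k : ℕ}
    {U : Submodule ℝ (ι → ℝ)} {c1 c2 e1 e2 : ι} (h : TwoP k U c1 c2 e1 e2) (hbad : ¬ Good k U)
    {y : ι → ℝ} (hy : NZ U y) (hc1 : c1 ∈ Pos y) (he1 : e1 ∈ Pos y) (hk1 : (Neg y).card = k)
    (hk : kap U (Neg y) = 1) {s : ι → ℝ} (hs : s ∈ K U (Neg y)) (hsc : 0 < s c1)
    (hse : s e1 < 0) : 1 ≤ kap U (insert c1 (Pos y ∩ LL U c1 e1)) := by
  obtain ⟨-, -, -, -, -, -, -, -, t9, t10⟩ := hTLK ι U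
  obtain ⟨-, -, f3, f4, -, -, -, -, -, -, -, f12⟩ := hTPF ι k U c1 c2 e1 e2 h
  obtain ⟨g1, g2, g3, g4, g5, g6⟩ := f12 y hy hc1 he1
  have hPc : (Pos y).card = k + 4 := by omega
  obtain ⟨Z, ⟨x, hxZ⟩, hZa, hZs, hZp, hZc, -, y1, hy1, hP1, hN1⟩ := hSTP ι U y s hy hs.1
    ⟨e1, mul_neg_of_pos_of_neg (mem_Pos.1 he1) hse⟩
  have hZneg : ∀ i ∈ Z, 0 < y i ∧ s i < 0 := by
    intro i hi
    have h1 := hZs i hi
    rcases lt_or_gt_of_ne (hy.2 i (hZa hi)) with h2 | h2
    · exfalso
      rw [hs.2 i (mem_Neg.2 h2), mul_zero] at h1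
      exact lt_irrefl _ h1
    · refine ⟨h2, ?_⟩
      by_contra h3
      exact absurd h1 (not_lt.2 (mul_nonneg h2.le (not_lt.1 h3)))
  have hc1Z : c1 ∉ Z := fun h1 => absurd (hZneg c1 h1).2 (not_lt.2 hsc.le)
  have hc2Z : c2 ∉ Z := fun h1 =>
    absurd (((t10 c2 c1 h.parc).2 s hs.1).2.1.1 (hZneg c2 h1).2) (not_lt.2 hsc.le)
  have hZN : ∀ i ∈ Z, i ∉ Neg y := fun i hi h1 =>
    absurd (mem_Neg.1 h1) (not_lt.2 (hZneg i hi).1.le)
  -- no light element
  have hlight : ∀ i ∈ Z, i = e1 ∨ i = e2 := by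
    intro i hi
    by_contra hne
    rw [not_or] at hne
    have hiL : i ∈ LL U c1 e1 := (f3 i).2 ⟨hZa hi, fun h1 => hc1Z (h1 ▸ hi),
      fun h1 => hc2Z (h1 ▸ hi), hne.1, hne.2⟩
    have hZ : Z = {i} := by
      refine eq_singleton_iff_unique_mem.2 ⟨hi, fun j hj => ?_⟩
      by_contra hne'
      exact (f4 i hiL j (hZa hj) (Ne.symm hne')).1 (hZp i hi j hj)
    have hiP : i ∈ Pos y := mem_Pos.2 (hZneg i hi).1
    have hiN : i ∉ Neg y := hZN i hi
    apply hbad
    refine good_cross hTLK h.bas hy1 hPc hiP ?_ ?_ hk hs (hZneg i hi).2.ne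
    · rw [hN1, hZ]
      ext j
      simp only [mem_union, mem_sdiff, mem_inter, mem_singleton, mem_insert]
      constructor
      · rintro (⟨h1, h2⟩ | ⟨h1, h2⟩)
        · exact Or.inr h1
        · exact Or.inl h2
      · rintro (rfl | h1)
        · exact Or.inr ⟨hiP, rfl⟩
        · refine Or.inl ⟨h1, ?_⟩
          rintro rfl
          exact hiN h1
    · rw [hP1, hZ]
      ext j
      simp only [mem_union, mem_sdiff, mem_inter, mem_singleton, mem_erase]
      constructor
      · rintro (⟨h1, h2⟩ | ⟨h1, rfl⟩)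
        · exact ⟨h2, h1⟩
        · exact absurd h1 hiN
      · rintro ⟨h1, h2⟩
        exact Or.inl ⟨h2, h1⟩
  have he1Z : e1 ∈ Z := by
    rcases hlight x hxZ with rfl | rfl
    · exact hxZ
    · obtain ⟨α, hα, hp⟩ := (t10 x e1 h.pare).1
      exact hZc x hxZ e1 h.he1 ⟨α, hp⟩
  have hsubN : insert e1 (Neg y) ⊆ Neg y1 := by
    intro i hi
    rw [hN1, mem_union, mem_sdiff, mem_inter]
    rcases mem_insert.1 hi with rfl | h1
    · exact Or.inr ⟨he1, he1Z⟩
    · exact Or.inl ⟨h1, fun h2 => hZN i h2 h1⟩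
  have hsubP : insert c1 (Pos y ∩ LL U c1 e1) ⊆ Pos y1 := by
    intro i hi
    rw [hP1, mem_union, mem_sdiff]
    rcases mem_insert.1 hi with rfl | h1
    · exact Or.inl ⟨hc1, hc1Z⟩
    · rw [mem_inter] at h1
      refine Or.inl ⟨h1.1, fun h2 => ?_⟩
      have h3 := (f3 i).1 h1.2
      rcases hlight i h2 with h4 | h4
      · exact h3.2.2.2.1 h4
      · exact h3.2.2.2.2 h4
  have h1 := kap_insert_of_ne U (Neg y) e1 ⟨s, hs, hse.ne⟩
  have h2 := kap_anti U hsubN
  have h3 := kap_anti U hsubP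
  have hd := h.bas.dim
  by_contra h4
  apply hbad
  exact ⟨y1, hy1.1, hy1.2, by omega⟩

end STKM

open STKM in
theorem specSTK (hSTP : SpecSTP) (hTLK : SpecTLK) (hTPF : SpecTPF) (hLST : SpecLST) :
    SpecSTK := by
  intro ι _ _ k U c1 c2 e1 e2 h hbad y hy hc1 he1 hk1 hk
  obtain ⟨-, -, -, -, -, -, -, -, t9, t10⟩ := hTLK ι U
  obtain ⟨-, -, f3, f4, -, f6, -, -, -, -, -, f12⟩ := hTPF ι k U c1 c2 e1 e2 h
  obtain ⟨g1, g2, g3, g4, g5, g6⟩ := f12 y hy hc1 he1
  have hPc : (Pos y).card = k + 4 := by omega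
  have hS'c : (Pos y ∩ LL U c1 e1).card = k := by omega
  have hS'L : Pos y ∩ LL U c1 e1 ⊆ LL U c1 e1 := inter_subset_right
  -- elements of `K UU S` vanish
  have hUU : ∀ S ⊆ LL U c1 e1, k ≤ S.card + 1 → ∀ μ ∈ K U S, μ c1 = 0 → μ e1 = 0 → μ = 0 := by
    intro S hS hSk μ hμ h1 h2
    have h3 := (f6 S hS hSk).1
    have h4 : K (UU U c1 e1) S = ⊥ := Submodule.finrank_eq_zero.1 h3
    have h5 : μ ∈ K (UU U c1 e1) S := by
      refine ⟨⟨hμ.1, fun i hi => ?_⟩, hμ.2⟩
      rw [mem_insert, mem_singleton] at hi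
      rcases hi with rfl | rfl
      · exact h1
      · exact h2
    rw [h4, Submodule.mem_bot] at h5
    exact h5
  obtain ⟨ψ, hψ, hψ0⟩ : ∃ ψ ∈ K U (Neg y), ψ ≠ 0 := by
    refine Submodule.exists_mem_ne_zero_of_ne_bot fun h1 => ?_
    have h2 : kap U (Neg y) = 0 := by
      rw [kap, h1]
      exact finrank_bot ℝ (ι → ℝ)
    omega
  -- Case A
  have caseA : ∀ s ∈ K U (Neg y), s ≠ 0 → 0 ≤ s c1 → 0 ≤ s e1 → False := by
    intro s hs hs0 h1 h2
    obtain ⟨i, hi⟩ := h.bas.hc s hs.1 hs0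
    have hia : i ∈ act U := mem_act.2 ⟨s, hs.1, hi.ne⟩
    have hyi : 0 < y i := by
      rcases lt_or_gt_of_ne (hy.2 i hia) with h3 | h3
      · exfalso
        rw [hs.2 i (mem_Neg.2 h3)] at hi
        exact lt_irrefl _ hi
      · exact h3
    obtain ⟨x, hx, hsx, y1, hy1, -, -, hN, hP⟩ := hLST ι k U c1 c2 e1 e2 h y hy hc1 he1 s hs.1
      h1 h2 (fun j hj => (hs.2 j hj).le) ⟨i, hyi, hi⟩
    exact hbad (good_cross hTLK h.bas hy1 hPc (mem_inter.1 hx).1 hN hP hk hs hsx.ne)
  -- Case B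
  obtain ⟨s, hs, hsc, hse⟩ : ∃ s ∈ K U (Neg y), 0 < s c1 ∧ s e1 < 0 := by
    rcases lt_trichotomy (ψ c1) 0 with h1 | h1 | h1
    · rcases le_or_gt (ψ e1) 0 with h2 | h2
      · exact (caseA (-ψ) ((K U (Neg y)).neg_mem hψ) (neg_ne_zero.2 hψ0) (by simpa using h1.le)
          (by simpa using h2)).elim
      · exact ⟨-ψ, (K U (Neg y)).neg_mem hψ, by simpa using h1, by simpa using h2⟩
    · rcases le_total (ψ e1) 0 with h2 | h2
      · exact (caseA (-ψ) ((K U (Neg y)).neg_mem hψ) (neg_ne_zero.2 hψ0) (by simp [h1])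
          (by simpa using h2)).elim
      · exact (caseA ψ hψ hψ0 h1.ge h2).elim
    · rcases le_or_gt 0 (ψ e1) with h2 | h2
      · exact (caseA ψ hψ hψ0 h1.le h2).elim
      · exact ⟨ψ, hψ, h1, h2⟩
  have hA := half hSTP hTLK hTPF h hbad hy hc1 he1 hk1 hk hs hsc hse
  have h' : TwoP k U e1 e2 c1 c2 :=
    { bas := h.bas, hc1 := h.he1, hc2 := h.he2, he1 := h.hc1, he2 := h.hc2, nec := h.nee
      nee := h.nec, parc := h.pare, pare := h.parc
      npar := fun h1 => h.npar (t9 c1 e1 h.hc1 h1).1 }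
  have hB := half hSTP hTLK hTPF h' hbad hy he1 hc1 hk1 hk ((K U (Neg y)).neg_mem hs)
    (by simpa using hse) (by simpa using hsc)
  have hLL : LL U e1 c1 = LL U c1 e1 := by
    rw [LL, LL, UU, UU, pair_comm]
  rw [hLL] at hB
  refine ⟨hS'L, hS'c, ?_⟩
  have h1 := (f6 _ hS'L (by omega)).2
  have h2 := kap_anti U (subset_insert c1 (Pos y ∩ LL U c1 e1))
  by_contra h3
  have h4 : kap U (Pos y ∩ LL U c1 e1) = 1 := by omega
  have h5 : ∀ μ ∈ K U (Pos y ∩ LL U c1 e1), μ c1 = 0 := by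
    intro μ hμ
    by_contra h6
    have h7 := kap_insert_of_ne U _ c1 ⟨μ, hμ, h6⟩
    omega
  have h5' : ∀ μ ∈ K U (Pos y ∩ LL U c1 e1), μ e1 = 0 := by
    intro μ hμ
    by_contra h6
    have h7 := kap_insert_of_ne U _ e1 ⟨μ, hμ, h6⟩
    omega
  have h6 : K U (Pos y ∩ LL U c1 e1) = ⊥ := by
    rw [Submodule.eq_bot_iff]
    intro μ hμ
    exact hUU _ hS'L (by omega) μ hμ (h5 μ hμ) (h5' μ hμ)
  rw [kap, h6, finrank_bot] at h4
  omega

end MPa0e17f
end
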