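import Pool.Agent.Lib.MP_a0e17f.T.SpecA

/-!
# Specifications, part B: the base case `m = k + 1`, `n = 2m + 2`, with one heavy class

`Bas k U`: `k ≥ 3`, `dim U = k + 1`, `|act U| = 2k + 4`, `HS k U`, `HC U`. Here `Good k U` means: there is a tope `y`
with `kap U (Pos y) = kap U (Neg y) = 0`. A nonzero `μ ∈ U` has at most `k + 2` zeros in `act U`, so
`kap U S = 0` if `S ⊆ act U`, `|S| ≥ k + 3`. `S` is called independent in `U` if
`kap U S + |S| = dim U`. Nudge: `y0 + ε s` has the signs of `y0` where `y0 ≠ 0` and the signs of `s`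
elsewhere (`nudge` in `Core.lean`, `finish` in `Par.lean`). For `U' ≤ U` the hypotheses `HS k U'`, `HC U'` are
inherited. `K (K U {c}) S = K U (insert c S)` (`K_K`).

Files `T/XXX.lean`, `import Pool.Agent.Lib.MP_a0e17f.T.SpecB`, namespace `MPa0e17f`,
`theorem specXXX (hYYY : SpecYYY) .. : SpecXXX`; own lemmas in the namespace `MPa0e17f.XXXM`.
-/

set_option autoImplicit false

namespace MPa0e17f

open Finset Module

/-- **TLK** [200 lines]. Toolkit. (1) few zeros: the nonzero coordinates of `μ ≠ 0` in `K U S` lie in `act U \ S`.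
(2) If `i` vanishes on `K U {j}`, let `μ0 ∈ U`, `μ0 j ≠ 0`: `μ - (μ j / μ0 j) μ0 ∈ K U {j}`, so
`μ i = (μ0 i / μ0 j) μ j`. (3) `kap_le_insert` and `finrank_le_kap_add_card` (induction on `T \ S`). (4) independent
sets do not contain two proportional coordinates: `K U T = K U (T.erase i)`. (5) `act U` is the disjoint union of
`Pos y` and `Neg y`. (6) `exists_nowhere_zero`. (7) `two_values` with (2). (8) `nudge`. (9) the factor is not `0` for
`i ∈ act U`. (10) as (9), the factor is positive; and the signs of `y i`, `y j` agree. -/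
def SpecTLK : Prop := ∀ (ι : Type) [Fintype ι] [DecidableEq ι] (U : Submodule ℝ (ι → ℝ)),
  (∀ (k : ℕ) (S : Finset ι), HS k U → S ⊆ act U → (act U).card < S.card + (k + 2) → kap U S = 0) ∧
  (∀ i j, j ∈ act U → (i ∈ act (K U {j}) ↔ i ∈ act U ∧ ¬ Prl U i j)) ∧
  (∀ S T : Finset ι, S ⊆ T → kap U T + T.card = finrank ℝ U → kap U S + S.card = finrank ℝ U) ∧
  (∀ (T : Finset ι) (i j), kap U T + T.card = finrank ℝ U → i ∈ T → j ∈ T → i ≠ j → ¬ Prl U i j) ∧
  (∀ y, NZ U y → (Pos y).card + (Neg y).card = (act U).card ∧ Pos y ∪ Neg y = act U ∧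
    Disjoint (Pos y) (Neg y) ∧ NZ U (-y)) ∧
  (∃ y, NZ U y) ∧
  (∀ i ∈ act U, ∀ j ∈ act U, ¬ Prl U i j → ∀ a b : ℝ, ∃ s ∈ U, s i = a ∧ s j = b) ∧
  (∀ y0 ∈ U, ∀ s ∈ U, (∀ i ∈ act U, y0 i = 0 → s i ≠ 0) →
    ∃ y, NZ U y ∧ (∀ i, i ∈ Pos y ↔ 0 < y0 i ∨ (y0 i = 0 ∧ 0 < s i)) ∧
      (∀ i, i ∈ Neg y ↔ y0 i < 0 ∨ (y0 i = 0 ∧ s i < 0))) ∧
  (∀ i j, i ∈ act U → Prl U i j → Prl U j i ∧ j ∈ act U) ∧
  (∀ i j, PrlP U i j → PrlP U j i ∧ ∀ y ∈ U, (0 < y i ↔ 0 < y j) ∧ (y i < 0 ↔ y j < 0) ∧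
    (y i = 0 ↔ y j = 0))

/-- **ANT** [250 lines]. Two coordinates that are negative multiples of each other. (hyps: STP, UNI, GRW,
BLS, TLK)
PROOF. `U' = K U {j}`, `dim U' = k`; Lemma S: `|act U'| ≥ 2k + 1`; `i, j ∉ act U'`, so `|act U'| ≤ 2k + 2`.
CLAIM G: if `y'` is a tope of `U'` with `kap U' (Pos y') = kap U' (Neg y') = 0`, then `Good k U`. Nudge `y'` by a
nowhere zero `s ∈ U` (`finish`): `s i`, `s j` have opposite signs, so `i` and `j` go to different sides;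
`K U (insert i S) = K U (insert j S) = K U' S`, so both kernels are `0`.
(a) `|act U'| = 2k + 1`: `U'` is uniform. UNI (4) and BLS (2) with `q = k` give `y0` with `|Pos| = |Neg| = k`, one zero
`z`; nudge it inside `U'`; both sides have at least `k = dim U'` elements, kernels `0` by UNI (1). Claim G.
(b) `|act U'| = 2k + 2`: a nonzero element of `U'` has at most `k` zeros in `act U'`. A class of proportional
coordinates of `U'` has at most two elements (Lemma S for `K U' {a}`, of dimension `k - 1`: at least `2k` active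
coordinates). BLS (1), `q = k + 1`. First case: `|Pos| = |Neg| = k + 1`, kernels `0`, Claim G. Second case: `y0` with the
zeros `e1, e2` in `act U'`, `|A| = |B| = k`, `A = Pos y0`, `B = Neg y0`; `y0 ∈ U'' = K U' {e1}`, `dim U'' = k - 1 ≥ 2`,
`act U'' = act U' \ {e1, e2} = A ∪ B` has `2k` elements: uniform. If `kap U' A = 0`: nudge `y0` by `s ∈ U'`,
`s e1 < 0` (so `s e2 < 0`): sides `A` and `B ∪ {e1, e2}` (`k + 2` elements), kernels `0`, Claim G. The same if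
`kap U' B = 0`. Actually this distinction is not needed: STP in `U''` from `y0` in the direction `-y0`:
`Z = {z}` (UNI (4)). Let `z ∈ B` (otherwise take `-y0` instead of `y0`). The new tope `y1` of `U''` has
`Neg y1 = B \ z`, `k - 1` elements, `kap U'' (B \ z) = 0` (UNI (1)), so `kap U' (B \ z) ≤ 1`, hence `B \ z` is
independent in `U'`. Nudge `y1` by `s ∈ U'`, `s e1 > 0`: a tope `y2` of `U'` with `e1, e2 ∈ Pos y2`, `Neg y2 = B \ z`.
GRW in `U'`, `c = {e1, e2}` (coordinates `i ∉ c`: proportional to `e1` means `0` on `U''`; proportional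
to another one contradicts UNI (4) for `U''`): a tope with `|Neg| = k`, `kap U' Neg = 0`, so `|Pos| = k + 2`,
`kap U' Pos = 0`. Claim G. -/
def SpecANT : Prop := ∀ (ι : Type) [Fintype ι] [DecidableEq ι] (k : ℕ) (U : Submodule ℝ (ι → ℝ)),
  Bas k U → ∀ i ∈ act U, ∀ j ∈ act U, i ≠ j → (∃ α : ℝ, α < 0 ∧ ∀ μ ∈ U, μ i = α * μ j) → Good k U

/-- **WT3** [150 lines]. Three coordinates which are positive multiples of each other. (hyps: UNI, GRW, TLK)
PROOF. `U' = K U {c1}`, `dim U' = k`, `|act U'| ≥ 2k + 1` and `c1, c2, c3 ∉ act U'`: `|act U'| = 2k + 1`, uniform,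
`act U = act U' ∪ {c1, c2, c3}`. Let `y'` be a tope of `U'`; one side has at most `k` elements, let it be `Neg y'`
(otherwise `-y'`). By UNI (2) it is independent in `U'`, hence in `U`
(`kap U S ≤ kap U (insert c1 S) + 1 = kap U' S + 1`). Nudge by `s ∈ U`, `s c1 > 0`: a tope `y` of `U` with
`c1, c2, c3 ∈ Pos y`, `Neg y = Neg y'`. GRW with `c = {c1, c2, c3}` (a coordinate `i ∉ c` is in `act U'`; use TLK (2)
and UNI (4)): `|Neg| = k + 1`, `kap U Neg = 0`, `|Pos| = k + 3`, `kap U Pos = 0`. -/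
def SpecWT3 : Prop := ∀ (ι : Type) [Fintype ι] [DecidableEq ι] (k : ℕ) (U : Submodule ℝ (ι → ℝ)),
  Bas k U → ∀ c1 ∈ act U, ∀ c2 ∈ act U, ∀ c3 ∈ act U, c1 ≠ c2 → c1 ≠ c3 → c2 ≠ c3 →
  PrlP U c2 c1 → PrlP U c3 c1 → Good k U

/-- **STR** [80 lines]. (hyps: GRW, TLK)
PROOF. `c1, c2` have the same sign. They are not both in `Neg y` (TLK (4)), so `c = {c1, c2} ⊆ Pos y`. GRW
(`OneP.oth`): `|Neg y'| = k + 1`, `kap U (Neg y') = 0`, `|Pos y'| = k + 3`, `kap U (Pos y') = 0`. -/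
def SpecSTR : Prop := ∀ (ι : Type) [Fintype ι] [DecidableEq ι] (k : ℕ) (U : Submodule ℝ (ι → ℝ))
  (c1 c2 : ι), OneP k U c1 c2 → ∀ y, NZ U y → kap U (Neg y) + (Neg y).card = k + 1 → Good k U

/-- **PJM** [200 lines]. A balanced tope of the contraction. (hyps: STP, UNI, BLS, TLK, STR)
PROOF. `U' = K U {c1}`, `dim U' = k`, `act U' = act U \ {c1, c2}` (TLK (2), `OneP.oth`), `2k + 2` elements. Classes of
`U'` have at most two elements (as in ANT). BLS (1) with `q = k + 1`: either the second alternative of the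
conclusion, or `y0 ∈ U'` with the zeros `e1, e2` in `act U'`, `|Pos y0| = |Neg y0| = k`, `μ e2 = α μ e1` on `U'`,
`α > 0`. `U'' = K U' {e1}`, `dim U'' = k - 1 ≥ 2`, `act U'' = act U' \ {e1, e2}`, `2k` elements, uniform. STP in `U''` from
`y0` in the direction `-y0`: `Z = {z}`; let `z ∈ Neg y0` (otherwise take `-y0`). `Neg y1 = Neg y0 \ z` has `k - 1` elements,
`kap U'' (Neg y1) = 0`, so `kap U (Neg y1) ≤ 2`: independent in `U`. On `U`: `μ e2 = α μ e1 + β μ c1` for some `β`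
(`μ - (μ c1 / μ0 c1) μ0 ∈ U'`). Let `s ∈ U`, `s e1 = 1`, `s c1 = δ > 0` with `α + β δ > 0` (`two_values`). Nudge `y1` by
`s`: a tope `y` of `U` with `Neg y = Neg y1`. STR. -/
def SpecPJM : Prop := ∀ (ι : Type) [Fintype ι] [DecidableEq ι] (k : ℕ) (U : Submodule ℝ (ι → ℝ))
  (c1 c2 : ι), OneP k U c1 c2 →
  Good k U ∨ ∃ y', NZ (K U {c1}) y' ∧ (Pos y').card = k + 1 ∧ (Neg y').card = k + 1

/-- **PCP** [300 lines]. (hyps: STP, UNI, TLK, STR)
PROOF. `U' = K U {c1}`, `dim U' = k`, `|act U'| = 2k + 2`, `R = Pos y'`, `S = Neg y'`. `kap U' R = kap U' S = 0` (TLK (1)), so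
`kap U R, kap U S ≤ 1`. If `kap U R = 0`: nudge `y'` by `s ∈ U`, `s c1 < 0`: sides `R` and `S ∪ {c1, c2}`, kernels `0`
(`kap U (insert c1 S) = kap U' S = 0`): `Good`. If `kap U S = 0`: symmetric. So both are `1`, and a nonzero
`ρ ∈ K U R` has `ρ c1 ≠ 0`; the same for `S`. Let `u ∈ U'` vanish on the coloops, `u ≠ 0`; replacing `u` by `-u`
if necessary there is `i` with `y' i * u i < 0`. STP in `U'`: `Z` is a class of `U'`, at most two elements (as in
ANT), no element of `Z` is a coloop. `Good` in each case: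
(a) `Z = {x}`, `x ∈ S`: `Neg y1 = S \ x`, `K U (S \ x) = K U S` (`x` is no coloop), so `S \ x` is independent in `U`. Nudge
`y1` by `s`, `s c1 > 0`: STR. (b) `Z = {x}`, `x ∈ R`: the same for `-y'`. (c) `Z = {i, j} ⊆ S`: `U'' = K U' {i}` is
uniform, `dim k - 1`, `act U'' = act U' \ {i, j}` (`2k` elements); `kap U'' (S \ Z) = 0` (`k - 1` elements), so
`kap U (S \ Z) ≤ 2`, `S \ Z` is independent in `U`; nudge `y1` by `s`, `s c1 > 0`, STR. (d) `Z ⊆ R`: the same for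
`-y'`. (e) `Z = {i, j}`, `i ∈ R`, `j ∈ S`: on `U'` `μ j + α μ i = 0` with `α > 0` (signs of `y'`), so on `U`
`μ j + α μ i = β μ c1`, and `β ≠ 0` (`OneP.oth`). Let `y0 ∈ U'` be the point on the wall: `Pos y0 = R \ i`,
`Neg y0 = S \ j`. If `β > 0` let `s ∈ U`, `s c1 = 1`, `s i > 0` small: `s j = β - α s i > 0`. Nudge: `Neg = S \ j`, independent
because `j` is no coloop of `S`: STR. If `β < 0` let `s c1 = -1`, `s i > 0` small: `s j = -β - α s i > 0`. Nudge: sides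
`R ∪ j`, `(S \ j) ∪ {c1, c2}`. `ρ j = β ρ c1 ≠ 0`, so `kap U (R ∪ j) = 0`; `K U (S \ j) = K U S` is spanned by `σ`,
`σ c1 ≠ 0`, so the other kernel is `0`. -/
def SpecPCP : Prop := ∀ (ι : Type) [Fintype ι] [DecidableEq ι] (k : ℕ) (U : Submodule ℝ (ι → ℝ))
  (c1 c2 : ι), OneP k U c1 c2 → ¬ Good k U → ∀ y', NZ (K U {c1}) y' →
  (Pos y').card = k + 1 → (Neg y').card = k + 1 →
  kap U (Pos y') = 1 ∧ kap U (Neg y') = 1 ∧
  ∀ u ∈ K U {c1}, (∀ i, Colp U (Pos y') i → u i = 0) → (∀ i, Colp U (Neg y') i → u i = 0) → u = 0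

/-- **PCQ** [250 lines]. (hyps: TLK, STR, PCP)
PROOF. `R = Pos y'`, `S = Neg y'`, `R1`, `S1` the coloops, `D_R = R \ R1`, `D_S = S \ S1`, `F = D_R ∪ D_S`, `r = |R1| + |S1|`.
`kap U D_R ≥ 1 + |R1|`, `kap U D_S ≥ 1 + |S1|` (`kap_sdiff_coloops`), so `kap U F ≥ r + 2 - (k + 1)`
(`kap_union_add`). By PCP `kap U' (R1 ∪ S1) = 0`, so `r ≥ k`, `kap U F ≥ 1`. Lemma S for `W = K U F`:
`|act W| ≥ kap U F + k + 1 ≥ r + 2`; `act W ⊆ R1 ∪ S1 ∪ {c1, c2}` (`r + 2` elements). So equality: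
`kap U F = r + 1 - k`, `act W = R1 ∪ S1 ∪ {c1, c2}`. Then `kap U (insert c1 F) = kap U F - 1` (`kap_insert_of_ne`), its
active coordinates lie in `R1 ∪ S1`; if it were positive, Lemma S would give `r ≥ kap U F + k = r + 1`. So
`kap U F = 1`, `r = k`. `R1 ∪ S1` is independent in `U` (`kap U ≤ kap U' + 1 = 1`, `k` elements). Moreover
`kap U D_R + kap U D_S ≥ k + 2 = (k + 1) + kap U F`, so `K U D_R ⊔ K U D_S = U`. Write `y' = a + b`, `a ∈ K U D_R`,
`b ∈ K U D_S`, `z = b - a`: on `D_R` `z = y' > 0`, on `D_S` `z = -y' > 0`. Let `ω ∈ W`, `ω c1 > 0`; `W` is spanned by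
`ω`, so `ω i ≠ 0` for `i ∈ act W`. Nudge `ω` by `z`: a tope `y` with `Neg y ⊆ R1 ∪ S1`, independent by
TLK (3). STR gives `Good`, a contradiction. -/
def SpecPCQ : Prop := ∀ (ι : Type) [Fintype ι] [DecidableEq ι] (k : ℕ) (U : Submodule ℝ (ι → ℝ))
  (c1 c2 : ι), OneP k U c1 c2 → ¬ Good k U → ∀ y', NZ (K U {c1}) y' →
  (Pos y').card = k + 1 → (Neg y').card = k + 1 → False

/-- **ONE** [20 lines]. (hyps: PJM, PCQ) -/
def SpecONE : Prop := ∀ (ι : Type) [Fintype ι] [DecidableEq ι] (k : ℕ) (U : Submodule ℝ (ι → ℝ))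
  (c1 c2 : ι), OneP k U c1 c2 → Good k U

end MPa0e17f
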