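import Pool.Agent.Lib.MP_a0e17f.T.SpecA
import Pool.Agent.Lib.MP_a0e17f.T.SpecB

section
/-!
# BLS: balanced topes and walls
-/
set_option autoImplicit false

namespace MPa0e17f

open Finset Module

namespace BLSM

variable {ι : Type} [Fintype ι] [DecidableEq ι]

theorem nz_neg {W : Submodule ℝ (ι → ℝ)} {l : ι → ℝ} (h : NZ W l) : NZ W (-l) :=
  ⟨W.neg_mem h.1, fun i hi => by simpa using h.2 i hi⟩

theorem disj (l : ι → ℝ) : Disjoint (Pos l) (Neg l) := by
  rw [Finset.disjoint_left]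
  intro i hi hi'
  have h1 := mem_Pos.1 hi
  have h2 := mem_Neg.1 hi'
  linarith

theorem union_eq {W : Submodule ℝ (ι → ℝ)} {l : ι → ℝ} (h : NZ W l) :
    Pos l ∪ Neg l = act W := by
  ext i
  rw [Finset.mem_union]
  constructor
  · rintro (hi | hi)
    · exact mem_act.2 ⟨l, h.1, (mem_Pos.1 hi).ne'⟩
    · exact mem_act.2 ⟨l, h.1, (mem_Neg.1 hi).ne⟩
  · intro hi
    exact mem_Pos_or_Neg (h.2 i hi)

theorem card_eq {W : Submodule ℝ (ι → ℝ)} {l : ι → ℝ} (h : NZ W l) :
    (Pos l).card + (Neg l).card = (act W).card := by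
  rw [← union_eq h, Finset.card_union_of_disjoint (disj l)]

theorem step (hSTP : SpecSTP) (W : Submodule ℝ (ι → ℝ)) (t : ℕ) (s : ι → ℝ) (hs : NZ W s)
    (hst : (Pos s).card < t) : ∀ (n : ℕ) (l : ι → ℝ), NZ W l → t ≤ (Pos l).card →
    (univ.filter (fun i => l i * s i < 0)).card = n →
    ∃ (l : ι → ℝ) (Z : Finset ι) (y0 y1 : ι → ℝ), NZ W l ∧ t ≤ (Pos l).card ∧ Z.Nonempty ∧
      Z ⊆ act W ∧ (∀ i ∈ Z, ∀ j ∈ Z, Prl W i j) ∧ y0 ∈ W ∧ Pos y0 = Pos l \ Z ∧
      Neg y0 = Neg l \ Z ∧ NZ W y1 ∧ Pos y1 = (Pos l \ Z) ∪ (Neg l ∩ Z) ∧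
      (Pos y1).card < t := by
  intro n
  induction n using Nat.strong_induction_on with
  | _ n ih =>
    intro l hl hlt hn
    -- a coordinate with opposite signs
    have hex : ∃ i, l i * s i < 0 := by
      have h1 : ¬ Pos l ⊆ Pos s := fun h => by
        have := Finset.card_le_card h
        omega
      obtain ⟨i, hi, hi'⟩ := Finset.not_subset.1 h1
      refine ⟨i, ?_⟩
      have h2 := mem_Pos.1 hi
      have hia : i ∈ act W := mem_act.2 ⟨l, hl.1, h2.ne'⟩
      rcases mem_Pos_or_Neg (hs.2 i hia) with h | h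
      · exact absurd h hi'
      · exact mul_neg_of_pos_of_neg h2 (mem_Neg.1 h)
    obtain ⟨Z, hZne, hZa, hZ1, hZ2, -, ⟨y0, hy0, hy0P, hy0N⟩, ⟨y1, hy1, hy1P, hy1N⟩⟩ :=
      hSTP ι W l s hl hs.1 hex
    by_cases hlt' : (Pos y1).card < t
    · exact ⟨l, Z, y0, y1, hl, hlt, hZne, hZa, hZ2, hy0, hy0P, hy0N, hy1, hy1P, hlt'⟩
    · refine ih _ ?_ y1 hy1 (not_lt.1 hlt') rfl
      rw [← hn]
      apply Finset.card_lt_card
      rw [Finset.ssubset_iff_of_subset]
      · obtain ⟨z, hz⟩ := hZne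
        refine ⟨z, by simpa using hZ1 z hz, ?_⟩
        intro hc
        rw [Finset.mem_filter] at hc
        have h1 := hZ1 z hz
        rcases lt_or_gt_of_ne (hl.2 z (hZa hz)) with h | h
        · -- `l z < 0`, so `y1 z > 0` and `s z > 0`
          have h2 : z ∈ Pos y1 := by
            rw [hy1P]
            exact Finset.mem_union_right _ (Finset.mem_inter.2 ⟨mem_Neg.2 h, hz⟩)
          have h3 := mem_Pos.1 h2
          have h4 : 0 < s z := by
            by_contra hc'
            have := mul_nonneg_of_nonpos_of_nonpos h.le (not_lt.1 hc')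
            linarith
          have := mul_pos h3 h4
          linarith [hc.2]
        · have h2 : z ∈ Neg y1 := by
            rw [hy1N]
            exact Finset.mem_union_right _ (Finset.mem_inter.2 ⟨mem_Pos.2 h, hz⟩)
          have h3 := mem_Neg.1 h2
          have h4 : s z < 0 := by
            by_contra hc'
            have := mul_nonneg h.le (not_lt.1 hc')
            linarith
          have := mul_pos_of_neg_of_neg h3 h4
          linarith [hc.2]
      · intro i hi
        rw [Finset.mem_filter] at hi ⊢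
        refine ⟨Finset.mem_univ i, ?_⟩
        by_cases hiZ : i ∈ Z
        · exact hZ1 i hiZ
        · have hi2 := hi.2
          have hy1i : y1 i ≠ 0 := by
            intro h
            rw [h, zero_mul] at hi2
            exact lt_irrefl 0 hi2
          rcases mem_Pos_or_Neg hy1i with h | h
          · have h1 := mem_Pos.1 h
            rw [hy1P, Finset.mem_union, Finset.mem_sdiff, Finset.mem_inter] at h
            have h2 : 0 < l i := by
              rcases h with h | h
              · exact mem_Pos.1 h.1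
              · exact absurd h.2 hiZ
            have h4 : s i < 0 := by
              by_contra hc'
              have := mul_nonneg h1.le (not_lt.1 hc')
              linarith
            exact mul_neg_of_pos_of_neg h2 h4
          · have h1 := mem_Neg.1 h
            rw [hy1N, Finset.mem_union, Finset.mem_sdiff, Finset.mem_inter] at h
            have h2 : l i < 0 := by
              rcases h with h | h
              · exact mem_Neg.1 h.1
              · exact absurd h.2 hiZ
            have h4 : 0 < s i := by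
              by_contra hc'
              have := mul_nonneg_of_nonpos_of_nonpos h1.le (not_lt.1 hc')
              linarith
            exact mul_neg_of_neg_of_pos h2 h4

/-- the cardinality of the new positive side -/
theorem card_new (P N Z : Finset ι) (h : Disjoint P N) :
    ((P \ Z) ∪ (N ∩ Z)).card + (P ∩ Z).card = P.card + (N ∩ Z).card := by
  rw [Finset.card_union_of_disjoint]
  · have := Finset.card_sdiff_add_card_inter P Z
    omega
  · rw [Finset.disjoint_left]
    intro i hi hi'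
    exact Finset.disjoint_left.1 h (Finset.mem_sdiff.1 hi).1 (Finset.mem_inter.1 hi').1

theorem card_split {W : Submodule ℝ (ι → ℝ)} {l : ι → ℝ} (h : NZ W l) {Z : Finset ι}
    (hZ : Z ⊆ act W) : (Pos l ∩ Z).card + (Neg l ∩ Z).card = Z.card := by
  rw [← Finset.card_union_of_disjoint, ← Finset.union_inter_distrib_right, union_eq h,
    Finset.inter_eq_right.2 hZ]
  exact Finset.disjoint_of_subset_left Finset.inter_subset_left
    (Finset.disjoint_of_subset_right Finset.inter_subset_left (disj l))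

/-- zero coordinates of `y0` -/
theorem zero_of {y0 l : ι → ℝ} {Z : Finset ι} (hP : Pos y0 = Pos l \ Z)
    (hN : Neg y0 = Neg l \ Z) {i : ι} (hi : i ∈ Z) : y0 i = 0 := by
  by_contra hc
  rcases mem_Pos_or_Neg hc with h | h
  · rw [hP] at h; exact (Finset.mem_sdiff.1 h).2 hi
  · rw [hN] at h; exact (Finset.mem_sdiff.1 h).2 hi

theorem ne_of {W : Submodule ℝ (ι → ℝ)} {y0 l : ι → ℝ} {Z : Finset ι} (hl : NZ W l)
    (hP : Pos y0 = Pos l \ Z) (hN : Neg y0 = Neg l \ Z) {i : ι} (hia : i ∈ act W)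
    (hi : i ∉ Z) : y0 i ≠ 0 := by
  rcases mem_Pos_or_Neg (hl.2 i hia) with h | h
  · exact (mem_Pos.1 (by rw [hP]; exact Finset.mem_sdiff.2 ⟨h, hi⟩ : i ∈ Pos y0)).ne'
  · exact (mem_Neg.1 (by rw [hN]; exact Finset.mem_sdiff.2 ⟨h, hi⟩ : i ∈ Neg y0)).ne

theorem part1 (hSTP : SpecSTP) (W : Submodule ℝ (ι → ℝ)) (q : ℕ)
    (hc : (act W).card = 2 * q)
    (hcl : ∀ i ∈ act W, ∀ j ∈ act W, ∀ l ∈ act W, i ≠ j → i ≠ l → j ≠ l → Prl W j i →
      ¬ Prl W l i) :
    (∃ y, NZ W y ∧ (Pos y).card = q ∧ (Neg y).card = q) ∨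
    (∃ y0 ∈ W, ∃ e1 ∈ act W, ∃ e2 ∈ act W, e1 ≠ e2 ∧ PrlP W e2 e1 ∧ y0 e1 = 0 ∧ y0 e2 = 0 ∧
      (∀ i ∈ act W, i ≠ e1 → i ≠ e2 → y0 i ≠ 0) ∧
      (Pos y0).card + 1 = q ∧ (Neg y0).card + 1 = q) := by
  by_cases hA : ∃ y, NZ W y ∧ (Pos y).card = q
  · obtain ⟨y, h1, h2⟩ := hA
    left
    refine ⟨y, h1, h2, ?_⟩
    have := card_eq h1
    omega
  · right
    push Not at hA
    -- a tope with few positive coordinates
    obtain ⟨s0, hs0, hs0'⟩ := exists_nowhere_zero W
    have hs0n : NZ W s0 := ⟨hs0, hs0'⟩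
    obtain ⟨s, hs, hsq⟩ : ∃ s, NZ W s ∧ (Pos s).card < q + 1 := by
      rcases Nat.lt_or_ge (Pos s0).card (q + 1) with h | h
      · exact ⟨s0, hs0n, h⟩
      · refine ⟨-s0, nz_neg hs0n, ?_⟩
        rw [Pos_neg]
        have := card_eq hs0n
        omega
    have hl0 : q + 1 ≤ (Pos (-s)).card := by
      have h1 := card_eq hs
      have h2 := hA _ (nz_neg hs)
      rw [Pos_neg] at h2 ⊢
      omega
    obtain ⟨l, Z, y0, y1, hl, hlt, hZne, hZa, hZp, hy0, hy0P, hy0N, hy1, hy1P, hy1c⟩ :=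
      step hSTP W (q + 1) s hs hsq _ (-s) (nz_neg hs) hl0 rfl
    have hy1q := hA y1 hy1
    have hn1 := card_new (Pos l) (Neg l) Z (disj l)
    rw [← hy1P] at hn1
    have hn2 := card_split hl hZa
    -- `|Z| ≤ 2`
    have hZ2 : Z.card ≤ 2 := by
      by_contra hcon
      obtain ⟨a, b, c, ha, hb, hc', hab, hac, hbc⟩ := Finset.two_lt_card_iff.1 (not_le.1 hcon)
      exact hcl a (hZa ha) b (hZa hb) c (hZa hc') hab hac hbc (hZp b hb a ha) (hZp c hc' a ha)
    have hn3 := card_eq hl
    have hN0 : (Neg l ∩ Z).card = 0 := by omega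
    have hP2 : (Pos l ∩ Z).card = 2 := by omega
    have hPl : (Pos l).card = q + 1 := by omega
    have hZc : Z.card = 2 := by omega
    have hZP : Z ⊆ Pos l := by
      intro i hi
      rcases mem_Pos_or_Neg (hl.2 i (hZa hi)) with h | h
      · exact h
      · have : i ∈ Neg l ∩ Z := Finset.mem_inter.2 ⟨h, hi⟩
        rw [Finset.card_eq_zero.1 hN0] at this
        exact absurd this (Finset.notMem_empty i)
    obtain ⟨e1, e2, he, hZe⟩ := Finset.card_eq_two.1 hZc
    have he1 : e1 ∈ Z := by rw [hZe]; simp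
    have he2 : e2 ∈ Z := by rw [hZe]; simp
    refine ⟨y0, hy0, e1, hZa he1, e2, hZa he2, he, ?_, zero_of hy0P hy0N he1,
      zero_of hy0P hy0N he2, ?_, ?_, ?_⟩
    · obtain ⟨α, hα⟩ := hZp e2 he2 e1 he1
      refine ⟨α, ?_, hα⟩
      have h1 := hα l hl.1
      have h2 := mem_Pos.1 (hZP he1)
      have h3 := mem_Pos.1 (hZP he2)
      by_contra hc'
      have := mul_nonneg (neg_nonneg.2 (not_lt.1 hc')) h2.le
      linarith
    · intro i hia h1 h2
      apply ne_of hl hy0P hy0N hia
      rw [hZe]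
      simp [h1, h2]
    · rw [hy0P, Finset.card_sdiff_of_subset hZP]
      omega
    · have h1 : Neg l \ Z = Neg l := by
        rw [Finset.sdiff_eq_self_iff_disjoint]
        exact Finset.disjoint_of_subset_right hZP (disj l).symm
      rw [hy0N, h1]
      omega

theorem part2 (hSTP : SpecSTP) (W : Submodule ℝ (ι → ℝ)) (q : ℕ)
    (hc : (act W).card = 2 * q + 1)
    (hcl : ∀ i ∈ act W, ∀ j ∈ act W, i ≠ j → ¬ Prl W i j) :
    ∃ y0 ∈ W, ∃ z ∈ act W, y0 z = 0 ∧ (∀ i ∈ act W, i ≠ z → y0 i ≠ 0) ∧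
      (Pos y0).card = q ∧ (Neg y0).card = q := by
  obtain ⟨s0, hs0, hs0'⟩ := exists_nowhere_zero W
  have hs0n : NZ W s0 := ⟨hs0, hs0'⟩
  obtain ⟨s, hs, hsq⟩ : ∃ s, NZ W s ∧ (Pos s).card < q + 1 := by
    rcases Nat.lt_or_ge (Pos s0).card (q + 1) with h | h
    · exact ⟨s0, hs0n, h⟩
    · refine ⟨-s0, nz_neg hs0n, ?_⟩
      rw [Pos_neg]
      have := card_eq hs0n
      omega
  have hl0 : q + 1 ≤ (Pos (-s)).card := by
    have h1 := card_eq hs
    rw [Pos_neg]
    omega
  obtain ⟨l, Z, y0, y1, hl, hlt, hZne, hZa, hZp, hy0, hy0P, hy0N, hy1, hy1P, hy1c⟩ :=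
    step hSTP W (q + 1) s hs hsq _ (-s) (nz_neg hs) hl0 rfl
  have hn1 := card_new (Pos l) (Neg l) Z (disj l)
  rw [← hy1P] at hn1
  have hn2 := card_split hl hZa
  have hZ1 : Z.card ≤ 1 := by
    rw [Finset.card_le_one]
    intro a ha b hb
    by_contra hab
    exact hcl a (hZa ha) b (hZa hb) hab (hZp a ha b hb)
  have hn3 := card_eq hl
  have hN0 : (Neg l ∩ Z).card = 0 := by omega
  have hZc : Z.card = 1 := by omega
  have hPl : (Pos l).card = q + 1 := by omega
  have hZP : Z ⊆ Pos l := by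
    intro i hi
    rcases mem_Pos_or_Neg (hl.2 i (hZa hi)) with h | h
    · exact h
    · have : i ∈ Neg l ∩ Z := Finset.mem_inter.2 ⟨h, hi⟩
      rw [Finset.card_eq_zero.1 hN0] at this
      exact absurd this (Finset.notMem_empty i)
  obtain ⟨z, hZz⟩ := Finset.card_eq_one.1 hZc
  have hz : z ∈ Z := by rw [hZz]; simp
  refine ⟨y0, hy0, z, hZa hz, zero_of hy0P hy0N hz, ?_, ?_, ?_⟩
  · intro i hia h1
    apply ne_of hl hy0P hy0N hia
    rw [hZz]
    simpa using h1
  · rw [hy0P, Finset.card_sdiff_of_subset hZP]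
    omega
  · have h1 : Neg l \ Z = Neg l := by
      rw [Finset.sdiff_eq_self_iff_disjoint]
      exact Finset.disjoint_of_subset_right hZP (disj l).symm
    rw [hy0N, h1]
    omega

end BLSM

theorem specBLS (hSTP : SpecSTP) : SpecBLS :=
  ⟨fun _ _ _ W q hc hcl => BLSM.part1 hSTP W q hc hcl,
    fun _ _ _ W q hc hcl => BLSM.part2 hSTP W q hc hcl⟩

end MPa0e17f
end

section
/-!
# CL3: the rank 3 flat of `b`, `c`, `x`
-/
set_option autoImplicit false

namespace MPa0e17f

open Finset Module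

namespace CL3M

variable {ι : Type} [Fintype ι] [DecidableEq ι]

/-- the elements of the basis `B ∪ C` -/
def BC (U : Submodule ℝ (ι → ℝ)) (y : ι → ℝ) (b i : ι) : Prop :=
  i = b ∨ Colp U (Pos y) i ∨ Colp U (Neg y) i ∨ (InCl U (Pos y) i ∧ InCl U (Neg y) i)

/-- dual basis -/
theorem dual {k : ℕ} {U : Submodule ℝ (ι → ℝ)} {kt : ℕ} {y : ι → ℝ} {b : ι}
    (h : Eqc k U kt y b) (a : ι) (ha : a ∈ act U) (haB : BC U y b a) :
    ∃ e ∈ U, e a = 1 ∧ ∀ i ∈ act U, BC U y b i → i ≠ a → e i = 0 := by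
  obtain ⟨e, he, he'⟩ := h.basis (fun i => if i = a then 1 else 0)
  refine ⟨e, he, ?_, fun i hi hiB hia => ?_⟩
  · rw [he' a ha haB, if_pos rfl]
  · rw [he' i hi hiB, if_neg hia]

theorem notBb {k : ℕ} {U : Submodule ℝ (ι → ℝ)} {kt : ℕ} {y : ι → ℝ} {b : ι}
    (h : Eqc k U kt y b) (i : ι) (hi : Colp U (Pos y) i ∨ Colp U (Neg y) i ∨
      (InCl U (Pos y) i ∧ InCl U (Neg y) i)) : i ≠ b := by
  rintro rfl
  rcases hi with hi | hi | hi
  · have := mem_Pos.1 hi.1
    rw [h.wall.yb] at this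
    exact lt_irrefl 0 this
  · have := mem_Neg.1 hi.1
    rw [h.wall.yb] at this
    exact lt_irrefl 0 this
  · obtain ⟨ν, hν, hν0⟩ := h.wall.pb
    exact hν0 (hi.1 ν hν)

/-- representation of the elements of the flat -/
theorem repr3 {U : Submodule ℝ (ι → ℝ)} {b c x i : ι} {eb ec ex : ι → ℝ}
    (hb : eb ∈ U) (hc : ec ∈ U) (hx : ex ∈ U)
    (hbb : eb b = 1) (hbc : eb c = 0) (hbx : eb x = 0)
    (hcb : ec b = 0) (hcc : ec c = 1) (hcx : ec x = 0)
    (hxb : ex b = 0) (hxc : ex c = 0) (hxx : ex x = 1)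
    (hi : ∀ μ ∈ K U {b, c, x}, μ i = 0) :
    ∀ μ ∈ U, μ i = eb i * μ b + ec i * μ c + ex i * μ x := by
  intro μ hμ
  have h1 : μ - μ b • eb - μ c • ec - μ x • ex ∈ K U {b, c, x} := by
    refine ⟨U.sub_mem (U.sub_mem (U.sub_mem hμ (U.smul_mem _ hb)) (U.smul_mem _ hc))
      (U.smul_mem _ hx), fun j hj => ?_⟩
    simp only [Finset.mem_insert, Finset.mem_singleton] at hj
    simp only [Pi.sub_apply, Pi.smul_apply, smul_eq_mul]
    rcases hj with rfl | rfl | rfl
    · rw [hbb, hcb, hxb]; ring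
    · rw [hbc, hcc, hxc]; ring
    · rw [hbx, hcx, hxx]; ring
  have h2 := hi _ h1
  simp only [Pi.sub_apply, Pi.smul_apply, smul_eq_mul] at h2
  linarith

theorem main (hSSS : SpecSSS) (k : ℕ) (U : Submodule ℝ (ι → ℝ)) (kt : ℕ) (y : ι → ℝ) (b : ι)
    (hHS : HS k U) (hS : Simple U) (hM : MinK U kt) (hE : Eqc k U kt y b)
    (hC : ∀ i ∈ act U, InCl U (Pos y) i → InCl U (Neg y) i → i ∈ Pos y)
    (hp : ∃ i, Colp U (Pos y) i) (c : ι) (hc : c ∈ Pos y) (hcQ : InCl U (Neg y) c) (x : ι)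
    (hx : Colp U (Neg y) x) (hxc : ∃ μ ∈ K U ((Neg y).erase x), μ c ≠ 0) :
    (∀ i ∈ Pos y, i ≠ c → ∃ μ ∈ K U {b, c, x}, μ i ≠ 0) ∧
    (∀ i ∈ Neg y, i ≠ x → (∀ μ ∈ K U {b, c, x}, μ i = 0) → ¬ Colp U (Neg y) i ∧
      ∃ ξ γ : ℝ, 0 < ξ ∧ γ < 0 ∧ ∀ μ ∈ U, μ i = ξ * μ x + γ * μ c) ∧
    (∀ i ∈ Neg y, i ≠ x → (∀ μ ∈ K U {b, c, x}, μ i = 0) →
      ∀ j ∈ Neg y, j ≠ x → (∀ μ ∈ K U {b, c, x}, μ j = 0) → i = j) := by
  classical
  have hw := hE.wall
  have hPa : ∀ i ∈ Pos y, i ∈ act U := fun i hi => mem_act.2 ⟨y, hw.mem, (mem_Pos.1 hi).ne'⟩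
  have hNa : ∀ i ∈ Neg y, i ∈ act U := fun i hi => mem_act.2 ⟨y, hw.mem, (mem_Neg.1 hi).ne⟩
  have hxN : x ∈ Neg y := hx.1
  have hycp : 0 < y c := mem_Pos.1 hc
  have hyxn : y x < 0 := mem_Neg.1 hxN
  have hcP : InCl U (Pos y) c := fun μ hμ => hμ.2 c hc
  have hBb : BC U y b b := Or.inl rfl
  have hBc : BC U y b c := Or.inr (Or.inr (Or.inr ⟨hcP, hcQ⟩))
  have hBx : BC U y b x := Or.inr (Or.inr (Or.inl hx))
  have hcb : c ≠ b := by rintro rfl; rw [hw.yb] at hycp; exact lt_irrefl 0 hycp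
  have hxb : x ≠ b := by rintro rfl; rw [hw.yb] at hyxn; exact lt_irrefl 0 hyxn
  have hcx : c ≠ x := by rintro rfl; exact lt_asymm hycp hyxn
  obtain ⟨eb, heb, heb1, heb0⟩ := dual hE b hw.bact hBb
  obtain ⟨ec, hec, hec1, hec0⟩ := dual hE c (hPa c hc) hBc
  obtain ⟨ex, hex, hex1, hex0⟩ := dual hE x (hNa x hxN) hBx
  have hrep : ∀ i, (∀ μ ∈ K U {b, c, x}, μ i = 0) →
      ∀ μ ∈ U, μ i = eb i * μ b + ec i * μ c + ex i * μ x := fun i hi =>
    repr3 heb hec hex heb1 (heb0 c (hPa c hc) hBc hcb) (heb0 x (hNa x hxN) hBx hxb)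
      (hec0 b hw.bact hBb hcb.symm) hec1 (hec0 x (hNa x hxN) hBx hcx.symm)
      (hex0 b hw.bact hBb hxb.symm) (hex0 c (hPa c hc) hBc hcx) hex1 hi
  -- an element of the basis is not in the flat
  have hnot : ∀ i ∈ act U, BC U y b i → i ≠ b → i ≠ c → i ≠ x →
      ¬ ∀ μ ∈ K U {b, c, x}, μ i = 0 := by
    intro i hi hiB h1 h2 h3 h
    obtain ⟨e, he, he1, he0⟩ := dual hE i hi hiB
    have h4 : e ∈ K U {b, c, x} := by
      refine ⟨he, fun j hj => ?_⟩
      simp only [Finset.mem_insert, Finset.mem_singleton] at hj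
      rcases hj with rfl | rfl | rfl
      · exact he0 j hw.bact hBb h1.symm
      · exact he0 j (hPa j hc) hBc h2.symm
      · exact he0 j (hNa j hxN) hBx h3.symm
    have h5 := h e h4
    rw [he1] at h5
    exact one_ne_zero h5
  obtain ⟨ν, hν, hνb⟩ := hw.pb
  obtain ⟨ν', hν', hν'b⟩ := hw.qb
  -- `c` is not a coloop of `P`
  have hcnc : ¬ Colp U (Pos y) c := fun h => hE.cp c h hcQ
  have hA : ∀ i ∈ Pos y, i ≠ c → ∃ μ ∈ K U {b, c, x}, μ i ≠ 0 := by
    intro i hi hic
    by_contra hcon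
    push Not at hcon
    have hr := hrep i hcon
    have hib : i ≠ b := by
      rintro rfl
      have := mem_Pos.1 hi
      rw [hw.yb] at this
      exact lt_irrefl 0 this
    have hix : i ≠ x := by
      rintro rfl
      exact lt_asymm (mem_Pos.1 hi) hyxn
    -- `ξ ≠ 0`
    have hxi : ex i ≠ 0 := by
      intro h0
      have h1 := hr ν hν.1
      rw [hν.2 i hi, hν.2 c hc, h0] at h1
      have h2 : eb i = 0 := by
        have : eb i * ν b = 0 := by linarith
        exact (mul_eq_zero.1 this).resolve_right hνb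
      apply hS i (hPa i hi) c (hPa c hc) hic
      refine ⟨ec i, fun μ hμ => ?_⟩
      rw [hr μ hμ, h0, h2]
      ring
    -- `i` is not a coloop
    have hinc : ¬ Colp U (Pos y) i := fun h =>
      hnot i (hPa i hi) (Or.inr (Or.inl h)) hib hic hix hcon
    set Bp := (Pos y).filter (fun j => Colp U (Pos y) j) with hBp
    have hBp1 : 1 ≤ Bp.card := by
      obtain ⟨j, hj⟩ := hp
      exact Finset.card_pos.2 ⟨j, Finset.mem_filter.2 ⟨hj.1, hj⟩⟩
    set P1 := Pos y \ Bp with hP1
    have hcP1 : c ∈ P1 := Finset.mem_sdiff.2 ⟨hc, fun h => hcnc (Finset.mem_filter.1 h).2⟩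
    have hiP1 : i ∈ P1 := Finset.mem_sdiff.2 ⟨hi, fun h => hinc (Finset.mem_filter.1 h).2⟩
    have h1 : kap U (Pos y) + Bp.card ≤ kap U P1 :=
      kap_sdiff_coloops U (Pos y) Bp (Finset.filter_subset _ _)
        fun j hj => (Finset.mem_filter.1 hj).2.2
    have h2 := kap_le_insert U P1 b
    have h3 : 1 ≤ kap U (Pos y) := by
      have : K U (Pos y) ≠ ⊥ := by
        intro h
        rw [h, Submodule.mem_bot] at hν
        rw [hν] at hνb
        exact hνb rfl
      exact Submodule.one_le_finrank_iff.2 this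
    have h4 := card_act_ge (k := k) (U := U) hHS (K U (insert b P1)) (K_le U _)
      (by rw [← kap]; omega)
    rw [← kap] at h4
    -- the active coordinates
    have h5 : act (K U (insert b P1)) ⊆ act U \ (insert b (insert x P1)) := by
      intro j hj
      obtain ⟨μ, hμ, hμj⟩ := mem_act.1 hj
      rw [Finset.mem_sdiff]
      refine ⟨mem_act.2 ⟨μ, hμ.1, hμj⟩, fun hj' => ?_⟩
      rcases Finset.mem_insert.1 hj' with rfl | hj'
      · exact hμj (hμ.2 j (Finset.mem_insert_self j P1))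
      · rcases Finset.mem_insert.1 hj' with rfl | hj'
        · have h6 := hr μ hμ.1
          rw [hμ.2 i (Finset.mem_insert_of_mem hiP1), hμ.2 b (Finset.mem_insert_self b P1),
            hμ.2 c (Finset.mem_insert_of_mem hcP1)] at h6
          have h7 : ex i * μ j = 0 := by linarith
          exact hμj ((mul_eq_zero.1 h7).resolve_left hxi)
        · exact hμj (hμ.2 j (Finset.mem_insert_of_mem hj'))
    have h6 := Finset.card_le_card h5
    have hbP1 : b ∉ P1 := fun h => by
      have := mem_Pos.1 (Finset.mem_sdiff.1 h).1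
      rw [hw.yb] at this
      exact lt_irrefl 0 this
    have hxP1 : x ∉ P1 := fun h => lt_asymm (mem_Pos.1 (Finset.mem_sdiff.1 h).1) hyxn
    have hsub : insert b (insert x P1) ⊆ act U := by
      intro j hj
      rcases Finset.mem_insert.1 hj with rfl | hj
      · exact hw.bact
      · rcases Finset.mem_insert.1 hj with rfl | hj
        · exact hNa j hxN
        · exact hPa j (Finset.mem_sdiff.1 hj).1
    have hcard : (insert b (insert x P1)).card = P1.card + 2 := by
      rw [Finset.card_insert_of_notMem, Finset.card_insert_of_notMem hxP1]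
      rw [Finset.mem_insert]
      rintro (h | h)
      · exact hxb h.symm
      · exact hbP1 h
    rw [Finset.card_sdiff_of_subset hsub, hcard] at h6
    have hP1c : P1.card = (Pos y).card - Bp.card :=
      Finset.card_sdiff_of_subset (Finset.filter_subset _ _)
    have hBpc : Bp.card ≤ (Pos y).card := Finset.card_le_card (Finset.filter_subset _ _)
    -- `|act U \ P| ≤ kap U P + k + 1`
    have h7 : act U \ Pos y ⊆ act (K U (Pos y)) := by
      intro j hj
      obtain ⟨hja, hjP⟩ := Finset.mem_sdiff.1 hj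
      by_cases hjb : j = b
      · rw [hjb]
        exact mem_act.2 ⟨ν, hν, hνb⟩
      · by_contra hcon'
        have hj1 : InCl U (Pos y) j := fun μ hμ => not_act hcon' hμ
        have hjN : j ∈ Neg y := (mem_Pos_or_Neg (hw.y0 j hja hjb)).resolve_left hjP
        exact hjP (hC j hja hj1 fun μ hμ => hμ.2 j hjN)
    have h8 := Finset.card_le_card h7
    have hPsub : Pos y ⊆ act U := hPa
    rw [Finset.card_sdiff_of_subset hPsub, hE.actP] at h8
    have h9 := Finset.card_le_card hsub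
    rw [hcard] at h9
    have h10 := Finset.card_le_card hPsub
    omega
  have hB : ∀ i ∈ Neg y, i ≠ x → (∀ μ ∈ K U {b, c, x}, μ i = 0) → ¬ Colp U (Neg y) i ∧
      ∃ ξ γ : ℝ, 0 < ξ ∧ γ < 0 ∧ ∀ μ ∈ U, μ i = ξ * μ x + γ * μ c := by
    intro i hi hix hvan
    have hr := hrep i hvan
    have hyi : y i < 0 := mem_Neg.1 hi
    have hib : i ≠ b := by
      rintro rfl
      rw [hw.yb] at hyi
      exact lt_irrefl 0 hyi
    have hic : i ≠ c := by
      rintro rfl
      exact lt_asymm hyi hycp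
    have hbeta : eb i = 0 := by
      have h1 := hr ν' hν'.1
      rw [hν'.2 i hi, hcQ ν' hν', hν'.2 x hxN] at h1
      have h2 : eb i * ν' b = 0 := by linarith
      exact (mul_eq_zero.1 h2).resolve_right hν'b
    have hr' : ∀ μ ∈ U, μ i = ex i * μ x + ec i * μ c := by
      intro μ hμ
      rw [hr μ hμ, hbeta]
      ring
    have hxi : ex i ≠ 0 := by
      intro h0
      apply hS i (hNa i hi) c (hPa c hc) hic
      exact ⟨ec i, fun μ hμ => by rw [hr' μ hμ, h0]; ring⟩
    have hci : ec i ≠ 0 := by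
      intro h0
      apply hS i (hNa i hi) x (hNa x hxN) hix
      exact ⟨ex i, fun μ hμ => by rw [hr' μ hμ, h0]; ring⟩
    have hyi' : y i = ex i * y x + ec i * y c := hr' y hw.mem
    -- SSS for `y + s (y c) e`, `s > -1`
    have hsss : ∀ s : ℝ, -1 < s → ex i * y x + (1 + s) * (ec i * y c) < 0 := by
      intro s hs
      have hzU : y + (s * y c) • ec ∈ U := U.add_mem hw.mem (U.smul_mem _ hec)
      have hzb : (y + (s * y c) • ec) b = 0 := by
        rw [Pi.add_apply, Pi.smul_apply, smul_eq_mul, hec0 b hw.bact hBb hcb.symm, hw.yb]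
        ring
      have h1 := hSSS ι U kt y b hS hM hw (y + (s * y c) • ec) hzU hzb (by
        intro j hj hjB
        have hjb := notBb hE j hjB
        rw [Pi.add_apply, Pi.smul_apply, smul_eq_mul]
        by_cases hjc : j = c
        · rw [hjc, hec1]
          have h2 : y c * (y c + s * y c * 1) = (1 + s) * (y c * y c) := by ring
          rw [h2]
          exact mul_pos (by linarith) (mul_pos hycp hycp)
        · rw [hec0 j hj (Or.inr hjB) hjc, mul_zero, add_zero]
          exact mul_self_pos.2 (hw.y0 j hj hjb)) i (hNa i hi) hib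
      rw [Pi.add_apply, Pi.smul_apply, smul_eq_mul] at h1
      have h3 : y i + s * y c * ec i = ex i * y x + (1 + s) * (ec i * y c) := by
        rw [hyi']; ring
      rw [← h3]
      by_contra hcon
      have := mul_nonneg (neg_nonneg.2 hyi.le) (not_lt.1 hcon)
      linarith
    refine ⟨fun h => hnot i (hNa i hi) (Or.inr (Or.inr (Or.inl h))) hib hic hix hvan,
      ex i, ec i, ?_, ?_, hr'⟩
    · -- `ξ > 0`
      rcases lt_or_gt_of_ne hxi with h | h
      · exfalso
        set a := ex i * y x with ha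
        have hapos : 0 < a := mul_pos_of_neg_of_neg h hyxn
        set g := ec i * y c with hg
        have hgabs := abs_nonneg g
        have hden : 0 < a + |g| + 1 := by linarith
        have hδ : 0 < a / (a + |g| + 1) := div_pos hapos hden
        have h1 := hsss (a / (a + |g| + 1) - 1) (by linarith)
        have h2 : (1 + (a / (a + |g| + 1) - 1)) * g = a / (a + |g| + 1) * g := by ring
        rw [h2] at h1
        have h3 : a / (a + |g| + 1) * |g| < a := by
          rw [div_mul_eq_mul_div, div_lt_iff₀ hden]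
          nlinarith
        have h4 : -(a / (a + |g| + 1) * |g|) ≤ a / (a + |g| + 1) * g := by
          have := mul_le_mul_of_nonneg_left (neg_abs_le g) hδ.le
          linarith
        linarith
      · exact h
    · -- `γ < 0`
      rcases lt_or_gt_of_ne hci with h | h
      · exact h
      · exfalso
        have hgpos : 0 < ec i * y c := mul_pos h hycp
        have h1 := hsss (|ex i * y x| / (ec i * y c)) (by
          have := div_nonneg (abs_nonneg (ex i * y x)) hgpos.le
          linarith)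
        have h2 : (1 + |ex i * y x| / (ec i * y c)) * (ec i * y c) =
            ec i * y c + |ex i * y x| := by
          field_simp
        rw [h2] at h1
        have := neg_abs_le (ex i * y x)
        linarith
  refine ⟨hA, hB, ?_⟩
  intro i hi hix hvi j hj hjx hvj
  by_contra hij
  obtain ⟨-, ξ, γ, hξ, hγ, hr⟩ := hB i hi hix hvi
  obtain ⟨-, ξ', γ', hξ', hγ', hr'⟩ := hB j hj hjx hvj
  obtain ⟨η, hη, hηc⟩ := hxc
  have h1 := hr η hη.1
  rw [hη.2 i (Finset.mem_erase.2 ⟨hix, hi⟩)] at h1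
  have h2 := hr' η hη.1
  rw [hη.2 j (Finset.mem_erase.2 ⟨hjx, hj⟩)] at h2
  -- `γ ξ' = γ' ξ`
  have h3 : γ * ξ' = γ' * ξ := by
    have h4 : (γ * ξ' - γ' * ξ) * η c = 0 := by
      have h5 : γ * η c = - (ξ * η x) := by linarith
      have h6 : γ' * η c = - (ξ' * η x) := by linarith
      calc (γ * ξ' - γ' * ξ) * η c = (γ * η c) * ξ' - (γ' * η c) * ξ := by ring
        _ = 0 := by rw [h5, h6]; ring
    have := (mul_eq_zero.1 h4).resolve_right hηc
    linarith
  apply hS i (hNa i hi) j (hNa j hj) hij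
  refine ⟨ξ / ξ', fun μ hμ => ?_⟩
  rw [hr μ hμ, hr' μ hμ]
  field_simp
  have h5 : ξ' * (γ * μ c) = ξ * (γ' * μ c) := by
    calc ξ' * (γ * μ c) = (γ * ξ') * μ c := by ring
      _ = (γ' * ξ) * μ c := by rw [h3]
      _ = _ := by ring
  nlinarith

end CL3M

theorem specCL3 (hSSS : SpecSSS) : SpecCL3 := by
  intro ι _ _ k U kt y b hHS hS hM hE hC hp c hc hcQ x hx hxc
  exact CL3M.main hSSS k U kt y b hHS hS hM hE hC hp c hc hcQ x hx hxc

end MPa0e17f
end

section
/-!
# CLP: the positive side of a wall of minimal kernel has a coloop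
-/
set_option autoImplicit false

namespace MPa0e17f

open Finset Module

theorem specCLP (hSTP : SpecSTP) : SpecCLP := by
  intro ι _ _ U kt y b hHC hs hmin hw
  obtain ⟨ν, hν, hνb⟩ : ∃ ν ∈ K U (Neg y), 0 < ν b := by
    obtain ⟨ν, hν, h⟩ := hw.qb
    rcases lt_or_gt_of_ne h with h | h
    · exact ⟨-ν, (K U (Neg y)).neg_mem hν, by rw [Pi.neg_apply]; linarith⟩
    · exact ⟨ν, hν, h⟩
  have hνn : ν ≠ 0 := by
    rintro rfl
    simp at hνb
  obtain ⟨i0, hi0⟩ := hHC ν hν.1 hνn
  -- outside of `b` the element `ν` lives on the positive side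
  have hpos : ∀ i, i ≠ b → ν i ≠ 0 → 0 < y i := by
    intro i hib hi
    have h1 : i ∈ act U := mem_act.2 ⟨ν, hν.1, hi⟩
    have h2 := hw.y0 i h1 hib
    rcases lt_or_gt_of_ne h2 with h | h
    · exact absurd (hν.2 i (mem_Neg.2 h)) hi
    · exact h
  have hi0b : i0 ≠ b := by
    rintro rfl
    linarith
  have hbN : b ∉ Neg y := by
    rw [mem_Neg, hw.yb]
    exact lt_irrefl _
  obtain ⟨ε, hε, hP, hN⟩ := nudge y ν
  set l := y + ε • ν with hl
  have hP1 : Pos l = insert b (Pos y) := by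
    rw [hP]
    ext i
    simp only [Finset.mem_union, Finset.mem_sdiff, Finset.mem_insert]
    constructor
    · rintro (h | ⟨h1, -⟩)
      · exact Or.inr h
      · by_cases hib : i = b
        · exact Or.inl hib
        · exact Or.inr (mem_Pos.2 (hpos i hib (mem_Pos.1 h1).ne'))
    · rintro (rfl | h)
      · exact Or.inr ⟨mem_Pos.2 hνb, hbN⟩
      · exact Or.inl h
  have hN1 : Neg l = Neg y := by
    rw [hN]
    ext i
    simp only [Finset.mem_union, Finset.mem_sdiff]
    constructor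
    · rintro (h | ⟨h1, h2⟩)
      · exact h
      · exfalso
        rw [mem_Neg] at h1
        have hib : i ≠ b := by
          rintro rfl
          linarith
        exact h2 (mem_Pos.2 (hpos i hib h1.ne))
    · exact Or.inl
  have hlU : l ∈ U := U.add_mem hw.mem (U.smul_mem _ hν.1)
  have hNZ : NZ U l := by
    refine ⟨hlU, fun i hi => ?_⟩
    by_cases hib : i = b
    · have : i ∈ Pos l := by
        rw [hP1, hib]
        exact Finset.mem_insert_self _ _
      exact (mem_Pos.1 this).ne'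
    · rcases mem_Pos_or_Neg (hw.y0 i hi hib) with h | h
      · have : i ∈ Pos l := by
          rw [hP1]
          exact Finset.mem_insert_of_mem h
        exact (mem_Pos.1 this).ne'
      · have : i ∈ Neg l := by rwa [hN1]
        exact (mem_Neg.1 this).ne
  have hi0P : 0 < l i0 := by
    have : i0 ∈ Pos l := by
      rw [hP1]
      exact Finset.mem_insert_of_mem (mem_Pos.2 (hpos i0 hi0b hi0.ne))
    exact mem_Pos.1 this
  obtain ⟨Z, hZ, -, hZ2, hZ3, -, -, y1, hy1, hP2, hN2⟩ := hSTP ι U l ν hNZ hν.1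
    ⟨i0, mul_neg_of_pos_of_neg hi0P hi0⟩
  have hZν : ∀ i ∈ Z, ν i ≠ 0 := by
    intro i hi h
    have := hZ2 i hi
    rw [h, mul_zero] at this
    exact lt_irrefl _ this
  have hZact : ∀ i ∈ Z, i ∈ act U := fun i hi => mem_act.2 ⟨ν, hν.1, hZν i hi⟩
  have hZl : ∀ i ∈ Z, 0 < l i := by
    intro i hi
    rcases lt_or_gt_of_ne (hNZ.2 i (hZact i hi)) with h | h
    · exfalso
      have h1 : i ∈ Neg y := by rw [← hN1]; exact mem_Neg.2 h
      exact hZν i hi (hν.2 i h1)
    · exact h
  have hZneg : ∀ i ∈ Z, ν i < 0 := by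
    intro i hi
    have h1 := hZl i hi
    have h2 := hZ2 i hi
    by_contra h
    push Not at h
    nlinarith
  obtain ⟨x, hx⟩ := hZ
  have hxb : x ≠ b := by
    rintro rfl
    have := hZneg x hx
    linarith
  have hZx : Z = {x} := by
    apply Finset.eq_singleton_iff_unique_mem.2
    refine ⟨hx, fun j hj => ?_⟩
    by_contra hne
    exact hs j (hZact j hj) x (hZact x hx) hne (hZ3 j hj x hx)
  have hxP : x ∈ Pos y := mem_Pos.2 (hpos x hxb (hZν x hx))
  have hxN : x ∉ Neg y := fun h => (hZν x hx) (hν.2 x h)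
  have hPl : x ∈ Pos l := mem_Pos.2 (hZl x hx)
  have hP3 : Pos y1 = (insert b (Pos y)) \ {x} := by
    rw [hP2, hZx, hN1, hP1]
    ext i
    simp only [Finset.mem_union, Finset.mem_sdiff, Finset.mem_inter, Finset.mem_singleton]
    constructor
    · rintro (h | ⟨h1, rfl⟩)
      · exact h
      · exact absurd h1 hxN
    · exact Or.inl
  have hN3 : Neg y1 = insert x (Neg y) := by
    rw [hN2, hZx, hN1]
    ext i
    simp only [Finset.mem_union, Finset.mem_sdiff, Finset.mem_inter, Finset.mem_singleton,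
      Finset.mem_insert]
    constructor
    · rintro (⟨h1, -⟩ | ⟨-, h1⟩)
      · exact Or.inr h1
      · exact Or.inl h1
    · rintro (rfl | h1)
      · exact Or.inr ⟨hPl, rfl⟩
      · refine Or.inl ⟨h1, ?_⟩
        rintro rfl
        exact hxN h1
  have h1 := hmin y1 hy1.1 hy1.2
  rw [hP3, hN3] at h1
  have h2 : kap U (insert x (Neg y)) + 1 = kap U (Neg y) :=
    kap_insert_of_ne U (Neg y) x ⟨ν, hν, hZν x hx⟩
  have h3 : kap U (insert b (Pos y)) + 1 = kap U (Pos y) := by
    obtain ⟨μ, hμ, hμb⟩ := hw.pb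
    exact kap_insert_of_ne U (Pos y) b ⟨μ, hμ, hμb⟩
  have h4 := hw.sum
  have h5 : insert x ((insert b (Pos y)) \ {x}) = insert b (Pos y) := by
    ext i
    simp only [Finset.mem_insert, Finset.mem_sdiff, Finset.mem_singleton]
    constructor
    · rintro (rfl | ⟨h, -⟩)
      · exact Or.inr hxP
      · exact h
    · intro h
      by_cases hix : i = x
      · exact Or.inl hix
      · exact Or.inr ⟨h, hix⟩
  have h6 : kap U (insert x ((insert b (Pos y)) \ {x})) < kap U ((insert b (Pos y)) \ {x}) := by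
    rw [h5]
    omega
  obtain ⟨μ, hμ, hμx⟩ := exists_of_kap_lt h6
  refine ⟨x, hxP, μ, ⟨hμ.1, fun i hi => hμ.2 i ?_⟩, hμx⟩
  rw [Finset.mem_erase] at hi
  rw [Finset.mem_sdiff, Finset.mem_singleton]
  exact ⟨Finset.mem_insert_of_mem hi.2, hi.1⟩

end MPa0e17f
end

section
/-!
# CNT: the equality case
-/
set_option autoImplicit false

namespace MPa0e17f

open Finset Module

namespace CNTM

variable {ι : Type} [Fintype ι] [DecidableEq ι]

theorem inCl_of_notMem {U : Submodule ℝ (ι → ℝ)} {S : Finset ι} {i : ι} (h : i ∉ act (K U S)) :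
    InCl U S i := by
  intro μ hμ
  by_contra hc
  exact h (mem_act.2 ⟨μ, hμ, hc⟩)

theorem notMem_of_inCl {U : Submodule ℝ (ι → ℝ)} {S : Finset ι} {i : ι} (h : InCl U S i) :
    i ∉ act (K U S) := by
  intro hc
  obtain ⟨μ, hμ, h0⟩ := mem_act.1 hc
  exact h0 (h μ hμ)

end CNTM

open CNTM in
theorem specCNT (hSSS : SpecSSS) : SpecCNT := by
  classical
  intro ι _ _ k U kt y b hm hn hH1 hs hmin hktb hW
  have H1 : ∀ μ ∈ U, μ ≠ 0 → k + 2 ≤ (univ.filter (fun i => μ i ≠ 0)).card := by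
    intro μ hμ h0
    exact hH1 μ hμ h0
  have hy := hW.mem
  have hb := hW.bact
  have hyb := hW.yb
  have hy0 := hW.y0
  obtain ⟨ν, hν, hνb⟩ := hW.pb
  obtain ⟨ν', hν', hν'b⟩ := hW.qb
  have hsum := hW.sum
  obtain ⟨P, hP⟩ : ∃ P, P = Pos y := ⟨_, rfl⟩
  obtain ⟨Q, hQ⟩ : ∃ Q, Q = Neg y := ⟨_, rfl⟩
  rw [← hP] at hν hsum
  rw [← hQ] at hν' hsum
  have hyP : ∀ i, i ∈ P ↔ 0 < y i := fun i => by rw [hP]; exact mem_Pos
  have hyQ : ∀ i, i ∈ Q ↔ y i < 0 := fun i => by rw [hQ]; exact mem_Neg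
  have hPact : P ⊆ act U := fun i hi => mem_act.2 ⟨y, hy, ((hyP i).1 hi).ne'⟩
  have hQact : Q ⊆ act U := fun i hi => mem_act.2 ⟨y, hy, ((hyQ i).1 hi).ne⟩
  have hcov : ∀ i ∈ act U, i = b ∨ i ∈ P ∨ i ∈ Q := by
    intro i hi
    by_cases hib : i = b
    · exact Or.inl hib
    · right
      rw [hP, hQ]
      exact mem_Pos_or_Neg (hy0 i hi hib)
  have hkP : 1 ≤ kap U P := by
    have := kap_insert_of_ne U P b ⟨ν, hν, hνb⟩
    omega
  have hkQ : 1 ≤ kap U Q := by
    have := kap_insert_of_ne U Q b ⟨ν', hν', hν'b⟩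
    omega
  let Bp : Finset ι := P.filter (fun i => ∃ μ ∈ K U (P.erase i), μ i ≠ 0)
  let Bq : Finset ι := Q.filter (fun i => ∃ μ ∈ K U (Q.erase i), μ i ≠ 0)
  let B : Finset ι := insert b (Bp ∪ Bq)
  let C : Finset ι := act U \ (act (K U P) ∪ act (K U Q))
  have hBpm : ∀ i, i ∈ Bp ↔ Colp U P i := fun i => Finset.mem_filter
  have hBqm : ∀ i, i ∈ Bq ↔ Colp U Q i := fun i => Finset.mem_filter
  have hCm : ∀ i, i ∈ C ↔ i ∈ act U ∧ InCl U P i ∧ InCl U Q i := by
    intro i
    show i ∈ act U \ (act (K U P) ∪ act (K U Q)) ↔ _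
    rw [Finset.mem_sdiff, Finset.mem_union, not_or]
    constructor
    · rintro ⟨h1, h2, h3⟩
      exact ⟨h1, inCl_of_notMem h2, inCl_of_notMem h3⟩
    · rintro ⟨h1, h2, h3⟩
      exact ⟨h1, notMem_of_inCl h2, notMem_of_inCl h3⟩
  have hcP := card_act_ge H1 (K U P) (K_le U P) hkP
  have hcQ := card_act_ge H1 (K U Q) (K_le U Q) hkQ
  rw [← kap] at hcP hcQ
  have hInP : ∀ i ∈ P, InCl U P i := fun i hi μ hμ => hμ.2 i hi
  have hInQ : ∀ i ∈ Q, InCl U Q i := fun i hi μ hμ => hμ.2 i hi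
  have hinter : act (K U P) ∩ act (K U Q) ⊆ {b} := by
    intro i hi
    rw [Finset.mem_inter] at hi
    rcases hcov i (act_mono (K_le U P) hi.1) with h | h | h
    · exact Finset.mem_singleton.2 h
    · exact absurd hi.1 (notMem_of_inCl (hInP i h))
    · exact absurd hi.2 (notMem_of_inCl (hInQ i h))
  have hCcard : C.card + (act (K U P)).card + (act (K U Q)).card ≤ (act U).card + 1 := by
    have h1 : C.card = (act U).card - (act (K U P) ∪ act (K U Q)).card := by
      apply Finset.card_sdiff_of_subset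
      exact Finset.union_subset (act_mono (K_le U P)) (act_mono (K_le U Q))
    have h2 : (act (K U P) ∪ act (K U Q)).card ≤ (act U).card :=
      Finset.card_le_card (Finset.union_subset (act_mono (K_le U P)) (act_mono (K_le U Q)))
    have h3 := Finset.card_union_add_card_inter (act (K U P)) (act (K U Q))
    have h4 := Finset.card_le_card hinter
    rw [Finset.card_singleton] at h4
    omega
  have hBpc := kap_sdiff_coloops U P Bp (Finset.filter_subset _ _)
    (fun i hi => (Finset.mem_filter.1 hi).2)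
  have hBqc := kap_sdiff_coloops U Q Bq (Finset.filter_subset _ _)
    (fun i hi => (Finset.mem_filter.1 hi).2)
  have hBcard : B.card ≤ 1 + Bp.card + Bq.card := by
    show (insert b (Bp ∪ Bq)).card ≤ _
    have h1 := Finset.card_insert_le b (Bp ∪ Bq)
    have h2 := Finset.card_union_le Bp Bq
    omega
  have hunion := kap_union_add U (P \ Bp) (Q \ Bq)
  have hk0 : kap U ((P \ Bp) ∪ (Q \ Bq)) = 0 := by
    by_contra hne
    have h1 := card_act_ge H1 (K U ((P \ Bp) ∪ (Q \ Bq))) (K_le U _) (by rw [← kap]; omega)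
    rw [← kap] at h1
    have h2 : act (K U ((P \ Bp) ∪ (Q \ Bq))) ⊆ B := by
      intro i hi
      have hiU := act_mono (K_le U _) hi
      obtain ⟨μ, hμ, h0⟩ := mem_act.1 hi
      by_contra hiB
      have hib : i ≠ b := fun h => hiB (by rw [h]; exact Finset.mem_insert_self b _)
      have hiBp : i ∉ Bp := fun h => hiB (Finset.mem_insert_of_mem (Finset.mem_union_left _ h))
      have hiBq : i ∉ Bq := fun h => hiB (Finset.mem_insert_of_mem (Finset.mem_union_right _ h))
      apply h0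
      apply hμ.2
      rcases hcov i hiU with h | h | h
      · exact absurd h hib
      · exact Finset.mem_union_left _ (Finset.mem_sdiff.2 ⟨h, hiBp⟩)
      · exact Finset.mem_union_right _ (Finset.mem_sdiff.2 ⟨h, hiBq⟩)
    have h3 := Finset.card_le_card h2
    omega
  -- membership in `B ∪ C`
  have hBCm : ∀ i ∈ act U, (i = b ∨ Colp U P i ∨ Colp U Q i ∨ (InCl U P i ∧ InCl U Q i)) →
      i ∈ B ∪ C := by
    intro i hi h
    rcases h with h | h | h | h
    · exact Finset.mem_union_left _ (by rw [h]; exact Finset.mem_insert_self b _)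
    · exact Finset.mem_union_left _ (Finset.mem_insert_of_mem (Finset.mem_union_left _
        ((hBpm i).2 h)))
    · exact Finset.mem_union_left _ (Finset.mem_insert_of_mem (Finset.mem_union_right _
        ((hBqm i).2 h)))
    · exact Finset.mem_union_right _ ((hCm i).2 ⟨hi, h⟩)
  have hBCm' : ∀ i ∈ B ∪ C, i ∈ act U ∧
      (i = b ∨ Colp U P i ∨ Colp U Q i ∨ (InCl U P i ∧ InCl U Q i)) := by
    intro i hi
    rcases Finset.mem_union.1 hi with h | h
    · rcases Finset.mem_insert.1 h with h | h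
      · exact ⟨by rw [h]; exact hb, Or.inl h⟩
      · rcases Finset.mem_union.1 h with h | h
        · exact ⟨hPact ((hBpm i).1 h).1, Or.inr (Or.inl ((hBpm i).1 h))⟩
        · exact ⟨hQact ((hBqm i).1 h).1, Or.inr (Or.inr (Or.inl ((hBqm i).1 h)))⟩
    · have h2 := (hCm i).1 h
      exact ⟨h2.1, Or.inr (Or.inr (Or.inr h2.2))⟩
  -- (a)
  have hzero : ∀ u ∈ U, (∀ i ∈ B ∪ C, u i = 0) → u = 0 := by
    intro u hu hu0
    by_contra hne
    obtain ⟨i, hi⟩ : ∃ i, u i ≠ 0 := by
      by_contra hcon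
      push Not at hcon
      exact hne (funext hcon)
    have hia : i ∈ act U := mem_act.2 ⟨u, hu, hi⟩
    have hib : i ≠ b := by
      rintro rfl
      exact hi (hu0 i (Finset.mem_union_left _ (Finset.mem_insert_self i _)))
    have hyi := hy0 i hia hib
    have hub : u b = 0 := hu0 b (Finset.mem_union_left _ (Finset.mem_insert_self b _))
    have hz := hSSS ι U kt y b hs hmin hW (y + (-2 * y i / u i) • u)
      (U.add_mem hy (U.smul_mem _ hu)) (by simp [hyb, hub]) (by
        intro j hj h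
        rw [← hP, ← hQ] at h
        have huj : u j = 0 := hu0 j (hBCm j hj (Or.inr h))
        have hyj : y j ≠ 0 := by
          refine hy0 j hj ?_
          rintro rfl
          rcases h with h | h | h
          · have := (hyP j).1 h.1
            linarith
          · have := (hyQ j).1 h.1
            linarith
          · exact hνb (h.1 ν hν)
        simp only [Pi.add_apply, Pi.smul_apply, huj, smul_zero, add_zero]
        exact mul_self_pos.2 hyj) i hia hib
    simp only [Pi.add_apply, Pi.smul_apply, smul_eq_mul] at hz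
    have h1 : y i + -2 * y i / u i * u i = -y i := by
      field_simp
      ring
    rw [h1] at hz
    have h2 := mul_self_pos.2 hyi
    linarith
  have hBC0 : kap U (B ∪ C) = 0 := by
    rw [kap, Submodule.finrank_eq_zero, Submodule.eq_bot_iff]
    intro u hu
    exact hzero u hu.1 hu.2
  have hcard1 := finrank_le_kap_add_card U (B ∪ C)
  have hcard2 := Finset.card_union_add_card_inter B C
  -- all the equalities
  have e1 : kt + k = finrank ℝ U := by omega
  have e2 : (B ∩ C).card = 0 := by omega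
  have e3 : (B ∪ C).card = finrank ℝ U := by omega
  have e4 : 1 ≤ C.card := by omega
  have e5 : (act (K U P)).card = kap U P + k + 1 := by omega
  have e6 : (act (K U Q)).card = kap U Q + k + 1 := by omega
  have e7 : kap U (P \ Bp) + kap U (Q \ Bq) = finrank ℝ U := by omega
  have hdisj : ∀ i, i ∈ B → i ∉ C := by
    intro i h1 h2
    have : i ∈ B ∩ C := Finset.mem_inter.2 ⟨h1, h2⟩
    rw [Finset.card_eq_zero.1 e2] at this
    exact absurd this (Finset.notMem_empty i)
  refine ⟨hW, e1, ?_, ?_, ?_, ?_, ?_, ?_, ?_, ?_⟩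
  · intro i hi h
    rw [← hP] at hi
    rw [← hQ] at h
    exact hdisj i (Finset.mem_insert_of_mem (Finset.mem_union_left _ ((hBpm i).2 hi)))
      ((hCm i).2 ⟨hPact hi.1, hInP i hi.1, h⟩)
  · intro i hi h
    rw [← hQ] at hi
    rw [← hP] at h
    exact hdisj i (Finset.mem_insert_of_mem (Finset.mem_union_right _ ((hBqm i).2 hi)))
      ((hCm i).2 ⟨hQact hi.1, h, hInQ i hi.1⟩)
  · intro g
    let f : U →ₗ[ℝ] ((B ∪ C : Finset ι) → ℝ) :=
      { toFun := fun μ i => (μ : ι → ℝ) i
        map_add' := fun μ ν => rfl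
        map_smul' := fun c μ => rfl }
    have hinj : Function.Injective f := by
      rw [injective_iff_map_eq_zero]
      intro μ hμ
      apply Subtype.ext
      exact hzero μ μ.2 fun i hi => congrFun hμ ⟨i, hi⟩
    have hfr : finrank ℝ U = finrank ℝ ((B ∪ C : Finset ι) → ℝ) := by
      rw [Module.finrank_fintype_fun_eq_card, Fintype.card_coe, e3]
    have hsurj := (LinearMap.injective_iff_surjective_of_finrank_eq_finrank hfr).1 hinj
    obtain ⟨μ, hμ⟩ := hsurj fun i => g i
    refine ⟨μ, μ.2, fun i hi h => ?_⟩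
    rw [← hP, ← hQ] at h
    exact congrFun hμ ⟨i, hBCm i hi h⟩
  · intro μ hμ h
    rw [← hP, ← hQ] at h
    exact hzero μ hμ fun i hi => h i (hBCm' i hi).1 (hBCm' i hi).2
  · rw [← hP, ← hQ]
    obtain ⟨c, hc⟩ := Finset.card_pos.1 (show 0 < C.card by omega)
    exact ⟨c, (hCm c).1 hc⟩
  · rw [← hP]
    exact e5
  · rw [← hQ]
    exact e6
  · rintro i hi ⟨h1, h2⟩
    rw [← hP] at h1
    rw [← hQ] at h2
    have hsup := Submodule.finrank_sup_add_finrank_inf_eq (K U (P \ Bp)) (K U (Q \ Bq))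
    have hinf : K U (P \ Bp) ⊓ K U (Q \ Bq) = K U ((P \ Bp) ∪ (Q \ Bq)) := by
      ext μ
      simp only [Submodule.mem_inf, mem_K, Finset.mem_union]
      constructor
      · rintro ⟨⟨h1, h2⟩, _, h3⟩
        exact ⟨h1, fun i hi => hi.elim (h2 i) (h3 i)⟩
      · rintro ⟨h1, h2⟩
        exact ⟨⟨h1, fun i hi => h2 i (Or.inl hi)⟩, h1, fun i hi => h2 i (Or.inr hi)⟩
    rw [hinf] at hsup
    simp only [kap] at hk0 e7
    rw [hk0, e7, add_zero] at hsup
    have heq : K U (P \ Bp) ⊔ K U (Q \ Bq) = U :=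
      Submodule.eq_of_le_of_finrank_eq (sup_le (K_le U _) (K_le U _)) hsup
    obtain ⟨μ, hμ, h0⟩ := mem_act.1 hi
    rw [← heq] at hμ
    obtain ⟨μ1, hμ1, μ2, hμ2, rfl⟩ := Submodule.mem_sup.1 hμ
    apply h0
    have g1 : μ1 i = 0 := h1 μ1 hμ1.1 fun j hj hc => hμ1.2 j (Finset.mem_sdiff.2
      ⟨hj, fun h => hc ((hBpm j).1 h)⟩)
    have g2 : μ2 i = 0 := h2 μ2 hμ2.1 fun j hj hc => hμ2.2 j (Finset.mem_sdiff.2
      ⟨hj, fun h => hc ((hBqm j).1 h)⟩)
    rw [Pi.add_apply, g1, g2, add_zero]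

end MPa0e17f
end

section
/-!
# Module FLP: an element of `C` on the negative side can be moved to the positive side
-/
set_option autoImplicit false

namespace MPa0e17f

open Finset Module

theorem specFLP (hSSS : SpecSSS) : SpecFLP := by
  classical
  intro ι _ _ k U kt y b hs hmin hE c hc hcl
  have hW := hE.wall
  have hyU := hW.mem
  have hyc : y c < 0 := mem_Neg.1 hc
  have hca : c ∈ act U := mem_act.2 ⟨y, hyU, hyc.ne⟩
  have hcb : c ≠ b := by
    rintro rfl
    exact hyc.ne hW.yb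
  have hcq : ¬ Colp U (Neg y) c := fun h => hE.cq c h hcl
  have hclQ : InCl U (Neg y) c := fun μ hμ => hμ.2 c hc
  -- the dual basis element of `c`
  obtain ⟨e, he, heg⟩ := hE.basis fun i => if i = c then 1 else 0
  have heb : e b = 0 := by
    rw [heg b hW.bact (Or.inl rfl), if_neg hcb.symm]
  have hec : e c = 1 := by
    rw [heg c hca (Or.inr (Or.inr (Or.inr ⟨hcl, hclQ⟩))), if_pos rfl]
  have hyK : y ∈ K U {b} := ⟨hyU, fun i hi => by rw [Finset.mem_singleton.1 hi]; exact hW.yb⟩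
  obtain ⟨ν, hν, hνb⟩ := hW.pb
  obtain ⟨ν', hν', hνb'⟩ := hW.qb
  have hνc : ν ∈ K U (insert c (Pos y)) := by
    refine ⟨hν.1, fun i hi => ?_⟩
    rcases Finset.mem_insert.1 hi with rfl | hi
    · exact hcl ν hν
    · exact hν.2 i hi
  -- a generic element with the same signs
  obtain ⟨y', hy', hp, hn, hg⟩ := perturb (K U {b}) hyK
    ((act U).filter fun j => j ≠ b ∧ j ≠ c)
    (fun j => LinearMap.proj j - e j • LinearMap.proj c) (by
      intro j hj
      obtain ⟨hja, hjb, hjc⟩ := Finset.mem_filter.1 hj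
      by_contra hcon
      push Not at hcon
      have h1 : ∀ w ∈ K U {b}, w j * e c = w c * e j := by
        intro w hw
        have h2 := hcon w hw
        simp only [LinearMap.sub_apply, LinearMap.smul_apply, LinearMap.proj_apply,
          smul_eq_mul] at h2
        rw [hec]
        linarith
      rcases lt_or_gt_of_ne (hW.y0 j hja hjb) with h | h
      · exact hjc (no_two hs hν' hνb' (mem_Neg.2 h) hc (by rw [hec]; exact one_ne_zero)
          hja hca h1)
      · exact hjc (no_two hs hνc hνb (Finset.mem_insert_of_mem (mem_Pos.2 h))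
          (Finset.mem_insert_self _ _) (by rw [hec]; exact one_ne_zero) hja hca h1))
  have hyb' : y' b = 0 := hy'.2 b (Finset.mem_singleton_self b)
  have hyc' : y' c < 0 := hn c hyc
  have hgen : ∀ j ∈ act U, j ≠ b → j ≠ c → y' j - e j * y' c ≠ 0 := by
    intro j hja hjb hjc
    have h1 := hg j (Finset.mem_filter.2 ⟨hja, hjb, hjc⟩)
    simpa only [LinearMap.sub_apply, LinearMap.smul_apply, LinearMap.proj_apply,
      smul_eq_mul] using h1
  have hsg : ∀ i, y i ≠ 0 → 0 < y i * y' i := by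
    intro i hi
    rcases lt_or_gt_of_ne hi with h | h
    · exact mul_pos_of_neg_of_neg h (hn i h)
    · exact mul_pos h (hp i h)
  -- the segment before the crossing
  have hseg : ∀ s : ℝ, 0 ≤ s → s < - y' c → ∀ i ∈ act U, i ≠ b → 0 < y i * (y' i + s * e i) := by
    intro s hs0 hs1
    have h1 := hSSS ι U kt y b hs hmin hW (y' + s • e) (U.add_mem hy'.1 (U.smul_mem _ he))
      (by simp [hyb', heb]) (by
        intro i hia hi
        have hib : i ≠ b := by
          rintro rfl
          rcases hi with hi | hi | hi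
          · exact (mem_Pos.1 hi.1).ne' hW.yb
          · exact (mem_Neg.1 hi.1).ne hW.yb
          · exact hνb (hi.1 ν hν)
        have hyi := hW.y0 i hia hib
        by_cases hic : i = c
        · subst hic
          have h2 : (y' + s • e) i = y' i + s := by simp [hec]
          rw [h2]
          exact mul_pos_of_neg_of_neg hyc (by linarith)
        · have h3 : e i = 0 := by
            rw [heg i hia (Or.inr hi), if_neg hic]
          have h2 : (y' + s • e) i = y' i := by simp [h3]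
          rw [h2]
          exact hsg i hyi)
    intro i hia hib
    have h2 := h1 i hia hib
    simpa using h2
  -- at the crossing
  set s0 : ℝ := - y' c with hs0
  have hs0p : 0 < s0 := by linarith
  set z : ι → ℝ := y' + s0 • e with hz
  have hzU : z ∈ U := U.add_mem hy'.1 (U.smul_mem _ he)
  have hzi : ∀ i, z i = y' i + s0 * e i := fun i => by simp [hz]
  have hzb : z b = 0 := by rw [hzi, hyb', heb, mul_zero, add_zero]
  have hzc : z c = 0 := by rw [hzi, hec, mul_one, hs0]; ring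
  have hzs : ∀ i ∈ act U, i ≠ b → i ≠ c → 0 < y i * z i := by
    intro i hia hib hic
    have hyi := hW.y0 i hia hib
    have hne : z i ≠ 0 := by
      have h1 := hgen i hia hib hic
      rw [hzi, hs0]
      intro h2
      apply h1
      linarith
    have ha := hsg i hyi
    by_contra hneg
    have hv : y i * z i < 0 := by
      rcases lt_or_gt_of_ne (mul_ne_zero hyi hne) with h | h
      · exact h
      · exact absurd h hneg
    set a : ℝ := y i * y' i with hadef
    set v : ℝ := y i * z i with hvdef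
    have hav : 0 < a - v := by linarith
    have h3 : y i * (y' i + (s0 * (a / (a - v))) * e i) = 0 := by
      have h4 : y i * (s0 * e i) = v - a := by
        rw [hvdef, hadef, hzi]
        ring
      calc y i * (y' i + (s0 * (a / (a - v))) * e i)
          = a + (a / (a - v)) * (y i * (s0 * e i)) := by rw [hadef]; ring
        _ = a + (a / (a - v)) * (v - a) := by rw [h4]
        _ = 0 := by
            field_simp
            ring
    have h5 := hseg (s0 * (a / (a - v))) (by positivity) (by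
      have h6 : a / (a - v) < 1 := by
        rw [div_lt_one hav]
        linarith
      calc s0 * (a / (a - v)) < s0 * 1 := mul_lt_mul_of_pos_left h6 hs0p
        _ = - y' c := by rw [mul_one, hs0]) i hia hib
    rw [h3] at h5
    exact lt_irrefl _ h5
  have hz0 : ∀ i, y i = 0 → z i = 0 := by
    intro i hi
    by_cases hib : i = b
    · rw [hib]; exact hzb
    · by_contra hne
      exact hW.y0 i (mem_act.2 ⟨z, hzU, hne⟩) hib hi
  have hact : ∀ i, y i ≠ 0 → i ∈ act U := fun i hi => mem_act.2 ⟨y, hyU, hi⟩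
  have hPz : Pos z = Pos y := by
    ext i
    rw [mem_Pos, mem_Pos]
    constructor
    · intro h
      have hyi : y i ≠ 0 := fun h0 => h.ne' (hz0 i h0)
      have hib : i ≠ b := by
        rintro rfl
        exact hyi hW.yb
      have hic : i ≠ c := by
        rintro rfl
        exact h.ne' hzc
      have := hzs i (hact i hyi) hib hic
      exact (pos_iff_pos_of_mul_pos this).2 h
    · intro h
      have hib : i ≠ b := by
        rintro rfl
        exact h.ne' hW.yb
      have hic : i ≠ c := by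
        rintro rfl
        exact lt_asymm h hyc
      have := hzs i (hact i h.ne') hib hic
      exact (pos_iff_pos_of_mul_pos this).1 h
  have hNz : Neg z = (Neg y).erase c := by
    ext i
    rw [mem_Neg, Finset.mem_erase, mem_Neg]
    constructor
    · intro h
      have hyi : y i ≠ 0 := fun h0 => h.ne (hz0 i h0)
      have hib : i ≠ b := by
        rintro rfl
        exact hyi hW.yb
      have hic : i ≠ c := by
        rintro rfl
        exact h.ne hzc
      have := hzs i (hact i hyi) hib hic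
      exact ⟨hic, (neg_iff_neg_of_mul_pos this).2 h⟩
    · rintro ⟨hic, h⟩
      have hib : i ≠ b := by
        rintro rfl
        exact h.ne hW.yb
      have := hzs i (hact i h.ne) hib hic
      exact (neg_iff_neg_of_mul_pos this).1 h
  obtain ⟨ε, hε, h1, h2⟩ := nudge z e
  have hzero : ∀ i, z i = 0 → i ≠ c → e i = 0 := by
    intro i hi hic
    by_contra hne
    have hia : i ∈ act U := mem_act.2 ⟨e, he, hne⟩
    have hib : i ≠ b := by
      rintro rfl
      exact hne heb
    have := hzs i hia hib hic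
    rw [hi, mul_zero] at this
    exact lt_irrefl _ this
  have hP : Pos (z + ε • e) = insert c (Pos y) := by
    rw [h1, hPz]
    ext i
    simp only [Finset.mem_union, Finset.mem_sdiff, Finset.mem_insert]
    constructor
    · rintro (h | ⟨h, h'⟩)
      · exact Or.inr h
      · by_cases hic : i = c
        · exact Or.inl hic
        · right
          rcases lt_trichotomy (z i) 0 with h3 | h3 | h3
          · exact absurd (mem_Neg.2 h3) h'
          · rw [mem_Pos, hzero i h3 hic] at h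
            exact absurd h (lt_irrefl _)
          · rw [← hPz]
            exact mem_Pos.2 h3
    · rintro (rfl | h)
      · right
        refine ⟨mem_Pos.2 (by rw [hec]; exact one_pos), fun h => ?_⟩
        exact (mem_Neg.1 h).ne hzc
      · exact Or.inl h
  have hN : Neg (z + ε • e) = (Neg y).erase c := by
    rw [h2, hNz]
    ext i
    simp only [Finset.mem_union, Finset.mem_sdiff]
    constructor
    · rintro (h | ⟨h, h'⟩)
      · exact h
      · have hic : i ≠ c := by
          rintro rfl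
          rw [mem_Neg, hec] at h
          linarith
        rw [← hNz]
        rcases lt_trichotomy (z i) 0 with h3 | h3 | h3
        · exact mem_Neg.2 h3
        · rw [mem_Neg, hzero i h3 hic] at h
          exact absurd h (lt_irrefl _)
        · exact absurd (mem_Pos.2 h3) h'
    · intro h
      exact Or.inl h
  have hKP : K U (insert c (Pos y)) = K U (Pos y) := by
    refine le_antisymm (K_anti U (Finset.subset_insert _ _)) ?_
    intro μ hμ
    refine ⟨hμ.1, fun i hi => ?_⟩
    rcases Finset.mem_insert.1 hi with rfl | hi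
    · exact hcl μ hμ
    · exact hμ.2 i hi
  have hKQ : K U ((Neg y).erase c) = K U (Neg y) := by
    refine le_antisymm ?_ (K_anti U (Finset.erase_subset _ _))
    intro μ hμ
    refine ⟨hμ.1, fun i hi => ?_⟩
    by_cases hic : i = c
    · subst hic
      by_contra hne
      exact hcq ⟨hc, μ, hμ, hne⟩
    · exact hμ.2 i (Finset.mem_erase.2 ⟨hic, hi⟩)
  refine ⟨z + ε • e, ?_, hP, hN⟩
  refine ⟨U.add_mem hzU (U.smul_mem _ he), hW.bact, by simp [hzb, heb], ?_, ?_, ?_, ?_⟩
  · intro i hia hib h0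
    rcases lt_or_gt_of_ne (hW.y0 i hia hib) with h | h
    · by_cases hic : i = c
      · have h3 : i ∈ Pos (z + ε • e) := by rw [hP, hic]; exact Finset.mem_insert_self _ _
        exact (mem_Pos.1 h3).ne' h0
      · have h3 : i ∈ Neg (z + ε • e) := by
          rw [hN]
          exact Finset.mem_erase.2 ⟨hic, mem_Neg.2 h⟩
        exact (mem_Neg.1 h3).ne h0
    · have h3 : i ∈ Pos (z + ε • e) := by
        rw [hP]
        exact Finset.mem_insert_of_mem (mem_Pos.2 h)
      exact (mem_Pos.1 h3).ne' h0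
  · rw [hP]
    exact ⟨ν, hνc, hνb⟩
  · rw [hN]
    exact ⟨ν', K_anti U (Finset.erase_subset _ _) hν', hνb'⟩
  · rw [hP, hN, kap, hKP, kap, hKQ]
    exact hW.sum

end MPa0e17f
end

section
/-!
# GRW: growth of an independent negative side
-/
set_option autoImplicit false

namespace MPa0e17f

open Finset Module

theorem specGRW (hSTP : SpecSTP) : SpecGRW := by
  intro ι _ _ W c hHC hc hs y hy hcy hk
  obtain ⟨n, hn⟩ : ∃ n, kap W (Neg y) = n := ⟨_, rfl⟩
  induction n generalizing y with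
  | zero => exact ⟨y, hy, hcy, Finset.Subset.refl _, by omega, hn⟩
  | succ n ih =>
    obtain ⟨φ0, hφ0, hφ0n⟩ : ∃ φ ∈ K W (Neg y), φ ≠ 0 := by
      apply Submodule.exists_mem_ne_zero_of_ne_bot
      intro h0
      rw [kap, h0, finrank_bot] at hn
      omega
    obtain ⟨φ, hφ, hφn, hφc⟩ : ∃ φ ∈ K W (Neg y), φ ≠ 0 ∧ ∀ i ∈ c, 0 ≤ φ i := by
      by_cases h : ∀ i ∈ c, 0 ≤ φ0 i
      · exact ⟨φ0, hφ0, hφ0n, h⟩
      · push Not at h
        obtain ⟨i, hi, hi0⟩ := h
        refine ⟨-φ0, (K W (Neg y)).neg_mem hφ0, neg_ne_zero.2 hφ0n, fun j hj => ?_⟩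
        obtain ⟨α, hα, h1⟩ := hc j hj i hi
        have h2 := h1 φ0 hφ0.1
        rw [Pi.neg_apply, h2]
        nlinarith
    obtain ⟨i0, hi0⟩ := hHC φ hφ.1 hφn
    have hpos : ∀ i, φ i ≠ 0 → 0 < y i := by
      intro i hi
      have h1 : i ∈ act W := mem_act.2 ⟨φ, hφ.1, hi⟩
      have h2 := hy.2 i h1
      rcases lt_or_gt_of_ne h2 with h | h
      · exact absurd (hφ.2 i (mem_Neg.2 h)) hi
      · exact h
    obtain ⟨Z, hZ, -, hZ2, hZ3, -, -, y1, hy1, hP, hN⟩ := hSTP ι W y φ hy hφ.1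
      ⟨i0, mul_neg_of_pos_of_neg (hpos i0 hi0.ne) hi0⟩
    have hZφ : ∀ i ∈ Z, φ i ≠ 0 := by
      intro i hi h
      have := hZ2 i hi
      rw [h, mul_zero] at this
      exact lt_irrefl _ this
    have hZneg : ∀ i ∈ Z, φ i < 0 := by
      intro i hi
      have h1 := hpos i (hZφ i hi)
      have h2 := hZ2 i hi
      by_contra h
      push Not at h
      nlinarith
    have hZc : ∀ i ∈ Z, i ∉ c := fun i hi hic => absurd (hφc i hic) (not_le.2 (hZneg i hi))
    have hZact : ∀ i ∈ Z, i ∈ act W := fun i hi => mem_act.2 ⟨φ, hφ.1, hZφ i hi⟩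
    obtain ⟨x, hx⟩ := hZ
    have hZx : Z = {x} := by
      apply Finset.eq_singleton_iff_unique_mem.2
      refine ⟨hx, fun j hj => ?_⟩
      by_contra hne
      exact hs j (hZact j hj) (hZc j hj) x (hZact x hx) hne (hZ3 j hj x hx)
    have hxN : x ∉ Neg y := fun h => (hZφ x hx) (hφ.2 x h)
    have hxP : x ∈ Pos y := mem_Pos.2 (hpos x (hZφ x hx))
    have hN1 : Neg y1 = insert x (Neg y) := by
      rw [hN, hZx]
      ext i
      simp only [Finset.mem_union, Finset.mem_sdiff, Finset.mem_inter, Finset.mem_singleton,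
        Finset.mem_insert]
      constructor
      · rintro (⟨h1, -⟩ | ⟨-, h1⟩)
        · exact Or.inr h1
        · exact Or.inl h1
      · rintro (rfl | h1)
        · exact Or.inr ⟨hxP, rfl⟩
        · refine Or.inl ⟨h1, ?_⟩
          rintro rfl
          exact hxN h1
    have hk1 : kap W (insert x (Neg y)) + 1 = kap W (Neg y) :=
      kap_insert_of_ne W (Neg y) x ⟨φ, hφ, hZφ x hx⟩
    obtain ⟨y', h1, h2, h3, h4, h5⟩ := ih y1 hy1 (by
      intro i hi
      rw [hP, hZx, Finset.mem_union, Finset.mem_sdiff, Finset.mem_singleton]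
      left
      refine ⟨hcy hi, ?_⟩
      rintro rfl
      exact hZc i hx hi) (by
      rw [hN1, Finset.card_insert_of_notMem hxN]
      omega) (by
      rw [hN1]
      omega)
    refine ⟨y', h1, h2, ?_, h4, h5⟩
    refine Finset.Subset.trans ?_ h3
    rw [hN1]
    exact Finset.subset_insert _ _

end MPa0e17f
end

section
/-!
# ONE: one heavy class (assembly)
-/
set_option autoImplicit false

namespace MPa0e17f

open Finset Module

theorem specONE (hPJM : SpecPJM) (hPCQ : SpecPCQ) : SpecONE := by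
  intro ι _ _ k U c1 c2 hO
  by_contra hg
  rcases hPJM ι k U c1 c2 hO with h | ⟨y', hy', hp, hn⟩
  · exact hg h
  · exact hPCQ ι k U c1 c2 hO hg y' hy' hp hn

end MPa0e17f
end

section
/-!
# PCP: balanced topes of the contraction of the heavy class (one heavy class)
-/
set_option autoImplicit false
set_option linter.unusedSectionVars false

namespace MPa0e17f

open Finset Module

namespace PCPM

variable {ι : Type} [Fintype ι] [DecidableEq ι]

/-- the standing assumptions -/
structure Ctx (k : ℕ) (U : Submodule ℝ (ι → ℝ)) (c1 c2 : ι) (y : ι → ℝ) : Prop where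
  hO : OneP k U c1 c2
  hng : ¬ Good k U
  hy : NZ (K U {c1}) y
  hP : (Pos y).card = k + 1
  hN : (Neg y).card = k + 1

lemma Ctx.neg {k : ℕ} {U : Submodule ℝ (ι → ℝ)} {c1 c2 : ι} {y : ι → ℝ}
    (h : Ctx k U c1 c2 y) : Ctx k U c1 c2 (-y) where
  hO := h.hO
  hng := h.hng
  hy := ⟨Submodule.neg_mem _ h.hy.1, fun i hi => by simpa using h.hy.2 i hi⟩
  hP := by rw [Pos_neg]; exact h.hN
  hN := by rw [Neg_neg]; exact h.hP

/-- a point with independent negative side and all zeros pushed to the positive side -/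
lemma good_of_neg (hTLK : SpecTLK) (hSTR : SpecSTR) {k : ℕ} {U : Submodule ℝ (ι → ℝ)} {c1 c2 : ι}
    (hO : OneP k U c1 c2) {t s : ι → ℝ} (ht : t ∈ U) (hs : s ∈ U)
    (hz : ∀ i ∈ act U, t i = 0 → 0 < s i)
    (hk : kap U (Neg t) + (Neg t).card = k + 1) : Good k U := by
  obtain ⟨-, -, -, -, -, -, -, t8, -, -⟩ := hTLK ι U
  obtain ⟨y, hy, -, hyN⟩ := t8 t ht s hs (fun i hi h0 => (hz i hi h0).ne')
  have hN : Neg y = Neg t := by
    ext i
    rw [hyN, mem_Neg]
    constructor
    · rintro (h | ⟨h1, h2⟩)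
      · exact h
      · exact absurd (hz i (mem_act.2 ⟨s, hs, h2.ne⟩) h1) (not_lt.2 h2.le)
    · exact Or.inl
  exact hSTR ι k U c1 c2 hO y hy (by rw [hN]; exact hk)

lemma dimW {k : ℕ} {U : Submodule ℝ (ι → ℝ)} {c1 c2 : ι} (h : OneP k U c1 c2) :
    finrank ℝ (K U {c1}) = k := by
  have h1 := finrank_K_singleton h.h1
  have h2 := h.bas.dim
  omega

lemma mem_W (hTLK : SpecTLK) {k : ℕ} {U : Submodule ℝ (ι → ℝ)} {c1 c2 : ι}
    (h : OneP k U c1 c2) (i : ι) : i ∈ act (K U {c1}) ↔ i ∈ act U ∧ i ≠ c1 ∧ i ≠ c2 := by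
  obtain ⟨-, t2, -⟩ := hTLK ι U
  rw [t2 i c1 h.h1]
  constructor
  · rintro ⟨h1, h2⟩
    refine ⟨h1, ?_, ?_⟩
    · rintro rfl
      exact h2 ⟨1, fun μ _ => by rw [one_mul]⟩
    · rintro rfl
      obtain ⟨α, -, hα⟩ := h.par
      exact h2 ⟨α, hα⟩
  · rintro ⟨h1, h2, h3⟩
    exact ⟨h1, h.oth i h1 c1 h.h1 h2 h2 h3⟩

lemma cardW (hTLK : SpecTLK) {k : ℕ} {U : Submodule ℝ (ι → ℝ)} {c1 c2 : ι}
    (h : OneP k U c1 c2) : (act (K U {c1})).card = 2 * k + 2 := by
  have h1 : act (K U {c1}) = ((act U).erase c1).erase c2 := by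
    ext i
    rw [mem_W hTLK h, Finset.mem_erase, Finset.mem_erase]
    tauto
  rw [h1, Finset.card_erase_of_mem (Finset.mem_erase.2 ⟨h.ne.symm, h.h2⟩),
    Finset.card_erase_of_mem h.h1, h.bas.card]
  omega

/-- a nowhere zero element which is positive on the heavy class -/
lemma exists_s (hTLK : SpecTLK) {k : ℕ} {U : Submodule ℝ (ι → ℝ)} {c1 c2 : ι}
    (h : OneP k U c1 c2) : ∃ s, NZ U s ∧ 0 < s c1 ∧ 0 < s c2 := by
  obtain ⟨-, -, -, -, t5, ⟨s, hs⟩, -⟩ := hTLK ι U
  obtain ⟨α, hα, hc⟩ := h.par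
  rcases lt_or_gt_of_ne (hs.2 c1 h.h1) with h4 | h4
  · have h5 := (t5 s hs).2.2.2
    have h6 : 0 < (-s) c1 := by simpa using h4
    exact ⟨-s, h5, h6, by rw [hc _ h5.1]; exact mul_pos hα h6⟩
  · exact ⟨s, hs, h4, by rw [hc _ hs.1]; exact mul_pos hα h4⟩

/-- the zeros of a tope of `K U {c1}` -/
lemma zeros (hTLK : SpecTLK) {k : ℕ} {U : Submodule ℝ (ι → ℝ)} {c1 c2 : ι}
    (h : OneP k U c1 c2) {y : ι → ℝ} (hy : NZ (K U {c1}) y) {i : ι} (hi : i ∈ act U)
    (h0 : y i = 0) : i = c1 ∨ i = c2 := by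
  by_contra hc
  push Not at hc
  exact hy.2 i ((mem_W hTLK h i).2 ⟨hi, hc.1, hc.2⟩) h0

lemma y_c1 {U : Submodule ℝ (ι → ℝ)} {c1 : ι} {y : ι → ℝ} (hy : y ∈ K U {c1}) : y c1 = 0 :=
  hy.2 c1 (Finset.mem_singleton_self c1)

lemma y_c2 {k : ℕ} {U : Submodule ℝ (ι → ℝ)} {c1 c2 : ι}
    (h : OneP k U c1 c2) {y : ι → ℝ} (hy : y ∈ K U {c1}) : y c2 = 0 := by
  obtain ⟨α, -, hc⟩ := h.par
  rw [hc y hy.1, y_c1 hy, mul_zero]

/-- few zeros -/
lemma few (hTLK : SpecTLK) {k : ℕ} {U : Submodule ℝ (ι → ℝ)} {c1 c2 : ι}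
    (h : OneP k U c1 c2) {S : Finset ι} (hS : S ⊆ act (K U {c1})) (hk : k + 1 ≤ S.card) :
    kap U (insert c1 S) = 0 := by
  obtain ⟨t1, -⟩ := hTLK ι (K U {c1})
  have h1 : kap (K U {c1}) S = 0 := by
    refine t1 k S (fun μ hμ => h.bas.hs μ hμ.1) hS ?_
    rw [cardW hTLK h]
    omega
  rw [kap, K_K, ← Finset.insert_eq] at h1
  exact h1

lemma kapN0 (hTLK : SpecTLK) {k : ℕ} {U : Submodule ℝ (ι → ℝ)} {c1 c2 : ι} {y : ι → ℝ}
    (h : Ctx k U c1 c2 y) : kap U (insert c1 (Neg y)) = 0 :=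
  few hTLK h.hO (Neg_subset_act h.hy.1) (by rw [h.hN])

lemma kapP0 (hTLK : SpecTLK) {k : ℕ} {U : Submodule ℝ (ι → ℝ)} {c1 c2 : ι} {y : ι → ℝ}
    (h : Ctx k U c1 c2 y) : kap U (insert c1 (Pos y)) = 0 :=
  few hTLK h.hO (Pos_subset_act h.hy.1) (by rw [h.hP])

/-- the kernel of the negative side has dimension one -/
lemma kapN (hTLK : SpecTLK) {k : ℕ} {U : Submodule ℝ (ι → ℝ)} {c1 c2 : ι} {y : ι → ℝ}
    (h : Ctx k U c1 c2 y) : kap U (Neg y) = 1 := by
  have h1 := kap_le_insert U (Neg y) c1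
  rw [kapN0 hTLK h] at h1
  by_contra hne
  have h2 : kap U (Neg y) = 0 := by omega
  obtain ⟨s, hs, hs1, -⟩ := exists_s hTLK h.hO
  refine h.hng (finish h.hy.1.1 hs.1 (fun w hw _ => hs.2 w hw) (A := insert c1 (Pos y))
    (B := Neg y) ?_ ?_ (by rw [kapP0 hTLK h, h2, h.hO.bas.dim]; omega))
  · intro w hw
    rcases Finset.mem_insert.1 hw with rfl | hw
    · exact Or.inr ⟨y_c1 h.hy.1, hs1⟩
    · exact Or.inl (mem_Pos.1 hw)
  · intro w hw
    exact Or.inl (mem_Neg.1 hw)

/-- removing an element which is no coloop does not change the kernel -/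
lemma K_erase {U : Submodule ℝ (ι → ℝ)} {S : Finset ι} {x : ι} (hx : x ∈ S)
    (h : ¬ Colp U S x) : K U (S.erase x) = K U S := by
  apply le_antisymm
  · intro μ hμ
    refine ⟨hμ.1, fun i hi => ?_⟩
    by_cases hix : i = x
    · subst hix
      by_contra h0
      exact h ⟨hx, μ, hμ, h0⟩
    · exact hμ.2 i (Finset.mem_erase.2 ⟨hix, hi⟩)
  · exact K_anti U (Finset.erase_subset x S)

lemma kap_erase (hTLK : SpecTLK) {k : ℕ} {U : Submodule ℝ (ι → ℝ)} {c1 c2 : ι} {y : ι → ℝ}
    (h : Ctx k U c1 c2 y) {x : ι} (hx : x ∈ Neg y) (hxc : ¬ Colp U (Neg y) x) :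
    kap U ((Neg y).erase x) + ((Neg y).erase x).card = k + 1 := by
  rw [kap, K_erase hx hxc, ← kap, kapN hTLK h, Finset.card_erase_of_mem hx, h.hN]
  omega

/-- case (a) -/
lemma single (hTLK : SpecTLK) (hSTR : SpecSTR) {k : ℕ} {U : Submodule ℝ (ι → ℝ)} {c1 c2 : ι}
    {y : ι → ℝ} (h : Ctx k U c1 c2 y) {x : ι} (hx : x ∈ Neg y) (hxc : ¬ Colp U (Neg y) x)
    {y1 : ι → ℝ} (hy1 : NZ (K U {c1}) y1) (hN1 : Neg y1 = (Neg y).erase x) : False := by
  obtain ⟨s, hs, hs1, hs2⟩ := exists_s hTLK h.hO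
  refine h.hng (good_of_neg hTLK hSTR h.hO hy1.1.1 hs.1 ?_ ?_)
  · intro i hi h0
    rcases zeros hTLK h.hO hy1 hi h0 with rfl | rfl
    · exact hs1
    · exact hs2
  · rw [hN1]
    exact kap_erase hTLK h hx hxc

/-- case (c) -/
lemma pair (hUNI : SpecUNI) (hTLK : SpecTLK) (hSTR : SpecSTR) {k : ℕ}
    {U : Submodule ℝ (ι → ℝ)} {c1 c2 : ι}
    {y : ι → ℝ} (h : Ctx k U c1 c2 y) {i j : ι} (hi : i ∈ Neg y) (hj : j ∈ Neg y) (hij : i ≠ j)
    (hpr : Prl (K U {c1}) j i)
    {y1 : ι → ℝ} (hy1 : NZ (K U {c1}) y1) (hN1 : Neg y1 = Neg y \ {i, j}) : False := by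
  have hk3 := h.hO.bas.k3
  have hiW : i ∈ act (K U {c1}) := Neg_subset_act h.hy.1 hi
  have hjW : j ∈ act (K U {c1}) := Neg_subset_act h.hy.1 hj
  have hdW := dimW h.hO
  have hcW := cardW hTLK h.hO
  have hd2 := finrank_K_singleton hiW
  have hHS : HS k (K (K U {c1}) {i}) := fun μ hμ => h.hO.bas.hs μ hμ.1.1
  have hge := card_act_ge hHS (K (K U {c1}) {i}) le_rfl (by omega)
  have hact : act (K (K U {c1}) {i}) = ((act (K U {c1})).erase i).erase j := by
    apply Finset.eq_of_subset_of_card_le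
    · intro w hw
      obtain ⟨μ, hμ, h0⟩ := mem_act.1 hw
      have hμi : μ i = 0 := hμ.2 i (Finset.mem_singleton_self i)
      refine Finset.mem_erase.2 ⟨?_, Finset.mem_erase.2 ⟨?_, act_mono (K_le _ _) hw⟩⟩
      · rintro rfl
        obtain ⟨β, hβ⟩ := hpr
        exact h0 (by rw [hβ μ hμ.1, hμi, mul_zero])
      · rintro rfl
        exact h0 hμi
    · rw [Finset.card_erase_of_mem (Finset.mem_erase.2 ⟨hij.symm, hjW⟩),
        Finset.card_erase_of_mem hiW]
      omega
  have hcard : (act (K (K U {c1}) {i})).card = finrank ℝ (K (K U {c1}) {i}) + k + 1 := by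
    rw [hact, Finset.card_erase_of_mem (Finset.mem_erase.2 ⟨hij.symm, hjW⟩),
        Finset.card_erase_of_mem hiW]
    omega
  obtain ⟨u1, -⟩ := hUNI ι k (K (K U {c1}) {i}) hHS (by omega) hcard
  have hZ : ({i, j} : Finset ι) ⊆ Neg y := by
    intro w hw
    rcases Finset.mem_insert.1 hw with rfl | hw
    · exact hi
    · rw [Finset.mem_singleton.1 hw]
      exact hj
  have hcS : (Neg y \ {i, j}).card = k - 1 := by
    rw [Finset.card_sdiff_of_subset hZ, h.hN, Finset.card_pair hij]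
    omega
  have hk0 : kap (K (K U {c1}) {i}) (Neg y \ {i, j}) = 0 := by
    refine u1 _ ?_ (by rw [hcS]; omega)
    intro w hw
    rw [Finset.mem_sdiff, Finset.mem_insert, Finset.mem_singleton, not_or] at hw
    rw [hact, Finset.mem_erase, Finset.mem_erase]
    exact ⟨hw.2.2, hw.2.1, Neg_subset_act h.hy.1 hw.1⟩
  have hk1 : kap U (insert i (insert c1 (Neg y \ {i, j}))) = 0 := by
    have e1 : kap U (insert i (insert c1 (Neg y \ {i, j}))) ≤
        kap (K (K U {c1}) {i}) (Neg y \ {i, j}) := by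
      apply kap_le_of_le
      intro μ hμ
      refine ⟨⟨⟨hμ.1, fun x hx => ?_⟩, fun x hx => ?_⟩, fun x hx => ?_⟩
      · rw [Finset.mem_singleton.1 hx]
        exact hμ.2 c1 (Finset.mem_insert_of_mem (Finset.mem_insert_self _ _))
      · rw [Finset.mem_singleton.1 hx]
        exact hμ.2 i (Finset.mem_insert_self _ _)
      · exact hμ.2 x (Finset.mem_insert_of_mem (Finset.mem_insert_of_mem hx))
    omega
  have e2 := kap_le_insert U (insert c1 (Neg y \ {i, j})) i
  have e3 := kap_le_insert U (Neg y \ {i, j}) c1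
  have e4 := finrank_le_kap_add_card U (Neg y \ {i, j})
  rw [h.hO.bas.dim] at e4
  obtain ⟨s, hs, hs1, hs2⟩ := exists_s hTLK h.hO
  refine h.hng (good_of_neg hTLK hSTR h.hO hy1.1.1 hs.1 ?_ ?_)
  · intro w hw h0
    rcases zeros hTLK h.hO hy1 hw h0 with rfl | rfl
    · exact hs1
    · exact hs2
  · rw [hN1]
    omega

/-- case (e) -/
lemma mixed (hTLK : SpecTLK) (hSTR : SpecSTR) {k : ℕ} {U : Submodule ℝ (ι → ℝ)} {c1 c2 : ι}
    {y : ι → ℝ} (h : Ctx k U c1 c2 y) {i j : ι} (hi : i ∈ Pos y) (hj : j ∈ Neg y)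
    (hpr : Prl (K U {c1}) j i) (hjc : ¬ Colp U (Neg y) j)
    {y0 : ι → ℝ} (hy0 : y0 ∈ K U {c1}) (hP0 : Pos y0 = (Pos y).erase i)
    (hN0 : Neg y0 = (Neg y).erase j) : False := by
  have hyi := mem_Pos.1 hi
  have hyj := mem_Neg.1 hj
  have hiW : i ∈ act (K U {c1}) := Pos_subset_act h.hy.1 hi
  have hjW : j ∈ act (K U {c1}) := Neg_subset_act h.hy.1 hj
  obtain ⟨hiU, hi1, hi2⟩ := (mem_W hTLK h.hO i).1 hiW
  obtain ⟨hjU, hj1, hj2⟩ := (mem_W hTLK h.hO j).1 hjW
  have hji : j ≠ i := by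
    rintro rfl
    linarith
  -- `μ j + α μ i = β μ c1` on `U`
  obtain ⟨α, hα, hαW⟩ : ∃ α : ℝ, 0 < α ∧ ∀ μ ∈ K U {c1}, μ j + α * μ i = 0 := by
    obtain ⟨γ, hγ⟩ := hpr
    have h1 := hγ y h.hy.1
    refine ⟨-γ, ?_, fun μ hμ => by rw [hγ μ hμ]; ring⟩
    by_contra hc
    have h2 : 0 ≤ γ := by linarith
    have h3 := mul_nonneg h2 hyi.le
    linarith
  obtain ⟨β, hβ⟩ : ∃ β : ℝ, ∀ μ ∈ U, μ j + α * μ i = β * μ c1 := by
    obtain ⟨μ0, hμ0, h0⟩ := mem_act.1 h.hO.h1
    refine ⟨(μ0 j + α * μ0 i) / μ0 c1, fun μ hμ => ?_⟩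
    have h1 : μ - (μ c1 / μ0 c1) • μ0 ∈ K U {c1} := by
      refine ⟨U.sub_mem hμ (U.smul_mem _ hμ0), fun x hx => ?_⟩
      rw [Finset.mem_singleton.1 hx]
      simp only [Pi.sub_apply, Pi.smul_apply, smul_eq_mul]
      field_simp
      ring
    have h2 := hαW _ h1
    simp only [Pi.sub_apply, Pi.smul_apply, smul_eq_mul] at h2
    have h3 : μ j + α * μ i = (μ c1 / μ0 c1) * (μ0 j + α * μ0 i) := by linarith
    rw [h3]
    ring
  have hβ0 : β ≠ 0 := by
    rintro rfl
    refine h.hO.oth j hjU i hiU hji hj1 hj2 ⟨-α, fun μ hμ => ?_⟩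
    have := hβ μ hμ
    linarith
  have hnpr : ¬ Prl U i c1 := h.hO.oth i hiU c1 h.hO.h1 hi1 hi1 hi2
  obtain ⟨-, -, -, -, -, -, t7, -⟩ := hTLK ι U
  obtain ⟨ε, hε, hε1⟩ : ∃ ε : ℝ, 0 < ε ∧ 0 < |β| - α * ε := by
    refine ⟨|β| / (2 * α), by positivity, ?_⟩
    have h1 : 0 < |β| := abs_pos.2 hβ0
    have h2 : α * (|β| / (2 * α)) = |β| / 2 := by field_simp
    rw [h2]
    linarith
  obtain ⟨κ, hκ, hc⟩ := h.hO.par
  -- the zeros of `y0`
  have hz : ∀ w ∈ act U, y0 w = 0 → w = c1 ∨ w = c2 ∨ w = i ∨ w = j := by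
    intro w hw h0
    by_contra hcon
    push Not at hcon
    obtain ⟨n1, n2, n3, n4⟩ := hcon
    have h1 := h.hy.2 w ((mem_W hTLK h.hO w).2 ⟨hw, n1, n2⟩)
    rcases mem_Pos_or_Neg h1 with h2 | h2
    · have h3 : w ∈ Pos y0 := by rw [hP0]; exact Finset.mem_erase.2 ⟨n3, h2⟩
      exact absurd h0 (mem_Pos.1 h3).ne'
    · have h3 : w ∈ Neg y0 := by rw [hN0]; exact Finset.mem_erase.2 ⟨n4, h2⟩
      exact absurd h0 (mem_Neg.1 h3).ne
  have hy0i : y0 i = 0 := by
    by_contra h0
    rcases mem_Pos_or_Neg h0 with h1 | h1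
    · rw [hP0] at h1
      exact (Finset.mem_erase.1 h1).1 rfl
    · rw [hN0] at h1
      have h2 := mem_Neg.1 (Finset.mem_erase.1 h1).2
      linarith
  have hy0j : y0 j = 0 := by
    by_contra h0
    rcases mem_Pos_or_Neg h0 with h1 | h1
    · rw [hP0] at h1
      have h2 := mem_Pos.1 (Finset.mem_erase.1 h1).2
      linarith
    · rw [hN0] at h1
      exact (Finset.mem_erase.1 h1).1 rfl
  rcases lt_or_gt_of_ne hβ0 with hneg | hpos
  · -- `β < 0`
    obtain ⟨s, hs, hsi, hsc⟩ := t7 i hiU c1 h.hO.h1 hnpr ε (-1)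
    have hsc2 : s c2 < 0 := by
      rw [hc s hs, hsc]
      linarith
    have hsj : 0 < s j := by
      have h1 := hβ s hs
      rw [hsi, hsc] at h1
      rw [abs_of_neg hneg] at hε1
      linarith
    have hA : kap U (insert j (Pos y)) = 0 := by
      have e1 : kap U (insert j (Pos y)) ≤ kap U (insert c1 (Pos y)) := by
        apply kap_le_of_le
        intro μ hμ
        refine ⟨hμ.1, fun x hx => ?_⟩
        rcases Finset.mem_insert.1 hx with rfl | hx
        · have h1 := hβ μ hμ.1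
          rw [hμ.2 j (Finset.mem_insert_self _ _), hμ.2 i (Finset.mem_insert_of_mem hi),
            mul_zero, add_zero] at h1
          rcases mul_eq_zero.1 h1.symm with h2 | h2
          · exact absurd h2 hβ0
          · exact h2
        · exact hμ.2 x (Finset.mem_insert_of_mem hx)
      have e2 := kapP0 hTLK h
      omega
    have hB : kap U (insert c1 ((Neg y).erase j)) = 0 := by
      have e1 : kap U (insert c1 ((Neg y).erase j)) ≤ kap U (insert c1 (Neg y)) := by
        apply kap_le_of_le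
        intro μ hμ
        have h1 : μ ∈ K U ((Neg y).erase j) :=
          ⟨hμ.1, fun x hx => hμ.2 x (Finset.mem_insert_of_mem hx)⟩
        rw [K_erase hj hjc] at h1
        refine ⟨hμ.1, fun x hx => ?_⟩
        rcases Finset.mem_insert.1 hx with rfl | hx
        · exact hμ.2 _ (Finset.mem_insert_self _ _)
        · exact h1.2 x hx
      have e2 := kapN0 hTLK h
      omega
    refine h.hng (finish hy0.1 hs ?_ (A := insert j (Pos y))
      (B := insert c1 ((Neg y).erase j)) ?_ ?_ (by rw [hA, hB, h.hO.bas.dim]; omega))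
    · intro w hw h0
      rcases hz w hw h0 with rfl | rfl | rfl | rfl
      · rw [hsc]; norm_num
      · exact hsc2.ne
      · rw [hsi]; exact hε.ne'
      · exact hsj.ne'
    · intro w hw
      rcases Finset.mem_insert.1 hw with rfl | hw
      · exact Or.inr ⟨hy0j, hsj⟩
      · by_cases hwi : w = i
        · subst hwi
          exact Or.inr ⟨hy0i, by rw [hsi]; exact hε⟩
        · left
          have h3 : w ∈ Pos y0 := by rw [hP0]; exact Finset.mem_erase.2 ⟨hwi, hw⟩
          exact mem_Pos.1 h3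
    · intro w hw
      rcases Finset.mem_insert.1 hw with rfl | hw
      · exact Or.inr ⟨y_c1 hy0, by rw [hsc]; norm_num⟩
      · left
        rw [← hN0] at hw
        exact mem_Neg.1 hw
  · -- `β > 0`
    obtain ⟨s, hs, hsi, hsc⟩ := t7 i hiU c1 h.hO.h1 hnpr ε 1
    have hsc2 : 0 < s c2 := by
      rw [hc s hs, hsc]
      linarith
    have hsj : 0 < s j := by
      have h1 := hβ s hs
      rw [hsi, hsc] at h1
      rw [abs_of_pos hpos] at hε1
      linarith
    refine h.hng (good_of_neg hTLK hSTR h.hO hy0.1 hs ?_ ?_)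
    · intro w hw h0
      rcases hz w hw h0 with rfl | rfl | rfl | rfl
      · rw [hsc]; norm_num
      · exact hsc2
      · rw [hsi]; exact hε
      · exact hsj
    · rw [hN0]
      exact kap_erase hTLK h hj hjc

/-- the classes of proportional coordinates of `K U {c1}` have at most two elements -/
lemma classes (hTLK : SpecTLK) {k : ℕ} {U : Submodule ℝ (ι → ℝ)} {c1 c2 : ι}
    (h : OneP k U c1 c2) {a b l : ι} (ha : a ∈ act (K U {c1})) (hb : b ∈ act (K U {c1}))
    (hl : l ∈ act (K U {c1})) (hab : a ≠ b) (hal : a ≠ l) (hbl : b ≠ l)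
    (hba : Prl (K U {c1}) b a) (hla : Prl (K U {c1}) l a) : False := by
  have hk3 := h.bas.k3
  have hdW := dimW h
  have hcW := cardW hTLK h
  have h1 := finrank_K_singleton ha
  have hHS : HS k (K U {c1}) := fun μ hμ => h.bas.hs μ hμ.1
  have h2 := card_act_ge hHS (K (K U {c1}) {a}) (K_le _ {a}) (by omega)
  have h3 : act (K (K U {c1}) {a}) ⊆ (((act (K U {c1})).erase a).erase b).erase l := by
    intro w hw
    obtain ⟨μ, hμ, h0⟩ := mem_act.1 hw
    have hμa : μ a = 0 := hμ.2 a (Finset.mem_singleton_self a)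
    refine Finset.mem_erase.2 ⟨?_, Finset.mem_erase.2 ⟨?_, Finset.mem_erase.2 ⟨?_,
      act_mono (K_le _ {a}) hw⟩⟩⟩
    · rintro rfl
      obtain ⟨β, hβ⟩ := hla
      exact h0 (by rw [hβ μ hμ.1, hμa, mul_zero])
    · rintro rfl
      obtain ⟨β, hβ⟩ := hba
      exact h0 (by rw [hβ μ hμ.1, hμa, mul_zero])
    · rintro rfl
      exact h0 hμa
  have h4 := Finset.card_le_card h3
  rw [Finset.card_erase_of_mem (Finset.mem_erase.2 ⟨hbl.symm,
    Finset.mem_erase.2 ⟨hal.symm, hl⟩⟩), Finset.card_erase_of_mem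
    (Finset.mem_erase.2 ⟨hab.symm, hb⟩), Finset.card_erase_of_mem ha] at h4
  omega

lemma notMem_Neg {y : ι → ℝ} {i : ι} (h : i ∈ Pos y) : i ∉ Neg y := by
  rw [mem_Neg]
  have := mem_Pos.1 h
  linarith

lemma notMem_Pos {y : ι → ℝ} {i : ι} (h : i ∈ Neg y) : i ∉ Pos y := by
  rw [mem_Pos]
  have := mem_Neg.1 h
  linarith

/-- the main step -/
lemma step (hSTP : SpecSTP) (hUNI : SpecUNI) (hTLK : SpecTLK) (hSTR : SpecSTR) {k : ℕ}
    {U : Submodule ℝ (ι → ℝ)} {c1 c2 : ι} {y : ι → ℝ} (h : Ctx k U c1 c2 y) {v : ι → ℝ}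
    (hv : v ∈ K U {c1}) (hvP : ∀ i, Colp U (Pos y) i → v i = 0)
    (hvN : ∀ i, Colp U (Neg y) i → v i = 0) (hex : ∃ i, y i * v i < 0) : False := by
  obtain ⟨Z, hZne, hZa, hZs, hZp, -, ⟨y0, hy0, hP0, hN0⟩, ⟨y1, hy1, hP1, hN1⟩⟩ :=
    hSTP ι (K U {c1}) y v h.hy hv hex
  have hncN : ∀ i ∈ Z, ¬ Colp U (Neg y) i := by
    intro i hi hc
    have h1 := hZs i hi
    rw [hvN i hc, mul_zero] at h1
    exact lt_irrefl _ h1
  have hncP : ∀ i ∈ Z, ¬ Colp U (Neg (-y)) i := by
    intro i hi hc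
    rw [Neg_neg] at hc
    have h1 := hZs i hi
    rw [hvP i hc, mul_zero] at h1
    exact lt_irrefl _ h1
  have hy1n : NZ (K U {c1}) (-y1) :=
    ⟨Submodule.neg_mem _ hy1.1, fun i hi => by simpa using hy1.2 i hi⟩
  have hcard : Z.card ≤ 2 := by
    by_contra hc
    push Not at hc
    obtain ⟨a, b, l, ha, hb, hl, hab, hal, hbl⟩ := Finset.two_lt_card_iff.1 hc
    exact classes hTLK h.hO (hZa ha) (hZa hb) (hZa hl) hab hal hbl (hZp b hb a ha) (hZp l hl a ha)
  have hpos : 0 < Z.card := Finset.card_pos.2 hZne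
  have hcases : Z.card = 1 ∨ Z.card = 2 := by omega
  rcases hcases with h1 | h2
  · obtain ⟨x, rfl⟩ := Finset.card_eq_one.1 h1
    have hxZ : x ∈ ({x} : Finset ι) := Finset.mem_singleton_self x
    rcases mem_Pos_or_Neg (h.hy.2 x (hZa hxZ)) with hx | hx
    · refine single hTLK hSTR h.neg (x := x) (by rw [Neg_neg]; exact hx) (hncP x hxZ) hy1n ?_
      rw [Neg_neg, Neg_neg, hP1, Finset.inter_singleton_of_notMem (notMem_Neg hx),
        Finset.union_empty, Finset.erase_eq]
    · refine single hTLK hSTR h (x := x) hx (hncN x hxZ) hy1 ?_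
      rw [hN1, Finset.inter_singleton_of_notMem (notMem_Pos hx), Finset.union_empty,
        Finset.erase_eq]
  · obtain ⟨i, j, hij, rfl⟩ := Finset.card_eq_two.1 h2
    have hiZ : i ∈ ({i, j} : Finset ι) := Finset.mem_insert_self i _
    have hjZ : j ∈ ({i, j} : Finset ι) := Finset.mem_insert_of_mem (Finset.mem_singleton_self j)
    rcases mem_Pos_or_Neg (h.hy.2 i (hZa hiZ)) with hi | hi <;>
      rcases mem_Pos_or_Neg (h.hy.2 j (hZa hjZ)) with hj | hj
    · refine pair hUNI hTLK hSTR h.neg (i := i) (j := j) (by rw [Neg_neg]; exact hi)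
        (by rw [Neg_neg]; exact hj) hij (hZp j hjZ i hiZ) hy1n ?_
      rw [Neg_neg, Neg_neg, hP1]
      ext w
      simp only [Finset.mem_union, Finset.mem_sdiff, Finset.mem_inter, Finset.mem_insert,
        Finset.mem_singleton]
      constructor
      · rintro (h3 | ⟨h3, h4 | h4⟩)
        · exact h3
        · rw [h4] at h3
          exact absurd h3 (notMem_Neg hi)
        · rw [h4] at h3
          exact absurd h3 (notMem_Neg hj)
      · exact Or.inl
    · refine mixed hTLK hSTR h hi hj (hZp j hjZ i hiZ) (hncN j hjZ) hy0 ?_ ?_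
      · rw [hP0]
        ext w
        simp only [Finset.mem_sdiff, Finset.mem_insert, Finset.mem_singleton, Finset.mem_erase]
        constructor
        · rintro ⟨h3, h4⟩
          exact ⟨fun h5 => h4 (Or.inl h5), h3⟩
        · rintro ⟨h3, h4⟩
          refine ⟨h4, ?_⟩
          rintro (h5 | h5)
          · exact h3 h5
          · rw [h5] at h4
            exact notMem_Pos hj h4
      · rw [hN0]
        ext w
        simp only [Finset.mem_sdiff, Finset.mem_insert, Finset.mem_singleton, Finset.mem_erase]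
        constructor
        · rintro ⟨h3, h4⟩
          exact ⟨fun h5 => h4 (Or.inr h5), h3⟩
        · rintro ⟨h3, h4⟩
          refine ⟨h4, ?_⟩
          rintro (h5 | h5)
          · rw [h5] at h4
            exact notMem_Neg hi h4
          · exact h3 h5
    · refine mixed hTLK hSTR h hj hi (hZp i hiZ j hjZ) (hncN i hiZ) hy0 ?_ ?_
      · rw [hP0]
        ext w
        simp only [Finset.mem_sdiff, Finset.mem_insert, Finset.mem_singleton, Finset.mem_erase]
        constructor
        · rintro ⟨h3, h4⟩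
          exact ⟨fun h5 => h4 (Or.inr h5), h3⟩
        · rintro ⟨h3, h4⟩
          refine ⟨h4, ?_⟩
          rintro (h5 | h5)
          · rw [h5] at h4
            exact notMem_Pos hi h4
          · exact h3 h5
      · rw [hN0]
        ext w
        simp only [Finset.mem_sdiff, Finset.mem_insert, Finset.mem_singleton, Finset.mem_erase]
        constructor
        · rintro ⟨h3, h4⟩
          exact ⟨fun h5 => h4 (Or.inl h5), h3⟩
        · rintro ⟨h3, h4⟩
          refine ⟨h4, ?_⟩
          rintro (h5 | h5)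
          · exact h3 h5
          · rw [h5] at h4
            exact notMem_Neg hj h4
    · refine pair hUNI hTLK hSTR h (i := i) (j := j) hi hj hij (hZp j hjZ i hiZ) hy1 ?_
      rw [hN1]
      ext w
      simp only [Finset.mem_union, Finset.mem_sdiff, Finset.mem_inter, Finset.mem_insert,
        Finset.mem_singleton]
      constructor
      · rintro (h3 | ⟨h3, h4 | h4⟩)
        · exact h3
        · rw [h4] at h3
          exact absurd h3 (notMem_Pos hi)
        · rw [h4] at h3
          exact absurd h3 (notMem_Pos hj)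
      · exact Or.inl

end PCPM

open PCPM in
theorem specPCP (hSTP : SpecSTP) (hUNI : SpecUNI) (hTLK : SpecTLK) (hSTR : SpecSTR) :
    SpecPCP := by
  intro ι _ _ k U c1 c2 hO hng y hy hP hN
  have h : Ctx k U c1 c2 y := ⟨hO, hng, hy, hP, hN⟩
  refine ⟨?_, kapN hTLK h, ?_⟩
  · have h1 := kapN hTLK h.neg
    rw [Neg_neg] at h1
    exact h1
  · intro u hu huP huN
    by_contra hne
    obtain ⟨m, hm⟩ : ∃ m, u m ≠ 0 := by
      by_contra hc
      push Not at hc
      exact hne (funext hc)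
    have hmW : m ∈ act (K U {c1}) := mem_act.2 ⟨u, hu, hm⟩
    have hym := hy.2 m hmW
    rcases lt_or_gt_of_ne (mul_ne_zero hym hm) with h1 | h1
    · exact step hSTP hUNI hTLK hSTR h hu huP huN ⟨m, h1⟩
    · refine step hSTP hUNI hTLK hSTR h (v := -u) (Submodule.neg_mem _ hu) (fun i hi => ?_)
        (fun i hi => ?_) ⟨m, ?_⟩
      · rw [Pi.neg_apply, huP i hi, neg_zero]
      · rw [Pi.neg_apply, huN i hi, neg_zero]
      · rw [Pi.neg_apply]
        linarith [mul_neg (y m) (u m)]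

end MPa0e17f
end

section
/-!
# Module PCQ: the contraction of the heavy class has no balanced tope (one heavy class)
-/
set_option autoImplicit false
set_option linter.unusedSectionVars false

namespace MPa0e17f

open Finset Module

namespace PCQM

variable {ι : Type} [Fintype ι] [DecidableEq ι]

open Classical in
/-- the coloops of `P` -/
noncomputable def Co (U : Submodule ℝ (ι → ℝ)) (P : Finset ι) : Finset ι :=
  P.filter (fun i => Colp U P i)

lemma mem_Co {U : Submodule ℝ (ι → ℝ)} {P : Finset ι} {i : ι} : i ∈ Co U P ↔ Colp U P i := by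
  classical
  unfold Co
  rw [Finset.mem_filter]
  exact ⟨fun h => h.2, fun h => ⟨h.1, h⟩⟩

lemma Co_subset (U : Submodule ℝ (ι → ℝ)) (P : Finset ι) : Co U P ⊆ P :=
  fun _ hi => (mem_Co.1 hi).1

lemma kap_D (U : Submodule ℝ (ι → ℝ)) (P : Finset ι) :
    kap U P + (Co U P).card ≤ kap U (P \ Co U P) :=
  kap_sdiff_coloops U P (Co U P) (Co_subset U P) (fun _ hi => (mem_Co.1 hi).2)

end PCQM

open PCQM in
theorem specPCQ (hTLK : SpecTLK) (hSTR : SpecSTR) (hPCP : SpecPCP) : SpecPCQ := by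
  intro ι _ _ k U c1 c2 hO hng y' hy' hR hS
  classical
  obtain ⟨hkR, hkS, hker⟩ := hPCP ι k U c1 c2 hO hng y' hy' hR hS
  set R := Pos y' with hRdef
  set S := Neg y' with hSdef
  have hdim : finrank ℝ U = k + 1 := hO.bas.dim
  obtain ⟨-, t2, t3, -, -, -, -, t8, -, -⟩ := hTLK ι U
  obtain ⟨-, -, -, -, t5', -, -, -, -, -⟩ := hTLK ι (K U {c1})
  obtain ⟨-, hun, hdj, -⟩ := t5' y' hy'
  have hpar : ∀ μ ∈ U, (0 < μ c1 → 0 < μ c2) ∧ (μ c1 = 0 → μ c2 = 0) := by
    obtain ⟨α, hα, h⟩ := hO.par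
    intro μ hμ
    refine ⟨fun h1 => ?_, fun h1 => ?_⟩
    · rw [h μ hμ]; exact mul_pos hα h1
    · rw [h μ hμ, h1, mul_zero]
  -- the active coordinates
  have hact : ∀ i ∈ act U, i ∈ R ∨ i ∈ S ∨ i = c1 ∨ i = c2 := by
    intro i hi
    by_cases h1 : i = c1
    · exact Or.inr (Or.inr (Or.inl h1))
    by_cases h2 : i = c2
    · exact Or.inr (Or.inr (Or.inr h2))
    have h3 : i ∈ act (K U {c1}) :=
      (t2 i c1 hO.h1).2 ⟨hi, hO.oth i hi c1 hO.h1 h1 h1 h2⟩
    rw [← hun] at h3
    rcases Finset.mem_union.1 h3 with h | h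
    · exact Or.inl h
    · exact Or.inr (Or.inl h)
  set R1 := Co U R with hR1
  set S1 := Co U S with hS1
  set DR := R \ R1 with hDR
  set DS := S \ S1 with hDS
  set F := DR ∪ DS with hF
  have hcR := kap_D U R
  have hcS := kap_D U S
  rw [← hR1, ← hDR] at hcR
  rw [← hS1, ← hDS] at hcS
  have hdj1 : Disjoint R1 S1 := Finset.disjoint_of_subset_left (Co_subset U R)
    (Finset.disjoint_of_subset_right (Co_subset U S) hdj)
  have hcU : (R1 ∪ S1).card = R1.card + S1.card := Finset.card_union_of_disjoint hdj1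
  have hua := kap_union_add U DR DS
  rw [← hF] at hua
  -- r ≥ k
  have hz0 : kap U (insert c1 (R1 ∪ S1)) = 0 := by
    rw [kap, Submodule.finrank_eq_zero, eq_bot_iff]
    intro μ hμ
    rw [Submodule.mem_bot]
    refine hker μ ⟨hμ.1, fun x hx => ?_⟩ (fun i hi => ?_) (fun i hi => ?_)
    · rw [Finset.mem_singleton.1 hx]; exact hμ.2 c1 (Finset.mem_insert_self _ _)
    · exact hμ.2 i (Finset.mem_insert_of_mem (Finset.mem_union_left _ (mem_Co.2 hi)))
    · exact hμ.2 i (Finset.mem_insert_of_mem (Finset.mem_union_right _ (mem_Co.2 hi)))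
  have hrk : k ≤ R1.card + S1.card := by
    have h1 := finrank_le_kap_add_card U (insert c1 (R1 ∪ S1))
    have h2 := Finset.card_insert_le c1 (R1 ∪ S1)
    omega
  have hF1 : 1 ≤ kap U F := by omega
  -- active coordinates of `W = K U F`
  have hactF : ∀ i ∈ act (K U F), i ∈ R1 ∪ S1 ∨ i = c1 ∨ i = c2 := by
    intro i hi
    obtain ⟨μ, hμ, h0⟩ := mem_act.1 hi
    have hiF : i ∉ F := fun h => h0 (hμ.2 i h)
    rcases hact i (act_mono (K_le U F) hi) with h | h | h | h
    · left
      apply Finset.mem_union_left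
      by_contra hc
      exact hiF (Finset.mem_union_left _ (Finset.mem_sdiff.2 ⟨h, hc⟩))
    · left
      apply Finset.mem_union_right
      by_contra hc
      exact hiF (Finset.mem_union_right _ (Finset.mem_sdiff.2 ⟨h, hc⟩))
    · exact Or.inr (Or.inl h)
    · exact Or.inr (Or.inr h)
  have hsub : act (K U F) ⊆ insert c1 (insert c2 (R1 ∪ S1)) := by
    intro i hi
    rcases hactF i hi with h | h | h
    · exact Finset.mem_insert_of_mem (Finset.mem_insert_of_mem h)
    · rw [h]; exact Finset.mem_insert_self _ _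
    · rw [h]; exact Finset.mem_insert_of_mem (Finset.mem_insert_self _ _)
  have hle : (insert c1 (insert c2 (R1 ∪ S1))).card ≤ R1.card + S1.card + 2 := by
    have h1 := Finset.card_insert_le c1 (insert c2 (R1 ∪ S1))
    have h2 := Finset.card_insert_le c2 (R1 ∪ S1)
    omega
  have hS0 := card_act_ge hO.bas.hs (K U F) (K_le U F) hF1
  have heq : act (K U F) = insert c1 (insert c2 (R1 ∪ S1)) := by
    apply Finset.eq_of_subset_of_card_le hsub
    rw [← kap] at hS0
    omega
  have hcard := Finset.card_le_card hsub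
  rw [← kap] at hS0
  have hkF : kap U F + k = R1.card + S1.card + 1 := by omega
  have hc1F : c1 ∈ act (K U F) := by rw [heq]; exact Finset.mem_insert_self _ _
  have hins := kap_insert_of_ne U F c1 (mem_act.1 hc1F)
  have hF2 : kap U F = 1 := by
    by_contra hne
    have h1 : 1 ≤ finrank ℝ (K U (insert c1 F)) := by
      rw [← kap]; omega
    have h2 := card_act_ge hO.bas.hs (K U (insert c1 F)) (K_le U _) h1
    have h3 : act (K U (insert c1 F)) ⊆ R1 ∪ S1 := by
      intro i hi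
      obtain ⟨μ, hμ, h0⟩ := mem_act.1 hi
      have hμ1 : μ c1 = 0 := hμ.2 c1 (Finset.mem_insert_self _ _)
      rcases hactF i (act_mono (K_anti U (Finset.subset_insert c1 F)) hi) with h | h | h
      · exact h
      · rw [h] at h0; exact absurd hμ1 h0
      · rw [h] at h0; exact absurd ((hpar μ hμ.1).2 hμ1) h0
    have h4 := Finset.card_le_card h3
    rw [← kap] at h2
    omega
  have hr : R1.card + S1.card = k := by omega
  -- `R1 ∪ S1` is independent
  have hind : kap U (R1 ∪ S1) + (R1 ∪ S1).card = finrank ℝ U := by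
    have h1 := finrank_le_kap_add_card U (R1 ∪ S1)
    have h2 := kap_le_insert U (R1 ∪ S1) c1
    omega
  -- `K U DR ⊔ K U DS = U`
  have hsup : K U DR ⊔ K U DS = U := by
    apply Submodule.eq_of_le_of_finrank_le (sup_le (K_le U _) (K_le U _))
    have h := Submodule.finrank_sup_add_finrank_inf_eq (K U DR) (K U DS)
    have h1 : K U DR ⊓ K U DS = K U F := by
      ext μ
      simp only [Submodule.mem_inf, mem_K, hF, Finset.mem_union]
      constructor
      · rintro ⟨⟨h1, h2⟩, _, h3⟩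
        exact ⟨h1, fun i hi => hi.elim (h2 i) (h3 i)⟩
      · rintro ⟨h1, h2⟩
        exact ⟨⟨h1, fun i hi => h2 i (Or.inl hi)⟩, h1, fun i hi => h2 i (Or.inr hi)⟩
    rw [h1] at h
    simp only [kap] at hcR hcS hF2 hkR hkS
    omega
  have hy'U : y' ∈ U := hy'.1.1
  obtain ⟨a, ha, b, hb, hab⟩ := Submodule.mem_sup.1 (by rw [hsup]; exact hy'U :
    y' ∈ K U DR ⊔ K U DS)
  have hzU : b - a ∈ U := U.sub_mem hb.1 ha.1
  have hzF : ∀ i ∈ F, 0 < (b - a) i := by
    intro i hi
    have hi2 : a i + b i = y' i := by rw [← hab]; rfl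
    rcases Finset.mem_union.1 hi with h | h
    · have h1 : a i = 0 := ha.2 i h
      have h2 : 0 < y' i := mem_Pos.1 (Finset.sdiff_subset h)
      simp only [Pi.sub_apply]
      linarith
    · have h1 : b i = 0 := hb.2 i h
      have h2 : y' i < 0 := mem_Neg.1 (Finset.sdiff_subset h)
      simp only [Pi.sub_apply]
      linarith
  -- `ω`
  obtain ⟨ω, hω, hω1⟩ : ∃ ω ∈ K U F, 0 < ω c1 := by
    obtain ⟨μ, hμ, h0⟩ := mem_act.1 hc1F
    rcases lt_or_gt_of_ne h0 with h | h
    · exact ⟨-μ, (K U F).neg_mem hμ, by simpa using h⟩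
    · exact ⟨μ, hμ, h⟩
  have hω0 : ∀ i ∈ act (K U F), ω i ≠ 0 := by
    intro i hi hc
    obtain ⟨μ, hμ, h0⟩ := mem_act.1 hi
    have hne : (⟨ω, hω⟩ : K U F) ≠ 0 := by
      intro h
      have h1 : ω = 0 := congrArg Subtype.val h
      rw [h1] at hω1
      simp at hω1
    obtain ⟨c, hcc⟩ := (finrank_eq_one_iff_of_nonzero' (⟨ω, hω⟩ : K U F) hne).1 hF2 ⟨μ, hμ⟩
    have h1 : c • ω = μ := congrArg Subtype.val hcc
    apply h0
    rw [← h1]
    simp [hc]
  have hzero : ∀ i ∈ act U, ω i = 0 → i ∈ F := by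
    intro i hi h0
    by_contra hiF
    apply hω0 i _ h0
    rw [heq]
    rcases hact i hi with h | h | h | h
    · refine Finset.mem_insert_of_mem (Finset.mem_insert_of_mem (Finset.mem_union_left _ ?_))
      by_contra hc
      exact hiF (Finset.mem_union_left _ (Finset.mem_sdiff.2 ⟨h, hc⟩))
    · refine Finset.mem_insert_of_mem (Finset.mem_insert_of_mem (Finset.mem_union_right _ ?_))
      by_contra hc
      exact hiF (Finset.mem_union_right _ (Finset.mem_sdiff.2 ⟨h, hc⟩))
    · rw [h]; exact Finset.mem_insert_self _ _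
    · rw [h]; exact Finset.mem_insert_of_mem (Finset.mem_insert_self _ _)
  obtain ⟨y, hy, -, hyN⟩ := t8 ω hω.1 (b - a) hzU
    (fun i hi h0 => (hzF i (hzero i hi h0)).ne')
  have hNsub : Neg y ⊆ R1 ∪ S1 := by
    intro i hi
    have hiU : i ∈ act U := Neg_subset_act hy.1 hi
    rcases (hyN i).1 hi with h | ⟨h, h'⟩
    · have h1 : i ∈ act (K U F) := mem_act.2 ⟨ω, hω, h.ne⟩
      rcases hactF i h1 with h2 | h2 | h2
      · exact h2
      · rw [h2] at h; exact absurd hω1 (not_lt.2 h.le)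
      · rw [h2] at h
        exact absurd ((hpar ω hω.1).1 hω1) (not_lt.2 h.le)
    · exact absurd (hzF i (hzero i hiU h)) (not_lt.2 h'.le)
  have hNind := t3 (Neg y) (R1 ∪ S1) hNsub hind
  exact hng (hSTR ι k U c1 c2 hO y hy (by rw [hNind, hdim]))

end MPa0e17f
end

section
/-!
# PJM: a balanced tope of the contraction (one heavy class)
-/
set_option autoImplicit false
set_option linter.unusedSectionVars false

namespace MPa0e17f

open Finset Module

namespace PJMM

variable {ι : Type} [Fintype ι] [DecidableEq ι]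

lemma hs_K {k : ℕ} {U : Submodule ℝ (ι → ℝ)} (h : HS k U) (S : Finset ι) : HS k (K U S) :=
  fun μ hμ => h μ (K_le U S hμ)

/-- the active coordinates of the contraction -/
lemma act_iff (hTLK : SpecTLK) {k : ℕ} {U : Submodule ℝ (ι → ℝ)} {c1 c2 : ι}
    (h : OneP k U c1 c2) (i : ι) : i ∈ act (K U {c1}) ↔ i ∈ act U ∧ i ≠ c1 ∧ i ≠ c2 := by
  obtain ⟨-, t2, -⟩ := hTLK ι U
  rw [t2 i c1 h.h1]
  constructor
  · rintro ⟨h1, h2⟩
    refine ⟨h1, ?_, ?_⟩
    · rintro rfl
      exact h2 ⟨1, fun μ _ => by rw [one_mul]⟩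
    · rintro rfl
      obtain ⟨α, _, hα⟩ := h.par
      exact h2 ⟨α, hα⟩
  · rintro ⟨h1, h2, h3⟩
    exact ⟨h1, h.oth i h1 c1 h.h1 h2 h2 h3⟩

lemma card_act (hTLK : SpecTLK) {k : ℕ} {U : Submodule ℝ (ι → ℝ)} {c1 c2 : ι}
    (h : OneP k U c1 c2) : (act (K U {c1})).card = 2 * (k + 1) := by
  have h1 : act (K U {c1}) = ((act U).erase c2).erase c1 := by
    ext i
    rw [act_iff hTLK h, Finset.mem_erase, Finset.mem_erase]
    tauto
  have h2 : c1 ∈ (act U).erase c2 := Finset.mem_erase.2 ⟨h.ne, h.h1⟩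
  have h3 := Finset.card_erase_add_one h2
  have h4 := Finset.card_erase_add_one h.h2
  have h5 := h.bas.card
  rw [h1]
  omega

/-- classes have at most two elements -/
lemma cls (hTLK : SpecTLK) {k : ℕ} {U : Submodule ℝ (ι → ℝ)} {c1 c2 : ι}
    (h : OneP k U c1 c2) : ∀ i ∈ act (K U {c1}), ∀ j ∈ act (K U {c1}), ∀ l ∈ act (K U {c1}),
    i ≠ j → i ≠ l → j ≠ l → Prl (K U {c1}) j i → ¬ Prl (K U {c1}) l i := by
  intro i hi j hj l hl hij hil hjl hji hli
  have hd : finrank ℝ (K U {c1}) + 1 = k + 1 := by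
    rw [finrank_K_singleton h.h1, h.bas.dim]
  have h1 := finrank_K_singleton hi
  have hk := h.bas.k3
  have hS : HS k (K U {c1}) := hs_K h.bas.hs _
  have h2 := card_act_ge hS (K (K U {c1}) {i}) (K_le _ _) (by omega)
  obtain ⟨-, t2, -⟩ := hTLK ι (K U {c1})
  have h3 : act (K (K U {c1}) {i}) ⊆ (((act (K U {c1})).erase i).erase j).erase l := by
    intro w hw
    obtain ⟨h4, h5⟩ := (t2 w i hi).1 hw
    refine Finset.mem_erase.2 ⟨?_, Finset.mem_erase.2 ⟨?_, Finset.mem_erase.2 ⟨?_, h4⟩⟩⟩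
    · rintro rfl; exact h5 hli
    · rintro rfl; exact h5 hji
    · rintro rfl; exact h5 ⟨1, fun μ _ => by rw [one_mul]⟩
  have h4 := Finset.card_le_card h3
  have h5 : l ∈ ((act (K U {c1})).erase i).erase j :=
    Finset.mem_erase.2 ⟨hjl.symm, Finset.mem_erase.2 ⟨hil.symm, hl⟩⟩
  have h6 : j ∈ (act (K U {c1})).erase i := Finset.mem_erase.2 ⟨hij.symm, hj⟩
  have h7 := Finset.card_erase_add_one h5
  have h8 := Finset.card_erase_add_one h6
  have h9 := Finset.card_erase_add_one hi
  have h10 := card_act hTLK h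
  omega

/-- the final part: a tope of the double contraction with a small negative side -/
lemma fin (hUNI : SpecUNI) (hTLK : SpecTLK) (hSTR : SpecSTR) {k : ℕ}
    {U : Submodule ℝ (ι → ℝ)} {c1 c2 : ι} (h : OneP k U c1 c2) {e1 e2 : ι}
    (he1 : e1 ∈ act (K U {c1})) (he2 : e2 ∈ act (K U {c1})) (hne : e1 ≠ e2)
    (hpar : PrlP (K U {c1}) e2 e1)
    (hdim : finrank ℝ (K (K U {c1}) {e1}) + 2 = k + 1)
    (hcard : (act (K (K U {c1}) {e1})).card = finrank ℝ (K (K U {c1}) {e1}) + k + 1)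
    (hact : ∀ i, i ∈ act (K (K U {c1}) {e1}) ↔ i ∈ act (K U {c1}) ∧ i ≠ e1 ∧ i ≠ e2)
    {y1 : ι → ℝ} (hy1 : NZ (K (K U {c1}) {e1}) y1) (hc : (Neg y1).card + 1 = k) :
    Good k U := by
  have hk3 := h.bas.k3
  have hdU := h.bas.dim
  obtain ⟨-, -, -, -, -, -, t7, t8, -, t10⟩ := hTLK ι U
  obtain ⟨u1, -⟩ := hUNI ι k (K (K U {c1}) {e1}) (hs_K (hs_K h.bas.hs _) _) (by omega) hcard
  have hk0 := u1 (Neg y1) (Neg_subset_act hy1.1) (by omega)
  -- independence in `U`
  have hind : kap U (Neg y1) + (Neg y1).card = k + 1 := by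
    have h1 := finrank_le_kap_add_card U (Neg y1)
    have h2 := kap_le_insert U (Neg y1) c1
    have h3 := kap_le_insert U (insert c1 (Neg y1)) e1
    have h4 : kap U (insert e1 (insert c1 (Neg y1))) = kap (K (K U {c1}) {e1}) (Neg y1) := by
      have h5 : insert e1 (insert c1 (Neg y1)) = {c1} ∪ {e1} ∪ Neg y1 := by
        ext x
        simp only [Finset.mem_insert, Finset.mem_union, Finset.mem_singleton]
        tauto
      rw [h5, kap, kap, K_K, K_K, Finset.union_assoc]
    omega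
  -- the coordinate `e2` on `U`
  obtain ⟨α, hα0, hα⟩ := hpar
  obtain ⟨μ0, hμ0, h00⟩ := mem_act.1 h.h1
  obtain ⟨β, hβ⟩ : ∃ β : ℝ, ∀ μ ∈ U, μ e2 = α * μ e1 + β * μ c1 := by
    refine ⟨(μ0 e2 - α * μ0 e1) / μ0 c1, fun μ hμ => ?_⟩
    have h1 : μ - (μ c1 / μ0 c1) • μ0 ∈ K U {c1} := by
      refine ⟨U.sub_mem hμ (U.smul_mem _ hμ0), fun x hx => ?_⟩
      rw [Finset.mem_singleton.1 hx]
      simp only [Pi.sub_apply, Pi.smul_apply, smul_eq_mul]
      field_simp
      ring
    have h2 := hα _ h1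
    simp only [Pi.sub_apply, Pi.smul_apply, smul_eq_mul] at h2
    have h3 : μ e2 = α * μ e1 + (μ c1 / μ0 c1) * (μ0 e2 - α * μ0 e1) := by linarith
    rw [h3]
    ring
  have hnp : ¬ Prl U e1 c1 := by
    obtain ⟨-, t2, -⟩ := hTLK ι U
    exact ((t2 e1 c1 h.h1).1 he1).2
  obtain ⟨δ, hδ0, hδ⟩ : ∃ δ : ℝ, 0 < δ ∧ 0 < α + β * δ := by
    refine ⟨α / (2 * (|β| + 1)), by positivity, ?_⟩
    have h1 : |β| * (α / (2 * (|β| + 1))) ≤ α / 2 := by
      rw [mul_div_assoc', div_le_div_iff₀ (by positivity) (by norm_num)]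
      nlinarith [abs_nonneg β]
    have h2 : -(|β| * (α / (2 * (|β| + 1)))) ≤ β * (α / (2 * (|β| + 1))) := by
      rw [← neg_mul]
      exact mul_le_mul_of_nonneg_right (neg_abs_le β) (by positivity)
    linarith
  obtain ⟨s, hs, hs1, hs2⟩ := t7 e1 (act_mono (K_le U {c1}) he1) c1 h.h1 hnp 1 δ
  have hsc2 : 0 < s c2 := ((t10 c2 c1 h.par).2 s hs).1.2 (by rw [hs2]; exact hδ0)
  have hse2 : 0 < s e2 := by
    rw [hβ s hs, hs1, hs2]
    linarith
  have hpos : ∀ i ∈ act U, y1 i = 0 → 0 < s i := by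
    intro i hi hi0
    have h1 : i ∉ act (K (K U {c1}) {e1}) := fun hc => hy1.2 i hc hi0
    rw [hact, act_iff hTLK h] at h1
    by_cases hic1 : i = c1
    · rw [hic1, hs2]; exact hδ0
    by_cases hic2 : i = c2
    · rw [hic2]; exact hsc2
    by_cases hie1 : i = e1
    · rw [hie1, hs1]; exact one_pos
    by_cases hie2 : i = e2
    · rw [hie2]; exact hse2
    exact absurd ⟨⟨hi, hic1, hic2⟩, hie1, hie2⟩ h1
  obtain ⟨y, hy, -, hN⟩ := t8 y1 (K_le _ _ (K_le _ _ hy1.1)) s hs
    (fun i hi hi0 => (hpos i hi hi0).ne')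
  have hNN : Neg y = Neg y1 := by
    ext i
    rw [hN, mem_Neg]
    constructor
    · rintro (h1 | ⟨h1, h2⟩)
      · exact h1
      · exfalso
        by_cases hi : i ∈ act U
        · exact lt_asymm h2 (hpos i hi h1)
        · rw [not_act hi hs] at h2
          exact lt_irrefl _ h2
    · exact Or.inl
  exact hSTR ι k U c1 c2 h y hy (by rw [hNN]; exact hind)

end PJMM

open PJMM in
theorem specPJM (hSTP : SpecSTP) (hUNI : SpecUNI) (hBLS : SpecBLS) (hTLK : SpecTLK)
    (hSTR : SpecSTR) : SpecPJM := by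
  classical
  intro ι _ _ k U c1 c2 h
  have hk3 := h.bas.k3
  have hcard := card_act hTLK h
  have hcls := cls hTLK h
  have hd : finrank ℝ (K U {c1}) + 1 = k + 1 := by
    rw [finrank_K_singleton h.h1, h.bas.dim]
  rcases hBLS.1 ι (K U {c1}) (k + 1) hcard hcls with ⟨y, hy, h1, h2⟩ |
    ⟨y0, hy0, e1, he1, e2, he2, hne, hpar, hz1, hz2, hnz, hP, hN⟩
  · exact Or.inr ⟨y, hy, h1, h2⟩
  left
  obtain ⟨-, t2, -⟩ := hTLK ι (K U {c1})
  have hact : ∀ i, i ∈ act (K (K U {c1}) {e1}) ↔ i ∈ act (K U {c1}) ∧ i ≠ e1 ∧ i ≠ e2 := by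
    intro i
    rw [t2 i e1 he1]
    constructor
    · rintro ⟨h1, h2⟩
      refine ⟨h1, ?_, ?_⟩
      · rintro rfl
        exact h2 ⟨1, fun μ _ => by rw [one_mul]⟩
      · rintro rfl
        obtain ⟨α, _, hα⟩ := hpar
        exact h2 ⟨α, hα⟩
    · rintro ⟨h1, h2, h3⟩
      obtain ⟨α, hα0, hα⟩ := hpar
      exact ⟨h1, hcls e1 he1 e2 he2 i h1 hne h2.symm h3.symm ⟨α, hα⟩⟩
  have hd2 : finrank ℝ (K (K U {c1}) {e1}) + 2 = k + 1 := by
    have := finrank_K_singleton he1
    omega
  have hcard2 : (act (K (K U {c1}) {e1})).card = finrank ℝ (K (K U {c1}) {e1}) + k + 1 := by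
    have h1 : act (K (K U {c1}) {e1}) = ((act (K U {c1})).erase e2).erase e1 := by
      ext i
      rw [hact, Finset.mem_erase, Finset.mem_erase]
      tauto
    have h2 : e1 ∈ (act (K U {c1})).erase e2 := Finset.mem_erase.2 ⟨hne, he1⟩
    have h3 := Finset.card_erase_add_one h2
    have h4 := Finset.card_erase_add_one he2
    rw [h1]
    omega
  obtain ⟨-, -, -, u4, -⟩ := hUNI ι k (K (K U {c1}) {e1}) (hs_K (hs_K h.bas.hs _) _)
    (by omega) hcard2
  have hy0' : NZ (K (K U {c1}) {e1}) y0 := by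
    refine ⟨⟨hy0, fun x hx => by rw [Finset.mem_singleton.1 hx]; exact hz1⟩, fun i hi => ?_⟩
    obtain ⟨h1, h2, h3⟩ := (hact i).1 hi
    exact hnz i h1 h2 h3
  obtain ⟨Z, hZne, hZa, -, hZp, -, -, y1, hy1, hP1, hN1⟩ := hSTP ι (K (K U {c1}) {e1}) y0 (-y0)
    hy0' (Submodule.neg_mem _ hy0'.1) (by
      have : (Pos y0).Nonempty := by
        rw [← Finset.card_pos]
        omega
      obtain ⟨i, hi⟩ := this
      refine ⟨i, ?_⟩
      have h1 := mem_Pos.1 hi
      rw [Pi.neg_apply, mul_neg]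
      exact neg_neg_of_pos (mul_pos h1 h1))
  obtain ⟨z, hz⟩ := hZne
  have hZz : Z = {z} := by
    ext i
    rw [Finset.mem_singleton]
    constructor
    · intro hi
      by_contra hc
      exact u4 (by omega) i (hZa hi) z (hZa hz) hc (hZp i hi z hz)
    · rintro rfl
      exact hz
  have hz' := mem_Pos_or_Neg (hy0'.2 z (hZa hz))
  have hdis : ∀ i, i ∈ Pos y0 → i ∉ Neg y0 := fun i h1 h2 =>
    lt_asymm (mem_Pos.1 h1) (mem_Neg.1 h2)
  rcases hz' with hzP | hzN
  · -- use `-y1`
    have hc1 : (Neg (-y1)).card + 1 = k := by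
      have h1 : Neg (-y1) = (Pos y0).erase z := by
        rw [MPa0e17f.Neg_neg, hP1, hZz]
        ext i
        simp only [Finset.mem_union, Finset.mem_sdiff, Finset.mem_singleton, Finset.mem_inter,
          Finset.mem_erase]
        constructor
        · rintro (⟨h1, h2⟩ | ⟨h1, h2⟩)
          · exact ⟨h2, h1⟩
          · rw [h2] at h1
            exact absurd h1 (hdis z hzP)
        · rintro ⟨h1, h2⟩
          exact Or.inl ⟨h2, h1⟩
      rw [h1]
      have := Finset.card_erase_add_one hzP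
      omega
    have hny1 : NZ (K (K U {c1}) {e1}) (-y1) :=
      ⟨Submodule.neg_mem _ hy1.1, fun i hi => by rw [Pi.neg_apply]; exact neg_ne_zero.2 (hy1.2 i hi)⟩
    exact fin hUNI hTLK hSTR h he1 he2 hne hpar hd2 hcard2 hact hny1 hc1
  · have hc1 : (Neg y1).card + 1 = k := by
      have h1 : Neg y1 = (Neg y0).erase z := by
        rw [hN1, hZz]
        ext i
        simp only [Finset.mem_union, Finset.mem_sdiff, Finset.mem_singleton, Finset.mem_inter,
          Finset.mem_erase]
        constructor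
        · rintro (⟨h1, h2⟩ | ⟨h1, h2⟩)
          · exact ⟨h2, h1⟩
          · rw [h2] at h1
            exact absurd hzN (hdis z h1)
        · rintro ⟨h1, h2⟩
          exact Or.inl ⟨h2, h1⟩
      rw [h1]
      have := Finset.card_erase_add_one hzN
      omega
    exact fin hUNI hTLK hSTR h he1 he2 hne hpar hd2 hcard2 hact hy1 hc1

end MPa0e17f
end

section
/-!
# SFN: the final step of the simple case
-/
set_option autoImplicit false

namespace MPa0e17f

open Finset Module

namespace SFNM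

theorem lim {A B : ℝ} (h : ∀ s : ℝ, 0 ≤ s → s < 1 → 0 < A + s * B) : 0 ≤ A + B := by
  by_contra hc
  push Not at hc
  have hA : 0 < A := by
    have := h 0 le_rfl one_pos
    simpa using this
  have hB : 0 < -B := by linarith
  have h1 := h (A / -B) (by positivity) (by rw [div_lt_one hB]; linarith)
  have h2 : A / -B * B = -A := by
    have : B ≠ 0 := by
      intro h0
      rw [h0] at hB
      simp at hB
    field_simp
  rw [h2] at h1
  linarith

variable {ι : Type} [Fintype ι] [DecidableEq ι]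

/-- an element which is no coloop does not change the kernel -/
theorem noCol {U : Submodule ℝ (ι → ℝ)} {P S : Finset ι} {c : ι} (hc : ¬ Colp U P c)
    (hcP : c ∈ P) (hS : P.erase c ⊆ S) {μ : ι → ℝ} (hμ : μ ∈ K U S) : μ c = 0 := by
  by_contra h
  exact hc ⟨hcP, μ, K_anti U hS hμ, h⟩

end SFNM

open SFNM in
theorem specSFN (hSSS : SpecSSS) (hCL3 : SpecCL3) : SpecSFN := by
  classical
  intro ι _ _ k U kt y b hH hs hmin hE hC hcol c hcP hcQ x hx hxc
  obtain ⟨hl1, hl2, hl3⟩ := hCL3 ι k U kt y b hH hs hmin hE hC hcol c hcP hcQ x hx hxc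
  have hW := hE.wall
  have hy := hW.mem
  have hyb := hW.yb
  have hy0 := hW.y0
  obtain ⟨ν, hν, hνb⟩ := hW.pb
  obtain ⟨ν', hν', hν'b⟩ := hW.qb
  have hsum := hW.sum
  have hyc : 0 < y c := mem_Pos.1 hcP
  have hxQ : x ∈ Neg y := hx.1
  have hyx : y x < 0 := mem_Neg.1 hxQ
  have hcb : b ≠ c := by
    rintro rfl
    linarith
  have hxb : b ≠ x := by
    rintro rfl
    linarith
  have hcx : c ≠ x := by
    rintro rfl
    linarith
  have hca : c ∈ act U := mem_act.2 ⟨y, hy, hyc.ne'⟩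
  have hxa : x ∈ act U := mem_act.2 ⟨y, hy, hyx.ne⟩
  have hcov : ∀ i ∈ act U, i = b ∨ i ∈ Pos y ∨ i ∈ Neg y := by
    intro i hi
    by_cases hib : i = b
    · exact Or.inl hib
    · exact Or.inr (mem_Pos_or_Neg (hy0 i hi hib))
  have hInP : ∀ i ∈ Pos y, InCl U (Pos y) i := fun i hi μ hμ => hμ.2 i hi
  have hInQ : ∀ i ∈ Neg y, InCl U (Neg y) i := fun i hi μ hμ => hμ.2 i hi
  -- the dual basis elements
  obtain ⟨e, he, heB⟩ := hE.basis (fun i => if i = c then 1 else 0)
  obtain ⟨f, hf, hfB⟩ := hE.basis (fun i => if i = x then 1 else 0)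
  have hec : e c = 1 := by
    rw [heB c hca (Or.inr (Or.inr (Or.inr ⟨hInP c hcP, hcQ⟩))), if_pos rfl]
  have hex : e x = 0 := by
    rw [heB x hxa (Or.inr (Or.inr (Or.inl hx))), if_neg hcx.symm]
  have heb : e b = 0 := by
    rw [heB b hW.bact (Or.inl rfl), if_neg hcb]
  have hfc : f c = 0 := by
    rw [hfB c hca (Or.inr (Or.inr (Or.inr ⟨hInP c hcP, hcQ⟩))), if_neg hcx]
  have hfx : f x = 1 := by
    rw [hfB x hxa (Or.inr (Or.inr (Or.inl hx))), if_pos rfl]
  have hfb : f b = 0 := by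
    rw [hfB b hW.bact (Or.inl rfl), if_neg hxb]
  -- the generic point
  have hyW : y ∈ K U {b} := ⟨hy, fun i hi => by rw [Finset.mem_singleton.1 hi]; exact hyb⟩
  obtain ⟨y', hy', h1, h2, h3⟩ := perturb (K U {b}) hyW
    (univ.filter (fun j : ι => ∃ w ∈ K U {b, c, x}, w j ≠ 0))
    (fun j => LinearMap.proj j - e j • LinearMap.proj c - f j • LinearMap.proj x) (by
      intro j hj
      simp only [Finset.mem_filter, Finset.mem_univ, true_and] at hj
      obtain ⟨w, hw, hwj⟩ := hj
      refine ⟨w, K_anti U (by simp) hw, ?_⟩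
      have hwc : w c = 0 := hw.2 c (by simp)
      have hwx : w x = 0 := hw.2 x (by simp)
      simp only [LinearMap.sub_apply, LinearMap.smul_apply, LinearMap.proj_apply, smul_eq_mul,
        hwc, hwx, mul_zero, sub_zero]
      exact hwj)
  have hy'b : y' b = 0 := hy'.2 b (Finset.mem_singleton_self b)
  have hy'c := h1 c hyc
  have hy'x := h2 x hyx
  set v : ι → ℝ := y' - (y' c) • e - (y' x) • f with hv
  have hvj : ∀ j, v j = y' j - y' c * e j - y' x * f j := fun j => rfl
  have hvU : v ∈ U := U.sub_mem (U.sub_mem hy'.1 (U.smul_mem _ he)) (U.smul_mem _ hf)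
  have hvb : v b = 0 := by rw [hvj, hy'b, heb, hfb]; ring
  have hvc : v c = 0 := by rw [hvj, hec, hfc]; ring
  have hvx : v x = 0 := by rw [hvj, hex, hfx]; ring
  have hvK : v ∈ K U {b, c, x} := by
    refine ⟨hvU, fun i hi => ?_⟩
    simp only [Finset.mem_insert, Finset.mem_singleton] at hi
    rcases hi with rfl | rfl | rfl
    · exact hvb
    · exact hvc
    · exact hvx
  have hsign : ∀ j ∈ act U, j ≠ b → 0 ≤ y j * v j := by
    intro j hj hjb
    have hA : ∀ s : ℝ, 0 ≤ s → s < 1 →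
        0 < y j * y' j + s * (-(y j * (y' c * e j + y' x * f j))) := by
      intro s hs0 hs1
      have hz := hSSS ι U kt y b hs hmin hW (y' - s • ((y' c) • e + (y' x) • f))
        (U.sub_mem hy'.1 (U.smul_mem _ (U.add_mem (U.smul_mem _ he) (U.smul_mem _ hf))))
        (by simp [hy'b, heb, hfb]) (by
          intro i hi h
          have hei := heB i hi (Or.inr h)
          have hfi := hfB i hi (Or.inr h)
          have hib : i ≠ b := by
            rintro rfl
            rcases h with h | h | h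
            · have := mem_Pos.1 h.1
              linarith
            · have := mem_Neg.1 h.1
              linarith
            · exact hνb (h.1 ν hν)
          have hzi : (y' - s • ((y' c) • e + (y' x) • f)) i =
              y' i - s * (y' c * e i + y' x * f i) := rfl
          rw [hzi, hei, hfi]
          by_cases hic : i = c
          · rw [if_pos hic, if_neg (by rw [hic]; exact hcx), hic]
            have : y' c - s * (y' c * 1 + y' x * 0) = (1 - s) * y' c := by ring
            rw [this]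
            exact mul_pos hyc (mul_pos (by linarith) hy'c)
          · rw [if_neg hic]
            by_cases hix : i = x
            · rw [if_pos hix, hix]
              have : y' x - s * (y' c * 0 + y' x * 1) = (1 - s) * y' x := by ring
              rw [this]
              exact mul_pos_of_neg_of_neg hyx (mul_neg_of_pos_of_neg (by linarith) hy'x)
            · rw [if_neg hix, mul_zero, mul_zero, add_zero, mul_zero, sub_zero]
              rcases lt_or_gt_of_ne (hy0 i hi hib) with h' | h'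
              · exact mul_pos_of_neg_of_neg h' (h2 i h')
              · exact mul_pos h' (h1 i h')) j hj hjb
      have hzj : (y' - s • ((y' c) • e + (y' x) • f)) j =
          y' j - s * (y' c * e j + y' x * f j) := rfl
      rw [hzj] at hz
      linarith
    have := lim hA
    rw [hvj]
    linarith
  have hstrict : ∀ j ∈ act U, j ≠ b → (∃ w ∈ K U {b, c, x}, w j ≠ 0) → v j ≠ 0 := by
    intro j hj hjb hw
    have := h3 j (by simpa using hw)
    simp only [LinearMap.sub_apply, LinearMap.smul_apply, LinearMap.proj_apply,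
      smul_eq_mul] at this
    rw [hvj]
    intro h0
    apply this
    linarith
  have hPv : ∀ j ∈ Pos y, j ≠ c → 0 < v j := by
    intro j hj hjc
    have hj' := mem_Pos.1 hj
    have hja : j ∈ act U := mem_act.2 ⟨y, hy, hj'.ne'⟩
    have hjb : j ≠ b := by
      rintro rfl
      linarith
    have g1 := hsign j hja hjb
    have g2 := hstrict j hja hjb (hl1 j hj hjc)
    rcases lt_or_gt_of_ne g2 with h | h
    · have := mul_neg_of_pos_of_neg hj' h
      linarith
    · exact h
  have hQv : ∀ j ∈ Neg y, (∃ w ∈ K U {b, c, x}, w j ≠ 0) → v j < 0 := by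
    intro j hj hw
    have hj' := mem_Neg.1 hj
    have hja : j ∈ act U := mem_act.2 ⟨y, hy, hj'.ne⟩
    have hjb : j ≠ b := by
      rintro rfl
      linarith
    have g1 := hsign j hja hjb
    have g2 := hstrict j hja hjb hw
    rcases lt_or_gt_of_ne g2 with h | h
    · exact h
    · have := mul_neg_of_neg_of_pos hj' h
      linarith
  have hcnc : ¬ Colp U (Pos y) c := fun h => hE.cp c h hcQ
  obtain ⟨w0, hw0, hw0b⟩ : ∃ z ∈ U, 0 < z b := by
    obtain ⟨μ, hμ, h0⟩ := mem_act.1 hW.bact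
    rcases lt_or_gt_of_ne h0 with h | h
    · exact ⟨-μ, U.neg_mem hμ, by simpa using h⟩
    · exact ⟨μ, hμ, h⟩
  by_cases hcase : ∃ i ∈ Neg y, i ≠ x ∧ ∀ μ ∈ K U {b, c, x}, μ i = 0
  · -- CASE 2
    obtain ⟨i, hiQ, hix, hi0⟩ := hcase
    obtain ⟨hinc, ξ, γ, hξ, hγ, hlin⟩ := hl2 i hiQ hix hi0
    have hi' := mem_Neg.1 hiQ
    have hia : i ∈ act U := mem_act.2 ⟨y, hy, hi'.ne⟩
    have hei : e i = γ := by rw [hlin e he, hex, hec]; ring
    have hfi : f i = ξ := by rw [hlin f hf, hfx, hfc]; ring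
    obtain ⟨ρ, hρ, hρ2⟩ : ∃ ρ : ℝ, 0 < ρ ∧ ρ * ξ < -γ := by
      refine ⟨-γ / (2 * ξ), div_pos (by linarith) (by linarith), ?_⟩
      have : -γ / (2 * ξ) * ξ = -γ / 2 := by field_simp
      rw [this]
      linarith
    set w : ι → ℝ := -e - ρ • f with hw
    have hwj : ∀ j, w j = -e j - ρ * f j := fun j => rfl
    have hwU : w ∈ U := U.sub_mem (U.neg_mem he) (U.smul_mem _ hf)
    obtain ⟨ε, hε, hzP, hzN⟩ := nudge v w
    set z : ι → ℝ := v + ε • w with hz
    have hzU : z ∈ U := U.add_mem hvU (U.smul_mem _ hwU)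
    have hzb : z b = 0 := by
      have : z b = v b + ε * w b := rfl
      rw [this, hvb, hwj, heb, hfb]
      ring
    have hcN : c ∈ Neg z := by
      rw [hzN]
      refine Finset.mem_union_right _ (Finset.mem_sdiff.2 ⟨mem_Neg.2 ?_, ?_⟩)
      · rw [hwj, hec, hfc]
        norm_num
      · rw [mem_Pos, hvc]
        exact lt_irrefl 0
    have hxN : x ∈ Neg z := by
      rw [hzN]
      refine Finset.mem_union_right _ (Finset.mem_sdiff.2 ⟨mem_Neg.2 ?_, ?_⟩)
      · rw [hwj, hex, hfx]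
        linarith
      · rw [mem_Pos, hvx]
        exact lt_irrefl 0
    have hiP : i ∈ Pos z := by
      rw [hzP]
      refine Finset.mem_union_right _ (Finset.mem_sdiff.2 ⟨mem_Pos.2 ?_, ?_⟩)
      · rw [hwj, hei, hfi]
        linarith
      · rw [mem_Neg, hi0 v hvK]
        exact lt_irrefl 0
    have hPz : (Pos y).erase c ⊆ Pos z := by
      intro j hj
      rw [hzP]
      exact Finset.mem_union_left _ (mem_Pos.2 (hPv j (Finset.mem_of_mem_erase hj)
        (Finset.ne_of_mem_erase hj)))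
    have hQz : (Neg y).erase i ⊆ Neg z := by
      intro j hj
      have hjQ := Finset.mem_of_mem_erase hj
      by_cases hjx : j = x
      · rw [hjx]
        exact hxN
      · rw [hzN]
        refine Finset.mem_union_left _ (mem_Neg.2 (hQv j hjQ ?_))
        by_contra hcon
        push Not at hcon
        exact Finset.ne_of_mem_erase hj (hl3 j hjQ hjx hcon i hiQ hix hi0)
    have hz0 : ∀ j ∈ act U, j ≠ b → z j ≠ 0 := by
      intro j hj hjb
      rcases hcov j hj with h | h | h
      · exact absurd h hjb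
      · by_cases hjc : j = c
        · rw [hjc]
          exact (mem_Neg.1 hcN).ne
        · exact (mem_Pos.1 (hPz (Finset.mem_erase.2 ⟨hjc, h⟩))).ne'
      · by_cases hji : j = i
        · rw [hji]
          exact (mem_Pos.1 hiP).ne'
        · exact (mem_Neg.1 (hQz (Finset.mem_erase.2 ⟨hji, h⟩))).ne
    have hlw := leave_wall' hmin hzU hw0 hzb hw0b hz0
    have k1 : kap U (Pos z) ≤ kap U (insert i (Pos y)) := by
      refine kap_le_of_le fun μ hμ => ⟨hμ.1, fun j hj => ?_⟩
      rcases Finset.mem_insert.1 hj with rfl | hj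
      · exact hμ.2 _ hiP
      · by_cases hjc : j = c
        · rw [hjc]
          exact noCol hcnc hcP hPz hμ
        · exact hμ.2 j (hPz (Finset.mem_erase.2 ⟨hjc, hj⟩))
    have k2 : kap U (insert i (Pos y)) + 1 = kap U (Pos y) := by
      apply kap_insert_of_ne
      by_contra hcon
      push Not at hcon
      have := mem_Pos.1 (hC i hia hcon (hInQ i hiQ))
      linarith
    have k3 : kap U (insert b (Neg z)) ≤ kap U (insert b (Neg y)) := by
      refine kap_le_of_le fun μ hμ => ⟨hμ.1, fun j hj => ?_⟩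
      rcases Finset.mem_insert.1 hj with rfl | hj
      · exact hμ.2 _ (Finset.mem_insert_self _ _)
      · by_cases hji : j = i
        · rw [hji]
          exact noCol hinc hiQ (hQz.trans (Finset.subset_insert b _)) hμ
        · exact hμ.2 j (Finset.mem_insert_of_mem (hQz (Finset.mem_erase.2 ⟨hji, hj⟩)))
    have k4 := kap_insert_of_ne U (Neg y) b ⟨ν', hν', hν'b⟩
    omega
  · -- CASE 1
    push Not at hcase
    set w : ι → ℝ := f - e with hw
    have hwj : ∀ j, w j = f j - e j := fun j => rfl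
    have hwU : w ∈ U := U.sub_mem hf he
    obtain ⟨ε, hε, hzP, hzN⟩ := nudge v w
    set z : ι → ℝ := v + ε • w with hz
    have hzU : z ∈ U := U.add_mem hvU (U.smul_mem _ hwU)
    have hzb : z b = 0 := by
      have : z b = v b + ε * w b := rfl
      rw [this, hvb, hwj, heb, hfb]
      ring
    have hcN : c ∈ Neg z := by
      rw [hzN]
      refine Finset.mem_union_right _ (Finset.mem_sdiff.2 ⟨mem_Neg.2 ?_, ?_⟩)
      · rw [hwj, hec, hfc]
        norm_num
      · rw [mem_Pos, hvc]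
        exact lt_irrefl 0
    have hxP : x ∈ Pos z := by
      rw [hzP]
      refine Finset.mem_union_right _ (Finset.mem_sdiff.2 ⟨mem_Pos.2 ?_, ?_⟩)
      · rw [hwj, hex, hfx]
        norm_num
      · rw [mem_Neg, hvx]
        exact lt_irrefl 0
    have hPz : (Pos y).erase c ⊆ Pos z := by
      intro j hj
      rw [hzP]
      exact Finset.mem_union_left _ (mem_Pos.2 (hPv j (Finset.mem_of_mem_erase hj)
        (Finset.ne_of_mem_erase hj)))
    have hQz : (Neg y).erase x ⊆ Neg z := by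
      intro j hj
      rw [hzN]
      exact Finset.mem_union_left _ (mem_Neg.2 (hQv j (Finset.mem_of_mem_erase hj)
        (hcase j (Finset.mem_of_mem_erase hj) (Finset.ne_of_mem_erase hj))))
    have hz0 : ∀ j ∈ act U, j ≠ b → z j ≠ 0 := by
      intro j hj hjb
      rcases hcov j hj with h | h | h
      · exact absurd h hjb
      · by_cases hjc : j = c
        · rw [hjc]
          exact (mem_Neg.1 hcN).ne
        · exact (mem_Pos.1 (hPz (Finset.mem_erase.2 ⟨hjc, h⟩))).ne'
      · by_cases hjx : j = x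
        · rw [hjx]
          exact (mem_Pos.1 hxP).ne'
        · exact (mem_Neg.1 (hQz (Finset.mem_erase.2 ⟨hjx, h⟩))).ne
    have hlw := leave_wall' hmin hzU hw0 hzb hw0b hz0
    have k1 : kap U (Pos z) ≤ kap U (insert x (Pos y)) := by
      refine kap_le_of_le fun μ hμ => ⟨hμ.1, fun j hj => ?_⟩
      rcases Finset.mem_insert.1 hj with rfl | hj
      · exact hμ.2 _ hxP
      · by_cases hjc : j = c
        · rw [hjc]
          exact noCol hcnc hcP hPz hμ
        · exact hμ.2 j (hPz (Finset.mem_erase.2 ⟨hjc, hj⟩))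
    have k2 : kap U (insert x (Pos y)) + 1 = kap U (Pos y) := by
      apply kap_insert_of_ne
      by_contra hcon
      push Not at hcon
      exact hE.cq x hx hcon
    have k3 : kap U (insert b (Neg z)) ≤ kap U (insert b (insert c ((Neg y).erase x))) := by
      refine kap_anti U (Finset.insert_subset_insert b (Finset.insert_subset hcN hQz))
    have k4 : kap U (insert b (insert c ((Neg y).erase x))) + 1 =
        kap U (insert c ((Neg y).erase x)) := by
      refine kap_insert_of_ne U _ b ⟨ν', ⟨hν'.1, fun j hj => ?_⟩, hν'b⟩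
      rcases Finset.mem_insert.1 hj with rfl | hj
      · exact hcQ ν' hν'
      · exact hν'.2 j (Finset.mem_of_mem_erase hj)
    have k5 := kap_insert_of_ne U ((Neg y).erase x) c hxc
    have k6 := kap_insert_of_ne U ((Neg y).erase x) x hx.2
    rw [Finset.insert_erase hxQ] at k6
    omega

end MPa0e17f
end

section
/-! # SMP: the simple case for `n ≤ 2m + 2` -/
set_option autoImplicit false

namespace MPa0e17f

open Finset Module

namespace SMPM

/-- the elements of the negative side which are in the closure of the positive side -/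
noncomputable def bad {ι : Type} [Fintype ι] [DecidableEq ι] (U : Submodule ℝ (ι → ℝ))
    (y : ι → ℝ) : Finset ι := by
  classical exact (Neg y).filter (fun c => InCl U (Pos y) c)

lemma mem_bad {ι : Type} [Fintype ι] [DecidableEq ι] {U : Submodule ℝ (ι → ℝ)}
    {y : ι → ℝ} {c : ι} : c ∈ bad U y ↔ c ∈ Neg y ∧ InCl U (Pos y) c := by
  classical
  unfold bad
  rw [Finset.mem_filter]

end SMPM

open SMPM in
theorem specSMP (hCNT : SpecCNT) (hCLP : SpecCLP) (hFLP : SpecFLP) (hXPR : SpecXPR)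
    (hSFN : SpecSFN) : SpecSMP := by
  classical
  intro ι _ _ k U hm hn H1 H2 hs
  by_cases hn' : (act U).card ≤ 2 * finrank ℝ U + 1
  · exact simple_case hm hn' H1 H2 hs
  have hcard : (act U).card = 2 * finrank ℝ U + 2 := by omega
  by_contra hbad
  have hbad' : ∀ l ∈ U, (∀ i ∈ act U, l i ≠ 0) →
      finrank ℝ U < kap U (Pos l) + kap U (Neg l) + (k + 1) := by
    intro l hl hl0
    by_contra hc
    exact hbad ⟨l, hl, hl0, not_lt.1 hc⟩
  have hexn : ∃ n, ∃ l ∈ U, (∀ i ∈ act U, l i ≠ 0) ∧ kap U (Pos l) + kap U (Neg l) = n := by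
    obtain ⟨l, hl, hl0⟩ := exists_nowhere_zero U
    exact ⟨_, l, hl, hl0, rfl⟩
  set kt := Nat.find hexn with hktdef
  have hex := Nat.find_spec hexn
  rw [← hktdef] at hex
  have hmin : MinK U kt :=
    fun l hl hl0 => Nat.find_min' hexn ⟨l, hl, hl0, rfl⟩
  have hktb : finrank ℝ U < kt + (k + 1) := by
    obtain ⟨l, hl, hl0, hlk⟩ := hex
    have := hbad' l hl hl0
    omega
  obtain ⟨y1, hy1, b1, hb1, hyb1, hy01, hp1, hq1, hsum1⟩ :=
    wall H2 hs hmin hex (by omega)
  have hW1 : Wall U kt y1 b1 := ⟨hy1, hb1, hyb1, hy01, hp1, hq1, hsum1⟩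
  -- a wall with the minimal number of bad elements
  have hexw : ∃ n, ∃ y b, Wall U kt y b ∧ (bad U y).card = n := ⟨_, y1, b1, hW1, rfl⟩
  obtain ⟨y, b, hW, hyn⟩ := Nat.find_spec hexw
  have hEq : Eqc k U kt y b := hCNT ι k U kt y b hm hcard H1 hs hmin hktb hW
  have hempty : ∀ c, c ∉ bad U y := by
    intro c hc
    obtain ⟨hcN, hcP⟩ := mem_bad.1 hc
    obtain ⟨y', hW', hP', hN'⟩ := hFLP ι k U kt y b hs hmin hEq c hcN hcP
    have hlt : (bad U y').card < (bad U y).card := by
      apply Finset.card_lt_card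
      rw [Finset.ssubset_iff_of_subset]
      · refine ⟨c, hc, ?_⟩
        intro h
        have := (mem_bad.1 h).1
        rw [hN'] at this
        exact absurd rfl (Finset.ne_of_mem_erase this)
      · intro i hi
        obtain ⟨hi1, hi2⟩ := mem_bad.1 hi
        rw [hN'] at hi1
        refine mem_bad.2 ⟨Finset.mem_of_mem_erase hi1, ?_⟩
        intro μ hμ
        refine hi2 μ ⟨hμ.1, ?_⟩
        intro j hj
        rw [hP'] at hj
        rcases Finset.mem_insert.1 hj with rfl | hj
        · exact hcP μ hμ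
        · exact hμ.2 j hj
    have := Nat.find_min' hexw ⟨y', b, hW', rfl⟩
    omega
  have hall : ∀ i ∈ act U, InCl U (Pos y) i → InCl U (Neg y) i → i ∈ Pos y := by
    intro i hi hiP hiN
    have hib : i ≠ b := by
      rintro rfl
      obtain ⟨ν, hν, hν0⟩ := hW.pb
      exact hν0 (hiP ν hν)
    rcases mem_Pos_or_Neg (hW.y0 i hi hib) with h | h
    · exact h
    · exact absurd (mem_bad.2 ⟨h, hiP⟩) (hempty i)
  obtain ⟨c, hc, hcP, hcN⟩ := hEq.cne
  have hcPos : c ∈ Pos y := hall c hc hcP hcN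
  have hcol := hCLP ι U kt y b H2 hs hmin hW
  obtain ⟨x, hx, hxμ⟩ := hXPR ι k U kt y b hEq c hcPos hcN
  exact hSFN ι k U kt y b H1 hs hmin hEq hall hcol c hcPos hcN x hx hxμ

end MPa0e17f
end

section
/-!
# SSS: signs on `B ∪ C` determine the signs of an element of the wall
-/
set_option autoImplicit false
set_option linter.unusedSectionVars false

namespace MPa0e17f

open Finset Module

namespace SSSM

variable {ι : Type} [Fintype ι] [DecidableEq ι]

theorem aux {U : Submodule ℝ (ι → ℝ)} {kt : ℕ} {y : ι → ℝ} {b : ι} (hs : Simple U)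
    (hmin : MinK U kt) (hw : Wall U kt y b) {u : ι → ℝ} (hu : u ∈ U) (hub : u b = 0)
    (hsg : ∀ i ∈ act U, (Colp U (Pos y) i ∨ Colp U (Neg y) i ∨
      (InCl U (Pos y) i ∧ InCl U (Neg y) i)) → 0 < y i * u i)
    {i0 : ι} (hi0 : y i0 * u i0 < 0) : False := by
  classical
  obtain ⟨hy, hb, hyb, hy0, ⟨ν, hν, hνb⟩, ⟨ν', hν', hν'b⟩, hsum⟩ := hw
  set P := Pos y with hP
  set Q := Neg y with hQ
  have hcov : ∀ i ∈ act U, i = b ∨ i ∈ P ∨ i ∈ Q := by
    intro i hi
    by_cases hib : i = b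
    · exact Or.inl hib
    · exact Or.inr (mem_Pos_or_Neg (hy0 i hi hib))
  have hyW : y ∈ K U {b} := ⟨hy, fun i hi => by rw [Finset.mem_singleton.1 hi]; exact hyb⟩
  obtain ⟨y', hy', h1, h2, h3⟩ := perturb (K U {b}) hyW
    (univ.filter (fun p : ι × ι => ∃ w ∈ K U {b}, w p.1 * u p.2 ≠ w p.2 * u p.1))
    (fun p => u p.2 • LinearMap.proj p.1 - u p.1 • LinearMap.proj p.2) (by
      rintro ⟨i, j⟩ hp
      simp only [Finset.mem_filter, Finset.mem_univ, true_and] at hp
      obtain ⟨w, hw, hne⟩ := hp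
      refine ⟨w, hw, ?_⟩
      simp only [LinearMap.sub_apply, LinearMap.smul_apply, LinearMap.proj_apply, smul_eq_mul]
      intro h
      apply hne
      linarith)
  have hy'b : y' b = 0 := hy'.2 b (Finset.mem_singleton_self b)
  have hzero : ∀ i, y i = 0 → y' i = 0 := by
    intro i hi
    by_cases hib : i = b
    · rw [hib]; exact hy'b
    · exact not_act (fun hc => hy0 i hc hib hi) hy'.1
  obtain ⟨hP', hQ'⟩ := same_signs h1 h2 hzero
  rw [← hP] at hP'
  rw [← hQ] at hQ'
  -- the product with `u` has the same sign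
  have hprod : ∀ i, 0 < y i * u i → ¬ y' i * u i < 0 := by
    intro i hi
    rcases lt_trichotomy (y i) 0 with h' | h' | h'
    · have hu0 : u i < 0 := by
        by_contra hc
        have := mul_nonneg (neg_nonneg.2 h'.le) (not_lt.1 hc)
        linarith
      have := mul_pos_of_neg_of_neg (h2 i h') hu0
      exact not_lt.2 this.le
    · rw [h'] at hi; simp at hi
    · have hu0 : 0 < u i := by
        by_contra hc
        have := mul_nonneg h'.le (neg_nonneg.2 (not_lt.1 hc))
        linarith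
      have := mul_pos (h1 i h') hu0
      exact not_lt.2 this.le
  obtain ⟨Z, hZne, hZ1, hZ2, _, ⟨t, htP, htN⟩⟩ := crossing y' u (by
      intro i hi
      by_cases hib : i = b
      · rw [hib]; exact hub
      · apply not_act _ hu
        intro hc
        rcases lt_or_gt_of_ne (hy0 i hc hib) with h' | h'
        · have := h2 i h'; linarith
        · have := h1 i h'; linarith) ⟨i0, by
      rcases lt_trichotomy (y i0) 0 with h' | h' | h'
      · have hu0 : 0 < u i0 := by
          by_contra hc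
          have := mul_nonneg_of_nonpos_of_nonpos h'.le (not_lt.1 hc)
          linarith
        exact mul_neg_of_neg_of_pos (h2 i0 h') hu0
      · rw [h'] at hi0; simp at hi0
      · have hu0 : u i0 < 0 := by
          by_contra hc
          have := mul_nonneg h'.le (not_lt.1 hc)
          linarith
        exact mul_neg_of_pos_of_neg (h1 i0 h') hu0⟩
  rw [hP', hQ'] at htP htN
  have hZu : ∀ i ∈ Z, u i ≠ 0 := by
    intro i hi hc
    have := hZ1 i hi
    rw [hc] at this; simp at this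
  have hZact : ∀ i ∈ Z, i ∈ act U := fun i hi => mem_act.2 ⟨u, hu, hZu i hi⟩
  have hZBC : ∀ i ∈ Z, ¬ (Colp U P i ∨ Colp U Q i ∨ (InCl U P i ∧ InCl U Q i)) :=
    fun i hi hc => hprod i (hsg i (hZact i hi) hc) (hZ1 i hi)
  have hZb : ∀ i ∈ Z, i ≠ b := by
    intro i hi hc
    exact hZu i hi (by rw [hc]; exact hub)
  have hpar : ∀ i ∈ Z, ∀ j ∈ Z, ∀ w ∈ K U {b}, w i * u j = w j * u i := by
    intro i hi j hj
    by_contra hcon
    push Not at hcon
    obtain ⟨w, hw, hne⟩ := hcon
    apply h3 (i, j) (by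
      simp only [Finset.mem_filter, Finset.mem_univ, true_and]
      exact ⟨w, hw, hne⟩)
    have := hZ2 i hi j hj
    simp only [LinearMap.sub_apply, LinearMap.smul_apply, LinearMap.proj_apply, smul_eq_mul]
    linarith
  have huniqP : ∀ i ∈ Z, i ∈ P → ∀ j ∈ Z, j ∈ P → i = j := fun i hi hiP j hj hjP =>
    no_two hs hν hνb hiP hjP (hZu j hj) (hZact i hi) (hZact j hj) (hpar i hi j hj)
  have huniqQ : ∀ i ∈ Z, i ∈ Q → ∀ j ∈ Z, j ∈ Q → i = j := fun i hi hiP j hj hjP =>
    no_two hs hν' hν'b hiP hjP (hZu j hj) (hZact i hi) (hZact j hj) (hpar i hi j hj)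
  -- elements of Z are not in the closure of the other side
  have hclP : ∀ j ∈ Z, j ∈ Q → kap U (insert j P) + 1 = kap U P := by
    intro j hj hjQ
    apply kap_insert_of_ne
    by_contra hc
    push Not at hc
    exact hZBC j hj (Or.inr (Or.inr ⟨hc, fun μ hμ => hμ.2 j hjQ⟩))
  have hclQ : ∀ j ∈ Z, j ∈ P → kap U (insert j Q) + 1 = kap U Q := by
    intro j hj hjP
    apply kap_insert_of_ne
    by_contra hc
    push Not at hc
    exact hZBC j hj (Or.inr (Or.inr ⟨fun μ hμ => hμ.2 j hjP, hc⟩))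
  -- non-coloops
  have hncP : ∀ i ∈ Z, i ∈ P → ∀ S : Finset ι, P.erase i ⊆ S → K U S ≤ K U (P ∪ S) := by
    intro i hi hiP S hS μ hμ
    have h5 : μ i = 0 := by
      by_contra hc
      exact hZBC i hi (Or.inl ⟨hiP, μ, K_anti U hS hμ, hc⟩)
    refine ⟨hμ.1, fun j hj => ?_⟩
    rcases Finset.mem_union.1 hj with hj | hj
    · by_cases hji : j = i
      · rw [hji]; exact h5
      · exact hμ.2 j (hS (Finset.mem_erase.2 ⟨hji, hj⟩))
    · exact hμ.2 j hj
  have hncQ : ∀ i ∈ Z, i ∈ Q → ∀ S : Finset ι, Q.erase i ⊆ S → K U S ≤ K U (Q ∪ S) := by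
    intro i hi hiP S hS μ hμ
    have h5 : μ i = 0 := by
      by_contra hc
      exact hZBC i hi (Or.inr (Or.inl ⟨hiP, μ, K_anti U hS hμ, hc⟩))
    refine ⟨hμ.1, fun j hj => ?_⟩
    rcases Finset.mem_union.1 hj with hj | hj
    · by_cases hji : j = i
      · rw [hji]; exact h5
      · exact hμ.2 j (hS (Finset.mem_erase.2 ⟨hji, hj⟩))
    · exact hμ.2 j hj
  have herP : ∀ i ∈ Z, i ∈ P → P.erase i ⊆ P \ Z := by
    intro i hi hiP j hj
    rw [Finset.mem_erase] at hj
    refine Finset.mem_sdiff.2 ⟨hj.2, fun hjZ => hj.1 (huniqP j hjZ hj.2 i hi hiP)⟩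
  have herQ : ∀ i ∈ Z, i ∈ Q → Q.erase i ⊆ Q \ Z := by
    intro i hi hiP j hj
    rw [Finset.mem_erase] at hj
    refine Finset.mem_sdiff.2 ⟨hj.2, fun hjZ => hj.1 (huniqQ j hjZ hj.2 i hi hiP)⟩
  have hy''U : y' + t • u ∈ U := U.add_mem hy'.1 (U.smul_mem t hu)
  have hy''b : (y' + t • u) b = 0 := by
    simp [hy'b, hub]
  have hy''0 : ∀ i ∈ act U, i ≠ b → (y' + t • u) i ≠ 0 := by
    intro i hi hib
    rcases hcov i hi with h | h | h
    · exact absurd h hib
    · by_cases hiZ : i ∈ Z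
      · exact (mem_Neg.1 (by rw [htN]; simp [h, hiZ] : i ∈ Neg (y' + t • u))).ne
      · exact (mem_Pos.1 (by rw [htP]; simp [h, hiZ] : i ∈ Pos (y' + t • u))).ne'
    · by_cases hiZ : i ∈ Z
      · exact (mem_Pos.1 (by rw [htP]; simp [h, hiZ] : i ∈ Pos (y' + t • u))).ne'
      · exact (mem_Neg.1 (by rw [htN]; simp [h, hiZ] : i ∈ Neg (y' + t • u))).ne
  obtain ⟨z, hz, hzb⟩ : ∃ z ∈ U, 0 < z b := by
    obtain ⟨μ, hμ, h0⟩ := mem_act.1 hb
    rcases lt_or_gt_of_ne h0 with h | h
    · exact ⟨-μ, U.neg_mem hμ, by simpa using h⟩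
    · exact ⟨μ, hμ, h⟩
  have hL := leave_wall hmin hy''U hz hy''b hzb hy''0
  have hL' := leave_wall' hmin hy''U hz hy''b hzb hy''0
  have hkbP := kap_insert_of_ne U P b ⟨ν, hν, hνb⟩
  have hkbQ := kap_insert_of_ne U Q b ⟨ν', hν', hν'b⟩
  by_cases hcaseP : ∃ i ∈ Z, i ∈ P
  · obtain ⟨i, hiZ, hiP⟩ := hcaseP
    have hi2 := hclQ i hiZ hiP
    by_cases hcaseQ : ∃ j ∈ Z, j ∈ Q
    · obtain ⟨j, hjZ, hjQ⟩ := hcaseQ
      have hj2 := hclP j hjZ hjQ
      have e1 : kap U (insert b (Pos (y' + t • u))) ≤ kap U (insert j P) := by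
        refine (kap_anti U (Finset.subset_insert b _)).trans (kap_le_of_le ?_)
        rw [htP]
        refine (hncP i hiZ hiP _ ((herP i hiZ hiP).trans Finset.subset_union_left)).trans
          (K_anti U ?_)
        intro x hx
        rcases Finset.mem_insert.1 hx with rfl | hx
        · exact Finset.mem_union_right _ (Finset.mem_union_right _
            (Finset.mem_inter.2 ⟨hjQ, hjZ⟩))
        · exact Finset.mem_union_left _ hx
      have e2 : kap U (Neg (y' + t • u)) ≤ kap U (insert i Q) := by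
        refine kap_le_of_le ?_
        rw [htN]
        refine (hncQ j hjZ hjQ _ ((herQ j hjZ hjQ).trans Finset.subset_union_left)).trans
          (K_anti U ?_)
        intro x hx
        rcases Finset.mem_insert.1 hx with rfl | hx
        · exact Finset.mem_union_right _ (Finset.mem_union_right _
            (Finset.mem_inter.2 ⟨hiP, hiZ⟩))
        · exact Finset.mem_union_left _ hx
      omega
    · have hQZ : Q \ Z = Q := by
        rw [Finset.sdiff_eq_self_iff_disjoint, Finset.disjoint_left]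
        intro x hx hxZ
        exact hcaseQ ⟨x, hxZ, hx⟩
      have e1 : kap U (insert b (Pos (y' + t • u))) ≤ kap U (insert b P) := by
        refine kap_le_of_le ?_
        rw [htP]
        refine (hncP i hiZ hiP _ ((herP i hiZ hiP).trans
          (Finset.subset_union_left.trans (Finset.subset_insert b _)))).trans (K_anti U ?_)
        intro x hx
        rcases Finset.mem_insert.1 hx with rfl | hx
        · exact Finset.mem_union_right _ (Finset.mem_insert_self x _)
        · exact Finset.mem_union_left _ hx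
      have e2 : kap U (Neg (y' + t • u)) ≤ kap U (insert i Q) := by
        refine kap_anti U ?_
        rw [htN, hQZ]
        intro x hx
        rcases Finset.mem_insert.1 hx with rfl | hx
        · exact Finset.mem_union_right _ (Finset.mem_inter.2 ⟨hiP, hiZ⟩)
        · exact Finset.mem_union_left _ hx
      omega
  · have hPZ : P \ Z = P := by
      rw [Finset.sdiff_eq_self_iff_disjoint, Finset.disjoint_left]
      intro x hx hxZ
      exact hcaseP ⟨x, hxZ, hx⟩
    obtain ⟨j, hjZ⟩ := hZne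
    have hjQ : j ∈ Q := by
      rcases hcov j (hZact j hjZ) with h | h | h
      · exact absurd h (hZb j hjZ)
      · exact absurd ⟨j, hjZ, h⟩ hcaseP
      · exact h
    have hj2 := hclP j hjZ hjQ
    have e1 : kap U (insert b (Neg (y' + t • u))) ≤ kap U (insert b Q) := by
      refine kap_le_of_le ?_
      rw [htN]
      refine (hncQ j hjZ hjQ _ ((herQ j hjZ hjQ).trans
        (Finset.subset_union_left.trans (Finset.subset_insert b _)))).trans (K_anti U ?_)
      intro x hx
      rcases Finset.mem_insert.1 hx with rfl | hx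
      · exact Finset.mem_union_right _ (Finset.mem_insert_self x _)
      · exact Finset.mem_union_left _ hx
    have e2 : kap U (Pos (y' + t • u)) ≤ kap U (insert j P) := by
      refine kap_anti U ?_
      rw [htP, hPZ]
      intro x hx
      rcases Finset.mem_insert.1 hx with rfl | hx
      · exact Finset.mem_union_right _ (Finset.mem_inter.2 ⟨hjQ, hjZ⟩)
      · exact Finset.mem_union_left _ hx
    omega

/-- an element of the wall which is not zero at `i0` -/
theorem ex_ne {U : Submodule ℝ (ι → ℝ)} {kt : ℕ} {y : ι → ℝ} {b : ι} (hs : Simple U)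
    (hw : Wall U kt y b) {i0 : ι} (hi0 : i0 ∈ act U) (hib : i0 ≠ b) :
    ∃ w ∈ K U {b}, w i0 ≠ 0 := by
  by_contra hcon
  push Not at hcon
  obtain ⟨ν, hν, hνb⟩ := hw.pb
  apply hs i0 hi0 b hw.bact hib
  refine ⟨ν i0 / ν b, fun μ hμ => ?_⟩
  have hm : μ - (μ b / ν b) • ν ∈ K U {b} := by
    refine ⟨U.sub_mem hμ (U.smul_mem _ hν.1), fun x hx => ?_⟩
    rw [Finset.mem_singleton] at hx
    subst hx
    simp only [Pi.sub_apply, Pi.smul_apply, smul_eq_mul]
    field_simp
    ring
  have h1 := hcon _ hm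
  simp only [Pi.sub_apply, Pi.smul_apply, smul_eq_mul] at h1
  have h2 : μ i0 = μ b / ν b * ν i0 := by linarith
  rw [h2]
  ring

end SSSM

open SSSM in
theorem specSSS : SpecSSS := by
  classical
  intro ι _ _ U kt y b hs hmin hw z hz hzb hsg i0 hi0 hib
  by_contra hcon
  rcases lt_or_eq_of_le (not_lt.1 hcon) with h | h
  · exact aux hs hmin hw hz hzb hsg h
  · have hyi := hw.y0 i0 hi0 hib
    have hzi : z i0 = 0 := by
      rcases mul_eq_zero.1 h with h' | h'
      · exact absurd h' hyi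
      · exact h'
    obtain ⟨w, hwK, hw0⟩ : ∃ w ∈ K U {b}, y i0 * w i0 < 0 := by
      obtain ⟨w, hwK, hw0⟩ := ex_ne hs hw hi0 hib
      rcases lt_or_gt_of_ne (mul_ne_zero hyi hw0) with h' | h'
      · exact ⟨w, hwK, h'⟩
      · exact ⟨-w, (K U {b}).neg_mem hwK, by
          simp only [Pi.neg_apply, mul_neg]; linarith⟩
    have hwb : w b = 0 := hwK.2 b (Finset.mem_singleton_self b)
    obtain ⟨ε, hε, h1, h2, h3⟩ := exists_small
      ((act U).filter (fun i => Colp U (Pos y) i ∨ Colp U (Neg y) i ∨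
        (InCl U (Pos y) i ∧ InCl U (Neg y) i)))
      (fun i => y i * z i) (fun i => y i * w i) (by
        intro i hi
        rw [Finset.mem_filter] at hi
        exact Or.inl (hsg i hi.1 hi.2).ne')
    refine aux hs hmin hw (u := z + ε • w) (U.add_mem hz (U.smul_mem ε hwK.1)) ?_ ?_
      (i0 := i0) ?_
    · simp [hzb, hwb]
    · intro i hi hc
      have h4 := h1 i (Finset.mem_filter.2 ⟨hi, hc⟩) (hsg i hi hc)
      simp only [Pi.add_apply, Pi.smul_apply, smul_eq_mul]
      nlinarith [h4]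
    · simp only [Pi.add_apply, Pi.smul_apply, smul_eq_mul, hzi, zero_add]
      have h5 := mul_neg_of_pos_of_neg hε hw0
      nlinarith [h5]

end MPa0e17f
end

section
/-!
# STP: one step
-/
set_option autoImplicit false

namespace MPa0e17f

open Finset Module

theorem specSTP : SpecSTP := by
  classical
  intro ι _ _ U y u hy hu hI
  -- the perturbation
  obtain ⟨y', hy', hp, hn, hf⟩ := perturb U hy.1
    ((act U ×ˢ act U).filter fun q => ¬ Prl U q.1 q.2 ∧ u q.2 ≠ 0)
    (fun q => u q.2 • LinearMap.proj q.1 - u q.1 • LinearMap.proj q.2) (by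
      rintro ⟨i, j⟩ hq
      rw [mem_filter] at hq
      obtain ⟨_, hq1, hq2⟩ := hq
      by_contra hcon
      push Not at hcon
      apply hq1
      refine ⟨u i / u j, fun μ hμ => ?_⟩
      have h1 : u j * μ i - u i * μ j = 0 := hcon μ hμ
      have hq2' : u j ≠ 0 := hq2
      field_simp
      linarith)
  have h0 : ∀ i, y i = 0 → i ∉ act U := fun i hi hia => hy.2 i hia hi
  have hss := same_signs hp hn (fun i hi => not_act (h0 i hi) hy')
  have hyy' : ∀ i, y i ≠ 0 → y' i ≠ 0 := by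
    intro i hi
    rcases lt_or_gt_of_ne hi with h | h
    · exact (hn i h).ne
    · exact (hp i h).ne'
  have hsgn : ∀ i, y' i * u i < 0 → y i * u i < 0 := by
    intro i hi
    have h1 : y i ≠ 0 := by
      intro h
      rw [not_act (h0 i h) hy', zero_mul] at hi
      exact lt_irrefl _ hi
    rcases lt_or_gt_of_ne h1 with h | h
    · have h2 := hn i h
      have h3 : 0 < u i := by
        by_contra hc
        exact absurd hi (not_lt.2 (mul_nonneg_of_nonpos_of_nonpos h2.le (not_lt.1 hc)))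
      exact mul_neg_of_neg_of_pos h h3
    · have h2 := hp i h
      have h3 : u i < 0 := by
        by_contra hc
        exact absurd hi (not_lt.2 (mul_nonneg h2.le (not_lt.1 hc)))
      exact mul_neg_of_pos_of_neg h h3
  have hsgn' : ∀ i, y i * u i < 0 → y' i * u i < 0 := by
    intro i hi
    have h1 : y i ≠ 0 := by
      intro h
      rw [h, zero_mul] at hi
      exact lt_irrefl _ hi
    rcases lt_or_gt_of_ne h1 with h | h
    · have h3 : 0 < u i := by
        by_contra hc
        exact absurd hi (not_lt.2 (mul_nonneg_of_nonpos_of_nonpos h.le (not_lt.1 hc)))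
      exact mul_neg_of_neg_of_pos (hn i h) h3
    · have h3 : u i < 0 := by
        by_contra hc
        exact absurd hi (not_lt.2 (mul_nonneg h.le (not_lt.1 hc)))
      exact mul_neg_of_pos_of_neg (hp i h) h3
  obtain ⟨Z, hZ, hZ1, hZ2, ⟨t0, ht0, ht0'⟩, ⟨t1, ht1, ht1'⟩⟩ := crossing y' u (by
      intro i hi
      apply not_act _ hu
      intro hia
      exact hyy' i (hy.2 i hia) hi) (by
      obtain ⟨i, hi⟩ := hI
      exact ⟨i, hsgn' i hi⟩)
  have hu0 : ∀ i ∈ Z, u i ≠ 0 := by
    intro i hi h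
    have := hZ1 i hi
    rw [h, mul_zero] at this
    exact lt_irrefl _ this
  have hZa : Z ⊆ act U := by
    intro i hi
    by_contra hia
    exact hu0 i hi (not_act hia hu)
  have hm0 : y' + t0 • u ∈ U := U.add_mem hy' (U.smul_mem _ hu)
  have hm1 : y' + t1 • u ∈ U := U.add_mem hy' (U.smul_mem _ hu)
  refine ⟨Z, hZ, hZa, fun i hi => hsgn i (hZ1 i hi), ?_, ?_, ?_, ?_⟩
  · intro i hi j hj
    by_contra hnp
    have h1 := hf (i, j) (by
      rw [mem_filter, mem_product]
      exact ⟨⟨hZa hi, hZa hj⟩, hnp, hu0 j hj⟩)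
    apply h1
    have h2 := hZ2 i hi j hj
    show u j * y' i - u i * y' j = 0
    linarith
  · rintro i hi j hj ⟨α, hα⟩
    by_contra hjZ
    have h1 : (y' + t0 • u) i = 0 := by
      by_contra hne
      rcases mem_Pos_or_Neg hne with h | h
      · rw [ht0, mem_sdiff] at h
        exact h.2 hi
      · rw [ht0', mem_sdiff] at h
        exact h.2 hi
    have h2 : (y' + t0 • u) j = 0 := by rw [hα _ hm0, h1, mul_zero]
    rcases mem_Pos_or_Neg (hyy' j (hy.2 j hj)) with h | h
    · have h3 : j ∈ Pos (y' + t0 • u) := by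
        rw [ht0, mem_sdiff]
        exact ⟨h, hjZ⟩
      rw [mem_Pos, h2] at h3
      exact lt_irrefl _ h3
    · have h3 : j ∈ Neg (y' + t0 • u) := by
        rw [ht0', mem_sdiff]
        exact ⟨h, hjZ⟩
      rw [mem_Neg, h2] at h3
      exact lt_irrefl _ h3
  · refine ⟨_, hm0, ?_, ?_⟩
    · rw [ht0, hss.1]
    · rw [ht0', hss.2]
  · refine ⟨_, ⟨hm1, ?_⟩, ?_, ?_⟩
    · intro i hi h
      rcases mem_Pos_or_Neg (hyy' i (hy.2 i hi)) with h1 | h1
      · by_cases hiZ : i ∈ Z
        · have h3 : i ∈ Neg (y' + t1 • u) := by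
            rw [ht1', mem_union, mem_inter]
            exact Or.inr ⟨h1, hiZ⟩
          rw [mem_Neg, h] at h3
          exact lt_irrefl _ h3
        · have h3 : i ∈ Pos (y' + t1 • u) := by
            rw [ht1, mem_union, mem_sdiff]
            exact Or.inl ⟨h1, hiZ⟩
          rw [mem_Pos, h] at h3
          exact lt_irrefl _ h3
      · by_cases hiZ : i ∈ Z
        · have h3 : i ∈ Pos (y' + t1 • u) := by
            rw [ht1, mem_union, mem_inter]
            exact Or.inr ⟨h1, hiZ⟩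
          rw [mem_Pos, h] at h3
          exact lt_irrefl _ h3
        · have h3 : i ∈ Neg (y' + t1 • u) := by
            rw [ht1', mem_union, mem_sdiff]
            exact Or.inl ⟨h1, hiZ⟩
          rw [mem_Neg, h] at h3
          exact lt_irrefl _ h3
    · rw [ht1, hss.1, hss.2]
    · rw [ht1', hss.1, hss.2]

end MPa0e17f
end

section
/-!
# STR: an independent negative side is enough (one heavy class)
-/
set_option autoImplicit false

namespace MPa0e17f

open Finset Module

namespace STRM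

lemma prl_of_prlP {ι : Type} {U : Submodule ℝ (ι → ℝ)} {i j : ι} (h : PrlP U i j) :
    Prl U i j := by
  obtain ⟨α, _, h2⟩ := h
  exact ⟨α, h2⟩

lemma prlP_refl {ι : Type} (U : Submodule ℝ (ι → ℝ)) (i : ι) : PrlP U i i :=
  ⟨1, one_pos, fun μ _ => by rw [one_mul]⟩

/-- the conclusion from the output of GRW -/
lemma good_of_grw {ι : Type} [Fintype ι] [DecidableEq ι] (hTLK : SpecTLK) {k : ℕ}
    {U : Submodule ℝ (ι → ℝ)} (hB : Bas k U) {y : ι → ℝ} (hy : NZ U y)
    (h1 : (Neg y).card = finrank ℝ U) (h2 : kap U (Neg y) = 0) : Good k U := by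
  obtain ⟨t1, _, _, _, t5, _⟩ := hTLK ι U
  obtain ⟨h3, h4, _, _⟩ := t5 y hy
  have hd := hB.dim
  have hc := hB.card
  have h5 : kap U (Pos y) = 0 := by
    refine t1 k (Pos y) hB.hs ?_ ?_
    · rw [← h4]
      exact subset_union_left
    · omega
  exact ⟨y, hy.1, hy.2, by rw [h5, h2, hd]; omega⟩

end STRM

theorem specSTR (hGRW : SpecGRW) (hTLK : SpecTLK) : SpecSTR := by
  intro ι _ _ k U c1 c2 h y hy hk
  obtain ⟨t1, t2, t3, t4, t5, t6, t7, t8, t9, t10⟩ := hTLK ι U
  have hd := h.bas.dim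
  have hsym := t10 c2 c1 h.par
  have hsg := hsym.2 y hy.1
  have hind : kap U (Neg y) + (Neg y).card = finrank ℝ U := by rw [hk, hd]
  have hc1 : c1 ∉ Neg y := by
    intro h1
    have h2 : c2 ∈ Neg y := mem_Neg.2 (hsg.2.1.2 (mem_Neg.1 h1))
    exact t4 (Neg y) c2 c1 hind h2 h1 h.ne.symm (STRM.prl_of_prlP h.par)
  have hc1' : c1 ∈ Pos y := (mem_Pos_or_Neg (hy.2 c1 h.h1)).resolve_right hc1
  have hc2' : c2 ∈ Pos y := mem_Pos.2 (hsg.1.2 (mem_Pos.1 hc1'))
  obtain ⟨y', hy', -, -, h3, h4⟩ := hGRW ι U {c1, c2} h.bas.hc (by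
    intro i hi j hj
    rw [mem_insert, mem_singleton] at hi hj
    rcases hi with rfl | rfl <;> rcases hj with rfl | rfl
    · exact STRM.prlP_refl U _
    · exact hsym.1
    · exact h.par
    · exact STRM.prlP_refl U _) (by
    intro i hi hic j hj hij
    rw [mem_insert, mem_singleton, not_or] at hic
    exact h.oth i hi j hj hij hic.1 hic.2) y hy (by
    intro i hi
    rw [mem_insert, mem_singleton] at hi
    rcases hi with rfl | rfl
    · exact hc1'
    · exact hc2') hind
  exact STRM.good_of_grw hTLK h.bas hy' h3 h4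

end MPa0e17f
end

section
/-!
# TLK: toolkit for the base case
-/
set_option autoImplicit false
set_option linter.unusedSectionVars false

namespace MPa0e17f

open Finset Module

namespace TLKM

variable {ι : Type} [Fintype ι] [DecidableEq ι]

/-- (1) few zeros -/
theorem p1 (U : Submodule ℝ (ι → ℝ)) (k : ℕ) (S : Finset ι) (h : HS k U) (hS : S ⊆ act U)
    (hc : (act U).card < S.card + (k + 2)) : kap U S = 0 := by
  classical
  have hbot : K U S = ⊥ := by
    rw [eq_bot_iff]
    intro μ hμ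
    rw [Submodule.mem_bot]
    by_contra hne
    have h1 := h μ hμ.1 hne
    have h2 : univ.filter (fun i => μ i ≠ 0) ⊆ act U \ S := by
      intro i hi
      have hi' : μ i ≠ 0 := (Finset.mem_filter.1 hi).2
      exact Finset.mem_sdiff.2 ⟨mem_act.2 ⟨μ, hμ.1, hi'⟩, fun hiS => hi' (hμ.2 i hiS)⟩
    have h3 := Finset.card_le_card h2
    have h4 := Finset.card_sdiff_add_card_eq_card hS
    omega
  rw [kap, hbot, finrank_bot]

/-- (2) first half: if `i` vanishes on `K U {j}` then it is proportional to `j` -/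
theorem prl_of (U : Submodule ℝ (ι → ℝ)) {i j : ι} (hj : j ∈ act U)
    (h : ∀ μ ∈ K U {j}, μ i = 0) : Prl U i j := by
  obtain ⟨μ0, hμ0, h0⟩ := mem_act.1 hj
  refine ⟨μ0 i / μ0 j, fun μ hμ => ?_⟩
  have h1 : μ - (μ j / μ0 j) • μ0 ∈ K U {j} := by
    refine ⟨U.sub_mem hμ (U.smul_mem _ hμ0), fun x hx => ?_⟩
    rw [Finset.mem_singleton.1 hx]
    simp only [Pi.sub_apply, Pi.smul_apply, smul_eq_mul]
    field_simp
    ring
  have h2 := h _ h1
  simp only [Pi.sub_apply, Pi.smul_apply, smul_eq_mul] at h2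
  field_simp
  field_simp at h2
  linarith

theorem p2 (U : Submodule ℝ (ι → ℝ)) (i j : ι) (hj : j ∈ act U) :
    i ∈ act (K U {j}) ↔ i ∈ act U ∧ ¬ Prl U i j := by
  constructor
  · intro h
    refine ⟨act_mono (K_le U {j}) h, ?_⟩
    rintro ⟨α, hα⟩
    obtain ⟨μ, hμ, h0⟩ := mem_act.1 h
    apply h0
    rw [hα μ hμ.1, hμ.2 j (Finset.mem_singleton_self j), mul_zero]
  · rintro ⟨_, hn⟩
    by_contra hc
    exact hn (prl_of U hj fun μ hμ => not_act hc hμ)

theorem p3 (U : Submodule ℝ (ι → ℝ)) (S T : Finset ι) (hST : S ⊆ T)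
    (h : kap U T + T.card = finrank ℝ U) : kap U S + S.card = finrank ℝ U := by
  have h1 := finrank_le_kap_add_card U S
  have h2 : kap U S ≤ kap U T + (T \ S).card := by
    have h3 := finrank_le_kap_add_card (K U S) (T \ S)
    have h4 : kap (K U S) (T \ S) = kap U T := by
      rw [kap, K_K, Finset.union_sdiff_of_subset hST]
      rfl
    rw [h4] at h3
    exact h3
  have h5 := Finset.card_sdiff_add_card_eq_card hST
  omega

theorem p4 (U : Submodule ℝ (ι → ℝ)) (T : Finset ι) (i j : ι)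
    (h : kap U T + T.card = finrank ℝ U) (hi : i ∈ T) (hj : j ∈ T) (hij : i ≠ j) :
    ¬ Prl U i j := by
  rintro ⟨α, hα⟩
  have h1 : K U (T.erase i) ≤ K U T := by
    intro μ hμ
    refine ⟨hμ.1, fun x hx => ?_⟩
    by_cases hxi : x = i
    · rw [hxi, hα μ hμ.1, hμ.2 j (Finset.mem_erase.2 ⟨fun hc => hij hc.symm, hj⟩), mul_zero]
    · exact hμ.2 x (Finset.mem_erase.2 ⟨hxi, hx⟩)
  have h2 : kap U (T.erase i) ≤ kap U T := kap_le_of_le h1
  have h3 := finrank_le_kap_add_card U (T.erase i)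
  have h4 := Finset.card_erase_add_one hi
  omega

theorem nz_neg {U : Submodule ℝ (ι → ℝ)} {y : ι → ℝ} (hy : NZ U y) : NZ U (-y) :=
  ⟨U.neg_mem hy.1, fun i hi => by rw [Pi.neg_apply]; exact neg_ne_zero.2 (hy.2 i hi)⟩

theorem disj (y : ι → ℝ) : Disjoint (Pos y) (Neg y) := by
  rw [Finset.disjoint_left]
  intro i h1 h2
  exact lt_asymm (mem_Pos.1 h1) (mem_Neg.1 h2)

theorem union_act {U : Submodule ℝ (ι → ℝ)} {y : ι → ℝ} (hy : NZ U y) :
    Pos y ∪ Neg y = act U := by
  apply Finset.Subset.antisymm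
  · exact Finset.union_subset (Pos_subset_act hy.1) (Neg_subset_act hy.1)
  · intro i hi
    exact Finset.mem_union.2 (mem_Pos_or_Neg (hy.2 i hi))

theorem p5 (U : Submodule ℝ (ι → ℝ)) (y : ι → ℝ) (hy : NZ U y) :
    (Pos y).card + (Neg y).card = (act U).card ∧ Pos y ∪ Neg y = act U ∧
    Disjoint (Pos y) (Neg y) ∧ NZ U (-y) := by
  refine ⟨?_, union_act hy, disj y, nz_neg hy⟩
  rw [← union_act hy, Finset.card_union_of_disjoint (disj y)]

theorem p7 (U : Submodule ℝ (ι → ℝ)) (i : ι) (hi : i ∈ act U) (j : ι) (hj : j ∈ act U)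
    (h : ¬ Prl U i j) (a b : ℝ) : ∃ s ∈ U, s i = a ∧ s j = b :=
  two_values hj ((p2 U i j hj).2 ⟨hi, h⟩) a b

theorem p8 (U : Submodule ℝ (ι → ℝ)) (y0 : ι → ℝ) (hy0 : y0 ∈ U) (s : ι → ℝ) (hs : s ∈ U)
    (h : ∀ i ∈ act U, y0 i = 0 → s i ≠ 0) :
    ∃ y, NZ U y ∧ (∀ i, i ∈ Pos y ↔ 0 < y0 i ∨ (y0 i = 0 ∧ 0 < s i)) ∧
      (∀ i, i ∈ Neg y ↔ y0 i < 0 ∨ (y0 i = 0 ∧ s i < 0)) := by
  obtain ⟨ε, _, h1, h2⟩ := nudge y0 s
  have hP : ∀ i, i ∈ Pos (y0 + ε • s) ↔ 0 < y0 i ∨ (y0 i = 0 ∧ 0 < s i) := by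
    intro i
    rw [h1, Finset.mem_union, Finset.mem_sdiff, mem_Pos, mem_Pos, mem_Neg]
    constructor
    · rintro (h3 | ⟨h3, h4⟩)
      · exact Or.inl h3
      · rcases (not_lt.1 h4).lt_or_eq with h5 | h5
        · exact Or.inl h5
        · exact Or.inr ⟨h5.symm, h3⟩
    · rintro (h3 | ⟨h3, h4⟩)
      · exact Or.inl h3
      · exact Or.inr ⟨h4, by rw [h3]; exact lt_irrefl _⟩
  have hN : ∀ i, i ∈ Neg (y0 + ε • s) ↔ y0 i < 0 ∨ (y0 i = 0 ∧ s i < 0) := by
    intro i
    rw [h2, Finset.mem_union, Finset.mem_sdiff, mem_Neg, mem_Neg, mem_Pos]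
    constructor
    · rintro (h3 | ⟨h3, h4⟩)
      · exact Or.inl h3
      · rcases (not_lt.1 h4).lt_or_eq with h5 | h5
        · exact Or.inl h5
        · exact Or.inr ⟨h5, h3⟩
    · rintro (h3 | ⟨h3, h4⟩)
      · exact Or.inl h3
      · exact Or.inr ⟨h4, by rw [h3]; exact lt_irrefl _⟩
  refine ⟨y0 + ε • s, ⟨U.add_mem hy0 (U.smul_mem _ hs), fun i hi => ?_⟩, hP, hN⟩
  intro hc
  rcases lt_trichotomy (y0 i) 0 with h3 | h3 | h3
  · exact (mem_Neg.1 ((hN i).2 (Or.inl h3))).ne hc
  · rcases lt_or_gt_of_ne (h i hi h3) with h4 | h4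
    · exact (mem_Neg.1 ((hN i).2 (Or.inr ⟨h3, h4⟩))).ne hc
    · exact (mem_Pos.1 ((hP i).2 (Or.inr ⟨h3, h4⟩))).ne' hc
  · exact (mem_Pos.1 ((hP i).2 (Or.inl h3))).ne' hc

theorem p9 (U : Submodule ℝ (ι → ℝ)) (i j : ι) (hi : i ∈ act U) (h : Prl U i j) :
    Prl U j i ∧ j ∈ act U := by
  obtain ⟨α, hα⟩ := h
  obtain ⟨μ, hμ, h0⟩ := mem_act.1 hi
  have hα0 : α ≠ 0 := by
    rintro rfl
    exact h0 (by rw [hα μ hμ, zero_mul])
  refine ⟨⟨α⁻¹, fun ν hν => ?_⟩, mem_act.2 ⟨μ, hμ, fun hc => h0 (by rw [hα μ hμ, hc, mul_zero])⟩⟩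
  rw [hα ν hν, ← mul_assoc, inv_mul_cancel₀ hα0, one_mul]

theorem p10 (U : Submodule ℝ (ι → ℝ)) (i j : ι) (h : PrlP U i j) : PrlP U j i ∧
    ∀ y ∈ U, (0 < y i ↔ 0 < y j) ∧ (y i < 0 ↔ y j < 0) ∧ (y i = 0 ↔ y j = 0) := by
  obtain ⟨α, hα0, hα⟩ := h
  refine ⟨⟨α⁻¹, inv_pos.2 hα0, fun ν hν => ?_⟩, fun y hy => ⟨?_, ?_, ?_⟩⟩
  · rw [hα ν hν, ← mul_assoc, inv_mul_cancel₀ hα0.ne', one_mul]
  · rw [hα y hy]
    exact ⟨fun h => (mul_pos_iff_of_pos_left hα0).1 h, fun h => mul_pos hα0 h⟩
  · rw [hα y hy]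
    exact ⟨fun h => by
      by_contra hc
      exact absurd h (not_lt.2 (mul_nonneg hα0.le (not_lt.1 hc))),
      fun h => mul_neg_of_pos_of_neg hα0 h⟩
  · rw [hα y hy]
    exact ⟨fun h => (mul_eq_zero.1 h).resolve_left hα0.ne', fun h => by rw [h, mul_zero]⟩

end TLKM

theorem specTLK : SpecTLK := by
  intro ι _ _ U
  refine ⟨fun k S => TLKM.p1 U k S, fun i j => TLKM.p2 U i j, fun S T => TLKM.p3 U S T,
    fun T i j => TLKM.p4 U T i j, fun y => TLKM.p5 U y, ?_, fun i hi j hj => TLKM.p7 U i hi j hj,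
    fun y0 hy0 s hs => TLKM.p8 U y0 hy0 s hs, fun i j => TLKM.p9 U i j, fun i j => TLKM.p10 U i j⟩
  obtain ⟨l, hl, hl0⟩ := exists_nowhere_zero U
  exact ⟨l, hl, hl0⟩

end MPa0e17f
end
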