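import Pool.Agent.Lib.MP_a0e17f.T.SpecC

section
/-!
# Module TPF: basic facts on the base case with two heavy classes
-/
set_option autoImplicit false

namespace MPa0e17f

open Finset Module

namespace TPFM

variable {ι : Type} [Fintype ι] [DecidableEq ι] {k : ℕ} {U : Submodule ℝ (ι → ℝ)}
  {c1 c2 e1 e2 : ι}

theorem mem_UU {μ : ι → ℝ} : μ ∈ UU U c1 e1 ↔ μ ∈ U ∧ μ c1 = 0 ∧ μ e1 = 0 := by
  unfold UU
  rw [mem_K]
  constructor
  · rintro ⟨h1, h2⟩
    exact ⟨h1, h2 c1 (by simp), h2 e1 (by simp)⟩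
  · rintro ⟨h1, h2, h3⟩
    refine ⟨h1, fun i hi => ?_⟩
    rw [Finset.mem_insert, Finset.mem_singleton] at hi
    rcases hi with rfl | rfl
    · exact h2
    · exact h3

theorem UU_le : UU U c1 e1 ≤ U := K_le _ _

/-- the four coordinates vanish on `UU` -/
theorem four_zero (h : TwoP k U c1 c2 e1 e2) {μ : ι → ℝ} (hμ : μ ∈ UU U c1 e1) :
    μ c1 = 0 ∧ μ c2 = 0 ∧ μ e1 = 0 ∧ μ e2 = 0 := by
  obtain ⟨h1, h2, h3⟩ := mem_UU.1 hμ
  obtain ⟨α, -, hα⟩ := h.parc
  obtain ⟨β, -, hβ⟩ := h.pare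
  refine ⟨h2, ?_, h3, ?_⟩
  · rw [hα μ h1, h2, mul_zero]
  · rw [hβ μ h1, h3, mul_zero]

theorem distinct (h : TwoP k U c1 c2 e1 e2) : c1 ≠ e1 ∧ c1 ≠ e2 ∧ c2 ≠ e1 ∧ c2 ≠ e2 := by
  obtain ⟨α, hα0, hα⟩ := h.parc
  obtain ⟨β, hβ0, hβ⟩ := h.pare
  refine ⟨?_, ?_, ?_, ?_⟩
  · intro he
    exact h.npar ⟨1, fun μ _ => by rw [one_mul, he]⟩
  · intro he
    refine h.npar ⟨β⁻¹, fun μ hμ => ?_⟩
    have h1 := hβ μ hμ
    rw [← he] at h1
    rw [h1]
    field_simp
  · intro he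
    refine h.npar ⟨α, fun μ hμ => ?_⟩
    rw [← he]
    exact hα μ hμ
  · intro he
    refine h.npar ⟨β⁻¹ * α, fun μ hμ => ?_⟩
    have h1 := hβ μ hμ
    rw [← he, hα μ hμ] at h1
    have h2 : β⁻¹ * α * μ c1 = β⁻¹ * (α * μ c1) := by ring
    rw [h2, h1]
    field_simp

theorem dim (hTLK : SpecTLK) (h : TwoP k U c1 c2 e1 e2) : finrank ℝ (UU U c1 e1) + 1 = k := by
  have h1 := kap_singleton_of_ne U c1 (mem_act.1 h.hc1)
  have h2 := (hTLK ι U).2.1 e1 c1 h.hc1
  have h3 : e1 ∈ act (K U {c1}) := h2.2 ⟨h.he1, h.npar⟩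
  have h4 := kap_insert_of_ne U {c1} e1 (mem_act.1 h3)
  have h5 : finrank ℝ (UU U c1 e1) = kap U (insert e1 {c1}) := by
    unfold UU kap
    rw [Finset.pair_comm]
  have h6 := h.bas.dim
  rw [h5]
  omega

theorem four_card (h : TwoP k U c1 c2 e1 e2) : ({c1, c2, e1, e2} : Finset ι).card = 4 := by
  obtain ⟨h1, h2, h3, h4⟩ := distinct h
  rw [Finset.card_insert_of_notMem, Finset.card_insert_of_notMem, Finset.card_insert_of_notMem,
    Finset.card_singleton]
  · simpa using h.nee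
  · simp [h3, h4]
  · simp [h1, h2, h.nec]

theorem hsUU (h : TwoP k U c1 c2 e1 e2) : HS k (UU U c1 e1) :=
  fun μ hμ h0 => h.bas.hs μ (UU_le hμ) h0

theorem LL_sub (h : TwoP k U c1 c2 e1 e2) : LL U c1 e1 ⊆ act U \ {c1, c2, e1, e2} := by
  intro i hi
  obtain ⟨μ, hμ, h0⟩ := mem_act.1 hi
  obtain ⟨h1, h2, h3, h4⟩ := four_zero h hμ
  rw [Finset.mem_sdiff]
  refine ⟨mem_act.2 ⟨μ, UU_le hμ, h0⟩, ?_⟩
  simp only [Finset.mem_insert, Finset.mem_singleton]
  rintro (rfl | rfl | rfl | rfl)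
  · exact h0 h1
  · exact h0 h2
  · exact h0 h3
  · exact h0 h4

theorem sd_card (h : TwoP k U c1 c2 e1 e2) : (act U \ {c1, c2, e1, e2}).card = 2 * k := by
  rw [Finset.card_sdiff_of_subset, h.bas.card, four_card h]
  · omega
  · intro i hi
    simp only [Finset.mem_insert, Finset.mem_singleton] at hi
    rcases hi with rfl | rfl | rfl | rfl
    · exact h.hc1
    · exact h.hc2
    · exact h.he1
    · exact h.he2

theorem LL_eq (hTLK : SpecTLK) (h : TwoP k U c1 c2 e1 e2) :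
    LL U c1 e1 = act U \ {c1, c2, e1, e2} := by
  refine Finset.eq_of_subset_of_card_le (LL_sub h) ?_
  rw [sd_card h]
  have h1 := dim hTLK h
  have h3 := h.bas.k3
  have h2 := card_act_ge (k := k) (hsUU h) (UU U c1 e1) le_rfl (by omega)
  unfold LL
  omega

theorem LL_card (hTLK : SpecTLK) (h : TwoP k U c1 c2 e1 e2) : (LL U c1 e1).card = 2 * k := by
  rw [LL_eq hTLK h, sd_card h]

theorem mem_LL (hTLK : SpecTLK) (h : TwoP k U c1 c2 e1 e2) (i : ι) :
    i ∈ LL U c1 e1 ↔ i ∈ act U ∧ i ≠ c1 ∧ i ≠ c2 ∧ i ≠ e1 ∧ i ≠ e2 := by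
  rw [LL_eq hTLK h]
  simp only [Finset.mem_sdiff, Finset.mem_insert, Finset.mem_singleton, not_or]

theorem LL_act (hTLK : SpecTLK) (h : TwoP k U c1 c2 e1 e2) : LL U c1 e1 ⊆ act U :=
  fun _ hi => ((mem_LL hTLK h _).1 hi).1

/-- the uniform properties of `UU` -/
theorem uni (hUNI : SpecUNI) (hTLK : SpecTLK) (h : TwoP k U c1 c2 e1 e2) :
    (∀ S ⊆ LL U c1 e1, k ≤ S.card + 1 → kap (UU U c1 e1) S = 0) ∧
    (∀ S ⊆ LL U c1 e1, S.card + 1 ≤ k → kap (UU U c1 e1) S + S.card + 1 = k) ∧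
    (∀ i ∈ LL U c1 e1, ∀ j ∈ LL U c1 e1, i ≠ j → ¬ Prl (UU U c1 e1) i j) ∧
    (∀ S ⊆ LL U c1 e1, S.card + 1 ≤ k → ∀ g : ι → ℝ, ∃ μ ∈ UU U c1 e1, ∀ i ∈ S, μ i = g i) := by
  have h1 := dim hTLK h
  have h2 := LL_card hTLK h
  have h3 := h.bas.k3
  obtain ⟨u1, u2, -, u4, u5⟩ := hUNI ι k (UU U c1 e1) (hsUU h) (by omega) (by
    unfold LL at h2
    omega)
  refine ⟨fun S hS hk => u1 S hS (by omega), fun S hS hk => ?_, u4 (by omega),
    fun S hS hk => u5 S hS (by omega)⟩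
  have := u2 S hS (by omega)
  omega

theorem npr (hUNI : SpecUNI) (hTLK : SpecTLK) (h : TwoP k U c1 c2 e1 e2) :
    ∀ i ∈ LL U c1 e1, ∀ j ∈ act U, i ≠ j → ¬ Prl U i j ∧ ¬ Prl U j i := by
  have key : ∀ i ∈ LL U c1 e1, ∀ j ∈ act U, i ≠ j → ¬ Prl U i j := by
    intro i hi j hj hij hp
    obtain ⟨α, hα⟩ := hp
    by_cases hjL : j ∈ LL U c1 e1
    · exact (uni hUNI hTLK h).2.2.1 i hi j hjL hij ⟨α, fun μ hμ => hα μ (UU_le hμ)⟩
    · obtain ⟨μ, hμ, h0⟩ := mem_act.1 hi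
      apply h0
      rw [hα μ (UU_le hμ), not_act hjL hμ, mul_zero]
  intro i hi j hj hij
  refine ⟨key i hi j hj hij, fun hp => ?_⟩
  exact key i hi j hj hij ((hTLK ι U).2.2.2.2.2.2.2.2.1 j i hj hp).1

theorem K_UU (S : Finset ι) : K (UU U c1 e1) S = K U (insert c1 (insert e1 S)) := by
  unfold UU
  rw [K_K, Finset.insert_union, Finset.singleton_union]

theorem kap_le2 (S : Finset ι) : kap U S ≤ kap (UU U c1 e1) S + 2 := by
  have h1 := kap_le_insert U S e1
  have h2 := kap_le_insert U (insert e1 S) c1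
  have h3 : kap (UU U c1 e1) S = kap U (insert c1 (insert e1 S)) := by
    unfold kap
    rw [K_UU]
  omega

/-- seven: sets of at least `k + 1` light elements -/
theorem kap_le1 (hTLK : SpecTLK) (h : TwoP k U c1 c2 e1 e2) {S : Finset ι}
    (hS : S ⊆ LL U c1 e1) (hk : k + 1 ≤ S.card) : kap U S ≤ 1 := by
  have h1 := kap_le_insert U S c1
  have h2 : K U (insert c1 S) = K U (insert c2 (insert c1 S)) := by
    obtain ⟨α, -, hα⟩ := h.parc
    refine le_antisymm ?_ (K_anti U (Finset.subset_insert _ _))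
    intro μ hμ
    refine ⟨hμ.1, fun i hi => ?_⟩
    rcases Finset.mem_insert.1 hi with rfl | hi
    · rw [hα μ hμ.1, hμ.2 c1 (Finset.mem_insert_self _ _), mul_zero]
    · exact hμ.2 i hi
  have h3 : kap U (insert c2 (insert c1 S)) = 0 := by
    refine (hTLK ι U).1 k _ h.bas.hs ?_ ?_
    · intro i hi
      rcases Finset.mem_insert.1 hi with rfl | hi
      · exact h.hc2
      · rcases Finset.mem_insert.1 hi with rfl | hi
        · exact h.hc1
        · exact LL_act hTLK h (hS hi)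
    · have n1 : c1 ∉ S := fun hc => ((mem_LL hTLK h _).1 (hS hc)).2.1 rfl
      have n2 : c2 ∉ insert c1 S := by
        rw [Finset.mem_insert]
        rintro (hc | hc)
        · exact h.nec hc.symm
        · exact ((mem_LL hTLK h _).1 (hS hc)).2.2.1 rfl
      rw [Finset.card_insert_of_notMem n2, Finset.card_insert_of_notMem n1, h.bas.card]
      omega
  have h4 : kap U (insert c1 S) = 0 := by
    unfold kap
    rw [h2]
    exact h3
  omega

theorem eight (hTLK : SpecTLK) (h : TwoP k U c1 c2 e1 e2) {S : Finset ι}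
    (hS : S ⊆ LL U c1 e1) (hk : S.card = k + 2) {μ : ι → ℝ} (hμ : μ ∈ K U S) (h0 : μ ≠ 0) {i : ι}
    (hi : i ∈ act U) (hiS : i ∉ S) : μ i ≠ 0 := by
  intro hi0
  have h3 : kap U (insert i S) = 0 := by
    refine (hTLK ι U).1 k _ h.bas.hs ?_ ?_
    · intro j hj
      rcases Finset.mem_insert.1 hj with rfl | hj
      · exact hi
      · exact LL_act hTLK h (hS hj)
    · rw [Finset.card_insert_of_notMem hiS, h.bas.card]
      omega
  have h4 : μ ∈ K U (insert i S) := by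
    refine ⟨hμ.1, fun j hj => ?_⟩
    rcases Finset.mem_insert.1 hj with rfl | hj
    · exact hi0
    · exact hμ.2 j hj
  unfold kap at h3
  rw [Submodule.finrank_eq_zero] at h3
  rw [h3] at h4
  exact h0 ((Submodule.mem_bot ℝ).1 h4)

theorem nine (hUNI : SpecUNI) (hTLK : SpecTLK) (h : TwoP k U c1 c2 e1 e2) :
    ∀ v ∈ UU U c1 e1, ∀ Z : Finset ι, (∀ i, i ∈ Z ↔ i ∈ LL U c1 e1 ∧ v i = 0) → Z.card + 1 ≤ k →
    ∀ T ⊆ Z, ∃ y, NZ (UU U c1 e1) y ∧ Pos y = Pos v ∪ T ∧ Neg y = Neg v ∪ (Z \ T) := by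
  intro v hv Z hZ hk T hT
  obtain ⟨s, hs, hsg⟩ := (uni hUNI hTLK h).2.2.2 Z (fun i hi => ((hZ i).1 hi).1) hk
    (fun i => if i ∈ T then 1 else -1)
  have hs0 : ∀ i ∈ Z, s i ≠ 0 := by
    intro i hi
    rw [hsg i hi]
    split_ifs <;> norm_num
  obtain ⟨y, hy, hp, hn⟩ := (hTLK ι (UU U c1 e1)).2.2.2.2.2.2.2.1 v hv s hs
    (fun i hi h0 => hs0 i ((hZ i).2 ⟨hi, h0⟩))
  have hin : ∀ i, v i = 0 → s i ≠ 0 → i ∈ Z := fun i h1 h2 =>
    (hZ i).2 ⟨mem_act.2 ⟨s, hs, h2⟩, h1⟩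
  refine ⟨y, hy, ?_, ?_⟩
  · ext i
    rw [hp, Finset.mem_union, mem_Pos]
    constructor
    · rintro (h1 | ⟨h1, h2⟩)
      · exact Or.inl h1
      · right
        have h3 := hin i h1 h2.ne'
        by_contra hiT
        rw [hsg i h3, if_neg hiT] at h2
        norm_num at h2
    · rintro (h1 | h1)
      · exact Or.inl h1
      · right
        have h3 := hT h1
        refine ⟨((hZ i).1 h3).2, ?_⟩
        rw [hsg i h3, if_pos h1]
        norm_num
  · ext i
    rw [hn, Finset.mem_union, mem_Neg, Finset.mem_sdiff]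
    constructor
    · rintro (h1 | ⟨h1, h2⟩)
      · exact Or.inl h1
      · right
        have h3 := hin i h1 h2.ne
        refine ⟨h3, fun hiT => ?_⟩
        rw [hsg i h3, if_pos hiT] at h2
        norm_num at h2
    · rintro (h1 | ⟨h1, h2⟩)
      · exact Or.inl h1
      · right
        refine ⟨((hZ i).1 h1).2, ?_⟩
        rw [hsg i h1, if_neg h2]
        norm_num

theorem ten (hTLK : SpecTLK) (h : TwoP k U c1 c2 e1 e2) :
    ∀ y, NZ (UU U c1 e1) y → ∃ y', NZ U y' ∧ Neg y' = Neg y ∧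
      Pos y' = Pos y ∪ {c1, c2, e1, e2} := by
  intro y hy
  have hnp : ¬ Prl U c1 e1 := fun hp =>
    h.npar ((hTLK ι U).2.2.2.2.2.2.2.2.1 c1 e1 h.hc1 hp).1
  obtain ⟨s, hs, hs1, hs2⟩ := (hTLK ι U).2.2.2.2.2.2.1 c1 h.hc1 e1 h.he1 hnp 1 1
  have hsc2 : 0 < s c2 := by
    have := ((hTLK ι U).2.2.2.2.2.2.2.2.2 c2 c1 h.parc).2 s hs
    exact this.1.2 (by rw [hs1]; norm_num)
  have hse2 : 0 < s e2 := by
    have := ((hTLK ι U).2.2.2.2.2.2.2.2.2 e2 e1 h.pare).2 s hs
    exact this.1.2 (by rw [hs2]; norm_num)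
  have hfour : ∀ i ∈ ({c1, c2, e1, e2} : Finset ι), 0 < s i := by
    intro i hi
    simp only [Finset.mem_insert, Finset.mem_singleton] at hi
    rcases hi with rfl | rfl | rfl | rfl
    · rw [hs1]; norm_num
    · exact hsc2
    · rw [hs2]; norm_num
    · exact hse2
  have hcase : ∀ i ∈ act U, y i = 0 → i ∈ ({c1, c2, e1, e2} : Finset ι) := by
    intro i hi h0
    by_contra hc
    have h1 : i ∈ LL U c1 e1 := by
      rw [LL_eq hTLK h]
      exact Finset.mem_sdiff.2 ⟨hi, hc⟩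
    exact hy.2 i h1 h0
  obtain ⟨y', hy', hp, hn⟩ := (hTLK ι U).2.2.2.2.2.2.2.1 y (UU_le hy.1) s hs
    (fun i hi h0 => (hfour i (hcase i hi h0)).ne')
  refine ⟨y', hy', ?_, ?_⟩
  · ext i
    rw [hn, mem_Neg]
    constructor
    · rintro (h1 | ⟨h1, h2⟩)
      · exact h1
      · exfalso
        have := hfour i (hcase i (mem_act.2 ⟨s, hs, h2.ne⟩) h1)
        linarith
    · intro h1
      exact Or.inl h1
  · ext i
    rw [hp, Finset.mem_union, mem_Pos]
    constructor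
    · rintro (h1 | ⟨h1, h2⟩)
      · exact Or.inl h1
      · exact Or.inr (hcase i (mem_act.2 ⟨s, hs, h2.ne'⟩) h1)
    · rintro (h1 | h1)
      · exact Or.inl h1
      · right
        refine ⟨?_, hfour i h1⟩
        obtain ⟨z1, z2, z3, z4⟩ := four_zero h hy.1
        simp only [Finset.mem_insert, Finset.mem_singleton] at h1
        rcases h1 with rfl | rfl | rfl | rfl
        · exact z1
        · exact z2
        · exact z3
        · exact z4

theorem eleven (hUNI : SpecUNI) (hTLK : SpecTLK) (h : TwoP k U c1 c2 e1 e2) {S : Finset ι}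
    (hS : S ⊆ LL U c1 e1) (hk : S.card + 1 = k) (hkap : kap U S = 2) (a b : ℝ) :
    ∃ φ ∈ K U S, φ c1 = a ∧ φ e1 = b := by
  let f : ↥(K U S) →ₗ[ℝ] ℝ × ℝ :=
    ((LinearMap.proj c1).comp (K U S).subtype).prod ((LinearMap.proj e1).comp (K U S).subtype)
  have hinj : Function.Injective f := by
    rw [injective_iff_map_eq_zero]
    intro φ hφ
    have h1 : (φ : ι → ℝ) c1 = 0 := congrArg Prod.fst hφ
    have h2 : (φ : ι → ℝ) e1 = 0 := congrArg Prod.snd hφ
    have h3 : (φ : ι → ℝ) ∈ K (UU U c1 e1) S := ⟨mem_UU.2 ⟨φ.2.1, h1, h2⟩, φ.2.2⟩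
    have h4 := (uni hUNI hTLK h).1 S hS (by omega)
    unfold kap at h4
    rw [Submodule.finrank_eq_zero] at h4
    rw [h4] at h3
    exact Subtype.ext ((Submodule.mem_bot ℝ).1 h3)
  have hfr : finrank ℝ ↥(K U S) = finrank ℝ (ℝ × ℝ) := by
    rw [Module.finrank_prod, Module.finrank_self]
    exact hkap
  have hsur := (LinearMap.injective_iff_surjective_of_finrank_eq_finrank hfr).1 hinj
  obtain ⟨φ, hφ⟩ := hsur (a, b)
  exact ⟨φ, φ.2, congrArg Prod.fst hφ, congrArg Prod.snd hφ⟩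

theorem twelve (hTLK : SpecTLK) (h : TwoP k U c1 c2 e1 e2) :
    ∀ y, NZ U y → c1 ∈ Pos y → e1 ∈ Pos y → c2 ∈ Pos y ∧ e2 ∈ Pos y ∧ Neg y ⊆ LL U c1 e1 ∧
    (Pos y ∩ LL U c1 e1).card + (Neg y).card = 2 * k ∧
    (Pos y).card = (Pos y ∩ LL U c1 e1).card + 4 ∧ Pos y ∩ LL U c1 e1 = LL U c1 e1 \ Neg y := by
  intro y hy hc1 he1
  have hc2 : c2 ∈ Pos y := mem_Pos.2
    ((((hTLK ι U).2.2.2.2.2.2.2.2.2 c2 c1 h.parc).2 y hy.1).1.2 (mem_Pos.1 hc1))
  have he2 : e2 ∈ Pos y := mem_Pos.2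
    ((((hTLK ι U).2.2.2.2.2.2.2.2.2 e2 e1 h.pare).2 y hy.1).1.2 (mem_Pos.1 he1))
  have hfour : ({c1, c2, e1, e2} : Finset ι) ⊆ Pos y := by
    intro i hi
    simp only [Finset.mem_insert, Finset.mem_singleton] at hi
    rcases hi with rfl | rfl | rfl | rfl
    · exact hc1
    · exact hc2
    · exact he1
    · exact he2
  obtain ⟨hsum, hun, hdis, -⟩ := (hTLK ι U).2.2.2.2.1 y hy
  have hN : Neg y ⊆ LL U c1 e1 := by
    intro i hi
    rw [LL_eq hTLK h, Finset.mem_sdiff]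
    refine ⟨Neg_subset_act hy.1 hi, fun hc => ?_⟩
    exact Finset.disjoint_left.1 hdis (hfour hc) hi
  have heq : Pos y ∩ LL U c1 e1 = LL U c1 e1 \ Neg y := by
    ext i
    rw [Finset.mem_inter, Finset.mem_sdiff]
    constructor
    · rintro ⟨h1, h2⟩
      exact ⟨h2, fun h3 => Finset.disjoint_left.1 hdis h1 h3⟩
    · rintro ⟨h1, h2⟩
      refine ⟨?_, h1⟩
      have h3 : i ∈ Pos y ∪ Neg y := by
        rw [hun]
        exact LL_act hTLK h h1
      rcases Finset.mem_union.1 h3 with h4 | h4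
      · exact h4
      · exact absurd h4 h2
  have hcard : (Pos y ∩ LL U c1 e1).card + (Neg y).card = 2 * k := by
    rw [heq, Finset.card_sdiff_of_subset hN, LL_card hTLK h]
    have := Finset.card_le_card hN
    rw [LL_card hTLK h] at this
    omega
  refine ⟨hc2, he2, hN, hcard, ?_, heq⟩
  rw [h.bas.card] at hsum
  omega

end TPFM

theorem specTPF (hUNI : SpecUNI) (hTLK : SpecTLK) : SpecTPF := by
  intro ι _ _ k U c1 c2 e1 e2 h
  have h5 : ∀ S ⊆ LL U c1 e1, S.card + 1 ≤ k → kap U S + S.card = k + 1 ∧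
      kap (UU U c1 e1) S + S.card + 1 = k := by
    intro S hS hk
    have h1 := (TPFM.uni hUNI hTLK h).2.1 S hS hk
    have h2 := TPFM.kap_le2 (U := U) (c1 := c1) (e1 := e1) S
    have h3 := finrank_le_kap_add_card U S
    rw [h.bas.dim] at h3
    exact ⟨by omega, h1⟩
  refine ⟨TPFM.dim hTLK h, TPFM.LL_card hTLK h, TPFM.mem_LL hTLK h, TPFM.npr hUNI hTLK h, h5, ?_,
    fun S hS hk => TPFM.kap_le1 hTLK h hS hk,
    fun S hS hk μ hμ h0 i hi hiS => TPFM.eight hTLK h hS hk hμ h0 hi hiS,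
    TPFM.nine hUNI hTLK h, TPFM.ten hTLK h, ?_, TPFM.twelve hTLK h⟩
  · intro S hS hk
    have h1 := (TPFM.uni hUNI hTLK h).1 S hS hk
    have h2 := TPFM.kap_le2 (U := U) (c1 := c1) (e1 := e1) S
    exact ⟨h1, by omega⟩
  · intro S hS hk a b
    have h1 := (h5 S hS (by omega)).1
    exact TPFM.eleven hUNI hTLK h hS hk (by omega) a b

end MPa0e17f
end

section
/-!
# Module TRI: in a plane a tope has at most two neighbours
-/
set_option autoImplicit false

namespace MPa0e17f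

open Finset Module

namespace TRIM

theorem pos3 {α β γ a b c : ℝ} (hα : 0 ≤ α) (hβ : 0 ≤ β) (hγ : 0 ≤ γ) (ha : 0 < a) (hb : 0 < b)
    (hc : 0 < c) (h : α * a + β * b + γ * c = 0) : α = 0 ∧ β = 0 ∧ γ = 0 := by
  have h1 := mul_nonneg hα ha.le
  have h2 := mul_nonneg hβ hb.le
  have h3 := mul_nonneg hγ hc.le
  refine ⟨?_, ?_, ?_⟩
  · have : α * a = 0 := by linarith
    rcases mul_eq_zero.1 this with h | h
    · exact h
    · exact absurd h ha.ne'
  · have : β * b = 0 := by linarith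
    rcases mul_eq_zero.1 this with h | h
    · exact h
    · exact absurd h hb.ne'
  · have : γ * c = 0 := by linarith
    rcases mul_eq_zero.1 this with h | h
    · exact h
    · exact absurd h hc.ne'

/-- one negative coefficient -/
theorem one {α β γ a b c : ℝ} (hα : α < 0) (hβ : 0 ≤ β) (hγ : 0 ≤ γ) (ha : 0 < a) (hb : 0 < b)
    (hc : 0 < c) (h : -(α * a) + β * b + γ * c = 0) : False := by
  have h1 := mul_neg_of_neg_of_pos hα ha
  have h2 := mul_nonneg hβ hb.le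
  have h3 := mul_nonneg hγ hc.le
  linarith

/-- two negative coefficients -/
theorem two {α β γ a b c : ℝ} (hα : 0 ≤ α) (hβ : β < 0) (hγ : γ < 0) (ha : 0 < a) (hb : 0 < b)
    (hc : 0 < c) (h : -(α * a) + β * b + γ * c = 0) : False := by
  have h1 := mul_nonneg hα ha.le
  have h2 := mul_neg_of_neg_of_pos hβ hb
  have h3 := mul_neg_of_neg_of_pos hγ hc
  linarith

theorem main {α β γ a1 a2 a3 b1 b2 b3 c1 c2 c3 d1 d2 d3 : ℝ}
    (ha1 : 0 < a1) (ha2 : 0 < a2) (ha3 : 0 < a3) (hb1 : 0 < b1) (hb2 : 0 < b2) (hb3 : 0 < b3)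
    (hc1 : 0 < c1) (hc2 : 0 < c2) (hc3 : 0 < c3) (hd1 : 0 < d1) (hd2 : 0 < d2) (hd3 : 0 < d3)
    (hr : α * a1 + β * a2 + γ * a3 = 0) (h1 : -(α * b1) + β * b2 + γ * b3 = 0)
    (h2 : α * c1 - β * c2 + γ * c3 = 0) (h3 : α * d1 + β * d2 - γ * d3 = 0) :
    α = 0 ∧ β = 0 ∧ γ = 0 := by
  rcases lt_or_ge α 0 with hα | hα <;> rcases lt_or_ge β 0 with hβ | hβ <;>
    rcases lt_or_ge γ 0 with hγ | hγ
  · have e1 := mul_neg_of_neg_of_pos hα ha1
    have e2 := mul_neg_of_neg_of_pos hβ ha2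
    have e3 := mul_neg_of_neg_of_pos hγ ha3
    linarith
  · exact (two hγ hα hβ hd3 hd1 hd2 (by linarith)).elim
  · exact (two hβ hα hγ hc2 hc1 hc3 (by linarith)).elim
  · exact (one hα hβ hγ hb1 hb2 hb3 h1).elim
  · exact (two hα hβ hγ hb1 hb2 hb3 h1).elim
  · exact (one hβ hα hγ hc2 hc1 hc3 (by linarith)).elim
  · exact (one hγ hα hβ hd3 hd1 hd2 (by linarith)).elim
  · exact pos3 hα hβ hγ ha1 ha2 ha3 hr

end TRIM

open TRIM in
theorem specTRI : SpecTRI := by
  intro ι _ _ W r x1 x2 x3 hdim hr hx1 hx2 hx3 hr1 hr2 hr3 h12 h13 h23 y1 y2 y3 hy1 hy2 hy3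
    hn1 hn2 hn3
  -- signs
  have neg : ∀ {y : ι → ℝ} {x : ι}, Neg y = {r, x} → y r < 0 ∧ y x < 0 := by
    intro y x h
    refine ⟨mem_Neg.1 ?_, mem_Neg.1 ?_⟩
    · rw [h]; simp
    · rw [h]; simp
  have pos : ∀ {y : ι → ℝ} {x z : ι}, NZ W y → Neg y = {r, x} → z ∈ act W → z ≠ r → z ≠ x →
      0 < y z := by
    intro y x z hy h hz h1 h2
    rcases lt_or_gt_of_ne (hy.2 z hz) with h3 | h3
    · have h4 := mem_Neg.2 h3
      rw [h] at h4
      simp only [Finset.mem_insert, Finset.mem_singleton] at h4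
      rcases h4 with h4 | h4
      · exact absurd h4 h1
      · exact absurd h4 h2
    · exact h3
  -- the linear relation
  have hli : ¬ LinearIndependent ℝ (![⟨y1, hy1.1⟩, ⟨y2, hy2.1⟩, ⟨y3, hy3.1⟩] : Fin 3 → W) := by
    intro h
    have h4 := h.fintype_card_le_finrank
    rw [hdim, Fintype.card_fin] at h4
    omega
  rw [Fintype.not_linearIndependent_iff] at hli
  obtain ⟨g, hg, i, hi⟩ := hli
  have hrel : ∀ z, g 0 * y1 z + g 1 * y2 z + g 2 * y3 z = 0 := by
    intro z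
    have h4 := congrArg (fun w : W => (w : ι → ℝ) z) hg
    simp [Fin.sum_univ_three] at h4
    exact h4
  have hall : g 0 = 0 ∧ g 1 = 0 ∧ g 2 = 0 := by
    refine main (a1 := -(y1 r)) (a2 := -(y2 r)) (a3 := -(y3 r)) (b1 := -(y1 x1)) (b2 := y2 x1)
      (b3 := y3 x1) (c1 := y1 x2) (c2 := -(y2 x2)) (c3 := y3 x2) (d1 := y1 x3) (d2 := y2 x3)
      (d3 := -(y3 x3)) ?_ ?_ ?_ ?_ ?_ ?_ ?_ ?_ ?_ ?_ ?_ ?_ ?_ ?_ ?_ ?_
    · linarith [(neg hn1).1]
    · linarith [(neg hn2).1]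
    · linarith [(neg hn3).1]
    · linarith [(neg hn1).2]
    · exact pos hy2 hn2 hx1 hr1.symm h12
    · exact pos hy3 hn3 hx1 hr1.symm h13
    · exact pos hy1 hn1 hx2 hr2.symm h12.symm
    · linarith [(neg hn2).2]
    · exact pos hy3 hn3 hx2 hr2.symm h23
    · exact pos hy1 hn1 hx3 hr3.symm h13.symm
    · exact pos hy2 hn2 hx3 hr3.symm h23.symm
    · linarith [(neg hn3).2]
    · linarith [hrel r]
    · linarith [hrel x1]
    · linarith [hrel x2]
    · linarith [hrel x3]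
  obtain ⟨e0, e1, e2⟩ := hall
  apply hi
  fin_cases i
  · exact e0
  · exact e1
  · exact e2

end MPa0e17f
end

section
set_option autoImplicit false

namespace MPa0e17f

open Finset Module

theorem specTWO (hBIG : SpecBIG) (hFVD : SpecFVD) (hFOD : SpecFOD) : SpecTWO := by
  intro ι _ _ k U c1 c2 e1 e2 h
  have h3 := h.bas.k3
  rcases Nat.lt_or_ge k 5 with h5 | h5
  · rcases Nat.lt_or_ge k 4 with h4 | h4
    · obtain rfl : k = 3 := by omega
      exact hFOD ι U c1 c2 e1 e2 h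
    · obtain rfl : k = 4 := by omega
      exact hFVD ι U c1 c2 e1 e2 h
  · exact hBIG ι k U c1 c2 e1 e2 h h5

end MPa0e17f
end

section
set_option autoImplicit false

namespace MPa0e17f

open Finset Module

namespace VCEM

variable {ι : Type} [Fintype ι] [DecidableEq ι]

/-- a light step from a tope with `k - 1` negative elements gives a `D`-set -/
lemma step (hLST : SpecLST) (hSTK : SpecSTK) {k : ℕ} {U : Submodule ℝ (ι → ℝ)} {c1 c2 e1 e2 : ι}
    (hT : TwoP k U c1 c2 e1 e2) (hG : ¬ Good k U) {y : ι → ℝ} (hy : NZ U y) (hc : c1 ∈ Pos y)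
    (he : e1 ∈ Pos y) (hN : (Neg y).card + 1 = k) (hk2 : kap U (Neg y) = 2) {φ : ι → ℝ}
    (hφ : φ ∈ K U (Neg y)) {s : ι → ℝ} (hs : s ∈ U) (hsc : 0 ≤ s c1) (hse : 0 ≤ s e1)
    (hsN : ∀ i ∈ Neg y, s i ≤ 0) (hsi : ∃ i, 0 < y i ∧ s i < 0)
    (hφs : ∀ x, 0 < y x → s x < 0 → φ x ≠ 0) :
    ∃ x ∈ Pos y ∩ LL U c1 e1, s x < 0 ∧ Dset k U c1 e1 ((Pos y ∩ LL U c1 e1).erase x) := by
  obtain ⟨x, hx, hsx, y1, hy1, hc1, he1, hN1, hP1⟩ :=
    hLST ι k U c1 c2 e1 e2 hT y hy hc he s hs hsc hse hsN hsi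
  have hxP : 0 < y x := mem_Pos.1 (Finset.mem_inter.1 hx).1
  have hxN : x ∉ Neg y := fun h => by have := mem_Neg.1 h; linarith
  have hk1 := kap_insert_of_ne U (Neg y) x ⟨φ, hφ, hφs x hxP hsx⟩
  have hD := hSTK ι k U c1 c2 e1 e2 hT hG y1 hy1 hc1 he1
    (by rw [hN1, Finset.card_insert_of_notMem hxN]; exact hN) (by rw [hN1]; omega)
  refine ⟨x, hx, hsx, ?_⟩
  rw [hP1, Finset.erase_inter] at hD
  exact hD

end VCEM

open VCEM

theorem specVCE (hTPF : SpecTPF) (hLST : SpecLST) (hSTK : SpecSTK) (hDF2 : SpecDF2) :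
    SpecVCE := by
  intro ι _ _ k U c1 c2 e1 e2 hT hG y hy hc he hNc
  obtain ⟨t1, t2, t3, t4, t5, t6, t7, t8, t9, t10, t11, t12⟩ := hTPF ι k U c1 c2 e1 e2 hT
  obtain ⟨hc2P, he2P, hNL, hcard, hPc, hPL⟩ := t12 y hy hc he
  have hk2 : kap U (Neg y) = 2 := by
    have := (t5 (Neg y) hNL (by omega)).1
    omega
  obtain ⟨γ, hγ, hγc, hγe⟩ := t11 (Neg y) hNL hNc 1 0
  obtain ⟨ε, hε, hεc, hεe⟩ := t11 (Neg y) hNL hNc 0 1
  obtain ⟨y', hy'U, hp, hn, hT'⟩ := perturb U hy.1 (LL U c1 e1)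
    (fun i => (LinearMap.proj i : (ι → ℝ) →ₗ[ℝ] ℝ) - (γ i) • (LinearMap.proj c1) -
      (ε i) • (LinearMap.proj e1)) (by
      intro i hi
      obtain ⟨w, hw, hwi⟩ := mem_act.1 (show i ∈ act (UU U c1 e1) from hi)
      have hw' : w ∈ K U {c1, e1} := hw
      have h1 : w c1 = 0 := hw'.2 c1 (by simp)
      have h2 : w e1 = 0 := hw'.2 e1 (by simp)
      refine ⟨w, hw'.1, ?_⟩
      simp only [LinearMap.sub_apply, LinearMap.smul_apply, LinearMap.proj_apply, smul_eq_mul]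
      rw [h1, h2]
      simpa using hwi)
  have hTf : ∀ i ∈ LL U c1 e1, y' i - γ i * y' c1 - ε i * y' e1 ≠ 0 := by
    intro i hi
    have := hT' i hi
    simpa only [LinearMap.sub_apply, LinearMap.smul_apply, LinearMap.proj_apply, smul_eq_mul]
      using this
  have hz : ∀ i, y i = 0 → y' i = 0 := by
    intro i hi
    exact not_act (fun h => hy.2 i h hi) hy'U
  obtain ⟨hPP, hNN⟩ := same_signs hp hn hz
  have hNZ' : NZ U y' := by
    refine ⟨hy'U, fun i hi => ?_⟩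
    rcases lt_or_gt_of_ne (hy.2 i hi) with h | h
    · exact (hn i h).ne
    · exact (hp i h).ne'
  have hyc : 0 < y' c1 := hp c1 (mem_Pos.1 hc)
  have hye : 0 < y' e1 := hp e1 (mem_Pos.1 he)
  set φ : ι → ℝ := (y' c1) • γ + (y' e1) • ε with hφdef
  have hφv : ∀ i, φ i = y' c1 * γ i + y' e1 * ε i := by
    intro i; simp [hφdef]
  have hφK : φ ∈ K U (Neg y) := (K U (Neg y)).add_mem ((K U (Neg y)).smul_mem _ hγ)
    ((K U (Neg y)).smul_mem _ hε)
  have hφK' : φ ∈ K U (Neg y') := by rw [hNN]; exact hφK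
  have hφc : φ c1 = y' c1 := by rw [hφv, hγc, hεc]; ring
  have hφe : φ e1 = y' e1 := by rw [hφv, hγe, hεe]; ring
  have hφN : ∀ i ∈ Neg y', φ i = 0 := hφK'.2
  have hTne : ∀ i ∈ LL U c1 e1, y' i - φ i ≠ 0 := by
    intro i hi h
    apply hTf i hi
    rw [hφv] at h
    linarith
  -- the claim
  have hclaim : ∀ i ∈ LL U c1 e1, i ∉ Neg y → 0 < y' i - φ i := by
    intro i hi hiN
    by_contra hcon
    have hlt : y' i - φ i < 0 := lt_of_le_of_ne (not_lt.1 hcon) (hTne i hi)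
    have hiact : i ∈ act U := ((t3 i).1 hi).1
    have hyi : 0 < y' i := by
      rcases lt_or_gt_of_ne (hNZ'.2 i hiact) with h | h
      · exact absurd (by rw [← hNN]; exact mem_Neg.2 h) hiN
      · exact h
    have hφi : 0 < φ i := by linarith
    have hφ0 : φ ≠ 0 := fun h => by rw [h] at hφi; exact lt_irrefl _ hφi
    -- first step
    set δ : ℝ := (φ i - y' i) / (2 * φ i) with hδ
    have hδ0 : 0 < δ := div_pos (by linarith) (by linarith)
    have hδ1 : δ < 1 := by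
      rw [hδ, div_lt_one (by linarith)]
      linarith
    have hδφ : δ * φ i = (φ i - y' i) / 2 := by
      rw [hδ]; field_simp
    obtain ⟨x, hx, hsx, hDx⟩ := step hLST hSTK hT hG hNZ' (mem_Pos.2 hyc) (mem_Pos.2 hye)
      (by rw [hNN]; exact hNc) (by rw [hNN]; exact hk2) hφK'
      (s := y' - (1 - δ) • φ) (U.sub_mem hy'U (U.smul_mem _ hφK.1))
      (by
        simp only [Pi.sub_apply, Pi.smul_apply, smul_eq_mul, hφc]
        have := mul_pos hδ0 hyc
        linarith)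
      (by
        simp only [Pi.sub_apply, Pi.smul_apply, smul_eq_mul, hφe]
        have := mul_pos hδ0 hye
        linarith)
      (by
        intro j hj
        simp only [Pi.sub_apply, Pi.smul_apply, smul_eq_mul, hφN j hj]
        have := mem_Neg.1 hj
        linarith)
      ⟨i, hyi, by
        simp only [Pi.sub_apply, Pi.smul_apply, smul_eq_mul]
        have : (1 - δ) * φ i = φ i - δ * φ i := by ring
        rw [this, hδφ]
        linarith⟩
      (by
        intro j hj hsj h0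
        simp only [Pi.sub_apply, Pi.smul_apply, smul_eq_mul, h0] at hsj
        linarith)
    have hxP : 0 < y' x := mem_Pos.1 (Finset.mem_inter.1 hx).1
    have hφx : 0 < φ x := by
      simp only [Pi.sub_apply, Pi.smul_apply, smul_eq_mul] at hsx
      by_contra hc
      have : 0 ≤ (1 - δ) * (- φ x) := mul_nonneg (by linarith) (by linarith)
      linarith
    -- second step
    obtain ⟨j, hj⟩ := hT.bas.hc φ hφK.1 hφ0
    obtain ⟨x', hx', hsx', hDx'⟩ := step hLST hSTK hT hG hNZ' (mem_Pos.2 hyc) (mem_Pos.2 hye)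
      (by rw [hNN]; exact hNc) (by rw [hNN]; exact hk2) hφK'
      (s := φ) hφK.1 (by rw [hφc]; exact hyc.le) (by rw [hφe]; exact hye.le)
      (fun l hl => (hφN l hl).le)
      ⟨j, by
        have hja : j ∈ act U := mem_act.2 ⟨φ, hφK.1, hj.ne⟩
        rcases lt_or_gt_of_ne (hNZ'.2 j hja) with h | h
        · have := hφN j (mem_Neg.2 h)
          rw [this] at hj
          exact absurd hj (lt_irrefl 0)
        · exact h, hj⟩
      (fun l _ hl => hl.ne)
    have hxx : x ≠ x' := by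
      rintro rfl
      linarith
    rw [hPP] at hx hx' hDx hDx'
    have hne : (Pos y ∩ LL U c1 e1).erase x ≠ (Pos y ∩ LL U c1 e1).erase x' := by
      intro h
      have h1 : x' ∈ (Pos y ∩ LL U c1 e1).erase x := Finset.mem_erase.2 ⟨hxx.symm, hx'⟩
      rw [h] at h1
      exact (Finset.mem_erase.1 h1).1 rfl
    have hD := (hDF2 ι k U c1 c2 e1 e2 hT _ _ hDx hDx' hne).1
    have hinter : ((Pos y ∩ LL U c1 e1).erase x).erase x' ⊆
        (Pos y ∩ LL U c1 e1).erase x ∩ (Pos y ∩ LL U c1 e1).erase x' := by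
      intro l hl
      rw [Finset.mem_erase, Finset.mem_erase] at hl
      exact Finset.mem_inter.2 ⟨Finset.mem_erase.2 ⟨hl.2.1, hl.2.2⟩,
        Finset.mem_erase.2 ⟨hl.1, hl.2.2⟩⟩
    have hcI := Finset.card_le_card hinter
    rw [Finset.card_erase_of_mem (Finset.mem_erase.2 ⟨hxx.symm, hx'⟩),
      Finset.card_erase_of_mem hx] at hcI
    omega
  have hTN : ∀ i ∈ Neg y, y' i - φ i < 0 := by
    intro i hi
    have h1 := hφK.2 i hi
    have h2 := hn i (mem_Neg.1 hi)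
    linarith
  have hTU : y' - φ ∈ UU U c1 e1 := by
    refine ⟨U.sub_mem hy'U hφK.1, ?_⟩
    intro i hi
    rw [Finset.mem_insert, Finset.mem_singleton] at hi
    rcases hi with rfl | rfl
    · simp [hφc]
    · simp [hφe]
  refine ⟨y' - φ, ⟨hTU, ?_⟩, ?_⟩
  · intro i hi
    rw [Pi.sub_apply]
    exact hTne i hi
  · ext i
    rw [mem_Neg, Pi.sub_apply]
    constructor
    · intro h
      by_contra hiN
      have hi : i ∈ LL U c1 e1 := by
        by_contra hi
        have := not_act (U := UU U c1 e1) hi hTU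
        rw [Pi.sub_apply] at this
        linarith
      have := hclaim i hi hiN
      linarith
    · exact hTN i

end MPa0e17f
end

section
/-! # WAL: a wall of `UU` for `k ≥ 4` -/
set_option autoImplicit false

namespace MPa0e17f

open Finset Module

namespace WALM

variable {ι : Type} [Fintype ι] [DecidableEq ι]

lemma hs_K {k : ℕ} {U : Submodule ℝ (ι → ℝ)} (h : HS k U) (S : Finset ι) : HS k (K U S) :=
  fun μ hμ => h μ (K_le U S hμ)

end WALM

open WALM in
theorem specWAL (hSTP : SpecSTP) (hUNI : SpecUNI) (hBLS : SpecBLS) (hTPF : SpecTPF) :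
    SpecWAL := by
  classical
  intro ι _ _ k U c1 c2 e1 e2 hT hk
  obtain ⟨hd, hL, -⟩ := hTPF ι k U c1 c2 e1 e2 hT
  have hHS : HS k (UU U c1 e1) := hs_K hT.bas.hs _
  unfold LL at *
  generalize hW : UU U c1 e1 = W at *
  obtain ⟨-, W2, W3, -, -⟩ := hUNI ι k W hHS (by omega) (by omega)
  obtain ⟨Z0, hZ0, hZc⟩ := Finset.exists_subset_card_eq (s := act W) (n := k - 3) (by omega)
  have hdY : finrank ℝ (K W Z0) = 2 := by
    have := W2 Z0 hZ0 (by omega)
    rw [kap] at this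
    omega
  have hact : act (K W Z0) = act W \ Z0 := by
    ext i
    rw [Finset.mem_sdiff]
    constructor
    · intro hi
      refine ⟨act_mono (K_le W Z0) hi, fun hiZ => ?_⟩
      obtain ⟨μ, hμ, h0⟩ := mem_act.1 hi
      exact h0 (hμ.2 i hiZ)
    · rintro ⟨hi, hiZ⟩
      exact mem_act.2 (W3 Z0 hZ0 (by omega) i hi hiZ)
  have hcY : (act (K W Z0)).card = k + 3 := by
    rw [hact, Finset.card_sdiff_of_subset hZ0]
    omega
  obtain ⟨-, -, -, Y4, -⟩ := hUNI ι k (K W Z0) (hs_K hHS _) (by omega) (by omega)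
  have Y4' := Y4 (by omega)
  -- the final step
  have fin : ∀ v ∈ K W Z0, ∀ z ∈ act (K W Z0), v z = 0 → (∀ i ∈ act (K W Z0), i ≠ z → v i ≠ 0) →
      3 ≤ (Pos v).card → 3 ≤ (Neg v).card → (Pos v).card + (Neg v).card = k + 2 →
      ∃ v ∈ W, ∃ Z : Finset ι, (∀ i, i ∈ Z ↔ i ∈ act W ∧ v i = 0) ∧ Z.card + 2 = k ∧
        3 ≤ (Pos v).card ∧ 3 ≤ (Neg v).card ∧ (Pos v).card + (Neg v).card = k + 2 := by
    intro v hv z hz hvz hvn hP hN hPN
    rw [hact, Finset.mem_sdiff] at hz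
    refine ⟨v, hv.1, insert z Z0, fun i => ?_, ?_, hP, hN, hPN⟩
    · constructor
      · intro hi
        rcases Finset.mem_insert.1 hi with rfl | hi
        · exact ⟨hz.1, hvz⟩
        · exact ⟨hZ0 hi, hv.2 i hi⟩
      · rintro ⟨hi, hvi⟩
        by_contra hc
        rw [Finset.mem_insert, not_or] at hc
        refine hvn i ?_ hc.1 hvi
        rw [hact, Finset.mem_sdiff]
        exact ⟨hi, hc.2⟩
    · rw [Finset.card_insert_of_notMem hz.2]
      omega
  rcases Nat.even_or_odd' k with ⟨j, hj | hj⟩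
  · -- `k` even
    obtain ⟨y0, hy0, z, hz, hyz, hyn, hP, hN⟩ := hBLS.2 ι (K W Z0) (j + 1) (by omega) Y4'
    exact fin y0 hy0 z hz hyz hyn (by omega) (by omega) (by omega)
  · -- `k` odd
    rcases hBLS.1 ι (K W Z0) (j + 2) (by omega)
      (fun i hi b hb l hl hib _ _ hbi _ => Y4' b hb i hi hib.symm hbi) with
      ⟨y, hy, hP, hN⟩ | ⟨y0, hy0, a, ha, b, hb, hab, hpar, -⟩
    · have hPne : (Pos y).Nonempty := by
        rw [← Finset.card_pos]; omega
      obtain ⟨p, hp⟩ := hPne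
      obtain ⟨Z, hZne, hZa, hZs, hZp, -, ⟨y0, hy0, hP0, hN0⟩, -⟩ :=
        hSTP ι (K W Z0) y (-y) hy (Submodule.neg_mem _ hy.1)
          ⟨p, by
            have := mem_Pos.1 hp
            simp only [Pi.neg_apply]
            nlinarith⟩
      obtain ⟨z, hz⟩ := hZne
      have hZ : Z = {z} := by
        ext w
        rw [Finset.mem_singleton]
        constructor
        · intro hw
          by_contra hwz
          exact Y4' w (hZa hw) z (hZa hz) hwz (hZp w hw z hz)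
        · rintro rfl
          exact hz
      subst hZ
      have hz0 : z ∉ Pos y0 ∧ z ∉ Neg y0 := by
        rw [hP0, hN0]
        simp
      have hy0z : y0 z = 0 := by
        by_contra hc
        rcases mem_Pos_or_Neg hc with h | h
        · exact hz0.1 h
        · exact hz0.2 h
      have hy0n : ∀ i ∈ act (K W Z0), i ≠ z → y0 i ≠ 0 := by
        intro i hi hiz
        rcases mem_Pos_or_Neg (hy.2 i hi) with h | h
        · have : i ∈ Pos y0 := by
            rw [hP0, Finset.mem_sdiff, Finset.mem_singleton]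
            exact ⟨h, hiz⟩
          exact (mem_Pos.1 this).ne'
        · have : i ∈ Neg y0 := by
            rw [hN0, Finset.mem_sdiff, Finset.mem_singleton]
            exact ⟨h, hiz⟩
          exact (mem_Neg.1 this).ne
      rcases mem_Pos_or_Neg (hy.2 z (hZa hz)) with hzP | hzN
      · have h1 : z ∉ Neg y := by
          rw [mem_Neg]
          have := mem_Pos.1 hzP
          linarith
        have h2 : (Pos y0).card = j + 1 := by
          rw [hP0, Finset.sdiff_singleton_eq_erase, Finset.card_erase_of_mem hzP]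
          omega
        have h3 : (Neg y0).card = j + 2 := by
          rw [hN0, Finset.sdiff_singleton_eq_erase, Finset.erase_eq_of_notMem h1, hN]
        exact fin y0 hy0 z (hZa hz) hy0z hy0n (by omega) (by omega) (by omega)
      · have h1 : z ∉ Pos y := by
          rw [mem_Pos]
          have := mem_Neg.1 hzN
          linarith
        have h2 : (Neg y0).card = j + 1 := by
          rw [hN0, Finset.sdiff_singleton_eq_erase, Finset.card_erase_of_mem hzN]
          omega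
        have h3 : (Pos y0).card = j + 2 := by
          rw [hP0, Finset.sdiff_singleton_eq_erase, Finset.erase_eq_of_notMem h1, hP]
        exact fin y0 hy0 z (hZa hz) hy0z hy0n (by omega) (by omega) (by omega)
    · exfalso
      obtain ⟨γ, -, hγ⟩ := hpar
      exact Y4' b hb a ha hab.symm ⟨γ, hγ⟩

end MPa0e17f
end
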