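import Pool.Agent.Lib.MP_a0e17f.T.SpecA
import Pool.Agent.Lib.MP_a0e17f.T.SpecB
import Pool.Agent.Lib.MP_a0e17f.T.TLK
import Pool.Agent.Lib.MP_a0e17f.T.STK
import Pool.Agent.Lib.MP_a0e17f.T.WAL

section
/-!
# UNI: uniform subspaces
-/
set_option autoImplicit false

namespace MPa0e17f

open Finset Module

namespace UNIM

variable {ι : Type} [Fintype ι] [DecidableEq ι]

/-- many zeros kill everything -/
theorem kap_zero {k : ℕ} {W : Submodule ℝ (ι → ℝ)} (hW : HS k W)
    (hc : (act W).card = finrank ℝ W + k + 1) (S : Finset ι) (hS : S ⊆ act W)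
    (hS1 : finrank ℝ W ≤ S.card) : kap W S = 0 := by
  by_contra hne
  have h1 : 1 ≤ finrank ℝ (K W S) := Nat.one_le_iff_ne_zero.2 hne
  have h2 := card_act_ge (k := k) (U := W) hW (K W S) (K_le W S) h1
  have h3 : act (K W S) ⊆ act W \ S := by
    intro i hi
    rw [Finset.mem_sdiff]
    refine ⟨act_mono (K_le W S) hi, fun hiS => ?_⟩
    obtain ⟨ν, hν, hν0⟩ := mem_act.1 hi
    exact hν0 (hν.2 i hiS)
  have h4 := Finset.card_le_card h3
  rw [Finset.card_sdiff_of_subset hS] at h4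
  omega

theorem kap_le_add (W : Submodule ℝ (ι → ℝ)) (S D : Finset ι) :
    kap W S ≤ kap W (S ∪ D) + D.card := by
  have h := finrank_le_kap_add_card (K W S) D
  have h2 : kap (K W S) D = kap W (S ∪ D) := by
    rw [kap, K_K]; rfl
  rw [h2] at h
  exact h

theorem kap_eq {k : ℕ} {W : Submodule ℝ (ι → ℝ)} (hW : HS k W)
    (hc : (act W).card = finrank ℝ W + k + 1) (S : Finset ι) (hS : S ⊆ act W)
    (hS1 : S.card ≤ finrank ℝ W) : kap W S + S.card = finrank ℝ W := by
  have h1 := finrank_le_kap_add_card W S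
  obtain ⟨T, hST, hT, hTc⟩ := Finset.exists_subsuperset_card_eq hS hS1 (by omega)
  have h2 := kap_zero hW hc T hT hTc.ge
  have h3 := kap_le_add W S (T \ S)
  rw [Finset.union_sdiff_of_subset hST, h2, Finset.card_sdiff_of_subset hST] at h3
  have h4 := Finset.card_le_card hST
  omega

theorem indep {k : ℕ} {W : Submodule ℝ (ι → ℝ)} (hW : HS k W)
    (hc : (act W).card = finrank ℝ W + k + 1) (S : Finset ι) (hS : S ⊆ act W)
    (hS1 : S.card < finrank ℝ W) (b : ι) (hb : b ∈ act W) (hbS : b ∉ S) :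
    ∃ μ ∈ K W S, μ b ≠ 0 := by
  apply exists_of_kap_lt
  have h1 := kap_eq hW hc S hS hS1.le
  have h2 := kap_eq hW hc (insert b S) (Finset.insert_subset hb hS)
    (by rw [Finset.card_insert_of_notMem hbS]; omega)
  rw [Finset.card_insert_of_notMem hbS] at h2
  omega

end UNIM

theorem specUNI : SpecUNI := by
  intro ι _ _ k W hW _ hc
  refine ⟨fun S hS h => UNIM.kap_zero hW hc S hS h, fun S hS h => UNIM.kap_eq hW hc S hS h,
    fun S hS h b hb hbS => UNIM.indep hW hc S hS h b hb hbS, ?_, ?_⟩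
  · intro h2 i hi j hj hij hP
    obtain ⟨α, hα⟩ := hP
    obtain ⟨μ, hμ, hμi⟩ := UNIM.indep hW hc {j} (Finset.singleton_subset_iff.2 hj)
      (by rw [Finset.card_singleton]; omega) i hi (by simpa using hij)
    apply hμi
    rw [hα μ hμ.1, hμ.2 j (Finset.mem_singleton_self j), mul_zero]
  · intro S hS hS1 g
    have hd : ∀ i : ι, ∃ μ : ι → ℝ, i ∈ S → μ ∈ K W (S.erase i) ∧ μ i ≠ 0 := by
      intro i
      by_cases hi : i ∈ S
      · have hc' := Finset.card_erase_lt_of_mem hi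
        obtain ⟨μ, h1, h2⟩ := UNIM.indep hW hc (S.erase i)
          ((Finset.erase_subset i S).trans hS) (by omega) i (hS hi) (Finset.notMem_erase i S)
        exact ⟨μ, fun _ => ⟨h1, h2⟩⟩
      · exact ⟨0, fun h => absurd h hi⟩
    choose d hd using hd
    refine ⟨∑ i ∈ S, (g i / d i i) • d i, ?_, ?_⟩
    · exact Submodule.sum_mem W fun i hi => W.smul_mem _ (hd i hi).1.1
    · intro j hj
      rw [Finset.sum_apply, Finset.sum_eq_single j]
      · rw [Pi.smul_apply, smul_eq_mul, div_mul_cancel₀ _ (hd j hj).2]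
      · intro i hi hij
        rw [Pi.smul_apply, (hd i hi).1.2 j (Finset.mem_erase.2 ⟨hij.symm, hj⟩), smul_zero]
      · intro h
        exact absurd hj h

end MPa0e17f
end

section
/-!
# WT3: three coordinates which are positive multiples of each other
-/
set_option autoImplicit false

namespace MPa0e17f

open Finset Module

namespace WT3M

lemma prl_of_prlP {ι : Type} {U : Submodule ℝ (ι → ℝ)} {i j : ι} (h : PrlP U i j) :
    Prl U i j := by
  obtain ⟨α, _, h2⟩ := h
  exact ⟨α, h2⟩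

lemma prlP_refl {ι : Type} (U : Submodule ℝ (ι → ℝ)) (i : ι) : PrlP U i i :=
  ⟨1, one_pos, fun μ _ => by rw [one_mul]⟩

lemma prlP_of {ι : Type} {U : Submodule ℝ (ι → ℝ)} {i j c : ι} (h1 : PrlP U i c)
    (h2 : PrlP U j c) : PrlP U i j := by
  obtain ⟨α, hα, h1⟩ := h1
  obtain ⟨β, hβ, h2⟩ := h2
  refine ⟨α / β, div_pos hα hβ, fun μ hμ => ?_⟩
  rw [h1 μ hμ, h2 μ hμ]
  field_simp

lemma prl_trans {ι : Type} {U : Submodule ℝ (ι → ℝ)} {i j c : ι} (h1 : Prl U i j)
    (h2 : Prl U j c) : Prl U i c := by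
  obtain ⟨α, h1⟩ := h1
  obtain ⟨β, h2⟩ := h2
  exact ⟨α * β, fun μ hμ => by rw [h1 μ hμ, h2 μ hμ, mul_assoc]⟩

/-- the conclusion from the output of GRW -/
lemma good_of_grw {ι : Type} [Fintype ι] [DecidableEq ι] (hTLK : SpecTLK) {k : ℕ}
    {U : Submodule ℝ (ι → ℝ)} (hB : Bas k U) {y : ι → ℝ} (hy : NZ U y)
    (h1 : (Neg y).card = finrank ℝ U) (h2 : kap U (Neg y) = 0) : Good k U := by
  obtain ⟨t1, _, _, _, t5, _⟩ := hTLK ι U
  obtain ⟨h3, h4, _, _⟩ := t5 y hy
  have hd := hB.dim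
  have hc := hB.card
  have h5 : kap U (Pos y) = 0 := by
    refine t1 k (Pos y) hB.hs ?_ ?_
    · rw [← h4]
      exact subset_union_left
    · omega
  exact ⟨y, hy.1, hy.2, by rw [h5, h2, hd]; omega⟩

end WT3M

open WT3M in
theorem specWT3 (hUNI : SpecUNI) (hGRW : SpecGRW) (hTLK : SpecTLK) : SpecWT3 := by
  intro ι _ _ k U hB c1 h1 c2 h2 c3 h3 h12 h13 h23 hp2 hp3
  obtain ⟨t1, t2, t3, t4, t5, t6, t7, t8, t9, t10⟩ := hTLK ι U
  have hd := hB.dim
  have hk3 := hB.k3
  have hcard := hB.card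
  have hfr := finrank_K_singleton h1
  have hd' : finrank ℝ (K U {c1}) = k := by omega
  have hge := card_act_ge hB.hs (K U {c1}) (K_le U {c1}) (by omega)
  have hpc : ∀ i ∈ ({c1, c2, c3} : Finset ι), PrlP U i c1 := by
    intro i hi
    rw [mem_insert, mem_insert, mem_singleton] at hi
    rcases hi with rfl | rfl | rfl
    · exact prlP_refl U _
    · exact hp2
    · exact hp3
  have hcact : ({c1, c2, c3} : Finset ι) ⊆ act U := by
    intro i hi
    rw [mem_insert, mem_insert, mem_singleton] at hi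
    rcases hi with rfl | rfl | rfl <;> assumption
  have hccard : ({c1, c2, c3} : Finset ι).card = 3 := by
    rw [card_insert_of_notMem, card_insert_of_notMem, card_singleton]
    · rwa [mem_singleton]
    · rw [mem_insert, mem_singleton, not_or]
      exact ⟨h12, h13⟩
  have hsub : act (K U {c1}) ⊆ act U \ {c1, c2, c3} := by
    intro i hi
    have h4 := (t2 i c1 h1).1 hi
    rw [mem_sdiff]
    exact ⟨h4.1, fun h5 => h4.2 (prl_of_prlP (hpc i h5))⟩
  have hsd : (act U \ {c1, c2, c3}).card = 2 * k + 1 := by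
    rw [card_sdiff_of_subset hcact, hcard, hccard]
    omega
  have hact' : act (K U {c1}) = act U \ {c1, c2, c3} :=
    eq_of_subset_of_card_le hsub (by omega)
  have hcard' : (act (K U {c1})).card = finrank ℝ (K U {c1}) + k + 1 := by
    rw [hact', hsd]
    omega
  have hHS' : HS k (K U {c1}) := fun μ hμ h0 => hB.hs μ hμ.1 h0
  obtain ⟨-, u2, -, u4, -⟩ := hUNI ι k (K U {c1}) hHS' (by omega) hcard'
  -- a tope of `U'` with at most `k` negative coordinates
  obtain ⟨y', hy', hny'⟩ : ∃ y', NZ (K U {c1}) y' ∧ (Neg y').card ≤ k := by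
    obtain ⟨_, _, _, _, t5', ⟨z, hz⟩, _⟩ := hTLK ι (K U {c1})
    obtain ⟨h4, -, -, h5⟩ := t5' z hz
    by_cases h6 : (Neg z).card ≤ k
    · exact ⟨z, hz, h6⟩
    · exact ⟨-z, h5, by rw [Neg_neg]; omega⟩
  have hNsub : Neg y' ⊆ act (K U {c1}) := by
    intro i hi
    exact mem_act.2 ⟨y', hy'.1, (mem_Neg.1 hi).ne⟩
  have hind' := u2 (Neg y') hNsub (by omega)
  have hind : kap U (Neg y') + (Neg y').card = finrank ℝ U := by
    have h4 := finrank_le_kap_add_card U (Neg y')
    have h5 := kap_le_insert U (Neg y') c1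
    have h6 : kap U (insert c1 (Neg y')) = kap (K U {c1}) (Neg y') := by
      rw [kap, kap, K_K, insert_eq]
    omega
  have hz : ∀ i ∈ ({c1, c2, c3} : Finset ι), y' i = 0 := by
    intro i hi
    refine not_act ?_ hy'.1
    rw [hact', mem_sdiff]
    exact fun h4 => h4.2 hi
  -- a nowhere zero element which is positive at `c1`
  obtain ⟨s, hs, hs1⟩ : ∃ s, NZ U s ∧ 0 < s c1 := by
    obtain ⟨s, hs⟩ := t6
    rcases lt_or_gt_of_ne (hs.2 c1 h1) with h4 | h4
    · exact ⟨-s, (t5 s hs).2.2.2, by simpa using h4⟩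
    · exact ⟨s, hs, h4⟩
  have hsc : ∀ i ∈ ({c1, c2, c3} : Finset ι), 0 < s i := fun i hi =>
    ((t10 i c1 (hpc i hi)).2 s hs.1).1.2 hs1
  obtain ⟨y, hy, hyP, hyN⟩ := t8 y' hy'.1.1 s hs.1 (fun i hi _ => hs.2 i hi)
  have hNN : Neg y = Neg y' := by
    ext i
    rw [hyN, mem_Neg]
    constructor
    · rintro (h4 | ⟨h4, h5⟩)
      · exact h4
      · exfalso
        have h6 : i ∈ act U := mem_act.2 ⟨s, hs.1, h5.ne⟩
        by_cases h7 : i ∈ ({c1, c2, c3} : Finset ι)
        · exact absurd (hsc i h7) (not_lt.2 h5.le)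
        · exact hy'.2 i (by rw [hact', mem_sdiff]; exact ⟨h6, h7⟩) h4
    · exact fun h4 => Or.inl h4
  obtain ⟨y2, hy2, -, -, h4, h5⟩ := hGRW ι U {c1, c2, c3} hB.hc
    (fun i hi j hj => prlP_of (hpc i hi) (hpc j hj)) (by
    intro i hi hic j hj hij hprl
    have hi' : i ∈ act (K U {c1}) := by
      rw [hact', mem_sdiff]
      exact ⟨hi, hic⟩
    by_cases hjc : j ∈ ({c1, c2, c3} : Finset ι)
    · exact ((t2 i c1 h1).1 hi').2 (prl_trans hprl (prl_of_prlP (hpc j hjc)))
    · have hj' : j ∈ act (K U {c1}) := by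
        rw [hact', mem_sdiff]
        exact ⟨hj, hjc⟩
      obtain ⟨α, hα⟩ := hprl
      exact u4 (by omega) i hi' j hj' hij ⟨α, fun μ hμ => hα μ hμ.1⟩) y hy (by
    intro i hi
    rw [hyP]
    exact Or.inr ⟨hz i hi, hsc i hi⟩) (by rw [hNN]; exact hind)
  exact good_of_grw hTLK hB hy2 h4 h5

end MPa0e17f
end

section
/-!
# Module XPR: a coloop of the negative side whose removal opens `c`
-/
set_option autoImplicit false

namespace MPa0e17f

open Finset Module

theorem specXPR : SpecXPR := by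
  classical
  intro ι _ _ k U kt y b hE c hc hcl
  have hyU := hE.wall.mem
  have hcp : ¬ Colp U (Pos y) c := fun h => hE.cp c h hcl
  have hca : c ∈ act U := mem_act.2 ⟨y, hyU, (mem_Pos.1 hc).ne'⟩
  have h1 : ¬ ∀ μ ∈ U, (∀ j ∈ Neg y, ¬ Colp U (Neg y) j → μ j = 0) → μ c = 0 := by
    intro h
    exact hE.both c hca ⟨fun μ _ hμ0 => hμ0 c hc hcp, h⟩
  push Not at h1
  obtain ⟨μ, hμ, hμ0, hμc⟩ := h1
  by_contra hcon
  have hcon' : ∀ x, Colp U (Neg y) x → ∀ η ∈ K U ((Neg y).erase x), η c = 0 := by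
    intro x hx η hη
    by_contra h0
    exact hcon ⟨x, hx, η, hη, h0⟩
  have hch : ∀ x : ι, ∃ η : ι → ℝ, Colp U (Neg y) x → (η ∈ K U ((Neg y).erase x) ∧ η x ≠ 0) := by
    intro x
    by_cases hx : Colp U (Neg y) x
    · obtain ⟨-, η, hη, h0⟩ := hx
      exact ⟨η, fun _ => ⟨hη, h0⟩⟩
    · exact ⟨0, fun h => absurd h hx⟩
  choose η hη using hch
  let B : Finset ι := univ.filter fun x => Colp U (Neg y) x
  have hB : ∀ x ∈ B, Colp U (Neg y) x := fun x hx => (Finset.mem_filter.1 hx).2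
  let ν : ι → ℝ := μ - ∑ x ∈ B, (μ x / η x x) • η x
  have hν : ν ∈ K U (Neg y) := by
    refine ⟨U.sub_mem hμ (U.sum_mem fun x hx => U.smul_mem _ (hη x (hB x hx)).1.1), ?_⟩
    intro j hj
    have e1 : ν j = μ j - ∑ x ∈ B, (μ x / η x x) * η x j := by
      simp [ν, Finset.sum_apply]
    rw [e1]
    by_cases hjc : Colp U (Neg y) j
    · have hjB : j ∈ B := Finset.mem_filter.2 ⟨Finset.mem_univ _, hjc⟩
      rw [Finset.sum_eq_single_of_mem j hjB]
      · rw [div_mul_cancel₀ _ (hη j hjc).2, sub_self]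
      · intro x hx hxj
        rw [(hη x (hB x hx)).1.2 j (Finset.mem_erase.2 ⟨hxj.symm, hj⟩), mul_zero]
    · rw [hμ0 j hj hjc, Finset.sum_eq_zero, sub_zero]
      intro x hx
      have hxj : j ≠ x := fun h => hjc (h ▸ hB x hx)
      rw [(hη x (hB x hx)).1.2 j (Finset.mem_erase.2 ⟨hxj, hj⟩), mul_zero]
  have h2 := hcl ν hν
  have e2 : ν c = μ c - ∑ x ∈ B, (μ x / η x x) * η x c := by
    simp [ν, Finset.sum_apply]
  rw [e2, Finset.sum_eq_zero, sub_zero] at h2
  · exact hμc h2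
  · intro x hx
    rw [hcon' x (hB x hx) (η x) (hη x (hB x hx)).1, mul_zero]

end MPa0e17f
end

section
/-!
# Assembly of Theorem A
-/
set_option autoImplicit false

namespace MPa0e17f

open Finset Module

theorem allBLS : SpecBLS := specBLS specSTP
theorem allGRW : SpecGRW := specGRW specSTP
theorem allSMP : SpecSMP :=
  specSMP (specCNT specSSS) (specCLP specSTP) (specFLP specSSS) specXPR
    (specSFN specSSS (specCL3 specSSS))
theorem allSTR : SpecSTR := specSTR allGRW specTLK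
theorem allANT : SpecANT := specANT specSTP specUNI allGRW allBLS specTLK
theorem allWT3 : SpecWT3 := specWT3 specUNI allGRW specTLK
theorem allPJM : SpecPJM := specPJM specSTP specUNI allBLS specTLK allSTR
theorem allPCP : SpecPCP := specPCP specSTP specUNI specTLK allSTR
theorem allPCQ : SpecPCQ := specPCQ specTLK allSTR allPCP
theorem allONE : SpecONE := specONE allPJM allPCQ
theorem allTPF : SpecTPF := specTPF specUNI specTLK
theorem allLST : SpecLST := specLST specSTP specTLK allTPF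
theorem allSTK : SpecSTK := specSTK specSTP specTLK allTPF allLST
theorem allDF1 : SpecDF1 := specDF1 allTPF allSTK
theorem allDF2 : SpecDF2 := specDF2 allTPF
theorem allDF3 : SpecDF3 := specDF3 allTPF allLST allSTK
theorem allWAL : SpecWAL := specWAL specSTP specUNI allBLS allTPF
theorem allBIG : SpecBIG := specBIG allTPF allDF1 allDF2 allWAL
theorem allFVA : SpecFVA := specFVA allTPF allDF1 allDF2 allWAL
theorem allFVB : SpecFVB := specFVB specSTP specUNI specTLK allTPF allDF1 allDF2 allDF3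
theorem allFVC : SpecFVC := specFVC allTPF allDF2 allFVB
theorem allFVD : SpecFVD :=
  specFVD specSTP specUNI specTLK allTPF allDF1 allDF2 allDF3 allFVA allFVC
theorem allFOA : SpecFOA := specFOA allTPF allDF2
theorem allVCE : SpecVCE := specVCE allTPF allLST allSTK allDF2
theorem allFOB : SpecFOB := specFOB specTLK allTPF allLST allSTK allDF2 allDF3 allVCE specTRI
theorem allFOC : SpecFOC := specFOC specSTP specUNI specTLK allTPF allDF1 allDF2 allFOA allFOB
theorem allFOD : SpecFOD :=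
  specFOD specSTP specUNI allBLS allTPF allDF1 allDF2 allFOA allFOC
theorem allTWO : SpecTWO := specTWO allBIG allFVD allFOD
theorem allBAS : SpecBAS := specBAS specTLK allSMP allANT allWT3 allONE allTWO

/-- Theorem A. -/
theorem finA (k d : ℕ) (hk : 3 ≤ k) (hkd : k + 2 ≤ d) :
    (∀ S : Finset (EuclideanSpace ℝ (Fin d)), KIndep k S → 2 * d ≤ S.card → Divisible k S) ∧
    max (d + k + 2) (2 * d + 3 - k) ≤ N k d ∧ N k d ≤ 2 * d :=
  thmA allSMP allBAS k d hk hkd

end MPa0e17f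
end
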