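import Pool.Agent.Lib.MP_a0e17f.T.SpecR

/-!
# Specifications, part G: `N(k,d) ≤ 2d + 2 - t` for `k ≥ 20 t²`, `d ≥ k + t`

THEOREM G. `t ≥ 1`, `k ≥ 20 t²`, `m = dim U ≥ k + 1`, `n = |act U| ≤ 2m + t`, `HS k U`, `HC U` imply `Good k U`.

Notation in the docstrings: `m = finrank U`, `n = |act U| = 2m + t`, `q = m - k - 1`,
`τ = n - m - k - 1 = t + q`; `null S = |S| - m + kap U S ≥ 0` (`finrank_le_kap_add_card`); it is supermodular: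
`null S + null T ≤ null (S ∪ T) + null (S ∩ T)` (`PRTM.kap_super` in `T/PRT.lean`). LEMMA S (`card_act_ge`): if `S ⊆ act U`,
`kap U S ≥ 1` then `|S| + kap U S + k + 1 ≤ n`, i.e. `null S ≤ τ` (`act (K U S) ⊆ act U \ S`).

Files `T/XXX.lean`, `import Pool.Agent.Lib.MP_a0e17f.T.SpecG` (and the files whose lemmas you use, e.g. `T.PRT`,
`T.RC1`, `T.TLK`), namespace `MPa0e17f`, `theorem specXXX (hYYY : SpecYYY) .. : SpecXXX`; own lemmas in the namespace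
`MPa0e17f.XXXM`. No double quotes in files please. `specTLK`, `specSTP`, `specPRT` are proved and may be used directly.
-/

set_option autoImplicit false

namespace MPa0e17f

open Finset Module

/-- an independent flat of `U` -/
structure IFl {ι : Type} [Fintype ι] [DecidableEq ι] (U : Submodule ℝ (ι → ℝ)) (Z : Finset ι) :
    Prop where
  sub : Z ⊆ act U
  ind : kap U Z + Z.card = finrank ℝ U
  flat : ∀ i ∈ act U, i ∉ Z → ∃ μ ∈ K U Z, μ i ≠ 0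

/-! ## Part 1: tools -/

/-- **GLS** [40 lines]. Lemma S for sets.
PROOF. `card_act_ge` for `K U S`; `act (K U S) ⊆ act U \ S`. -/
def SpecGLS : Prop := ∀ (ι : Type) [Fintype ι] [DecidableEq ι] (k : ℕ) (U : Submodule ℝ (ι → ℝ))
  (S : Finset ι), HS k U → S ⊆ act U → 1 ≤ kap U S → S.card + kap U S + (k + 1) ≤ (act U).card

/-- **GIF** [80 lines]. Independent flats. (hyps: TLK)
PROOF. (1) `K_empty`. (2) independence: TLK (3). For `i ∈ act U \ Z'`: if `i ∉ Z` use `K_anti`; if `i ∈ Z \ Z'`: otherwise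
`K U Z' ≤ K U (insert i Z')`, so `kap U (insert i Z') ≥ kap U Z' = m - |Z'|`, but `insert i Z' ⊆ Z` is independent.
(3) `act (K U Z) ⊆ act U \ Z` is clear, the converse is `flat`; a nowhere zero element of `K U Z` (TLK (6) for `K U Z`).
(4) clear from (3). -/
def SpecGIF : Prop := ∀ (ι : Type) [Fintype ι] [DecidableEq ι] (U : Submodule ℝ (ι → ℝ)),
  IFl U ∅ ∧
  (∀ Z Z' : Finset ι, IFl U Z → Z' ⊆ Z → IFl U Z') ∧
  (∀ Z : Finset ι, IFl U Z → act (K U Z) = act U \ Z ∧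
    ∃ v ∈ U, ∀ i, i ∈ Z ↔ i ∈ act U ∧ v i = 0) ∧
  (∀ Z : Finset ι, IFl U Z → ∀ v, NZ (K U Z) v → v ∈ U ∧ ∀ i, i ∈ Z ↔ i ∈ act U ∧ v i = 0)

/-- **GCV** [60 lines]. Covectors. (hyps: TLK; PRT)
PROOF. `RC1M.lower` (in `T/RC1.lean`) gives `finrank U ≤ kap U (Pos v ∪ T) + kap U (Neg v ∪ (Z \ T)) + k` for all
`T ⊆ Z`; take the `T`, `X` of PRT for `A = Pos v`, `B = Neg v`; `|Z \ X| = |Z| - |X|`. -/
def SpecGCV : Prop := ∀ (ι : Type) [Fintype ι] [DecidableEq ι] (k : ℕ) (U : Submodule ℝ (ι → ℝ))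
  (v : ι → ℝ) (Z : Finset ι), ¬ Good k U → v ∈ U → (∀ i, i ∈ Z ↔ i ∈ act U ∧ v i = 0) →
  kap U Z + Z.card = finrank ℝ U →
  ∃ X ⊆ Z, finrank ℝ U + Z.card ≤ kap U (Pos v ∪ X) + kap U (Neg v ∪ X) + k + X.card

/-- **GRD** [200 lines]. Greedy step: an independent flat `Z` outside `Y` with `|Z| < 2m + k - n` can be enlarged by an
element outside `Y`. (hyps: GLS, GIF)
PROOF. Suppose not: for every `o ∈ act U \ (Y ∪ Z)` the set `insert o Z` is no independent flat. It is independent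
(`kap_insert_of_ne`), so there is `o' ∈ act U`, `o' ∉ insert o Z`, vanishing on `K U (insert o Z)`. CLAIM: for all
`s ≤ m - 1 - |Z|` there is `F ⊆ act U`, `Z ⊆ F`, closed (every `i ∈ act U \ F` has `μ ∈ K U F`, `μ i ≠ 0`), with
`kap U F + |Z| + s = m` and `|F| ≥ |Z| + 2 s`. `s = 0`: `F = Z`. Step (`kap U F ≥ 2`): not all of `act U \ Y` is in `F`
(else `kap U F ≤ kap U (act U \ Y) = 0`); let `o ∈ act U \ (Y ∪ F)`, `o'` as above, `μ0 ∈ K U F` with `μ0 o ≠ 0`.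
`F' = {i ∈ act U : i vanishes on K U (insert o F)}`; `K U F' = K U (insert o F)`, `kap U F' = kap U F - 1`
(`kap_insert_of_ne`), `F'` is closed, contains `F`, `o` and `o'` (`K U (insert o F) ≤ K U (insert o Z)`). `o' ∉ F`:
let `ν ∈ K U Z` with `ν o' ≠ 0` (`Z` is a flat). `ν - (ν o / μ0 o) μ0 ∈ K U (insert o Z)`, so it vanishes at `o'`:
`ν o' = (ν o / μ0 o) μ0 o'`, so `μ0 o' ≠ 0`. So `|F'| ≥ |F| + 2`. For `s = m - 1 - |Z|`: `kap U F = 1`, a nonzero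
`μ ∈ K U F` has at least `k + 2` nonzero coordinates, all in `act U \ F`: `2m - 2 - |Z| ≤ |F| ≤ n - k - 2`, a
contradiction. (Note: `|Z| ≤ m - 2` because `n ≥ m + k + 1` by GLS with `S = ∅`.) -/
def SpecGRD : Prop := ∀ (ι : Type) [Fintype ι] [DecidableEq ι] (k : ℕ) (U : Submodule ℝ (ι → ℝ))
  (Y Z : Finset ι), HS k U → 1 ≤ finrank ℝ U → Y ⊆ act U → kap U (act U \ Y) = 0 → IFl U Z →
  Disjoint Z Y → (act U).card + Z.card < 2 * finrank ℝ U + k →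
  ∃ o ∈ act U, o ∉ Y ∧ o ∉ Z ∧ IFl U (insert o Z)

/-- **GRZ** [50 lines]. (hyps: GIF, GRD)
PROOF. Induction on `g`, starting with `∅`. -/
def SpecGRZ : Prop := ∀ (ι : Type) [Fintype ι] [DecidableEq ι] (k : ℕ) (U : Submodule ℝ (ι → ℝ))
  (Y : Finset ι), HS k U → 1 ≤ finrank ℝ U → Y ⊆ act U → kap U (act U \ Y) = 0 →
  ∀ g : ℕ, (act U).card + g ≤ 2 * finrank ℝ U + k → ∃ Z, IFl U Z ∧ Disjoint Z Y ∧ Z.card = g

/-- **GBA** [150 lines]. Balanced topes. (hyps: STP, TLK)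
PROOF. Let `s` be a tope with `|Pos s ∩ D| ≤ |Neg s ∩ D|` (TLK (6), `s` or `-s`). Among all topes `l` with
`|Neg l ∩ D| ≤ |Pos l ∩ D|` (e.g. `-s`) take one with the minimal number of `i ∈ act W` with `l i * s i < 0`. If
`|Pos l ∩ D| ≤ |Neg l ∩ D| + M` we are done. Otherwise there is `i` with `l i * s i < 0` (else `l`, `s` have the same signs
and `|Pos l ∩ D| ≤ |Neg l ∩ D|`). STP from `l` in the direction `s`: a class `C` (`= Z` there) with `|C ∩ D| ≤ M`; `l1` with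
`Pos l1 = (Pos l \ C) ∪ (Neg l ∩ C)`, `Neg l1 = (Neg l \ C) ∪ (Pos l ∩ C)`. `l1 i * s i > 0` for `i ∈ C`, the other signs are
those of `l`, so by minimality `|Pos l1 ∩ D| < |Neg l1 ∩ D|`. And `|Neg l1 ∩ D| ≤ |Neg l ∩ D| + |C ∩ D|`,
`|Pos l1 ∩ D| ≥ |Pos l ∩ D| - |C ∩ D|`, so `|Neg l1 ∩ D| ≤ |Pos l1 ∩ D| + M`. -/
def SpecGBA : Prop := ∀ (ι : Type) [Fintype ι] [DecidableEq ι] (W : Submodule ℝ (ι → ℝ))
  (D : Finset ι) (M : ℕ), (∀ i ∈ act W, ∀ C ⊆ D, (∀ j ∈ C, Prl W j i) → C.card ≤ M) →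
  ∃ y, NZ W y ∧ (Pos y ∩ D).card ≤ (Neg y ∩ D).card + M ∧
    (Neg y ∩ D).card ≤ (Pos y ∩ D).card + M

/-- **GCB** [60 lines]. Classes are small. (hyps: GLS)
PROOF. `i ∉ Z`. `kap U (insert i Z) = m - |Z| - 1 ≥ 1` (`kap_insert_of_ne`: `i ∈ act (K U Z)`). All elements of
`K U (insert i Z)` vanish on `C` (`Prl`), so `K U (insert i Z) = K U (insert i Z ∪ C)`. GLS for
`S = Z ∪ C` (`kap U S ≥ m - |Z| - 1`, `Z ∩ C = ∅`): `|Z| + |C| + (m - |Z| - 1) + k + 1 ≤ n`. -/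
def SpecGCB : Prop := ∀ (ι : Type) [Fintype ι] [DecidableEq ι] (k : ℕ) (U : Submodule ℝ (ι → ℝ))
  (Z : Finset ι), HS k U → IFl U Z → Z.card + 2 ≤ finrank ℝ U →
  ∀ i ∈ act (K U Z), ∀ C ⊆ act (K U Z), (∀ j ∈ C, Prl (K U Z) j i) →
  C.card + finrank ℝ U + k ≤ (act U).card

/-! ## Part 2: the recursion -/

/-- **GST** [300 lines]. The recursion step. `τ` with `n = m + k + 1 + τ`, `n = 2m + t`; `Y` has corank
`e = kap U Y` and nullity `j`. (hyps: GLS, GIF, GCV, GRZ, GBA, GCB)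
PROOF. `e ≥ 4τ + t + 1`, `j ≤ τ` (GLS). `|Y| = m - e + j ≤ k`, so `kap U (act U \ Y) = 0` (otherwise `K U (act U \ Y)` has at least
`k + 2` active coordinates, all in `Y`, by `card_act_ge`). GRZ with `g = k - t` (`t ≤ k`: `e ≤ m` and `k + 1 + τ = m + t`): `Z`. `|Z| + 2 ≤ m`.
GBA for `W = K U Z`, `D = act U \ Y \ Z`, `M = τ + 1` (GCB): `v`, with zero set `Z` (GIF (4)). `P = Pos v`, `Q = Neg v`,
`p = |P \ Y|`, `p' = |Q \ Y|` (`P \ Y = P ∩ D`), `p + p' = L = n - |Y| - |Z| = e + t + (τ + 1 - j)`. GCV: `X`, `a = |X|`: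
`m + (k - t) ≤ kap U (P ∪ X) + kap U (Q ∪ X) + k + a`. (i) `kap U (P ∪ X) ≥ 1`: otherwise `kap U (Q ∪ X) ≥ m - t - a ≥ m - k ≥ 1`
(`a ≤ k - t`), GLS for `Q ∪ X`: `|Q| + a + (m - t - a) + k + 1 ≤ n`, i.e. `|Q| ≤ τ + t`, but
`|Q| ≥ p' ≥ (L - τ - 1) / 2 > τ + t`. The same for `Q`. So by GLS for both and (2) below `a ≤ τ - 1`. (ii)
`A = Y ∪ P ∪ X`, `B = Y ∪ Q ∪ X`: `kap U A ≥ e - p - a ≥ 1` (`finrank_le_kap_add_card` for `K U Y`, `K_K`). (iii)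
supermodularity: `kap U (P ∪ X) + kap U Y ≤ kap U A + kap U (P ∩ Y)`, the same for `Q`,
`kap U (P ∩ Y) + kap U (Q ∩ Y) ≤ kap U Y + m` (the union is `Y`, because `Z ∩ Y = ∅`, the intersection `∅`). So
`kap U A + kap U B ≥ kap U (P ∪ X) + kap U (Q ∪ X) + e - m ≥ e - t - a`. Cardinalities: `|A| = |Y| + p + a`,
`|B| = |Y| + p' + a`. So `|A| + |B| + kap U A + kap U B ≥ 2 (m - e + j) + L + 2a + e - t - a = 2m + τ + 1 + j + a`.
[(2): `|P| + |Q| = n - |Z|`, so `(|P| + a + kap U (P ∪ X)) + (|Q| + a + kap U (Q ∪ X)) ≥ n - (k-t) + 2a + m - t - a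
= n + m - k + a`, and GLS gives `≤ 2 (n - k - 1)`, so `a ≤ n - m - k - 2 = τ - 1`.] -/
def SpecGST : Prop := ∀ (ι : Type) [Fintype ι] [DecidableEq ι] (k t τ j : ℕ)
  (U : Submodule ℝ (ι → ℝ)) (Y : Finset ι), HS k U → ¬ Good k U → k + 1 ≤ finrank ℝ U →
  (act U).card = 2 * finrank ℝ U + t → (act U).card = finrank ℝ U + k + 1 + τ → 1 ≤ t →
  Y ⊆ act U → Y.card + kap U Y = finrank ℝ U + j → 4 * τ + t + 1 ≤ kap U Y →
  ∃ (A B : Finset ι) (a : ℕ), A ⊆ act U ∧ B ⊆ act U ∧ 1 ≤ kap U A ∧ 1 ≤ kap U B ∧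
    2 * finrank ℝ U + τ + 1 + j + a ≤ A.card + kap U A + (B.card + kap U B) ∧
    kap U Y ≤ kap U A + kap U B + t + a

/-- **GRE** [150 lines]. The recursion. (hyps: GLS, GST)
PROOF. Suppose `¬ Good k U`. CLAIM: there is no `Y ⊆ act U`, `e = kap U Y ≥ 1`, `j = |Y| + e - m` (`≥ 0`, and `≤ τ` by GLS),
`δ = τ + 1 - j ≥ 1`, with (I): `δ (m + t) ≤ (τ + 1) (e + t)`. Strong induction on `δ`. From (I), `δ ≥ 1`, and the
hypothesis: `(τ + 1)(e + t) ≥ m + t ≥ (τ + 1)(4τ + 2t + 1)`, so `e ≥ 4τ + t + 1`. GST: `A`, `B`, `a`; `δ_A, δ_B ≥ 1`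
(GLS), `δ_A + δ_B + a ≤ δ`, `e ≤ e_A + e_B + t + a`. So `δ_A, δ_B < δ`. If (I) fails for both:
`(δ - a)(m + t) ≥ (δ_A + δ_B)(m + t) > (τ + 1)(e_A + e_B + 2t) ≥ (τ + 1)(e + t - a) ≥ δ (m + t) - a (τ + 1)`, so
`a (m + t) < a (τ + 1)`, impossible (`m + t ≥ τ + 1`). `Y = ∅` satisfies (I): `e = m`, `j = 0`, `δ = τ + 1`. -/
def SpecGRE : Prop := ∀ (ι : Type) [Fintype ι] [DecidableEq ι] (k t τ : ℕ)
  (U : Submodule ℝ (ι → ℝ)), HS k U → k + 1 ≤ finrank ℝ U →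
  (act U).card = 2 * finrank ℝ U + t → (act U).card = finrank ℝ U + k + 1 + τ → 1 ≤ t →
  (τ + 1) * (4 * τ + 2 * t + 1) ≤ finrank ℝ U + t → Good k U

/-! ## Part 3: simple spaces with `m ≥ k + 1 + t` -/

/-- the situation of part 3: `Z` is an independent flat of maximal size, `|Z| < k` -/
structure MZ {ι : Type} [Fintype ι] [DecidableEq ι] (k t : ℕ) (U : Submodule ℝ (ι → ℝ))
    (Z : Finset ι) : Prop where
  hs : HS k U
  simple : Simple U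
  card : (act U).card = 2 * finrank ℝ U + t
  big : k + 1 + t ≤ finrank ℝ U
  ifl : IFl U Z
  max : ∀ Z', IFl U Z' → Z'.card ≤ Z.card
  lt : Z.card < k
  ge : k ≤ Z.card + t

/-- **GMX** [80 lines]. (hyps: GIF, GRZ, RC2)
PROOF. Let `Z` be an independent flat of maximal size (they are subsets of `act U`; `∅` is one). If `|Z| ≥ k` take
`Z' ⊆ Z` with `k` elements: an independent flat (GIF (2)), with `v` (GIF (3)); RC2 gives `Good`. `GRZ` with `Y = ∅`,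
`g = k - t` (`kap U (act U) = 0`, `not_act`; if `k ≤ t` nothing is to prove): `|Z| ≥ k - t`. -/
def SpecGMX : Prop := ∀ (ι : Type) [Fintype ι] [DecidableEq ι] (k t : ℕ) (U : Submodule ℝ (ι → ℝ)),
  HS k U → HC U → Simple U → (act U).card = 2 * finrank ℝ U + t → k + 1 + t ≤ finrank ℝ U →
  ¬ Good k U → ∃ Z, MZ k t U Z

/-- **GPA** [80 lines]. Partners. (hyps: GIF, TLK)
PROOF. `o ∈ act (K U Z) = act U \ Z` (GIF (3)). `insert o Z` has `|Z| + 1` elements and is independent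
(`kap_insert_of_ne`), so it is not a flat: there is `o' ∈ act U`, `o' ∉ insert o Z`, which vanishes on
`K U (insert o Z) = K (K U Z) {o}`. TLK (2) for `K U Z`. -/
def SpecGPA : Prop := ∀ (ι : Type) [Fintype ι] [DecidableEq ι] (k t : ℕ) (U : Submodule ℝ (ι → ℝ))
  (Z : Finset ι), MZ k t U Z → ∀ o ∈ act (K U Z), ∃ o' ∈ act (K U Z), o' ≠ o ∧ Prl (K U Z) o' o

/-- `F` is closed in `W` -/
def Clo {ι : Type} [Fintype ι] [DecidableEq ι] (W : Submodule ℝ (ι → ℝ)) (F : Finset ι) : Prop :=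
  F ⊆ act W ∧ ∀ i ∈ act W, i ∉ F → ∃ μ ∈ K W F, μ i ≠ 0

/-- **GCL** [80 lines]. Closures.
PROOF. `F' = {i ∈ act W : ∀ μ ∈ K W F, μ i = 0}`; `K W F' = K W F`. (2): the functional `o'` is `c • o` on `W`, and `c ≠ 0`
(`o' ∈ act W`); `o` is active on `K W F` (`Clo`). -/
def SpecGCL : Prop := ∀ (ι : Type) [Fintype ι] [DecidableEq ι] (W : Submodule ℝ (ι → ℝ)),
  (∀ F ⊆ act W, ∃ F', Clo W F' ∧ F ⊆ F' ∧ kap W F' = kap W F ∧
    ∀ i ∈ act W, i ∈ F' ↔ ∀ μ ∈ K W F, μ i = 0) ∧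
  (∀ F, Clo W F → ∀ o ∈ act W, o ∉ F → ∀ o' ∈ act W, Prl W o' o → o' ∉ F)

/-- **GHY** [120 lines]. Upper bound for closed sets: with `ρ = dim W - kap W F` it says `|F| ≤ 2ρ + x`,
`x = t + |Z| - k`. (hyps: GIF, GPA, GCL)
PROOF. `W = K U Z`, `|act W| = n - |Z|`. Induction on `kap W F`. If `kap W F = 1`: a nonzero `μ ∈ K W F` has at least `k + 2`
nonzero coordinates (`HS`), all in `act W \ F`. So `|F| + k + 2 ≤ |act W| = 2m + t - |Z|`, `dim W = m - |Z|`. If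
`kap W F ≥ 2` let `o ∈ act (K W F)`, `o'` its partner (GPA), both not in `F` (GCL (2)); the closure `F'` of
`insert o F` has `kap W F' = kap W F - 1`, and contains `F`, `o`, `o'`: `|F'| ≥ |F| + 2`. Apply the induction hypothesis to `F'`. -/
def SpecGHY : Prop := ∀ (ι : Type) [Fintype ι] [DecidableEq ι] (k t : ℕ) (U : Submodule ℝ (ι → ℝ))
  (Z : Finset ι), MZ k t U Z → ∀ F, Clo (K U Z) F → 1 ≤ kap (K U Z) F →
  F.card + 2 * kap (K U Z) F + k ≤ 2 * finrank ℝ (K U Z) + t + Z.card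

/-- the set `F0` of part 3 -/
structure F0 {ι : Type} [Fintype ι] [DecidableEq ι] (k t : ℕ) (U : Submodule ℝ (ι → ℝ))
    (Z F : Finset ι) : Prop where
  clo : Clo (K U Z) F
  card : F.card + 3 * k ≤ 3 * (t + Z.card)
  two : ∀ o ∈ act (K U Z), o ∉ F → ∀ o' ∈ act (K U Z), ∀ o'' ∈ act (K U Z), o' ≠ o → o'' ≠ o →
    Prl (K U Z) o' o → Prl (K U Z) o'' o → o' = o''
  line : ∀ o1 ∈ act (K U Z), o1 ∉ F → ∀ o2 ∈ act (K U Z), o2 ∉ F → ¬ Prl (K U Z) o1 o2 →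
    ∀ f ∈ act (K U Z), (∀ μ ∈ K (K U Z) {o1, o2}, μ f = 0) → Prl (K U Z) f o1 ∨ Prl (K U Z) f o2

/-- **GF0** [250 lines]. (hyps: GIF, TLK, GPA, GCL, GHY)
PROOF. `W = K U Z`, `R = dim W = m - |Z|`, `x = t + |Z| - k` (`0 ≤ x < t`), `R ≥ x + 3` (`m ≥ k + 1 + t`, `|Z| < k`:
`m - |Z| - t - |Z| + k ≥ 2k + 1 - 2 |Z| ≥ 3`). Among the closed sets `F` with `kap W F ≥ 1` and `|F| ≥ 3 ρ`, `ρ = R - kap W F` (`∅` is one)
take one with maximal `ρ`. By GHY `3ρ ≤ |F| ≤ 2ρ + x`, so `ρ ≤ x` and `|F| ≤ 3x`. BIGGER: a closed set `F'` with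
`ρ < ρ' ≤ ρ + 2` (so `kap W F' = R - ρ' ≥ R - x - 2 ≥ 1`) and `|F'| ≥ 3ρ'` is a contradiction. `two`: let `o, o', o''` be three different
proportional elements, `o ∉ F`. The closure `F'` of `insert o F` contains all three, `ρ' = ρ + 1`, none is in `F` (GCL (2)):
`|F'| ≥ |F| + 3`. `line`: let `f` be not proportional to `o1`, `o2` (on `W`), and vanish on `K W {o1, o2}`. On `W` `f = α o1 + β o2`,
`α, β ≠ 0`. Let `o1', o2', f'` be the partners (GPA): the six elements are different. Case `f ∈ F`: the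
closure `F'` of `insert o1 F` has `ρ' = ρ + 1`, contains `o2` (`β ≠ 0`), so also `o1, o1', o2, o2'`, four elements outside `F`.
Case `f ∉ F`: the closure of `F ∪ {o1, o2}` has `ρ + 1 ≤ ρ' ≤ ρ + 2` and contains six elements outside `F` (GCL (2)). -/
def SpecGF0 : Prop := ∀ (ι : Type) [Fintype ι] [DecidableEq ι] (k t : ℕ) (U : Submodule ℝ (ι → ℝ))
  (Z : Finset ι), MZ k t U Z → ∃ F, F0 k t U Z F

/-- **GRL** [120 lines]. The relation of a pair.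
PROOF. `Prl`: `c` with `μ o' = c μ o` on `K U Z`. The linear functional `φ = proj o' - c proj o` on `U` vanishes on
the intersection of the kernels of `proj z`, `z ∈ Z`; so it is a linear combination of them (for example
`mem_span_of_iInf_ker_le_ker`, or induction on `Z` for all `U`: for `insert z Z` apply the case `Z` to `U' = K U {z}`, and if
`z ∈ act U` subtract a multiple of `proj z`). If all `β z` (`z ∈ Z`) are `0` then `Prl U o' o`. -/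
def SpecGRL : Prop := ∀ (ι : Type) [Fintype ι] [DecidableEq ι] (U : Submodule ℝ (ι → ℝ))
  (Z : Finset ι) (o o' : ι), Prl (K U Z) o' o →
  ∃ (c : ℝ) (β : ι → ℝ), (∀ μ ∈ U, μ o' = c * μ o + ∑ z ∈ Z, β z * μ z) ∧
    (¬ Prl U o' o → ∃ z ∈ Z, β z ≠ 0)

/-- **GDJ** [250 lines]. Disjointness. (hyps: GIF, TLK)
PROOF. `W = K U Z`. Suppose `z ∈ Z`, `β1 z ≠ 0`, `β2 z ≠ 0`. `Z1 = insert o1 (insert o2 (Z.erase z))`, `|Z1| = |Z| + 1`. `o1, o2` are not proportional on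
`W`, so `kap U (Z ∪ {o1, o2}) = dim W - 2` (`kap_insert_of_ne` twice; `o1` does not vanish on `K W {o2}` by TLK (2)). `Z1 ∪ {z} = Z ∪ {o1, o2}`, so
`kap U Z1 ≤ dim W - 1` (`kap_le_insert`), and `kap U Z1 ≥ m - |Z1| = dim W - 1` (`finrank_le_kap_add_card`): `Z1` is independent, and there is
`ν ∈ K U Z1` with `ν z ≠ 0`. `Z1` is a flat: let `f ∈ act U \ Z1`. `f = z`: `ν`. Otherwise `f ∉ Z`, `f ∈ act W`. If `f` does not vanish on
`K W {o1, o2} ≤ K U Z1` we are done. Otherwise `F0.line`: `f` is proportional to `o1` or `o2` on `W`, so by `F0.two` `f = o1'` or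
`f = o2'`. `ν o1' = c1 ν o1 + ∑ β1 w ν w = β1 z ν z ≠ 0`. The same for `o2'`. This contradicts `MZ.max`. -/
def SpecGDJ : Prop := ∀ (ι : Type) [Fintype ι] [DecidableEq ι] (k t : ℕ) (U : Submodule ℝ (ι → ℝ))
  (Z F : Finset ι), MZ k t U Z → F0 k t U Z F →
  ∀ o1 ∈ act (K U Z), o1 ∉ F → ∀ o2 ∈ act (K U Z), o2 ∉ F → ¬ Prl (K U Z) o1 o2 →
  ∀ o1' ∈ act (K U Z), o1' ≠ o1 → Prl (K U Z) o1' o1 →
  ∀ o2' ∈ act (K U Z), o2' ≠ o2 → Prl (K U Z) o2' o2 →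
  ∀ (c1 c2 : ℝ) (β1 β2 : ι → ℝ), (∀ μ ∈ U, μ o1' = c1 * μ o1 + ∑ z ∈ Z, β1 z * μ z) →
  (∀ μ ∈ U, μ o2' = c2 * μ o2 + ∑ z ∈ Z, β2 z * μ z) →
  ∀ z ∈ Z, β1 z ≠ 0 → β2 z = 0

/-- **GTV** [60 lines]. Transversals of an involution without fixed points.
PROOF. Induction on `|E|` (strong): take `o ∈ E`, remove `o` and `p o`. -/
def SpecGTV : Prop := ∀ (ι : Type) [DecidableEq ι] (E : Finset ι) (p : ι → ι),
  (∀ o ∈ E, p o ∈ E) → (∀ o ∈ E, p (p o) = o) → (∀ o ∈ E, p o ≠ o) →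
  ∃ T ⊆ E, 2 * T.card = E.card ∧ (∀ o ∈ T, p o ∉ T)

/-- **GCT** [250 lines]. The count. (hyps: GLS, GIF, TLK, GPA, GCL, GRL, GDJ, GTV)
PROOF. `W = K U Z`, `R = dim W`, `E = act W \ F`. For `o ∈ E` let `p o` be its partner (GPA), unique by `F0.two`, in `E` by GCL (2), `p (p o) = o`.
GTV: `T`, `l = |T|`, `2 l = |E| = |act W| - |F|`. Different `o1, o2 ∈ T` are not proportional on `W` (else `o2 = p o1`). GRL: `c_o`, `β_o`;
`Z_o = {z ∈ Z : β_o z ≠ 0} ≠ ∅` (`Simple`), pairwise disjoint for `o ∈ T` (GDJ). With `τ = n - m - k - 1`: CLAIM `l + R ≤ 2τ + 2`. Let `S ⊆ T` with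
`|S| = min (τ + 1, l)`. `A = S ∪ p(S) ∪ ⋃_{o ∈ S} Z_o`, `|A| = 2|S| + ζ`, `ζ = ∑_{o ∈ S} |Z_o|`. `K U A = K U (S ∪ ⋃ Z_o)`, so
`kap U A ≥ m - |S| - ζ`. If `|S| = τ + 1`: `kap U A ≥ 1` would give `n ≥ |A| + kap U A + k + 1 ≥ m + τ + 1 + k + 1` (GLS), a contradiction, so
`kap U A = 0`, `m ≤ ζ + τ + 1`. `ζ + (l - |S|) ≤ ∑_{o ∈ T} |Z_o| ≤ |Z|`. So `m - τ - 1 + l - τ - 1 ≤ |Z| = m - R`. If `l ≤ τ`: `R ≤ τ + 1` because
`R = m - |Z| ≤ m - k + t` and `τ = m + t - k - 1`. -/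
def SpecGCT : Prop := ∀ (ι : Type) [Fintype ι] [DecidableEq ι] (k t : ℕ) (U : Submodule ℝ (ι → ℝ))
  (Z F : Finset ι), MZ k t U Z → F0 k t U Z F →
  (act (K U Z)).card + 2 * finrank ℝ (K U Z) + 4 * (k + finrank ℝ U) ≤ F.card + 4 * (act U).card

/-- **GSL** [60 lines]. Simple spaces with `m ≥ k + 1 + t`. (hyps: GIF, GMX, GF0, GCT)
PROOF. Suppose `¬ Good`; `Z` from GMX, `F` from GF0, `i = |Z|`. `dim (K U Z) = m - i`, `|act (K U Z)| = 2m + t - i`. GCT: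
`(2m + t - i) + 2 (m - i) + 4 (k + m) ≤ |F| + 4 (2m + t)`, and `|F| ≤ 3 (t + i - k)`: `7k ≤ 6t + 6i`, so `k ≤ 6t - 6 (k - i)`, and
`i ≤ k - 1`: `k ≤ 6t - 6`. -/
def SpecGSL : Prop := ∀ (ι : Type) [Fintype ι] [DecidableEq ι] (k t : ℕ) (U : Submodule ℝ (ι → ℝ)),
  HS k U → HC U → Simple U → (act U).card = 2 * finrank ℝ U + t → k + 1 + t ≤ finrank ℝ U →
  6 * t ≤ k + 5 → Good k U

/-! ## Part 4: the theorem -/

/-- **GAS** [150 lines]. Theorem G. (hyps: GRE, GSL)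
PROOF. Induction on `finrank U` as in `core2` (`T/MAIN.lean`). If `|act U| ≤ 2m + 1`: `core` (`k ≥ 20`). Otherwise `|act U| = 2m + t1`, `2 ≤ t1 ≤ t`,
`k ≥ 20 t²`. If `m ≤ k + t1`: GRE with `τ = m + t1 - k - 1 ≤ 2 t1 - 1`: `(τ + 1) (4τ + 2 t1 + 1) ≤ 2 t1 (10 t1 - 3) ≤ 20 t1² ≤ k`. If
`m ≥ k + 1 + t1`: `Simple`: GSL (`6 t1 ≤ k + 5`). Not `Simple`: contract `i` as in `core2`. -/
def SpecGAS : Prop := ∀ (ι : Type) [Fintype ι] [DecidableEq ι] (k t : ℕ) (U : Submodule ℝ (ι → ℝ)),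
  1 ≤ t → 20 * t ^ 2 ≤ k → k + 1 ≤ finrank ℝ U → (act U).card ≤ 2 * finrank ℝ U + t → HS k U →
  HC U → Good k U

/-- **GEX** [60 lines]. The version for `d = k + t`. (hyps: GRE)
PROOF. `n = |act U| ≤ 2k + t + 2`, `m ≥ k + 1`, `q = m - k - 1`. If `n ≤ 2m + 1`: `core` (`k ≥ 2`). Otherwise `t1 = n - 2m ≥ 2`, `t1 ≤ t - 2q`, `τ = t1 + q ≤ t - q`. GRE:
`(τ + 1) (4τ + 2 t1 + 1) ≤ (t + 1 - q) (6t + 1 - 8q) ≤ m + t1`; note `m + t1 ≥ k + 1 + q + t1`, and if `t1 < t - 2q` use the monotonicity: with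
`τ = t1 + q`, `(t1 + q + 1)(6 t1 + 4q + 1)` where `t1 + 2q ≤ t`, so `t1 + q + 1 ≤ t + 1`, `6 t1 + 4q + 1 ≤ 6t + 1`; so the product is at most
`(t + 1)(6t + 1) = 6t² + 7t + 1`; for `q = 0`, `t1 = t` this is `≤ k + 1 + t`; in the other cases `t1 ≤ t - 1`, `6 t1 + 4 q + 1 ≤ 6t - 5`, fine. -/
def SpecGEX : Prop := ∀ (ι : Type) [Fintype ι] [DecidableEq ι] (k t : ℕ) (U : Submodule ℝ (ι → ℝ)),
  1 ≤ t → 6 * t ^ 2 + 6 * t ≤ k → k + 1 ≤ finrank ℝ U → (act U).card ≤ 2 * k + t + 2 → HS k U →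
  HC U → Good k U

/-- **GFN** [120 lines]. The theorem on point sets. (hyps: GAS, GEX)
PROOF. As `divisible_of_card_eq2`, `divisible_of_card_ge2`, `thmA` in `T/MAIN.lean` (`finrank (dep p) ≥ |ι| - d - 1`,
`finrank_dep_ge`), with `|ι| = 2d + 2 - t` resp. `|ι| = 2k + t + 2`. The lower bound is `(N_bounds k d _ _).2.1`. -/
def SpecGFN : Prop :=
  (∀ t k d : ℕ, 1 ≤ t → 20 * t ^ 2 ≤ k → k + t ≤ d →
    (∀ S : Finset (EuclideanSpace ℝ (Fin d)), KIndep k S → 2 * d + 2 ≤ S.card + t →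
      Divisible k S) ∧ N k d + t ≤ 2 * d + 2) ∧
  (∀ t k : ℕ, 1 ≤ t → 6 * t ^ 2 + 6 * t ≤ k → N k (k + t) = 2 * k + t + 2)

end MPa0e17f
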