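import Pool.Agent.Lib.MP_a0e17f.T.SpecR
import Pool.Agent.Lib.MP_a0e17f.T.SpecG
import Pool.Agent.Lib.MP_a0e17f.T.TLK

section
/-!
# The removal criterion for point sets
-/
set_option autoImplicit false

namespace MPa0e17f

open Finset Module

namespace FRMM

variable {d : ℕ}

/-- data for a set `S` and a subset `G` -/
theorem core (hRTR : SpecRTR) (k : ℕ) (S G : Finset (EuclideanSpace ℝ (Fin d))) (hS : KIndep k S)
    (hG : G ⊆ S) (hne : G.Nonempty)
    (h : ∀ q ∈ G, ∀ x ∈ S, x ∈ affineSpan ℝ ((G.erase q : Finset _) :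
      Set (EuclideanSpace ℝ (Fin d)))) :
    ∃ (ι : Type) (_ : Fintype ι) (_ : DecidableEq ι) (p : ι ↪ EuclideanSpace ℝ (Fin d))
      (v : ι → ℝ) (Z : Finset ι), univ.map p = S ∧ HS k (dep p) ∧ v ∈ dep p ∧ v ≠ 0 ∧
      (∀ i, i ∈ Z ↔ i ∈ act (dep p) ∧ v i = 0) ∧ kap (dep p) Z + Z.card = finrank ℝ (dep p) ∧
      Z.card + G.card = S.card := by
  classical
  let p : S ↪ EuclideanSpace ℝ (Fin d) := Function.Embedding.subtype (· ∈ S)
  have hmap : (univ : Finset S).map p = S := by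
    ext x
    simp [p]
  set G' : Finset S := univ.filter (fun i => (i : EuclideanSpace ℝ (Fin d)) ∈ G) with hG'
  have hG'map : G'.map p = G := by
    ext x
    constructor
    · intro hx
      obtain ⟨i, hi, rfl⟩ := Finset.mem_map.1 hx
      exact (Finset.mem_filter.1 hi).2
    · intro hx
      exact Finset.mem_map.2 ⟨⟨x, hG hx⟩, Finset.mem_filter.2 ⟨Finset.mem_univ _, hx⟩, rfl⟩
  have hG'card : G'.card = G.card := by
    rw [← hG'map, Finset.card_map]
  have hG'ne : G'.Nonempty := by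
    rw [← Finset.card_pos, hG'card]
    exact Finset.card_pos.2 hne
  have hspan : ∀ q ∈ G', ∀ i, p i ∈ affineSpan ℝ (p '' ((G'.erase q : Finset S) : Set S)) := by
    intro q hq i
    have h1 : p '' ((G'.erase q : Finset S) : Set S) = ((G.erase (p q) : Finset _) :
        Set (EuclideanSpace ℝ (Fin d))) := by
      rw [← Finset.coe_map, Finset.map_erase, hG'map]
    rw [h1]
    exact h _ (Finset.mem_filter.1 hq).2 _ i.2
  obtain ⟨h1, h2, v, hv, hv0⟩ := hRTR S d p G' hG'ne hspan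
  refine ⟨S, inferInstance, inferInstance, p, v, G'ᶜ, hmap, ?_, hv, ?_, ?_, h2, ?_⟩
  · have h3 : KIndep k (univ.map p) := by rw [hmap]; exact hS
    exact (kindep_iff_dep p).1 h3
  · rintro rfl
    obtain ⟨i, hi⟩ := hG'ne
    exact ((hv0 i).1 rfl) hi
  · intro i
    rw [h1, Finset.mem_compl, hv0 i]
    simp
  · rw [Finset.card_compl, hG'card, Fintype.card_coe]
    have := Finset.card_le_card hG
    omega

end FRMM

/-- the criterion with `k + 1` removed points -/
theorem critA (hRTR : SpecRTR) (hRC1 : SpecRC1) (k d : ℕ)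
    (S G : Finset (EuclideanSpace ℝ (Fin d))) (hS : KIndep k S)
    (hG : G ⊆ S) (hne : G.Nonempty) (hc : S.card = G.card + (k + 1))
    (h : ∀ q ∈ G, ∀ x ∈ S, x ∈ affineSpan ℝ ((G.erase q : Finset _) :
      Set (EuclideanSpace ℝ (Fin d)))) : Divisible k S := by
  obtain ⟨ι, _, _, p, v, Z, hmap, hHS, hv, hv0, hZ, hkap, hcard⟩ :=
    FRMM.core hRTR k S G hS hG hne h
  have hGood := hRC1 ι k (dep p) v Z hHS hv hZ hkap (by omega)
  rw [← hmap]
  refine divisible_of_good p ?_ hGood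
  omega

/-- the criterion with `k` removed points -/
theorem critB (hRTR : SpecRTR) (hRC2 : SpecRC2) (hRSM : SpecRSM) (k d : ℕ)
    (S G : Finset (EuclideanSpace ℝ (Fin d))) (hS : KIndep k S)
    (hG : G ⊆ S) (hne : G.Nonempty) (hc : S.card = G.card + k)
    (h : ∀ q ∈ G, ∀ x ∈ S, x ∈ affineSpan ℝ ((G.erase q : Finset _) :
      Set (EuclideanSpace ℝ (Fin d))))
    (h3 : ∀ f : EuclideanSpace ℝ (Fin d) →ᵃ[ℝ] ℝ, (∃ x ∈ S, f x ≠ 0) →
      ∃ T ⊆ S, T.card = 3 ∧ ∀ x ∈ T, f x ≠ 0) : Divisible k S := by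
  classical
  obtain ⟨ι, _, _, p, v, Z, hmap, hHS, hv, hv0, hZ, hkap, hcard⟩ :=
    FRMM.core hRTR k S G hS hG hne h
  have hsimple : Simple (dep p) := by
    refine hRSM ι d p ?_
    rintro f ⟨i, hi⟩
    obtain ⟨T, hT, hTc, hTf⟩ := h3 f ⟨p i, by rw [← hmap]; exact Finset.mem_map_of_mem p (Finset.mem_univ i), hi⟩
    rw [← hTc]
    have h4 : T ⊆ (univ.filter (fun i => f (p i) ≠ 0)).map p := by
      intro x hx
      have h5 := hT hx
      rw [← hmap] at h5
      obtain ⟨j, -, rfl⟩ := Finset.mem_map.1 h5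
      exact Finset.mem_map_of_mem p (Finset.mem_filter.2 ⟨Finset.mem_univ _, hTf _ hx⟩)
    have h6 := Finset.card_le_card h4
    rwa [Finset.card_map] at h6
  have h1 : 1 ≤ kap (dep p) Z := by
    rw [Nat.one_le_iff_ne_zero, kap]
    intro h0
    rw [Submodule.finrank_eq_zero] at h0
    have h5 : v ∈ K (dep p) Z := ⟨hv, fun i hi => ((hZ i).1 hi).2⟩
    rw [h0] at h5
    exact hv0 (by simpa using h5)
  have hGood := hRC2 ι k (dep p) v Z hHS (fun μ hμ h0 => exists_neg_of_dep hμ h0) hsimple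
    (by omega) hv hZ hkap (by omega)
  rw [← hmap]
  refine divisible_of_good p ?_ hGood
  omega

/-- sets containing `d + 2` points in general position: `d + k + 3` points suffice -/
theorem critC (hRTR : SpecRTR) (hRC1 : SpecRC1) (k d : ℕ)
    (S G : Finset (EuclideanSpace ℝ (Fin d))) (hS : KIndep k S)
    (hG : G ⊆ S) (hc : d + k + 3 ≤ S.card) (hGc : G.card = d + 2) (hGi : KIndep d G) :
    Divisible k S := by
  classical
  obtain ⟨G1, hG1, hG1S, hG1c⟩ := Finset.exists_subsuperset_card_eq hG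
    (n := S.card - (k + 1)) (by omega) (by omega)
  have hspan : ∀ T : Finset (EuclideanSpace ℝ (Fin d)), T ⊆ G → d + 1 ≤ T.card →
      ∀ x, x ∈ affineSpan ℝ ((T : Finset _) : Set (EuclideanSpace ℝ (Fin d))) := by
    intro T hT hTc x
    obtain ⟨T', hT', hT'c⟩ := Finset.exists_subset_card_eq hTc
    have h1 := hGi T' (hT'.trans hT) (by omega)
    have h2 : affineSpan ℝ (Set.range (fun x : T' => (x : EuclideanSpace ℝ (Fin d)))) = ⊤ := by
      apply h1.affineSpan_eq_top_iff_card_eq_finrank_add_one.2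
      rw [Fintype.card_coe, hT'c, finrank_euclideanSpace_fin]
    have h3 : Set.range (fun x : T' => (x : EuclideanSpace ℝ (Fin d))) ⊆
        ((T : Finset _) : Set (EuclideanSpace ℝ (Fin d))) := by
      rintro _ ⟨y, rfl⟩
      exact hT' y.2
    have h4 := affineSpan_mono ℝ h3
    rw [h2] at h4
    exact h4 (AffineSubspace.mem_top ℝ _ x)
  refine critA hRTR hRC1 k d S G1 hS hG1S ?_ (by omega) ?_
  · rw [← Finset.card_pos]; omega
  · intro q hq x _
    have h5 := hspan (G.erase q) (Finset.erase_subset _ _) ?_ x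
    · exact affineSpan_mono ℝ (by
        rw [Finset.coe_subset]
        exact Finset.erase_subset_erase q hG1) h5
    · have := Finset.pred_card_le_card_erase (s := G) (a := q)
      omega

end MPa0e17f
end

section
/-!
# GDJ: the relations of the pairs are disjoint
-/
set_option autoImplicit false

namespace MPa0e17f

open Finset Module

namespace GDJM

variable {ι : Type} [Fintype ι] [DecidableEq ι]

omit [Fintype ι] [DecidableEq ι] in
theorem val {U : Submodule ℝ (ι → ℝ)} {Z : Finset ι} {z o o' : ι} {c : ℝ} {β : ι → ℝ}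
    (h : ∀ μ ∈ U, μ o' = c * μ o + ∑ z ∈ Z, β z * μ z) (hz : z ∈ Z) {ν : ι → ℝ} (hν : ν ∈ U)
    (hno : ν o = 0) (hn : ∀ w ∈ Z, w ≠ z → ν w = 0) : ν o' = β z * ν z := by
  rw [h ν hν, hno, mul_zero, zero_add]
  exact sum_eq_single z (fun w hw hwz => by rw [hn w hw hwz, mul_zero]) (fun h => absurd hz h)

end GDJM

/-- GDJ -/
theorem specGDJ (hGIF : SpecGIF) (hTLK : SpecTLK) : SpecGDJ := by
  intro ι _ _ k t U Z F h hF o1 ho1 ho1F o2 ho2 ho2F hnP o1' ho1' hne1 hP1 o2' ho2' hne2 hP2 c1 c2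
    β1 β2 hβ1 hβ2 z hz hz1
  by_contra hz2
  obtain ⟨-, -, h3, -⟩ := hGIF ι U
  obtain ⟨hact, -⟩ := h3 Z h.ifl
  obtain ⟨-, ht2, -⟩ := hTLK ι (K U Z)
  have hm1 := ho1
  have hm2 := ho2
  rw [hact, mem_sdiff] at hm1 hm2
  have hind := h.ifl.ind
  have ho12 : o1 ≠ o2 := by
    rintro rfl
    exact hnP ⟨1, fun μ _ => (one_mul _).symm⟩
  have hk1 : kap U (insert o2 Z) + 1 = kap U Z := kap_insert_of_ne U Z o2 (mem_act.1 ho2)
  have hk2 : kap U (insert o1 (insert o2 Z)) + 1 = kap U (insert o2 Z) := by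
    refine kap_insert_of_ne U (insert o2 Z) o1 ?_
    have h4 := mem_act.1 ((ht2 o1 o2 ho2).2 ⟨ho1, hnP⟩)
    rwa [K_K, Finset.union_comm, ← Finset.insert_eq] at h4
  set Z1 := insert o1 (insert o2 (Z.erase z)) with hZ1
  have hins : insert z Z1 = insert o1 (insert o2 Z) := by
    rw [hZ1, Finset.insert_comm z o1, Finset.insert_comm z o2, Finset.insert_erase hz]
  have hcard : Z1.card = Z.card + 1 := by
    rw [hZ1, card_insert_of_notMem (by
      rw [mem_insert, not_or]
      exact ⟨ho12, fun h => hm1.2 (mem_of_mem_erase h)⟩), card_insert_of_notMem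
        (fun h => hm2.2 (mem_of_mem_erase h)), card_erase_add_one hz]
  have hk3 := kap_le_insert U Z1 z
  rw [hins] at hk3
  have hk4 := finrank_le_kap_add_card U Z1
  obtain ⟨ν, hν, hνz⟩ := exists_of_kap_lt (U := U) (S := Z1) (b := z) (by rw [hins]; omega)
  have hν1 : ν o1 = 0 := hν.2 o1 (mem_insert_self _ _)
  have hν2 : ν o2 = 0 := hν.2 o2 (mem_insert_of_mem (mem_insert_self _ _))
  have hνw : ∀ w ∈ Z, w ≠ z → ν w = 0 := fun w hw hwz =>
    hν.2 w (mem_insert_of_mem (mem_insert_of_mem (mem_erase.2 ⟨hwz, hw⟩)))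
  have hifl : IFl U Z1 := by
    refine ⟨?_, by omega, ?_⟩
    · intro i hi
      rcases mem_insert.1 hi with rfl | hi
      · exact hm1.1
      rcases mem_insert.1 hi with rfl | hi
      · exact hm2.1
      · exact h.ifl.sub (mem_of_mem_erase hi)
    · intro f hf hfZ
      by_cases hfz : f = z
      · exact ⟨ν, hν, by rw [hfz]; exact hνz⟩
      have hf1 : f ≠ o1 := fun h => hfZ (by rw [h]; exact mem_insert_self _ _)
      have hf2 : f ≠ o2 := fun h => hfZ (by rw [h]; exact mem_insert_of_mem (mem_insert_self _ _))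
      have hfZ' : f ∉ Z := fun h =>
        hfZ (mem_insert_of_mem (mem_insert_of_mem (mem_erase.2 ⟨hfz, h⟩)))
      have hfa : f ∈ act (K U Z) := by
        rw [hact, mem_sdiff]
        exact ⟨hf, hfZ'⟩
      by_cases hex : ∃ μ ∈ K (K U Z) {o1, o2}, μ f ≠ 0
      · obtain ⟨μ, hμ, hμf⟩ := hex
        refine ⟨μ, ⟨hμ.1.1, fun i hi => ?_⟩, hμf⟩
        rcases mem_insert.1 hi with rfl | hi
        · exact hμ.2 _ (mem_insert_self _ _)
        rcases mem_insert.1 hi with rfl | hi
        · exact hμ.2 _ (mem_insert_of_mem (mem_singleton_self _))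
        · exact hμ.1.2 i (mem_of_mem_erase hi)
      · push Not at hex
        rcases hF.line o1 ho1 ho1F o2 ho2 ho2F hnP f hfa hex with hPf | hPf
        · have e := hF.two o1 ho1 ho1F f hfa o1' ho1' hf1 hne1 hPf hP1
          refine ⟨ν, hν, ?_⟩
          rw [e, GDJM.val hβ1 hz hν.1 hν1 hνw]
          exact mul_ne_zero hz1 hνz
        · have e := hF.two o2 ho2 ho2F f hfa o2' ho2' hf2 hne2 hPf hP2
          refine ⟨ν, hν, ?_⟩
          rw [e, GDJM.val hβ2 hz hν.1 hν2 hνw]
          exact mul_ne_zero hz2 hνz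
  have := h.max Z1 hifl
  omega

end MPa0e17f
end

section
/-!
# GIF: independent flats
-/
set_option autoImplicit false

namespace MPa0e17f

open Finset Module

namespace GIFM

variable {ι : Type} [Fintype ι] [DecidableEq ι]

lemma act_K_eq {U : Submodule ℝ (ι → ℝ)} {Z : Finset ι} (h : IFl U Z) :
    act (K U Z) = act U \ Z := by
  ext i
  rw [Finset.mem_sdiff]
  constructor
  · intro hi
    obtain ⟨μ, hμ, h0⟩ := mem_act.1 hi
    exact ⟨act_mono (K_le U Z) hi, fun h => h0 (hμ.2 i h)⟩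
  · rintro ⟨h1, h2⟩
    exact mem_act.2 (h.flat i h1 h2)

lemma zero_iff {U : Submodule ℝ (ι → ℝ)} {Z : Finset ι} (h : IFl U Z) {v : ι → ℝ}
    (hv : NZ (K U Z) v) : v ∈ U ∧ ∀ i, i ∈ Z ↔ i ∈ act U ∧ v i = 0 := by
  refine ⟨hv.1.1, fun i => ⟨fun hi => ⟨h.sub hi, hv.1.2 i hi⟩, fun hi => ?_⟩⟩
  by_contra hiZ
  refine hv.2 i ?_ hi.2
  rw [act_K_eq h, Finset.mem_sdiff]
  exact ⟨hi.1, hiZ⟩

lemma empty (U : Submodule ℝ (ι → ℝ)) : IFl U ∅ where
  sub := Finset.empty_subset _
  ind := by rw [kap_empty, Finset.card_empty, add_zero]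
  flat := fun i hi _ => by rw [K_empty]; exact mem_act.1 hi

lemma subset {U : Submodule ℝ (ι → ℝ)} {Z Z' : Finset ι} (h : IFl U Z) (hZ : Z' ⊆ Z) :
    IFl U Z' := by
  have hind : ∀ Y ⊆ Z, kap U Y + Y.card = finrank ℝ U := fun Y hY =>
    (specTLK ι U).2.2.1 Y Z hY h.ind
  refine ⟨hZ.trans h.sub, hind Z' hZ, fun i hi hi' => ?_⟩
  by_cases hiZ : i ∈ Z
  · by_contra hcon
    push Not at hcon
    have h3 : K U Z' ≤ K U (insert i Z') := by
      intro μ hμ
      refine ⟨hμ.1, fun j hj => ?_⟩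
      rcases Finset.mem_insert.1 hj with rfl | hj
      · exact hcon μ hμ
      · exact hμ.2 j hj
    have h4 : kap U Z' ≤ kap U (insert i Z') := kap_le_of_le h3
    have h5 := hind Z' hZ
    have h6 := hind (insert i Z') (Finset.insert_subset hiZ hZ)
    rw [Finset.card_insert_of_notMem hi'] at h6
    omega
  · obtain ⟨μ, hμ, h0⟩ := h.flat i hi hiZ
    exact ⟨μ, K_anti U hZ hμ, h0⟩

end GIFM

theorem specGIF : SpecGIF := by
  intro ι _ _ U
  refine ⟨GIFM.empty U, fun Z Z' h hZ => GIFM.subset h hZ, fun Z h => ⟨GIFM.act_K_eq h, ?_⟩,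
    fun Z h v hv => GIFM.zero_iff h hv⟩
  obtain ⟨v, hv⟩ := (specTLK ι (K U Z)).2.2.2.2.2.1
  exact ⟨v, GIFM.zero_iff h hv⟩

end MPa0e17f
end

section
/-!
# GPA: partners
-/
set_option autoImplicit false

namespace MPa0e17f

open Finset Module

/-- GPA -/
theorem specGPA (hGIF : SpecGIF) (hTLK : SpecTLK) : SpecGPA := by
  intro ι _ _ k t U Z h o ho
  obtain ⟨-, -, h3, -⟩ := hGIF ι U
  obtain ⟨hact, -⟩ := h3 Z h.ifl
  rw [hact, mem_sdiff] at ho
  have ho' : o ∈ act (K U Z) := by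
    rw [hact, mem_sdiff]
    exact ho
  have hkap : kap U (insert o Z) + 1 = kap U Z := kap_insert_of_ne U Z o (mem_act.1 ho')
  have hind := h.ifl.ind
  have hcard : (insert o Z).card = Z.card + 1 := card_insert_of_notMem ho.2
  have hnot : ¬ IFl U (insert o Z) := by
    intro h1
    have := h.max _ h1
    omega
  have hex : ∃ i ∈ act U, i ∉ insert o Z ∧ ∀ μ ∈ K U (insert o Z), μ i = 0 := by
    by_contra hcon
    push Not at hcon
    refine hnot ⟨?_, by omega, fun i hi hi2 => ?_⟩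
    · intro i hi
      rcases mem_insert.1 hi with rfl | hi
      · exact ho.1
      · exact h.ifl.sub hi
    · obtain ⟨μ, hμ, hμi⟩ := hcon i hi hi2
      exact ⟨μ, hμ, hμi⟩
  obtain ⟨i, hi, hi2, hi3⟩ := hex
  rw [mem_insert, not_or] at hi2
  have hia : i ∈ act (K U Z) := by
    rw [hact, mem_sdiff]
    exact ⟨hi, hi2.2⟩
  refine ⟨i, hia, hi2.1, ?_⟩
  obtain ⟨-, h2, -⟩ := hTLK ι (K U Z)
  by_contra hP
  have h4 := (h2 i o ho').2 ⟨hia, hP⟩
  obtain ⟨μ, hμ, hμi⟩ := mem_act.1 h4
  rw [K_K, Finset.union_comm, ← Finset.insert_eq] at hμ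
  exact hμi (hi3 μ hμ)

end MPa0e17f
end

section
/-!
# MP_a0e17f, block T, part G, module GRL (helper88): the relation of a pair
-/
set_option autoImplicit false

namespace MPa0e17f

open Finset Module

theorem specGRL : SpecGRL := by
  intro ι _ _ U Z o o' h
  obtain ⟨c, hc⟩ := h
  -- the functionals on `U`
  let pr : ι → (U →ₗ[ℝ] ℝ) := fun i => (LinearMap.proj i).comp U.subtype
  have hpr : ∀ (i : ι) (μ : U), pr i μ = (μ : ι → ℝ) i := fun i μ => rfl
  let L : {z // z ∈ Z} → (U →ₗ[ℝ] ℝ) := fun z => pr z.1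
  let φ : U →ₗ[ℝ] ℝ := pr o' - c • pr o
  have hker : (⨅ i, LinearMap.ker (L i)) ≤ LinearMap.ker φ := by
    intro μ hμ
    rw [Submodule.mem_iInf] at hμ
    rw [LinearMap.mem_ker]
    have h1 : (μ : ι → ℝ) ∈ K U Z := by
      rw [mem_K]
      refine ⟨μ.2, fun z hz => ?_⟩
      have := hμ ⟨z, hz⟩
      rwa [LinearMap.mem_ker] at this
    have h2 := hc _ h1
    change (μ : ι → ℝ) o' - c * (μ : ι → ℝ) o = 0
    rw [h2, sub_self]
  have hspan := mem_span_of_iInf_ker_le_ker hker
  rw [Submodule.mem_span_range_iff_exists_fun] at hspan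
  obtain ⟨β, hβ⟩ := hspan
  have hmain : ∀ μ ∈ U, μ o' = c * μ o +
      ∑ z ∈ Z, (if hz : z ∈ Z then β ⟨z, hz⟩ else 0) * μ z := by
    intro μ hμ
    have h1 := congrArg (fun f : U →ₗ[ℝ] ℝ => f ⟨μ, hμ⟩) hβ
    simp only [LinearMap.coe_sum, Finset.sum_apply, LinearMap.smul_apply, smul_eq_mul] at h1
    have h2 : φ ⟨μ, hμ⟩ = μ o' - c * μ o := rfl
    rw [h2] at h1
    have h3 : ∑ z ∈ Z, (if hz : z ∈ Z then β ⟨z, hz⟩ else 0) * μ z =
        ∑ z : {z // z ∈ Z}, β z * (L z) ⟨μ, hμ⟩ := by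
      rw [← Finset.sum_attach]
      refine Finset.sum_congr rfl fun z _ => ?_
      simp only [z.2, dif_pos]
      rfl
    rw [h3, h1]
    ring
  refine ⟨c, fun z => if hz : z ∈ Z then β ⟨z, hz⟩ else 0, hmain, ?_⟩
  intro hn
  by_contra hcon
  push Not at hcon
  refine hn ⟨c, fun μ hμ => ?_⟩
  rw [hmain μ hμ, Finset.sum_eq_zero, add_zero]
  intro z hz
  rw [hcon z hz, zero_mul]

end MPa0e17f
end

section
/-!
# MP_a0e17f, block T, module GRZ: independent flats outside `Y` of every size (helper62)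
-/
set_option autoImplicit false

namespace MPa0e17f

open Finset Module

theorem specGRZ (hGIF : SpecGIF) (hGRD : SpecGRD) : SpecGRZ := by
  intro ι _ _ k U Y hHS h1 hY hk g
  induction g with
  | zero =>
    intro _
    exact ⟨∅, (hGIF ι U).1, Finset.disjoint_empty_left Y, Finset.card_empty⟩
  | succ g ih =>
    intro hg
    obtain ⟨Z, hZ, hd, hc⟩ := ih (by omega)
    obtain ⟨o, _, hoY, hoZ, hI⟩ := hGRD ι k U Y Z hHS h1 hY hk hZ hd (by omega)
    refine ⟨insert o Z, hI, ?_, ?_⟩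
    · rw [Finset.disjoint_insert_left]
      exact ⟨hoY, hd⟩
    · rw [Finset.card_insert_of_notMem hoZ, hc]

end MPa0e17f
end

section
/-! MP_a0e17f_co, part G, module GSL (helper56): simple spaces of large dimension. -/
set_option autoImplicit false

namespace MPa0e17f

open Finset Module

theorem specGSL (hGIF : SpecGIF) (hGMX : SpecGMX) (hGF0 : SpecGF0) (hGCT : SpecGCT) : SpecGSL := by
  classical
  intro ι _ _ k t U hHS hHC hS hcard hbig hkt
  by_contra hG
  obtain ⟨Z, hZ⟩ := hGMX ι k t U hHS hHC hS hcard hbig hG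
  obtain ⟨F, hF⟩ := hGF0 ι k t U Z hZ
  have h1 := hGCT ι k t U Z F hZ hF
  obtain ⟨-, -, g3, -⟩ := hGIF ι U
  have h2 := (g3 Z hZ.ifl).1
  have h3 : (act U \ Z).card + Z.card = (act U).card :=
    Finset.card_sdiff_add_card_eq_card hZ.ifl.sub
  have h4 := hZ.ifl.ind
  have h5 : kap U Z = finrank ℝ (K U Z) := rfl
  have h6 := hF.card
  have h7 := hZ.lt
  rw [h2] at h1
  rw [h5] at h4
  omega

end MPa0e17f
end

section
/-!
# Module GTV: transversals of an involution without fixed points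
-/
set_option autoImplicit false

namespace MPa0e17f

open Finset Module

theorem specGTV : SpecGTV := by
  intro ι _ E
  induction E using Finset.strongInduction with
  | H E ih =>
    intro p hE hpp hne
    rcases E.eq_empty_or_nonempty with h0 | ⟨o, ho⟩
    · subst h0
      exact ⟨∅, Finset.Subset.refl _, by simp, by simp⟩
    · have hpo := hE o ho
      have hpo' : p o ∈ E.erase o := Finset.mem_erase.mpr ⟨hne o ho, hpo⟩
      have hmem : ∀ x, x ∈ (E.erase o).erase (p o) ↔ x ≠ p o ∧ x ≠ o ∧ x ∈ E := by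
        intro x
        rw [Finset.mem_erase, Finset.mem_erase]
      have hss : (E.erase o).erase (p o) ⊂ E := by
        refine ⟨fun x hx => ((hmem x).mp hx).2.2, fun h => ?_⟩
        exact ((hmem o).mp (h ho)).2.1 rfl
      obtain ⟨T, hT, hc, hTp⟩ := ih _ hss p
        (by
          intro x hx
          have hx' := (hmem x).mp hx
          refine (hmem _).mpr ⟨?_, ?_, hE x hx'.2.2⟩
          · intro h
            apply hx'.2.1
            rw [← hpp x hx'.2.2, h, hpp o ho]
          · intro h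
            apply hx'.1
            rw [← h, hpp x hx'.2.2])
        (fun x hx => hpp x ((hmem x).mp hx).2.2)
        (fun x hx => hne x ((hmem x).mp hx).2.2)
      have hoT : o ∉ T := fun h => ((hmem o).mp (hT h)).2.1 rfl
      have hpT : p o ∉ T := fun h => ((hmem (p o)).mp (hT h)).1 rfl
      refine ⟨insert o T, ?_, ?_, ?_⟩
      · intro x hx
        rcases Finset.mem_insert.mp hx with rfl | hx
        · exact ho
        · exact ((hmem x).mp (hT hx)).2.2
      · rw [Finset.card_insert_of_notMem hoT]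
        have h1 := Finset.card_erase_add_one hpo'
        have h2 := Finset.card_erase_add_one ho
        omega
      · intro x hx
        rcases Finset.mem_insert.mp hx with rfl | hx
        · rw [Finset.mem_insert, not_or]
          exact ⟨hne x ho, hpT⟩
        · rw [Finset.mem_insert, not_or]
          have hx' := (hmem x).mp (hT hx)
          refine ⟨?_, hTp x hx⟩
          intro h
          apply hx'.1
          rw [← h, hpp x hx'.2.2]

end MPa0e17f
end
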