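import Pool.Agent.Lib.MP_a0e17f.T.SpecG

/-!
# Specifications, part H: the linear version, `N(k,d) ≤ 2d + 2 - t` for `k ≥ 44 t - 19`, `d ≥ k + t`

THEOREM H. `t ≥ 1`, `n = |act U| = 2m + t = m + k + 1 + τ`, `m = dim U ≥ k + 1`, `HS k U` and `19 τ + 7 t ≤ m`
imply `Good k U`. (No simplicity, no `HC`.) This replaces `SpecGRE` of part G, where `m` had to be quadratic in `τ`.

Notation in the docstrings: `m = finrank U`, `E = act U`, `n = |E|`, `kap S = kap U S`, `null S = |S| - m + kap S ≥ 0`; it is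
supermodular and monotone; `null S ≤ τ` for all `S ⊆ E` with `kap S ≥ 1` (GLS).

IDEA. `Y0` = a set with `kap Y0 ≥ 1` and maximal `2 |Y| + 3 kap Y` (= `2 null - rank + const`); everything above it is
sparse: `2 |S| + 3 kap S ≤ 2 |Y0| + 3 kap Y0`. The step (HST) takes a set `Y` of large corank `e` and nullity `j` and
produces `A, B ⊇ Y` with `kap A, kap B ≥ 1` and `null A + null B ≥ τ + 1 + j + a + λ`, where `λ = |F| - ω ≥ 0` is a gain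
which comes from an independent set `F ⊆ Y` in the zero set of the covector (`ω` = rank of `Y` minus rank of
`Y \ cl F`; so `λ` is the connectivity of `cl F` in `Y`). By sparsity above `Y0` one can take `λ ≥ (j - j0) / 2` (HBS).
Three steps `Y0 → Y1 → Y2 → contradiction`: each step halves the corank up to `O(τ)`.

Files `T/XXX.lean`, `import Pool.Agent.Lib.MP_a0e17f.T.SpecH` (and the files whose lemmas you use, e.g. `T.PRT`,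
`T.RC1`, `T.TLK`, `T.GLS`, `T.GCL`, `T.GBA`), namespace `MPa0e17f`, `theorem specXXX (hYYY : SpecYYY) .. : SpecXXX`; own
lemmas in the namespace `MPa0e17f.XXXM`. No double quotes in files please. `specTLK`, `specSTP`, `specPRT`, `specGLS`,
`specGCL`, `specGBA specSTP` are proved and may be used directly.
-/

set_option autoImplicit false

namespace MPa0e17f

open Finset Module

/-- `Z` is independent and its closure is `Z ∪ W` -/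
structure WFl {ι : Type} [Fintype ι] [DecidableEq ι] (U : Submodule ℝ (ι → ℝ)) (Z W : Finset ι) :
    Prop where
  sub : Z ⊆ act U
  subW : W ⊆ act U
  dis : Disjoint Z W
  ind : kap U Z + Z.card = finrank ℝ U
  van : ∀ i ∈ W, ∀ μ ∈ K U Z, μ i = 0
  flat : ∀ i ∈ act U, i ∉ Z → i ∉ W → ∃ μ ∈ K U Z, μ i ≠ 0

/-- **HWF** [60 lines].
PROOF. (1) `K_empty`, `mem_act`. (2) clear: `i ∈ act (K U Z)` iff `i ∈ act U` and some `μ ∈ K U Z` has `μ i ≠ 0`; `NZ (K U Z) v`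
says `v ∈ K U Z` and `v i ≠ 0` for `i ∈ act (K U Z)`; `v` vanishes on `Z` and on `W`. -/
def SpecHWF : Prop := ∀ (ι : Type) [Fintype ι] [DecidableEq ι] (U : Submodule ℝ (ι → ℝ)),
  WFl U ∅ ∅ ∧
  (∀ Z W : Finset ι, WFl U Z W → act (K U Z) = act U \ (Z ∪ W) ∧
    ∀ v, NZ (K U Z) v → v ∈ U ∧ ∀ i, i ∈ Z ∪ W ↔ i ∈ act U ∧ v i = 0)

/-- **HCV** [120 lines]. Covectors. (hyps: TLK; PRT)
PROOF. As GCV (`T/GCV.lean`) and `RC1M.lower` (`T/RC1.lean`), but the zero set of `v` is `Z ∪ W`. For every `T ⊆ Z`: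
`m < kap U (Pos v ∪ T) + kap U (Neg v ∪ (Z \ T)) + (k + 1)`: by `RC1M.values` there is `s ∈ U` with `s = 1` on `T`, `s = -1` on
`Z \ T`; let `l ∈ U` be nonzero on `act U` (`exists_nowhere_zero`); by `nudge s l` there is `ε > 0` such that `s' = s + ε l` has
`s' > 0` on `T`, `s' < 0` on `Z \ T` and `s' ≠ 0` on `act U` (a coordinate in `act U` where `s = 0` is in `Pos l` or
`Neg l`). Apply `finish` (`Par.lean`) to `v`, `s'`, `A = Pos v ∪ T`, `B = Neg v ∪ (Z \ T)`; `W` plays no role. Then PRT for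
`A = Pos v`, `B = Neg v`, `Z` as in GCV. -/
def SpecHCV : Prop := ∀ (ι : Type) [Fintype ι] [DecidableEq ι] (k : ℕ) (U : Submodule ℝ (ι → ℝ))
  (v : ι → ℝ) (Z W : Finset ι), ¬ Good k U → v ∈ U → Disjoint Z W →
  (∀ i, i ∈ Z ∪ W ↔ i ∈ act U ∧ v i = 0) → kap U Z + Z.card = finrank ℝ U →
  ∃ X ⊆ Z, finrank ℝ U + Z.card ≤ kap U (Pos v ∪ X) + kap U (Neg v ∪ X) + k + X.card

/-- **HRD** [200 lines]. Greedy step.
PROOF. The proof of GRD (`T/GRD.lean`) with small changes. Suppose not. For every `o ∈ act U \ (Y ∪ Z)` (so `o ∉ W`) the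
pair `insert o Z`, `W` satisfies all conditions of `WFl` except `flat` (`kap_insert_of_ne`, `K_anti`), so there is
`o' ∈ act U`, `o' ∉ insert o Z`, `o' ∉ W`, vanishing on `K U (insert o Z)`. CLAIM: for all `s ≤ m - 1 - |Z|` there is
`F ⊆ act U`, `Z ∪ W ⊆ F`, closed (every `i ∈ act U \ F` has `μ ∈ K U F`, `μ i ≠ 0`), with `kap U F + |Z| + s = m` and
`|F| ≥ |Z| + 2 s`. `s = 0`: `F = Z ∪ W` (`K U (Z ∪ W) = K U Z`). Step (`kap U F ≥ 2`): not all of `act U \ Y` is in `F` (else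
`kap U F ≤ kap U (act U \ Y) = 0`); let `o ∈ act U \ (Y ∪ F)`, `o'` as above, `μ0 ∈ K U F` with `μ0 o ≠ 0`.
`F' = {i ∈ act U : i vanishes on K U (insert o F)}` is closed, `kap U F' = kap U F - 1`, contains `F`, `o` and `o'`. `o' ∉ F`:
let `ν ∈ K U Z` with `ν o' ≠ 0` (`flat`: `o' ∉ Z`, `o' ∉ W`). `ν - (ν o / μ0 o) μ0 ∈ K U (insert o Z)`, so it vanishes at
`o'`; so `μ0 o' ≠ 0`. So `|F'| ≥ |F| + 2`. For `s = m - 1 - |Z|`: `kap U F = 1`, a nonzero `μ ∈ K U F` has at least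
`k + 2` nonzero coordinates, all in `act U \ F`: `2m - 2 - |Z| ≤ |F| ≤ n - k - 2`, a contradiction. -/
def SpecHRD : Prop := ∀ (ι : Type) [Fintype ι] [DecidableEq ι] (k : ℕ) (U : Submodule ℝ (ι → ℝ))
  (Y Z W : Finset ι), HS k U → 1 ≤ finrank ℝ U → Y ⊆ act U → kap U (act U \ Y) = 0 → WFl U Z W →
  W ⊆ Y → (act U).card + Z.card < 2 * finrank ℝ U + k →
  ∃ o ∈ act U, o ∉ Y ∧ o ∉ Z ∧ WFl U (insert o Z) W

/-- **HRZ** [60 lines]. (hyps: HRD)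
PROOF. Induction on `g - |F|`, starting with `Z = F`; `Z ∩ Y = F` is kept because the new elements are outside `Y`. -/
def SpecHRZ : Prop := ∀ (ι : Type) [Fintype ι] [DecidableEq ι] (k : ℕ) (U : Submodule ℝ (ι → ℝ))
  (Y F W : Finset ι), HS k U → 1 ≤ finrank ℝ U → Y ⊆ act U → kap U (act U \ Y) = 0 → WFl U F W →
  F ⊆ Y → W ⊆ Y → ∀ g : ℕ, F.card ≤ g → (act U).card + g ≤ 2 * finrank ℝ U + k →
  ∃ Z, WFl U Z W ∧ Z ∩ Y = F ∧ Z.card = g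

/-- **HCB** [60 lines]. Classes are small (GCB for `WFl`). (hyps: GLS)
PROOF. See `T/GCB.lean`. `i ∉ Z`. `kap U (insert i Z) = m - |Z| - 1 ≥ 1`. All elements of `K U (insert i Z)` vanish on `C`.
`S = Z ∪ C`: `kap U S ≥ m - |Z| - 1`, `Z ∩ C = ∅`; GLS: `|Z| + |C| + (m - |Z| - 1) + k + 1 ≤ n`. -/
def SpecHCB : Prop := ∀ (ι : Type) [Fintype ι] [DecidableEq ι] (k : ℕ) (U : Submodule ℝ (ι → ℝ))
  (Z W : Finset ι), HS k U → WFl U Z W → Z.card + 2 ≤ finrank ℝ U →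
  ∀ i ∈ act (K U Z), ∀ C ⊆ act (K U Z), (∀ j ∈ C, Prl (K U Z) j i) →
  C.card + finrank ℝ U + k ≤ (act U).card

/-- **HST** [300 lines]. The step. `n = m + k + 1 + τ = 2m + t`; `Y` has corank `e = kap U Y` and nullity `j`.
(hyps: GLS, HWF, HCV, HRZ, GBA, HCB)
PROOF. (As `T/GST.lean`, which is the case `F = W = ∅`.) `j ≤ τ` (GLS). `|Y| = m - e + j ≤ k + 1`, so `kap U (act U \ Y) = 0`
(otherwise `K U (act U \ Y)` has at least `k + 2` active coordinates, all in `Y`). HRZ with `g = k - t` (`|F| ≤ τ ≤ k - t`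
because `3τ + t + 1 ≤ e ≤ m = k + 1 + τ - t`): `Z`. GBA for `K U Z`, `D = act U \ Y \ Z` (`⊆ act (K U Z)`, as `W ⊆ Y`), `M = τ + 1`
(HCB): `v`, zero set `Z ∪ W` (HWF). `P = Pos v`, `Q = Neg v`, `p = |P \ Y|`, `p' = |Q \ Y|` (`P \ Y = P ∩ D`),
`p + p' = |D| = n - |Y| - (|Z| - |F|) = L = 1 + τ + e - j + t + |F|`, `|p - p'| ≤ τ + 1`. HCV: `X`, `a0 = |X ∩ F|`, `a = |X \ Y| = |X \ F|`:
(0) `m + (k - t) ≤ kap U (P ∪ X) + kap U (Q ∪ X) + k + a0 + a`.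
(i) `kap U (P ∪ X) ≥ 1`: otherwise `kap U (Q ∪ X) ≥ m - t - |X| ≥ m - k ≥ 1` (`|X| ≤ k - t`), GLS for `Q ∪ X`:
`|Q| + |X| + (m - t - |X|) + k + 1 ≤ n`, `|Q| ≤ τ + t`, but `2 |Q| ≥ 2 p' ≥ L - τ - 1 ≥ e + t - τ > 2τ + 2t`. The same for `Q`.
(ii) GLS for both, added, with `|P| + |Q| = n - |Z| - |W|` and (0): `a0 + a ≤ τ - 1 + |W|`.
(iii) Let `A = Y ∪ (P ∪ X)`, `B = Y ∪ (Q ∪ X)`. `|A| = |Y| + p + a`, `|B| = |Y| + p' + a`; `kap U A ≥ e - p - a`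
(`GSTM.kap_union_ge` in `T/GST.lean`), so `2 kap U A ≥ 2e - (L + τ + 1) - 2a`: the two last conclusions.
(iv) Supermodularity (`PRTM.kap_super`): `kap U (P ∪ X) + e ≤ kap U A + kap U ((P ∩ Y) ∪ (X ∩ F))`, the same for `Q`;
`kap U ((P ∩ Y) ∪ (X ∩ F)) + kap U ((Q ∩ Y) ∪ (X ∩ F)) ≤ kap U (union) + kap U (intersection)`, the intersection is `X ∩ F`
(`kap = m - a0`, TLK (3)), the union contains `Y \ (F ∪ W)` (`Y ⊆ P ∪ Q ∪ F ∪ W`), so its `kap` is `≤ e + ω`. With (0):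
`kap U A + kap U B ≥ e - t - a - ω`. Adding the cardinalities gives the inequality for
`|A| + kap U A + |B| + kap U B` (`|Y| = m - e + j`).
(v) `kap U A ≥ 1` and `kap U B ≥ 1`: not both are `0` since `e > t + a + ω` ((ii), `|W| + ω ≤ |F| ≤ τ`). If `kap U A = 0` then
`kap U B ≥ e - t - a - ω`, GLS for `B`: `|Y| + p' + a + (e - t - a - ω) ≤ m + τ`, so `p' ≤ τ - j + t + ω`, but
`2 p' ≥ L - τ - 1 = e - j + t + |F|`, so `e ≤ 2τ - j + t + 2ω - |F| ≤ 2τ + t`, a contradiction. The same for `B`. -/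
def SpecHST : Prop := ∀ (ι : Type) [Fintype ι] [DecidableEq ι] (k t τ j ω : ℕ)
  (U : Submodule ℝ (ι → ℝ)) (Y F W : Finset ι), HS k U → ¬ Good k U → k + 1 ≤ finrank ℝ U →
  (act U).card = 2 * finrank ℝ U + t → (act U).card = finrank ℝ U + k + 1 + τ → 1 ≤ t →
  Y ⊆ act U → Y.card + kap U Y = finrank ℝ U + j → WFl U F W → F ⊆ Y → W ⊆ Y →
  kap U (Y \ (F ∪ W)) ≤ kap U Y + ω → 2 * W.card ≤ F.card → 2 * ω ≤ F.card → F.card ≤ τ →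
  3 * τ + t + 1 ≤ kap U Y →
  ∃ (A B : Finset ι) (a : ℕ), Y ⊆ A ∧ Y ⊆ B ∧ A ⊆ act U ∧ B ⊆ act U ∧ 1 ≤ kap U A ∧ 1 ≤ kap U B ∧
    2 * finrank ℝ U + τ + 1 + j + a + F.card ≤ A.card + kap U A + (B.card + kap U B) + ω ∧
    kap U Y + j ≤ 2 * kap U A + 2 * a + t + F.card + 2 * τ + 2 ∧
    kap U Y + j ≤ 2 * kap U B + 2 * a + t + F.card + 2 * τ + 2

/-- **HBS** [200 lines]. The choice of `F` for `Y ⊇ Y0` (`j`, `j0` = nullities, `g = j - j0`).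
PROOF. If `j < j0`: impossible (`null` is monotone: `kap U Y0 ≤ kap U Y + |Y \ Y0|`, `GSTM.kap_union_ge`).
(1) Basis exchange: for finite sets `B, C` there is `G ⊆ C` with `kap U (B ∪ G) + |G| = kap U B` and
`kap U (B ∪ G) = kap U (B ∪ C)` (induction on `C`: `insert c C`: if `c` vanishes on `K U (B ∪ G)` keep `G`, otherwise add `c`,
`kap_insert_of_ne`). (2) Apply (1) to `Y0`, `Y \ Y0`: `G`; let `B' = (Y \ Y0) \ G`. So `|B'| = |Y| - |Y0| - (kap U Y0 - kap U Y) = g`.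
Apply (1) to `Y0`, `B'`: `F ⊆ B'`, `kap U (Y0 ∪ F) + |F| = kap U Y0`, `K U (Y0 ∪ F) = K U (Y0 ∪ B')` (same dimension). `|F| ≤ g`.
`S = {i ∈ Y \ Y0 : i vanishes on K U (Y0 ∪ F)} ⊇ B' ⊇ F`; `K U (Y0 ∪ S) = K U (Y0 ∪ F)`, and `kap U (Y0 ∪ S) ≥ kap U Y ≥ 1`, so the
hypothesis on `Y0` gives `2 (|Y0| + |S|) + 3 (kap U Y0 - |F|) ≤ 2 |Y0| + 3 kap U Y0`, i.e. `2 |S| ≤ 3 |F|`.
(3) `F` is independent in `U`: `kap U F + |F| = m` (from supermodularity, or: `kap U Y0 = kap U (Y0 ∪ F) + |F|` and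
`kap U F + kap U Y0 ≤ kap U (F ∪ Y0) + kap U ∅`, so `kap U F ≤ m - |F|`; `≥` is `finrank_le_kap_add_card`).
`W = {i ∈ act U : i ∉ F, i vanishes on K U F}`. `W ⊆ Y`: `Y` is closed and `K U Y ≤ K U F`. `W ∩ Y0 = ∅`: for `i ∈ W ∩ Y0`
supermodularity for `insert i F` and `Y0` (union `F ∪ Y0`, intersection `{i}` since `F ∩ Y0 = ∅`):
`kap U (insert i F) + kap U Y0 ≤ kap U (F ∪ Y0) + kap U {i}`, and `kap U (insert i F) = kap U F = m - |F|`, so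
`kap U {i} ≥ m`, but `kap U {i} = m - 1` because `i ∈ act U` (`finrank_K_singleton`). So `F ∪ W ⊆ S`, `2 |W| ≤ 2 |S| - 2 |F| ≤ |F|`.
(4) `ω = |S| - g`. `kap U (Y \ (F ∪ W)) ≤ kap U (Y \ S)`. `Y \ S ⊆ Y0 ∪ G` (because `B' ⊆ S`) and `Y \ S ⊇ Y0`; `null (Y0 ∪ G) = null Y0`
(`kap U (Y0 ∪ G) + |G| = kap U Y0`), so by monotonicity of `null` `null (Y \ S) ≤ j0`: `|Y| - |S| + kap U (Y \ S) ≤ m + j0`, i.e.
`kap U (Y \ S) ≤ kap U Y + |S| - g`. -/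
def SpecHBS : Prop := ∀ (ι : Type) [Fintype ι] [DecidableEq ι] (U : Submodule ℝ (ι → ℝ))
  (Y0 Y : Finset ι) (j0 j : ℕ), Y0 ⊆ Y → Y ⊆ act U → 1 ≤ kap U Y →
  (∀ i ∈ act U, i ∉ Y → ∃ μ ∈ K U Y, μ i ≠ 0) →
  (∀ S ⊆ act U, 1 ≤ kap U S → 2 * S.card + 3 * kap U S ≤ 2 * Y0.card + 3 * kap U Y0) →
  Y0.card + kap U Y0 = finrank ℝ U + j0 → Y.card + kap U Y = finrank ℝ U + j →
  ∃ (F W : Finset ι) (ω : ℕ), WFl U F W ∧ F ⊆ Y ∧ W ⊆ Y ∧ F.card + j0 ≤ j ∧ 2 * W.card ≤ F.card ∧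
    kap U (Y \ (F ∪ W)) ≤ kap U Y + ω ∧ 2 * ω + 2 * j ≤ 3 * F.card + 2 * j0

/-- **HRE** [200 lines]. Theorem H. (hyps: GLS, GCL, HWF, HST, HBS)
PROOF. Suppose `¬ Good k U`. Let `Y0` be an `S ⊆ act U` with `kap U S ≥ 1` and maximal `2 |S| + 3 kap U S` (`∅` is one);
`e0 = kap U Y0`, `j0 = |Y0| + e0 - m` (`≥ 0`: `finrank_le_kap_add_card`), `m ≤ e0 + 2 j0` (compare with `∅`). All `j` below are `≤ τ` (GLS).
STEP 1. HST for `Y0`, `F = W = ∅`, `ω = 0` (`e0 ≥ m - 2 j0 ≥ 3τ + t + 1`): `A`, `B`, `a1`; take the one with the larger nullity and its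
closure `Y1` (GCL for `W = U`; `kap` is the same, the nullity does not decrease): with `e1 = kap U Y1`, `j1 = null Y1`
`2 j1 ≥ τ + 1 + j0 + a1`, `e0 + j0 ≤ 2 e1 + 2 a1 + t + 2τ + 2`. So `2 e1 ≥ e0 + 3 j0 - 4 j1 - t ≥ m + j0 - 4τ - t`, `e1 ≥ 3τ + t + 1`.
STEP 2. HBS for `Y0`, `Y1`: `F`, `W`, `ω`, `f = |F|`: `f + j0 ≤ j1`, `2ω + 2 j1 ≤ 3 f + 2 j0`, so `2ω ≤ f`. HST for `Y1`: `A`, `B`, `a2`;
`null A, null B ≤ τ` gives `τ + 1 + j1 + a2 + f ≤ 2τ + ω`. `Y2` = closure of the one with the larger nullity: `2 j2 ≥ τ + 1 + j1 + a2 + f - ω`,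
`e1 + j1 ≤ 2 e2 + 2 a2 + t + f + 2τ + 2`. So `4 j2 ≥ 2τ + 2 + 4 j1 - 2 j0 - f ≥ 2τ + 2 + 3 j1 - j0`;
`2 e2 ≥ e1 + 3 j1 - 4τ - t`, `4 e2 ≥ e0 + 3 j0 + 2 j1 - 8τ - 3t ≥ e0 + 4 j0 - 7τ - 3t + 1 ≥ m - 7τ - 3t + 1 ≥ 12τ + 4t + 1`, so
`e2 ≥ 3τ + t + 1`.
STEP 3. HBS for `Y0`, `Y2` (`f'`, `ω'`), HST: `τ + 1 + j2 + a3 + f' ≤ 2τ + ω'`, `2ω' + 2 j2 ≤ 3 f' + 2 j0`, `f' + j0 ≤ j2`. So
`3 j2 - j0 ≤ 2τ - 2`. With `4 j2 ≥ 2τ + 2 + 3 j1 - j0`, `2 j1 ≥ τ + 1 + j0`: `8 j2 ≥ 7τ + 7 + j0`, so `j0 ≥ τ + 1`, a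
contradiction. (All of this is linear: `omega`.) -/
def SpecHRE : Prop := ∀ (ι : Type) [Fintype ι] [DecidableEq ι] (k t τ : ℕ)
  (U : Submodule ℝ (ι → ℝ)), HS k U → k + 1 ≤ finrank ℝ U →
  (act U).card = 2 * finrank ℝ U + t → (act U).card = finrank ℝ U + k + 1 + τ → 1 ≤ t →
  19 * τ + 7 * t ≤ finrank ℝ U → Good k U

/-- **HAS** [150 lines]. The linear theorem. (hyps: HRE, GSL)
PROOF. As GAS (`T/GAS.lean`): induction on `finrank U`. If `|act U| ≤ 2m + 1`: `core` (`k ≥ 25`). Otherwise `|act U| = 2m + t1`,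
`2 ≤ t1 ≤ t`. If `m ≤ k + t1`: HRE with `τ = m + t1 - k - 1`: `m = k + 1 + q`, `q ≤ t1 - 1`, `τ = t1 + q`:
`19 (t1 + q) + 7 t1 ≤ k + 1 + q` because `26 t1 + 18 q ≤ 44 t1 - 18 ≤ k + 1`. If `m ≥ k + 1 + t1`: `Simple`: GSL (`6 t1 ≤ k + 5`).
Not `Simple`: contract as in GAS. -/
def SpecHAS : Prop := ∀ (ι : Type) [Fintype ι] [DecidableEq ι] (k t : ℕ) (U : Submodule ℝ (ι → ℝ)),
  1 ≤ t → 44 * t ≤ k + 19 → k + 1 ≤ finrank ℝ U → (act U).card ≤ 2 * finrank ℝ U + t → HS k U →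
  HC U → Good k U

/-- **HEX** [60 lines]. The version for `d = k + t`. (hyps: HRE)
PROOF. As GEX (`T/GEX.lean`). `n ≤ 2k + t + 2`, `m ≥ k + 1`, `q = m - k - 1`. If `n ≤ 2m + 1`: `core` (`k ≥ 25`). Otherwise
`t1 = n - 2m ≤ t - 2q`, `τ = t1 + q`: `19 (t1 + q) + 7 t1 ≤ k + 1 + q` because `26 t1 + 18 q ≤ 26 t - 34 q ≤ k + 1`. -/
def SpecHEX : Prop := ∀ (ι : Type) [Fintype ι] [DecidableEq ι] (k t : ℕ) (U : Submodule ℝ (ι → ℝ)),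
  1 ≤ t → 26 * t ≤ k + 1 → k + 1 ≤ finrank ℝ U → (act U).card ≤ 2 * k + t + 2 → HS k U →
  HC U → Good k U

/-- **HFN** [120 lines]. The theorem on point sets. (hyps: HAS, HEX)
PROOF. Word for word GFN (`T/GFN.lean`). -/
def SpecHFN : Prop :=
  (∀ t k d : ℕ, 1 ≤ t → 44 * t ≤ k + 19 → k + t ≤ d →
    (∀ S : Finset (EuclideanSpace ℝ (Fin d)), KIndep k S → 2 * d + 2 ≤ S.card + t →
      Divisible k S) ∧ N k d + t ≤ 2 * d + 2) ∧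
  (∀ t k : ℕ, 1 ≤ t → 26 * t ≤ k + 1 → N k (k + t) = 2 * k + t + 2)

end MPa0e17f
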