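import Pool.Agent.Lib.MP_a0e17f.T.SpecR
import Pool.Agent.Lib.MP_a0e17f.T.SpecG
import Pool.Agent.Lib.MP_a0e17f.T.SpecH
import Pool.Agent.Lib.MP_a0e17f.T.TLK

section
/-!
# PRT: the partition lemma
-/
set_option autoImplicit false

namespace MPa0e17f

open Finset Module

namespace PRTM

lemma K_inf {ι : Type} [Fintype ι] [DecidableEq ι] (U : Submodule ℝ (ι → ℝ)) (S T : Finset ι) :
    K U S ⊓ K U T = K U (S ∪ T) := by
  ext μ
  simp only [Submodule.mem_inf, mem_K, Finset.mem_union]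
  constructor
  · rintro ⟨⟨h1, h2⟩, _, h3⟩
    exact ⟨h1, fun i hi => hi.elim (h2 i) (h3 i)⟩
  · rintro ⟨h1, h2⟩
    exact ⟨⟨h1, fun i hi => h2 i (Or.inl hi)⟩, h1, fun i hi => h2 i (Or.inr hi)⟩

lemma sup_le_K {ι : Type} [Fintype ι] [DecidableEq ι] (U : Submodule ℝ (ι → ℝ)) (S T : Finset ι) :
    K U S ⊔ K U T ≤ K U (S ∩ T) :=
  sup_le (K_anti U Finset.inter_subset_left) (K_anti U Finset.inter_subset_right)

/-- supermodularity -/
lemma kap_super {ι : Type} [Fintype ι] [DecidableEq ι] (U : Submodule ℝ (ι → ℝ))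
    (S T : Finset ι) : kap U S + kap U T ≤ kap U (S ∪ T) + kap U (S ∩ T) := by
  have h := Submodule.finrank_sup_add_finrank_inf_eq (K U S) (K U T)
  rw [K_inf] at h
  have h2 : finrank ℝ ↥(K U S ⊔ K U T) ≤ finrank ℝ ↥(K U (S ∩ T)) :=
    Submodule.finrank_mono (sup_le_K U S T)
  simp only [kap]
  omega

end PRTM

open PRTM in
theorem specPRT : SpecPRT := by
  intro ι _ _ U Z
  induction Z using Finset.induction_on with
  | empty =>
    intro A B
    exact ⟨∅, subset_rfl, ∅, subset_rfl, by simp⟩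
  | insert e Z he ih =>
    intro A B
    obtain ⟨T1, hT1, X1, hX1, h1⟩ := ih (insert e A) B
    obtain ⟨T2, hT2, X2, hX2, h2⟩ := ih A (insert e B)
    have heX1 : e ∉ X1 := fun h => he (hX1 h)
    have heX2 : e ∉ X2 := fun h => he (hX2 h)
    have heT2 : e ∉ T2 := fun h => he (hT2 h)
    have a1 : insert e A ∪ T1 = A ∪ insert e T1 := by
      rw [Finset.insert_union, Finset.union_insert]
    have a2 : (insert e Z) \ (insert e T1) = Z \ T1 := by
      ext i
      simp only [Finset.mem_sdiff, Finset.mem_insert, not_or]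
      constructor
      · rintro ⟨h | h, h3, h4⟩
        · exact absurd h h3
        · exact ⟨h, h4⟩
      · rintro ⟨h, h3⟩
        exact ⟨Or.inr h, fun h4 => he (h4 ▸ h), h3⟩
    have a3 : insert e B ∪ (Z \ T2) = B ∪ ((insert e Z) \ T2) := by
      rw [Finset.insert_sdiff_of_notMem _ heT2, Finset.insert_union, Finset.union_insert]
    have b1 := kap_super U (insert e A ∪ X1) (A ∪ X2)
    have b2 := kap_super U (B ∪ X1) (insert e B ∪ X2)
    have c1 : (insert e A ∪ X1) ∪ (A ∪ X2) = A ∪ insert e (X1 ∪ X2) := by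
      ext i
      simp only [Finset.mem_union, Finset.mem_insert]
      tauto
    have c2 : (insert e A ∪ X1) ∩ (A ∪ X2) = A ∪ (X1 ∩ X2) := by
      ext i
      simp only [Finset.mem_union, Finset.mem_insert, Finset.mem_inter]
      constructor
      · rintro ⟨(rfl | h) | h, h3 | h3⟩
        · exact Or.inl h3
        · exact absurd h3 heX2
        · exact Or.inl h
        · exact Or.inl h
        · exact Or.inl h3
        · exact Or.inr ⟨h, h3⟩
      · rintro (h | ⟨h, h3⟩)
        · exact ⟨Or.inl (Or.inr h), Or.inl h⟩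
        · exact ⟨Or.inr h, Or.inr h3⟩
    have c3 : (B ∪ X1) ∪ (insert e B ∪ X2) = B ∪ insert e (X1 ∪ X2) := by
      ext i
      simp only [Finset.mem_union, Finset.mem_insert]
      tauto
    have c4 : (B ∪ X1) ∩ (insert e B ∪ X2) = B ∪ (X1 ∩ X2) := by
      ext i
      simp only [Finset.mem_union, Finset.mem_insert, Finset.mem_inter]
      constructor
      · rintro ⟨h | h, (rfl | h3) | h3⟩
        · exact Or.inl h
        · exact Or.inl h
        · exact Or.inl h
        · exact absurd h heX1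
        · exact Or.inl h3
        · exact Or.inr ⟨h, h3⟩
      · rintro (h | ⟨h, h3⟩)
        · exact ⟨Or.inl h, Or.inl (Or.inr h)⟩
        · exact ⟨Or.inr h, Or.inr h3⟩
    rw [c1, c2] at b1
    rw [c3, c4] at b2
    rw [a1] at h1
    rw [a3] at h2
    have d1 : ((insert e Z) \ insert e (X1 ∪ X2)).card = (Z \ (X1 ∪ X2)).card := by
      congr 1
      ext i
      simp only [Finset.mem_sdiff, Finset.mem_insert, not_or]
      constructor
      · rintro ⟨h | h, h3, h4⟩
        · exact absurd h h3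
        · exact ⟨h, h4⟩
      · rintro ⟨h, h3⟩
        exact ⟨Or.inr h, fun h4 => he (h4 ▸ h), h3⟩
    have d2 : ((insert e Z) \ (X1 ∩ X2)).card = (Z \ (X1 ∩ X2)).card + 1 := by
      rw [Finset.insert_sdiff_of_notMem _ (fun h => heX1 (Finset.mem_inter.1 h).1),
        Finset.card_insert_of_notMem (fun h => he (Finset.mem_sdiff.1 h).1)]
    have d3 : (Z \ X1).card + (Z \ X2).card = (Z \ (X1 ∪ X2)).card + (Z \ (X1 ∩ X2)).card := by
      have e1 := Finset.card_sdiff_add_card_eq_card hX1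
      have e2 := Finset.card_sdiff_add_card_eq_card hX2
      have e3 := Finset.card_sdiff_add_card_eq_card (Finset.union_subset hX1 hX2)
      have e4 := Finset.card_sdiff_add_card_eq_card
        ((Finset.inter_subset_left (s₁ := X1) (s₂ := X2)).trans hX1)
      have e5 := Finset.card_union_add_card_inter X1 X2
      omega
    have s1 : insert e T1 ⊆ insert e Z := Finset.insert_subset_insert e hT1
    have s2 : T2 ⊆ insert e Z := hT2.trans (Finset.subset_insert e Z)
    have s3 : insert e (X1 ∪ X2) ⊆ insert e Z :=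
      Finset.insert_subset_insert e (Finset.union_subset hX1 hX2)
    have s4 : X1 ∩ X2 ⊆ insert e Z :=
      (Finset.inter_subset_left.trans hX1).trans (Finset.subset_insert e Z)
    by_contra hcon
    push Not at hcon
    have g1 := hcon _ s1 _ s3
    have g2 := hcon _ s1 _ s4
    have g3 := hcon _ s2 _ s3
    have g4 := hcon _ s2 _ s4
    rw [a2] at g1 g2
    rw [d1] at g1 g3
    rw [d2] at g2 g4
    omega

end MPa0e17f
end

section
/-!
# GST: the recursion step
-/
set_option autoImplicit false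

namespace MPa0e17f

open Finset Module

namespace GSTM

variable {ι : Type} [Fintype ι] [DecidableEq ι]

lemma act_K_sdiff (U : Submodule ℝ (ι → ℝ)) (Y : Finset ι) : act (K U (act U \ Y)) ⊆ Y := by
  intro i hi
  obtain ⟨μ, hμ, h0⟩ := mem_act.1 hi
  by_contra hY
  exact h0 (hμ.2 i (Finset.mem_sdiff.2 ⟨act_mono (K_le _ _) hi, hY⟩))

lemma card_split {U : Submodule ℝ (ι → ℝ)} {y : ι → ℝ} {Z : Finset ι} (hy : y ∈ U)
    (hZ : ∀ i, i ∈ Z ↔ i ∈ act U ∧ y i = 0) :
    (Pos y).card + (Neg y).card + Z.card = (act U).card := by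
  have h1 : act U = Pos y ∪ Neg y ∪ Z := by
    ext i
    simp only [Finset.mem_union]
    constructor
    · intro hi
      by_cases h : y i = 0
      · exact Or.inr ((hZ i).2 ⟨hi, h⟩)
      · exact Or.inl (mem_Pos_or_Neg h)
    · rintro ((h | h) | h)
      · exact Pos_subset_act hy h
      · exact Neg_subset_act hy h
      · exact ((hZ i).1 h).1
  rw [h1, Finset.card_union_of_disjoint, Finset.card_union_of_disjoint]
  · rw [Finset.disjoint_left]
    intro i h2 h3
    rw [mem_Pos] at h2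
    rw [mem_Neg] at h3
    linarith
  · rw [Finset.disjoint_left]
    intro i h2 h3
    have h4 := ((hZ i).1 h3).2
    rcases Finset.mem_union.1 h2 with h | h
    · rw [mem_Pos] at h
      linarith
    · rw [mem_Neg] at h
      linarith

lemma kap_union_ge (U : Submodule ℝ (ι → ℝ)) (Y S : Finset ι) :
    kap U Y ≤ kap U (Y ∪ S) + (S \ Y).card := by
  have h := finrank_le_kap_add_card (K U Y) (S \ Y)
  have h1 : K (K U Y) (S \ Y) = K U (Y ∪ S) := by
    rw [K_K, Finset.union_sdiff_self_eq_union]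
  rw [kap, h1] at h
  exact h

/-- `Q` is too large -/
lemma ari1 {m n k t τ j p p' a q kP kQ y e : ℕ} (hm : k + 1 ≤ m) (hn : n = 2 * m + t)
    (hτ : n = m + k + 1 + τ) (hj : y + e = m + j) (hjτ : j ≤ τ) (he : 4 * τ + t + 1 ≤ e)
    (hL : p + p' + y + (k - t) = n) (htk : t ≤ k) (hb : p ≤ p' + (τ + 1)) (ha : a ≤ k - t)
    (hcv : m + (k - t) ≤ kP + kQ + k + a) (h0 : kP = 0)
    (hq : p' ≤ q) (h : 1 ≤ kQ → q + a + kQ + (k + 1) ≤ n) : False := by
  have h1 : m ≤ kQ + t + a := by omega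
  have h2 : 1 ≤ kQ := by omega
  have h3 := h h2
  have h4 : q ≤ τ + t := by omega
  omega

lemma ari2 {m n k t τ a P Q kP kQ : ℕ} (hτ : n = m + k + 1 + τ) (htk : t ≤ k)
    (hPQ : P + Q + (k - t) = n) (hcv : m + (k - t) ≤ kP + kQ + k + a)
    (hP : P + a + kP + (k + 1) ≤ n) (hQ : Q + a + kQ + (k + 1) ≤ n) : a + 1 ≤ τ := by
  omega

lemma ari3 {m n k t τ j p p' a y e A : ℕ} (hn : n = 2 * m + t)
    (hτ : n = m + k + 1 + τ) (hj : y + e = m + j) (he : 4 * τ + t + 1 ≤ e)
    (hL : p + p' + y + (k - t) = n) (htk : t ≤ k) (hb : p ≤ p' + (τ + 1)) (ha : a + 1 ≤ τ)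
    (h : e ≤ A + (p + a)) : 1 ≤ A := by
  omega

lemma ari4 {m kP kQ e A B x x' k t a : ℕ} (htk : t ≤ k)
    (hcv : m + (k - t) ≤ kP + kQ + k + a) (h1 : kP + e ≤ A + x) (h2 : kQ + e ≤ B + x')
    (h3 : x + x' ≤ e + m) : e ≤ A + B + t + a := by
  omega

lemma ari5 {m n k t τ j p p' a y e A B cA cB : ℕ} (hn : n = 2 * m + t)
    (hτ : n = m + k + 1 + τ) (hj : y + e = m + j) (htk : t ≤ k)
    (hL : p + p' + y + (k - t) = n) (h : e ≤ A + B + t + a) (hA : cA = y + (p + a))
    (hB : cB = y + (p' + a)) : 2 * m + τ + 1 + j + a ≤ cA + A + (cB + B) := by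
  omega

end GSTM

open GSTM in
theorem specGST (hGLS : SpecGLS) (hGIF : SpecGIF) (hGCV : SpecGCV) (hGRZ : SpecGRZ)
    (hGBA : SpecGBA) (hGCB : SpecGCB) : SpecGST := by
  intro ι _ _ k t τ j U Y hHS hG hm hn hτ ht hY hj he
  have h1 : Y.card + kap U Y + (k + 1) ≤ (act U).card := hGLS ι k U Y hHS hY (by omega)
  have hjτ : j ≤ τ := by omega
  have heM : kap U Y ≤ finrank ℝ U := by
    rw [← kap_empty U]
    exact kap_anti U (Finset.empty_subset _)
  have h0 : kap U (act U \ Y) = 0 := by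
    by_contra hne
    have h2 := card_act_ge hHS (K U (act U \ Y)) (K_le U _) (Nat.one_le_iff_ne_zero.2 hne)
    have h3 := Finset.card_le_card (act_K_sdiff U Y)
    omega
  obtain ⟨Z, hZ, hZY, hZc⟩ := hGRZ ι k U Y hHS (by omega) hY h0 (k - t) (by omega)
  have hactK : act (K U Z) = act U \ Z := ((hGIF ι U).2.2.1 Z hZ).1
  obtain ⟨y, hy, hb1, hb2⟩ := hGBA ι (K U Z) ((act U \ Y) \ Z) (τ + 1) (by
    intro i hi C hC hprl
    have hC' : C ⊆ act (K U Z) := by
      rw [hactK]
      intro c hc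
      have := hC hc
      simp only [Finset.mem_sdiff] at this ⊢
      exact ⟨this.1.1, this.2⟩
    have := hGCB ι k U Z hHS hZ (by omega) i hi C hC' hprl
    omega)
  obtain ⟨hyU, hyZ⟩ := (hGIF ι U).2.2.2 Z hZ y hy
  obtain ⟨X, hX, hcv⟩ := hGCV ι k U y Z hG hyU hyZ hZ.ind
  have hsplit := card_split hyU hyZ
  have hPD : Pos y ∩ ((act U \ Y) \ Z) = Pos y \ Y := by
    ext i
    simp only [Finset.mem_inter, Finset.mem_sdiff]
    constructor
    · rintro ⟨h2, ⟨_, h3⟩, _⟩
      exact ⟨h2, h3⟩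
    · rintro ⟨h2, h3⟩
      refine ⟨h2, ⟨Pos_subset_act hyU h2, h3⟩, fun h4 => ?_⟩
      have := ((hyZ i).1 h4).2
      rw [mem_Pos] at h2
      linarith
  have hQD : Neg y ∩ ((act U \ Y) \ Z) = Neg y \ Y := by
    ext i
    simp only [Finset.mem_inter, Finset.mem_sdiff]
    constructor
    · rintro ⟨h2, ⟨_, h3⟩, _⟩
      exact ⟨h2, h3⟩
    · rintro ⟨h2, h3⟩
      refine ⟨h2, ⟨Neg_subset_act hyU h2, h3⟩, fun h4 => ?_⟩
      have := ((hyZ i).1 h4).2
      rw [mem_Neg] at h2
      linarith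
  rw [hPD, hQD] at hb1 hb2
  have hPQ : Disjoint (Pos y) (Neg y) := by
    rw [Finset.disjoint_left]
    intro i h2 h3
    rw [mem_Pos] at h2
    rw [mem_Neg] at h3
    linarith
  have hPZ : Disjoint (Pos y) Z := by
    rw [Finset.disjoint_left]
    intro i h2 h3
    have := ((hyZ i).1 h3).2
    rw [mem_Pos] at h2
    linarith
  have hQZ : Disjoint (Neg y) Z := by
    rw [Finset.disjoint_left]
    intro i h2 h3
    have := ((hyZ i).1 h3).2
    rw [mem_Neg] at h2
    linarith
  have hPX : Disjoint (Pos y) X := Finset.disjoint_of_subset_right hX hPZ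
  have hQX : Disjoint (Neg y) X := Finset.disjoint_of_subset_right hX hQZ
  have hXY : Disjoint X Y := Finset.disjoint_of_subset_left hX hZY
  -- |P ∩ Y| + |Q ∩ Y| = |Y|
  have hYu : (Pos y ∩ Y) ∪ (Neg y ∩ Y) = Y := by
    ext i
    simp only [Finset.mem_union, Finset.mem_inter]
    constructor
    · rintro (h | h)
      · exact h.2
      · exact h.2
    · intro h
      have h2 : y i ≠ 0 := fun h3 => Finset.disjoint_left.1 hZY ((hyZ i).2 ⟨hY h, h3⟩) h
      rcases mem_Pos_or_Neg h2 with h3 | h3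
      · exact Or.inl ⟨h3, h⟩
      · exact Or.inr ⟨h3, h⟩
  have hYi : (Pos y ∩ Y) ∩ (Neg y ∩ Y) = ∅ := by
    rw [← Finset.disjoint_iff_inter_eq_empty]
    exact Finset.disjoint_of_subset_left Finset.inter_subset_left
      (Finset.disjoint_of_subset_right Finset.inter_subset_left hPQ)
  have hYc : (Pos y ∩ Y).card + (Neg y ∩ Y).card = Y.card := by
    have := Finset.card_union_add_card_inter (Pos y ∩ Y) (Neg y ∩ Y)
    rw [hYu, hYi, Finset.card_empty] at this
    omega
  have hPs : (Pos y \ Y).card + (Pos y ∩ Y).card = (Pos y).card :=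
    Finset.card_sdiff_add_card_inter _ _
  have hQs : (Neg y \ Y).card + (Neg y ∩ Y).card = (Neg y).card :=
    Finset.card_sdiff_add_card_inter _ _
  have hXc : X.card ≤ Z.card := Finset.card_le_card hX
  have hPXc : (Pos y ∪ X).card = (Pos y).card + X.card := Finset.card_union_of_disjoint hPX
  have hQXc : (Neg y ∪ X).card = (Neg y).card + X.card := Finset.card_union_of_disjoint hQX
  have hXact : X ⊆ act U := hX.trans hZ.sub
  have hPXs : Pos y ∪ X ⊆ act U := Finset.union_subset (Pos_subset_act hyU) hXact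
  have hQXs : Neg y ∪ X ⊆ act U := Finset.union_subset (Neg_subset_act hyU) hXact
  -- (i)
  have htk : t ≤ k := by clear hcv hPXc hQXc hPs hQs hYc hsplit hb1 hb2; omega
  have hL : (Pos y \ Y).card + (Neg y \ Y).card + Y.card + (k - t) = (act U).card := by
    rw [← hZc, ← hsplit, ← hPs, ← hQs, ← hYc]
    ring
  have hPQc : (Pos y).card + (Neg y).card + (k - t) = (act U).card := by
    rw [← hZc]
    exact hsplit
  rw [hZc] at hcv hXc
  have hcv' : finrank ℝ U + (k - t) ≤ kap U (Neg y ∪ X) + kap U (Pos y ∪ X) + k + X.card := by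
    rw [add_comm (kap U (Neg y ∪ X))]
    exact hcv
  have hL' : (Neg y \ Y).card + (Pos y \ Y).card + Y.card + (k - t) = (act U).card := by
    rw [add_comm (Neg y \ Y).card]
    exact hL
  have hi1 : 1 ≤ kap U (Pos y ∪ X) := by
    by_contra hcon
    refine ari1 hm hn hτ hj hjτ he hL htk hb1 hXc hcv (by omega)
      (q := (Neg y).card) (Finset.card_le_card Finset.sdiff_subset) (fun h => ?_)
    have h2 := hGLS ι k U (Neg y ∪ X) hHS hQXs h
    rw [hQXc] at h2
    exact h2
  have hi2 : 1 ≤ kap U (Neg y ∪ X) := by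
    by_contra hcon
    refine ari1 hm hn hτ hj hjτ he hL' htk hb2 hXc hcv' (by omega)
      (q := (Pos y).card) (Finset.card_le_card Finset.sdiff_subset) (fun h => ?_)
    have h2 := hGLS ι k U (Pos y ∪ X) hHS hPXs h
    rw [hPXc] at h2
    exact h2
  have hP2 := hGLS ι k U (Pos y ∪ X) hHS hPXs hi1
  have hQ2 := hGLS ι k U (Neg y ∪ X) hHS hQXs hi2
  rw [hPXc] at hP2
  rw [hQXc] at hQ2
  have haτ : X.card + 1 ≤ τ := ari2 hτ htk hPQc hcv hP2 hQ2
  -- the sets
  have hA1 := kap_union_ge U Y (Pos y ∪ X)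
  have hB1 := kap_union_ge U Y (Neg y ∪ X)
  have hA2 : ((Pos y ∪ X) \ Y).card = (Pos y \ Y).card + X.card := by
    rw [Finset.union_sdiff_distrib, Finset.sdiff_eq_self_of_disjoint hXY]
    exact Finset.card_union_of_disjoint (Finset.disjoint_of_subset_left Finset.sdiff_subset hPX)
  have hB2 : ((Neg y ∪ X) \ Y).card = (Neg y \ Y).card + X.card := by
    rw [Finset.union_sdiff_distrib, Finset.sdiff_eq_self_of_disjoint hXY]
    exact Finset.card_union_of_disjoint (Finset.disjoint_of_subset_left Finset.sdiff_subset hQX)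
  have hA3 : (Y ∪ (Pos y ∪ X)).card = Y.card + ((Pos y ∪ X) \ Y).card := by
    rw [← Finset.union_sdiff_self_eq_union, Finset.card_union_of_disjoint Finset.disjoint_sdiff]
  have hB3 : (Y ∪ (Neg y ∪ X)).card = Y.card + ((Neg y ∪ X) \ Y).card := by
    rw [← Finset.union_sdiff_self_eq_union, Finset.card_union_of_disjoint Finset.disjoint_sdiff]
  rw [hA2] at hA1 hA3
  rw [hB2] at hB1 hB3
  have hXYi : X ∩ Y = ∅ := Finset.disjoint_iff_inter_eq_empty.1 hXY
  have hs1 := PRTM.kap_super U (Pos y ∪ X) Y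
  have hs2 := PRTM.kap_super U (Neg y ∪ X) Y
  have hs3 := PRTM.kap_super U (Pos y ∩ Y) (Neg y ∩ Y)
  rw [Finset.union_inter_distrib_right, hXYi, Finset.union_empty, Finset.union_comm _ Y] at hs1 hs2
  rw [hYu, hYi, kap_empty] at hs3
  have hsum := ari4 htk hcv hs1 hs2 hs3
  exact ⟨Y ∪ (Pos y ∪ X), Y ∪ (Neg y ∪ X), X.card, Finset.union_subset hY hPXs,
    Finset.union_subset hY hQXs, ari3 hn hτ hj he hL htk hb1 haτ hA1,
    ari3 hn hτ hj he hL' htk hb2 haτ hB1, ari5 hn hτ hj htk hL hsum hA3 hB3, hsum⟩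

end MPa0e17f
end

section
/-!
# HBS: the choice of the independent set
-/
set_option autoImplicit false

namespace MPa0e17f

open Finset Module

namespace HBSM

variable {ι : Type} [Fintype ι] [DecidableEq ι]

/-- basis exchange -/
lemma exch (U : Submodule ℝ (ι → ℝ)) (B C : Finset ι) :
    ∃ G ⊆ C, kap U (B ∪ G) + G.card = kap U B ∧ K U (B ∪ G) = K U (B ∪ C) := by
  induction C using Finset.induction_on with
  | empty => exact ⟨∅, subset_rfl, by simp, rfl⟩
  | insert c C _ ih =>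
    obtain ⟨G, hG, h1, h2⟩ := ih
    have h3 : ∀ T : Finset ι, ∀ μ, μ ∈ K U (B ∪ insert c T) ↔ μ ∈ K U (B ∪ T) ∧ μ c = 0 := by
      intro T μ
      rw [Finset.union_insert, mem_K, mem_K]
      simp only [Finset.mem_insert, forall_eq_or_imp]
      tauto
    by_cases hc : ∀ μ ∈ K U (B ∪ G), μ c = 0
    · refine ⟨G, hG.trans (Finset.subset_insert _ _), h1, ?_⟩
      ext μ
      rw [h3, ← h2]
      exact ⟨fun h => ⟨h, hc μ h⟩, fun h => h.1⟩
    · push Not at hc
      have hcG : c ∉ G := by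
        intro h
        obtain ⟨μ, hμ, h0⟩ := hc
        exact h0 (hμ.2 c (Finset.mem_union_right _ h))
      refine ⟨insert c G, Finset.insert_subset_insert _ hG, ?_, ?_⟩
      · rw [Finset.union_insert, Finset.card_insert_of_notMem hcG]
        have := kap_insert_of_ne U (B ∪ G) c hc
        omega
      · ext μ
        rw [h3, h3, h2]

end HBSM

open HBSM in
theorem specHBS : SpecHBS := by
  classical
  intro ι _ _ U Y0 Y j0 j hY0 hY hk hcl hmax hj0 hj
  obtain ⟨G, hG, hG1, hG2⟩ := exch U Y0 (Y \ Y0)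
  have hKY : K U (Y0 ∪ G) = K U Y := by
    rw [hG2, Finset.union_sdiff_of_subset hY0]
  have hkY : kap U (Y0 ∪ G) = kap U Y := by rw [kap, hKY, kap]
  set B' := (Y \ Y0) \ G with hB'
  obtain ⟨F, hF, hF1, hF2⟩ := exch U Y0 B'
  have cB : B'.card + G.card + Y0.card = Y.card := by
    have h1 := Finset.card_sdiff_add_card_eq_card hG
    have h2 := Finset.card_sdiff_add_card_eq_card hY0
    rw [hB']
    omega
  have hg : B'.card + j0 = j := by
    rw [hkY] at hG1
    omega
  have hFc := Finset.card_le_card hF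
  set S := (Y \ Y0).filter (fun i => ∀ μ ∈ K U (Y0 ∪ F), μ i = 0) with hS
  have mS : ∀ i, i ∈ S ↔ (i ∈ Y ∧ i ∉ Y0) ∧ ∀ μ ∈ K U (Y0 ∪ F), μ i = 0 := by
    intro i
    rw [hS, Finset.mem_filter, Finset.mem_sdiff]
  have hB'S : B' ⊆ S := by
    intro i hi
    rw [mS]
    refine ⟨Finset.mem_sdiff.1 (Finset.mem_sdiff.1 hi).1, ?_⟩
    rw [hF2]
    intro μ hμ
    exact hμ.2 i (Finset.mem_union_right _ hi)
  have hFY : F ⊆ Y := hF.trans (Finset.sdiff_subset.trans Finset.sdiff_subset)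
  have hFY0 : ∀ i ∈ F, i ∉ Y0 := fun i hi =>
    (Finset.mem_sdiff.1 (Finset.mem_sdiff.1 (hF hi)).1).2
  have hSY : S ⊆ Y := fun i hi => ((mS i).1 hi).1.1
  have hKS : K U (Y0 ∪ S) = K U (Y0 ∪ F) := by
    apply le_antisymm
    · exact K_anti U (Finset.union_subset_union_right (hF.trans hB'S))
    · intro μ hμ
      refine ⟨hμ.1, fun i hi => ?_⟩
      rcases Finset.mem_union.1 hi with h | h
      · exact hμ.2 i (Finset.mem_union_left _ h)
      · exact ((mS i).1 h).2 μ hμ
  have hkS : kap U (Y0 ∪ S) = kap U (Y0 ∪ F) := by rw [kap, hKS, kap]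
  have hYS : Y0 ∪ S ⊆ Y := Finset.union_subset hY0 hSY
  have h2S : 2 * S.card ≤ 3 * F.card := by
    have h1 := hmax (Y0 ∪ S) (hYS.trans hY) (hk.trans (kap_anti U hYS))
    have h2 : (Y0 ∪ S).card = Y0.card + S.card := by
      apply Finset.card_union_of_disjoint
      rw [Finset.disjoint_left]
      intro i h3 h4
      exact ((mS i).1 h4).1.2 h3
    rw [h2, hkS] at h1
    omega
  have hind : kap U F + F.card = finrank ℝ U := by
    have h1 := kap_union_add U F Y0
    have h2 := finrank_le_kap_add_card U F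
    rw [Finset.union_comm] at h1
    omega
  set W := (act U).filter (fun i => i ∉ F ∧ ∀ μ ∈ K U F, μ i = 0) with hW
  have mW : ∀ i, i ∈ W ↔ i ∈ act U ∧ i ∉ F ∧ ∀ μ ∈ K U F, μ i = 0 := by
    intro i
    rw [hW, Finset.mem_filter]
  have hWY : W ⊆ Y := by
    intro i hi
    rw [mW] at hi
    by_contra h
    obtain ⟨μ, hμ, h0⟩ := hcl i hi.1 h
    exact h0 (hi.2.2 μ (K_anti U hFY hμ))
  have hWY0 : ∀ i ∈ W, i ∉ Y0 := by
    intro i hi h
    rw [mW] at hi
    have h1 := PRTM.kap_super U (insert i F) Y0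
    have h2 : insert i F ∪ Y0 = Y0 ∪ F := by
      rw [Finset.insert_union, Finset.union_comm F Y0, Finset.insert_eq_of_mem
        (Finset.mem_union_left _ h)]
    have h3 : insert i F ∩ Y0 = {i} := by
      ext x
      simp only [Finset.mem_inter, Finset.mem_insert, Finset.mem_singleton]
      constructor
      · rintro ⟨h4 | h4, h5⟩
        · exact h4
        · exact absurd h5 (hFY0 x h4)
      · rintro rfl
        exact ⟨Or.inl rfl, h⟩
    have h4 : K U (insert i F) = K U F := by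
      apply le_antisymm (K_anti U (Finset.subset_insert _ _))
      intro μ hμ
      refine ⟨hμ.1, fun x hx => ?_⟩
      rcases Finset.mem_insert.1 hx with rfl | hx
      · exact hi.2.2 μ hμ
      · exact hμ.2 x hx
    have h5 : kap U (insert i F) = kap U F := by rw [kap, h4, kap]
    have h6 : kap U {i} + 1 = finrank ℝ U := finrank_K_singleton hi.1
    rw [h2, h3, h5] at h1
    omega
  have hdis : Disjoint F W := by
    rw [Finset.disjoint_left]
    intro i h1 h2
    exact ((mW i).1 h2).2.1 h1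
  have hFWS : F ∪ W ⊆ S := by
    apply Finset.union_subset (hF.trans hB'S)
    intro i hi
    rw [mS]
    refine ⟨⟨hWY hi, hWY0 i hi⟩, fun μ hμ => ?_⟩
    exact ((mW i).1 hi).2.2 μ (K_anti U Finset.subset_union_right hμ)
  have hcFW : F.card + W.card ≤ S.card := by
    rw [← Finset.card_union_of_disjoint hdis]
    exact Finset.card_le_card hFWS
  have hgS := Finset.card_le_card hB'S
  refine ⟨F, W, S.card - B'.card, ⟨hFY.trans hY, hWY.trans hY, hdis, hind, ?_, ?_⟩, hFY, hWY,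
    by omega, by omega, ?_, by omega⟩
  · intro i hi
    exact ((mW i).1 hi).2.2
  · intro i h1 h2 h3
    by_contra hcon
    push Not at hcon
    exact h3 ((mW i).2 ⟨h1, h2, hcon⟩)
  · have h1 : kap U (Y \ (F ∪ W)) ≤ kap U (Y \ S) :=
      kap_anti U (Finset.sdiff_subset_sdiff subset_rfl hFWS)
    have h2 : Y \ S ⊆ Y0 ∪ G := by
      intro i hi
      rw [Finset.mem_sdiff] at hi
      rw [Finset.mem_union]
      by_contra h
      push Not at h
      exact hi.2 (hB'S (Finset.mem_sdiff.2 ⟨Finset.mem_sdiff.2 ⟨hi.1, h.1⟩, h.2⟩))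
    have h3 := GSTM.kap_union_ge U (Y \ S) (Y0 ∪ G)
    rw [Finset.union_eq_right.2 h2, hkY] at h3
    have h4 := Finset.card_sdiff_add_card_eq_card h2
    have h5 := Finset.card_sdiff_add_card_eq_card hSY
    have h6 := Finset.card_union_le Y0 G
    omega

end MPa0e17f
end

section
/-!
# HCB: classes of proportional coordinates are small (`WFl` version of GCB of helper62)
-/
set_option autoImplicit false

namespace MPa0e17f

open Finset Module

theorem specHCB (hGLS : SpecGLS) : SpecHCB := by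
  intro ι _ _ k U Z W hHS hZ hm i hi C hC hP
  have hii : ∃ μ ∈ K U Z, μ i ≠ 0 := mem_act.1 hi
  have h1 := kap_insert_of_ne U Z i hii
  have h2 : kap U Z + Z.card = finrank ℝ U := hZ.ind
  have hle : K U (insert i Z) ≤ K U (Z ∪ C) := by
    intro μ hμ
    have hμZ : μ ∈ K U Z := K_anti U (Finset.subset_insert i Z) hμ
    refine ⟨hμ.1, fun j hj => ?_⟩
    rcases Finset.mem_union.1 hj with hj | hj
    · exact hμZ.2 j hj
    · obtain ⟨α, hα⟩ := hP j hj
      rw [hα μ hμZ, hμ.2 i (Finset.mem_insert_self i Z), mul_zero]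
  have h3 : kap U (insert i Z) ≤ kap U (Z ∪ C) := kap_le_of_le hle
  have hdis : Disjoint Z C := by
    rw [Finset.disjoint_left]
    intro j hjZ hjC
    obtain ⟨μ, hμ, h0⟩ := mem_act.1 (hC hjC)
    exact h0 (hμ.2 j hjZ)
  have hsub : Z ∪ C ⊆ act U :=
    Finset.union_subset hZ.sub (hC.trans (act_mono (K_le U Z)))
  have h4 := hGLS ι k U (Z ∪ C) hHS hsub (by omega)
  rw [Finset.card_union_of_disjoint hdis] at h4
  omega

end MPa0e17f
end

section
/-!
# HST: the step of the linear version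
-/
set_option autoImplicit false

namespace MPa0e17f

open Finset Module

namespace HSTM

variable {ι : Type} [Fintype ι] [DecidableEq ι]

lemma card_split {U : Submodule ℝ (ι → ℝ)} {y : ι → ℝ} {Z W : Finset ι} (hy : y ∈ U)
    (hZ : ∀ i, i ∈ Z ∪ W ↔ i ∈ act U ∧ y i = 0) (hd : Disjoint Z W) :
    (Pos y).card + (Neg y).card + (Z.card + W.card) = (act U).card := by
  rw [← Finset.card_union_of_disjoint hd]
  exact GSTM.card_split hy hZ

lemma ari1 {m n k t τ j f p p' x q kP kQ y e : ℕ} (hm : k + 1 ≤ m) (hn : n = 2 * m + t)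
    (hτ : n = m + k + 1 + τ) (hj : y + e = m + j) (hjτ : j ≤ τ) (he : 3 * τ + t + 1 ≤ e)
    (hL : p + p' + y + (k - t) = n + f) (htk : t ≤ k) (hb : p ≤ p' + (τ + 1)) (hx : x ≤ k - t)
    (hcv : m + (k - t) ≤ kP + kQ + k + x) (h0 : kP = 0)
    (hq : p' ≤ q) (h : 1 ≤ kQ → q + x + kQ + (k + 1) ≤ n) : False := by
  have h1 : m ≤ kQ + t + x := by omega
  have h2 : 1 ≤ kQ := by omega
  have h3 := h h2
  have h4 : q ≤ τ + t := by omega
  omega

lemma ari2 {m n k t τ x w P Q kP kQ : ℕ} (hτ : n = m + k + 1 + τ) (htk : t ≤ k)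
    (hPQ : P + Q + ((k - t) + w) = n) (hcv : m + (k - t) ≤ kP + kQ + k + x)
    (hP : P + x + kP + (k + 1) ≤ n) (hQ : Q + x + kQ + (k + 1) ≤ n) : x + 1 ≤ τ + w := by
  omega

/-- the lower bound for `kap A + kap B` -/
lemma ari4 {m kP kQ e A B x x' k t a0 a ω v : ℕ} (htk : t ≤ k)
    (hcv : m + (k - t) ≤ kP + kQ + k + (a0 + a)) (h1 : kP + e ≤ A + x) (h2 : kQ + e ≤ B + x')
    (h3 : x + x' ≤ v + (m - a0)) (h4 : v ≤ e + ω) (h5 : a0 ≤ m) : e ≤ A + B + t + a + ω := by
  omega

lemma ari3 {m n k t τ j f w ω p p' a y e A B : ℕ} (hn : n = 2 * m + t)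
    (hτ : n = m + k + 1 + τ) (hj : y + e = m + j) (hjτ : j ≤ τ) (he : 3 * τ + t + 1 ≤ e)
    (hL : p + p' + y + (k - t) = n + f) (htk : t ≤ k) (hb : p ≤ p' + (τ + 1))
    (ha : a + 1 ≤ τ + w) (hw : 2 * w ≤ f) (hω : 2 * ω ≤ f) (hf : f ≤ τ)
    (h : e ≤ A + B + t + a + ω) (hB : 1 ≤ B → y + (p' + a) + B + (k + 1) ≤ n) : 1 ≤ A := by
  by_contra hcon
  have hA : A = 0 := by omega
  subst hA
  have h1 : 1 ≤ B := by omega
  have h2 := hB h1
  omega

lemma ari5 {m n k t τ j f ω p p' a y e A B cA cB : ℕ} (hn : n = 2 * m + t)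
    (hτ : n = m + k + 1 + τ) (hj : y + e = m + j) (htk : t ≤ k)
    (hL : p + p' + y + (k - t) = n + f) (h : e ≤ A + B + t + a + ω) (hA : cA = y + (p + a))
    (hB : cB = y + (p' + a)) : 2 * m + τ + 1 + j + a + f ≤ cA + A + (cB + B) + ω := by
  omega

lemma ari6 {m n k t τ j f p p' a y e A : ℕ} (hn : n = 2 * m + t)
    (hτ : n = m + k + 1 + τ) (hj : y + e = m + j) (htk : t ≤ k)
    (hL : p + p' + y + (k - t) = n + f) (hb : p ≤ p' + (τ + 1)) (h : e ≤ A + (p + a)) :
    e + j ≤ 2 * A + 2 * a + t + f + 2 * τ + 2 := by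
  omega

end HSTM

open HSTM GSTM in
theorem specHST (hGLS : SpecGLS) (hHWF : SpecHWF) (hHCV : SpecHCV) (hHRZ : SpecHRZ)
    (hGBA : SpecGBA) (hHCB : SpecHCB) : SpecHST := by
  intro ι _ _ k t τ j ω U Y F W hHS hG hm hn hτ ht hY hj hFW hFY hWY hω hW hω2 hFτ he
  have h1 : Y.card + kap U Y + (k + 1) ≤ (act U).card := hGLS ι k U Y hHS hY (by omega)
  have hjτ : j ≤ τ := by omega
  have heM : kap U Y ≤ finrank ℝ U := by
    rw [← kap_empty U]
    exact kap_anti U (Finset.empty_subset _)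
  have h0 : kap U (act U \ Y) = 0 := by
    by_contra hne
    have h2 := card_act_ge hHS (K U (act U \ Y)) (K_le U _) (Nat.one_le_iff_ne_zero.2 hne)
    have h3 := Finset.card_le_card (act_K_sdiff U Y)
    omega
  have htk : t ≤ k := by omega
  obtain ⟨Z, hZ, hZY, hZc⟩ := hHRZ ι k U Y F W hHS (by omega) hY h0 hFW hFY hWY (k - t) (by omega)
    (by omega)
  obtain ⟨hactK, hnz⟩ := (hHWF ι U).2 Z W hZ
  obtain ⟨y, hy, hb1, hb2⟩ := hGBA ι (K U Z) ((act U \ Y) \ Z) (τ + 1) (by
    intro i hi C hC hprl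
    have hC' : C ⊆ act (K U Z) := by
      rw [hactK]
      intro c hc
      have := hC hc
      simp only [Finset.mem_sdiff, Finset.mem_union, not_or] at this ⊢
      exact ⟨this.1.1, this.2, fun h => this.1.2 (hWY h)⟩
    have := hHCB ι k U Z W hHS hZ (by omega) i hi C hC' hprl
    omega)
  obtain ⟨hyU, hyZ⟩ := hnz y hy
  obtain ⟨X, hX, hcv⟩ := hHCV ι k U y Z W hG hyU hZ.dis hyZ hZ.ind
  have hsplit := card_split hyU hyZ hZ.dis
  have hZ0 : ∀ i ∈ Z, y i = 0 := fun i hi => ((hyZ i).1 (Finset.mem_union_left _ hi)).2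
  have hPD : Pos y ∩ ((act U \ Y) \ Z) = Pos y \ Y := by
    ext i
    simp only [Finset.mem_inter, Finset.mem_sdiff]
    constructor
    · rintro ⟨h2, ⟨_, h3⟩, _⟩
      exact ⟨h2, h3⟩
    · rintro ⟨h2, h3⟩
      refine ⟨h2, ⟨Pos_subset_act hyU h2, h3⟩, fun h4 => ?_⟩
      have := hZ0 i h4
      rw [mem_Pos] at h2
      linarith
  have hQD : Neg y ∩ ((act U \ Y) \ Z) = Neg y \ Y := by
    ext i
    simp only [Finset.mem_inter, Finset.mem_sdiff]
    constructor
    · rintro ⟨h2, ⟨_, h3⟩, _⟩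
      exact ⟨h2, h3⟩
    · rintro ⟨h2, h3⟩
      refine ⟨h2, ⟨Neg_subset_act hyU h2, h3⟩, fun h4 => ?_⟩
      have := hZ0 i h4
      rw [mem_Neg] at h2
      linarith
  rw [hPD, hQD] at hb1 hb2
  have hPQ : Disjoint (Pos y) (Neg y) := by
    rw [Finset.disjoint_left]
    intro i h2 h3
    rw [mem_Pos] at h2
    rw [mem_Neg] at h3
    linarith
  have hPZ : Disjoint (Pos y) Z := by
    rw [Finset.disjoint_left]
    intro i h2 h3
    have := hZ0 i h3
    rw [mem_Pos] at h2
    linarith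
  have hQZ : Disjoint (Neg y) Z := by
    rw [Finset.disjoint_left]
    intro i h2 h3
    have := hZ0 i h3
    rw [mem_Neg] at h2
    linarith
  have hPX : Disjoint (Pos y) X := Finset.disjoint_of_subset_right hX hPZ
  have hQX : Disjoint (Neg y) X := Finset.disjoint_of_subset_right hX hQZ
  -- the part of `X` inside `Y`
  have hXs : (X \ Y).card + (X ∩ Y).card = X.card := Finset.card_sdiff_add_card_inter _ _
  -- `|P \ Y| + |Q \ Y|`
  have hDc : (Pos y \ Y).card + (Neg y \ Y).card = ((act U \ Y) \ Z).card := by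
    rw [← hPD, ← hQD, ← Finset.card_union_of_disjoint]
    · congr 1
      rw [← Finset.union_inter_distrib_right]
      apply Finset.inter_eq_right.2
      intro i hi
      simp only [Finset.mem_sdiff] at hi
      have h2 : y i ≠ 0 := by
        intro h3
        rcases Finset.mem_union.1 ((hyZ i).2 ⟨hi.1.1, h3⟩) with h4 | h4
        · exact hi.2 h4
        · exact hi.1.2 (hWY h4)
      rcases mem_Pos_or_Neg h2 with h3 | h3
      · exact Finset.mem_union_left _ h3
      · exact Finset.mem_union_right _ h3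
    · exact Finset.disjoint_of_subset_left Finset.inter_subset_left
        (Finset.disjoint_of_subset_right Finset.inter_subset_left hPQ)
  have hDc2 : ((act U \ Y) \ Z).card + (Y.card + (Z \ Y).card) = (act U).card := by
    have e1 : (act U \ Y) \ Z = act U \ (Y ∪ (Z \ Y)) := by
      ext i
      simp only [Finset.mem_sdiff, Finset.mem_union]
      tauto
    have e2 : Y ∪ (Z \ Y) ⊆ act U :=
      Finset.union_subset hY (Finset.sdiff_subset.trans hZ.sub)
    have e3 : (Y ∪ (Z \ Y)).card = Y.card + (Z \ Y).card :=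
      Finset.card_union_of_disjoint Finset.disjoint_sdiff
    rw [e1, ← e3]
    exact Finset.card_sdiff_add_card_eq_card e2
  have hZs : (Z \ Y).card + F.card = Z.card := by
    have := Finset.card_sdiff_add_card_inter Z Y
    rw [hZY] at this
    exact this
  have hL : (Pos y \ Y).card + (Neg y \ Y).card + Y.card + (k - t) = (act U).card + F.card := by
    rw [hDc]
    clear hcv hb1 hb2 hXs hsplit
    omega
  have hL' : (Neg y \ Y).card + (Pos y \ Y).card + Y.card + (k - t) = (act U).card + F.card := by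
    rw [add_comm (Neg y \ Y).card]
    exact hL
  have hXc : X.card ≤ k - t := hZc ▸ Finset.card_le_card hX
  have hPXc : (Pos y ∪ X).card = (Pos y).card + X.card := Finset.card_union_of_disjoint hPX
  have hQXc : (Neg y ∪ X).card = (Neg y).card + X.card := Finset.card_union_of_disjoint hQX
  have hXact : X ⊆ act U := hX.trans hZ.sub
  have hPXs : Pos y ∪ X ⊆ act U := Finset.union_subset (Pos_subset_act hyU) hXact
  have hQXs : Neg y ∪ X ⊆ act U := Finset.union_subset (Neg_subset_act hyU) hXact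
  rw [hZc] at hcv hsplit
  have hcv' : finrank ℝ U + (k - t) ≤ kap U (Neg y ∪ X) + kap U (Pos y ∪ X) + k + X.card := by
    rw [add_comm (kap U (Neg y ∪ X))]
    exact hcv
  -- (i)
  have hi1 : 1 ≤ kap U (Pos y ∪ X) := by
    by_contra hcon
    refine ari1 hm hn hτ hj hjτ he hL htk hb1 hXc hcv (Nat.eq_zero_of_not_pos hcon)
      (q := (Neg y).card) (Finset.card_le_card Finset.sdiff_subset) (fun h => ?_)
    have h2 := hGLS ι k U (Neg y ∪ X) hHS hQXs h
    rw [hQXc] at h2
    exact h2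
  have hi2 : 1 ≤ kap U (Neg y ∪ X) := by
    by_contra hcon
    refine ari1 hm hn hτ hj hjτ he hL' htk hb2 hXc hcv' (Nat.eq_zero_of_not_pos hcon)
      (q := (Pos y).card) (Finset.card_le_card Finset.sdiff_subset) (fun h => ?_)
    have h2 := hGLS ι k U (Pos y ∪ X) hHS hPXs h
    rw [hPXc] at h2
    exact h2
  -- (ii)
  have hP2 := hGLS ι k U (Pos y ∪ X) hHS hPXs hi1
  have hQ2 := hGLS ι k U (Neg y ∪ X) hHS hQXs hi2
  rw [hPXc] at hP2
  rw [hQXc] at hQ2
  have hxτ : X.card + 1 ≤ τ + W.card := ari2 hτ htk hsplit hcv hP2 hQ2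
  have haτ : (X \ Y).card + 1 ≤ τ + W.card :=
    (Nat.add_le_add_right (Finset.card_le_card Finset.sdiff_subset) 1).trans hxτ
  -- the sets
  have hA1 := kap_union_ge U Y (Pos y ∪ X)
  have hB1 := kap_union_ge U Y (Neg y ∪ X)
  have hA2 : ((Pos y ∪ X) \ Y).card = (Pos y \ Y).card + (X \ Y).card := by
    rw [Finset.union_sdiff_distrib]
    exact Finset.card_union_of_disjoint (Finset.disjoint_of_subset_left Finset.sdiff_subset
      (Finset.disjoint_of_subset_right Finset.sdiff_subset hPX))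
  have hB2 : ((Neg y ∪ X) \ Y).card = (Neg y \ Y).card + (X \ Y).card := by
    rw [Finset.union_sdiff_distrib]
    exact Finset.card_union_of_disjoint (Finset.disjoint_of_subset_left Finset.sdiff_subset
      (Finset.disjoint_of_subset_right Finset.sdiff_subset hQX))
  have hA3 : (Y ∪ (Pos y ∪ X)).card = Y.card + ((Pos y ∪ X) \ Y).card := by
    rw [← Finset.union_sdiff_self_eq_union, Finset.card_union_of_disjoint Finset.disjoint_sdiff]
  have hB3 : (Y ∪ (Neg y ∪ X)).card = Y.card + ((Neg y ∪ X) \ Y).card := by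
    rw [← Finset.union_sdiff_self_eq_union, Finset.card_union_of_disjoint Finset.disjoint_sdiff]
  rw [hA2] at hA1 hA3
  rw [hB2] at hB1 hB3
  -- (iv)
  have hs1 := PRTM.kap_super U (Pos y ∪ X) Y
  have hs2 := PRTM.kap_super U (Neg y ∪ X) Y
  have hs3 := PRTM.kap_super U ((Pos y ∪ X) ∩ Y) ((Neg y ∪ X) ∩ Y)
  rw [Finset.union_comm _ Y] at hs1 hs2
  have hint : ((Pos y ∪ X) ∩ Y) ∩ ((Neg y ∪ X) ∩ Y) = X ∩ Y := by
    ext i
    simp only [Finset.mem_inter, Finset.mem_union]
    constructor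
    · rintro ⟨⟨h2 | h2, h3⟩, ⟨h4 | h4, _⟩⟩
      · exact absurd h4 (Finset.disjoint_left.1 hPQ h2)
      · exact ⟨h4, h3⟩
      · exact ⟨h2, h3⟩
      · exact ⟨h2, h3⟩
    · rintro ⟨h2, h3⟩
      exact ⟨⟨Or.inr h2, h3⟩, Or.inr h2, h3⟩
  have hkX : kap U (X ∩ Y) = finrank ℝ U - (X ∩ Y).card := by
    have := (specTLK ι U).2.2.1 (X ∩ Y) Z (Finset.inter_subset_left.trans hX) hZ.ind
    omega
  have huni : kap U (((Pos y ∪ X) ∩ Y) ∪ ((Neg y ∪ X) ∩ Y)) ≤ kap U Y + ω := by
    refine le_trans (kap_anti U ?_) hω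
    intro i hi
    simp only [Finset.mem_sdiff, Finset.mem_union, not_or] at hi
    have h2 : y i ≠ 0 := by
      intro h3
      rcases Finset.mem_union.1 ((hyZ i).2 ⟨hY hi.1, h3⟩) with h4 | h4
      · have h5 : i ∈ Z ∩ Y := Finset.mem_inter.2 ⟨h4, hi.1⟩
        rw [hZY] at h5
        exact hi.2.1 h5
      · exact hi.2.2 h4
    simp only [Finset.mem_union, Finset.mem_inter]
    rcases mem_Pos_or_Neg h2 with h3 | h3
    · exact Or.inl ⟨Or.inl h3, hi.1⟩
    · exact Or.inr ⟨Or.inl h3, hi.1⟩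
  rw [hint, hkX] at hs3
  have ha0 : (X ∩ Y).card ≤ finrank ℝ U := by
    have e1 : (X ∩ Y).card ≤ X.card := Finset.card_le_card Finset.inter_subset_left
    clear hcv hcv' hs1 hs2 hs3 hP2 hQ2
    omega
  have hcv2 : finrank ℝ U + (k - t) ≤ kap U (Pos y ∪ X) + kap U (Neg y ∪ X) + k +
      ((X ∩ Y).card + (X \ Y).card) := by
    rw [add_comm (X ∩ Y).card, hXs]
    exact hcv
  have hsum := ari4 htk hcv2 hs1 hs2 hs3 huni ha0
  have hsum' : kap U Y ≤ kap U (Y ∪ (Neg y ∪ X)) + kap U (Y ∪ (Pos y ∪ X)) + t + (X \ Y).card + ω := by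
    rw [add_comm (kap U (Y ∪ (Neg y ∪ X)))]
    exact hsum
  have hAs : Y ∪ (Pos y ∪ X) ⊆ act U := Finset.union_subset hY hPXs
  have hBs : Y ∪ (Neg y ∪ X) ⊆ act U := Finset.union_subset hY hQXs
  refine ⟨Y ∪ (Pos y ∪ X), Y ∪ (Neg y ∪ X), (X \ Y).card, Finset.subset_union_left,
    Finset.subset_union_left, hAs, hBs,
    ari3 hn hτ hj hjτ he hL htk hb1 haτ hW hω2 hFτ hsum (fun h => ?_),
    ari3 hn hτ hj hjτ he hL' htk hb2 haτ hW hω2 hFτ hsum' (fun h => ?_),
    ari5 hn hτ hj htk hL hsum hA3 hB3, ari6 hn hτ hj htk hL hb1 hA1,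
    ari6 hn hτ hj htk hL' hb2 hB1⟩
  · have h2 := hGLS ι k U _ hHS hBs h
    rw [hB3] at h2
    exact h2
  · have h2 := hGLS ι k U _ hHS hAs h
    rw [hA3] at h2
    exact h2

end MPa0e17f
end
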