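import Pool.Agent.Lib.MP_a0e17f.T.SpecG
import Pool.Agent.Lib.MP_a0e17f.T.TLK
import Pool.Agent.Lib.MP_a0e17f.T.SpecH

section
/-!
# GBA: balanced topes with respect to a set of coordinates
-/
set_option autoImplicit false

namespace MPa0e17f

open Finset Module

namespace GBAM

variable {ι : Type} [Fintype ι] [DecidableEq ι]

/-- crossing a class in the direction `s` decreases the number of differences to `s` -/
theorem less (W : Submodule ℝ (ι → ℝ)) (s l y1 : ι → ℝ) (Z : Finset ι) (hl : NZ W l)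
    (hZne : Z.Nonempty) (hZa : Z ⊆ act W) (hZ1 : ∀ i ∈ Z, l i * s i < 0)
    (hy1P : Pos y1 = (Pos l \ Z) ∪ (Neg l ∩ Z)) (hy1N : Neg y1 = (Neg l \ Z) ∪ (Pos l ∩ Z)) :
    (univ.filter (fun i => y1 i * s i < 0)).card <
      (univ.filter (fun i => l i * s i < 0)).card := by
  apply Finset.card_lt_card
  rw [Finset.ssubset_iff_of_subset]
  · obtain ⟨z, hz⟩ := hZne
    refine ⟨z, by simpa using hZ1 z hz, ?_⟩
    intro hc
    rw [Finset.mem_filter] at hc
    have h1 := hZ1 z hz
    rcases lt_or_gt_of_ne (hl.2 z (hZa hz)) with h | h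
    · have h2 : z ∈ Pos y1 := by
        rw [hy1P]
        exact Finset.mem_union_right _ (Finset.mem_inter.2 ⟨mem_Neg.2 h, hz⟩)
      have h3 := mem_Pos.1 h2
      have h4 : 0 < s z := by
        by_contra hc'
        have := mul_nonneg_of_nonpos_of_nonpos h.le (not_lt.1 hc')
        linarith
      have := mul_pos h3 h4
      linarith [hc.2]
    · have h2 : z ∈ Neg y1 := by
        rw [hy1N]
        exact Finset.mem_union_right _ (Finset.mem_inter.2 ⟨mem_Pos.2 h, hz⟩)
      have h3 := mem_Neg.1 h2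
      have h4 : s z < 0 := by
        by_contra hc'
        have := mul_nonneg h.le (not_lt.1 hc')
        linarith
      have := mul_pos_of_neg_of_neg h3 h4
      linarith [hc.2]
  · intro i hi
    rw [Finset.mem_filter] at hi ⊢
    refine ⟨Finset.mem_univ i, ?_⟩
    by_cases hiZ : i ∈ Z
    · exact hZ1 i hiZ
    · have hi2 := hi.2
      have hy1i : y1 i ≠ 0 := by
        intro h
        rw [h, zero_mul] at hi2
        exact lt_irrefl 0 hi2
      rcases mem_Pos_or_Neg hy1i with h | h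
      · have h1 := mem_Pos.1 h
        rw [hy1P, Finset.mem_union, Finset.mem_sdiff, Finset.mem_inter] at h
        have h2 : 0 < l i := by
          rcases h with h | h
          · exact mem_Pos.1 h.1
          · exact absurd h.2 hiZ
        have h4 : s i < 0 := by
          by_contra hc'
          have := mul_nonneg h1.le (not_lt.1 hc')
          linarith
        exact mul_neg_of_pos_of_neg h2 h4
      · have h1 := mem_Neg.1 h
        rw [hy1N, Finset.mem_union, Finset.mem_sdiff, Finset.mem_inter] at h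
        have h2 : l i < 0 := by
          rcases h with h | h
          · exact mem_Neg.1 h.1
          · exact absurd h.2 hiZ
        have h4 : 0 < s i := by
          by_contra hc'
          have := mul_nonneg_of_nonpos_of_nonpos h1.le (not_lt.1 hc')
          linarith
        exact mul_neg_of_neg_of_pos h2 h4

theorem step (hSTP : SpecSTP) (W : Submodule ℝ (ι → ℝ)) (D : Finset ι) (M : ℕ)
    (hD : ∀ i ∈ act W, ∀ C ⊆ D, (∀ j ∈ C, Prl W j i) → C.card ≤ M) (s : ι → ℝ) (hs : NZ W s)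
    (hst : (Pos s ∩ D).card ≤ (Neg s ∩ D).card) : ∀ (n : ℕ) (l : ι → ℝ), NZ W l →
    (Neg l ∩ D).card ≤ (Pos l ∩ D).card →
    (univ.filter (fun i => l i * s i < 0)).card = n →
    ∃ y, NZ W y ∧ (Pos y ∩ D).card ≤ (Neg y ∩ D).card + M ∧
      (Neg y ∩ D).card ≤ (Pos y ∩ D).card + M := by
  intro n
  induction n using Nat.strong_induction_on with
  | _ n ih =>
    intro l hl hlt hn
    by_cases hdone : (Pos l ∩ D).card ≤ (Neg l ∩ D).card + M
    · exact ⟨l, hl, hdone, by omega⟩
    -- a coordinate with opposite signs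
    have hex : ∃ i, l i * s i < 0 := by
      by_contra hno
      push Not at hno
      have h1 : Pos l ∩ D ⊆ Pos s ∩ D := by
        intro i hi
        obtain ⟨h2, h3⟩ := Finset.mem_inter.1 hi
        refine Finset.mem_inter.2 ⟨?_, h3⟩
        have h4 := mem_Pos.1 h2
        have hia : i ∈ act W := mem_act.2 ⟨l, hl.1, h4.ne'⟩
        rcases mem_Pos_or_Neg (hs.2 i hia) with h | h
        · exact h
        · exact absurd (mul_neg_of_pos_of_neg h4 (mem_Neg.1 h)) (not_lt.2 (hno i))
      have h2 : Neg s ∩ D ⊆ Neg l ∩ D := by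
        intro i hi
        obtain ⟨h2, h3⟩ := Finset.mem_inter.1 hi
        refine Finset.mem_inter.2 ⟨?_, h3⟩
        have h4 := mem_Neg.1 h2
        have hia : i ∈ act W := mem_act.2 ⟨s, hs.1, h4.ne⟩
        rcases mem_Pos_or_Neg (hl.2 i hia) with h | h
        · exact absurd (mul_neg_of_pos_of_neg (mem_Pos.1 h) h4) (not_lt.2 (hno i))
        · exact h
      have h3 := Finset.card_le_card h1
      have h4 := Finset.card_le_card h2
      omega
    obtain ⟨Z, hZne, hZa, hZ1, hZ2, -, -, ⟨y1, hy1, hy1P, hy1N⟩⟩ :=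
      hSTP ι W l s hl hs.1 hex
    have hM : (Z ∩ D).card ≤ M := by
      obtain ⟨z, hz⟩ := hZne
      exact hD z (hZa hz) (Z ∩ D) Finset.inter_subset_right
        (fun j hj => hZ2 j (Finset.mem_inter.1 hj).1 z hz)
    by_cases hlt' : (Neg y1 ∩ D).card ≤ (Pos y1 ∩ D).card
    · exact ih _ (by rw [← hn]; exact less W s l y1 Z hl hZne hZa hZ1 hy1P hy1N) y1 hy1 hlt' rfl
    · have h1 : Neg y1 ∩ D ⊆ (Neg l ∩ D) ∪ (Z ∩ D) := by
        intro i hi
        rw [hy1N] at hi
        simp only [Finset.mem_inter, Finset.mem_union, Finset.mem_sdiff] at hi ⊢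
        tauto
      have h2 : Pos l ∩ D ⊆ (Pos y1 ∩ D) ∪ (Z ∩ D) := by
        intro i hi
        rw [hy1P]
        simp only [Finset.mem_inter, Finset.mem_union, Finset.mem_sdiff] at hi ⊢
        tauto
      have h3 := (Finset.card_le_card h1).trans (Finset.card_union_le _ _)
      have h4 := (Finset.card_le_card h2).trans (Finset.card_union_le _ _)
      exact ⟨y1, hy1, by omega, by omega⟩

end GBAM

theorem specGBA (hSTP : SpecSTP) : SpecGBA := by
  intro ι _ _ W D M hD
  obtain ⟨s0, hs0, hs0'⟩ := exists_nowhere_zero W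
  have hs0n : NZ W s0 := ⟨hs0, hs0'⟩
  have hn0 := BLSM.nz_neg hs0n
  rcases le_total (Pos s0 ∩ D).card (Neg s0 ∩ D).card with h | h
  · exact GBAM.step hSTP W D M hD s0 hs0n h _ (-s0) hn0 (by rw [Neg_neg, Pos_neg]; exact h) rfl
  · exact GBAM.step hSTP W D M hD (-s0) hn0 (by rw [Neg_neg, Pos_neg]; exact h) _ s0 hs0n h rfl

end MPa0e17f
end

section
/-!
# GCL: closures (helper50)
-/
set_option autoImplicit false

namespace MPa0e17f

open Finset Module

theorem specGCL : SpecGCL := by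
  classical
  intro ι _ _ W
  refine ⟨?_, ?_⟩
  · intro F hF
    set F' : Finset ι := (act W).filter (fun i => ∀ μ ∈ K W F, μ i = 0) with hF'
    have hmem : ∀ i, i ∈ F' ↔ i ∈ act W ∧ ∀ μ ∈ K W F, μ i = 0 := by
      intro i; rw [hF', Finset.mem_filter]
    have hsub : F ⊆ F' := fun i hi => (hmem i).2 ⟨hF hi, fun μ hμ => hμ.2 i hi⟩
    have hK : K W F' = K W F := by
      apply le_antisymm (K_anti W hsub)
      intro μ hμ
      exact ⟨hμ.1, fun i hi => ((hmem i).1 hi).2 μ hμ⟩
    refine ⟨F', ⟨fun i hi => ((hmem i).1 hi).1, ?_⟩, hsub, ?_, ?_⟩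
    · intro i hi hn
      rw [hK]
      by_contra hc
      push Not at hc
      exact hn ((hmem i).2 ⟨hi, hc⟩)
    · rw [kap, kap, hK]
    · intro i hi
      rw [hmem]
      exact ⟨fun h => h.2, fun h => ⟨hi, h⟩⟩
  · intro F hF o ho hoF o' ho' hP h
    obtain ⟨μ, hμ, h0⟩ := hF.2 o ho hoF
    obtain ⟨α, hα⟩ := hP
    have h1 : μ o' = 0 := hμ.2 o' h
    rw [hα μ hμ.1] at h1
    have hα0 : α = 0 := (mul_eq_zero.1 h1).resolve_right h0
    obtain ⟨ν, hν, hν0⟩ := mem_act.1 ho'
    exact hν0 (by rw [hα ν hν, hα0, zero_mul])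

end MPa0e17f
end

section
/-!
# GF0: a maximal heavy closed set
-/
set_option autoImplicit false

namespace MPa0e17f

open Finset Module

namespace GF0M

variable {ι : Type} [Fintype ι] [DecidableEq ι]

omit [Fintype ι] [DecidableEq ι] in
theorem prl_refl (W : Submodule ℝ (ι → ℝ)) (i : ι) : Prl W i i :=
  ⟨1, fun μ _ => (one_mul _).symm⟩

theorem prl_symm {W : Submodule ℝ (ι → ℝ)} {i j : ι} (hi : i ∈ act W) (h : Prl W i j) :
    Prl W j i := by
  obtain ⟨α, hα⟩ := h
  obtain ⟨μ, hμ, h0⟩ := mem_act.1 hi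
  have hα0 : α ≠ 0 := by
    rintro rfl
    exact h0 (by rw [hα μ hμ, zero_mul])
  exact ⟨α⁻¹, fun ν hν => by rw [hα ν hν, ← mul_assoc, inv_mul_cancel₀ hα0, one_mul]⟩

omit [Fintype ι] [DecidableEq ι] in
theorem prl_trans {W : Submodule ℝ (ι → ℝ)} {i j l : ι} (h1 : Prl W i j) (h2 : Prl W j l) :
    Prl W i l := by
  obtain ⟨a, ha⟩ := h1
  obtain ⟨b, hb⟩ := h2
  exact ⟨a * b, fun μ hμ => by rw [ha μ hμ, hb μ hμ, mul_assoc]⟩

omit [Fintype ι] [DecidableEq ι] in
theorem prl_zero {W : Submodule ℝ (ι → ℝ)} {i j : ι} (h : Prl W i j) {μ : ι → ℝ} (hμ : μ ∈ W)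
    (h0 : μ j = 0) : μ i = 0 := by
  obtain ⟨a, ha⟩ := h
  rw [ha μ hμ, h0, mul_zero]

theorem clo_empty (W : Submodule ℝ (ι → ℝ)) : Clo W ∅ := by
  refine ⟨empty_subset _, fun i hi _ => ?_⟩
  obtain ⟨μ, hμ, h0⟩ := mem_act.1 hi
  exact ⟨μ, by rw [K_empty]; exact hμ, h0⟩

/-- two classes are disjoint -/
theorem pair_disj {W : Submodule ℝ (ι → ℝ)} {a a' b b' : ι} (ha : a ∈ act W) (ha' : a' ∈ act W)
    (hab : ¬ Prl W a b) (h1 : Prl W a' a) (h2 : Prl W b' b) :
    Disjoint ({a, a'} : Finset ι) {b, b'} := by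
  have e1 : Prl W a a' := prl_symm ha' h1
  rw [disjoint_left]
  intro x hx hy
  rw [mem_insert, mem_singleton] at hx hy
  have hxa : Prl W a x := by
    rcases hx with rfl | rfl
    · exact prl_refl W _
    · exact e1
  have hxb : Prl W x b := by
    rcases hy with rfl | rfl
    · exact prl_refl W _
    · exact h2
  exact hab (prl_trans hxa hxb)

theorem main {W : Submodule ℝ (ι → ℝ)} {x : ℕ} (hR : x + 3 ≤ finrank ℝ W)
    (hY : ∀ F, Clo W F → 1 ≤ kap W F → F.card + 2 * kap W F ≤ 2 * finrank ℝ W + x)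
    (hpart : ∀ o ∈ act W, ∃ o' ∈ act W, o' ≠ o ∧ Prl W o' o)
    (hcl1 : ∀ F ⊆ act W, ∃ F', Clo W F' ∧ F ⊆ F' ∧ kap W F' = kap W F ∧
      ∀ i ∈ act W, i ∈ F' ↔ ∀ μ ∈ K W F, μ i = 0)
    (hcl2 : ∀ F, Clo W F → ∀ o ∈ act W, o ∉ F → ∀ o' ∈ act W, Prl W o' o → o' ∉ F)
    (h7 : ∀ i ∈ act W, ∀ j ∈ act W, ¬ Prl W i j → ∀ a b : ℝ, ∃ s ∈ W, s i = a ∧ s j = b) :
    ∃ F, Clo W F ∧ F.card ≤ 3 * x ∧
      (∀ o ∈ act W, o ∉ F → ∀ o' ∈ act W, ∀ o'' ∈ act W, o' ≠ o → o'' ≠ o →
        Prl W o' o → Prl W o'' o → o' = o'') ∧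
      (∀ o1 ∈ act W, o1 ∉ F → ∀ o2 ∈ act W, o2 ∉ F → ¬ Prl W o1 o2 →
        ∀ f ∈ act W, (∀ μ ∈ K W {o1, o2}, μ f = 0) → Prl W f o1 ∨ Prl W f o2) := by
  classical
  set R := finrank ℝ W with hRdef
  let P : ℕ → Prop := fun r => ∃ F, Clo W F ∧ 1 ≤ kap W F ∧ kap W F = r ∧ 3 * R ≤ F.card + 3 * r
  have hP : ∃ r, P r := ⟨R, ∅, clo_empty W, by rw [kap_empty]; omega, kap_empty W, by omega⟩
  obtain ⟨F, hF, hF1, hFr, hF3⟩ := Nat.find_spec hP
  have hbig : ∀ F', Clo W F' → 1 ≤ kap W F' → kap W F' < kap W F → 3 * R ≤ F'.card + 3 * kap W F' →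
      False := by
    intro F' h1 h2 h3 h4
    have h5 : P (kap W F') := ⟨F', h1, h2, rfl, h4⟩
    have h6 := Nat.find_min' hP h5
    omega
  rw [← hFr] at hF3
  have hYF := hY F hF hF1
  have hk3 : 3 ≤ kap W F := by omega
  have hsub1 : ∀ o ∈ act W, insert o F ⊆ act W := by
    intro o ho i hi
    rcases mem_insert.1 hi with rfl | hi
    · exact ho
    · exact hF.1 hi
  refine ⟨F, hF, by omega, ?_, ?_⟩
  · intro o ho hoF o' ho' o'' ho'' hne' hne'' hP' hP''
    by_contra hcon
    obtain ⟨F', hF', hsub, hkap, hmem⟩ := hcl1 (insert o F) (hsub1 o ho)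
    have hk1 : kap W (insert o F) + 1 = kap W F := kap_insert_of_ne W F o (hF.2 o ho hoF)
    have hin : ∀ i ∈ act W, Prl W i o → i ∈ F' := by
      intro i hi hPi
      rw [hmem i hi]
      intro ν hν
      exact prl_zero hPi hν.1 (hν.2 o (mem_insert_self _ _))
    have hsub2 : insert o' (insert o'' (insert o F)) ⊆ F' := by
      intro i hi
      rcases mem_insert.1 hi with rfl | hi
      · exact hin _ ho' hP'
      rcases mem_insert.1 hi with rfl | hi
      · exact hin _ ho'' hP''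
      · exact hsub hi
    have hcard := card_le_card hsub2
    have hn' := hcl2 F hF o ho hoF o' ho' hP'
    have hn'' := hcl2 F hF o ho hoF o'' ho'' hP''
    rw [card_insert_of_notMem (by
        rw [mem_insert, not_or, mem_insert, not_or]
        exact ⟨hcon, hne', hn'⟩), card_insert_of_notMem (by
        rw [mem_insert, not_or]
        exact ⟨hne'', hn''⟩), card_insert_of_notMem hoF] at hcard
    exact hbig F' hF' (by omega) (by omega) (by omega)
  · intro o1 ho1 ho1F o2 ho2 ho2F hnP f hf hfz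
    by_contra hcon
    rw [not_or] at hcon
    obtain ⟨hc1, hc2⟩ := hcon
    obtain ⟨s1, hs1, h11, h12⟩ := h7 o1 ho1 o2 ho2 hnP 1 0
    obtain ⟨s2, hs2, h21, h22⟩ := h7 o1 ho1 o2 ho2 hnP 0 1
    have hcomb : ∀ μ ∈ W, μ f = s1 f * μ o1 + s2 f * μ o2 := by
      intro μ hμ
      have h1 : μ - μ o1 • s1 - μ o2 • s2 ∈ K W {o1, o2} := by
        refine ⟨W.sub_mem (W.sub_mem hμ (W.smul_mem _ hs1)) (W.smul_mem _ hs2), fun i hi => ?_⟩
        rw [mem_insert, mem_singleton] at hi
        simp only [Pi.sub_apply, Pi.smul_apply, smul_eq_mul]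
        rcases hi with rfl | rfl
        · rw [h11, h21]; ring
        · rw [h12, h22]; ring
      have h2 := hfz _ h1
      simp only [Pi.sub_apply, Pi.smul_apply, smul_eq_mul] at h2
      linarith
    have hβ : s2 f ≠ 0 := by
      intro h0
      exact hc1 ⟨s1 f, fun μ hμ => by rw [hcomb μ hμ, h0, zero_mul, add_zero]⟩
    obtain ⟨o1', ho1', hne1, hP1⟩ := hpart o1 ho1
    obtain ⟨o2', ho2', hne2, hP2⟩ := hpart o2 ho2
    obtain ⟨f', hf', hnef, hPf⟩ := hpart f hf
    have hn1' := hcl2 F hF o1 ho1 ho1F o1' ho1' hP1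
    have hn2' := hcl2 F hF o2 ho2 ho2F o2' ho2' hP2
    have hk1 : kap W (insert o1 F) + 1 = kap W F := kap_insert_of_ne W F o1 (hF.2 o1 ho1 ho1F)
    have hd12 := pair_disj ho1 ho1' hnP hP1 hP2
    have hd1f := pair_disj ho1 ho1' (fun h => hc1 (prl_symm ho1 h)) hP1 hPf
    have hd2f := pair_disj ho2 ho2' (fun h => hc2 (prl_symm ho2 h)) hP2 hPf
    have c1 : ({o1, o1'} : Finset ι).card = 2 := card_pair hne1.symm
    have c2 : ({o2, o2'} : Finset ι).card = 2 := card_pair hne2.symm
    have cf : ({f, f'} : Finset ι).card = 2 := card_pair hnef.symm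
    have hdF : ∀ a a' : ι, a ∉ F → a' ∉ F → Disjoint ({a, a'} : Finset ι) F := by
      intro a a' h1 h2
      rw [disjoint_left]
      intro i hi hiF
      rw [mem_insert, mem_singleton] at hi
      rcases hi with rfl | rfl
      · exact h1 hiF
      · exact h2 hiF
    by_cases hfF : f ∈ F
    · obtain ⟨F', hF', hsub, hkap, hmem⟩ := hcl1 (insert o1 F) (hsub1 o1 ho1)
      have ho2z : ∀ ν ∈ K W (insert o1 F), ν o2 = 0 := by
        intro ν hν
        have h1 := hcomb ν hν.1
        rw [hν.2 o1 (mem_insert_self _ _), hν.2 f (mem_insert_of_mem hfF), mul_zero, zero_add] at h1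
        rcases mul_eq_zero.1 h1.symm with h2 | h2
        · exact absurd h2 hβ
        · exact h2
      have hsub2 : ({o1, o1'} : Finset ι) ∪ (({o2, o2'} : Finset ι) ∪ F) ⊆ F' := by
        intro i hi
        rw [mem_union, mem_union, mem_insert, mem_singleton, mem_insert, mem_singleton] at hi
        rcases hi with (rfl | rfl) | (rfl | rfl) | hi
        · exact hsub (mem_insert_self _ _)
        · rw [hmem _ ho1']
          exact fun ν hν => prl_zero hP1 hν.1 (hν.2 o1 (mem_insert_self _ _))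
        · rw [hmem _ ho2]
          exact ho2z
        · rw [hmem _ ho2']
          exact fun ν hν => prl_zero hP2 hν.1 (ho2z ν hν)
        · exact hsub (mem_insert_of_mem hi)
      have hcard := card_le_card hsub2
      rw [card_union_of_disjoint (disjoint_union_right.2 ⟨hd12, hdF _ _ ho1F hn1'⟩),
        card_union_of_disjoint (hdF _ _ ho2F hn2'), c1, c2] at hcard
      exact hbig F' hF' (by omega) (by omega) (by omega)
    · have hnf' := hcl2 F hF f hf hfF f' hf' hPf
      have hsubA : insert o2 (insert o1 F) ⊆ act W := by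
        intro i hi
        rcases mem_insert.1 hi with rfl | hi
        · exact ho2
        · exact hsub1 o1 ho1 hi
      obtain ⟨F', hF', hsub, hkap, hmem⟩ := hcl1 (insert o2 (insert o1 F)) hsubA
      have hk2 : kap W (insert o1 F) ≤ kap W (insert o2 (insert o1 F)) + 1 :=
        kap_le_insert W (insert o1 F) o2
      have hk3' : kap W (insert o2 (insert o1 F)) ≤ kap W (insert o1 F) :=
        kap_anti W (subset_insert _ _)
      have hz1 : ∀ ν ∈ K W (insert o2 (insert o1 F)), ν o1 = 0 := fun ν hν =>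
        hν.2 o1 (mem_insert_of_mem (mem_insert_self _ _))
      have hz2 : ∀ ν ∈ K W (insert o2 (insert o1 F)), ν o2 = 0 := fun ν hν =>
        hν.2 o2 (mem_insert_self _ _)
      have hzf : ∀ ν ∈ K W (insert o2 (insert o1 F)), ν f = 0 := fun ν hν => by
        rw [hcomb ν hν.1, hz1 ν hν, hz2 ν hν, mul_zero, mul_zero, add_zero]
      have hsub2 : ({o1, o1'} : Finset ι) ∪ (({o2, o2'} : Finset ι) ∪ (({f, f'} : Finset ι) ∪ F))
          ⊆ F' := by
        intro i hi
        rw [mem_union, mem_union, mem_union, mem_insert, mem_singleton, mem_insert, mem_singleton,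
          mem_insert, mem_singleton] at hi
        rcases hi with (rfl | rfl) | (rfl | rfl) | (rfl | rfl) | hi
        · rw [hmem _ ho1]
          exact hz1
        · rw [hmem _ ho1']
          exact fun ν hν => prl_zero hP1 hν.1 (hz1 ν hν)
        · rw [hmem _ ho2]
          exact hz2
        · rw [hmem _ ho2']
          exact fun ν hν => prl_zero hP2 hν.1 (hz2 ν hν)
        · rw [hmem _ hf]
          exact hzf
        · rw [hmem _ hf']
          exact fun ν hν => prl_zero hPf hν.1 (hzf ν hν)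
        · exact hsub (mem_insert_of_mem (mem_insert_of_mem hi))
      have hcard := card_le_card hsub2
      rw [card_union_of_disjoint (disjoint_union_right.2 ⟨hd12, disjoint_union_right.2
          ⟨hd1f, hdF _ _ ho1F hn1'⟩⟩),
        card_union_of_disjoint (disjoint_union_right.2 ⟨hd2f, hdF _ _ ho2F hn2'⟩),
        card_union_of_disjoint (hdF _ _ hfF hnf'), c1, c2, cf] at hcard
      exact hbig F' hF' (by omega) (by omega) (by omega)

end GF0M

/-- GF0 -/
theorem specGF0 (hTLK : SpecTLK) (hGPA : SpecGPA) (hGCL : SpecGCL)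
    (hGHY : SpecGHY) : SpecGF0 := by
  intro ι _ _ k t U Z h
  obtain ⟨hc1, hc2⟩ := hGCL ι (K U Z)
  obtain ⟨-, -, -, -, -, -, h7, -⟩ := hTLK ι (K U Z)
  have hind := h.ifl.ind
  have hW : finrank ℝ (K U Z) = kap U Z := rfl
  have hlt := h.lt
  have hge := h.ge
  have hbig := h.big
  obtain ⟨F, hF, hF1, hF2, hF3⟩ := GF0M.main (W := K U Z) (x := t + Z.card - k) (by omega)
    (fun F hF hk => by
      have := hGHY ι k t U Z h F hF hk
      omega) (hGPA ι k t U Z h) hc1 hc2 h7
  exact ⟨F, hF, by omega, hF2, hF3⟩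

end MPa0e17f
end

section
/-!
# GAS: Theorem G
-/
set_option autoImplicit false

namespace MPa0e17f

open Finset Module

namespace GASM

variable {ι : Type} [Fintype ι] [DecidableEq ι]

/-- the active coordinates of the contraction of one of two proportional coordinates -/
theorem act_contract {U : Submodule ℝ (ι → ℝ)} {i j : ι} (hi : i ∈ act U) (hj : j ∈ act U)
    (hij : i ≠ j) {α : ℝ} (hα : ∀ μ ∈ U, μ i = α * μ j) :
    (act (K U {i})).card + 2 ≤ (act U).card := by
  have hα0 : α ≠ 0 := by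
    rintro rfl
    obtain ⟨μ, hμ, h0⟩ := mem_act.1 hi
    exact h0 (by rw [hα μ hμ, zero_mul])
  have hsub : act (K U {i}) ⊆ ((act U).erase i).erase j := by
    intro w hw
    obtain ⟨μ, hμ, h0⟩ := mem_act.1 hw
    have hμi : μ i = 0 := hμ.2 i (Finset.mem_singleton_self i)
    refine Finset.mem_erase.2 ⟨?_, Finset.mem_erase.2 ⟨?_, mem_act.2 ⟨μ, hμ.1, h0⟩⟩⟩
    · rintro rfl
      rw [hα μ hμ.1] at hμi
      exact h0 ((mul_eq_zero.1 hμi).resolve_left hα0)
    · rintro rfl; exact h0 hμi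
  have hc3 := Finset.card_le_card hsub
  rw [Finset.card_erase_of_mem (Finset.mem_erase.2 ⟨hij.symm, hj⟩),
    Finset.card_erase_of_mem hi] at hc3
  have h1 : 1 < (act U).card := Finset.one_lt_card.2 ⟨i, hi, j, hj, hij⟩
  omega

theorem main (hGRE : SpecGRE) (hGSL : SpecGSL) {k t : ℕ} (ht : 1 ≤ t) (hk : 20 * t ^ 2 ≤ k)
    (n : ℕ) : ∀ (U : Submodule ℝ (ι → ℝ)), finrank ℝ U = n →
    k + 1 ≤ finrank ℝ U → (act U).card ≤ 2 * finrank ℝ U + t → HS k U → HC U → Good k U := by
  induction n with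
  | zero => intro U h1 h2; omega
  | succ n ih =>
    intro U hUn hm hn H1 H2
    have hk20 : 20 ≤ k := by
      have : 1 ≤ t ^ 2 := Nat.one_le_pow _ _ ht
      omega
    by_cases hc : (act U).card ≤ 2 * finrank ℝ U + 1
    · exact core (by omega) _ U rfl hm hc H1 H2
    obtain ⟨t1, ht1⟩ : ∃ t1, (act U).card = 2 * finrank ℝ U + t1 :=
      ⟨(act U).card - 2 * finrank ℝ U, by omega⟩
    have ht1' : 2 ≤ t1 := by omega
    have ht1t : t1 ≤ t := by omega
    have hk1 : 20 * t1 ^ 2 ≤ k := by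
      have : t1 ^ 2 ≤ t ^ 2 := Nat.pow_le_pow_left ht1t 2
      omega
    rcases Nat.lt_or_ge (k + t1) (finrank ℝ U) with hcase | hcase
    · by_cases hs : Simple U
      · exact hGSL ι k t1 U H1 H2 hs ht1 (by omega) (by nlinarith)
      · unfold Simple at hs
        push Not at hs
        obtain ⟨i, hi, j, hj, hij, α, hα⟩ := hs
        have hfr := finrank_K_singleton hi
        have hac := act_contract hi hj hij hα
        apply contract hi
        exact ih (K U {i}) (by omega) (by omega) (by omega) (fun μ hμ => H1 μ hμ.1)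
          (fun μ hμ => H2 μ hμ.1)
    · obtain ⟨q, hq⟩ : ∃ q, finrank ℝ U = k + 1 + q := ⟨finrank ℝ U - (k + 1), by omega⟩
      refine hGRE ι k t1 (t1 + q) U H1 hm ht1 (by omega) (by omega) ?_
      have hq1 : q + 1 ≤ t1 := by omega
      have h1 : (t1 + q + 1) * (4 * (t1 + q) + 2 * t1 + 1) ≤ (2 * t1) * (10 * t1) := by
        apply Nat.mul_le_mul <;> omega
      have h2 : (2 * t1) * (10 * t1) = 20 * t1 ^ 2 := by ring
      omega

end GASM

theorem specGAS (hGRE : SpecGRE) (hGSL : SpecGSL) : SpecGAS :=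
  fun _ _ _ _ _ U ht hk hm hn H1 H2 => GASM.main hGRE hGSL ht hk _ U rfl hm hn H1 H2

end MPa0e17f
end

section
/-!
# HAS: the linear theorem (helper50)
-/
set_option autoImplicit false

namespace MPa0e17f

open Finset Module

namespace HASM

variable {ι : Type} [Fintype ι] [DecidableEq ι]

theorem main (hHRE : SpecHRE) (hGSL : SpecGSL) {k t : ℕ} (ht : 1 ≤ t) (hk : 44 * t ≤ k + 19)
    (n : ℕ) : ∀ (U : Submodule ℝ (ι → ℝ)), finrank ℝ U = n →
    k + 1 ≤ finrank ℝ U → (act U).card ≤ 2 * finrank ℝ U + t → HS k U → HC U → Good k U := by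
  induction n with
  | zero => intro U h1 h2; omega
  | succ n ih =>
    intro U hUn hm hn H1 H2
    by_cases hc : (act U).card ≤ 2 * finrank ℝ U + 1
    · exact core (by omega) _ U rfl hm hc H1 H2
    obtain ⟨t1, ht1⟩ : ∃ t1, (act U).card = 2 * finrank ℝ U + t1 :=
      ⟨(act U).card - 2 * finrank ℝ U, by omega⟩
    have ht1' : 2 ≤ t1 := by omega
    have ht1t : t1 ≤ t := by omega
    rcases Nat.lt_or_ge (k + t1) (finrank ℝ U) with hcase | hcase
    · by_cases hs : Simple U
      · exact hGSL ι k t1 U H1 H2 hs ht1 (by omega) (by omega)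
      · unfold Simple at hs
        push Not at hs
        obtain ⟨i, hi, j, hj, hij, α, hα⟩ := hs
        have hfr := finrank_K_singleton hi
        have hac := GASM.act_contract hi hj hij hα
        apply contract hi
        exact ih (K U {i}) (by omega) (by omega) (by omega) (fun μ hμ => H1 μ hμ.1)
          (fun μ hμ => H2 μ hμ.1)
    · obtain ⟨q, hq⟩ : ∃ q, finrank ℝ U = k + 1 + q := ⟨finrank ℝ U - (k + 1), by omega⟩
      exact hHRE ι k t1 (t1 + q) U H1 hm ht1 (by omega) (by omega) (by omega)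

end HASM

theorem specHAS (hHRE : SpecHRE) (hGSL : SpecGSL) : SpecHAS :=
  fun _ _ _ _ _ U ht hk hm hn H1 H2 => HASM.main hHRE hGSL ht hk _ U rfl hm hn H1 H2

end MPa0e17f
end

section
/-!
# HRZ: extension of an independent set with closure in `Y`
-/
set_option autoImplicit false

namespace MPa0e17f

open Finset Module

theorem specHRZ (hHRD : SpecHRD) : SpecHRZ := by
  intro ι _ _ k U Y F W hHS h1 hY hk hF hFY hWY g hg
  induction g, hg using Nat.le_induction with
  | base =>
    intro _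
    exact ⟨F, hF, Finset.inter_eq_left.2 hFY, rfl⟩
  | succ g hg ih =>
    intro hle
    obtain ⟨Z, hZ, hZY, hZc⟩ := ih (by omega)
    obtain ⟨o, ho, hoY, hoZ, hZ'⟩ := hHRD ι k U Y Z W hHS h1 hY hk hZ hWY (by omega)
    refine ⟨insert o Z, hZ', ?_, ?_⟩
    · rw [Finset.insert_inter_of_notMem hoY, hZY]
    · rw [Finset.card_insert_of_notMem hoZ, hZc]

end MPa0e17f
end

section
/-!
# HWF: basic facts on `WFl`
-/
set_option autoImplicit false

namespace MPa0e17f

open Finset Module

theorem specHWF : SpecHWF := by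
  intro ι _ _ U
  refine ⟨⟨Finset.empty_subset _, Finset.empty_subset _, Finset.disjoint_empty_left _, ?_, ?_, ?_⟩, ?_⟩
  · rw [kap_empty, Finset.card_empty, add_zero]
  · intro i hi
    exact absurd hi (Finset.notMem_empty i)
  · intro i hi _ _
    rw [K_empty]
    exact mem_act.1 hi
  · intro Z W h
    have hact : act (K U Z) = act U \ (Z ∪ W) := by
      ext i
      simp only [Finset.mem_sdiff, Finset.mem_union, not_or]
      constructor
      · intro hi
        obtain ⟨μ, hμ, h0⟩ := mem_act.1 hi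
        exact ⟨act_mono (K_le U Z) hi, fun hZ => h0 (hμ.2 i hZ), fun hW => h0 (h.van i hW μ hμ)⟩
      · rintro ⟨h1, h2, h3⟩
        exact mem_act.2 (h.flat i h1 h2 h3)
    refine ⟨hact, fun v hv => ⟨hv.1.1, fun i => ⟨fun hi => ?_, fun hi => ?_⟩⟩⟩
    · rcases Finset.mem_union.1 hi with hZ | hW
      · exact ⟨h.sub hZ, hv.1.2 i hZ⟩
      · exact ⟨h.subW hW, h.van i hW v hv.1⟩
    · by_contra hcon
      exact hv.2 i (by rw [hact]; exact Finset.mem_sdiff.2 ⟨hi.1, hcon⟩) hi.2

end MPa0e17f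
end
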