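import Pool.Agent.Lib.MP_a0e17f.T.SpecR
import Pool.Agent.Lib.MP_a0e17f.T.SpecH
import Pool.Agent.Lib.MP_a0e17f.T.HST
import Pool.Agent.Lib.MP_a0e17f.T.TLK

section
/-!
# RC1: the linear criterion with `k + 1` zeros
-/
set_option autoImplicit false

namespace MPa0e17f

open Finset Module

namespace RC1M

variable {ι : Type} [Fintype ι] [DecidableEq ι]

lemma K_inf (U : Submodule ℝ (ι → ℝ)) (S T : Finset ι) :
    K U S ⊓ K U T = K U (S ∪ T) := by
  ext μ
  simp only [Submodule.mem_inf, mem_K, Finset.mem_union]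
  constructor
  · rintro ⟨⟨h1, h2⟩, _, h3⟩
    exact ⟨h1, fun i hi => hi.elim (h2 i) (h3 i)⟩
  · rintro ⟨h1, h2⟩
    exact ⟨⟨h1, fun i hi => h2 i (Or.inl hi)⟩, h1, fun i hi => h2 i (Or.inr hi)⟩

/-- all values on an independent set are possible -/
lemma values (hTLK : SpecTLK) (U : Submodule ℝ (ι → ℝ)) (Z : Finset ι)
    (h : kap U Z + Z.card = finrank ℝ U) (g : ι → ℝ) : ∃ μ ∈ U, ∀ i ∈ Z, μ i = g i := by
  induction Z using Finset.induction_on with
  | empty => exact ⟨0, U.zero_mem, by simp⟩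
  | insert e Z he ih =>
    have h1 := (hTLK ι U).2.2.1 Z (insert e Z) (Finset.subset_insert e Z) h
    rw [Finset.card_insert_of_notMem he] at h
    obtain ⟨μ0, hμ0, hg⟩ := ih h1
    have h2 : ∃ μ ∈ K U Z, μ e ≠ 0 := by
      by_contra hcon
      push Not at hcon
      have h3 : K U Z ≤ K U (insert e Z) := by
        intro μ hμ
        refine ⟨hμ.1, fun i hi => ?_⟩
        rcases Finset.mem_insert.1 hi with rfl | hi
        · exact hcon μ hμ
        · exact hμ.2 i hi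
      have h4 : kap U Z ≤ kap U (insert e Z) := kap_le_of_le h3
      omega
    obtain ⟨μ, hμ, hμe⟩ := h2
    refine ⟨μ0 + ((g e - μ0 e) / μ e) • μ, U.add_mem hμ0 (U.smul_mem _ hμ.1), fun i hi => ?_⟩
    simp only [Pi.add_apply, Pi.smul_apply, smul_eq_mul]
    rcases Finset.mem_insert.1 hi with rfl | hi
    · field_simp
      ring
    · rw [hμ.2 i hi, hg i hi]
      ring

/-- nudging `v` -/
lemma lower (hTLK : SpecTLK) {k : ℕ} {U : Submodule ℝ (ι → ℝ)} {v : ι → ℝ} {Z : Finset ι}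
    (hv : v ∈ U) (hZ : ∀ i, i ∈ Z ↔ i ∈ act U ∧ v i = 0)
    (hk : kap U Z + Z.card = finrank ℝ U) (hG : ¬ Good k U) (T : Finset ι) (hT : T ⊆ Z) :
    finrank ℝ U < kap U (Pos v ∪ T) + kap U (Neg v ∪ (Z \ T)) + (k + 1) := by
  by_contra hcon
  push Not at hcon
  obtain ⟨s, hs, hsv⟩ := values hTLK U Z hk (fun i => if i ∈ T then 1 else -1)
  refine hG (finish hv hs ?_ (A := Pos v ∪ T) (B := Neg v ∪ (Z \ T)) ?_ ?_ hcon)
  · intro w hw hw0
    rw [hsv w ((hZ w).2 ⟨hw, hw0⟩)]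
    split_ifs
    · norm_num
    · norm_num
  · intro w hw
    rcases Finset.mem_union.1 hw with hw | hw
    · exact Or.inl (mem_Pos.1 hw)
    · refine Or.inr ⟨((hZ w).1 (hT hw)).2, ?_⟩
      rw [hsv w (hT hw)]
      simp [hw]
  · intro w hw
    rcases Finset.mem_union.1 hw with hw | hw
    · exact Or.inl (mem_Neg.1 hw)
    · obtain ⟨hw1, hw2⟩ := Finset.mem_sdiff.1 hw
      refine Or.inr ⟨((hZ w).1 hw1).2, ?_⟩
      rw [hsv w hw1]
      simp [hw2]

/-- the active coordinates of `K U (A ∪ X) ⊓ K U (B ∪ X)` -/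
lemma act_sub {U : Submodule ℝ (ι → ℝ)} {v : ι → ℝ} {Z X : Finset ι}
    (hZ : ∀ i, i ∈ Z ↔ i ∈ act U ∧ v i = 0) :
    act (K U ((Pos v ∪ X) ∪ (Neg v ∪ X))) ⊆ Z \ X := by
  intro i hi
  have hiU : i ∈ act U := act_mono (K_le _ _) hi
  obtain ⟨μ, hμ, h0⟩ := mem_act.1 hi
  have hn : i ∉ (Pos v ∪ X) ∪ (Neg v ∪ X) := fun h => h0 (hμ.2 i h)
  simp only [Finset.mem_union, not_or] at hn
  refine Finset.mem_sdiff.2 ⟨(hZ i).2 ⟨hiU, ?_⟩, hn.1.2⟩
  by_contra hv
  rcases mem_Pos_or_Neg hv with h | h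
  · exact hn.1.1 h
  · exact hn.2.1 h

lemma sup_le_K (U : Submodule ℝ (ι → ℝ)) (A B X : Finset ι) :
    K U (A ∪ X) ⊔ K U (B ∪ X) ≤ K U X :=
  sup_le (K_anti U Finset.subset_union_right) (K_anti U Finset.subset_union_right)

end RC1M

open RC1M in
theorem specRC1 (hPRT : SpecPRT) (hTLK : SpecTLK) : SpecRC1 := by
  intro ι _ _ k U v Z hHS hv hZ hk hcard
  by_contra hG
  obtain ⟨T, hT, X, hX, h⟩ := hPRT ι U Z (Pos v) (Neg v)
  have h1 := lower hTLK hv hZ hk hG T hT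
  have h2 := Finset.card_sdiff_add_card_eq_card hX
  have h3 : kap U X + X.card = finrank ℝ U := (hTLK ι U).2.2.1 X Z hX hk
  have h4 := Submodule.finrank_sup_add_finrank_inf_eq (K U (Pos v ∪ X)) (K U (Neg v ∪ X))
  rw [K_inf] at h4
  have h5 : finrank ℝ ↥(K U (Pos v ∪ X) ⊔ K U (Neg v ∪ X)) ≤ finrank ℝ ↥(K U X) :=
    Submodule.finrank_mono (sup_le_K U _ _ X)
  simp only [kap] at h h1 h3
  have h6 : 1 ≤ finrank ℝ ↥(K U ((Pos v ∪ X) ∪ (Neg v ∪ X))) := by omega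
  have h7 := card_act_ge hHS _ (K_le U _) h6
  have h8 := Finset.card_le_card (act_sub (X := X) hZ)
  omega

end MPa0e17f
end

section
/-!
# HCV: covectors with a zero set `Z ∪ W`
-/
set_option autoImplicit false

namespace MPa0e17f

open Finset Module

namespace HCVM

variable {ι : Type} [Fintype ι] [DecidableEq ι]

/-- signs on an independent set can be prescribed by a nowhere zero element -/
lemma signs {U : Submodule ℝ (ι → ℝ)} {Z : Finset ι} (hk : kap U Z + Z.card = finrank ℝ U)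
    (T : Finset ι) : ∃ s ∈ U, (∀ i ∈ act U, s i ≠ 0) ∧ (∀ i ∈ Z, i ∈ T → 0 < s i) ∧
      (∀ i ∈ Z, i ∉ T → s i < 0) := by
  obtain ⟨s, hs, hsv⟩ := RC1M.values specTLK U Z hk (fun i => if i ∈ T then 1 else -1)
  obtain ⟨l, hl, hl0⟩ := exists_nowhere_zero U
  obtain ⟨ε, hε, h1, h2⟩ := nudge s l
  refine ⟨s + ε • l, U.add_mem hs (U.smul_mem ε hl), ?_, ?_, ?_⟩
  · intro i hi
    by_cases h0 : s i = 0
    · simp only [Pi.add_apply, Pi.smul_apply, smul_eq_mul, h0, zero_add]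
      exact mul_ne_zero hε.ne' (hl0 i hi)
    · rcases mem_Pos_or_Neg h0 with h | h
      · exact (mem_Pos.1 (by rw [h1]; exact Finset.mem_union_left _ h)).ne'
      · exact (mem_Neg.1 (by rw [h2]; exact Finset.mem_union_left _ h)).ne
  · intro i hi hT
    have h3 : 0 < s i := by
      rw [hsv i hi]
      simp [hT]
    exact mem_Pos.1 (by rw [h1]; exact Finset.mem_union_left _ (mem_Pos.2 h3))
  · intro i hi hT
    have h3 : s i < 0 := by
      rw [hsv i hi]
      simp [hT]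
    exact mem_Neg.1 (by rw [h2]; exact Finset.mem_union_left _ (mem_Neg.2 h3))

end HCVM

theorem specHCV : SpecHCV := by
  intro ι _ _ k U v Z W hG hv _ hZ hk
  obtain ⟨T, hT, X, hX, h⟩ := specPRT ι U Z (Pos v) (Neg v)
  have h1 : finrank ℝ U < kap U (Pos v ∪ T) + kap U (Neg v ∪ (Z \ T)) + (k + 1) := by
    by_contra hcon
    push Not at hcon
    obtain ⟨s, hs, hs0, hs1, hs2⟩ := HCVM.signs hk T
    have hZ0 : ∀ i ∈ Z, v i = 0 := fun i hi => ((hZ i).1 (Finset.mem_union_left _ hi)).2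
    refine hG (finish hv hs (fun w hw _ => hs0 w hw) (A := Pos v ∪ T) (B := Neg v ∪ (Z \ T))
      ?_ ?_ hcon)
    · intro w hw
      rcases Finset.mem_union.1 hw with hw | hw
      · exact Or.inl (mem_Pos.1 hw)
      · exact Or.inr ⟨hZ0 w (hT hw), hs1 w (hT hw) hw⟩
    · intro w hw
      rcases Finset.mem_union.1 hw with hw | hw
      · exact Or.inl (mem_Neg.1 hw)
      · obtain ⟨hw1, hw2⟩ := Finset.mem_sdiff.1 hw
        exact Or.inr ⟨hZ0 w hw1, hs2 w hw1 hw2⟩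
  have h2 := Finset.card_sdiff_add_card_eq_card hX
  exact ⟨X, hX, by omega⟩

end MPa0e17f
end

section
/-!
# HEX: the version for `d = k + t` (linear in `t`; after GEX of helper50)
-/
set_option autoImplicit false

namespace MPa0e17f

open Finset Module

theorem specHEX (hHRE : SpecHRE) : SpecHEX := by
  classical
  intro ι _ _ k t U ht hk hm hn H1 H2
  by_cases hc : (act U).card ≤ 2 * finrank ℝ U + 1
  · exact core (by omega) _ U rfl hm hc H1 H2
  push Not at hc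
  obtain ⟨t1, ht1⟩ : ∃ t1, (act U).card = 2 * finrank ℝ U + t1 :=
    ⟨(act U).card - 2 * finrank ℝ U, by omega⟩
  obtain ⟨q, hq⟩ : ∃ q, finrank ℝ U = k + 1 + q := ⟨finrank ℝ U - (k + 1), by omega⟩
  exact hHRE ι k t1 (t1 + q) U H1 hm ht1 (by omega) (by omega) (by omega)

end MPa0e17f
end

section
/-!
# HFN: the linear theorem on point sets
-/
set_option autoImplicit false

namespace MPa0e17f

open Finset Module

namespace HFNM

/-- a set with at least `n` elements: pass to a family indexed by `Fin n` -/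
theorem divisible_of_fin {k d n : ℕ} (S : Finset (EuclideanSpace ℝ (Fin d))) (hS : n ≤ S.card)
    (hK : KIndep k S)
    (h : ∀ p : Fin n ↪ EuclideanSpace ℝ (Fin d), KIndep k (univ.map p) →
      Divisible k (univ.map p)) : Divisible k S := by
  classical
  obtain ⟨T, hT, hTc⟩ := Finset.exists_subset_card_eq hS
  have hKT := hK.mono hT
  apply Divisible.mono _ hT
  let e : Fin n ≃ T := (Finset.equivFinOfCardEq hTc).symm
  let p : Fin n ↪ EuclideanSpace ℝ (Fin d) :=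
    ⟨fun i => (e i : EuclideanSpace ℝ (Fin d)), fun i j hij => e.injective (Subtype.ext hij)⟩
  have hp : (univ : Finset (Fin n)).map p = T := by
    ext x
    constructor
    · intro hx
      obtain ⟨i, -, rfl⟩ := Finset.mem_map.1 hx
      exact (e i).2
    · intro hx
      refine Finset.mem_map.2 ⟨e.symm ⟨x, hx⟩, Finset.mem_univ _, ?_⟩
      change ((e (e.symm ⟨x, hx⟩) : T) : EuclideanSpace ℝ (Fin d)) = x
      rw [Equiv.apply_symm_apply]
  rw [← hp]
  refine h p ?_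
  rw [hp]
  exact hKT

end HFNM

open HFNM in
/-- **HFN**: the linear theorem for point sets. -/
theorem specHFN (hHAS : SpecHAS) (hHEX : SpecHEX) : SpecHFN := by
  refine ⟨fun t k d ht htk hkd => ?_, fun t k ht htk => ?_⟩
  · have key : ∀ S : Finset (EuclideanSpace ℝ (Fin d)), KIndep k S → 2 * d + 2 - t ≤ S.card →
        Divisible k S := by
      intro S hS hc
      refine divisible_of_fin S hc hS fun p hp => ?_
      have h1 := finrank_dep_ge (p : Fin (2 * d + 2 - t) → EuclideanSpace ℝ (Fin d))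
      rw [Fintype.card_fin, finrank_euclideanSpace, Fintype.card_fin] at h1
      refine divisible_of_good p (by omega) ?_
      refine hHAS _ k t (dep p) ht htk (by omega) ?_ ?_ ?_
      · have h2 := Finset.card_le_univ (act (dep p))
        rw [Fintype.card_fin] at h2
        omega
      · exact (kindep_iff_dep p).1 hp
      · exact fun μ hμ h0 => exists_neg_of_dep hμ h0
    refine ⟨fun S hS hc => key S hS (by omega), ?_⟩
    have h2 : N k d ≤ 2 * d + 2 - t := Nat.sInf_le key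
    omega
  · have h2k : 2 ≤ k := by omega
    have key : ∀ S : Finset (EuclideanSpace ℝ (Fin (k + t))), KIndep k S →
        2 * k + t + 2 ≤ S.card → Divisible k S := by
      intro S hS hc
      refine divisible_of_fin S hc hS fun p hp => ?_
      have h1 := finrank_dep_ge (p : Fin (2 * k + t + 2) → EuclideanSpace ℝ (Fin (k + t)))
      rw [Fintype.card_fin, finrank_euclideanSpace, Fintype.card_fin] at h1
      refine divisible_of_good p (by omega) ?_
      refine hHEX _ k t (dep p) ht htk (by omega) ?_ ?_ ?_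
      · have h2 := Finset.card_le_univ (act (dep p))
        rw [Fintype.card_fin] at h2
        omega
      · exact (kindep_iff_dep p).1 hp
      · exact fun μ hμ h0 => exists_neg_of_dep hμ h0
    have h2 : N k (k + t) ≤ 2 * k + t + 2 := Nat.sInf_le key
    have h3 := (N_bounds k (k + t) h2k (by omega)).2.1
    have h4 := le_max_left ((k + t) + k + 2) (2 * (k + t) + 3 - k)
    omega

end MPa0e17f
end

section
/-!
# HRD: the greedy step for independent sets with a prescribed closure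
-/
set_option autoImplicit false

namespace MPa0e17f

open Finset Module

namespace HRDM

variable {ι : Type} [Fintype ι] [DecidableEq ι]

/-- the closure of `Z` has the same covectors -/
theorem K_union {U : Submodule ℝ (ι → ℝ)} {Z W : Finset ι} (hZ : WFl U Z W) :
    K U (Z ∪ W) = K U Z := by
  apply le_antisymm
  · exact K_anti U Finset.subset_union_left
  · intro μ hμ
    refine ⟨hμ.1, fun i hi => ?_⟩
    rcases Finset.mem_union.1 hi with h | h
    · exact hμ.2 i h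
    · exact hZ.van i h μ hμ

/-- the greedy chain of closed sets -/
theorem chain {U : Submodule ℝ (ι → ℝ)} {Y Z W : Finset ι}
    (hY0 : kap U (act U \ Y) = 0) (hZ : WFl U Z W) (hWY : W ⊆ Y)
    (hp : ∀ o ∈ act U, o ∉ Y → o ∉ Z → ∃ o' ∈ act U, o' ∉ insert o Z ∧ o' ∉ W ∧
      ∀ μ ∈ K U (insert o Z), μ o' = 0) :
    ∀ s : ℕ, Z.card + s + 1 ≤ finrank ℝ U → ∃ F : Finset ι, F ⊆ act U ∧ Z ⊆ F ∧ W ⊆ F ∧
      (∀ i ∈ act U, i ∉ F → ∃ μ ∈ K U F, μ i ≠ 0) ∧ kap U F + Z.card + s = finrank ℝ U ∧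
      Z.card + 2 * s ≤ F.card := by
  classical
  intro s
  induction s with
  | zero =>
    intro _
    refine ⟨Z ∪ W, Finset.union_subset hZ.sub hZ.subW, Finset.subset_union_left,
      Finset.subset_union_right, ?_, ?_, ?_⟩
    · intro i hi hin
      rw [Finset.mem_union] at hin
      rw [K_union hZ]
      exact hZ.flat i hi (fun h => hin (Or.inl h)) (fun h => hin (Or.inr h))
    · have h1 : kap U (Z ∪ W) = kap U Z := by
        rw [kap, K_union hZ]; rfl
      have h2 := hZ.ind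
      omega
    · have h3 := Finset.card_le_card (Finset.subset_union_left : Z ⊆ Z ∪ W)
      omega
  | succ s ih =>
    intro hs
    obtain ⟨F, hFa, hZF, hWF, hFc, hFk, hFn⟩ := ih (by omega)
    obtain ⟨o, hoa, hoY, hoF⟩ : ∃ o ∈ act U, o ∉ Y ∧ o ∉ F := by
      by_contra hcon
      have hsub : act U \ Y ⊆ F := by
        intro i hi
        rw [Finset.mem_sdiff] at hi
        by_contra hiF
        exact hcon ⟨i, hi.1, hi.2, hiF⟩
      have := kap_anti U hsub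
      omega
    have hoZ : o ∉ Z := fun h => hoF (hZF h)
    obtain ⟨o', ho'a, ho'n, ho'W, ho'v⟩ := hp o hoa hoY hoZ
    obtain ⟨μ0, hμ0, hμ0o⟩ := hFc o hoa hoF
    have hkins : kap U (insert o F) + 1 = kap U F := kap_insert_of_ne U F o ⟨μ0, hμ0, hμ0o⟩
    have ho'ne : o' ≠ o := by
      rintro rfl
      exact ho'n (Finset.mem_insert_self _ _)
    have ho'Z : o' ∉ Z := fun h => ho'n (Finset.mem_insert_of_mem h)
    have hle : K U (insert o F) ≤ K U (insert o Z) :=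
      K_anti U (Finset.insert_subset_insert o hZF)
    let F' : Finset ι := (act U).filter (fun i => ∀ μ ∈ K U (insert o F), μ i = 0)
    have hmem : ∀ i, i ∈ F' ↔ i ∈ act U ∧ ∀ μ ∈ K U (insert o F), μ i = 0 := by
      intro i
      simp [F']
    have hKF' : K U F' = K U (insert o F) := by
      apply le_antisymm
      · intro μ hμ
        refine ⟨hμ.1, fun i hi => hμ.2 i ((hmem i).2 ⟨?_, fun ν hν => hν.2 i hi⟩)⟩
        rcases Finset.mem_insert.1 hi with h | h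
        · rw [h]; exact hoa
        · exact hFa h
      · intro μ hμ
        exact ⟨hμ.1, fun i hi => ((hmem i).1 hi).2 μ hμ⟩
    have hFF' : F ⊆ F' := by
      intro i hi
      exact (hmem i).2 ⟨hFa hi, fun μ hμ => hμ.2 i (Finset.mem_insert_of_mem hi)⟩
    have hoF' : o ∈ F' :=
      (hmem o).2 ⟨hoa, fun μ hμ => hμ.2 o (Finset.mem_insert_self _ _)⟩
    have ho'F' : o' ∈ F' := (hmem o').2 ⟨ho'a, fun μ hμ => ho'v μ (hle hμ)⟩
    have ho'F : o' ∉ F := by
      intro hin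
      obtain ⟨ν, hν, hν0⟩ := hZ.flat o' ho'a ho'Z ho'W
      have h0 : μ0 o' = 0 := hμ0.2 o' hin
      have hw : ν - (ν o / μ0 o) • μ0 ∈ K U (insert o Z) := by
        refine ⟨U.sub_mem hν.1 (U.smul_mem _ hμ0.1), fun i hi => ?_⟩
        rcases Finset.mem_insert.1 hi with h | h
        · rw [h, Pi.sub_apply, Pi.smul_apply, smul_eq_mul]
          field_simp
          ring
        · have h1 := hν.2 i h
          have h2 := hμ0.2 i (hZF h)
          simp [h1, h2]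
      have h3 := ho'v _ hw
      rw [Pi.sub_apply, Pi.smul_apply, h0] at h3
      simp at h3
      exact hν0 h3
    have hcard : F.card + 2 ≤ F'.card := by
      have hsub : insert o (insert o' F) ⊆ F' := by
        intro i hi
        rcases Finset.mem_insert.1 hi with h | h
        · rw [h]; exact hoF'
        · rcases Finset.mem_insert.1 h with h | h
          · rw [h]; exact ho'F'
          · exact hFF' h
      have h1 := Finset.card_le_card hsub
      rw [Finset.card_insert_of_notMem, Finset.card_insert_of_notMem ho'F] at h1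
      · omega
      · intro h
        rcases Finset.mem_insert.1 h with h | h
        · exact ho'ne h.symm
        · exact hoF h
    refine ⟨F', Finset.filter_subset _ _, hZF.trans hFF', hWF.trans hFF', ?_, ?_, by omega⟩
    · intro i hi hiF'
      rw [hKF']
      by_contra hcon
      push Not at hcon
      exact hiF' ((hmem i).2 ⟨hi, hcon⟩)
    · have : kap U F' = kap U (insert o F) := by
        rw [kap, hKF']; rfl
      omega

end HRDM

/-- **HRD**: the greedy step: `Z` can be enlarged outside `Y` without changing `W`. -/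
theorem specHRD : SpecHRD := by
  classical
  intro ι _ _ k U Y Z W hS hm _hYa hY0 hZ hWY hlt
  by_contra hno
  have hp : ∀ o ∈ act U, o ∉ Y → o ∉ Z → ∃ o' ∈ act U, o' ∉ insert o Z ∧ o' ∉ W ∧
      ∀ μ ∈ K U (insert o Z), μ o' = 0 := by
    intro o hoa hoY hoZ
    by_contra hcon
    have hoW : o ∉ W := fun h => hoY (hWY h)
    refine hno ⟨o, hoa, hoY, hoZ, ?_, hZ.subW, ?_, ?_, ?_, ?_⟩
    · intro i hi
      rcases Finset.mem_insert.1 hi with h | h
      · rw [h]; exact hoa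
      · exact hZ.sub h
    · rw [Finset.disjoint_insert_left]
      exact ⟨hoW, hZ.dis⟩
    · rw [Finset.card_insert_of_notMem hoZ]
      have h1 := kap_insert_of_ne U Z o (hZ.flat o hoa hoZ hoW)
      have h2 := hZ.ind
      omega
    · intro i hi μ hμ
      exact hZ.van i hi μ (K_anti U (Finset.subset_insert o Z) hμ)
    · intro i hi hin hiW
      by_contra hc2
      push Not at hc2
      exact hcon ⟨i, hi, hin, hiW, hc2⟩
  have hle : Z.card + (finrank ℝ U - 1 - Z.card) + 1 ≤ finrank ℝ U := by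
    have hn : finrank ℝ U + k + 1 ≤ (act U).card := card_act_ge hS U le_rfl hm
    omega
  obtain ⟨F, hFa, -, -, -, hFk, hFn⟩ := HRDM.chain hY0 hZ hWY hp _ hle
  have hk1 : kap U F = 1 := by omega
  have hne : K U F ≠ ⊥ := by
    intro hb
    rw [kap, hb] at hk1
    simp at hk1
  obtain ⟨μ, hμ, hμ0⟩ := Submodule.exists_mem_ne_zero_of_ne_bot hne
  have h1 := hS μ hμ.1 hμ0
  have h2 : (univ.filter (fun i => μ i ≠ 0)) ⊆ act U \ F := by
    intro i hi
    have hi0 : μ i ≠ 0 := (Finset.mem_filter.1 hi).2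
    rw [Finset.mem_sdiff]
    exact ⟨mem_act.2 ⟨μ, hμ.1, hi0⟩, fun h => hi0 (hμ.2 i h)⟩
  have h3 := Finset.card_le_card h2
  rw [Finset.card_sdiff_of_subset hFa] at h3
  have h4 := Finset.card_le_card hFa
  omega

end MPa0e17f
end

section
/-!
# HRE: Theorem H (helper50)
-/
set_option autoImplicit false
set_option linter.unusedVariables false

namespace MPa0e17f

open Finset Module

namespace HREM

theorem ar1 {m e0 j0 τ t a1 e1 j1 : ℕ} (hm0 : m ≤ e0 + 2 * j0)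
    (hN1 : 2 * m + τ + 1 + j0 + a1 ≤ 2 * (m + j1)) (hE1 : e0 + j0 ≤ 2 * e1 + 2 * a1 + t + 2 * τ + 2)
    (hj1 : j1 ≤ τ) (hbig : 19 * τ + 7 * t ≤ m) (hj0 : j0 ≤ τ) : 3 * τ + t + 1 ≤ e1 := by
  omega

theorem ar2 {m e0 j0 τ t a1 e1 j1 a2 f ω e2 j2 : ℕ} (hm0 : m ≤ e0 + 2 * j0)
    (hN1 : 2 * m + τ + 1 + j0 + a1 ≤ 2 * (m + j1)) (hE1 : e0 + j0 ≤ 2 * e1 + 2 * a1 + t + 2 * τ + 2)
    (hj1 : j1 ≤ τ) (hbig : 19 * τ + 7 * t ≤ m) (hj0 : j0 ≤ τ)
    (hF : f + j0 ≤ j1) (hω : 2 * ω + 2 * j1 ≤ 3 * f + 2 * j0)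
    (hN2 : 2 * m + τ + 1 + j1 + a2 + f ≤ 2 * (m + j2) + ω)
    (hE2 : e1 + j1 ≤ 2 * e2 + 2 * a2 + t + f + 2 * τ + 2) (hj2 : j2 ≤ τ) (ht : 1 ≤ t) :
    3 * τ + t + 1 ≤ e2 := by
  have h1 : 4 * j2 + 2 * j0 + f ≥ 2 * τ + 2 + 4 * j1 + 2 * a2 := by omega
  have h2 : 2 * e2 + 4 * τ + t ≥ e1 + 3 * j1 := by omega
  have h3 : 2 * e1 + 4 * j1 + t ≥ e0 + 3 * j0 := by omega
  omega

theorem ar3 {m j0 τ a1 j1 a2 f ω j2 f' ω' a3 : ℕ}
    (hN1 : 2 * m + τ + 1 + j0 + a1 ≤ 2 * (m + j1))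
    (hF : f + j0 ≤ j1) (hω : 2 * ω + 2 * j1 ≤ 3 * f + 2 * j0)
    (hN2 : 2 * m + τ + 1 + j1 + a2 + f ≤ 2 * (m + j2) + ω)
    (hF' : f' + j0 ≤ j2) (hω' : 2 * ω' + 2 * j2 ≤ 3 * f' + 2 * j0)
    (hN3 : 2 * m + τ + 1 + j2 + a3 + f' ≤ 2 * (m + τ) + ω') (hj0 : j0 ≤ τ) : False := by
  have h1 : 2 * τ + 2 + 3 * j1 ≤ 4 * j2 + j0 := by omega
  have h2 : 3 * j2 + 2 ≤ 2 * τ + j0 := by omega
  omega

theorem ar4 {f j0 j ω : ℕ} (h1 : f + j0 ≤ j) (h2 : 2 * ω + 2 * j ≤ 3 * f + 2 * j0) : 2 * ω ≤ f := by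
  omega

theorem ar5 {f j0 j τ : ℕ} (h1 : f + j0 ≤ j) (h2 : j ≤ τ) : f ≤ τ := by
  omega

theorem ar6 {x1 x2 x3 x4 m k τ : ℕ} (h1 : x1 + x2 + (k + 1) ≤ m + k + 1 + τ)
    (h2 : x3 + x4 + (k + 1) ≤ m + k + 1 + τ) : x1 + x2 + (x3 + x4) ≤ 2 * (m + τ) := by
  omega

variable {ι : Type} [Fintype ι] [DecidableEq ι]

/-- the larger one of two sets, closed -/
theorem larger (hGLS : SpecGLS) (hGCL : SpecGCL) {k τ : ℕ} {U : Submodule ℝ (ι → ℝ)} (hS : HS k U)
    (hnτ : (act U).card = finrank ℝ U + k + 1 + τ) (Y A B : Finset ι) (N E : ℕ)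
    (hYA : Y ⊆ A) (hYB : Y ⊆ B) (hAa : A ⊆ act U) (hBa : B ⊆ act U) (hA1 : 1 ≤ kap U A) (hB1 : 1 ≤ kap U B)
    (hN : N ≤ A.card + kap U A + (B.card + kap U B)) (hEA : E ≤ 2 * kap U A) (hEB : E ≤ 2 * kap U B) :
    ∃ (Y' : Finset ι) (j' : ℕ), Y ⊆ Y' ∧ Y' ⊆ act U ∧ 1 ≤ kap U Y' ∧ (∀ i ∈ act U, i ∉ Y' → ∃ μ ∈ K U Y', μ i ≠ 0) ∧
        Y'.card + kap U Y' = finrank ℝ U + j' ∧ N ≤ 2 * (finrank ℝ U + j') ∧ E ≤ 2 * kap U Y' ∧ j' ≤ τ := by
  have hstep : ∀ C : Finset ι, Y ⊆ C → C ⊆ act U → 1 ≤ kap U C → N ≤ 2 * (C.card + kap U C) → E ≤ 2 * kap U C →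
      ∃ (Y' : Finset ι) (j' : ℕ), Y ⊆ Y' ∧ Y' ⊆ act U ∧ 1 ≤ kap U Y' ∧ (∀ i ∈ act U, i ∉ Y' → ∃ μ ∈ K U Y', μ i ≠ 0) ∧
      Y'.card + kap U Y' = finrank ℝ U + j' ∧ N ≤ 2 * (finrank ℝ U + j') ∧ E ≤ 2 * kap U Y' ∧ j' ≤ τ := by
    intro C hYC hCa hC1 hNC hEC
    obtain ⟨Y', hclo, hsub, hk, hmem⟩ := (hGCL ι U).1 C hCa
    have hcard := Finset.card_le_card hsub
    have hge := finrank_le_kap_add_card U Y'
    obtain ⟨j', hj'⟩ : ∃ j', Y'.card + kap U Y' = finrank ℝ U + j' :=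
      ⟨Y'.card + kap U Y' - finrank ℝ U, by omega⟩
    have hk1 : 1 ≤ kap U Y' := by rw [hk]; exact hC1
    have hL := hGLS ι k U Y' hS hclo.1 hk1
    refine ⟨Y', j', hYC.trans hsub, hclo.1, hk1, hclo.2, hj', ?_, ?_, ?_⟩
    · rw [← hj', hk]
      exact hNC.trans (Nat.mul_le_mul_left _ (Nat.add_le_add_right hcard _))
    · rw [hk]; exact hEC
    · clear hNC hEC hEA hEB hN hge hcard
      omega
  rcases Nat.le_total (A.card + kap U A) (B.card + kap U B) with h | h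
  · refine hstep B hYB hBa hB1 ?_ hEB
    clear hstep hEA hEB hnτ
    omega
  · refine hstep A hYA hAa hA1 ?_ hEA
    clear hstep hEA hEB hnτ
    omega

end HREM

open HREM

/-- **HRE**: Theorem H. -/
theorem specHRE (hGLS : SpecGLS) (hGCL : SpecGCL) (hHWF : SpecHWF) (hHST : SpecHST) (hHBS : SpecHBS) :
    SpecHRE := by
  classical
  intro ι _ _ k t τ U hS hm hn hnτ ht hbig
  by_contra hbad
  have hfr1 : 1 ≤ finrank ℝ U := by
    clear hn hnτ hbig ht
    omega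
  -- the set `Y0`
  obtain ⟨Y0, hY0a, hY01, hmax⟩ : ∃ Y0 ⊆ act U, 1 ≤ kap U Y0 ∧
      ∀ S ⊆ act U, 1 ≤ kap U S → 2 * S.card + 3 * kap U S ≤ 2 * Y0.card + 3 * kap U Y0 := by
    have hne : ((act U).powerset.filter (fun S => 1 ≤ kap U S)).Nonempty := by
      refine ⟨∅, ?_⟩
      rw [Finset.mem_filter, Finset.mem_powerset]
      exact ⟨Finset.empty_subset _, by rw [kap_empty]; exact hfr1⟩
    obtain ⟨Y0, hY0, hmax⟩ := Finset.exists_max_image _ (fun S => 2 * S.card + 3 * kap U S) hne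
    rw [Finset.mem_filter, Finset.mem_powerset] at hY0
    exact ⟨Y0, hY0.1, hY0.2, fun S hS hS1 =>
      hmax S (by rw [Finset.mem_filter, Finset.mem_powerset]; exact ⟨hS, hS1⟩)⟩
  have hge0 := finrank_le_kap_add_card U Y0
  obtain ⟨j0, hj0⟩ : ∃ j0, Y0.card + kap U Y0 = finrank ℝ U + j0 :=
    ⟨Y0.card + kap U Y0 - finrank ℝ U, by clear hn hnτ hbig ht hm; omega⟩
  have hm0 : finrank ℝ U ≤ kap U Y0 + 2 * j0 := by
    have := hmax ∅ (Finset.empty_subset _) (by rw [kap_empty]; exact hfr1)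
    rw [kap_empty, Finset.card_empty] at this
    clear hn hnτ hbig ht hm hge0
    omega
  have hL0 := hGLS ι k U Y0 hS hY0a hY01
  have hj0τ : j0 ≤ τ := by
    clear hn hbig ht hm hge0 hm0
    omega
  -- step 1
  have hkm : kap U (Y0 \ (∅ ∪ ∅)) ≤ kap U Y0 + 0 := by simp
  have hb1 : 3 * τ + t + 1 ≤ kap U Y0 := by
    clear hn hnτ hm hge0 hL0 hj0 hkm
    omega
  obtain ⟨A, B, a1, hYA, hYB, hAa, hBa, hA1, hB1, hN, hEA, hEB⟩ := hHST ι k t τ j0 0 U Y0 ∅ ∅ hS hbad hm hn hnτ ht hY0a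
    hj0 (hHWF ι U).1 (Finset.empty_subset _) (Finset.empty_subset _) hkm (by simp) (by simp) (by simp) hb1
  rw [Finset.card_empty] at hN hEA hEB
  obtain ⟨Y1, j1, hY01s, hY1a, hY11, hY1c, hj1, hN1, hE1, hj1τ⟩ := larger hGLS hGCL hS hnτ Y0 A B
    (2 * finrank ℝ U + τ + 1 + j0 + a1) (kap U Y0 + j0 - (2 * a1 + t + 2 * τ + 2))
    hYA hYB hAa hBa hA1 hB1 (by rw [Nat.add_zero, Nat.add_zero] at hN; exact hN)
    (by
      rw [Nat.sub_le_iff_le_add]
      refine hEA.trans (le_of_eq ?_)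
      ring) (by
      rw [Nat.sub_le_iff_le_add]
      refine hEB.trans (le_of_eq ?_)
      ring)
  have hE1' : kap U Y0 + j0 ≤ 2 * kap U Y1 + 2 * a1 + t + 2 * τ + 2 := by
    rw [Nat.sub_le_iff_le_add] at hE1
    refine hE1.trans (le_of_eq ?_)
    ring
  have hb2 : 3 * τ + t + 1 ≤ kap U Y1 := ar1 hm0 hN1 hE1' hj1τ hbig hj0τ
  -- step 2
  obtain ⟨F, W, ω, hWF, hFY, hWY, hFj, hWF2, hkω, hω⟩ := hHBS ι U Y0 Y1 j0 j1 hY01s hY1a hY11 hY1c hmax hj0 hj1
  have hω2 : 2 * ω ≤ F.card := ar4 hFj hω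
  have hFτ : F.card ≤ τ := ar5 hFj hj1τ
  obtain ⟨A', B', a2, hYA', hYB', hAa', hBa', hA1', hB1', hN', hEA', hEB'⟩ := hHST ι k t τ j1 ω U Y1 F W hS hbad hm hn hnτ ht hY1a
    hj1 hWF hFY hWY hkω hWF2 hω2 hFτ hb2
  obtain ⟨Y2, j2, hY12s, hY2a, hY21, hY2c, hj2, hN2, hE2, hj2τ⟩ := larger hGLS hGCL hS hnτ Y1 A' B'
    (2 * finrank ℝ U + τ + 1 + j1 + a2 + F.card - ω) (kap U Y1 + j1 - (2 * a2 + t + F.card + 2 * τ + 2))
    hYA' hYB' hAa' hBa' hA1' hB1' (by rw [Nat.sub_le_iff_le_add]; exact hN')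
    (by
      rw [Nat.sub_le_iff_le_add]
      refine hEA'.trans (le_of_eq ?_)
      ring) (by
      rw [Nat.sub_le_iff_le_add]
      refine hEB'.trans (le_of_eq ?_)
      ring)
  have hE2' : kap U Y1 + j1 ≤ 2 * kap U Y2 + 2 * a2 + t + F.card + 2 * τ + 2 := by
    rw [Nat.sub_le_iff_le_add] at hE2
    refine hE2.trans (le_of_eq ?_)
    ring
  rw [Nat.sub_le_iff_le_add] at hN2
  have hb3 : 3 * τ + t + 1 ≤ kap U Y2 := ar2 hm0 hN1 hE1' hj1τ hbig hj0τ hFj hω hN2 hE2' hj2τ ht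
  -- step 3
  obtain ⟨F', W', ω', hWF', hFY', hWY', hFj', hWF2', hkω', hω'⟩ := hHBS ι U Y0 Y2 j0 j2 (hY01s.trans hY12s) hY2a hY21 hY2c hmax hj0 hj2
  have hω2' : 2 * ω' ≤ F'.card := ar4 hFj' hω'
  have hFτ' : F'.card ≤ τ := ar5 hFj' hj2τ
  obtain ⟨A'', B'', a3, hYA'', hYB'', hAa'', hBa'', hA1'', hB1'', hN'', hEA'', hEB''⟩ := hHST ι k t τ j2 ω' U Y2 F' W' hS hbad hm hn hnτ ht hY2a
    hj2 hWF' hFY' hWY' hkω' hWF2' hω2' hFτ' hb3
  have hLA'' := hGLS ι k U A'' hS hAa'' hA1''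
  have hLB'' := hGLS ι k U B'' hS hBa'' hB1''
  refine ar3 hN1 hFj hω hN2 hFj' hω' (a3 := a3) ?_ hj0τ
  refine hN''.trans ?_
  refine Nat.add_le_add_right ?_ _
  rw [hnτ] at hLA'' hLB''
  exact ar6 hLA'' hLB''

end MPa0e17f
end

section
/-!
# RC2: the linear criterion with `k` zeros
-/
set_option autoImplicit false

namespace MPa0e17f

open Finset Module

namespace RC2M

open RC1M

variable {ι : Type} [Fintype ι] [DecidableEq ι]

/-- a tope with an independent negative side -/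
lemma claim (hGRW : SpecGRW) {k : ℕ} {U : Submodule ℝ (ι → ℝ)} (hHS : HS k U) (hHC : HC U)
    (hS : Simple U) (hk : k + 1 ≤ finrank ℝ U) {y : ι → ℝ} (hy : NZ U y)
    (h : kap U (Neg y) + (Neg y).card = finrank ℝ U) : Good k U := by
  obtain ⟨y', hy', -, -, hc, hk0⟩ := hGRW ι U ∅ hHC (by simp)
    (fun i hi _ j hj hij => hS i hi j hj hij) y hy (Finset.empty_subset _) h
  refine ⟨y', hy'.1, hy'.2, ?_⟩
  rw [hk0, add_zero]
  by_cases h0 : 1 ≤ finrank ℝ ↥(K U (Pos y'))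
  · have h1 := card_act_ge hHS _ (K_le U (Pos y')) h0
    have h2 : act (K U (Pos y')) ⊆ Neg y' := by
      intro i hi
      obtain ⟨μ, hμ, hne⟩ := mem_act.1 hi
      have h3 : i ∉ Pos y' := fun h => hne (hμ.2 i h)
      rcases mem_Pos_or_Neg (hy'.2 i (act_mono (K_le _ _) hi)) with h | h
      · exact absurd h h3
      · exact h
    have h3 := Finset.card_le_card h2
    simp only [kap]
    omega
  · simp only [kap]
    omega

end RC2M

open RC1M RC2M in
theorem specRC2 (hPRT : SpecPRT) (hTLK : SpecTLK) (hGRW : SpecGRW) : SpecRC2 := by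
  intro ι _ _ k U v Z hHS hHC hS hkm hv hZ hk hcard
  by_contra hG
  obtain ⟨T, hT, X, hX, h⟩ := hPRT ι U Z (Pos v) (Neg v)
  have h1 := lower hTLK hv hZ hk hG T hT
  have h2 := Finset.card_sdiff_add_card_eq_card hX
  have h3 : kap U X + X.card = finrank ℝ U := (hTLK ι U).2.2.1 X Z hX hk
  have h4 := Submodule.finrank_sup_add_finrank_inf_eq (K U (Pos v ∪ X)) (K U (Neg v ∪ X))
  rw [K_inf] at h4
  have h5 : finrank ℝ ↥(K U (Pos v ∪ X) ⊔ K U (Neg v ∪ X)) ≤ finrank ℝ ↥(K U X) :=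
    Submodule.finrank_mono (sup_le_K U _ _ X)
  have h6 : ¬ 1 ≤ finrank ℝ ↥(K U ((Pos v ∪ X) ∪ (Neg v ∪ X))) := by
    intro h6
    have h7 := card_act_ge hHS _ (K_le U _) h6
    have h8 := Finset.card_le_card (act_sub (X := X) hZ)
    omega
  have h9 : K U (Pos v ∪ X) ⊔ K U (Neg v ∪ X) = K U X := by
    refine Submodule.eq_of_le_of_finrank_le (sup_le_K U _ _ X) ?_
    simp only [kap] at h h1 h3
    omega
  have hvX : v ∈ K U X := ⟨hv, fun i hi => ((hZ i).1 (hX hi)).2⟩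
  rw [← h9] at hvX
  obtain ⟨a, ha, b, hb, hab⟩ := Submodule.mem_sup.1 hvX
  have hval : ∀ i, a i + b i = v i := fun i => by rw [← hab]; rfl
  obtain ⟨s, hs, hs0⟩ := exists_nowhere_zero U
  obtain ⟨y, hy, hyP, hyN⟩ := (hTLK ι U).2.2.2.2.2.2.2.1 (b - a) (U.sub_mem hb.1 ha.1) s hs
    (fun i hi _ => hs0 i hi)
  have hsub : Neg y ⊆ Z := by
    intro i hi
    have hyi : y i < 0 := mem_Neg.1 hi
    have hact : i ∈ act U := mem_act.2 ⟨y, hy.1, hyi.ne⟩
    refine (hZ i).2 ⟨hact, ?_⟩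
    by_contra hvi
    have hba : 0 < (b - a) i := by
      rw [Pi.sub_apply]
      have h10 := hval i
      rcases lt_or_gt_of_ne hvi with h11 | h11
      · have h12 : b i = 0 := hb.2 i (Finset.mem_union_left _ (mem_Neg.2 h11))
        linarith
      · have h12 : a i = 0 := ha.2 i (Finset.mem_union_left _ (mem_Pos.2 h11))
        linarith
    rcases (hyN i).1 hi with h10 | ⟨h10, -⟩
    · linarith
    · linarith
  exact hG (claim hGRW hHS hHC hS hkm hy ((hTLK ι U).2.2.1 (Neg y) Z hsub hk))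

end MPa0e17f
end
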