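import Pool.Agent.Lib.MP_a0e17f.T.SpecG
import Pool.Agent.Lib.MP_a0e17f.T.TLK
import Pool.Agent.Lib.MP_a0e17f.T.HST
import Pool.Agent.Lib.MP_a0e17f.T.RC2
import Pool.Agent.Lib.MP_a0e17f.T.GTV
import Pool.Agent.Lib.MP_a0e17f.T.HWF

section
/-!
# GCT: the count (helper43)
-/
set_option autoImplicit false
set_option linter.unusedSectionVars false

namespace MPa0e17f

open Finset Module

namespace GCTM

variable {ι : Type} [Fintype ι] [DecidableEq ι]

/-- the count for a transversal `T` -/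
theorem count {k t : ℕ} {U : Submodule ℝ (ι → ℝ)} {Z E T : Finset ι} (hGLS : SpecGLS)
    (hMZ : MZ k t U Z) (hE : E ⊆ act U) (hEZ : Disjoint E Z) (p : ι → ι) (hT : T ⊆ E)
    (hpE : ∀ o ∈ E, p o ∈ E) (hpT : ∀ o ∈ T, p o ∉ T) (hpp : ∀ o ∈ E, p (p o) = o)
    (c : ι → ℝ) (β : ι → ι → ℝ)
    (hrel : ∀ o ∈ E, ∀ μ ∈ U, μ (p o) = c o * μ o + ∑ z ∈ Z, β o z * μ z)
    (hne : ∀ o ∈ E, ∃ z ∈ Z, β o z ≠ 0)
    (hdj : ∀ o1 ∈ T, ∀ o2 ∈ T, o1 ≠ o2 → ∀ z ∈ Z, β o1 z ≠ 0 → β o2 z = 0) :
    T.card + kap U Z + 2 * k + 2 * finrank ℝ U ≤ 2 * (act U).card := by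
  classical
  have hcard := hMZ.card
  have hbig := hMZ.big
  have hge := hMZ.ge
  have hlt := hMZ.lt
  have hind := hMZ.ifl.ind
  have hsub := hMZ.ifl.sub
  obtain ⟨τ, hτ⟩ : ∃ τ : ℕ, (act U).card = finrank ℝ U + k + 1 + τ :=
    ⟨(act U).card - (finrank ℝ U + k + 1), by omega⟩
  by_cases hl : T.card ≤ τ
  · omega
  · push Not at hl
    obtain ⟨S, hST, hScard⟩ := Finset.exists_subset_card_eq (show τ + 1 ≤ T.card by omega)
    set Zf : ι → Finset ι := fun o => Z.filter (fun z => β o z ≠ 0) with hZf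
    have hZf1 : ∀ o ∈ E, 1 ≤ (Zf o).card := by
      intro o ho
      obtain ⟨z, hz, hz0⟩ := hne o ho
      exact Finset.card_pos.mpr ⟨z, Finset.mem_filter.mpr ⟨hz, hz0⟩⟩
    have hpw : ∀ T' : Finset ι, T' ⊆ T → Set.PairwiseDisjoint (T' : Set ι) Zf := by
      intro T' hT' o1 ho1 o2 ho2 h12
      rw [Function.onFun, Finset.disjoint_left]
      intro z hz1 hz2
      have h1 := Finset.mem_filter.mp hz1
      have h2 := Finset.mem_filter.mp hz2
      exact h2.2 (hdj o1 (hT' ho1) o2 (hT' ho2) h12 z h1.1 h1.2)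
    set ζ := ∑ o ∈ S, (Zf o).card with hζ
    have hbS : (S.biUnion Zf).card = ζ := Finset.card_biUnion (hpw S hST)
    have hbT : (T.biUnion Zf).card = ∑ o ∈ T, (Zf o).card :=
      Finset.card_biUnion (hpw T (Finset.Subset.refl T))
    have hbTZ : (T.biUnion Zf).card ≤ Z.card := by
      refine Finset.card_le_card fun z hz => ?_
      obtain ⟨o, _, ho⟩ := Finset.mem_biUnion.mp hz
      exact (Finset.mem_filter.mp ho).1
    have hsplit : ζ + (T.card - S.card) ≤ ∑ o ∈ T, (Zf o).card := by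
      rw [← Finset.sum_sdiff hST, add_comm]
      refine add_le_add ?_ le_rfl
      have h3 : (T \ S).card = T.card - S.card := Finset.card_sdiff_of_subset hST
      rw [← h3, Finset.card_eq_sum_ones]
      refine Finset.sum_le_sum fun o ho => hZf1 o (hT (Finset.mem_sdiff.mp ho).1)
    -- the sets
    set B := S ∪ S.biUnion Zf with hB
    set A := S.image p ∪ B with hA
    have hSE : S ⊆ E := hST.trans hT
    have hBS : Disjoint S (S.biUnion Zf) := by
      rw [Finset.disjoint_left]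
      intro z hz hz'
      obtain ⟨o, _, ho⟩ := Finset.mem_biUnion.mp hz'
      exact (Finset.disjoint_left.mp hEZ) (hSE hz) (Finset.mem_filter.mp ho).1
    have hBcard : B.card = S.card + ζ := by rw [hB, Finset.card_union_of_disjoint hBS, hbS]
    have hpinj : Set.InjOn p (S : Set ι) := by
      intro a ha b hb hab
      rw [← hpp a (hSE ha), ← hpp b (hSE hb), hab]
    have hAB : Disjoint (S.image p) B := by
      rw [Finset.disjoint_left]
      intro x hx hxB
      obtain ⟨o, ho, rfl⟩ := Finset.mem_image.mp hx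
      rcases Finset.mem_union.mp hxB with h | h
      · exact hpT o (hST ho) (hST h)
      · obtain ⟨o', _, ho'⟩ := Finset.mem_biUnion.mp h
        exact (Finset.disjoint_left.mp hEZ) (hpE o (hSE ho)) (Finset.mem_filter.mp ho').1
    have hAcard : A.card = S.card + (S.card + ζ) := by
      rw [hA, Finset.card_union_of_disjoint hAB, hBcard, Finset.card_image_of_injOn hpinj]
    have hAU : A ⊆ act U := by
      intro x hx
      rcases Finset.mem_union.mp hx with h | h
      · obtain ⟨o, ho, rfl⟩ := Finset.mem_image.mp h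
        exact hE (hpE o (hSE ho))
      · rcases Finset.mem_union.mp h with h | h
        · exact hE (hSE h)
        · obtain ⟨o', _, ho'⟩ := Finset.mem_biUnion.mp h
          exact hsub (Finset.mem_filter.mp ho').1
    have hKle : K U B ≤ K U A := by
      intro μ hμ
      refine ⟨hμ.1, fun x hx => ?_⟩
      rcases Finset.mem_union.mp hx with h | h
      · obtain ⟨o, ho, rfl⟩ := Finset.mem_image.mp h
        rw [hrel o (hSE ho) μ hμ.1, hμ.2 o (Finset.mem_union_left _ ho), mul_zero, zero_add]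
        refine Finset.sum_eq_zero fun z hz => ?_
        by_cases h0 : β o z = 0
        · rw [h0, zero_mul]
        · rw [hμ.2 z (Finset.mem_union_right _ (Finset.mem_biUnion.mpr ⟨o, ho,
            Finset.mem_filter.mpr ⟨hz, h0⟩⟩)), mul_zero]
      · exact hμ.2 x h
    have hkap : kap U B ≤ kap U A := kap_le_of_le hKle
    have hlow := finrank_le_kap_add_card U B
    by_cases h1 : 1 ≤ kap U A
    · have := hGLS ι k U A hMZ.hs hAU h1
      omega
    · have h4 : kap U A = 0 := by omega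
      omega

end GCTM

open GCTM in
theorem specGCT (hGLS : SpecGLS) (hGIF : SpecGIF) (hTLK : SpecTLK) (hGPA : SpecGPA)
    (hGCL : SpecGCL) (hGRL : SpecGRL) (hGDJ : SpecGDJ) (hGTV : SpecGTV) : SpecGCT := by
  classical
  intro ι _ _ k t U Z F hMZ hF
  obtain ⟨-, -, hGIF3, -⟩ := hGIF ι U
  have hact : act (K U Z) = act U \ Z := (hGIF3 Z hMZ.ifl).1
  obtain ⟨-, hcl2⟩ := hGCL ι (K U Z)
  obtain ⟨-, -, -, -, -, -, -, -, hTLK9, -⟩ := hTLK ι (K U Z)
  set E := act (K U Z) \ F with hE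
  -- the partner
  have hpart : ∀ o : ι, ∃ o' : ι, o ∈ E → (o' ∈ E ∧ o' ≠ o ∧ Prl (K U Z) o' o) := by
    intro o
    by_cases ho : o ∈ E
    · have ho1 := Finset.mem_sdiff.mp ho
      obtain ⟨o', h1, h2, h3⟩ := hGPA ι k t U Z hMZ o ho1.1
      exact ⟨o', fun _ => ⟨Finset.mem_sdiff.mpr ⟨h1, hcl2 F hF.clo o ho1.1 ho1.2 o' h1 h3⟩, h2, h3⟩⟩
    · exact ⟨o, fun h => absurd h ho⟩
  choose p hp using hpart
  have hEW : ∀ o ∈ E, o ∈ act (K U Z) := fun o ho => (Finset.mem_sdiff.mp ho).1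
  have hEF : ∀ o ∈ E, o ∉ F := fun o ho => (Finset.mem_sdiff.mp ho).2
  have hpE : ∀ o ∈ E, p o ∈ E := fun o ho => (hp o ho).1
  have hpp : ∀ o ∈ E, p (p o) = o := by
    intro o ho
    have h1 := hp o ho
    have h2 := hp (p o) h1.1
    have h3 := hTLK9 (p o) o (hEW _ h1.1) h1.2.2
    exact hF.two (p o) (hEW _ h1.1) (hEF _ h1.1) (p (p o)) (hEW _ h2.1) o (hEW o ho) h2.2.1
      h1.2.1.symm h2.2.2 h3.1
  obtain ⟨T, hTE, hTcard, hTp⟩ := hGTV ι E p hpE hpp fun o ho => (hp o ho).2.1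
  have hnprl : ∀ o1 ∈ T, ∀ o2 ∈ T, o1 ≠ o2 → ¬ Prl (K U Z) o1 o2 := by
    intro o1 h1 o2 h2 h12 hprl
    have h3 := hp o2 (hTE h2)
    have h4 := hF.two o2 (hEW _ (hTE h2)) (hEF _ (hTE h2)) o1 (hEW _ (hTE h1)) (p o2)
      (hEW _ h3.1) h12 h3.2.1 hprl h3.2.2
    exact hTp o2 h2 (h4 ▸ h1)
  -- the relations
  have hEU : E ⊆ act U := fun o ho => act_mono (K_le U Z) (hEW o ho)
  have hrl : ∀ o : ι, ∃ (c : ℝ) (β : ι → ℝ), o ∈ E →
      ((∀ μ ∈ U, μ (p o) = c * μ o + ∑ z ∈ Z, β z * μ z) ∧ ∃ z ∈ Z, β z ≠ 0) := by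
    intro o
    by_cases ho : o ∈ E
    · have h1 := hp o ho
      obtain ⟨c, β, h2, h3⟩ := hGRL ι U Z o (p o) h1.2.2
      refine ⟨c, β, fun _ => ⟨h2, h3 ?_⟩⟩
      exact hMZ.simple (p o) (hEU h1.1) o (hEU ho) h1.2.1
    · exact ⟨0, 0, fun h => absurd h ho⟩
  choose c β hcβ using hrl
  have hEZ : Disjoint E Z := by
    rw [Finset.disjoint_left]
    intro o ho hz
    have := hEW o ho
    rw [hact] at this
    exact (Finset.mem_sdiff.mp this).2 hz
  have hdj : ∀ o1 ∈ T, ∀ o2 ∈ T, o1 ≠ o2 → ∀ z ∈ Z, β o1 z ≠ 0 → β o2 z = 0 := by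
    intro o1 h1 o2 h2 h12
    have e1 := hTE h1
    have e2 := hTE h2
    exact hGDJ ι k t U Z F hMZ hF o1 (hEW _ e1) (hEF _ e1) o2 (hEW _ e2) (hEF _ e2)
      (hnprl o1 h1 o2 h2 h12) (p o1) (hEW _ (hp o1 e1).1) (hp o1 e1).2.1 (hp o1 e1).2.2
      (p o2) (hEW _ (hp o2 e2).1) (hp o2 e2).2.1 (hp o2 e2).2.2 (c o1) (c o2) (β o1) (β o2)
      (hcβ o1 e1).1 (hcβ o2 e2).1
  have hmain := count hGLS hMZ hEU hEZ p hTE hpE hTp hpp c β (fun o ho => (hcβ o ho).1)
    (fun o ho => (hcβ o ho).2) hdj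
  have hEcard : E.card + F.card = (act (K U Z)).card :=
    Finset.card_sdiff_add_card_eq_card hF.clo.1
  have hWcard : (act (K U Z)).card + Z.card = (act U).card := by
    rw [hact]
    exact Finset.card_sdiff_add_card_eq_card hMZ.ifl.sub
  have hkap : kap U Z = finrank ℝ (K U Z) := rfl
  omega

end MPa0e17f
end

section
/-!
# GHY: upper bound for closed sets
-/
set_option autoImplicit false

namespace MPa0e17f

open Finset Module

namespace GHYM

variable {ι : Type} [Fintype ι] [DecidableEq ι]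

theorem exists_ne {W : Submodule ℝ (ι → ℝ)} {F : Finset ι} (h : 1 ≤ kap W F) :
    ∃ μ ∈ K W F, μ ≠ 0 := by
  have h1 : K W F ≠ ⊥ := by
    intro h0
    rw [kap, h0, finrank_bot] at h
    omega
  exact (Submodule.ne_bot_iff _).1 h1

theorem main {k : ℕ} {U W : Submodule ℝ (ι → ℝ)} (hW : W ≤ U) (hs : HS k U)
    (hpart : ∀ o ∈ act W, ∃ o' ∈ act W, o' ≠ o ∧ Prl W o' o)
    (hcl1 : ∀ F ⊆ act W, ∃ F', Clo W F' ∧ F ⊆ F' ∧ kap W F' = kap W F ∧
      ∀ i ∈ act W, i ∈ F' ↔ ∀ μ ∈ K W F, μ i = 0)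
    (hcl2 : ∀ F, Clo W F → ∀ o ∈ act W, o ∉ F → ∀ o' ∈ act W, Prl W o' o → o' ∉ F) (r : ℕ) :
    ∀ F, Clo W F → kap W F = r + 1 → F.card + 2 * kap W F + k ≤ (act W).card := by
  induction r with
  | zero =>
    intro F hF hk
    obtain ⟨μ, hμ, h0⟩ := exists_ne (W := W) (F := F) (by omega)
    have h1 := hs μ (hW hμ.1) h0
    have h2 : univ.filter (fun i => μ i ≠ 0) ⊆ act W \ F := by
      intro i hi
      have hi2 := (mem_filter.1 hi).2
      rw [mem_sdiff]
      refine ⟨mem_act.2 ⟨μ, hμ.1, hi2⟩, fun hiF => hi2 (hμ.2 i hiF)⟩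
    have h3 := card_le_card h2
    have h4 := card_sdiff_add_card_eq_card hF.1
    omega
  | succ r ih =>
    intro F hF hk
    obtain ⟨μ, hμ, h0⟩ := exists_ne (W := W) (F := F) (by omega)
    obtain ⟨o, ho⟩ : ∃ o, μ o ≠ 0 := by
      by_contra hcon
      push Not at hcon
      exact h0 (funext hcon)
    have hoW : o ∈ act W := mem_act.2 ⟨μ, hμ.1, ho⟩
    have hoF : o ∉ F := fun h => ho (hμ.2 o h)
    obtain ⟨o', ho'W, hne, hP⟩ := hpart o hoW
    have ho'F : o' ∉ F := hcl2 F hF o hoW hoF o' ho'W hP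
    obtain ⟨F', hF', hsub, hkap, hmem⟩ := hcl1 (insert o F) (by
      intro i hi
      rcases mem_insert.1 hi with rfl | hi
      · exact hoW
      · exact hF.1 hi)
    have hk1 : kap W (insert o F) + 1 = kap W F := kap_insert_of_ne W F o ⟨μ, hμ, ho⟩
    have ho'F' : o' ∈ F' := by
      rw [hmem o' ho'W]
      intro ν hν
      obtain ⟨c, hc⟩ := hP
      rw [hc ν hν.1, hν.2 o (mem_insert_self _ _), mul_zero]
    have hsub2 : insert o' (insert o F) ⊆ F' := by
      intro i hi
      rcases mem_insert.1 hi with rfl | hi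
      · exact ho'F'
      · exact hsub hi
    have hcard := card_le_card hsub2
    rw [card_insert_of_notMem (by
      rw [mem_insert, not_or]
      exact ⟨hne, ho'F⟩), card_insert_of_notMem hoF] at hcard
    have := ih F' hF' (by omega)
    omega

end GHYM

/-- GHY -/
theorem specGHY (hGIF : SpecGIF) (hGPA : SpecGPA) (hGCL : SpecGCL) : SpecGHY := by
  intro ι _ _ k t U Z h F hF hk
  obtain ⟨-, -, h3, -⟩ := hGIF ι U
  obtain ⟨hact, -⟩ := h3 Z h.ifl
  obtain ⟨hc1, hc2⟩ := hGCL ι (K U Z)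
  obtain ⟨r, hr⟩ : ∃ r, kap (K U Z) F = r + 1 := ⟨kap (K U Z) F - 1, by omega⟩
  have hmain := GHYM.main (K_le U Z) h.hs (hGPA ι k t U Z h) hc1 hc2 r F hF hr
  have hcard := card_sdiff_add_card_eq_card h.ifl.sub
  rw [← hact, h.card] at hcard
  have hind := h.ifl.ind
  have hW : finrank ℝ (K U Z) = kap U Z := rfl
  omega

end MPa0e17f
end

section
/-!
# GLS: Lemma S for sets
-/
set_option autoImplicit false

namespace MPa0e17f

open Finset Module

namespace GLSM

lemma act_K_sub {ι : Type} [Fintype ι] [DecidableEq ι] (U : Submodule ℝ (ι → ℝ)) (S : Finset ι) :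
    act (K U S) ⊆ act U \ S := by
  intro i hi
  obtain ⟨μ, hμ, h0⟩ := mem_act.1 hi
  exact Finset.mem_sdiff.2 ⟨act_mono (K_le U S) hi, fun h => h0 (hμ.2 i h)⟩

end GLSM

theorem specGLS : SpecGLS := by
  intro ι _ _ k U S hHS hS h1
  have h2 := card_act_ge hHS (K U S) (K_le U S) h1
  have h3 := Finset.card_le_card (GLSM.act_K_sub U S)
  have h4 := Finset.card_sdiff_add_card_eq_card hS
  simp only [kap] at h1 ⊢
  omega

end MPa0e17f
end

section
/-! MP_a0e17f_co, part G, module GMX (helper56): an independent flat of maximal size has fewer than `k` elements. -/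
set_option autoImplicit false

namespace MPa0e17f

open Finset Module

namespace GMXM

variable {ι : Type} [Fintype ι] [DecidableEq ι]

lemma kap_act (U : Submodule ℝ (ι → ℝ)) : kap U (act U \ ∅) = 0 := by
  unfold kap
  have h : K U (act U \ ∅) = ⊥ := by
    rw [eq_bot_iff]
    intro μ hμ
    rw [mem_K] at hμ
    rw [Submodule.mem_bot]
    funext i
    by_cases hi : i ∈ act U
    · exact hμ.2 i (by simpa using hi)
    · exact not_act hi hμ.1
  rw [h]
  exact finrank_bot ℝ _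

end GMXM

theorem specGMX (hGIF : SpecGIF) (hGRZ : SpecGRZ) (hRC2 : SpecRC2) : SpecGMX := by
  classical
  intro ι _ _ k t U hHS hHC hS hcard hbig hG
  obtain ⟨g1, g2, g3, -⟩ := hGIF ι U
  obtain ⟨Z, hZ, hmax⟩ := Finset.exists_max_image ((act U).powerset.filter fun Z => IFl U Z)
    Finset.card ⟨∅, Finset.mem_filter.2 ⟨Finset.empty_mem_powerset _, g1⟩⟩
  rw [Finset.mem_filter] at hZ
  have hmax' : ∀ Z', IFl U Z' → Z'.card ≤ Z.card := fun Z' hZ' =>
    hmax Z' (Finset.mem_filter.2 ⟨Finset.mem_powerset.2 hZ'.sub, hZ'⟩)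
  refine ⟨Z, hHS, hS, hcard, hbig, hZ.2, hmax', ?_, ?_⟩
  · by_contra hlt
    push Not at hlt
    obtain ⟨Z', hZ', hc⟩ := Finset.exists_subset_card_eq hlt
    have h1 := g2 Z Z' hZ.2 hZ'
    obtain ⟨-, v, hv, hv'⟩ := g3 Z' h1
    exact hG (hRC2 ι k U v Z' hHS hHC hS (by omega) hv hv' h1.ind hc)
  · by_cases hkt : k ≤ t
    · omega
    · obtain ⟨Z', h1, -, h2⟩ := hGRZ ι k U ∅ hHS (by omega) (Finset.empty_subset _)
        (GMXM.kap_act U) (k - t) (by omega)
      have h3 := hmax' Z' h1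
      omega

end MPa0e17f
end

section
/-!
# GRD: the greedy step for independent flats
-/
set_option autoImplicit false

namespace MPa0e17f

open Finset Module

namespace GRDM

variable {ι : Type} [Fintype ι] [DecidableEq ι]

/-- the greedy chain of closed sets -/
theorem chain {U : Submodule ℝ (ι → ℝ)} {Y Z : Finset ι}
    (hY0 : kap U (act U \ Y) = 0) (hZ : IFl U Z)
    (hp : ∀ o ∈ act U, o ∉ Y → o ∉ Z → ∃ o' ∈ act U, o' ∉ insert o Z ∧
      ∀ μ ∈ K U (insert o Z), μ o' = 0) :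
    ∀ s : ℕ, Z.card + s + 1 ≤ finrank ℝ U → ∃ F : Finset ι, F ⊆ act U ∧ Z ⊆ F ∧
      (∀ i ∈ act U, i ∉ F → ∃ μ ∈ K U F, μ i ≠ 0) ∧ kap U F + Z.card + s = finrank ℝ U ∧
      Z.card + 2 * s ≤ F.card := by
  classical
  intro s
  induction s with
  | zero =>
    intro _
    refine ⟨Z, hZ.sub, Finset.Subset.refl _, hZ.flat, ?_, by omega⟩
    have := hZ.ind
    omega
  | succ s ih =>
    intro hs
    obtain ⟨F, hFa, hZF, hFc, hFk, hFn⟩ := ih (by omega)
    obtain ⟨o, hoa, hoY, hoF⟩ : ∃ o ∈ act U, o ∉ Y ∧ o ∉ F := by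
      by_contra hcon
      have hsub : act U \ Y ⊆ F := by
        intro i hi
        rw [Finset.mem_sdiff] at hi
        by_contra hiF
        exact hcon ⟨i, hi.1, hi.2, hiF⟩
      have := kap_anti U hsub
      omega
    have hoZ : o ∉ Z := fun h => hoF (hZF h)
    obtain ⟨o', ho'a, ho'n, ho'v⟩ := hp o hoa hoY hoZ
    obtain ⟨μ0, hμ0, hμ0o⟩ := hFc o hoa hoF
    have hkins : kap U (insert o F) + 1 = kap U F := kap_insert_of_ne U F o ⟨μ0, hμ0, hμ0o⟩
    have ho'ne : o' ≠ o := by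
      rintro rfl
      exact ho'n (Finset.mem_insert_self _ _)
    have ho'Z : o' ∉ Z := fun h => ho'n (Finset.mem_insert_of_mem h)
    have hle : K U (insert o F) ≤ K U (insert o Z) :=
      K_anti U (Finset.insert_subset_insert o hZF)
    let F' : Finset ι := (act U).filter (fun i => ∀ μ ∈ K U (insert o F), μ i = 0)
    have hmem : ∀ i, i ∈ F' ↔ i ∈ act U ∧ ∀ μ ∈ K U (insert o F), μ i = 0 := by
      intro i
      simp [F']
    have hKF' : K U F' = K U (insert o F) := by
      apply le_antisymm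
      · intro μ hμ
        refine ⟨hμ.1, fun i hi => hμ.2 i ((hmem i).2 ⟨?_, fun ν hν => hν.2 i hi⟩)⟩
        rcases Finset.mem_insert.1 hi with h | h
        · rw [h]; exact hoa
        · exact hFa h
      · intro μ hμ
        exact ⟨hμ.1, fun i hi => ((hmem i).1 hi).2 μ hμ⟩
    have hFF' : F ⊆ F' := by
      intro i hi
      exact (hmem i).2 ⟨hFa hi, fun μ hμ => hμ.2 i (Finset.mem_insert_of_mem hi)⟩
    have hoF' : o ∈ F' :=
      (hmem o).2 ⟨hoa, fun μ hμ => hμ.2 o (Finset.mem_insert_self _ _)⟩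
    have ho'F' : o' ∈ F' := (hmem o').2 ⟨ho'a, fun μ hμ => ho'v μ (hle hμ)⟩
    have ho'F : o' ∉ F := by
      intro hin
      obtain ⟨ν, hν, hν0⟩ := hZ.flat o' ho'a ho'Z
      have h0 : μ0 o' = 0 := hμ0.2 o' hin
      have hw : ν - (ν o / μ0 o) • μ0 ∈ K U (insert o Z) := by
        refine ⟨U.sub_mem hν.1 (U.smul_mem _ hμ0.1), fun i hi => ?_⟩
        rcases Finset.mem_insert.1 hi with h | h
        · rw [h, Pi.sub_apply, Pi.smul_apply, smul_eq_mul]
          field_simp
          ring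
        · have h1 := hν.2 i h
          have h2 := hμ0.2 i (hZF h)
          simp [h1, h2]
      have h3 := ho'v _ hw
      rw [Pi.sub_apply, Pi.smul_apply, h0] at h3
      simp at h3
      exact hν0 h3
    have hcard : F.card + 2 ≤ F'.card := by
      have hsub : insert o (insert o' F) ⊆ F' := by
        intro i hi
        rcases Finset.mem_insert.1 hi with h | h
        · rw [h]; exact hoF'
        · rcases Finset.mem_insert.1 h with h | h
          · rw [h]; exact ho'F'
          · exact hFF' h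
      have h1 := Finset.card_le_card hsub
      rw [Finset.card_insert_of_notMem, Finset.card_insert_of_notMem ho'F] at h1
      · omega
      · intro h
        rcases Finset.mem_insert.1 h with h | h
        · exact ho'ne h.symm
        · exact hoF h
    refine ⟨F', Finset.filter_subset _ _, hZF.trans hFF', ?_, ?_, by omega⟩
    · intro i hi hiF'
      rw [hKF']
      by_contra hcon
      push Not at hcon
      exact hiF' ((hmem i).2 ⟨hi, hcon⟩)
    · have : kap U F' = kap U (insert o F) := by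
        rw [kap, hKF']; rfl
      omega

end GRDM

/-- **GRD**: an independent flat outside `Y` which is not too large can be enlarged outside
`Y`. -/
theorem specGRD : SpecGRD := by
  classical
  intro ι _ _ k U Y Z hS hm _hYa hY0 hZ hZY hlt
  by_contra hno
  have hn : finrank ℝ U + k + 1 ≤ (act U).card := card_act_ge hS U le_rfl hm
  have hp : ∀ o ∈ act U, o ∉ Y → o ∉ Z → ∃ o' ∈ act U, o' ∉ insert o Z ∧
      ∀ μ ∈ K U (insert o Z), μ o' = 0 := by
    intro o hoa hoY hoZ
    by_contra hcon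
    refine hno ⟨o, hoa, hoY, hoZ, ?_, ?_, ?_⟩
    · intro i hi
      rcases Finset.mem_insert.1 hi with h | h
      · rw [h]; exact hoa
      · exact hZ.sub h
    · rw [Finset.card_insert_of_notMem hoZ]
      have h1 := kap_insert_of_ne U Z o (hZ.flat o hoa hoZ)
      have h2 := hZ.ind
      omega
    · intro i hi hin
      by_contra hc2
      push Not at hc2
      exact hcon ⟨i, hi, hin, hc2⟩
  have hle : Z.card + (finrank ℝ U - 1 - Z.card) + 1 ≤ finrank ℝ U := by omega
  obtain ⟨F, hFa, -, -, hFk, hFn⟩ := GRDM.chain hY0 hZ hp _ hle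
  have hk1 : kap U F = 1 := by omega
  have hne : K U F ≠ ⊥ := by
    intro hb
    rw [kap, hb] at hk1
    simp at hk1
  obtain ⟨μ, hμ, hμ0⟩ := Submodule.exists_mem_ne_zero_of_ne_bot hne
  have h1 := hS μ hμ.1 hμ0
  have h2 : (univ.filter (fun i => μ i ≠ 0)) ⊆ act U \ F := by
    intro i hi
    have hi0 : μ i ≠ 0 := (Finset.mem_filter.1 hi).2
    rw [Finset.mem_sdiff]
    exact ⟨mem_act.2 ⟨μ, hμ.1, hi0⟩, fun h => hi0 (hμ.2 i h)⟩
  have h3 := Finset.card_le_card h2
  rw [Finset.card_sdiff_of_subset hFa] at h3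
  have h4 := Finset.card_le_card hFa
  omega

end MPa0e17f
end

section
/-!
# Assembly of the linear theorem (part H)
-/
set_option autoImplicit false

namespace MPa0e17f

open Finset Module

theorem finGRZ : SpecGRZ := specGRZ specGIF specGRD
theorem finGMX : SpecGMX := specGMX specGIF finGRZ (specRC2 specPRT specTLK (specGRW specSTP))
theorem finGPA : SpecGPA := specGPA specGIF specTLK
theorem finGHY : SpecGHY := specGHY specGIF finGPA specGCL
theorem finGF0 : SpecGF0 := specGF0 specTLK finGPA specGCL finGHY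
theorem finGDJ : SpecGDJ := specGDJ specGIF specTLK
theorem finGCT : SpecGCT :=
  specGCT specGLS specGIF specTLK finGPA specGCL specGRL finGDJ specGTV
theorem finGSL : SpecGSL := specGSL specGIF finGMX finGF0 finGCT
theorem finHST : SpecHST :=
  specHST specGLS specHWF specHCV (specHRZ specHRD) (specGBA specSTP) (specHCB specGLS)
theorem finHRE : SpecHRE := specHRE specGLS specGCL specHWF finHST specHBS
theorem finHAS : SpecHAS := specHAS finHRE finGSL
theorem finHEX : SpecHEX := specHEX finHRE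

/-- the linear theorem -/
theorem finH : SpecHFN := specHFN finHAS finHEX

end MPa0e17f
end
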