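import Pool.Agent.Lib.MP_a0e17f.T.SpecR

/-!
# RSM: simplicity of the space of dependences
-/

set_option autoImplicit false

namespace MPa0e17f

open Finset Module

namespace RSMM

/-- the linear map whose kernel is the space of the affine dependences -/
noncomputable def depMap {ι : Type} [Fintype ι] {d : ℕ} (p : ι → EuclideanSpace ℝ (Fin d)) :
    (ι → ℝ) →ₗ[ℝ] ℝ × EuclideanSpace ℝ (Fin d) where
  toFun := fun μ => (∑ i, μ i, ∑ i, μ i • p i)
  map_add' := by
    intro a b
    simp only [Pi.add_apply, Finset.sum_add_distrib, add_smul, Prod.mk_add_mk]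
  map_smul' := by
    intro c a
    simp only [Pi.smul_apply, smul_eq_mul, mul_smul, ← Finset.mul_sum, ← Finset.smul_sum,
      RingHom.id_apply, Prod.smul_mk]

theorem depMap_apply {ι : Type} [Fintype ι] {d : ℕ} (p : ι → EuclideanSpace ℝ (Fin d))
    (μ : ι → ℝ) : depMap p μ = (∑ i, μ i, ∑ i, μ i • p i) := rfl

theorem mem_ker_depMap {ι : Type} [Fintype ι] [DecidableEq ι] {d : ℕ}
    (p : ι → EuclideanSpace ℝ (Fin d)) (μ : ι → ℝ) :
    μ ∈ LinearMap.ker (depMap p) ↔ μ ∈ dep p := by
  rw [LinearMap.mem_ker, mem_dep, depMap_apply]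
  exact Prod.mk_eq_zero

theorem depMap_single {ι : Type} [Fintype ι] [DecidableEq ι] {d : ℕ}
    (p : ι → EuclideanSpace ℝ (Fin d)) (q : ι) :
    depMap p (Pi.single q 1) = (1, p q) := by
  rw [depMap_apply]
  congr 1
  · rw [Finset.sum_pi_single', if_pos (Finset.mem_univ q)]
  · rw [Finset.sum_eq_single q]
    · rw [Pi.single_eq_same, one_smul]
    · intro b _ hb
      rw [Pi.single_eq_of_ne hb, zero_smul]
    · intro hc
      exact absurd (Finset.mem_univ q) hc

end RSMM

theorem specRSM : SpecRSM := by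
  intro ι _ _ d p h i _ j _ hij hα
  obtain ⟨α, hα⟩ := hα
  -- the functional
  let φ : Module.Dual ℝ (ι → ℝ) := LinearMap.proj i - α • LinearMap.proj j
  have hφ : φ ∈ (LinearMap.ker (RSMM.depMap p)).dualAnnihilator := by
    rw [Submodule.mem_dualAnnihilator]
    intro μ hμ
    rw [RSMM.mem_ker_depMap] at hμ
    have := hα μ hμ
    show μ i - α * μ j = 0
    rw [this, sub_self]
  rw [← LinearMap.range_dualMap_eq_dualAnnihilator_ker] at hφ
  obtain ⟨g, hg⟩ := hφ
  let f : EuclideanSpace ℝ (Fin d) →ᵃ[ℝ] ℝ :=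
    (g.comp (LinearMap.inr ℝ ℝ (EuclideanSpace ℝ (Fin d)))).toAffineMap +
      AffineMap.const ℝ (EuclideanSpace ℝ (Fin d)) (g (1, 0))
  have hf : ∀ x, f x = g (1, x) := by
    intro x
    have h1 : ((1 : ℝ), x) = (0, x) + (1, 0) := by simp
    rw [h1, map_add]
    rfl
  have hv : ∀ q, f (p q) = (Pi.single q (1 : ℝ) : ι → ℝ) i - α * (Pi.single q (1 : ℝ) : ι → ℝ) j := by
    intro q
    rw [hf, ← RSMM.depMap_single (fun q => p q) q]
    have := LinearMap.congr_fun hg (Pi.single q 1)
    exact this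
  have h3 := h f ⟨i, by
    rw [hv, Pi.single_eq_same, Pi.single_eq_of_ne (Ne.symm hij), mul_zero, sub_zero]
    exact one_ne_zero⟩
  have h4 : (univ.filter (fun q => f (p q) ≠ 0)) ⊆ {i, j} := by
    intro q hq
    rw [Finset.mem_filter] at hq
    rw [Finset.mem_insert, Finset.mem_singleton]
    by_contra hc
    push Not at hc
    refine hq.2 ?_
    rw [hv, Pi.single_eq_of_ne (Ne.symm hc.1), Pi.single_eq_of_ne (Ne.symm hc.2), mul_zero,
      sub_zero]
  have h5 := Finset.card_le_card h4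
  have h6 := Finset.card_le_two (a := i) (b := j)
  omega

end MPa0e17f
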