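import Pool.Agent.Lib.MP_a0e17f.T.SpecL
import Pool.Agent.Lib.MP_a0e17f.T.SpecB

/-!
# Specifications, part R: the removal criterion

THEOREM C. Let `S ⊂ ℝ^d` be finite and `k`-independent. Suppose there are `k + 1` points of `S` such that every point
of `S` is in the affine hull of the remaining points `G`, and stays there if any further point of `G` is removed.
Then `S` is `(2,k)`-divisible. If no hyperplane contains all but at most two points of `S`, the same holds with
`k` points instead of `k + 1`.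

IDEA. `U = dep p`, `m = dim U`. The hypothesis says: some `v ∈ U` has a zero set `Z` (in `act U`) which is independent
(`kap U Z + |Z| = m`) with `|Z| = k + 1` (resp. `k`). Let `A = Pos v`, `B = Neg v`. All sign patterns on `Z` are
possible, so there are topes `(A ∪ T | B ∪ (Z \ T))` for all `T ⊆ Z`. By the partition lemma (matroid partition
for two matroids) either one of them is good or there is `X ⊆ Z` with
`kap U (A ∪ X) + kap U (B ∪ X) ≥ m - k + |Z \ X|`. For `|Z| = k + 1` this contradicts Lemma S; for `|Z| = k` we get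
`K U (A ∪ X) ⊔ K U (B ∪ X) = K U X ∋ v`, so `v = a + b`, and `z = b - a` is positive on `A ∪ B` and `0` on `X`: a tope with an
independent negative side, which can be enlarged.

Files `T/XXX.lean`, `import Pool.Agent.Lib.MP_a0e17f.T.SpecR`, namespace `MPa0e17f`,
`theorem specXXX (hYYY : SpecYYY) .. : SpecXXX`; own lemmas in the namespace `MPa0e17f.XXXM`. No double
quotes in files please.
-/

set_option autoImplicit false

namespace MPa0e17f

open Finset Module

/-- **PRT** [100 lines]. Partition lemma.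
PROOF. Induction on `Z` (for all `A`, `B`). `Z = ∅`: `T = X = ∅`. Step `insert e Z`, `e ∉ Z`: the induction hypothesis for
`(insert e A, B)` gives `T1, X1 ⊆ Z`, for `(A, insert e B)` it gives `T2, X2 ⊆ Z`. Write `F Y = kap U (A ∪ Y)`,
`G Y = kap U (B ∪ Y)`, `c1 = F (insert e T1) + G (Z \ T1)`, `c2 = F T2 + G (insert e (Z \ T2))` (the values of
`T = insert e T1` and `T = T2` for `insert e Z`). So `c1 + |Z \ X1| ≤ F (insert e X1) + G X1`,
`c2 + |Z \ X2| ≤ F X2 + G (insert e X2)`. Supermodularity (`dim (K U S ⊓ K U T) + dim (K U S ⊔ K U T)`, and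
`K U S ⊔ K U T ≤ K U (S ∩ T)`): `F (insert e X1) + F X2 ≤ F (insert e (X1 ∪ X2)) + F (X1 ∩ X2)`, the same for `G`. Let
`Y1 = insert e (X1 ∪ X2)`, `Y2 = X1 ∩ X2`; `|insert e Z \ Y1| = |Z \ (X1 ∪ X2)|`,
`|insert e Z \ Y2| = |Z \ (X1 ∩ X2)| + 1`. Adding: `c1 + c2 ≤ val Y1 + val Y2 + 1` with
`val Y = F Y + G Y - |insert e Z \ Y|` (integers). So `min c1 c2 ≤ val Y1` or `min c1 c2 ≤ val Y2`. -/
def SpecPRT : Prop := ∀ (ι : Type) [Fintype ι] [DecidableEq ι] (U : Submodule ℝ (ι → ℝ))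
  (Z A B : Finset ι), ∃ T ⊆ Z, ∃ X ⊆ Z,
    kap U (A ∪ T) + kap U (B ∪ (Z \ T)) + (Z \ X).card ≤ kap U (A ∪ X) + kap U (B ∪ X)

/-- **RC1** [150 lines]. The linear criterion with `k + 1` zeros. (hyps: PRT, TLK)
PROOF. Suppose `¬ Good k U`. `A = Pos v`, `B = Neg v`, `act U = A ∪ B ∪ Z`. For every `T ⊆ Z` there is `s ∈ U` with `s = 1` on
`T` and `s = -1` on `Z \ T`: the evaluation `U → (Z → ℝ)` is surjective because its kernel has dimension
`kap U Z = m - |Z|`. Nudge `v` by `s` (`finish` in `Par.lean` with `A ∪ T`, `B ∪ (Z \ T)`):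
`m < kap U (A ∪ T) + kap U (B ∪ (Z \ T)) + (k + 1)`. With `T`, `X` from PRT:
`kap U (A ∪ X) + kap U (B ∪ X) ≥ m - k + |Z \ X| = m + 1 - |X|` (`|Z| = k + 1`). `X` is independent (TLK (3)):
`kap U X = m - |X|`. `K U (A ∪ X) ⊔ K U (B ∪ X) ≤ K U X`, so `W = K U (A ∪ X) ⊓ K U (B ∪ X)` has dimension
`w ≥ 1`. Lemma S (`card_act_ge`): `|act W| ≥ w + k + 1 ≥ k + 2`. But `act W ⊆ Z \ X` has at most `k + 1` elements. -/
def SpecRC1 : Prop := ∀ (ι : Type) [Fintype ι] [DecidableEq ι] (k : ℕ) (U : Submodule ℝ (ι → ℝ))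
  (v : ι → ℝ) (Z : Finset ι), HS k U → v ∈ U → (∀ i, i ∈ Z ↔ i ∈ act U ∧ v i = 0) →
  kap U Z + Z.card = finrank ℝ U → Z.card = k + 1 → Good k U

/-- **RC2** [250 lines]. The linear criterion with `k` zeros for `Simple` spaces. (hyps: PRT, TLK, STP)
PROOF. Suppose `¬ Good k U`. As in RC1, with `|Z| = k`: `kap U (A ∪ X) + kap U (B ∪ X) ≥ m - |X| = kap U X`.
`W = K U (A ∪ X) ⊓ K U (B ∪ X)`: `act W ⊆ Z \ X` has at most `k` elements, so `W = 0` by Lemma S. So
`K U (A ∪ X) ⊔ K U (B ∪ X) = K U X ∋ v` (dimensions). Write `v = a + b`, `a = 0` on `A ∪ X`, `b = 0` on `B ∪ X`, and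
`z = b - a ∈ U`: on `A` `z = b = v > 0`, on `B` `z = -a = -v > 0`, on `X` `z = 0`. Nudge `z` by a nowhere zero element of
`U`: a tope `y` with `A ∪ B ⊆ Pos y`, so `Neg y ⊆ Z` is independent (TLK (3)). CLAIM: if there is a tope `y` with an
independent negative side then `Good k U` (`HC`, `Simple`, `k + 1 ≤ m`). Take such a `y` with the maximal `|Neg y|`. If
`kap U (Neg y) ≥ 1` let `φ ≠ 0` be in `K U (Neg y)`; `φ` is negative somewhere (`HC`), at an element of `Pos y`. STP from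
`y` in the direction `φ`: `Z = {x}` (`Simple`), `x ∈ Pos y`, `φ x < 0`; the new negative side `insert x (Neg y)` is
independent (`kap_insert_of_ne`), a contradiction. So `kap U (Neg y) = 0`, `|Neg y| = m`. `W = K U (Pos y)` has
`act W ⊆ Neg y` (`m` elements), so by Lemma S `dim W + k + 1 ≤ m` or `dim W = 0`: `Good`. -/
def SpecRC2 : Prop := ∀ (ι : Type) [Fintype ι] [DecidableEq ι] (k : ℕ) (U : Submodule ℝ (ι → ℝ))
  (v : ι → ℝ) (Z : Finset ι), HS k U → HC U → Simple U → k + 1 ≤ finrank ℝ U → v ∈ U →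
  (∀ i, i ∈ Z ↔ i ∈ act U ∧ v i = 0) → kap U Z + Z.card = finrank ℝ U → Z.card = k → Good k U

/-- **RTR** [250 lines]. Translation: `G ⊆ ι` is the set of the remaining points.
PROOF. `U = dep p`. (1) For `q ∈ G` the point `p q` is an affine combination of the points `p i`, `i ∈ G.erase q`: this
gives `μ ∈ U` with `μ q = 1` (or `-1`), `μ = 0` outside `G`. `exists_generic` for `K U Gᶜ`: `v ∈ U`, `v = 0` outside `G`,
`v i ≠ 0` for `i ∈ G`. (2) For `q ∉ G` `p q` is an affine combination of the points of `G.erase i0` (`i0 ∈ G` any element),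
so there is `μ ∈ U` with `μ q = 1` and `μ = 0` on `Gᶜ.erase q`. So `act U = univ`, and all values on `Gᶜ` can be prescribed
in `U`, so `kap U Gᶜ + |Gᶜ| = dim U` (as IVK). -/
def SpecRTR : Prop := ∀ (ι : Type) [Fintype ι] [DecidableEq ι] (d : ℕ)
  (p : ι ↪ EuclideanSpace ℝ (Fin d)) (G : Finset ι), G.Nonempty →
  (∀ q ∈ G, ∀ i, p i ∈ affineSpan ℝ (p '' ((G.erase q : Finset ι) : Set ι))) →
  act (dep p) = univ ∧ kap (dep p) Gᶜ + (Gᶜ).card = finrank ℝ (dep p) ∧
  ∃ v ∈ dep p, ∀ i, v i = 0 ↔ i ∉ G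

/-- **RSM** [200 lines]. Simplicity of the space of dependences.
PROOF. `dep p` is the set of all `μ` with `∑ μ q * f (p q) = 0` for all affine functionals `f : ℝ^d → ℝ`, i.e. the
orthogonal complement (for the standard bilinear form of `ℝ^ι`) of the subspace `V = {(f (p q))_q : f affine}`.
Suppose `μ i = α μ j` for all `μ ∈ dep p`, `i ≠ j`. Then `e_i - α e_j` is orthogonal to `dep p = Vᗮ`, so it is in `V`
(finite dimension): `f (p i) = 1`, `f (p j) = -α`, `f (p q) = 0` for all other `q`. So `f` is not `0` at some point, but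
nonzero at at most two points: a contradiction. -/
def SpecRSM : Prop := ∀ (ι : Type) [Fintype ι] [DecidableEq ι] (d : ℕ)
  (p : ι ↪ EuclideanSpace ℝ (Fin d)),
  (∀ f : EuclideanSpace ℝ (Fin d) →ᵃ[ℝ] ℝ, (∃ i, f (p i) ≠ 0) →
    3 ≤ (univ.filter (fun i => f (p i) ≠ 0)).card) → Simple (dep p)

end MPa0e17f
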