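import Pool.Agent.Lib.MP_a0e17f.T.SpecL
import Pool.Agent.Lib.MP_a0e17f.T.SpecR

section
/-!
# BLK: large forests in subgraphs of `K_{3,3}`
-/
set_option autoImplicit false

namespace MPa0e17f

open Finset Module

theorem specBLK : SpecBLK := by
  classical
  intro T hT
  -- a row with the largest number of elements
  obtain ⟨i0, -, hmax⟩ := Finset.exists_max_image (univ : Finset (Fin 3))
    (fun i => (T.filter fun p => p.1 = i).card) univ_nonempty
  have hch : ∀ i : Fin 3, ∃ l : Fin 3, (T.filter fun p => p.1 = i).Nonempty → (i, l) ∈ T := by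
    intro i
    by_cases h : (T.filter fun p => p.1 = i).Nonempty
    · obtain ⟨⟨a, b⟩, hp⟩ := h
      rw [mem_filter] at hp
      obtain ⟨h1, h2⟩ := hp
      simp only at h2
      subst h2
      exact ⟨b, fun _ => h1⟩
    · exact ⟨0, fun h' => absurd h' h⟩
  choose c hc using hch
  refine ⟨T.filter fun p => p.1 = i0 ∨ p.2 = c p.1, filter_subset _ _, ?_, ?_⟩
  · set F := T.filter fun p => p.1 = i0 ∨ p.2 = c p.1 with hF
    set rT : Fin 3 → ℕ := fun i => (T.filter fun p => p.1 = i).card with hrT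
    set rF : Fin 3 → ℕ := fun i => (F.filter fun p => p.1 = i).card with hrF
    have h1 : T.card = rT 0 + rT 1 + rT 2 := by
      rw [Finset.card_eq_sum_card_fiberwise (f := fun p : Fin 3 × Fin 3 => p.1) (t := univ)
        (fun _ _ => mem_univ _), Fin.sum_univ_three]
    have h2 : F.card = rF 0 + rF 1 + rF 2 := by
      rw [Finset.card_eq_sum_card_fiberwise (f := fun p : Fin 3 × Fin 3 => p.1) (t := univ)
        (fun _ _ => mem_univ _), Fin.sum_univ_three]
    have h3 : rF i0 = rT i0 := by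
      simp only [hrF, hrT, hF]
      congr 1
      ext p
      simp only [mem_filter]
      constructor
      · rintro ⟨⟨h, -⟩, h'⟩
        exact ⟨h, h'⟩
      · rintro ⟨h, h'⟩
        exact ⟨⟨h, Or.inl h'⟩, h'⟩
    have h4 : ∀ i, rT i = 0 ∨ 1 ≤ rF i := by
      intro i
      by_cases h : (T.filter fun p => p.1 = i).Nonempty
      · right
        refine Finset.card_pos.2 ⟨(i, c i), ?_⟩
        rw [mem_filter, hF, mem_filter]
        exact ⟨⟨hc i h, Or.inr rfl⟩, rfl⟩
      · left
        rw [Finset.not_nonempty_iff_eq_empty] at h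
        simp only [hrT, h, Finset.card_empty]
    have h5 : ∀ i, rT i ≤ rT i0 := fun i => hmax i (mem_univ i)
    have h6 : rT i0 ≤ 3 := by
      have h7 : (T.filter fun p => p.1 = i0) ⊆ (univ : Finset (Fin 3)).image fun l => (i0, l) := by
        rintro ⟨a, b⟩ hp
        rw [mem_filter] at hp
        obtain ⟨-, hp2⟩ := hp
        simp only at hp2
        subst hp2
        exact mem_image.2 ⟨b, mem_univ b, rfl⟩
      exact (card_le_card h7).trans (card_image_le.trans (by simp))
    have h7 : 1 ≤ T.card := Finset.card_pos.2 hT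
    have g0 := h4 0
    have g1 := h4 1
    have g2 := h4 2
    have k0 := h5 0
    have k1 := h5 1
    have k2 := h5 2
    rw [h1, h2]
    rw [h1] at h7
    fin_cases i0 <;> simp only [Fin.zero_eta, Fin.mk_one, Fin.reduceFinMk] at h3 h6 k0 k1 k2 <;>
      omega
  · intro g
    refine ⟨fun i => if i = i0 then 0 else g i (c i) - g i0 (c i), fun l => - g i0 l, ?_⟩
    intro i l hil
    rw [mem_filter] at hil
    obtain ⟨-, h⟩ := hil
    simp only at h
    change (if i = i0 then (0 : ℝ) else g i (c i) - g i0 (c i)) - (- g i0 l) = g i l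
    by_cases hi : i = i0
    · rw [if_pos hi, hi]
      ring
    · rw [if_neg hi]
      rcases h with h | h
      · exact absurd h hi
      · rw [h]
        ring

end MPa0e17f
end

section
/-!
# CRI: the converse of `divisible_of_good`
-/
set_option autoImplicit false
set_option linter.unusedSectionVars false
set_option linter.unusedFintypeInType false
set_option linter.unusedDecidableInType false

open Finset Module

namespace MPa0e17f

namespace CRIM

section general

variable {E : Type*} [AddCommGroup E] [Module ℝ E]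
variable {ι : Type*} [Fintype ι] [DecidableEq ι]

/-- a divisible set splits as `A`, `Aᶜ` -/
lemma split {k : ℕ} (p : ι ↪ E) (h : Divisible k (univ.map p)) :
    ∃ A : Finset ι, (convexHull ℝ ((A.map p : Finset E) : Set E) ∩
      convexHull ℝ ((Aᶜ.map p : Finset E) : Set E)).Nonempty ∧
      k ≤ finrank ℝ (vectorSpan ℝ (convexHull ℝ ((A.map p : Finset E) : Set E) ∩
        convexHull ℝ ((Aᶜ.map p : Finset E) : Set E))) := by
  classical
  obtain ⟨S₁, S₂, hd, hu, hne, hf⟩ := h
  have hu' : S₁ ∪ S₂ = univ.map p := by rw [← Finset.coe_inj, Finset.coe_union]; exact hu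
  set A : Finset ι := univ.filter (fun i => p i ∈ S₁) with hA
  have hS1 : S₁ = A.map p := by
    ext x
    constructor
    · intro hx
      have : x ∈ univ.map p := by rw [← hu']; exact Finset.mem_union_left _ hx
      obtain ⟨i, -, rfl⟩ := Finset.mem_map.1 this
      exact Finset.mem_map_of_mem p (Finset.mem_filter.2 ⟨Finset.mem_univ i, hx⟩)
    · intro hx
      obtain ⟨i, hi, rfl⟩ := Finset.mem_map.1 hx
      exact (Finset.mem_filter.1 hi).2
  have hS2 : S₂ = Aᶜ.map p := by
    ext x
    constructor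
    · intro hx
      have : x ∈ univ.map p := by rw [← hu']; exact Finset.mem_union_right _ hx
      obtain ⟨i, -, rfl⟩ := Finset.mem_map.1 this
      refine Finset.mem_map_of_mem p (Finset.mem_compl.2 ?_)
      intro hc
      exact Finset.disjoint_left.1 hd (Finset.mem_filter.1 hc).2 hx
    · intro hx
      obtain ⟨i, hi, rfl⟩ := Finset.mem_map.1 hx
      have h1 : p i ∈ S₁ ∪ S₂ := by rw [hu']; exact Finset.mem_map_of_mem p (Finset.mem_univ i)
      rcases Finset.mem_union.1 h1 with h2 | h2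
      · exact absurd (Finset.mem_filter.2 ⟨Finset.mem_univ i, h2⟩) (Finset.mem_compl.1 hi)
      · exact h2
  rw [hS1, hS2] at hf hne
  exact ⟨A, hne, hf⟩

/-- the polytope of the representations -/
def HH (p : ι → E) (A : Finset ι) : Set (ι → ℝ) :=
  {c | c ∈ dep p ∧ (∀ i ∈ A, 0 ≤ c i) ∧ (∀ i ∉ A, c i ≤ 0) ∧ sumOn A c = 1}

lemma hrep (p : ι ↪ E) (A : Finset ι) (x : E)
    (hx : x ∈ convexHull ℝ ((A.map p : Finset E) : Set E) ∩
      convexHull ℝ ((Aᶜ.map p : Finset E) : Set E)) :
    ∃ c ∈ HH (p : ι → E) A, psi p A c = x := by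
  obtain ⟨hx1, hx2⟩ := hx
  rw [Finset.mem_convexHull'] at hx1 hx2
  obtain ⟨a, ha0, ha1, ha2⟩ := hx1
  obtain ⟨b, hb0, hb1, hb2⟩ := hx2
  rw [Finset.sum_map] at ha1 ha2 hb1 hb2
  refine ⟨fun i => if i ∈ A then a (p i) else -b (p i), ⟨⟨?_, ?_⟩, ?_, ?_, ?_⟩, ?_⟩
  · rw [← Finset.sum_add_sum_compl A]
    rw [Finset.sum_congr rfl (fun i hi => if_pos hi), ha1,
      Finset.sum_congr rfl (fun i hi => if_neg (Finset.mem_compl.1 hi)),
      Finset.sum_neg_distrib, hb1]
    norm_num
  · rw [← Finset.sum_add_sum_compl A]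
    have e1 : ∑ i ∈ A, (if i ∈ A then a (p i) else -b (p i)) • p i = x := by
      rw [← ha2]
      exact Finset.sum_congr rfl (fun i hi => by rw [if_pos hi])
    have e2 : ∑ i ∈ Aᶜ, (if i ∈ A then a (p i) else -b (p i)) • p i = -x := by
      rw [← hb2, ← Finset.sum_neg_distrib]
      exact Finset.sum_congr rfl (fun i hi => by rw [if_neg (Finset.mem_compl.1 hi), neg_smul])
    rw [e1, e2, add_neg_cancel]
  · intro i hi
    simp only [if_pos hi]
    exact ha0 _ (Finset.mem_map_of_mem p hi)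
  · intro i hi
    simp only [if_neg hi]
    have := hb0 _ (Finset.mem_map_of_mem p (Finset.mem_compl.2 hi))
    linarith
  · rw [sumOn_apply, Finset.sum_congr rfl (fun i hi => if_pos hi), ha1]
  · rw [psi_apply, ← ha2]
    exact Finset.sum_congr rfl (fun i hi => by rw [if_pos hi])

open Classical in
/-- the support -/
noncomputable def supp (c : ι → ℝ) : Finset ι := univ.filter (fun i => c i ≠ 0)

lemma mem_supp {c : ι → ℝ} {i : ι} : i ∈ supp c ↔ c i ≠ 0 := by simp [supp]

/-- an element of maximal support -/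
lemma exists_max {p : ι → E} {A : Finset ι} (hne : (HH p A).Nonempty) :
    ∃ l ∈ HH p A, ∀ c ∈ HH p A, (supp c).card ≤ (supp l).card := by
  classical
  obtain ⟨c0, hc0⟩ := hne
  have hex : ∃ n, ∃ c ∈ HH p A, Fintype.card ι - (supp c).card = n := ⟨_, c0, hc0, rfl⟩
  obtain ⟨l, hl, hn⟩ := Nat.find_spec hex
  refine ⟨l, hl, fun c hc => ?_⟩
  have h1 : Nat.find hex ≤ Fintype.card ι - (supp c).card := Nat.find_min' hex ⟨c, hc, rfl⟩
  have h2 := Finset.card_le_univ (supp c)
  have h3 := Finset.card_le_univ (supp l)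
  omega

lemma zero_of_max {p : ι → E} {A : Finset ι} {l : ι → ℝ} (hl : l ∈ HH p A)
    (hmax : ∀ c ∈ HH p A, (supp c).card ≤ (supp l).card) {c : ι → ℝ} (hc : c ∈ HH p A) {i : ι}
    (hi : l i = 0) : c i = 0 := by
  classical
  by_contra hne
  obtain ⟨l1, l2, l3, l4⟩ := hl
  obtain ⟨c1, c2, c3, c4⟩ := hc
  set m : ι → ℝ := (2⁻¹ : ℝ) • (l + c) with hm
  have hmj : ∀ j, m j = 2⁻¹ * (l j + c j) := fun j => rfl
  have hmH : m ∈ HH p A := by
    refine ⟨(dep p).smul_mem _ ((dep p).add_mem l1 c1), ?_, ?_, ?_⟩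
    · intro j hj
      rw [hmj]
      have := l2 j hj
      have := c2 j hj
      linarith
    · intro j hj
      rw [hmj]
      have := l3 j hj
      have := c3 j hj
      linarith
    · rw [hm, map_smul, map_add, l4, c4]
      norm_num
  have hzero : ∀ j, m j = 0 → l j = 0 ∧ c j = 0 := by
    intro j hj
    rw [hmj] at hj
    by_cases hjA : j ∈ A
    · have h1 := l2 j hjA
      have h2 := c2 j hjA
      constructor <;> linarith
    · have h1 := l3 j hjA
      have h2 := c3 j hjA
      constructor <;> linarith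
  have hsub : insert i (supp l) ⊆ supp m := by
    intro j hj
    rw [mem_supp]
    intro h0
    obtain ⟨h1, h2⟩ := hzero j h0
    rcases Finset.mem_insert.1 hj with rfl | hj
    · exact hne h2
    · exact mem_supp.1 hj h1
  have h1 := Finset.card_le_card hsub
  rw [Finset.card_insert_of_notMem (fun h => mem_supp.1 h hi)] at h1
  have h2 := hmax m hmH
  omega

/-- contraction of several coordinates -/
lemma contract_all {k : ℕ} (U : Submodule ℝ (ι → ℝ)) (Z : Finset ι) (h : Good k (K U Z)) :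
    Good k U := by
  induction Z using Finset.induction_on with
  | empty => rwa [K_empty] at h
  | insert i Z _ ih =>
    apply ih
    have e1 : K U (insert i Z) = K (K U Z) {i} := by
      rw [K_K, Finset.union_comm, ← Finset.insert_eq]
    rw [e1] at h
    by_cases hi : i ∈ act (K U Z)
    · exact contract hi h
    · have e2 : K (K U Z) {i} = K U Z := by
        apply le_antisymm (K_le _ _)
        intro μ hμ
        refine ⟨hμ, fun j hj => ?_⟩
        rw [Finset.mem_singleton.1 hj]
        exact not_act hi hμ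
      rwa [e2] at h

/-- the main count -/
lemma good_K {k : ℕ} [FiniteDimensional ℝ E] (p : ι ↪ E) (A : Finset ι)
    (hne : (convexHull ℝ ((A.map p : Finset E) : Set E) ∩
      convexHull ℝ ((Aᶜ.map p : Finset E) : Set E)).Nonempty)
    (hk : k ≤ finrank ℝ (vectorSpan ℝ (convexHull ℝ ((A.map p : Finset E) : Set E) ∩
        convexHull ℝ ((Aᶜ.map p : Finset E) : Set E)))) :
    ∃ Z : Finset ι, Good k (K (dep (p : ι → E)) Z) := by
  classical
  set C : Set E := convexHull ℝ ((A.map p : Finset E) : Set E) ∩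
      convexHull ℝ ((Aᶜ.map p : Finset E) : Set E) with hC
  obtain ⟨x0, hx0⟩ := hne
  obtain ⟨c0, hc0, -⟩ := hrep p A x0 hx0
  obtain ⟨l, hl, hmax⟩ := exists_max ⟨c0, hc0⟩
  set Z : Finset ι := univ.filter (fun i => l i = 0) with hZ
  have hmZ : ∀ i, i ∈ Z ↔ l i = 0 := fun i => by simp [hZ]
  set U1 : Submodule ℝ (ι → ℝ) := K (dep (p : ι → E)) Z with hU1
  have hHU : ∀ c ∈ HH (p : ι → E) A, c ∈ U1 := fun c hc =>
    ⟨hc.1, fun i hi => zero_of_max hl hmax hc ((hmZ i).1 hi)⟩
  have hlU : l ∈ U1 := hHU l hl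
  set W : Submodule ℝ (ι → ℝ) := U1 ⊓ LinearMap.ker (sumOn A) with hW
  have h1 : vectorSpan ℝ C ≤ W.map (psi p A) := by
    rw [vectorSpan_def, Submodule.span_le]
    rintro _ ⟨x, hx, y, hy, rfl⟩
    obtain ⟨c, hc, hc2⟩ := hrep p A x hx
    obtain ⟨c', hc', hc2'⟩ := hrep p A y hy
    refine ⟨c - c', ⟨U1.sub_mem (hHU c hc) (hHU c' hc'), ?_⟩, ?_⟩
    · rw [SetLike.mem_coe, LinearMap.mem_ker, map_sub, hc.2.2.2, hc'.2.2.2, sub_self]
    · rw [map_sub, hc2, hc2']; rfl
  have h2 : W < U1 := by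
    refine lt_of_le_of_ne inf_le_left ?_
    intro he
    have h3 : l ∈ W := by rw [he]; exact hlU
    have h4 := LinearMap.mem_ker.1 h3.2
    rw [hl.2.2.2] at h4
    norm_num at h4
  have h3 := Submodule.finrank_lt_finrank_of_lt h2
  have h5 : finrank ℝ (vectorSpan ℝ C) ≤ finrank ℝ (W.map (psi p A)) := Submodule.finrank_mono h1
  -- coordinates of the elements of the two kernels
  have hz1 : ∀ c ∈ K U1 (Pos l), ∀ i ∈ A, c i = 0 := by
    intro c hc i hi
    rcases (hl.2.1 i hi).lt_or_eq with h | h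
    · exact hc.2 i (mem_Pos.2 h)
    · exact hc.1.2 i ((hmZ i).2 h.symm)
  have hz2 : ∀ c ∈ K U1 (Neg l), ∀ i ∉ A, c i = 0 := by
    intro c hc i hi
    rcases (hl.2.2.1 i hi).lt_or_eq with h | h
    · exact hc.2 i (mem_Neg.2 h)
    · exact hc.1.2 i ((hmZ i).2 h)
  have hk1 : K U1 (Pos l) ≤ W ⊓ LinearMap.ker (psi p A) := by
    intro c hc
    refine ⟨⟨hc.1, ?_⟩, ?_⟩
    · rw [SetLike.mem_coe, LinearMap.mem_ker, sumOn_apply]
      exact Finset.sum_eq_zero (hz1 c hc)
    · rw [SetLike.mem_coe, LinearMap.mem_ker, psi_apply]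
      exact Finset.sum_eq_zero fun i hi => by rw [hz1 c hc i hi, zero_smul]
  have hk2 : K U1 (Neg l) ≤ W ⊓ LinearMap.ker (psi p A) := by
    intro c hc
    have hcd : c ∈ dep (p : ι → E) := hc.1.1
    refine ⟨⟨hc.1, ?_⟩, ?_⟩
    · rw [SetLike.mem_coe, LinearMap.mem_ker, sumOn_apply, ← hcd.1]
      exact Finset.sum_subset (Finset.subset_univ A) fun i _ hi => hz2 c hc i hi
    · rw [SetLike.mem_coe, LinearMap.mem_ker, psi_apply, ← hcd.2]
      exact Finset.sum_subset (Finset.subset_univ A) fun i _ hi => by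
        rw [hz2 c hc i hi, zero_smul]
  have hdis : K U1 (Pos l) ⊓ K U1 (Neg l) = ⊥ := by
    rw [eq_bot_iff]
    intro c hc
    rw [Submodule.mem_bot]
    ext i
    by_cases hi : i ∈ A
    · exact hz1 c hc.1 i hi
    · exact hz2 c hc.2 i hi
  have h6 := Submodule.finrank_sup_add_finrank_inf_eq (K U1 (Pos l)) (K U1 (Neg l))
  rw [hdis, finrank_bot, add_zero] at h6
  have h7 : finrank ℝ ↥(K U1 (Pos l) ⊔ K U1 (Neg l)) ≤
      finrank ℝ ↥(W ⊓ LinearMap.ker (psi p A)) := Submodule.finrank_mono (sup_le hk1 hk2)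
  -- rank and nullity
  have h8 : finrank ℝ (W.map (psi p A)) + finrank ℝ ↥(W ⊓ LinearMap.ker (psi p A)) =
      finrank ℝ W := by
    have e1 := ((psi p A).domRestrict W).finrank_range_add_finrank_ker
    have e2 : LinearMap.range ((psi p A).domRestrict W) = W.map (psi p A) := by
      ext x
      constructor
      · rintro ⟨c, rfl⟩
        exact ⟨c.1, c.2, rfl⟩
      · rintro ⟨c, hc, rfl⟩
        exact ⟨⟨c, hc⟩, rfl⟩
    have e3 : (LinearMap.ker ((psi p A).domRestrict W)).map W.subtype =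
        W ⊓ LinearMap.ker (psi p A) := by
      ext x
      constructor
      · rintro ⟨c, hc, rfl⟩
        exact ⟨c.2, hc⟩
      · rintro ⟨hc, hc'⟩
        exact ⟨⟨x, hc⟩, hc', rfl⟩
    rw [e2] at e1
    rw [← e3, Submodule.finrank_map_subtype_eq]
    exact e1
  refine ⟨Z, l, hlU, ?_, ?_⟩
  · intro i hi h0
    obtain ⟨μ, hμ, hne⟩ := mem_act.1 hi
    exact hne (hμ.2 i ((hmZ i).2 h0))
  · change kap U1 (Pos l) + kap U1 (Neg l) + (k + 1) ≤ finrank ℝ U1
    unfold kap
    omega

end general

end CRIM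

open CRIM in
/-- CRI -/
theorem specCRI : SpecCRI := by
  intro ι _ _ d k p h
  obtain ⟨A, hne, hk⟩ := split p h
  obtain ⟨Z, hZ⟩ := good_K p A hne hk
  exact contract_all _ Z hZ

end MPa0e17f
end

section
/-! # Module FR1: a large set of coordinates contains `m` freely independent ones -/
set_option autoImplicit false

namespace MPa0e17f

open Finset Module

namespace FR1M

variable {x D S : ℕ}

/-- free independence passes to subsets -/
lemma FI_mono {F F' : Finset (JX x D S)} (h : F ⊆ F') (hF : FI x D S F') : FI x D S F := by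
  refine ⟨fun b g => ?_, fun c hc => hF.2 c ⟨h hc.1, h hc.2⟩⟩
  obtain ⟨α, β, hαβ⟩ := hF.1 b g
  exact ⟨α, β, fun i l hil => hαβ i l (h hil)⟩

open Classical in
/-- the part of `A` in the block `b` -/
noncomputable def blk (A : Finset (JX x D S)) (b : Fin x) : Finset (Fin 3 × Fin 3) :=
  univ.filter fun p => (Sum.inl (b, p) : JX x D S) ∈ A

open Classical in
/-- the part of `A` in the double `c` -/
noncomputable def dbl (A : Finset (JX x D S)) (c : Fin D) : Finset Bool :=
  univ.filter fun t => (Sum.inr (Sum.inl (c, t)) : JX x D S) ∈ A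

open Classical in
/-- the singles in `A` -/
noncomputable def sgl (A : Finset (JX x D S)) : Finset (Fin S) :=
  univ.filter fun s => (Sum.inr (Sum.inr s) : JX x D S) ∈ A

lemma card_split (A : Finset (JX x D S)) :
    A.card = (∑ b, (blk A b).card) + ((∑ c, (dbl A c).card) + (sgl A).card) := by
  classical
  have h1 : A.card = ∑ a : JX x D S, if a ∈ A then 1 else 0 := by
    rw [Finset.sum_boole, Nat.cast_id]
    congr 1
    ext a
    simp
  rw [h1, Fintype.sum_sum_type, Fintype.sum_sum_type, Fintype.sum_prod_type,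
    Fintype.sum_prod_type]
  congr 1
  · refine Finset.sum_congr rfl fun b _ => ?_
    rw [Finset.sum_boole, Nat.cast_id, blk]
  · congr 1
    · refine Finset.sum_congr rfl fun c _ => ?_
      rw [Finset.sum_boole, Nat.cast_id, dbl]
    · rw [Finset.sum_boole, Nat.cast_id, sgl]

end FR1M

open FR1M in
theorem specFR1 (hBLK : SpecBLK) : SpecFR1 := by
  classical
  intro x D S m j hj hx hD T hT
  -- the part in the blocks
  have hB : ∀ b : Fin x, ∃ G : Finset (Fin 3 × Fin 3), G ⊆ blk T b ∧
      (blk T b).card + (if (blk T b).Nonempty then 1 else 0) ≤ 2 * G.card ∧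
      ∀ g : Fin 3 → Fin 3 → ℝ, ∃ α β : Fin 3 → ℝ, ∀ i l, (i, l) ∈ G → α i - β l = g i l := by
    intro b
    by_cases h : (blk T b).Nonempty
    · obtain ⟨G, h1, h2, h3⟩ := hBLK _ h
      exact ⟨G, h1, by rw [if_pos h]; exact h2, h3⟩
    · refine ⟨∅, empty_subset _, ?_, ?_⟩
      · rw [if_neg h, not_nonempty_iff_eq_empty.1 h]
        simp
      · intro g
        exact ⟨0, 0, by simp⟩
  choose G hG1 hG2 hG3 using hB
  -- the set `F0`
  set F0 : Finset (JX x D S) := T.filter (fun a => match a with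
    | Sum.inl (b, p) => p ∈ G b
    | Sum.inr (Sum.inl (c, t)) => t = true ∨ (Sum.inr (Sum.inl (c, true)) : JX x D S) ∉ T
    | Sum.inr (Sum.inr _) => True) with hF0
  have hb : ∀ b, blk F0 b = G b := by
    intro b
    ext p
    simp only [blk, hF0, mem_filter, mem_univ, true_and]
    constructor
    · exact fun h => h.2
    · intro h
      have := hG1 b h
      rw [blk, mem_filter] at this
      exact ⟨this.2, h⟩
  have hd : ∀ c, (dbl T c).card ≤ 2 * (dbl F0 c).card := by
    intro c
    by_cases h : (dbl T c).Nonempty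
    · have h1 : (dbl F0 c).Nonempty := by
        by_cases ht : (Sum.inr (Sum.inl (c, true)) : JX x D S) ∈ T
        · refine ⟨true, ?_⟩
          rw [dbl, mem_filter, hF0, mem_filter]
          exact ⟨mem_univ _, ht, Or.inl rfl⟩
        · obtain ⟨t, h2⟩ := h
          refine ⟨t, ?_⟩
          rw [dbl, mem_filter] at h2
          rw [dbl, mem_filter, hF0, mem_filter]
          exact ⟨mem_univ _, h2.2, Or.inr ht⟩
      have h2 : (dbl T c).card ≤ 2 := by
        have := card_le_univ (dbl T c)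
        simpa using this
      have h3 := card_pos.2 h1
      omega
    · rw [not_nonempty_iff_eq_empty.1 h]
      simp
  have hs : sgl F0 = sgl T := by
    ext s
    simp only [sgl, hF0, mem_filter, mem_univ, true_and, and_true]
  -- counting
  set q : ℕ := ∑ b : Fin x, (if (blk T b).Nonempty then 1 else 0) with hq
  set σ : ℕ := (sgl T).card with hσ
  have e1 : T.card + q + σ ≤ 2 * F0.card := by
    rw [card_split T, card_split F0, hs]
    have h1 : (∑ b, (blk T b).card) + q ≤ 2 * ∑ b, (blk F0 b).card := by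
      rw [hq, ← Finset.sum_add_distrib, Finset.mul_sum]
      exact Finset.sum_le_sum fun b _ => by rw [hb b]; exact hG2 b
    have h2 : (∑ c, (dbl T c).card) ≤ 2 * ∑ c, (dbl F0 c).card := by
      rw [Finset.mul_sum]
      exact Finset.sum_le_sum fun c _ => hd c
    omega
  have e2 : T.card ≤ 9 * q + 2 * D + σ := by
    rw [card_split T]
    have h1 : (∑ b, (blk T b).card) ≤ 9 * q := by
      rw [hq, Finset.mul_sum]
      refine Finset.sum_le_sum fun b _ => ?_
      by_cases h : (blk T b).Nonempty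
      · rw [if_pos h]
        have := card_le_univ (blk T b)
        simpa using this
      · rw [if_neg h, not_nonempty_iff_eq_empty.1 h]
        simp
    have h2 : (∑ c, (dbl T c).card) ≤ 2 * D := by
      calc (∑ c, (dbl T c).card) ≤ ∑ _c : Fin D, 2 := Finset.sum_le_sum fun c _ => by
            have := card_le_univ (dbl T c)
            simpa using this
        _ = 2 * D := by simp [mul_comm]
    omega
  have e3 : m ≤ F0.card := by
    by_contra hc
    omega
  obtain ⟨F, hF1, hF2⟩ := exists_subset_card_eq e3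
  refine ⟨F, hF1.trans (filter_subset _ _), hF2, FI_mono hF1 ⟨?_, ?_⟩⟩
  · intro b g
    obtain ⟨α, β, h⟩ := hG3 b g
    refine ⟨α, β, fun i l hil => h i l ?_⟩
    rw [hF0, mem_filter] at hil
    exact hil.2
  · rintro c ⟨h1, h2⟩
    rw [hF0, mem_filter] at h1 h2
    rcases h2.2 with h | h
    · exact absurd h (by simp)
    · exact h h1.1

end MPa0e17f
end

section
/-! # Module FR2: freely independent sets with `m` elements are independent on `CE` -/
set_option autoImplicit false

namespace MPa0e17f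

open Finset Module

namespace FR2M

variable {x D S : ℕ}

/-- the embedding which is used to find a free row or a free double -/
def emb (l : Fin x → Fin 3 → Fin 3) (t : Fin D → Bool) : (Fin x × Fin 3) ⊕ Fin D → JX x D S
  | Sum.inl (b, i) => Sum.inl (b, (i, l b i))
  | Sum.inr c => Sum.inr (Sum.inl (c, t c))

lemma emb_injective (l : Fin x → Fin 3 → Fin 3) (t : Fin D → Bool) :
    Function.Injective (emb (S := S) l t) := by
  rintro (⟨b, i⟩ | c) (⟨b', i'⟩ | c') h
  · simp only [emb, Sum.inl.injEq, Prod.mk.injEq] at h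
    obtain ⟨h1, h2, -⟩ := h
    rw [h1, h2]
  · simp [emb] at h
  · simp [emb] at h
  · simp only [emb, Sum.inr.injEq, Sum.inl.injEq, Prod.mk.injEq] at h
    rw [h.1]

/-- there is an element of `CF` which vanishes on `F` with nonzero sum -/
lemma exists_eta {m j : ℕ} (hj : 1 ≤ j) (hx : x + 3 = 4 * j) (hD : D + 5 * j = m + 3)
    (F : Finset (JX x D S)) (hF : F.card = m) :
    ∃ η ∈ CF x D S, (∀ i ∈ F, η i = 0) ∧ sumOn univ η ≠ 0 := by
  classical
  by_cases h1 : ∃ c : Fin D, ∀ t, (Sum.inr (Sum.inl (c, t)) : JX x D S) ∉ F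
  · obtain ⟨c, hc⟩ := h1
    refine ⟨fun a => match a with
      | Sum.inl _ => 0
      | Sum.inr (Sum.inl (c', _)) => if c' = c then 1 else 0
      | Sum.inr (Sum.inr _) => 0, ⟨fun b i i' l l' => by simp, fun c' => rfl⟩, ?_, ?_⟩
    · rintro (⟨b, p⟩ | ⟨c', t⟩ | s) ha
      · rfl
      · have : c' ≠ c := by
          rintro rfl
          exact hc t ha
        simp [this]
      · rfl
    · rw [sumOn_apply]
      apply ne_of_gt
      refine Finset.sum_pos' ?_ ⟨Sum.inr (Sum.inl (c, true)), mem_univ _, by simp⟩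
      rintro (⟨b, p⟩ | ⟨c', t⟩ | s) -
      · exact le_refl _
      · show (0 : ℝ) ≤ if c' = c then 1 else 0
        split_ifs <;> norm_num
      · exact le_refl _
  · by_cases h2 : ∃ b : Fin x, ∃ i : Fin 3, ∀ l, (Sum.inl (b, (i, l)) : JX x D S) ∉ F
    · obtain ⟨b, i, hb⟩ := h2
      refine ⟨fun a => match a with
        | Sum.inl (b', (i', _)) => if b' = b ∧ i' = i then 1 else 0
        | Sum.inr _ => 0, ⟨fun b i i' l l' => rfl, fun c' => rfl⟩, ?_, ?_⟩
      · rintro (⟨b', ⟨i', l⟩⟩ | a) ha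
        · have : ¬ (b' = b ∧ i' = i) := by
            rintro ⟨rfl, rfl⟩
            exact hb l ha
          simp [this]
        · rfl
      · rw [sumOn_apply]
        apply ne_of_gt
        refine Finset.sum_pos' ?_ ⟨Sum.inl (b, (i, 0)), mem_univ _, by simp⟩
        rintro (⟨b', ⟨i', l⟩⟩ | a) -
        · show (0 : ℝ) ≤ if b' = b ∧ i' = i then 1 else 0
          split_ifs <;> norm_num
        · exact le_refl _
    · exfalso
      have h1' : ∀ c : Fin D, ∃ t, (Sum.inr (Sum.inl (c, t)) : JX x D S) ∈ F := by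
        intro c
        by_contra h
        exact h1 ⟨c, fun t ht => h ⟨t, ht⟩⟩
      have h2' : ∀ b : Fin x, ∀ i : Fin 3, ∃ l, (Sum.inl (b, (i, l)) : JX x D S) ∈ F := by
        intro b i
        by_contra h
        exact h2 ⟨b, i, fun t ht => h ⟨t, ht⟩⟩
      choose t ht using h1'
      choose l hl using h2'
      have h3 : (univ.image (emb (S := S) l t)) ⊆ F := by
        intro a ha
        obtain ⟨w, -, rfl⟩ := mem_image.1 ha
        rcases w with ⟨b, i⟩ | c
        · exact hl b i
        · exact ht c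
      have h4 := card_le_card h3
      rw [card_image_of_injective _ (emb_injective l t), card_univ, Fintype.card_sum,
        Fintype.card_prod, Fintype.card_fin, Fintype.card_fin, Fintype.card_fin, hF] at h4
      omega

end FR2M

theorem specFR2 : SpecFR2 := by
  classical
  intro x D S m j hj hx hD F hF hFI g
  obtain ⟨η, hη, hη0, hηs⟩ := FR2M.exists_eta hj hx hD F hF
  -- the interpolating element of `CF`
  have h1 : ∃ μ ∈ CF x D S, ∀ i ∈ F, μ i = g i := by
    choose α β hαβ using fun b : Fin x => hFI.1 b (fun i l => g (Sum.inl (b, (i, l))))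
    refine ⟨fun a => match a with
      | Sum.inl (b, (i, l)) => α b i - β b l
      | Sum.inr (Sum.inl (c, _)) =>
        if (Sum.inr (Sum.inl (c, true)) : JX x D S) ∈ F then g (Sum.inr (Sum.inl (c, true)))
        else g (Sum.inr (Sum.inl (c, false)))
      | Sum.inr (Sum.inr s) => g (Sum.inr (Sum.inr s)), ⟨?_, fun c' => rfl⟩, ?_⟩
    · intro b i i' l l'
      show (α b i - β b l) + (α b i' - β b l') = (α b i - β b l') + (α b i' - β b l)
      ring
    · rintro (⟨b, ⟨i, l⟩⟩ | ⟨c, t⟩ | s) ha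
      · exact hαβ b i l ha
      · show (if (Sum.inr (Sum.inl (c, true)) : JX x D S) ∈ F then
          g (Sum.inr (Sum.inl (c, true))) else g (Sum.inr (Sum.inl (c, false)))) = _
        cases t with
        | true => rw [if_pos ha]
        | false =>
          rw [if_neg]
          intro h
          exact hFI.2 c ⟨h, ha⟩
      · rfl
  obtain ⟨μ, hμ, hμF⟩ := h1
  refine ⟨μ - (sumOn univ μ / sumOn univ η) • η, ⟨?_, ?_⟩, ?_⟩
  · exact (CF x D S).sub_mem hμ ((CF x D S).smul_mem _ hη)
  · show μ - (sumOn univ μ / sumOn univ η) • η ∈ LinearMap.ker (sumOn (univ : Finset (JX x D S)))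
    rw [LinearMap.mem_ker, map_sub, map_smul, smul_eq_mul]
    field_simp
    ring
  · intro i hi
    rw [Pi.sub_apply, Pi.smul_apply, hη0 i hi, smul_zero, sub_zero, hμF i hi]

end MPa0e17f
end

section
/-!
# GEN: a generic subspace
-/
set_option autoImplicit false

namespace MPa0e17f

open Finset Module

theorem specGEN : SpecGEN := by
  intro ι _ _ E m F
  induction m with
  | zero =>
    intro _ _
    refine ⟨⊥, bot_le, finrank_bot ℝ _, fun T _ => ?_⟩
    have h1 : K (⊥ : Submodule ℝ (ι → ℝ)) T = ⊥ := by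
      rw [eq_bot_iff]
      exact fun μ hμ => hμ.1
    rw [kap, h1]
    exact finrank_bot ℝ _
  | succ m ih =>
    intro hm hF
    obtain ⟨U, hUE, hdim, hU⟩ := ih (by omega) (fun T hT => by have := hF T hT; omega)
    -- the functionals
    have key : ∀ W : Submodule ℝ (ι → ℝ), finrank ℝ W < finrank ℝ E →
        ∃ f : (ι → ℝ) →ₗ[ℝ] ℝ, (∃ e ∈ E, f e ≠ 0) ∧ ∀ w ∈ W, f w = 0 := by
      intro W hW
      have h1 : ¬ E ≤ W := fun h => absurd (Submodule.finrank_mono h) (by omega)
      obtain ⟨e, he, heW⟩ := SetLike.not_le_iff_exists.1 h1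
      obtain ⟨f, hf, hf'⟩ := Submodule.exists_le_ker_of_notMem heW
      exact ⟨f, ⟨e, he, hf⟩, fun w hw => hf' hw⟩
    have hsup : ∀ T ∈ F, finrank ℝ ↥(U ⊔ K E T) < finrank ℝ E := by
      intro T hT
      have h1 := Submodule.finrank_add_le_finrank_add_finrank U (K E T)
      have h2 := hF T hT
      have h3 : finrank ℝ (K E T) = kap E T := rfl
      omega
    have hUlt : finrank ℝ U < finrank ℝ E := by omega
    obtain ⟨f0, hf0E, hf0U⟩ := key U hUlt
    have hch : ∀ T : Finset ι, ∃ f : (ι → ℝ) →ₗ[ℝ] ℝ, T ∈ F →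
        (∃ e ∈ E, f e ≠ 0) ∧ ∀ w ∈ U ⊔ K E T, f w = 0 := by
      intro T
      by_cases hT : T ∈ F
      · obtain ⟨f, hf, hf'⟩ := key _ (hsup T hT)
        exact ⟨f, fun _ => ⟨hf, hf'⟩⟩
      · exact ⟨0, fun h => absurd h hT⟩
    choose f hf using hch
    obtain ⟨z, hzE, hz⟩ := exists_generic E (insertNone F)
      (fun o : Option (Finset ι) => o.elim f0 f) (by
        intro o ho
        cases o with
        | none => exact hf0E
        | some T =>
          rw [some_mem_insertNone] at ho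
          exact (hf T ho).1)
    have hz0 : f0 z ≠ 0 := hz none none_mem_insertNone
    have hzT : ∀ T ∈ F, f T z ≠ 0 := fun T hT => hz (some T) (some_mem_insertNone.2 hT)
    have hzU : z ∉ U := fun h => hz0 (hf0U z h)
    refine ⟨U ⊔ Submodule.span ℝ {z}, sup_le hUE ((Submodule.span_singleton_le_iff_mem z E).2 hzE),
      ?_, ?_⟩
    · have h1 := Submodule.finrank_sup_add_finrank_inf_eq U (Submodule.span ℝ {z})
      have h2 : U ⊓ Submodule.span ℝ {z} = ⊥ := by
        rw [eq_bot_iff]
        rintro v ⟨hv1, hv2⟩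
        obtain ⟨a, rfl⟩ := Submodule.mem_span_singleton.1 hv2
        by_cases ha : a = 0
        · rw [ha, zero_smul]
          exact Submodule.zero_mem _
        · exfalso
          apply hzU
          have := U.smul_mem a⁻¹ hv1
          rwa [smul_smul, inv_mul_cancel₀ ha, one_smul] at this
      have h3 : finrank ℝ (Submodule.span ℝ {z}) = 1 := by
        refine finrank_span_singleton ?_
        rintro rfl
        exact hzU U.zero_mem
      rw [h2, finrank_bot, h3, hdim] at h1
      omega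
    · intro T hT
      have h1 : K (U ⊔ Submodule.span ℝ {z}) T = ⊥ := by
        rw [eq_bot_iff]
        rintro v ⟨hv1, hv2⟩
        obtain ⟨u, hu, w, hw, huw⟩ := Submodule.mem_sup.1 hv1
        obtain ⟨a, rfl⟩ := Submodule.mem_span_singleton.1 hw
        have hvE : v ∈ E := by
          rw [← huw]
          exact E.add_mem (hUE hu) (E.smul_mem a hzE)
        by_cases ha : a = 0
        · rw [ha, zero_smul, add_zero] at huw
          have h2 : v ∈ K U T := ⟨huw ▸ hu, hv2⟩
          have h3 : K U T = ⊥ := Submodule.finrank_eq_zero.1 (hU T hT)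
          rw [h3] at h2
          exact h2
        · exfalso
          apply hzT T hT
          have h4 : a • z ∈ U ⊔ K E T := by
            have h5 : a • z = v - u := by rw [← huw]; abel
            rw [h5]
            exact Submodule.sub_mem _ (Submodule.mem_sup_right ⟨hvE, hv2⟩)
              (Submodule.mem_sup_left hu)
          have h6 := (hf T hT).2 _ h4
          rw [map_smul, smul_eq_mul] at h6
          exact (mul_eq_zero.1 h6).resolve_left ha
      rw [kap, h1]
      exact finrank_bot ℝ _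

end MPa0e17f
end

section
/-!
# IVK: the kernel of a surjective evaluation
-/
set_option autoImplicit false

namespace MPa0e17f

open Finset Module

theorem specIVK : SpecIVK := by
  intro ι _ _ U F
  induction F using Finset.induction_on with
  | empty =>
    intro _
    rw [kap_empty, Finset.card_empty, add_zero]
  | insert i F hi ih =>
    intro h
    have h1 := ih fun g => by
      obtain ⟨μ, hμ, hg⟩ := h g
      exact ⟨μ, hμ, fun j hj => hg j (Finset.mem_insert_of_mem hj)⟩
    obtain ⟨μ, hμ, hg⟩ := h (Pi.single i 1)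
    have h2 := kap_insert_of_ne U F i ⟨μ, ⟨hμ, fun j hj => by
      rw [hg j (Finset.mem_insert_of_mem hj)]
      refine Pi.single_eq_of_ne (fun hji => hi ?_) 1
      rw [← hji]
      exact hj⟩, by
      rw [hg i (Finset.mem_insert_self i F), Pi.single_eq_same]
      exact one_ne_zero⟩
    rw [Finset.card_insert_of_notMem hi]
    omega

end MPa0e17f
end

section
/-! # Module KTT: a monochromatic four-cycle -/
set_option autoImplicit false
set_option linter.unusedSimpArgs false

namespace MPa0e17f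

open Finset Module

namespace KTTM

/-- the combinatorial core: nested rows of signs contain a monochromatic four-cycle -/
lemma core (s : Fin 3 → Fin 3 → Prop)
    (h : ∀ i i' l l', ¬ (s i l ∧ s i' l' ∧ ¬ s i l' ∧ ¬ s i' l)) :
    ∃ i i' l l', i ≠ i' ∧ l ≠ l' ∧
      ((s i l ∧ s i l' ∧ s i' l ∧ s i' l') ∨ (¬ s i l ∧ ¬ s i l' ∧ ¬ s i' l ∧ ¬ s i' l')) := by
  classical
  by_contra hc
  have hc' : ∀ i i' l l', i ≠ i' → l ≠ l' →
      ¬ ((s i l ∧ s i l' ∧ s i' l ∧ s i' l') ∨ (¬ s i l ∧ ¬ s i l' ∧ ¬ s i' l ∧ ¬ s i' l')) := by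
    intro i i' l l' h1 h2 h3
    exact hc ⟨i, i', l, l', h1, h2, h3⟩
  have a01 := hc' 0 1 0 1 (by decide) (by decide)
  have a02 := hc' 0 1 0 2 (by decide) (by decide)
  have a12 := hc' 0 1 1 2 (by decide) (by decide)
  have b01 := hc' 0 2 0 1 (by decide) (by decide)
  have b02 := hc' 0 2 0 2 (by decide) (by decide)
  have b12 := hc' 0 2 1 2 (by decide) (by decide)
  have c01 := hc' 1 2 0 1 (by decide) (by decide)
  have c02 := hc' 1 2 0 2 (by decide) (by decide)
  have c12 := hc' 1 2 1 2 (by decide) (by decide)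
  have a01' := h 0 1 0 1
  have a10' := h 0 1 1 0
  have a02' := h 0 1 0 2
  have a20' := h 0 1 2 0
  have a12' := h 0 1 1 2
  have a21' := h 0 1 2 1
  have b01' := h 0 2 0 1
  have b10' := h 0 2 1 0
  have b02' := h 0 2 0 2
  have b20' := h 0 2 2 0
  have b12' := h 0 2 1 2
  have b21' := h 0 2 2 1
  have c01' := h 1 2 0 1
  have c10' := h 1 2 1 0
  have c02' := h 1 2 0 2
  have c20' := h 1 2 2 0
  have c12' := h 1 2 1 2
  have c21' := h 1 2 2 1
  clear h hc hc'
  by_cases h00 : s 0 0 <;> by_cases h01 : s 0 1 <;> by_cases h02 : s 0 2 <;>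
    by_cases h10 : s 1 0 <;> by_cases h11 : s 1 1 <;> by_cases h12 : s 1 2 <;>
    simp only [h00, h01, h02, h10, h11, h12, not_true_eq_false, not_false_eq_true, and_true,
      true_and, and_false, false_and, or_false, false_or, or_true, true_or, and_self] at * <;>
    by_cases h20 : s 2 0 <;> by_cases h21 : s 2 1 <;> by_cases h22 : s 2 2 <;>
    simp only [h20, h21, h22, not_true_eq_false, not_false_eq_true, and_true,
      true_and, and_false, false_and, or_false, false_or, or_true, true_or, and_self] at *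

end KTTM

theorem specKTT : SpecKTT := by
  intro f hf h0
  obtain ⟨i, i', l, l', h1, h2, h3⟩ := KTTM.core (fun i l => 0 < f i l) (by
    rintro i i' l l' ⟨h1, h2, h3, h4⟩
    have h5 := hf i i' l l'
    linarith [not_lt.1 h3, not_lt.1 h4])
  have hn : ∀ a b, ¬ 0 < f a b → f a b < 0 := fun a b h =>
    lt_of_le_of_ne (not_lt.1 h) (h0 a b)
  refine ⟨i, i', l, l', h1, h2, ?_⟩
  rcases h3 with h3 | ⟨h3, h4, h5, h6⟩
  · exact Or.inl h3
  · exact Or.inr ⟨hn _ _ h3, hn _ _ h4, hn _ _ h5, hn _ _ h6⟩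

end MPa0e17f
end

section
set_option autoImplicit false

namespace MPa0e17f

open Finset Module

theorem specLOW (hGEN : SpecGEN) (hIVK : SpecIVK) (hFR1 : SpecFR1) (hFR2 : SpecFR2)
    (hNGD : SpecNGD) (hCRI : SpecCRI) (hRLZ : SpecRLZ) : SpecLOW := by
  intro j k d hj hk hd
  classical
  obtain ⟨m, hm⟩ : ∃ m, m + k = d + 1 + j := ⟨d + 1 + j - k, by omega⟩
  obtain ⟨x, hx⟩ : ∃ x, x + 3 = 4 * j := ⟨4 * j - 3, by omega⟩
  obtain ⟨D, hD⟩ : ∃ D, D + 5 * j = m + 3 := ⟨m + 3 - 5 * j, by omega⟩
  obtain ⟨S, hS⟩ : ∃ S, S + 27 * j = k + 21 := ⟨k + 21 - 27 * j, by omega⟩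
  have hcard : Fintype.card (JX x D S) = 9 * x + 2 * D + S := by
    simp only [JX, Fintype.card_sum, Fintype.card_prod, Fintype.card_fin, Fintype.card_bool]
    ring
  have hn : Fintype.card (JX x D S) + j = 2 * m + k := by omega
  -- the generic subspace
  have hkey : ∀ T : Finset (JX x D S), 2 * m ≤ T.card + j + 1 →
      kap (CE x D S) T + m ≤ finrank ℝ (CE x D S) := by
    intro T hT
    obtain ⟨F, hFT, hFc, hFI⟩ := hFR1 x D S m j hj hx hD T hT
    have h1 := hIVK (JX x D S) (CE x D S) F (hFR2 x D S m j hj hx hD F hFc hFI)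
    have h2 := kap_anti (CE x D S) hFT
    omega
  obtain ⟨U, hUE, hUm, hU⟩ := hGEN (JX x D S) (CE x D S) m
    (univ.filter (fun T => 2 * m ≤ T.card + j + 1))
    (by
      have := hkey univ (by rw [Finset.card_univ]; omega)
      omega)
    (fun T hT => hkey T (Finset.mem_filter.1 hT).2)
  have hHS : ∀ μ ∈ U, μ ≠ 0 → k + 2 ≤ (univ.filter (fun i => μ i ≠ 0)).card := by
    intro μ hμ h0
    by_contra hc
    have h1 : (univ.filter (fun i => μ i ≠ 0)).card + (univ.filter (fun i => μ i = 0)).card =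
        Fintype.card (JX x D S) := by
      have := Finset.card_filter_add_card_filter_not (s := (univ : Finset (JX x D S)))
        (fun i => μ i ≠ 0)
      simp only [not_not] at this
      rw [this, Finset.card_univ]
    have h2 := hU (univ.filter (fun i => μ i = 0)) (Finset.mem_filter.2 ⟨Finset.mem_univ _, by omega⟩)
    rw [kap, Submodule.finrank_eq_zero] at h2
    have h3 : μ ∈ K U (univ.filter (fun i => μ i = 0)) :=
      ⟨hμ, fun i hi => (Finset.mem_filter.1 hi).2⟩
    rw [h2] at h3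
    exact h0 (by simpa using h3)
  obtain ⟨p, hp⟩ := hRLZ (JX x D S) d U
    (fun μ hμ => by
      have h1 : sumOn univ μ = 0 := LinearMap.mem_ker.1 (hUE hμ).2
      rwa [sumOn_apply] at h1)
    (by omega)
    (fun μ hμ h0 => by
      have := hHS μ hμ h0
      omega)
  have hKI : KIndep k (univ.map p) := by
    rw [kindep_iff_dep, hp]
    exact hHS
  have hnd : ¬ Divisible k (univ.map p) := by
    intro hdiv
    have h1 := hCRI (JX x D S) d k p hdiv
    rw [hp] at h1
    exact hNGD x D S m j k hj hx hD hS U (hUE.trans inf_le_left) hUm h1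
  have hSc : (univ.map p).card + k = 2 * d + 2 + j := by
    rw [Finset.card_map, Finset.card_univ]
    omega
  refine ⟨⟨univ.map p, hKI, hnd, hSc⟩, ?_⟩
  have h1 := (N_bounds k d (by omega) (by omega)).1
  have h2 : (univ.map p).card + 1 ≤ N k d := by
    unfold N
    refine le_csInf ⟨2 * d + 1, h1⟩ ?_
    intro n hn
    by_contra hc
    exact hnd (hn _ hKI (by omega))
  omega

end MPa0e17f
end

section
/-! # Module NGD: subspaces of `CF` of the right dimension are not good -/
set_option autoImplicit false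

namespace MPa0e17f

open Finset Module

namespace NGDM

variable {x D S : ℕ}

/-- the removed element of each block -/
lemma choice (hKTT : SpecKTT) {l0 : JX x D S → ℝ} (hl : l0 ∈ CF x D S) (b : Fin x) :
    ∃ r : Fin 3 × Fin 3, l0 (Sum.inl (b, r)) = 0 ∨
      ∃ i' l', i' ≠ r.1 ∧ l' ≠ r.2 ∧
        ((0 < l0 (Sum.inl (b, r)) ∧ 0 < l0 (Sum.inl (b, (r.1, l'))) ∧
            0 < l0 (Sum.inl (b, (i', r.2))) ∧ 0 < l0 (Sum.inl (b, (i', l')))) ∨
          (l0 (Sum.inl (b, r)) < 0 ∧ l0 (Sum.inl (b, (r.1, l'))) < 0 ∧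
            l0 (Sum.inl (b, (i', r.2))) < 0 ∧ l0 (Sum.inl (b, (i', l'))) < 0)) := by
  by_cases h : ∃ r : Fin 3 × Fin 3, l0 (Sum.inl (b, r)) = 0
  · obtain ⟨r, hr⟩ := h
    exact ⟨r, Or.inl hr⟩
  · push Not at h
    obtain ⟨i, i', l, l', h1, h2, h3⟩ := hKTT (fun i l => l0 (Sum.inl (b, (i, l))))
      (fun i i' l l' => hl.1 b i i' l l') (fun i l => h (i, l))
    refine ⟨(i, l), Or.inr ⟨i', l', h1.symm, h2.symm, ?_⟩⟩
    rcases h3 with h3 | h3
    · exact Or.inl ⟨h3.1, h3.2.1, h3.2.2.1, h3.2.2.2⟩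
    · exact Or.inr ⟨h3.1, h3.2.1, h3.2.2.1, h3.2.2.2⟩

/-- the removed elements -/
def Rm (r : Fin x → Fin 3 × Fin 3) : Finset (JX x D S) :=
  (univ.image (fun b : Fin x => (Sum.inl (b, r b) : JX x D S))) ∪
    univ.image (fun c : Fin D => (Sum.inr (Sum.inl (c, false)) : JX x D S))

lemma card_Rm (r : Fin x → Fin 3 × Fin 3) : (Rm (D := D) (S := S) r).card = x + D := by
  rw [Rm, Finset.card_union_of_disjoint, Finset.card_image_of_injective,
    Finset.card_image_of_injective, Finset.card_univ, Finset.card_univ, Fintype.card_fin,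
    Fintype.card_fin]
  · intro c c' h
    simpa using h
  · intro c c' h
    have := Sum.inl_injective h
    exact (Prod.mk.inj this).1
  · rw [Finset.disjoint_left]
    rintro a h1 h2
    obtain ⟨b, -, rfl⟩ := Finset.mem_image.1 h1
    obtain ⟨c, -, h⟩ := Finset.mem_image.1 h2
    exact absurd h (by simp)

lemma card_JX : Fintype.card (JX x D S) = 9 * x + (2 * D + S) := by
  simp only [JX, Fintype.card_sum, Fintype.card_prod, Fintype.card_fin, Fintype.card_bool]
  ring

lemma mem_Rm {r : Fin x → Fin 3 × Fin 3} {a : JX x D S} : a ∈ Rm (D := D) (S := S) r ↔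
    (∃ b, a = Sum.inl (b, r b)) ∨ ∃ c, a = Sum.inr (Sum.inl (c, false)) := by
  simp only [Rm, Finset.mem_union, Finset.mem_image, Finset.mem_univ, true_and, eq_comm]

lemma not_mem_Rm {r : Fin x → Fin 3 × Fin 3} {b : Fin x} {q : Fin 3 × Fin 3} (h : q ≠ r b) :
    (Sum.inl (b, q) : JX x D S) ∉ Rm (D := D) (S := S) r := by
  rw [mem_Rm]
  rintro (⟨b', h'⟩ | ⟨c, h'⟩)
  · have h1 := Sum.inl_injective h'
    have h2 := (Prod.mk.inj h1).1
    subst h2
    exact h (Prod.mk.inj h1).2
  · exact absurd h' (by simp)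

lemma not_mem_Rm' {r : Fin x → Fin 3 × Fin 3} {c : Fin D} :
    (Sum.inr (Sum.inl (c, true)) : JX x D S) ∉ Rm (D := D) (S := S) r := by
  rw [mem_Rm]
  rintro (⟨b', h'⟩ | ⟨c', h'⟩)
  · exact absurd h' (by simp)
  · simp at h'

/-- positive side -/
lemma side {U : Submodule ℝ (JX x D S → ℝ)} (hU : U ≤ CF x D S) {l0 : JX x D S → ℝ}
    (hl : l0 ∈ CF x D S) (r : Fin x → Fin 3 × Fin 3)
    (hr : ∀ b, 0 < l0 (Sum.inl (b, r b)) → ∃ i' l', i' ≠ (r b).1 ∧ l' ≠ (r b).2 ∧
      0 < l0 (Sum.inl (b, ((r b).1, l'))) ∧ 0 < l0 (Sum.inl (b, (i', (r b).2))) ∧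
      0 < l0 (Sum.inl (b, (i', l')))) :
    finrank ℝ U ≤ kap U (Pos l0) + (Pos l0 \ Rm (D := D) (S := S) r).card := by
  have h1 := finrank_le_kap_add_card U (Pos l0 \ Rm (D := D) (S := S) r)
  have h2 : kap U (Pos l0 \ Rm (D := D) (S := S) r) ≤ kap U (Pos l0) := by
    apply kap_le_of_le
    rintro μ ⟨hμ, h0⟩
    refine ⟨hμ, fun a ha => ?_⟩
    by_cases hR : a ∈ Rm (D := D) (S := S) r
    · have hCF := hU hμ
      have hpos := mem_Pos.1 ha
      rcases mem_Rm.1 hR with ⟨b, rfl⟩ | ⟨c, rfl⟩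
      · obtain ⟨i', l', hi, hl', h3, h4, h5⟩ := hr b hpos
        have e1 := h0 (Sum.inl (b, ((r b).1, l'))) (Finset.mem_sdiff.2 ⟨mem_Pos.2 h3,
          not_mem_Rm (fun h => hl' (congrArg Prod.snd h))⟩)
        have e2 := h0 (Sum.inl (b, (i', (r b).2))) (Finset.mem_sdiff.2 ⟨mem_Pos.2 h4,
          not_mem_Rm (fun h => hi (congrArg Prod.fst h))⟩)
        have e3 := h0 (Sum.inl (b, (i', l'))) (Finset.mem_sdiff.2 ⟨mem_Pos.2 h5,
          not_mem_Rm (fun h => hi (congrArg Prod.fst h))⟩)
        have e4 := hCF.1 b (r b).1 i' (r b).2 l'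
        rw [e1, e2, e3] at e4
        simp only [Prod.mk.eta] at e4
        linarith
      · have e1 := hl.2 c
        have e2 := h0 (Sum.inr (Sum.inl (c, true))) (Finset.mem_sdiff.2 ⟨mem_Pos.2 (by
          rw [e1]; exact hpos), not_mem_Rm'⟩)
        rw [← hCF.2 c]
        exact e2
    · exact h0 a (Finset.mem_sdiff.2 ⟨ha, hR⟩)
  omega

end NGDM

open NGDM in
theorem specNGD (hKTT : SpecKTT) : SpecNGD := by
  intro x D S m j k hj hx hD hS U hU hm hG
  obtain ⟨l0, hl0, -, hgood⟩ := hG
  have hl : l0 ∈ CF x D S := hU hl0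
  choose r hr using choice hKTT hl
  have hA := side hU hl r (by
    intro b hb
    rcases hr b with h | ⟨i', l', h1, h2, h3 | h3⟩
    · exact absurd h hb.ne'
    · exact ⟨i', l', h1, h2, h3.2.1, h3.2.2.1, h3.2.2.2⟩
    · exact absurd h3.1 (not_lt.2 hb.le))
  have hB := side hU (l0 := -l0) ((CF x D S).neg_mem hl) r (by
    intro b hb
    simp only [Pi.neg_apply, Left.neg_pos_iff] at hb ⊢
    rcases hr b with h | ⟨i', l', h1, h2, h3 | h3⟩
    · exact absurd h hb.ne
    · exact absurd h3.1 (not_lt.2 hb.le)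
    · exact ⟨i', l', h1, h2, h3.2.1, h3.2.2.1, h3.2.2.2⟩)
  rw [Pos_neg] at hB
  have hdis : Disjoint (Pos l0 \ Rm (D := D) (S := S) r) (Neg l0 \ Rm (D := D) (S := S) r) := by
    rw [Finset.disjoint_left]
    intro a h1 h2
    have h3 := mem_Pos.1 (Finset.mem_sdiff.1 h1).1
    have h4 := mem_Neg.1 (Finset.mem_sdiff.1 h2).1
    linarith
  have hsub : (Pos l0 \ Rm (D := D) (S := S) r) ∪ (Neg l0 \ Rm (D := D) (S := S) r) ⊆
      univ \ Rm (D := D) (S := S) r := by
    intro a ha
    rcases Finset.mem_union.1 ha with h | h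
    · exact Finset.mem_sdiff.2 ⟨Finset.mem_univ _, (Finset.mem_sdiff.1 h).2⟩
    · exact Finset.mem_sdiff.2 ⟨Finset.mem_univ _, (Finset.mem_sdiff.1 h).2⟩
  have hc1 := Finset.card_le_card hsub
  rw [Finset.card_union_of_disjoint hdis, Finset.card_univ_sdiff, card_Rm, card_JX] at hc1
  omega

end MPa0e17f
end

section
/-! # Module RLZ: realization of a subspace as a space of affine dependences -/
set_option autoImplicit false

namespace MPa0e17f

open Finset Module

theorem specRLZ : SpecRLZ := by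
  intro ι _ _ d U hsum hcard h3
  have hpos : 0 < Fintype.card ι := by omega
  obtain ⟨i0⟩ := Fintype.card_pos_iff.1 hpos
  let s : (ι → ℝ) →ₗ[ℝ] ℝ := sumOn univ
  let V : Submodule ℝ (ι → ℝ) := LinearMap.ker s
  have hmV : ∀ μ : ι → ℝ, μ ∈ V ↔ ∑ i, μ i = 0 := by
    intro μ
    change s μ = 0 ↔ _
    rw [show s μ = ∑ i, μ i from sumOn_apply _ _]
  have hV : finrank ℝ V + 1 = Fintype.card ι := by
    have h1 := s.finrank_range_add_finrank_ker
    have h2 : LinearMap.range s = ⊤ := by
      rw [LinearMap.range_eq_top]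
      intro r
      refine ⟨Pi.single i0 r, ?_⟩
      rw [show s (Pi.single i0 r) = ∑ i, (Pi.single i0 r : ι → ℝ) i from sumOn_apply _ _]
      simp
    rw [h2, finrank_top, Module.finrank_self, Module.finrank_pi] at h1
    change 1 + finrank ℝ V = _ at h1
    omega
  have hUV : U ≤ V := fun μ hμ => (hmV μ).2 (hsum μ hμ)
  let U0 : Submodule ℝ V := U.comap V.subtype
  have hU0 : finrank ℝ U0 = finrank ℝ U := (Submodule.comapSubtypeEquivOfLe hUV).finrank_eq
  have hQ : finrank ℝ (V ⧸ U0) = finrank ℝ (EuclideanSpace ℝ (Fin d)) := by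
    have h := U0.finrank_quotient_add_finrank
    rw [finrank_euclideanSpace_fin]
    omega
  let e : (V ⧸ U0) ≃ₗ[ℝ] EuclideanSpace ℝ (Fin d) := LinearEquiv.ofFinrankEq _ _ hQ
  let ψ : V →ₗ[ℝ] EuclideanSpace ℝ (Fin d) := e.toLinearMap.comp U0.mkQ
  have hψ : ∀ v : V, ψ v = 0 ↔ (v : ι → ℝ) ∈ U := by
    intro v
    change e (U0.mkQ v) = 0 ↔ _
    rw [LinearEquiv.map_eq_zero_iff, Submodule.mkQ_apply, Submodule.Quotient.mk_eq_zero]
    exact Iff.rfl
  have hb : ∀ i, (Pi.single i (1 : ℝ) - Pi.single i0 1 : ι → ℝ) ∈ V := by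
    intro i
    rw [hmV]
    simp [Finset.sum_sub_distrib]
  let b : ι → V := fun i => ⟨_, hb i⟩
  have hbv : ∀ i, ((b i : V) : ι → ℝ) = Pi.single i (1 : ℝ) - Pi.single i0 1 := fun i => rfl
  have key : ∀ (μ : ι → ℝ) (h : ∑ i, μ i = 0), ∑ i, μ i • ψ (b i) = ψ ⟨μ, (hmV μ).2 h⟩ := by
    intro μ h
    rw [show ∑ i, μ i • ψ (b i) = ψ (∑ i, μ i • b i) by simp [map_sum]]
    congr 1
    ext l
    rw [AddSubmonoidClass.coe_finsetSum, Finset.sum_apply]
    simp only [Submodule.coe_smul, hbv, Pi.smul_apply, Pi.sub_apply, smul_eq_mul, mul_sub,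
      Finset.sum_sub_distrib, ← Finset.sum_mul, h, zero_mul, sub_zero]
    simp [Pi.single_apply]
  have hinj : Function.Injective (fun i => ψ (b i)) := by
    intro i l hil
    by_contra hne
    have h1 : ψ (b i - b l) = 0 := by
      rw [map_sub]
      exact sub_eq_zero.2 hil
    rw [hψ] at h1
    have h2 : ((b i - b l : V) : ι → ℝ) = Pi.single i (1 : ℝ) - Pi.single l 1 := by
      rw [Submodule.coe_sub, hbv, hbv]
      abel
    rw [h2] at h1
    have h4 := h3 _ h1 (by
      intro h0
      have := congrFun h0 i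
      simp [hne] at this)
    have h5 : univ.filter (fun t => (Pi.single i (1 : ℝ) - Pi.single l 1 : ι → ℝ) t ≠ 0) ⊆ {i, l} := by
      intro t ht
      rw [Finset.mem_filter] at ht
      by_contra hc
      apply ht.2
      simp only [Finset.mem_insert, Finset.mem_singleton, not_or] at hc
      simp [hc.1, hc.2]
    have h6 := (Finset.card_le_card h5).trans Finset.card_le_two
    omega
  refine ⟨⟨fun i => ψ (b i), hinj⟩, ?_⟩
  ext μ
  rw [mem_dep]
  simp only [Function.Embedding.coeFn_mk]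
  constructor
  · rintro ⟨h1, h2⟩
    rw [key μ h1, hψ] at h2
    exact h2
  · intro h
    have h1 := hsum μ h
    refine ⟨h1, ?_⟩
    rw [key μ h1, hψ]
    exact h

end MPa0e17f
end

section
/-!
# Assembly of Theorem B
-/
set_option autoImplicit false

namespace MPa0e17f

open Finset Module

/-- Theorem B. -/
theorem finL : SpecLOW :=
  specLOW specGEN specIVK (specFR1 specBLK) specFR2 (specNGD specKTT) specCRI specRLZ

end MPa0e17f
end

section
/-!
# RTR: translation of the removal criterion to the space of dependences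
-/
set_option autoImplicit false

namespace MPa0e17f

open Finset Module

namespace RTRM

/-- an affine combination gives a dependence -/
theorem exists_dep {ι : Type} [Fintype ι] [DecidableEq ι] {d : ℕ}
    (p : ι ↪ EuclideanSpace ℝ (Fin d)) (S : Finset ι) (i : ι) (hi : i ∉ S)
    (h : p i ∈ affineSpan ℝ (p '' ((S : Finset ι) : Set ι))) :
    ∃ μ ∈ dep p, μ i = 1 ∧ ∀ j, j ∉ S → j ≠ i → μ j = 0 := by
  obtain ⟨fs, w, hfs, hw, he⟩ := eq_affineCombination_of_mem_affineSpan_image h
  rw [Finset.affineCombination_eq_linear_combination fs p w hw] at he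
  have hsub : ∀ j ∈ fs, j ∈ S := fun j hj => Finset.mem_coe.1 (hfs hj)
  refine ⟨fun j => (if j = i then 1 else 0) - (if j ∈ fs then w j else 0), ?_, ?_, ?_⟩
  · rw [mem_dep]
    constructor
    · rw [Finset.sum_sub_distrib, Finset.sum_ite_eq', if_pos (Finset.mem_univ i),
        Finset.sum_ite_mem, Finset.univ_inter, hw, sub_self]
    · simp only [sub_smul, ite_smul, one_smul, zero_smul]
      rw [Finset.sum_sub_distrib, Finset.sum_ite_eq', if_pos (Finset.mem_univ i),
        Finset.sum_ite_mem, Finset.univ_inter, ← he, sub_self]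
  · have h1 : i ∉ fs := fun hc => hi (hsub i hc)
    simp [h1]
  · intro j hj hji
    have h1 : j ∉ fs := fun hc => hj (hsub j hc)
    simp [h1, hji]

end RTRM

theorem specRTR : SpecRTR := by
  intro ι _ _ d p G hG hp
  -- dependences inside G
  have h1 : ∀ q ∈ G, ∃ μ ∈ K (dep p) Gᶜ, μ q ≠ 0 := by
    intro q hq
    obtain ⟨μ, hμ, h1, h2⟩ := RTRM.exists_dep p (G.erase q) q (Finset.notMem_erase q G) (hp q hq q)
    refine ⟨μ, ⟨hμ, fun j hj => ?_⟩, by rw [h1]; exact one_ne_zero⟩
    rw [Finset.mem_compl] at hj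
    refine h2 j (fun hc => hj (Finset.mem_of_mem_erase hc)) ?_
    rintro rfl
    exact hj hq
  obtain ⟨i0, hi0⟩ := hG
  -- dependences with one element outside G
  have h2 : ∀ q, q ∉ G → ∃ μ ∈ dep p, μ q = 1 ∧ ∀ j, j ∉ G → j ≠ q → μ j = 0 := by
    intro q hq
    obtain ⟨μ, hμ, h1, h2⟩ := RTRM.exists_dep p (G.erase i0) q
      (fun hc => hq (Finset.mem_of_mem_erase hc)) (hp i0 hi0 q)
    exact ⟨μ, hμ, h1, fun j hj hjq => h2 j (fun hc => hj (Finset.mem_of_mem_erase hc)) hjq⟩
  refine ⟨?_, ?_, ?_⟩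
  · ext q
    simp only [Finset.mem_univ, iff_true]
    rw [mem_act]
    by_cases hq : q ∈ G
    · obtain ⟨μ, hμ, h⟩ := h1 q hq
      exact ⟨μ, hμ.1, h⟩
    · obtain ⟨μ, hμ, h, -⟩ := h2 q hq
      exact ⟨μ, hμ, by rw [h]; exact one_ne_zero⟩
  · refine specIVK ι (dep p) Gᶜ fun g => ?_
    choose! m hm hm1 hm2 using h2
    refine ⟨∑ q ∈ Gᶜ, g q • m q, Submodule.sum_mem _ fun q hq =>
      Submodule.smul_mem _ _ (hm q (Finset.mem_compl.1 hq)), ?_⟩
    intro i hi
    rw [Finset.sum_apply, Finset.sum_eq_single i]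
    · rw [Pi.smul_apply, smul_eq_mul, hm1 i (Finset.mem_compl.1 hi), mul_one]
    · intro q hq hqi
      rw [Pi.smul_apply, smul_eq_mul, hm2 q (Finset.mem_compl.1 hq) i (Finset.mem_compl.1 hi)
        (Ne.symm hqi), mul_zero]
    · intro hc
      exact absurd hi hc
  · obtain ⟨v, hv, hv2⟩ := exists_generic (K (dep p) Gᶜ) G (fun i => LinearMap.proj i) (by
      intro q hq
      obtain ⟨μ, hμ, h⟩ := h1 q hq
      exact ⟨μ, hμ, h⟩)
    refine ⟨v, hv.1, fun i => ⟨fun h hi => hv2 i hi h, fun hi => hv.2 i (Finset.mem_compl.2 hi)⟩⟩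

end MPa0e17f
end
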