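import Pool.Agent.Lib.MP_a0e17f.T.Defs

/-!
# Specifications, part A: toolkit and the simple case `n = 2m + 2`

GOAL OF THE BLOCK. `THEOREM: if k ≥ 3, dim U = m ≥ k + 1, |act U| = n ≤ 2m + 2, H1 (HS), H2 (HC) then
Good k U`, hence `N(k,d) ≤ 2d` for `3 ≤ k ≤ d - 2`. The case `n ≤ 2m + 1` is the theorem `core` of
`Par.lean`.

LANGUAGE. The coordinates `i ∈ act U` are linear functionals on `U` (vectors of the dual space of `U`).
`kap U S = dim {μ ∈ U : μ = 0 on S} = m - rank S`. `InCl U S i`: `i` is in the closure (flat) of `S`.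
`NZ U y`: `y ∈ U` has no zero on `act U` (tope `(Pos y | Neg y)`).

USEFUL LEMMAS OF `Core.lean`: `mem_K`, `K_anti`, `K_K`, `kap_anti`, `kap_le_insert`, `kap_insert_of_ne`
(the kernel drops by one), `kap_union_add` (submodularity), `finrank_le_kap_add_card`, `card_act_ge`
(Lemma S: `W ≤ U`, `1 ≤ dim W` imply `dim W + k + 1 ≤ |act W|`), `exists_generic`, `exists_small`,
`perturb` (a small generic move inside a subspace), `nudge` (`y + ε z`), `crossing` (first crossing along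
`y + t u`), `leave_wall`, `leave_wall'`, `no_two`, `kap_sdiff_coloops`, `not_act`, `Pos_neg`, `Neg_neg`,
`same_signs`, `exists_nowhere_zero`, `contract`; `finish`, `two_values`, `Pos_subset_act`,
`Neg_subset_act` in `Par.lean`.

Files `T/XXX.lean`, `import Pool.Agent.Lib.MP_a0e17f.T.SpecA` (or the later Spec file), namespace
`MPa0e17f`, `theorem specXXX (hYYY : SpecYYY) .. : SpecXXX`; own lemmas in the namespace
`MPa0e17f.XXXM`. No double quotes in files please.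
-/

set_option autoImplicit false

namespace MPa0e17f

open Finset Module

/-! ## Toolkit -/

/-- **STP** [120 lines]. One step: from a tope `y` move in the direction `u` (along `y + t u`, `t > 0`) to
the first crossing; only a class of proportional coordinates is crossed.
PROOF. `perturb U` `y` to `y'` (same signs) with `u j * y' i ≠ u i * y' j` for all `i, j ∈ act U` with
`¬ Prl U i j`, `u i ≠ 0`, `u j ≠ 0` (the functional `u j • proj i - u i • proj j` does not vanish on `U`, otherwise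
`μ i = (u i / u j) μ j`). Apply `crossing y' u`: its set `Z` consists of pairwise proportional
coordinates. If `i ∈ Z` and `j` is proportional to `i` then `y0 j = 0` for the point `y0` on the wall, so
`j ∈ Z` (`y j ≠ 0`). Compare `wall_aux`. -/
def SpecSTP : Prop := ∀ (ι : Type) [Fintype ι] [DecidableEq ι] (U : Submodule ℝ (ι → ℝ))
  (y u : ι → ℝ), NZ U y → u ∈ U → (∃ i, y i * u i < 0) →
  ∃ Z : Finset ι, Z.Nonempty ∧ Z ⊆ act U ∧ (∀ i ∈ Z, y i * u i < 0) ∧
    (∀ i ∈ Z, ∀ j ∈ Z, Prl U i j) ∧ (∀ i ∈ Z, ∀ j ∈ act U, Prl U j i → j ∈ Z) ∧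
    (∃ y0 ∈ U, Pos y0 = Pos y \ Z ∧ Neg y0 = Neg y \ Z) ∧
    (∃ y1, NZ U y1 ∧ Pos y1 = (Pos y \ Z) ∪ (Neg y ∩ Z) ∧ Neg y1 = (Neg y \ Z) ∪ (Pos y ∩ Z))

/-- **UNI** [150 lines]. Uniform subspaces: `|act W| = dim W + k + 1` (equality in Lemma S).
PROOF. (1) If `kap W S ≥ 1` then `|act (K W S)| ≥ k + 2` (`card_act_ge`), but `act (K W S) ⊆ act W \ S` has at
most `k + 1` elements (compare `unif0`). (2) `≥` is `finrank_le_kap_add_card`; for `≤` enlarge `S` to a set of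
`dim W` elements of `act W`, where `kap = 0` by (1), and use `kap_le_insert`. (3) compare (2) for `S` and
`insert b S`. (4) from (3) for `S = {j}`. (5) for `i ∈ S` there is `μ_i ∈ K W (S.erase i)` with
`μ_i i = 1` by (3); take `∑ g i • μ_i`. -/
def SpecUNI : Prop := ∀ (ι : Type) [Fintype ι] [DecidableEq ι] (k : ℕ) (W : Submodule ℝ (ι → ℝ)),
  HS k W → 1 ≤ finrank ℝ W → (act W).card = finrank ℝ W + k + 1 →
  (∀ S ⊆ act W, finrank ℝ W ≤ S.card → kap W S = 0) ∧
  (∀ S ⊆ act W, S.card ≤ finrank ℝ W → kap W S + S.card = finrank ℝ W) ∧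
  (∀ S ⊆ act W, S.card < finrank ℝ W → ∀ b ∈ act W, b ∉ S → ∃ μ ∈ K W S, μ b ≠ 0) ∧
  (2 ≤ finrank ℝ W → ∀ i ∈ act W, ∀ j ∈ act W, i ≠ j → ¬ Prl W i j) ∧
  (∀ S ⊆ act W, S.card ≤ finrank ℝ W → ∀ g : ι → ℝ, ∃ μ ∈ W, ∀ i ∈ S, μ i = g i)

/-- **GRW** [120 lines]. Growth: `c` is a set of coordinates with the same direction on the positive side
(possibly empty), all other coordinates are pairwise not proportional, and the negative side is independent. Then
the negative side can be enlarged to a basis.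
PROOF. Induction on `kap W (Neg y)`. If it is `0` take `y' = y`. Otherwise let `φ ≠ 0` be in `K W (Neg y)`, and
`φ ≥ 0` on `c` (replace `φ` by `-φ`; the coordinates in `c` are positive multiples of each other). By `HC`
`φ i0 < 0` for some `i0`; `i0 ∉ Neg y`, so `y i0 > 0`. STP: the elements `i` of `Z` have `φ i ≠ 0`, so they are
not in `Neg y`, so `y i > 0`, `φ i < 0`, `i ∉ c`; so `Z = {x}`, `x ∈ act W \ c`. The new tope has the
positive side `Pos y \ {x} ⊇ c` and the negative side `insert x (Neg y)`, and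
`kap W (insert x (Neg y)) + 1 = kap W (Neg y)` (`kap_insert_of_ne`). -/
def SpecGRW : Prop := ∀ (ι : Type) [Fintype ι] [DecidableEq ι] (W : Submodule ℝ (ι → ℝ))
  (c : Finset ι), HC W → (∀ i ∈ c, ∀ j ∈ c, PrlP W i j) →
  (∀ i ∈ act W, i ∉ c → ∀ j ∈ act W, i ≠ j → ¬ Prl W i j) →
  ∀ y, NZ W y → c ⊆ Pos y → kap W (Neg y) + (Neg y).card = finrank ℝ W →
  ∃ y', NZ W y' ∧ c ⊆ Pos y' ∧ Neg y ⊆ Neg y' ∧ (Neg y').card = finrank ℝ W ∧
    kap W (Neg y') = 0

/-- **BLS** [200 lines]. Balanced topes and walls.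
PROOF. As `balanced_wall` in `Core.lean`. `|Pos l| + |Neg l| = |act W|` for topes. (1) `|act W| = 2q`, classes of
proportional coordinates have at most two elements. Let `s` be a tope with `|Pos s| ≤ q` (`s` or `-s`). Among the
topes `l` with `|Pos l| ≥ q` (e.g. `-s`) take one with the minimal number of coordinates `i` with
`l i * s i < 0`. If `|Pos l| = q` we are done. Otherwise there is such a coordinate (`Pos l ⊄ Pos s`); apply
STP to `l`, `u = s`: the new tope `l1` has fewer of them, so `|Pos l1| ≤ q - 1`; `|Z| ≤ 2`, so `Z = {e1, e2}`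
with `l e1, l e2 > 0`, `|Pos l| = q + 1`, `|Pos y0| = |Neg y0| = q - 1`, and `μ e2 = α μ e1` on `W` with
`α = l e2 / l e1 > 0`. (2) `|act W| = 2q + 1`, no proportional coordinates: the same with `|Pos l| ≥ q + 1`:
`Z = {z}`, `|Pos l| = q + 1`, and `y0` has `|Pos y0| = |Neg y0| = q`. -/
def SpecBLS : Prop :=
  (∀ (ι : Type) [Fintype ι] [DecidableEq ι] (W : Submodule ℝ (ι → ℝ)) (q : ℕ),
    (act W).card = 2 * q →
    (∀ i ∈ act W, ∀ j ∈ act W, ∀ l ∈ act W, i ≠ j → i ≠ l → j ≠ l → Prl W j i → ¬ Prl W l i) →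
    (∃ y, NZ W y ∧ (Pos y).card = q ∧ (Neg y).card = q) ∨
    (∃ y0 ∈ W, ∃ e1 ∈ act W, ∃ e2 ∈ act W, e1 ≠ e2 ∧ PrlP W e2 e1 ∧ y0 e1 = 0 ∧ y0 e2 = 0 ∧
      (∀ i ∈ act W, i ≠ e1 → i ≠ e2 → y0 i ≠ 0) ∧
      (Pos y0).card + 1 = q ∧ (Neg y0).card + 1 = q)) ∧
  (∀ (ι : Type) [Fintype ι] [DecidableEq ι] (W : Submodule ℝ (ι → ℝ)) (q : ℕ),
    (act W).card = 2 * q + 1 → (∀ i ∈ act W, ∀ j ∈ act W, i ≠ j → ¬ Prl W i j) →
    ∃ y0 ∈ W, ∃ z ∈ act W, y0 z = 0 ∧ (∀ i ∈ act W, i ≠ z → y0 i ≠ 0) ∧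
      (Pos y0).card = q ∧ (Neg y0).card = q)

/-! ## The simple case `n = 2m + 2` -/

/-- **SSS** [200 lines]. Main lemma: for a wall `(P | b | Q)` of minimal total kernel the signs on
`B ∪ C` (`b`, the coloops of `P` and of `Q`, and `C = cl P ∩ cl Q`) determine the signs of an element of
`K U {b}`.
PROOF (as in `simple_case`). Suppose `y i0 * z i0 ≤ 0` for some `i0 ∈ act U`, `i0 ≠ b`. If `z i0 = 0` replace `z` by
`z + ε w`, `w ∈ K U {b}`, `y i0 * w i0 < 0` (`i0` is not proportional to `b`, so it does not vanish on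
`K U {b}`; the strict inequalities on `B ∪ C` are kept). So `y i0 * z i0 < 0`. `perturb (K U {b})` `y` to `y'`
(same signs) such that `z j * y' i ≠ z i * y' j` for all `i, j ∈ act U` with `z i, z j ≠ 0` which are not
proportional on `K U {b}`, and apply `crossing y' z`. Its set `Z` is contained in `{i : y i * z i < 0}`, so it
does not meet `B ∪ C ∪ {b}`; its elements are pairwise proportional on `K U {b}`, so `|Z ∩ P| ≤ 1`,
`|Z ∩ Q| ≤ 1` (`no_two`). After the crossing `b` is still `0`. If `Z = {i}`, `i ∈ P`: the sides are `P \ i` and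
`Q ∪ i`; `K U (P \ i) = K U P` (`i` is no coloop), so leaving `b` to the positive side gives the kernel
`kap U P - 1`; `i ∉ cl Q` (else `i ∈ C`), so `kap U (Q ∪ i) = kap U Q - 1`: the sum is `kt - 1`, a contradiction to
`MinK` (`leave_wall`). `Z = {j}`, `j ∈ Q`: symmetric (`leave_wall'`). `Z = {i, j}`, `i ∈ P`, `j ∈ Q`: sides
`(P \ i) ∪ j`, `(Q \ j) ∪ i`; `K U (P \ i) = K U P`, `j ∉ cl P`, so the kernels are `kap U P - 1`,
`kap U Q - 1`: already a contradiction (leave `b` anywhere). -/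
def SpecSSS : Prop := ∀ (ι : Type) [Fintype ι] [DecidableEq ι] (U : Submodule ℝ (ι → ℝ)) (kt : ℕ)
  (y : ι → ℝ) (b : ι), Simple U → MinK U kt → Wall U kt y b → ∀ z ∈ U, z b = 0 →
  (∀ i ∈ act U, (Colp U (Pos y) i ∨ Colp U (Neg y) i ∨ (InCl U (Pos y) i ∧ InCl U (Neg y) i)) →
    0 < y i * z i) →
  ∀ i ∈ act U, i ≠ b → 0 < y i * z i

/-- **CNT** [250 lines]. The equality case. (hyps: SSS)
PROOF. `P = Pos y`, `Q = Neg y`, `P ∪ Q = act U \ b`. `Bp`, `Bq` the sets of coloops, `p`, `q` their numbers,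
`B = {b} ∪ Bp ∪ Bq`, `cl S = {i ∈ act U : InCl U S i}`, `C = cl P ∩ cl Q`. (a) `K U (B ∪ C) = 0`: let `u ≠ 0` be in
`U`, `u = 0` on `B ∪ C`; `u i ≠ 0` for some `i ∈ act U`, `i ≠ b`; choose `t` with `y i * (y i + t u i) < 0` and apply
SSS to `z = y + t u` (`z = y` on `B ∪ C`). (b) `act (K U P) = act U \ cl P`, Lemma S (`card_act_ge`, `kap U P ≥ 1`
by `pb`): `|cl P| ≤ n - kap U P - k - 1`, the same for `Q`; `b ∉ cl P ∪ cl Q`, so `|cl P ∪ cl Q| ≤ n - 1`, it
contains `P ∪ Q`: `= n - 1`. So `|C| = |cl P| + |cl Q| - (n - 1) ≤ n - kt - 2k - 2`. (c) `|B| ≤ m - kt`: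
`kap U (P \ Bp) ≥ kap U P + p`, `kap U (Q \ Bq) ≥ kap U Q + q` (`kap_sdiff_coloops`); let
`W0 = K U (P \ Bp ∪ Q \ Bq)`, `act W0 ⊆ B`. `dim W0 ≥ kap U (P \ Bp) + kap U (Q \ Bq) - m ≥ kt + |B| - m`
(`kap_union_add`, `|B| = 1 + p + q`). If `W0 ≠ 0` then `|B| ≥ dim W0 + k + 1 ≥ kt + |B| - m + k + 1`, so
`kt + k + 1 ≤ m`, a contradiction. So `W0 = 0`, `kt + |B| ≤ m`. (d) By (a) `|B ∪ C| ≥ m` (`finrank_le_kap_add_card`).
But `|B| + |C| ≤ n + m - 2kt - 2k - 2 = 3m - 2(kt + k) ≤ m` because `kt + k ≥ m`. So equality holds everywhere: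
`kt + k = m`, `|B| = m - kt`, `|C| = m - k ≥ 1` (`cne`), `B ∩ C = ∅` (`cp`, `cq`; note that `Bp ⊆ P ⊆ cl P`), the
equalities in Lemma S (`actP`, `actQ`), `kap U (P \ Bp) + kap U (Q \ Bq) = m` with intersection `W0 = 0`, so
`K U (P \ Bp) ⊔ K U (Q \ Bq) = U` (`both`: a coordinate vanishing on both vanishes on `U`). `basis`, `zero`:
the restriction `U → ℝ^(B ∪ C)` is injective by (a) and `|B ∪ C| = m`, so it is bijective. -/
def SpecCNT : Prop := ∀ (ι : Type) [Fintype ι] [DecidableEq ι] (k : ℕ) (U : Submodule ℝ (ι → ℝ))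
  (kt : ℕ) (y : ι → ℝ) (b : ι), k + 1 ≤ finrank ℝ U → (act U).card = 2 * finrank ℝ U + 2 →
  HS k U → Simple U → MinK U kt → finrank ℝ U < kt + (k + 1) → Wall U kt y b → Eqc k U kt y b

/-- **CLP** [100 lines]. The positive side has a coloop (here `HC` is used). (hyps: STP)
PROOF. Let `ν ∈ K U Q` with `ν b > 0` (`qb`, sign), `Q = Neg y`, `P = Pos y`. `HC`: `ν i0 < 0`; `i0 ∈ P`. `l = y + ε ν` has
`Pos l = P ∪ b`, `Neg l = Q` (`nudge`). STP from `l` in the direction `ν`: `Z = {x}` (`Simple`), `x ∈ Pos l`,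
`ν x < 0`, so `x ∈ P`. The new tope has the sides `(P ∪ b) \ x`, `Q ∪ x`. `kap U (Q ∪ x) = kap U Q - 1`, so by
`MinK` and `Wall.sum` `kap U ((P ∪ b) \ x) ≥ kap U P > kap U (P ∪ b)` (`pb`), so some
`μ ∈ K U ((P ∪ b) \ x)` has `μ x ≠ 0`; it is in `K U (P.erase x)`. -/
def SpecCLP : Prop := ∀ (ι : Type) [Fintype ι] [DecidableEq ι] (U : Submodule ℝ (ι → ℝ)) (kt : ℕ)
  (y : ι → ℝ) (b : ι), HC U → Simple U → MinK U kt → Wall U kt y b → ∃ i, Colp U (Pos y) i

/-- **FLP** [150 lines]. An element `c ∈ C` on the negative side can be moved to the positive side.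
(hyps: SSS)
PROOF. By `cq` `c` is no coloop of `Q`. Let `e ∈ U` be `1` at `c` and `0` on `(B ∪ C) \ c` (`Eqc.basis`), so `e b = 0`.
`perturb (K U {b})` `y` to `y'` (same signs) such that `y' j ≠ e j * y' c` for all `j ∈ act U`, `j ≠ b, c`: the
functional `proj j - e j • proj c` is not `0` on `K U {b}`, otherwise `j` is proportional to `c` on
`K U {b}`; if `j ∈ Q` this contradicts `no_two` (`j, c ∈ Q`), if `j ∈ P` it contradicts `no_two` for the set
`insert c P` (`K U (insert c P) = K U P` because `InCl U P c`). For `0 ≤ s < -y' c` the element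
`y' + s e` has the signs of `y'` (SSS, for the wall `y'`: same `Pos`, `Neg`), so at `s = -y' c` all
coordinates have weakly the signs of `y'`, and they are not `0` for `j ≠ b, c`. So for `s` slightly larger than
`-y' c` the signs are those of `y` except that `c` is positive. The new wall: `K U (insert c P) = K U P`
(`InCl`), `K U (Q.erase c) = K U Q` (`c` is no coloop of `Q`). -/
def SpecFLP : Prop := ∀ (ι : Type) [Fintype ι] [DecidableEq ι] (k : ℕ) (U : Submodule ℝ (ι → ℝ))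
  (kt : ℕ) (y : ι → ℝ) (b : ι), Simple U → MinK U kt → Eqc k U kt y b →
  ∀ c ∈ Neg y, InCl U (Pos y) c →
  ∃ y', Wall U kt y' b ∧ Pos y' = insert c (Pos y) ∧ Neg y' = (Neg y).erase c

/-- **XPR** [100 lines]. For `c ∈ C` on the positive side there is a coloop `x'` of `Q` with
`c ∉ cl (Q \ x')`.
PROOF. By `cp` `c` is no coloop of `P`, so the first condition of `Eqc.both` holds for `i = c`. So there is `μ ∈ U`
vanishing on the non-coloops of `Q` with `μ c ≠ 0`. For each coloop `x` of `Q` let `η_x ∈ K U (Q.erase x)`,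
`η_x x = 1`. `μ - ∑ (μ x) η_x ∈ K U Q`, it vanishes at `c` (`InCl`), so `η_x c ≠ 0` for some `x`. -/
def SpecXPR : Prop := ∀ (ι : Type) [Fintype ι] [DecidableEq ι] (k : ℕ) (U : Submodule ℝ (ι → ℝ))
  (kt : ℕ) (y : ι → ℝ) (b : ι), Eqc k U kt y b → ∀ c ∈ Pos y, InCl U (Neg y) c →
  ∃ x, Colp U (Neg y) x ∧ ∃ μ ∈ K U ((Neg y).erase x), μ c ≠ 0

/-- **CL3** [200 lines]. The rank 3 flat of `b`, `c`, `x`. (hyps: SSS)
PROOF. Note: a coordinate vanishing on `K U {b, c, x}` is a linear combination `β b + γ c + ξ x` on `U` (dual basis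
of `Eqc.basis` at `b, c, x`: `β, γ, ξ` are the values at the dual basis elements). Let `ν ∈ K U P`, `ν' ∈ K U Q`
with `ν b, ν' b ≠ 0`. (1) Let `i ∈ P`, `i ≠ c`, `i = β b + γ c + ξ x`. If `ξ = 0` then `0 = ν i = β ν b`, so
`i = γ c`, a contradiction to `Simple`. `i` is no coloop of `P` (`Eqc.basis`: an element which is `1` at `i` and `0` at
`b, c, x`). Let `P1 = P \ Bp` (`Bp` the coloops of `P`, `p ≥ 1` elements), `c, i ∈ P1`. On
`K U (P1 ∪ b)` also `x` vanishes. `dim K U (P1 ∪ b) ≥ kap U P + p - 1 ≥ 1`. Lemma S: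
`|act (K U (P1 ∪ b))| ≥ kap U P + p + k`. But `act (K U (P1 ∪ b)) ⊆ act U \ (P1 ∪ {b, x})`, which has
`n - |P| + p - 2` elements, and `n - |P| = kap U P + k + 1` by `Eqc.actP` because
`act (K U P) = act U \ P` (an element of `cl P ∩ Q` is in `C`, hence in `Pos y` by hypothesis).
Contradiction. (2) Let `i ∈ Q`, `i ≠ x`, `i = β b + γ c + ξ x`. `0 = ν' i = β ν' b` (`c ∈ cl Q`), so `β = 0`;
`ξ, γ ≠ 0` by `Simple`; `i` is no coloop of `Q` as in (1). Signs: let `e` (`f`) be the dual basis element of `c`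
(`x`); `e i = γ`, `f i = ξ`, `y i = ξ y x + γ y c < 0`, `y x < 0 < y c`. SSS for `z = y - s (y c) e`, `0 < s < 1`:
`z i = ξ y x + (1 - s) γ y c < 0`; `s → 1` gives `ξ ≥ 0`. SSS for `z = y + s (y c) e`, `s > 0`:
`ξ y x + (1 + s) γ y c < 0` for all `s > 0`, so `γ ≤ 0`. Uniqueness: let `η ∈ K U (Q.erase x)`, `η x ≠ 0`; then
`0 = η i = ξ η x + γ η c`, so `ξ / γ` is the same for all such `i`, and two of them are proportional. -/
def SpecCL3 : Prop := ∀ (ι : Type) [Fintype ι] [DecidableEq ι] (k : ℕ) (U : Submodule ℝ (ι → ℝ))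
  (kt : ℕ) (y : ι → ℝ) (b : ι), HS k U → Simple U → MinK U kt → Eqc k U kt y b →
  (∀ i ∈ act U, InCl U (Pos y) i → InCl U (Neg y) i → i ∈ Pos y) → (∃ i, Colp U (Pos y) i) →
  ∀ c ∈ Pos y, InCl U (Neg y) c → ∀ x, Colp U (Neg y) x →
  (∃ μ ∈ K U ((Neg y).erase x), μ c ≠ 0) →
  (∀ i ∈ Pos y, i ≠ c → ∃ μ ∈ K U {b, c, x}, μ i ≠ 0) ∧
  (∀ i ∈ Neg y, i ≠ x → (∀ μ ∈ K U {b, c, x}, μ i = 0) → ¬ Colp U (Neg y) i ∧
    ∃ ξ γ : ℝ, 0 < ξ ∧ γ < 0 ∧ ∀ μ ∈ U, μ i = ξ * μ x + γ * μ c) ∧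
  (∀ i ∈ Neg y, i ≠ x → (∀ μ ∈ K U {b, c, x}, μ i = 0) →
    ∀ j ∈ Neg y, j ≠ x → (∀ μ ∈ K U {b, c, x}, μ j = 0) → i = j)

/-- **SFN** [250 lines]. The final step. (hyps: SSS, CL3)
PROOF. `P = Pos y`, `Q = Neg y`; `e`, `f` the dual basis elements of `c`, `x` (`1` at `c` resp. `x`, `0` on the rest
of `B ∪ C`). For `v ∈ K U {b}` let `T v = v - (v c) e - (v x) f ∈ K U {b, c, x}`. `perturb (K U {b})` `y` to `y'`
(same signs) such that `T y' j ≠ 0` for all `j ∈ act U` which do not vanish on `K U {b, c, x}` (`T` is the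
identity there). By SSS `y' - s ((y' c) e + (y' x) f)`, `0 ≤ s < 1`, has the signs of `y'`, so for these `j`
`T y' j` has strictly the sign of `y' j`. These `j` are all of `P \ c` and all of `Q \ x` except at most one
element `i` (CL3). CASE 1: there is no `i`. `z = T y' + δ (f - e)`, `δ > 0` small: `Pos z = (P \ c) ∪ x`,
`Neg z = (Q \ x) ∪ c`, `z b = 0`. `K U (P \ c) = K U P` (`c` is no coloop by `cp`), `x ∉ cl P` by `cq`:
`kap U (Pos z) = kap U P - 1`. `kap U (Q \ x) = kap U Q + 1`, `c ∉ cl (Q \ x)`: `kap U (Neg z) = kap U Q`, and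
`ν' ∈ K U Q` (`ν' b ≠ 0`) is in `K U (Neg z)`, so `kap U (insert b (Neg z)) = kap U Q - 1`. The sum is
`kt - 1`, a contradiction (`leave_wall'` for `z`). CASE 2: `i = ξ x + γ c`, `ξ > 0 > γ`. `z = T y' - δ e - δ' f` with
`0 < δ' < δ |γ| / ξ` small: `c, x < 0`, `z i = - δ γ - δ' ξ > 0`: `Pos z = (P \ c) ∪ i`, `Neg z = (Q \ i) ∪ c`.
`i ∉ cl P` (otherwise `i ∈ C`, so `i ∈ Pos y` by hypothesis), so `kap U (Pos z) = kap U P - 1`; `i` is no coloop
of `Q` and `c ∈ cl Q`, so `K U (Neg z) = K U Q`, `kap U (insert b (Neg z)) = kap U Q - 1`. Contradiction. -/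
def SpecSFN : Prop := ∀ (ι : Type) [Fintype ι] [DecidableEq ι] (k : ℕ) (U : Submodule ℝ (ι → ℝ))
  (kt : ℕ) (y : ι → ℝ) (b : ι), HS k U → Simple U → MinK U kt → Eqc k U kt y b →
  (∀ i ∈ act U, InCl U (Pos y) i → InCl U (Neg y) i → i ∈ Pos y) → (∃ i, Colp U (Pos y) i) →
  ∀ c ∈ Pos y, InCl U (Neg y) c → ∀ x, Colp U (Neg y) x →
  (∃ μ ∈ K U ((Neg y).erase x), μ c ≠ 0) → False

/-- **SMP** [120 lines]. The simple case for `n ≤ 2m + 2`. (hyps: CNT, CLP, FLP, XPR, SFN)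
PROOF. `n ≤ 2m + 1` is `simple_case`. Let `n = 2m + 2` and suppose `¬ Good k U`. Let `kt` be the minimal total
kernel (as in `simple_case`), `m < kt + k + 1`, `wall` gives a `Wall`. Among all walls take one with the minimal
number of elements of `{c ∈ Neg y : InCl U (Pos y) c}`; by FLP (with CNT) this number is `0` (the new wall has
the same closures of both sides), so the hypothesis of SFN on `C` holds. CNT gives `Eqc`, `c` from `cne`
(`c ∈ Pos y`), CLP the coloop of `P`, XPR the element `x`; SFN is the contradiction. -/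
def SpecSMP : Prop := ∀ (ι : Type) [Fintype ι] [DecidableEq ι] (k : ℕ) (U : Submodule ℝ (ι → ℝ)),
  k + 1 ≤ finrank ℝ U → (act U).card ≤ 2 * finrank ℝ U + 2 → HS k U → HC U → Simple U → Good k U

end MPa0e17f
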