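import Pool.Agent.Lib.MP_a0e17f.Lower

/-!
# Specifications, part L: the lower bound `N(k,d) ≥ 2d - k + 3 + j`

THEOREM B. Let `j ≥ 1`, `k ≥ 27j - 21`, `d ≥ k + 4j - 3`. There is a `k`-independent set of `2d - k + 2 + j`
points in `ℝ^d` which is not `(2,k)`-divisible.

IDEA. Let `m = d - k + 1 + j`. We construct an `m`-dimensional space `U` of functions on an index set `JX` with
`n = 2m + k - j` elements: `x = 4j - 3` blocks with nine elements, `D = m - 5j + 3` doubles, `S = k - 27j + 21` singles.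
`CF` is the space of functions which have on each block the form `α_i - β_l` (the cycle space relation of the
graph `K_{3,3}`) and equal values on the two elements of each double; `CE ≤ CF` is given by `∑ μ = 0`; `U ≤ CE` is
a generic subspace of dimension `m`. (1) For a nowhere zero function `α_i - β_l` there are two rows and two
columns with the same sign; so in each block and in each double the rank of one side is smaller by one than its
number of elements: `rank Pos + rank Neg ≤ n - D - x = m + k`. So `U` is not `Good`. (2) A set of coordinates of rank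
at most `m - 1` has at most `2m - j - 2 = n - (k + 2)` elements (a set of rank `ρ ≥ 1` in a block has at most
`2ρ - 1` elements), so every nonzero `μ ∈ U` has at least `k + 2` nonzero coordinates.

Files `T/XXX.lean`, `import Pool.Agent.Lib.MP_a0e17f.T.SpecL`, namespace `MPa0e17f`,
`theorem specXXX (hYYY : SpecYYY) .. : SpecXXX`; own lemmas in the namespace `MPa0e17f.XXXM`. No double
quotes in files please.
-/

set_option autoImplicit false

namespace MPa0e17f

open Finset Module

/-- the index set: `x` blocks, `D` doubles, `S` singles -/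
abbrev JX (x D S : ℕ) : Type := (Fin x × (Fin 3 × Fin 3)) ⊕ ((Fin D × Bool) ⊕ Fin S)

/-- functions of the form `α_i - β_l` on the blocks, with equal values on the doubles -/
def CF (x D S : ℕ) : Submodule ℝ (JX x D S → ℝ) where
  carrier := {μ | (∀ b i i' l l', μ (Sum.inl (b, (i, l))) + μ (Sum.inl (b, (i', l'))) =
      μ (Sum.inl (b, (i, l'))) + μ (Sum.inl (b, (i', l)))) ∧
    ∀ c, μ (Sum.inr (Sum.inl (c, true))) = μ (Sum.inr (Sum.inl (c, false)))}
  add_mem' := by
    rintro a b ⟨ha, ha'⟩ ⟨hb, hb'⟩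
    refine ⟨fun t i i' l l' => ?_, fun c => ?_⟩
    · simp only [Pi.add_apply]
      have h1 := ha t i i' l l'
      have h2 := hb t i i' l l'
      linarith
    · simp only [Pi.add_apply, ha' c, hb' c]
  zero_mem' := ⟨fun _ _ _ _ _ => by simp, fun _ => rfl⟩
  smul_mem' := by
    rintro r a ⟨ha, ha'⟩
    refine ⟨fun t i i' l l' => ?_, fun c => ?_⟩
    · simp only [Pi.smul_apply, smul_eq_mul, ← mul_add, ha t i i' l l']
    · simp only [Pi.smul_apply, ha' c]

/-- the elements of `CF` with sum `0` -/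
noncomputable def CE (x D S : ℕ) : Submodule ℝ (JX x D S → ℝ) :=
  CF x D S ⊓ LinearMap.ker (sumOn (univ : Finset (JX x D S)))

/-- free independence of a set of coordinates -/
def FI (x D S : ℕ) (F : Finset (JX x D S)) : Prop :=
  (∀ b : Fin x, ∀ g : Fin 3 → Fin 3 → ℝ, ∃ α β : Fin 3 → ℝ, ∀ i l,
    (Sum.inl (b, (i, l)) : JX x D S) ∈ F → α i - β l = g i l) ∧
  (∀ c : Fin D, ¬ ((Sum.inr (Sum.inl (c, true)) : JX x D S) ∈ F ∧
    (Sum.inr (Sum.inl (c, false)) : JX x D S) ∈ F))

/-- **GEN** [150 lines]. A generic subspace.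
PROOF. Induction on `m`; `m = 0`: `U = ⊥`. Step: let `U ≤ E`, `dim U = m`, `U ⊓ K E T = ⊥` for `T ∈ F` (note
`K U T = U ⊓ K E T`). `dim (U ⊔ K E T) ≤ m + kap E T < dim E`, and `dim U < dim E`, so there is `u ∈ E` outside the
finitely many proper subspaces `U ⊔ K E T` and `U` of `E` (a vector space over `ℝ` is not a finite union of
proper subspaces; work in `E`, or use `exists_generic` of `Core.lean` with one functional vanishing on each
`U ⊔ K E T` but not on `E`). Take `U ⊔ span u`. -/
def SpecGEN : Prop := ∀ (ι : Type) [Fintype ι] [DecidableEq ι] (E : Submodule ℝ (ι → ℝ)) (m : ℕ)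
  (F : Finset (Finset ι)), m ≤ finrank ℝ E → (∀ T ∈ F, kap E T + m ≤ finrank ℝ E) →
  ∃ U : Submodule ℝ (ι → ℝ), U ≤ E ∧ finrank ℝ U = m ∧ ∀ T ∈ F, kap U T = 0

/-- **IVK** [60 lines].
PROOF. Induction on `F` with `kap_insert_of_ne`, or rank-nullity for the evaluation `U → (F → ℝ)`. -/
def SpecIVK : Prop := ∀ (ι : Type) [Fintype ι] [DecidableEq ι] (U : Submodule ℝ (ι → ℝ))
  (F : Finset ι), (∀ g : ι → ℝ, ∃ μ ∈ U, ∀ i ∈ F, μ i = g i) → kap U F + F.card = finrank ℝ U

/-- **BLK** [150 lines]. Large forests in subgraphs of `K_{3,3}`.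
PROOF. Let `r` be the largest number of elements of `T` in a row, attained in row `i0` (`r ≥ 1`), and `q` the number
of other rows meeting `T`. `F` = all elements of `T` in row `i0` and one element `(i, l_i)` of `T` in each of these `q`
rows. `|T| ≤ r (1 + q)`, `|F| = r + q`, `1 ≤ r ≤ 3`, `q ≤ 2`: `|T| + 1 ≤ 2 |F|`. Given `g` put `α i0 = 0`,
`β l = - g i0 l`, `α i = β l_i + g i l_i` for the `q` rows, and `α i = 0` for the rest. -/
def SpecBLK : Prop := ∀ T : Finset (Fin 3 × Fin 3), T.Nonempty → ∃ F ⊆ T,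
  T.card + 1 ≤ 2 * F.card ∧
  ∀ g : Fin 3 → Fin 3 → ℝ, ∃ α β : Fin 3 → ℝ, ∀ i l, (i, l) ∈ F → α i - β l = g i l

/-- **FR1** [250 lines]. A large set of coordinates contains `m` freely independent ones. (hyps: BLK)
PROOF. Let `F0 ⊆ T` consist of: in every block which meets `T` the set of BLK; of every double which meets `T` one
element of `T`; all singles in `T`. `F0` and all its subsets satisfy `FI`. Let `q` be the number of blocks meeting
`T` and `σ` the number of singles in `T`. Summing up, `|T| + q + σ ≤ 2 |F0|`. Suppose `|F0| ≤ m - 1`. If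
`q + σ ≥ j` then `|T| ≤ 2m - 2 - j`, a contradiction. If `q + σ ≤ j - 1` then
`|T| ≤ 9q + 2D + σ ≤ 9(j - 1) + 2(m + 3 - 5j) = 2m - j - 3`, a contradiction. So `|F0| ≥ m`; take a subset with
`m` elements. -/
def SpecFR1 : Prop := ∀ (x D S m j : ℕ), 1 ≤ j → x + 3 = 4 * j → D + 5 * j = m + 3 →
  ∀ T : Finset (JX x D S), 2 * m ≤ T.card + j + 1 → ∃ F ⊆ T, F.card = m ∧ FI x D S F

/-- **FR2** [250 lines]. Freely independent sets with `m` elements are independent on `CE`.
PROOF. Given `g`, by `FI` there is `μ0 ∈ CF` with `μ0 = g` on `F` (blocks: `α_i - β_l`; doubles: the value of `g` at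
the element in `F`, if any; singles: `g`). It suffices to find `η ∈ CF` with `η = 0` on `F` and `∑ η ≠ 0`; then
`μ = μ0 - (∑ μ0 / ∑ η) η`. (a) If a double has no element in `F` let `η` be `1` on both its elements and `0`
elsewhere. (b) If a single is not in `F` let `η` be `1` there. (c) Otherwise `F` contains exactly
`m - D - S ≤ 5j - 3 < 12j - 9 = 3x` elements in blocks, so there is a block `b` with at most two elements of `F`, so
a row `i0` of this block without elements of `F`: let `η` be `1` on this row and `0` elsewhere, `∑ η = 3`. -/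
def SpecFR2 : Prop := ∀ (x D S m j : ℕ), 1 ≤ j → x + 3 = 4 * j → D + 5 * j = m + 3 →
  ∀ F : Finset (JX x D S), F.card = m → FI x D S F →
  ∀ g : JX x D S → ℝ, ∃ μ ∈ CE x D S, ∀ i ∈ F, μ i = g i

/-- **KTT** [100 lines]. A monochromatic four-cycle.
PROOF. `f i l = f i 0 + (f 0 l - f 0 0)`, so the sets `P i = {l : 0 < f i l}` are nested. Two of the three rows
`i ≠ i'` have both `|P| ≥ 2` or both `|P| ≤ 1`. In the first case `P i ⊆ P i'` (or conversely), so there are
`l ≠ l'` in `P i ∩ P i'`; in the second case the same for the complements, where `f < 0`. -/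
def SpecKTT : Prop := ∀ f : Fin 3 → Fin 3 → ℝ,
  (∀ i i' l l', f i l + f i' l' = f i l' + f i' l) → (∀ i l, f i l ≠ 0) →
  ∃ i i' l l', i ≠ i' ∧ l ≠ l' ∧
    ((0 < f i l ∧ 0 < f i l' ∧ 0 < f i' l ∧ 0 < f i' l') ∨
      (f i l < 0 ∧ f i l' < 0 ∧ f i' l < 0 ∧ f i' l' < 0))

/-- **NGD** [250 lines]. (hyps: KTT)
PROOF. Let `l0 ∈ U`. Remove from the index set: of each double `c` the element `(c, false)`; of each block one
element: a zero of `l0` if there is one in the block, otherwise the element `(i, l)` of KTT (for `f = l0` on the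
block). Let `R` be the set of the remaining elements, `|R| = n - D - x = 8x + D + S = m + k`. Let
`P' = Pos l0 ∩ R`, `N' = Neg l0 ∩ R`. Then `K U P' = K U (Pos l0)`: a removed `(c, false)` in `Pos l0` has the same
value as `(c, true) ∈ P'`; a removed `(i, l)` in `Pos l0` of a block comes from KTT, and
`μ (i, l) = μ (i, l') + μ (i', l) - μ (i', l')` with the three others in `P'`. The same for `Neg`. So
`m ≤ kap U (Pos l0) + |P'|`, `m ≤ kap U (Neg l0) + |N'|` (`finrank_le_kap_add_card`), `|P'| + |N'| ≤ m + k`, so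
`m ≤ kap U (Pos l0) + kap U (Neg l0) + k`. -/
def SpecNGD : Prop := ∀ (x D S m j k : ℕ), 1 ≤ j → x + 3 = 4 * j → D + 5 * j = m + 3 →
  S + 27 * j = k + 21 → ∀ U : Submodule ℝ (JX x D S → ℝ), U ≤ CF x D S → finrank ℝ U = m →
  ¬ Good k U

/-- **CRI** [350 lines]. The converse of `divisible_of_good`.
PROOF. Beginning as in `not_divisible_of_finrank_dep_le` (`Lower.lean`): `S₁ = A.map p`, `S₂ = Aᶜ.map p`, `C` the
intersection of the convex hulls. Let `H` be the set of `c ∈ dep p` with `c ≥ 0` on `A`, `c ≤ 0` on `Aᶜ`,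
`sumOn A c = 1`. Every point of `C` is `psi p A c` for some `c ∈ H` (`hrep` there, with the signs). `H ≠ ∅`. Choose
`l ∈ H` with the maximal number of nonzero coordinates; then `c i = 0` for all `c ∈ H` and all `i` with
`l i = 0` (otherwise `(l + c) / 2 ∈ H` has more nonzero coordinates). Let `Z = {i : l i = 0}`, `U1 = K (dep p) Z`;
`H ⊆ U1`. `W = U1 ⊓ ker (sumOn A)`: `vectorSpan C ≤ W.map (psi p A)`, `dim W + 1 ≤ dim U1` (`l`). The kernel of
`psi p A` on `W` contains `K U1 (Pos l)` (functions supported in `Neg l ⊆ Aᶜ`) and `K U1 (Neg l)` (functions supported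
in `Pos l ⊆ A`: `∑_A c = ∑ c = 0`, `∑_A c p = ∑ c p = 0`), and these two intersect in `0`. So
`k ≤ dim vectorSpan C ≤ dim W - kap U1 (Pos l) - kap U1 (Neg l)`, so `Good k U1` (with `l`; `act U1 ⊆ Zᶜ`). Finally
`Good k (K U Z) → Good k U` for every `Z`: induction on `Z` with `K_K` and `contract` (if `i ∉ act (K U Z')` then
`K (K U Z') {i} = K U Z'`). -/
def SpecCRI : Prop := ∀ (ι : Type) [Fintype ι] [DecidableEq ι] (d k : ℕ)
  (p : ι ↪ EuclideanSpace ℝ (Fin d)), Divisible k (univ.map p) → Good k (dep p)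

/-- **RLZ** [200 lines]. Realization.
PROOF. `V0 = {μ : ∑ μ = 0}` has dimension `card ι - 1` (`ι` is not empty), `U ≤ V0`, and `dim V0 - dim U = d`; so
there is a linear map `ψ : V0 → EuclideanSpace ℝ (Fin d)` with kernel `U` (`V0 / U` has dimension `d`; a linear
equivalence of `V0 / U` with the Euclidean space composed with the quotient map). Fix `i0 ∈ ι` and let
`p i = ψ (e_i - e_{i0})` (`e_i = Pi.single i 1`). If `∑ μ = 0` then `∑ μ i • p i = ψ μ`. So `dep p = U`. If `p i = p l`,
`i ≠ l`, then `e_i - e_l ∈ U` has two nonzero coordinates, a contradiction. -/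
def SpecRLZ : Prop := ∀ (ι : Type) [Fintype ι] [DecidableEq ι] (d : ℕ) (U : Submodule ℝ (ι → ℝ)),
  (∀ μ ∈ U, ∑ i, μ i = 0) → finrank ℝ U + d + 1 = Fintype.card ι →
  (∀ μ ∈ U, μ ≠ 0 → 3 ≤ (univ.filter (fun i => μ i ≠ 0)).card) →
  ∃ p : ι ↪ EuclideanSpace ℝ (Fin d), dep p = U

/-- **LOW** [150 lines]. Theorem B. (hyps: GEN, IVK, FR1, FR2, NGD, CRI, RLZ)
PROOF. `m = d - k + 1 + j`, `x = 4j - 3`, `D = m + 3 - 5j ≥ 1`, `S = k + 21 - 27j`, `n = 9x + 2D + S = 2m + k - j`. GEN for
`E = CE` and the family of all `T` with `2m ≤ |T| + j + 1`: by FR1, FR2, IVK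
`kap CE T ≤ kap CE F = dim CE - m`. Get `U`. If `μ ∈ U`, `μ ≠ 0` has at most `k + 1` nonzero coordinates then its zero
set `T` has at least `n - k - 1 = 2m - j - 1` elements, `kap U T = 0`, a contradiction. RLZ
(`m + d + 1 = n`): `p` with `dep p = U`; `kindep_iff_dep`; CRI and NGD. The lower bound for `N` as in `N_bounds`. -/
def SpecLOW : Prop := ∀ (j k d : ℕ), 1 ≤ j → 27 * j ≤ k + 21 → k + 4 * j ≤ d + 3 →
  (∃ S : Finset (EuclideanSpace ℝ (Fin d)), KIndep k S ∧ ¬ Divisible k S ∧
    S.card + k = 2 * d + 2 + j) ∧ 2 * d + 3 + j ≤ N k d + k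

end MPa0e17f
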